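import Pool.Agent.Lib.MP_2ab38c_co.Core

/-!
JOB AG2.  Lower bounds for `Gf`.  Put `y = x - 1`, `t = β/x`.
`Gf_mid`: `x Gf x (β/x) = β (1-t) log ((x-β)/(β y)) - β + β^2`, and
`log ((x-β)/y) = log (1 + (1-β)/y) ≥ (1-β)/(x-β)` (from `log (1+z) ≥ z/(1+z)`), so
`x Gf ≥ β [(1-t) log (1/β) + (1-β)/x - 1 + β] = β [log (1/β) - 1 + β + (1/x)((1-β) - β log (1/β))]
≥ β (log (1/β) - 1 + β) =: q β` (as `β log (1/β) ≤ 1-β`).
`q` is increasing then decreasing on `(0,1)` (or concave on the range: `q'' = -1/β + 2 < 0` for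
`β < 1/2`; `q' = log (1/β) - 2 + 2β`), so `q ≥ min (q 0.03) (q 0.62) ≥ min 0.0760 0.06078`.
`Gf_quad`: for `0.62/x ≤ t < 1` put `v = (1-t)/t`, `z = (v-y)/y`, so that
`Gf x t = t^2 y ((1+z) log (1+z) - z)` and `t (v - y) = 1 - x t`.  If `z ≥ 0` then
`(1+z) log (1+z) - z ≥ z^2/(2(1+z))`, so `Gf ≥ (1-xt)^2 t/(2(1-t)) ≥ (0.31/x)(1-xt)^2`.
If `-1 ≤ z ≤ 0` then `(1+z) log (1+z) - z ≥ z^2/2`, so `Gf ≥ (1-xt)^2/(2y)`.
(`t = 1`: `Gf x 1 = x - 1 ≥ (0.3/x)(x-1)^2`.)
-/

namespace MP2ab38c

open Finset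

private lemma AG2_log_tangent {b c : ℝ} (hb : 0 < b) (hc : 0 < c) :
    Real.log b ≤ Real.log c + b / c - 1 := by
  have h := Real.log_le_sub_one_of_pos (div_pos hb hc)
  rw [Real.log_div hb.ne' hc.ne'] at h
  linarith

private lemma AG2_log062 : Real.log 0.62 ≤ -0.478 := by
  have h := Real.sum_range_le_log_div (x := 19 / 81) (by norm_num) (by norm_num) 3
  have h2 : (1 + 19 / 81 : ℝ) / (1 - 19 / 81) = 0.62⁻¹ := by norm_num
  rw [h2, Real.log_inv] at h
  norm_num [Finset.sum_range_succ] at h ⊢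
  linarith

private lemma AG2_log01 : Real.log 0.1 ≤ -2.2934 := by
  have h1 : Real.log ((2 : ℝ) ^ 93) ≤ Real.log ((10 : ℝ) ^ 28) :=
    Real.log_le_log (by positivity) (by norm_num)
  rw [Real.log_pow, Real.log_pow] at h1
  have h2 := Real.log_two_gt_d9
  have h3 : (0.1 : ℝ) = 10⁻¹ := by norm_num
  rw [h3, Real.log_inv]
  push_cast at h1
  linarith

private lemma AG2_q {b : ℝ} (h1 : 0.03 ≤ b) (h2 : b ≤ 0.62) :
    0.0607 ≤ b * (-Real.log b - 1 + b) := by
  have hb : 0 < b := by linarith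
  rcases le_total b 0.2 with h | h
  · have h3 := AG2_log_tangent hb (c := 0.1) (by norm_num)
    have h4 := AG2_log01
    have h5 : Real.log b ≤ -2.2934 + b / 0.1 - 1 := by linarith
    have h6 : b * (2.2934 - b / 0.1 + b) ≤ b * (-Real.log b - 1 + b) := by
      apply mul_le_mul_of_nonneg_left _ hb.le
      linarith
    refine le_trans ?_ h6
    have h7 : b / 0.1 = 10 * b := by ring
    rw [h7]
    nlinarith
  · have h3 := AG2_log_tangent hb (c := 0.62) (by norm_num)
    have h4 := AG2_log062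
    have h6 : b * (0.478 - b / 0.62 + b) ≤ b * (-Real.log b - 1 + b) := by
      apply mul_le_mul_of_nonneg_left _ hb.le
      linarith
    refine le_trans ?_ h6
    have h7 : b / 0.62 = (50 / 31) * b := by ring
    rw [h7]
    nlinarith [mul_nonneg (sub_nonneg.mpr h) (sub_nonneg.mpr h2)]

theorem Gf_mid {x β : ℝ} (hx : 1 < x) (h1 : 0.03 ≤ β) (h2 : β ≤ 0.62) :
    0.0607 / x ≤ Gf x (β / x) := by
  have hx0 : 0 < x := by linarith
  have hβ : 0 < β := by linarith
  have hy : 0 < x - 1 := by linarith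
  have hxb : 0 < x - β := by linarith
  have hq := AG2_q h1 h2
  have e1 : (1 - β / x) / (β / x * (x - 1)) = (x - β) / (x - 1) / β := by
    field_simp
  have e2 : Real.log ((1 - β / x) / (β / x * (x - 1))) =
      Real.log ((x - β) / (x - 1)) - Real.log β := by
    rw [e1, Real.log_div (div_pos hxb hy).ne' hβ.ne']
  have e3 : 1 - (x - 1) / (x - β) ≤ Real.log ((x - β) / (x - 1)) := by
    have h := Real.one_sub_inv_le_log_of_pos (div_pos hxb hy)
    rwa [inv_div] at h
  have e4 : -Real.log β ≤ 1 / β - 1 := by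
    have h := Real.log_le_sub_one_of_pos (inv_pos.mpr hβ)
    rw [Real.log_inv] at h
    rwa [one_div]
  rw [div_le_iff₀ hx0]
  have e5 : Gf x (β / x) * x = β * (1 - β / x) *
      (Real.log ((x - β) / (x - 1)) - Real.log β) - β + β ^ 2 := by
    unfold Gf
    rw [e2]
    field_simp
  rw [e5]
  have ht : 0 < 1 - β / x := by
    have : 1 - β / x = (x - β) / x := by field_simp
    rw [this]; positivity
  have e6 : β * (1 - β / x) * (1 - (x - 1) / (x - β) - Real.log β) ≤
      β * (1 - β / x) * (Real.log ((x - β) / (x - 1)) - Real.log β) := by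
    apply mul_le_mul_of_nonneg_left _ (mul_pos hβ ht).le
    linarith
  have e7 : β * (1 - β / x) * (1 - (x - 1) / (x - β) - Real.log β) - β + β ^ 2 =
      β * (-Real.log β - 1 + β) + β / x * (1 - β + β * Real.log β) := by
    field_simp
    ring
  have e8 : 0 ≤ 1 - β + β * Real.log β := by
    have h := mul_le_mul_of_nonneg_left e4 hβ.le
    have h' : β * (1 / β - 1) = 1 - β := by field_simp
    linarith
  have e9 : 0 ≤ β / x * (1 - β + β * Real.log β) := mul_nonneg (div_pos hβ hx0).le e8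
  linarith

private lemma AG2_H_large {s : ℝ} (hs : 1 ≤ s) :
    (s - 1) ^ 2 / (2 * s) ≤ s * Real.log s - s + 1 := by
  have h := Real.le_log_one_add_of_nonneg (x := s - 1) (by linarith)
  have h1 : 1 + (s - 1) = s := by ring
  rw [h1] at h
  have h2 : s * (2 * (s - 1) / (s - 1 + 2)) ≤ s * Real.log s :=
    mul_le_mul_of_nonneg_left h (by linarith)
  have h3 : s * (2 * (s - 1) / (s - 1 + 2)) - s + 1 = (s - 1) ^ 2 / (s + 1) := by
    have : s - 1 + 2 = s + 1 := by ring
    rw [this]
    field_simp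
    ring
  have h4 : (s - 1) ^ 2 / (2 * s) ≤ (s - 1) ^ 2 / (s + 1) := by
    apply div_le_div_of_nonneg_left (sq_nonneg _) (by linarith) (by linarith)
  linarith

private lemma AG2_H_small {s : ℝ} (hs0 : 0 < s) (hs : s ≤ 1) :
    (s - 1) ^ 2 / 2 ≤ s * Real.log s - s + 1 := by
  have hanti : AntitoneOn (fun u : ℝ => u * Real.log u - u + 1 - (u - 1) ^ 2 / 2)
      (Set.Icc s 1) := by
    apply antitoneOn_of_deriv_nonpos (convex_Icc s 1)
    · apply ContinuousOn.sub
      · apply ContinuousOn.add _ continuousOn_const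
        apply ContinuousOn.sub _ continuousOn_id
        exact Real.continuous_mul_log.continuousOn
      · fun_prop
    · intro u hu
      rw [interior_Icc] at hu
      have hu0 : u ≠ 0 := by have := hu.1; linarith
      apply DifferentiableAt.differentiableWithinAt
      fun_prop (disch := assumption)
    · intro u hu
      rw [interior_Icc] at hu
      have hu0 : 0 < u := by have := hu.1; linarith
      have hd : HasDerivAt (fun u : ℝ => u * Real.log u - u + 1 - (u - 1) ^ 2 / 2)
          (Real.log u - (u - 1)) u := by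
        have d1 : HasDerivAt (fun u : ℝ => u * Real.log u) (Real.log u + 1) u :=
          Real.hasDerivAt_mul_log hu0.ne'
        have d2 : HasDerivAt (fun u : ℝ => (u - 1) ^ 2 / 2) (u - 1) u := by
          have d3 := (((hasDerivAt_id u).sub_const 1).pow 2).div_const 2
          refine d3.congr_deriv ?_
          simp
        refine (((d1.sub (hasDerivAt_id u)).add_const 1).sub d2).congr_deriv ?_
        ring
      rw [hd.deriv]
      have := Real.log_le_sub_one_of_pos hu0
      linarith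
  have h := hanti (Set.left_mem_Icc.mpr hs) (Set.right_mem_Icc.mpr hs) hs
  simp at h
  linarith

theorem Gf_quad {x t : ℝ} (hx : 6.3 ≤ x) (h1 : 0.62 / x ≤ t) (h2 : t ≤ 1) :
    0.3 / x * (1 - x * t) ^ 2 ≤ Gf x t := by
  have hx0 : 0 < x := by linarith
  have hy : 0 < x - 1 := by linarith
  have ht0 : 0 < t := lt_of_lt_of_le (by positivity) h1
  rcases h2.eq_or_lt with rfl | h2
  · have e : Gf x 1 = x - 1 := by unfold Gf; ring
    rw [e, div_mul_eq_mul_div, div_le_iff₀ hx0]
    nlinarith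
  have h1t : 0 < 1 - t := by linarith
  set s : ℝ := (1 - t) / (t * (x - 1)) with hs
  have hs0 : 0 < s := by positivity
  have hst : s * (t * (x - 1)) = 1 - t := by rw [hs]; field_simp
  have e : Gf x t = t ^ 2 * (x - 1) * (s * Real.log s - s + 1) := by
    unfold Gf
    rw [← hs]
    have e1 : t ^ 2 * (x - 1) * (s * Real.log s - s + 1) =
        t * (s * (t * (x - 1))) * Real.log s - t * (s * (t * (x - 1))) + t ^ 2 * (x - 1) := by
      ring
    rw [e1, hst]
    ring
  have e2 : t * (x - 1) * (s - 1) = 1 - x * t := by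
    have : t * (x - 1) * (s - 1) = s * (t * (x - 1)) - t * (x - 1) := by ring
    rw [this, hst]; ring
  have e3 : t ^ 2 * (x - 1) * (s - 1) ^ 2 = (1 - x * t) ^ 2 / (x - 1) := by
    rw [← e2]; field_simp
  rw [e]
  have hty : 0 < t ^ 2 * (x - 1) := by positivity
  rcases le_total s 1 with hs1 | hs1
  · refine le_trans ?_ (mul_le_mul_of_nonneg_left (AG2_H_small hs0 hs1) hty.le)
    have e4 : t ^ 2 * (x - 1) * ((s - 1) ^ 2 / 2) = (1 - x * t) ^ 2 / (x - 1) / 2 := by
      rw [← e3]; ring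
    rw [e4]
    have e5 : (1 - x * t) ^ 2 / (x - 1) / 2 = (1 / (2 * (x - 1))) * (1 - x * t) ^ 2 := by
      field_simp
    rw [e5]
    apply mul_le_mul_of_nonneg_right _ (sq_nonneg _)
    rw [div_le_div_iff₀ hx0 (by linarith)]
    linarith
  · refine le_trans ?_ (mul_le_mul_of_nonneg_left (AG2_H_large hs1) hty.le)
    have e4 : t ^ 2 * (x - 1) * ((s - 1) ^ 2 / (2 * s)) =
        (1 / (2 * (s * (x - 1)))) * (1 - x * t) ^ 2 := by
      have : t ^ 2 * (x - 1) * ((s - 1) ^ 2 / (2 * s)) =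
          t ^ 2 * (x - 1) * (s - 1) ^ 2 / (2 * s) := by ring
      rw [this, e3]
      field_simp
    rw [e4]
    apply mul_le_mul_of_nonneg_right _ (sq_nonneg _)
    have e5 : s * (x - 1) = (1 - t) / t := by
      rw [hs]; field_simp
    rw [e5]
    have e6 : 1 / (2 * ((1 - t) / t)) = t / (2 * (1 - t)) := by
      field_simp
    rw [e6, div_le_div_iff₀ hx0 (by linarith)]
    rw [div_le_iff₀ hx0] at h1
    nlinarith

end MP2ab38c
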