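import Pool.Agent.Lib.MP_2ab38c_co.Core

/-!
JOB AG3.  Tangent inequality: on `[0.62/x, 1)` the function `Gf x` is convex, with derivative
`Gd x`.  `Gf'' = 2x - 2 log ((1-t)/(t(x-1))) - (1-2t)/(t(1-t))`, and `(1-t)/(t(x-1))`,
`(1-2t)/(t(1-t)) = 1/t - 1/(1-t)` are decreasing in `t`, so `Gf''` is increasing and it suffices
to check `Gf''(0.62/x) ≥ 0`: `2x - 2 log ((x-0.62)/(0.62 (x-1))) - (x/0.62)(x-1.24)/(x-0.62)
≥ 2x - 2 log (1/0.62) - 2 * 0.38/(x-1) - x/0.62 ≥ 0.387 x - 0.957 - 0.15 ≥ 0`.
(`convexOn_of_deriv2_nonneg` and the tangent line inequality, or monotonicity of the derivative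
on both sides of `a`.)  At `t = 1` use continuity or a direct argument: the statement includes
`t = 1`, where `Gf x 1 = x - 1` (`Gf x` is continuous at 1: `(1-t) log (1-t) → 0`).
-/

namespace MP2ab38c

open Finset

private theorem AG3_log {x t : ℝ} (hx : 6.3 ≤ x) (h0 : 0 < t) (h1 : t < 1) :
    HasDerivAt (fun s : ℝ => Real.log ((1 - s) / (s * (x - 1)))) (-(1 / (t * (1 - t)))) t := by
  have hx1 : 0 < x - 1 := by linarith
  have ht1 : 0 < 1 - t := by linarith
  have hd : HasDerivAt (fun s : ℝ => (1 - s) / (s * (x - 1)))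
      (((-1) * (t * (x - 1)) - (1 - t) * (1 * (x - 1))) / (t * (x - 1)) ^ 2) t := by
    apply HasDerivAt.div
    · exact (hasDerivAt_id t).const_sub 1
    · exact (hasDerivAt_id t).mul_const (x - 1)
    · positivity
  have h := hd.log (by positivity)
  convert h using 1
  field_simp
  ring

private theorem AG3_G1 {x t : ℝ} (hx : 6.3 ≤ x) (h0 : 0 < t) (h1 : t < 1) :
    HasDerivAt (Gf x) (Gd x t) t := by
  have ht1 : 0 < 1 - t := by linarith
  have hL := AG3_log hx h0 h1
  have hp : HasDerivAt (fun s : ℝ => s * (1 - s)) (1 * (1 - t) + t * (-1)) t :=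
    (hasDerivAt_id t).mul ((hasDerivAt_id t).const_sub 1)
  have hm := hp.mul hL
  have hq : HasDerivAt (fun s : ℝ => x * s ^ 2) (x * (2 * t)) t := by
    have := ((hasDerivAt_pow 2 t).const_mul x)
    simpa using this
  have hs := (hm.sub (hasDerivAt_id t)).add hq
  have hfun : Gf x = (fun s : ℝ => s * (1 - s)) * (fun s : ℝ => Real.log ((1 - s) / (s * (x - 1)))) -
      id + fun s : ℝ => x * s ^ 2 := by
    funext s
    simp only [Gf, Pi.add_apply, Pi.sub_apply, Pi.mul_apply, id_eq]
  rw [hfun]
  refine HasDerivAt.congr_deriv hs ?_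
  unfold Gd
  field_simp
  ring

private theorem AG3_G2 {x t : ℝ} (hx : 6.3 ≤ x) (h0 : 0 < t) (h1 : t < 1) :
    HasDerivAt (Gd x) (2 * x - 2 * Real.log ((1 - t) / (t * (x - 1))) -
      (1 - 2 * t) * (1 / (t * (1 - t)))) t := by
  have hL := AG3_log hx h0 h1
  have hp : HasDerivAt (fun s : ℝ => 1 - 2 * s) (-(2 * 1)) t :=
    ((hasDerivAt_id t).const_mul 2).const_sub 1
  have hm := hp.mul hL
  have hq : HasDerivAt (fun s : ℝ => 2 * x * s) (2 * x * 1) t := (hasDerivAt_id t).const_mul (2 * x)
  have hs := (hm.sub (hasDerivAt_const t (2 : ℝ))).add hq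
  have hfun : Gd x = (fun s : ℝ => 1 - 2 * s) * (fun s : ℝ => Real.log ((1 - s) / (s * (x - 1)))) -
      (fun _ => (2 : ℝ)) + fun s : ℝ => 2 * x * s := by
    funext s
    simp only [Gd, Pi.add_apply, Pi.sub_apply, Pi.mul_apply]
  rw [hfun]
  refine HasDerivAt.congr_deriv hs ?_
  ring

private theorem AG3_pos {x t : ℝ} (hx : 6.3 ≤ x) (h0 : 0.62 / x ≤ t) (h1 : t < 1) :
    0 ≤ 2 * x - 2 * Real.log ((1 - t) / (t * (x - 1))) - (1 - 2 * t) * (1 / (t * (1 - t))) := by
  have hx0 : 0 < x := by linarith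
  have hx1 : 0 < x - 1 := by linarith
  have ht0 : 0 < t := lt_of_lt_of_le (by positivity) h0
  have ht1 : 0 < 1 - t := by linarith
  have htx : 0.62 ≤ t * x := by rwa [div_le_iff₀ hx0] at h0
  -- the logarithm
  have hlog : Real.log ((1 - t) / (t * (x - 1))) ≤ 0.56 := by
    have e1 : (1 - t) / (t * (x - 1)) ≤ (1 / 0.62) * ((x - 0.62) / (x - 1)) := by
      rw [div_mul_div_comm, div_le_div_iff₀ (by positivity) (by positivity)]
      nlinarith
    have hpos : 0 < (1 - t) / (t * (x - 1)) := by positivity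
    have hx62 : 0 < x - 0.62 := by linarith
    refine (Real.log_le_log hpos e1).trans ?_
    rw [Real.log_mul (by norm_num) (by positivity)]
    have e2 : Real.log (1 / 0.62) ≤ 0.48 := by
      rw [Real.log_le_iff_le_exp (by norm_num)]
      have e3 := Real.sum_le_exp_of_nonneg (x := 0.48) (by norm_num) 5
      refine le_trans ?_ e3
      norm_num [Finset.sum_range_succ, Nat.factorial]
    have e4 : Real.log ((x - 0.62) / (x - 1)) ≤ 0.08 := by
      refine (Real.log_le_sub_one_of_pos (by positivity)).trans ?_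
      rw [sub_le_iff_le_add, div_le_iff₀ hx1]
      nlinarith
    linarith
  have hrat : (1 - 2 * t) * (1 / (t * (1 - t))) = 1 / t - 1 / (1 - t) := by
    field_simp
    ring
  have e5 : 1 / t ≤ x / 0.62 := by
    rw [div_le_div_iff₀ ht0 (by norm_num)]
    linarith
  have e6 : 1 ≤ 1 / (1 - t) := by
    rw [le_div_iff₀ ht1]
    linarith
  have e7 : x / 0.62 ≤ 1.62 * x := by
    rw [div_le_iff₀ (by norm_num)]
    nlinarith
  rw [hrat]
  nlinarith

theorem Gf_tan {x a t : ℝ} (hx : 6.3 ≤ x) (ha : 0.62 / x ≤ a) (ha1 : a < 1)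
    (ht : 0.62 / x ≤ t) (ht1 : t ≤ 1) : Gf x a + Gd x a * (t - a) ≤ Gf x t := by
  have hx0 : 0 < x := by linarith
  have hb : 0 < 0.62 / x := by positivity
  have ha0 : 0 < a := lt_of_lt_of_le hb ha
  have hx1 : 0 < x - 1 := by linarith
  have hcont : ContinuousOn (Gf x) (Set.Icc (0.62 / x) 1) := by
    have h1 : ContinuousOn (fun t : ℝ => t * ((1 - t) * Real.log (1 - t)) -
        t * (1 - t) * (Real.log t + Real.log (x - 1)) - t + x * t ^ 2) (Set.Icc (0.62 / x) 1) := by
      apply ContinuousOn.add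
      · apply ContinuousOn.sub
        · apply ContinuousOn.sub
          · apply Continuous.continuousOn
            exact continuous_id.mul (Real.continuous_mul_log.comp (continuous_const.sub continuous_id))
          · apply ContinuousOn.mul
            · exact (continuous_id.mul (continuous_const.sub continuous_id)).continuousOn
            · apply ContinuousOn.add _ continuousOn_const
              apply ContinuousOn.log continuousOn_id
              intro s hs
              have : 0 < s := lt_of_lt_of_le hb hs.1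
              exact this.ne'
        · exact continuousOn_id
      · exact (continuous_const.mul (continuous_pow 2)).continuousOn
    apply h1.congr
    intro s hs
    have hs0 : 0 < s := lt_of_lt_of_le hb hs.1
    unfold Gf
    rcases eq_or_lt_of_le hs.2 with h | h
    · rw [h]; norm_num
    · have h2 : 0 < 1 - s := by linarith
      rw [Real.log_div h2.ne' (by positivity), Real.log_mul hs0.ne' hx1.ne']
      ring
  have hconv : ConvexOn ℝ (Set.Icc (0.62 / x) 1) (Gf x) := by
    apply convexOn_of_hasDerivWithinAt2_nonneg (convex_Icc _ _) hcont (f' := Gd x)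
      (f'' := fun t => 2 * x - 2 * Real.log ((1 - t) / (t * (x - 1))) -
        (1 - 2 * t) * (1 / (t * (1 - t))))
    · intro s hs
      rw [interior_Icc] at hs
      exact (AG3_G1 hx (lt_trans hb hs.1) hs.2).hasDerivWithinAt
    · intro s hs
      rw [interior_Icc] at hs
      exact (AG3_G2 hx (lt_trans hb hs.1) hs.2).hasDerivWithinAt
    · intro s hs
      rw [interior_Icc] at hs
      exact AG3_pos hx hs.1.le hs.2
  have hder := AG3_G1 hx ha0 ha1
  have hamem : a ∈ Set.Icc (0.62 / x) 1 := ⟨ha, ha1.le⟩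
  have htmem : t ∈ Set.Icc (0.62 / x) 1 := ⟨ht, ht1⟩
  rcases lt_trichotomy t a with h | h | h
  · have h1 := hconv.slope_le_of_hasDerivAt htmem hamem h hder
    rw [slope_def_field, div_le_iff₀ (by linarith)] at h1
    linarith
  · rw [h]; simp
  · have h1 := hconv.le_slope_of_hasDerivAt hamem htmem h hder
    rw [slope_def_field, le_div_iff₀ (by linarith)] at h1
    linarith

end MP2ab38c
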