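import Pool.Agent.Lib.MP_2ab38c_co.AG1
import Pool.Agent.Lib.MP_2ab38c_co.AG2
import Pool.Agent.Lib.MP_2ab38c_co.AG3

/-!
JOB AEven.  Consequences of `x - 1 - δ ≤ ∑ phi (W X)`.
(0) all `W X ≤ 1`.  Put `g X = (x-1) W X - phi (W X)`, so `∑ g X ≤ δ`.  By `phi_eq`/`phi_tiny`
`g X = Gf x (W X)` if `κ ≤ W X` and `g X ≥ 2.5 W X ≥ 0` if `W X ≤ 0.03/x`.
(1) `even1`: if `0.03/x < W X < 0.62/x` then `g X = Gf ≥ 0.0607/x > δ` by `Gf_mid`, and all the
other `g` are `≥ 0` (`Gf_quad`): contradiction.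
(2) `even2`, `even3`: for `l` with `4 ≤ l ≤ x < l + 2`, resp. `x ≤ l ≤ x + 2`, put `a = 1/l`
(`a ≥ 0.62/x`), `c = Gf x a - a Gd x a = a^2 (l - x + log ((l-1)/(x-1)))`, which is `≤ 0`,
resp. `≥ 0`, and `Gd x a ≤ 2.5` (`Gd x a = (1-2/l) log ((l-1)/(x-1)) - 2 + 2x/l`).  By `Gf_tan`
`g X ≥ c + Gd x a * W X` for `X ∈ S0` and `g X ≥ 2.5 W X ≥ Gd x a * W X` for the others, so
`δ ≥ ∑ g ≥ |S0| c + Gd x a ≥ l c + Gd x a = l Gf x (1/l) = loss x l`.
(3) `even4`: `2.5 ∑_{X ∉ S0} W X ≤ δ`; `even5`: `(0.3/x) ∑_{S0} (1 - x W X)^2 ≤ δ` by `Gf_quad`.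
-/

namespace MP2ab38c

open Finset

section AEvenAux

variable {R κ x δ : ℝ}

/-- the middle range -/
lemma AEven_g_mid {t : ℝ} (hx : 6.3 ≤ x) (hR : R = x + Real.log (x - 1))
    (hκ : κ ≤ 0.03 / x) (h1 : 0.03 / x ≤ t) (h2 : t ≤ 0.62 / x) :
    0.0607 / x ≤ (x - 1) * t - phi R κ t := by
  have hx0 : (0 : ℝ) < x := by linarith
  have ht0 : 0 ≤ t := le_trans (by positivity) h1
  have ht1 : t ≤ 1 := by
    refine le_trans h2 ?_
    rw [div_le_one hx0]
    linarith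
  rw [phi_eq (by linarith) hR ht0 ht1 (le_trans hκ h1)]
  have h3 : 0.03 ≤ x * t := by
    rw [div_le_iff₀ hx0] at h1
    linarith
  have h4 : x * t ≤ 0.62 := by
    rw [le_div_iff₀ hx0] at h2
    linarith
  have h5 := Gf_mid (x := x) (β := x * t) (by linarith) h3 h4
  rw [mul_div_cancel_left₀ t hx0.ne'] at h5
  linarith

/-- the tiny range -/
lemma AEven_g_tiny {t : ℝ} (hx : 6.3 ≤ x) (hR : R = x + Real.log (x - 1)) (hκ0 : 0 < κ)
    (hκ : κ ≤ 0.03 / x) (h0 : 0 ≤ t) (h1 : t ≤ 0.03 / x) :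
    2.5 * t ≤ (x - 1) * t - phi R κ t := by
  have := phi_tiny hx hR h0 h1 hκ0 hκ
  linarith

/-- the big range -/
lemma AEven_g_big {t : ℝ} (hx : 6.3 ≤ x) (hR : R = x + Real.log (x - 1))
    (hκ : κ ≤ 0.03 / x) (h1 : 0.62 / x ≤ t) (h2 : t ≤ 1) :
    (x - 1) * t - phi R κ t = Gf x t := by
  have hx0 : (0 : ℝ) < x := by linarith
  have ht0 : 0 ≤ t := le_trans (by positivity) h1
  have h3 : 0.03 / x ≤ 0.62 / x := by
    apply div_le_div_of_nonneg_right _ hx0.le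
    norm_num
  rw [phi_eq (by linarith) hR ht0 h2 (le_trans hκ (le_trans h3 h1))]
  ring

lemma AEven_g_nonneg {t : ℝ} (hx : 6.3 ≤ x) (hR : R = x + Real.log (x - 1)) (hκ0 : 0 < κ)
    (hκ : κ ≤ 0.03 / x) (h0 : 0 ≤ t) (h1 : t ≤ 1) :
    0 ≤ (x - 1) * t - phi R κ t := by
  have hx0 : (0 : ℝ) < x := by linarith
  rcases le_total t (0.03 / x) with h | h
  · have := AEven_g_tiny hx hR hκ0 hκ h0 h
    linarith
  · rcases le_total t (0.62 / x) with h' | h'
    · refine le_trans ?_ (AEven_g_mid hx hR hκ h h')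
      positivity
    · rw [AEven_g_big hx hR hκ h' h1]
      refine le_trans ?_ (Gf_quad hx h' h1)
      positivity

variable {ι : Type} [Fintype ι] [DecidableEq ι] (W : ι → ℝ)

lemma AEven_le_one (hW0 : ∀ X, 0 ≤ W X) (hW1 : ∑ X, W X = 1) (X : ι) : W X ≤ 1 := by
  rw [← hW1]
  exact Finset.single_le_sum (f := W) (fun i _ => hW0 i) (Finset.mem_univ X)

lemma AEven_sum (hW1 : ∑ X, W X = 1) (hV : x - 1 - δ ≤ ∑ X, phi R κ (W X)) :
    ∑ X, ((x - 1) * W X - phi R κ (W X)) ≤ δ := by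
  rw [Finset.sum_sub_distrib, ← Finset.mul_sum, hW1]
  linarith

/-- value of `Gf` minus the tangent at `1/l` -/
lemma AEven_c {l : ℝ} (hx : 1 < x) (hl : 1 < l) :
    Gf x (1 / l) - 1 / l * Gd x (1 / l) =
      (1 / l) ^ 2 * (l - x + Real.log ((l - 1) / (x - 1))) := by
  have hl0 : (0 : ℝ) < l := by linarith
  have hx1 : x - 1 ≠ 0 := by
    have : 0 < x - 1 := by linarith
    exact this.ne'
  have h1 : (1 - 1 / l) / (1 / l * (x - 1)) = (l - 1) / (x - 1) := by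
    field_simp
  unfold Gf Gd
  rw [h1]
  field_simp
  ring

lemma AEven_loss {l : ℝ} (hx : 1 < x) (hl : 1 < l) :
    l * Gf x (1 / l) = loss x l := by
  have hl0 : (0 : ℝ) < l := by linarith
  have hx1 : x - 1 ≠ 0 := by
    have : 0 < x - 1 := by linarith
    exact this.ne'
  have h1 : (1 - 1 / l) / (1 / l * (x - 1)) = (l - 1) / (x - 1) := by
    field_simp
  unfold Gf loss
  rw [h1]
  field_simp
  ring

lemma AEven_Gd {l : ℝ} (hx : 1 < x) (hl : 1 < l) :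
    Gd x (1 / l) = (1 - 2 / l) * Real.log ((l - 1) / (x - 1)) - 2 + 2 * x / l := by
  have hl0 : (0 : ℝ) < l := by linarith
  have hx1 : x - 1 ≠ 0 := by
    have : 0 < x - 1 := by linarith
    exact this.ne'
  have h1 : (1 - 1 / l) / (1 / l * (x - 1)) = (l - 1) / (x - 1) := by
    field_simp
  unfold Gd
  rw [h1]
  field_simp

end AEvenAux

section
variable {R κ x δ : ℝ} (hx : 6.3 ≤ x) (hR : R = x + Real.log (x - 1)) (hκ0 : 0 < κ)
  (hκ : κ ≤ 0.03 / x) (hδ : δ * x < 0.0607) {ι : Type} [Fintype ι] [DecidableEq ι] (W : ι → ℝ)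
  (hW0 : ∀ X, 0 ≤ W X) (hW1 : ∑ X, W X = 1) (hV : x - 1 - δ ≤ ∑ X, phi R κ (W X))

include hx hR hκ0 hκ hδ hW0 hW1 hV

theorem even1 (X : ι) : W X ≤ 0.03 / x ∨ 0.62 / x ≤ W X := by
  by_contra hcon
  push Not at hcon
  obtain ⟨h1, h2⟩ := hcon
  have hx0 : (0 : ℝ) < x := by linarith
  have h3 := AEven_g_mid hx hR hκ h1.le h2.le
  have h4 : (x - 1) * W X - phi R κ (W X) ≤ ∑ X, ((x - 1) * W X - phi R κ (W X)) :=
    Finset.single_le_sum (f := fun X => (x - 1) * W X - phi R κ (W X))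
      (fun i _ => AEven_g_nonneg hx hR hκ0 hκ (hW0 i) (AEven_le_one W hW0 hW1 i))
      (Finset.mem_univ X)
  have h5 := AEven_sum W hW1 hV
  have h6 : 0.0607 / x ≤ δ := by linarith
  rw [div_le_iff₀ hx0] at h6
  linarith

/-- lower bound of the sum by two linear functions -/
theorem AEven_key (S0 : Finset ι) (hS0 : ∀ X, X ∈ S0 ↔ 0.62 / x ≤ W X) (h : ι → ℝ)
    (hh : ∀ X ∈ S0, h X ≤ Gf x (W X)) (hh' : ∀ X, X ∉ S0 → h X ≤ 2.5 * W X) :
    ∑ X, h X ≤ δ := by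
  refine le_trans (Finset.sum_le_sum ?_) (AEven_sum W hW1 hV)
  intro X _
  by_cases hX : X ∈ S0
  · rw [AEven_g_big hx hR hκ ((hS0 X).1 hX) (AEven_le_one W hW0 hW1 X)]
    exact hh X hX
  · refine le_trans (hh' X hX) ?_
    have h1 : W X ≤ 0.03 / x := by
      rcases even1 hx hR hκ0 hκ hδ W hW0 hW1 hV X with h | h
      · exact h
      · exact absurd ((hS0 X).2 h) hX
    exact AEven_g_tiny hx hR hκ0 hκ (hW0 X) h1

/-- the tangent argument -/
theorem AEven_tan (S0 : Finset ι) (hS0 : ∀ X, X ∈ S0 ↔ 0.62 / x ≤ W X) (l : ℝ)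
    (hl : 1 < l) (hla : 0.62 / x ≤ 1 / l) (hGd : Gd x (1 / l) ≤ 2.5)
    (hc : l * (Gf x (1 / l) - 1 / l * Gd x (1 / l)) ≤
      S0.card * (Gf x (1 / l) - 1 / l * Gd x (1 / l))) : loss x l ≤ δ := by
  have hx0 : (0 : ℝ) < x := by linarith
  have hl0 : (0 : ℝ) < l := by linarith
  set c : ℝ := Gf x (1 / l) - 1 / l * Gd x (1 / l) with hcdef
  have ha1 : 1 / l < 1 := by
    rw [div_lt_one hl0]
    exact hl
  have h1 := AEven_key hx hR hκ0 hκ hδ W hW0 hW1 hV S0 hS0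
    (fun X => (if X ∈ S0 then c else 0) + Gd x (1 / l) * W X)
    (fun X hX => by
      have := Gf_tan hx hla ha1 ((hS0 X).1 hX) (AEven_le_one W hW0 hW1 X)
      simp only [hX, if_true]
      rw [hcdef]
      linarith)
    (fun X hX => by
      simp only [hX, if_false, zero_add]
      exact mul_le_mul_of_nonneg_right hGd (hW0 X))
  rw [Finset.sum_add_distrib, ← Finset.mul_sum, hW1, mul_one, ← Finset.sum_filter,
    Finset.sum_const, nsmul_eq_mul] at h1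
  have h2 : (Finset.univ.filter (fun X => X ∈ S0)) = S0 := by
    ext X
    simp
  rw [h2] at h1
  have h3 : l * c + Gd x (1 / l) = l * Gf x (1 / l) := by
    rw [hcdef]
    field_simp
    ring
  rw [← AEven_loss (by linarith) hl, ← h3]
  linarith

theorem even2 (S0 : Finset ι) (hS0 : ∀ X, X ∈ S0 ↔ 0.62 / x ≤ W X) (l : ℕ) (hl4 : 4 ≤ l)
    (hlx : (l : ℝ) ≤ x) (hxl : x < l + 2) (hcard : S0.card ≤ l) : loss x l ≤ δ := by
  have hx0 : (0 : ℝ) < x := by linarith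
  have hl4' : (4 : ℝ) ≤ l := by exact_mod_cast hl4
  have hl0 : (0 : ℝ) < l := by linarith
  have hlog : Real.log (((l : ℝ) - 1) / (x - 1)) ≤ 0 := by
    apply Real.log_nonpos
    · apply div_nonneg <;> linarith
    · rw [div_le_one (by linarith)]
      linarith
  refine AEven_tan hx hR hκ0 hκ hδ W hW0 hW1 hV S0 hS0 l (by linarith) ?_ ?_ ?_
  · rw [div_le_div_iff₀ hx0 hl0]
    linarith
  · rw [AEven_Gd (by linarith) (by linarith)]
    have h1 : (1 - 2 / (l : ℝ)) * Real.log (((l : ℝ) - 1) / (x - 1)) ≤ 0 := by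
      apply mul_nonpos_of_nonneg_of_nonpos _ hlog
      have : 2 / (l : ℝ) ≤ 1 := by
        rw [div_le_one hl0]
        linarith
      linarith
    have h2 : 2 * x / l ≤ 3 := by
      rw [div_le_iff₀ hl0]
      linarith
    linarith
  · rw [AEven_c (by linarith) (by linarith)]
    have hcn : (1 / (l : ℝ)) ^ 2 * (l - x + Real.log (((l : ℝ) - 1) / (x - 1))) ≤ 0 := by
      apply mul_nonpos_of_nonneg_of_nonpos (by positivity)
      linarith
    have hcard' : (S0.card : ℝ) ≤ l := by exact_mod_cast hcard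
    exact mul_le_mul_of_nonpos_right hcard' hcn

theorem even3 (S0 : Finset ι) (hS0 : ∀ X, X ∈ S0 ↔ 0.62 / x ≤ W X) (l : ℕ)
    (hxl : x ≤ (l : ℝ)) (hlx : (l : ℝ) ≤ x + 2) (hcard : l ≤ S0.card) : loss x l ≤ δ := by
  have hx0 : (0 : ℝ) < x := by linarith
  have hl0 : (0 : ℝ) < l := by linarith
  have hlog : 0 ≤ Real.log (((l : ℝ) - 1) / (x - 1)) := by
    apply Real.log_nonneg
    rw [le_div_iff₀ (by linarith)]
    linarith
  have hlog2 : Real.log (((l : ℝ) - 1) / (x - 1)) ≤ 2.5 := by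
    have h1 : Real.log (((l : ℝ) - 1) / (x - 1)) ≤ ((l : ℝ) - 1) / (x - 1) - 1 := by
      apply Real.log_le_sub_one_of_pos
      apply div_pos <;> linarith
    have h2 : ((l : ℝ) - 1) / (x - 1) ≤ 3.5 := by
      rw [div_le_iff₀ (by linarith)]
      linarith
    linarith
  refine AEven_tan hx hR hκ0 hκ hδ W hW0 hW1 hV S0 hS0 l (by linarith) ?_ ?_ ?_
  · rw [div_le_div_iff₀ hx0 hl0]
    linarith
  · rw [AEven_Gd (by linarith) (by linarith)]
    have h1 : (1 - 2 / (l : ℝ)) * Real.log (((l : ℝ) - 1) / (x - 1)) ≤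
        Real.log (((l : ℝ) - 1) / (x - 1)) := by
      have : (1 - 2 / (l : ℝ)) ≤ 1 := by
        have : 0 ≤ 2 / (l : ℝ) := by positivity
        linarith
      calc (1 - 2 / (l : ℝ)) * Real.log (((l : ℝ) - 1) / (x - 1))
          ≤ 1 * Real.log (((l : ℝ) - 1) / (x - 1)) := mul_le_mul_of_nonneg_right this hlog
        _ = _ := one_mul _
    have h2 : 2 * x / l ≤ 2 := by
      rw [div_le_iff₀ hl0]
      linarith
    linarith
  · rw [AEven_c (by linarith) (by linarith)]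
    have hcn : 0 ≤ (1 / (l : ℝ)) ^ 2 * (l - x + Real.log (((l : ℝ) - 1) / (x - 1))) := by
      apply mul_nonneg (by positivity)
      linarith
    have hcard' : (l : ℝ) ≤ S0.card := by exact_mod_cast hcard
    exact mul_le_mul_of_nonneg_right hcard' hcn

theorem even4 (S0 : Finset ι) (hS0 : ∀ X, X ∈ S0 ↔ 0.62 / x ≤ W X) :
    1 - ∑ X ∈ S0, W X ≤ δ / 2.5 := by
  have hx0 : (0 : ℝ) < x := by linarith
  have h1 := AEven_key hx hR hκ0 hκ hδ W hW0 hW1 hV S0 hS0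
    (fun X => 2.5 * (W X - if X ∈ S0 then W X else 0))
    (fun X hX => by
      simp only [hX, if_true, sub_self, mul_zero]
      refine le_trans ?_ (Gf_quad hx ((hS0 X).1 hX) (AEven_le_one W hW0 hW1 X))
      positivity)
    (fun X hX => by
      simp only [hX, if_false, sub_zero]
      exact le_refl _)
  rw [← Finset.mul_sum, Finset.sum_sub_distrib, hW1, ← Finset.sum_filter] at h1
  have h2 : (Finset.univ.filter (fun X => X ∈ S0)) = S0 := by
    ext X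
    simp
  rw [h2] at h1
  rw [le_div_iff₀ (by norm_num)]
  linarith

theorem even5 (S0 : Finset ι) (hS0 : ∀ X, X ∈ S0 ↔ 0.62 / x ≤ W X) :
    ∑ X ∈ S0, (1 - x * W X) ^ 2 ≤ x * δ / 0.3 := by
  have hx0 : (0 : ℝ) < x := by linarith
  have h1 := AEven_key hx hR hκ0 hκ hδ W hW0 hW1 hV S0 hS0
    (fun X => if X ∈ S0 then 0.3 / x * (1 - x * W X) ^ 2 else 0)
    (fun X hX => by
      simp only [hX, if_true]
      exact Gf_quad hx ((hS0 X).1 hX) (AEven_le_one W hW0 hW1 X))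
    (fun X hX => by
      simp only [hX, if_false]
      have := hW0 X
      positivity)
  rw [← Finset.sum_filter] at h1
  have h2 : (Finset.univ.filter (fun X => X ∈ S0)) = S0 := by
    ext X
    simp
  rw [h2, ← Finset.mul_sum] at h1
  rw [le_div_iff₀ (by norm_num)]
  have h3 : x * (0.3 / x * ∑ X ∈ S0, (1 - x * W X) ^ 2) ≤ x * δ :=
    mul_le_mul_of_nonneg_left h1 hx0.le
  have h4 : x * (0.3 / x * ∑ X ∈ S0, (1 - x * W X) ^ 2) = 0.3 * ∑ X ∈ S0, (1 - x * W X) ^ 2 := by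
    field_simp
  rw [h4] at h3
  linarith

end

end MP2ab38c
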