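import Pool.Agent.Lib.MP_2ab38c_co.Core

/-!
JOB AFin.  The final real inequality for an odd number `s = x + u` of parts (`y = x - 1`,
`A = x + log (x-1) - log s - 1 = y - L`, `L = log (s/y) ≥ (1+u)/s`, `s - A = 1 + u + L ≥ 0`).
The left side is increasing in `Σ2` (coefficient `s - A`), so insert
`Σ2 = (x - u + xδ/0.3)/x^2`.  Then
`LHS = (1-τ)^2 A + (s-A) Σ2 - 0.3844 s/x^2 + 2τ (x + log y)`
`= y - L (1 - Σ2) + (1+u) Σ2 - 0.3844 s/x^2 + 2τ (1 + log s) + τ^2 A`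
and with `v = 1 + u`, `L ≥ 2v/(2y+v)`,
`≤ y + (v/(2y+v)) (Σ2 (2y+v+2) - 2) - 0.3844 s/x^2 + 2τ (1 + log s) + τ^2 y`.
With `δ ≤ 0.521/y^2`, `τ ≤ δ/2.5`, `log s ≤ 0.125 x + 1.205`, `x ≥ 10.85`, everything is
elementary.
-/

namespace MP2ab38c

open Finset

/-- `log (1 + v/y) ≥ 2v/(2y+v)` -/
theorem AFin_log {y v : ℝ} (hy : 0 < y) (hv : 0 ≤ v) :
    2 * v / (2 * y + v) ≤ Real.log (y + v) - Real.log y := by
  have h1 := Real.le_log_one_add_of_nonneg (x := v / y) (by positivity)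
  have h2 : Real.log (1 + v / y) = Real.log (y + v) - Real.log y := by
    rw [← Real.log_div (by positivity) hy.ne']
    congr 1
    field_simp
  rw [h2] at h1
  have h3 : 2 * (v / y) / (v / y + 2) = 2 * v / (2 * y + v) := by
    field_simp
    ring
  rw [h3] at h1
  exact h1

theorem AFin_log_le {s : ℝ} (hs : 0 < s) : Real.log s ≤ s / 8 + 1.08 := by
  have h1 : Real.log (s / 8) ≤ s / 8 - 1 := Real.log_le_sub_one_of_pos (by positivity)
  have h2 : Real.log (s / 8) = Real.log s - 3 * Real.log 2 := by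
    rw [Real.log_div hs.ne' (by norm_num)]
    have : (8 : ℝ) = 2 ^ 3 := by norm_num
    rw [this, Real.log_pow]
    norm_num
  have h3 := Real.log_two_lt_d9
  rw [h2] at h1
  norm_num at h3 ⊢
  linarith

/-- the elementary part -/
theorem AFin_elem {y v δ τ ls : ℝ} (hy : 9.85 ≤ y) (hv0 : 0 ≤ v) (hv2 : v ≤ 2) (hδ0 : 0 ≤ δ)
    (hδ : δ ≤ 0.521 / y ^ 2) (hτ0 : 0 ≤ τ) (hτ : τ ≤ δ / 2.5)
    (hls : ls ≤ (y + v) / 8 + 1.08) (hls0 : 0 ≤ ls) :
    v / (2 * y + v) * ((y + 2 - v) * (2 * y + v + 2) - 2 * (y + 1) ^ 2 +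
        (10 / 3) * (y + 1) * δ * (2 * y + v + 2)) - 0.3844 * (y + v) +
      (y + 1) ^ 2 * (2 * τ * (1 + ls)) + (y + 1) ^ 2 * (τ ^ 2 * y) + (y + 1) ^ 2 * δ +
      0.05 * (y + 1) ≤ 0 := by
  norm_num at hy hδ hτ hls
  have hy0 : 0 < y := by linarith
  have hw : 0 < 2 * y + v := by linarith
  -- the bound for δ
  have hδ1 : y ^ 2 * δ ≤ 521 / 1000 := by
    rw [le_div_iff₀ (by positivity)] at hδ
    linarith
  have hδ2 : (y + 1) ^ 2 * δ ≤ 0.6322 := by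
    have h1 : (y + 1) ^ 2 ≤ 1.2134 * y ^ 2 := by
      norm_num
      nlinarith
    calc (y + 1) ^ 2 * δ ≤ 1.2134 * y ^ 2 * δ := by gcongr
      _ = 1.2134 * (y ^ 2 * δ) := by ring
      _ ≤ 1.2134 * (521 / 1000) := by gcongr
      _ ≤ 0.6322 := by norm_num
  have hτ1 : (y + 1) ^ 2 * τ ≤ 0.25288 := by
    calc (y + 1) ^ 2 * τ ≤ (y + 1) ^ 2 * (δ / (5 / 2)) := by gcongr
      _ = ((y + 1) ^ 2 * δ) / (5 / 2) := by ring
      _ ≤ 0.6322 / (5 / 2) := by gcongr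
      _ = 0.25288 := by norm_num
  have hδ3 : (y + 1) * δ ≤ 0.0583 := by
    have h1 : 10.85 * ((y + 1) * δ) ≤ 0.6322 := by
      calc 10.85 * ((y + 1) * δ) ≤ (y + 1) * ((y + 1) * δ) := by
            gcongr
            norm_num
            linarith
        _ = (y + 1) ^ 2 * δ := by ring
        _ ≤ _ := hδ2
    norm_num at h1 ⊢
    linarith
  -- first term
  have t1 : v / (2 * y + v) * ((y + 2 - v) * (2 * y + v + 2) - 2 * (y + 1) ^ 2) ≤
      v - v ^ 2 / 2 + 0.04 := by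
    rw [div_mul_eq_mul_div, div_le_iff₀ hw]
    have h1 : 0 ≤ (v - 2 / 3) ^ 2 * (v + 10 / 3) := by positivity
    norm_num
    nlinarith
  have t2 : v / (2 * y + v) * ((10 / 3) * (y + 1) * δ * (2 * y + v + 2)) ≤ 0.215 * v := by
    have h1 : v / (2 * y + v) * ((10 / 3) * (y + 1) * δ * (2 * y + v + 2)) =
        (10 / 3) * ((y + 1) * δ) * (v * ((2 * y + v + 2) / (2 * y + v))) := by ring
    have h2 : (2 * y + v + 2) / (2 * y + v) ≤ 1.1016 := by
      rw [div_le_iff₀ hw]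
      norm_num
      linarith
    rw [h1]
    calc (10 / 3) * ((y + 1) * δ) * (v * ((2 * y + v + 2) / (2 * y + v)))
        ≤ (10 / 3) * 0.0583 * (v * 1.1016) := by gcongr
      _ ≤ 0.215 * v := by
          have : (10 / 3) * 0.0583 * (v * 1.1016) = (0.21408 : ℝ) * v - (0.21408 - (10 / 3) * 0.0583 * 1.1016) * v := by
            ring
          rw [this]
          norm_num
          nlinarith
  have t4 : (y + 1) ^ 2 * (2 * τ * (1 + ls)) ≤ 0.50576 * (1 + ls) := by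
    have : (y + 1) ^ 2 * (2 * τ * (1 + ls)) = 2 * ((y + 1) ^ 2 * τ) * (1 + ls) := by ring
    rw [this]
    calc 2 * ((y + 1) ^ 2 * τ) * (1 + ls) ≤ 2 * 0.25288 * (1 + ls) := by gcongr
      _ = 0.50576 * (1 + ls) := by norm_num
  have t5 : (y + 1) ^ 2 * (τ ^ 2 * y) ≤ 0.0064 := by
    have hτy : (y + 1) * τ ≤ 0.0234 := by
      have h1 : 10.85 * ((y + 1) * τ) ≤ 0.25288 := by
        calc 10.85 * ((y + 1) * τ) ≤ (y + 1) * ((y + 1) * τ) := by
              gcongr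
              norm_num
              linarith
          _ = (y + 1) ^ 2 * τ := by ring
          _ ≤ _ := hτ1
      norm_num at h1 ⊢
      linarith
    calc (y + 1) ^ 2 * (τ ^ 2 * y) ≤ (y + 1) ^ 2 * (τ ^ 2 * (y + 1)) := by gcongr; linarith
      _ = ((y + 1) ^ 2 * τ) * ((y + 1) * τ) := by ring
      _ ≤ 0.25288 * 0.0234 := by gcongr
      _ ≤ 0.0064 := by norm_num
  have hsplit : v / (2 * y + v) * ((y + 2 - v) * (2 * y + v + 2) - 2 * (y + 1) ^ 2 +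
        (10 / 3) * (y + 1) * δ * (2 * y + v + 2)) =
      v / (2 * y + v) * ((y + 2 - v) * (2 * y + v + 2) - 2 * (y + 1) ^ 2) +
      v / (2 * y + v) * ((10 / 3) * (y + 1) * δ * (2 * y + v + 2)) := by ring
  rw [hsplit]
  norm_num at t1 t2 t4 t5 hδ2 ⊢
  nlinarith [sq_nonneg (v - 0.8)]

theorem fin_ineq {x u τ δ S2 : ℝ} (hx : 10.85 ≤ x) (hu1 : -1 ≤ u) (hu2 : u ≤ 1) (hδ0 : 0 ≤ δ)
    (hδ : δ ≤ 0.521 / (x - 1) ^ 2) (hτ0 : 0 ≤ τ) (hτ : τ ≤ δ / 2.5)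
    (hS : S2 ≤ (x - u + x * δ / 0.3) / x ^ 2) :
    ((1 - τ) ^ 2 - S2) * (x + Real.log (x - 1) - Real.log (x + u) - 1) +
      (x + u) * (S2 - (0.62 / x) ^ 2) + 2 * τ * (x + Real.log (x - 1)) ≤
    x - 1 - δ - 0.05 / x := by
  obtain ⟨y, rfl⟩ : ∃ y, x = y + 1 := ⟨x - 1, by ring⟩
  obtain ⟨v, rfl⟩ : ∃ v, u = v - 1 := ⟨u + 1, by ring⟩
  have e1 : y + 1 - 1 = y := by ring
  have e2 : y + 1 + (v - 1) = y + v := by ring
  have e3 : y + 1 - (v - 1) = y + 2 - v := by ring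
  rw [e1] at hδ
  rw [e3] at hS
  rw [e1, e2]
  have hy : (9.85 : ℝ) ≤ y := by norm_num at hx ⊢; linarith
  have hy0 : 0 < y := by norm_num at hy; linarith
  have hx0 : 0 < y + 1 := by linarith
  have hv0 : 0 ≤ v := by linarith
  have hv2 : v ≤ 2 := by linarith
  have hw : 0 < 2 * y + v := by linarith
  have hs0 : 0 < y + v := by linarith
  set Lx := Real.log y with hLx
  set Ls := Real.log (y + v) with hLs
  have hL1 : 2 * v / (2 * y + v) ≤ Ls - Lx := AFin_log hy0 hv0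
  have hL0 : 0 ≤ Ls - Lx := le_trans (by positivity) hL1
  have hls : Ls ≤ (y + v) / 8 + 1.08 := AFin_log_le hs0
  have hls0 : 0 ≤ Ls := Real.log_nonneg (by norm_num at hy; linarith)
  have hel := AFin_elem hy hv0 hv2 hδ0 hδ hτ0 hτ hls hls0
  set Sg := (y + 2 - v + (y + 1) * δ / 0.3) / (y + 1) ^ 2 with hSg
  have hSg1 : Sg ≤ 1 := by
    rw [hSg, div_le_one (by positivity)]
    have hδ1 : δ ≤ 0.3 := by
      refine hδ.trans ?_
      rw [div_le_iff₀ (by positivity)]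
      norm_num at hy ⊢
      nlinarith
    have h3 : (y + 1) * δ / 0.3 ≤ y + 1 := by
      rw [div_le_iff₀ (by norm_num)]
      gcongr
    norm_num at hy
    nlinarith
  have hSgx : (y + 1) ^ 2 * Sg = y + 2 - v + (10 / 3) * (y + 1) * δ := by
    rw [hSg]
    field_simp
    norm_num
    ring
  -- step 1
  have s1 : ((1 - τ) ^ 2 - S2) * (y + 1 + Lx - Ls - 1) + (y + v) * (S2 - (0.62 / (y + 1)) ^ 2) +
      2 * τ * (y + 1 + Lx) ≤ y - (Ls - Lx) + (v + (Ls - Lx)) * Sg -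
        (y + v) * (0.62 / (y + 1)) ^ 2 + 2 * τ * (1 + Ls) + τ ^ 2 * y := by
    have h1 : (v + (Ls - Lx)) * S2 ≤ (v + (Ls - Lx)) * Sg :=
      mul_le_mul_of_nonneg_left hS (by linarith)
    have h2 : 0 ≤ τ ^ 2 * (Ls - Lx) := by positivity
    nlinarith
  -- step 2
  have s2 : -(Ls - Lx) + (v + (Ls - Lx)) * Sg ≤ v * Sg - (2 * v / (2 * y + v)) * (1 - Sg) := by
    have h1 := mul_le_mul_of_nonneg_right hL1 (sub_nonneg.2 hSg1)
    nlinarith
  -- step 3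
  have s3 : v * Sg - (2 * v / (2 * y + v)) * (1 - Sg) - (y + v) * (0.62 / (y + 1)) ^ 2 +
      2 * τ * (1 + Ls) + τ ^ 2 * y + δ + 0.05 / (y + 1) ≤ 0 := by
    have h1 : (y + 1) ^ 2 * (v * Sg - (2 * v / (2 * y + v)) * (1 - Sg) -
        (y + v) * (0.62 / (y + 1)) ^ 2 + 2 * τ * (1 + Ls) + τ ^ 2 * y + δ + 0.05 / (y + 1)) ≤ 0 := by
      have e4 : (y + 1) ^ 2 * (v * Sg - (2 * v / (2 * y + v)) * (1 - Sg) -
          (y + v) * (0.62 / (y + 1)) ^ 2 + 2 * τ * (1 + Ls) + τ ^ 2 * y + δ + 0.05 / (y + 1)) =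
          v / (2 * y + v) * (((y + 1) ^ 2 * Sg) * (2 * y + v + 2) - 2 * (y + 1) ^ 2) -
          0.3844 * (y + v) + (y + 1) ^ 2 * (2 * τ * (1 + Ls)) + (y + 1) ^ 2 * (τ ^ 2 * y) +
          (y + 1) ^ 2 * δ + 0.05 * (y + 1) := by
        field_simp
        ring
      rw [e4, hSgx]
      calc _ = v / (2 * y + v) * ((y + 2 - v) * (2 * y + v + 2) - 2 * (y + 1) ^ 2 +
            (10 / 3) * (y + 1) * δ * (2 * y + v + 2)) - 0.3844 * (y + v) +
          (y + 1) ^ 2 * (2 * τ * (1 + Ls)) + (y + 1) ^ 2 * (τ ^ 2 * y) + (y + 1) ^ 2 * δ +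
          0.05 * (y + 1) := by ring
        _ ≤ 0 := hel
    by_contra hcon
    push Not at hcon
    have := mul_pos (show (0 : ℝ) < (y + 1) ^ 2 by positivity) hcon
    linarith
  linarith

end MP2ab38c
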