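import Pool.Agent.Lib.MP_2ab38c_co.Core

/-!
JOB AG1.  `phi` in terms of `Gf`.
`phi_eq`: if `R = x + log (x-1)` and `κ ≤ t` then `phi R κ t = (x-1) t - Gf x t` on `[0,1]`
(`R + log t - log (1-t) = x - log ((1-t)/(t(x-1)))` for `0 < t < 1`; both sides vanish at `t = 0`
and `t = 1`: `Gf x 1 = x - 1`).
`phi_tiny`: for `t ≤ 0.03/x`, `κ ≤ 0.03/x`: `log (max t κ) ≤ log (0.03/x)`,
`R + log (0.03/x) = x + log ((x-1)/x) + log 0.03 ≤ x - 3.506`, `-(1-t) log (1-t) ≤ t ≤ 0.005`,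
so `phi ≤ t (x - 3.506 + 0.005) ≤ (x - 1) t - 2.5 t` (also `x - 3.506 ≥ 0` to drop a factor `1-t`).
-/

namespace MP2ab38c

open Finset

theorem phi_eq {R κ x t : ℝ} (hx : 1 < x) (hR : R = x + Real.log (x - 1)) (ht0 : 0 ≤ t)
    (ht1 : t ≤ 1) (hκ : κ ≤ t) : phi R κ t = (x - 1) * t - Gf x t := by
  unfold phi Gf
  rw [max_eq_left hκ]
  rcases ht0.eq_or_lt with h0 | h0
  · subst h0; ring
  rcases ht1.eq_or_lt with h1 | h1
  · subst h1; ring
  have hx1 : x - 1 ≠ 0 := by linarith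
  have ht : t ≠ 0 := h0.ne'
  have h1t : 1 - t ≠ 0 := by linarith
  rw [Real.log_div h1t (mul_ne_zero ht hx1), Real.log_mul ht hx1, hR]
  ring

theorem phi_tiny {R κ x t : ℝ} (hx : 6.3 ≤ x) (hR : R = x + Real.log (x - 1)) (ht0 : 0 ≤ t)
    (ht : t ≤ 0.03 / x) (hκ0 : 0 < κ) (hκ : κ ≤ 0.03 / x) :
    phi R κ t ≤ (x - 1) * t - 2.5 * t := by
  have hxpos : 0 < x := by linarith
  have hu : 0.03 / x ≤ 0.005 := by
    rw [div_le_iff₀ hxpos]; nlinarith
  have ht1 : t ≤ 0.005 := ht.trans hu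
  have e7 : Real.exp 7 ≤ (100 / 3) ^ 2 := by
    have h : Real.exp 7 = Real.exp 1 ^ 7 := by rw [← Real.exp_nat_mul]; norm_num
    rw [h]
    calc Real.exp 1 ^ 7 ≤ 2.7182818286 ^ 7 :=
          pow_le_pow_left₀ (Real.exp_pos _).le Real.exp_one_lt_d9.le 7
      _ ≤ (100 / 3) ^ 2 := by norm_num
  have e4 : (100 / 3 : ℝ) ≤ Real.exp 4 := by
    have h : Real.exp 4 = Real.exp 1 ^ 4 := by rw [← Real.exp_nat_mul]; norm_num
    rw [h]
    calc (100 / 3 : ℝ) ≤ 2.7182818283 ^ 4 := by norm_num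
      _ ≤ Real.exp 1 ^ 4 := pow_le_pow_left₀ (by norm_num) Real.exp_one_gt_d9.le 4
  have hL : Real.log 0.03 = - Real.log (100 / 3) := by
    rw [← Real.log_inv]; norm_num
  have hL1 : Real.log 0.03 ≤ -3.5 := by
    have h := (Real.le_log_iff_exp_le (by positivity : (0 : ℝ) < (100 / 3) ^ 2)).2 e7
    rw [Real.log_pow] at h
    push_cast at h
    rw [hL]; linarith
  have hL2 : -4 ≤ Real.log 0.03 := by
    have h := (Real.log_le_iff_le_exp (by positivity : (0 : ℝ) < 100 / 3)).2 e4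
    rw [hL]; linarith
  have hmax : Real.log (max t κ) ≤ Real.log 0.03 - Real.log x := by
    rw [← Real.log_div (by norm_num) hxpos.ne']
    exact Real.log_le_log (lt_max_of_lt_right hκ0) (max_le ht hκ)
  have hlx : Real.log (x - 1) ≤ Real.log x := Real.log_le_log (by linarith) (by linarith)
  have h1t : 0 < 1 - t := by linarith
  have hlog : -Real.log (1 - t) * (1 - t) ≤ t := by
    have h := Real.log_le_sub_one_of_pos (inv_pos.2 h1t)
    rw [Real.log_inv] at h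
    have h2 := mul_le_mul_of_nonneg_right h h1t.le
    have h3 : ((1 - t)⁻¹ - 1) * (1 - t) = t := by field_simp; ring
    rw [h3] at h2
    exact h2
  have key : (1 - t) * (R + Real.log (max t κ) - Real.log (1 - t)) ≤ x - 3.5 := by
    have h1 : (1 - t) * (R + Real.log (max t κ)) ≤ (1 - t) * (x + Real.log 0.03) := by
      apply mul_le_mul_of_nonneg_left _ h1t.le
      rw [hR]; linarith
    nlinarith
  unfold phi
  have h2 := mul_le_mul_of_nonneg_left key ht0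
  nlinarith

end MP2ab38c
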