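import Pool.Agent.Lib.MP_2ab38c_co.Core

/-!
JOB ALoss.  The loss at the integer nearest.
`loss_near`: for `x ≥ 10.85`, `y = x - 1` and `|l - x| ≤ 1`, with `u = l - x`:
`loss x l = ((y+u) log (1+u/y) - u)/l`.  If `u ≥ 0`, `(y+u) log (1+u/y) - u ≤ u^2/(2y) * ...`:
use `(1+z) log (1+z) - z ≤ z^2/2` for `z ≥ 0`; and for `-1/9.85 ≤ z ≤ 0`
`(1+z) log (1+z) - z ≤ z^2/2 * (1 + 0.0378)` (e.g. from
`log (1+z) ≥ z - z^2/2 + z^3/3 - ...`, alternating signs do not apply; use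
`log (1-a) ≤ -a - a^2/2 - a^3/3` for `a ≥ 0`, so that with `z = -a`,
`(1-a) log (1-a) + a ≤ a^2/2 + a^3/6 + a^4/3 ≤ a^2/2 (1 + a/3 + 2a^2/3)`, which for `a ≤ 0.1016`
is `≤ a^2/2 * 1.041`).  `l ≥ y` and `l ≥ x` if `u ≥ 0`.  Result `≤ 0.5205/y^2 <= 0.521/y^2`.
`loss_four`: for `6.3 ≤ x ≤ 6.4`, `loss x 6 ≤ 0.008`.  (The value is about `0.002`.)
-/

namespace MP2ab38c

open Finset

/-- `(1+z) log (1+z) - z ≤ z^2/2` for `z ≥ 0` -/
theorem ALoss_pos {z : ℝ} (hz : 0 ≤ z) : (1 + z) * Real.log (1 + z) - z ≤ z ^ 2 / 2 := by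
  have h1 : 0 < 1 + z := by linarith
  have h2 : 0 ≤ Real.log (1 + z) := Real.log_nonneg (by linarith)
  have h3 : Real.log (1 + z) ≤ Real.sinh (Real.log (1 + z)) := Real.self_le_sinh_iff.2 h2
  rw [Real.sinh_log h1] at h3
  have h4 : (1 + z) * ((1 + z - (1 + z)⁻¹) / 2) = z + z ^ 2 / 2 := by
    field_simp
    ring
  have h5 := mul_le_mul_of_nonneg_left h3 h1.le
  rw [h4] at h5
  linarith

/-- `(1-a) log (1-a) + a ≤ a^2/2 + a^3/6 + a^4/3` for `0 ≤ a < 1` -/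
theorem ALoss_neg {a : ℝ} (ha : 0 ≤ a) (ha1 : a < 1) :
    (1 - a) * Real.log (1 - a) + a ≤ a ^ 2 / 2 + a ^ 3 / 6 + a ^ 4 / 3 := by
  have h1 := Real.hasSum_pow_div_log_of_abs_lt_one (x := a) (by rw [abs_of_nonneg ha]; exact ha1)
  have h2 := sum_le_hasSum (Finset.range 3) (fun i _ => by positivity) h1
  rw [Finset.sum_range_succ, Finset.sum_range_succ, Finset.sum_range_one] at h2
  norm_num at h2
  have h3 : 0 < 1 - a := by linarith
  have h4 : Real.log (1 - a) ≤ -(a + a ^ 2 / 2 + a ^ 3 / 3) := by linarith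
  have h5 := mul_le_mul_of_nonneg_left h4 h3.le
  nlinarith

theorem loss_near {x l : ℝ} (hx : 10.85 ≤ x) (h1 : x - 1 ≤ l) (h2 : l ≤ x + 1) :
    loss x l ≤ 0.521 / (x - 1) ^ 2 := by
  unfold loss
  have hy : (9.85 : ℝ) ≤ x - 1 := by norm_num at hx ⊢; linarith
  set y := x - 1 with hydef
  have hy0 : 0 < y := by linarith
  have hxy : x = y + 1 := by rw [hydef]; ring
  have hl0 : 0 < l := by linarith
  set z := (l - x) / y with hz
  have hzy : y * z = l - x := by rw [hz]; field_simp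
  have hlz : (l - 1) / y = 1 + z := by
    rw [hz]; field_simp; rw [hxy]; ring
  have hlz2 : l - 1 = y * (1 + z) := by rw [← hlz]; field_simp
  have hz1 : z ≤ 1 / y := by
    rw [hz]; gcongr; linarith
  have hz2 : -(1 / y) ≤ z := by
    rw [hz, ← neg_div]; gcongr; linarith
  have hinv : 1 / y ≤ 0.1016 := by
    rw [div_le_iff₀ hy0]
    norm_num at hy ⊢
    linarith
  have hmain : (l - 1) * Real.log ((l - 1) / y) - (l - x) =
      y * ((1 + z) * Real.log (1 + z) - z) := by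
    rw [hlz, hlz2, ← hzy]; ring
  rw [hmain]
  have hsq : z ^ 2 ≤ (1 / y) ^ 2 := by
    rw [sq_le_sq]
    rw [abs_of_pos (show 0 < 1 / y by positivity)]
    exact abs_le.2 ⟨hz2, hz1⟩
  have hsq2 : y ^ 2 * z ^ 2 ≤ 1 := by
    have : y ^ 2 * (1 / y) ^ 2 = 1 := by field_simp
    rw [← this]
    gcongr
  have key : (1 + z) * Real.log (1 + z) - z ≤ 0.5205 * z ^ 2 ∧ y ≤ l := by
    refine ⟨?_, by linarith⟩
    rcases le_total 0 z with h | h
    · have := ALoss_pos h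
      nlinarith [sq_nonneg z]
    · have ha : 0 ≤ -z := by linarith
      have ha1 : -z ≤ 0.1016 := by linarith
      have h3 := ALoss_neg ha (by norm_num at ha1 ⊢; linarith)
      have e1 : (1 - -z) = 1 + z := by ring
      rw [e1] at h3
      set a := -z with hadef
      have hza : z = -a := by rw [hadef]; ring
      have h4 : a ^ 2 / 2 + a ^ 3 / 6 + a ^ 4 / 3 ≤ 0.5205 * a ^ 2 := by
        have h5 : a / 6 + a ^ 2 / 3 ≤ 0.0205 := by
          norm_num at ha1 ⊢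
          nlinarith
        nlinarith [sq_nonneg a]
      have h6 : z ^ 2 = a ^ 2 := by rw [hza]; ring
      rw [h6]
      linarith
  obtain ⟨k1, k2⟩ := key
  rw [div_le_div_iff₀ hl0 (by positivity)]
  have h7 : y * ((1 + z) * Real.log (1 + z) - z) ≤ y * (0.5205 * z ^ 2) := by gcongr
  calc y * ((1 + z) * Real.log (1 + z) - z) * y ^ 2 ≤ y * (0.5205 * z ^ 2) * y ^ 2 := by gcongr
    _ = 0.5205 * (y ^ 2 * z ^ 2) * y := by ring
    _ ≤ 0.5205 * 1 * l := by gcongr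
    _ ≤ 0.521 * l := by nlinarith

theorem loss_four {x : ℝ} (h1 : 6.3 ≤ x) (h2 : x ≤ 6.4) : loss x 6 ≤ 0.008 := by
  unfold loss
  norm_num at h1 h2
  have hy : 0 < x - 1 := by linarith
  have h3 : 1 - ((x - 1) / 5)⁻¹ ≤ Real.log ((x - 1) / 5) :=
    Real.one_sub_inv_le_log_of_pos (by positivity)
  have h4 : Real.log ((6 - 1) / (x - 1)) = -Real.log ((x - 1) / 5) := by
    rw [← Real.log_inv]; congr 1; rw [inv_div]; norm_num
  rw [h4]
  have h5 : ((x - 1) / 5)⁻¹ = 5 / (x - 1) := by rw [inv_div]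
  rw [h5] at h3
  have h6 : 5 / (x - 1) ≤ 1 - (x - 6) / 5 + 0.0065 := by
    rw [div_le_iff₀ hy]
    norm_num
    nlinarith
  norm_num at h6 ⊢
  linarith

end MP2ab38c
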