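import Pool.Agent.Lib.MP_2ab38c_co.AX
import Pool.Agent.Lib.MP_2ab38c_co.AEven
import Pool.Agent.Lib.MP_2ab38c_co.ALoss
import Pool.Agent.Lib.MP_2ab38c_co.AFin

/-!
JOB AMain.  The analysis theorem, from `exists_x`, `even1`-`even5`, `loss_near`, `loss_four`,
`fin_ineq`.

Proof.  Take `x, e0` from `exists_x`.  `δ = x - 1 - TT k r + ε`.  For `ε` small (depending on
`k, r`) `δ < loss x e0`, `δ < loss x (e0+2)` and, if `k = 4`, `δ < loss x 7`; then `δ x < 0.0607`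
(`k = 4`: `loss_four`, `0.008 * 6.4 < 0.0607`; `k ≥ 5`: one of `e0`, `e0+2` is within 1 of `x`, and
`0.521 x/(x-1)^2 ≤ 0.0607` for `x ≥ 10.85`).  If `δ < 0` then `V ≤ ∑ phi ≤ x - 1`
contradicts... (indeed `∑ phi ≤ x - 1` because all `g X ≥ 0`; or use `even4`, which gives
`0 ≤ 1 - ∑_{S0} W ≤ δ/2.5`, so `δ ≥ 0`).  Let `S0 = {X | 0.62/x ≤ W X}`, `s = |S0|`.
`s ≤ e0`: `even2` with `l = e0`.  `s ≥ e0 + 2`: `even3` with `l = e0 + 2`.  `s = e0 + 1`, `k = 4`: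
`even3` with `l = 7`.  `s = e0 + 1`, `k ≥ 5`: `s` is odd; `u = s - x ∈ (-1, 1]`,
`τ = 1 - ∑_{S0} W ∈ [0, δ/2.5]`; with `d X = 1 - x W X`,
`∑_{S0} W^2 = (∑ (1 - d)^2)/x^2 = (s - 2 ∑ d + ∑ d^2)/x^2`, `∑ d = s - x (1-τ) ≥ u`, so
`∑_{S0} W^2 ≤ (x - u + x δ/0.3)/x^2` by `even5`; the odd bound with `m = 0.62/x` and `fin_ineq`
give `V ≤ x - 1 - δ - 0.05/x + 2 s θ < x - 1 - δ = TT k r - ε` if `2 s θ < 0.05/x`.
-/

namespace MP2ab38c

open Finset

/-- the number `κ = e (C(k,2)-2)/r` -/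
noncomputable def kap (k r : ℕ) : ℝ := Real.exp 1 * ((k.choose 2 - 2 : ℕ) : ℝ) / r

theorem AMain_near {x : ℝ} {e0 : ℕ} {D : ℝ} (hx : 10.85 ≤ x) (hex : (e0 : ℝ) ≤ x)
    (hxe : x < e0 + 2) (h0 : D ≤ loss x e0) (h2 : D ≤ loss x (e0 + 2)) :
    D ≤ 0.521 / (x - 1) ^ 2 := by
  rcases le_total x ((e0 : ℝ) + 1) with h | h
  · exact h0.trans (loss_near hx (by linarith) (by linarith))
  · exact h2.trans (loss_near hx (by linarith) (by linarith))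

theorem AMain_num {x D : ℝ} (hx : 10.85 ≤ x) (hD : D ≤ 0.521 / (x - 1) ^ 2) :
    D * x ≤ 0.0607 := by
  norm_num at hx hD ⊢
  have h1 : 0 < (x - 1) ^ 2 := by
    have : 0 < x - 1 := by linarith
    positivity
  have h2 : D * x ≤ 521 / 1000 / (x - 1) ^ 2 * x :=
    mul_le_mul_of_nonneg_right hD (by linarith)
  refine h2.trans ?_
  rw [div_mul_eq_mul_div, div_le_iff₀ h1]
  nlinarith

theorem analysis {k r : ℕ} (hG : Good k r)
    (hF : ∀ l : ℕ, Even l → k ≤ l → r ^ (l - k + 1) < (l - 1) ^ ((k - 1) * (l - 1))) :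
    ∃ ε1 > 0, ∀ ε θ : ℝ, 0 ≤ ε → ε ≤ ε1 → 0 ≤ θ →
    θ ≤ ε1 → ∀ (ι : Type) [Fintype ι] [DecidableEq ι] (W : ι → ℝ) (V : ℝ), (∀ X, 0 ≤ W X) →
    ∑ X, W X = 1 → TT k r - ε ≤ V → V ≤ ∑ X, phi (Real.log r) (kap k r) (W X) →
    (∀ S0 : Finset ι, Odd S0.card →
      Real.exp 1 * ((k.choose 2 - 2 : ℕ) : ℝ) * (S0.card : ℝ) ≤ r → ∀ m : ℝ, 0 ≤ m →
      (∀ X ∈ S0, m ≤ W X) →
      V ≤ ((∑ X ∈ S0, W X) ^ 2 - ∑ X ∈ S0, (W X) ^ 2) *
            (Real.log r - Real.log (S0.card : ℝ) - 1) +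
          (S0.card : ℝ) * (∑ X ∈ S0, (W X) ^ 2 - m ^ 2) + 2 * (S0.card : ℝ) * θ +
          2 * (1 - ∑ X ∈ S0, W X) * Real.log r) → False := by
  obtain ⟨x, e0, hx, hR, he, hex, hxe, he4, h5, hκ, hes, hl0, hl2, h4⟩ := exists_x hG hF
  have hx6 : (6 : ℝ) < x := by norm_num at hx; linarith
  have hx0 : 0 < x := by linarith
  have hk := hG.hk
  -- the threshold D
  obtain ⟨D, hD0, hD1, hD2, hD3⟩ : ∃ D : ℝ, x - 1 - TT k r < D ∧ D ≤ loss x e0 ∧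
      D ≤ loss x (e0 + 2) ∧ (k = 4 → D ≤ loss x 7) := by
    by_cases hk4 : k = 4
    · exact ⟨min (loss x e0) (min (loss x (e0 + 2)) (loss x 7)),
        lt_min hl0 (lt_min hl2 (h4 hk4).2.2), min_le_left _ _,
        (min_le_right _ _).trans (min_le_left _ _),
        fun _ => (min_le_right _ _).trans (min_le_right _ _)⟩
    · exact ⟨min (loss x e0) (loss x (e0 + 2)), lt_min hl0 hl2, min_le_left _ _,
        min_le_right _ _, fun h => absurd h hk4⟩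
  have hDx : D * x ≤ 0.0607 := by
    by_cases hk4 : k = 4
    · obtain ⟨h41, h42, h43⟩ := h4 hk4
      subst h42
      have h44 : D ≤ 0.008 := hD1.trans (by
        have := loss_four hx h41
        norm_num at this ⊢
        exact this)
      norm_num at h44 h41 ⊢
      nlinarith
    · have hk5 : 5 ≤ k := by omega
      exact AMain_num (h5 hk5) (AMain_near (h5 hk5) hex hxe hD1 hD2)
  refine ⟨min ((D - (x - 1 - TT k r)) / 2) (0.02 / (x * ((e0 : ℝ) + 1))),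
    lt_min (by linarith) (by positivity), ?_⟩
  intro ε θ hε0 hε1 hθ0 hθ1 ι _ _ W V hW0 hW1 hTV hVp hodd
  have hε2 : ε ≤ (D - (x - 1 - TT k r)) / 2 := hε1.trans (min_le_left _ _)
  have hθ2 : θ ≤ 0.02 / (x * ((e0 : ℝ) + 1)) := hθ1.trans (min_le_right _ _)
  obtain ⟨δ, hδ⟩ : ∃ δ : ℝ, δ = x - 1 - TT k r + ε := ⟨_, rfl⟩
  have hδD : δ < D := by rw [hδ]; linarith
  have hδx : δ * x < 0.0607 := lt_of_lt_of_le (mul_lt_mul_of_pos_right hδD hx0) hDx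
  have hr0 : (0 : ℝ) < r := by
    rcases Nat.eq_zero_or_pos r with h | h
    · exfalso
      rw [h] at hR
      norm_num at hR
      have : 0 < Real.log (x - 1) := Real.log_pos (by linarith)
      linarith
    · exact_mod_cast h
  have hκ0 : 0 < kap k r := by
    unfold kap
    have h6 : 6 ≤ k.choose 2 := by
      have h8 : Nat.choose 4 2 ≤ k.choose 2 := Nat.choose_le_choose 2 hk
      have h9 : Nat.choose 4 2 = 6 := by decide
      omega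
    have h7 : (0 : ℝ) < ((k.choose 2 - 2 : ℕ) : ℝ) := by
      have : 0 < k.choose 2 - 2 := by omega
      exact_mod_cast this
    have := Real.exp_pos 1
    positivity
  have hV : x - 1 - δ ≤ ∑ X, phi (Real.log r) (kap k r) (W X) := by
    rw [hδ]; linarith
  obtain ⟨S0, hS0⟩ : ∃ S0 : Finset ι, ∀ X, X ∈ S0 ↔ 0.62 / x ≤ W X :=
    ⟨univ.filter (fun X => 0.62 / x ≤ W X), fun X => by simp⟩
  rcases lt_or_ge e0 S0.card with hs | hs
  swap
  · -- s ≤ e0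
    have := even2 hx hR hκ0 hκ hδx W hW0 hW1 hV S0 hS0 e0 he4 hex hxe hs
    linarith
  rcases lt_or_ge (e0 + 1) S0.card with hs2 | hs2
  · -- s ≥ e0 + 2
    have := even3 hx hR hκ0 hκ hδx W hW0 hW1 hV S0 hS0 (e0 + 2)
      (by push_cast; linarith) (by push_cast; linarith) (by omega)
    push_cast at this
    linarith
  have hs3 : S0.card = e0 + 1 := by omega
  by_cases hk4 : k = 4
  · obtain ⟨h41, h42, h43⟩ := h4 hk4
    have h44 := even3 hx hR hκ0 hκ hδx W hW0 hW1 hV S0 hS0 7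
      (by norm_num at h41 ⊢; linarith) (by norm_num; linarith) (by omega)
    have h45 := hD3 hk4
    push_cast at h44
    linarith
  have hk5 : 5 ≤ k := by omega
  have hx10 := h5 hk5
  have hδn : δ ≤ 0.521 / (x - 1) ^ 2 :=
    hδD.le.trans (AMain_near hx10 hex hxe hD1 hD2)
  have e4 := even4 hx hR hκ0 hκ hδx W hW0 hW1 hV S0 hS0
  have e5 := even5 hx hR hκ0 hκ hδx W hW0 hW1 hV S0 hS0
  have hsR : (S0.card : ℝ) = (e0 : ℝ) + 1 := by rw [hs3]; push_cast; ring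
  have hoddS : Odd S0.card := by rw [hs3]; exact he.add_one
  have ho := hodd S0 hoddS (by rw [hsR]; exact hes) (0.62 / x) (by positivity)
    (fun X hX => (hS0 X).1 hX)
  rw [hsR] at ho
  obtain ⟨τ, hτ⟩ : ∃ τ : ℝ, τ = 1 - ∑ X ∈ S0, W X := ⟨_, rfl⟩
  have hτs : ∑ X ∈ S0, W X = 1 - τ := by rw [hτ]; ring
  have hτ0 : 0 ≤ τ := by
    rw [hτ]
    have : ∑ X ∈ S0, W X ≤ ∑ X, W X :=
      Finset.sum_le_sum_of_subset_of_nonneg (Finset.subset_univ _) (fun i _ _ => hW0 i)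
    linarith
  have hτ1 : τ ≤ δ / 2.5 := by rw [hτ]; exact e4
  have hδ0 : 0 ≤ δ := by
    have h := hτ0.trans hτ1
    norm_num at h
    linarith
  obtain ⟨S2, hS2⟩ : ∃ S2 : ℝ, S2 = ∑ X ∈ S0, (W X) ^ 2 := ⟨_, rfl⟩
  have hsum : ∑ X ∈ S0, (1 - x * W X) ^ 2 = (S0.card : ℝ) - 2 * x * (∑ X ∈ S0, W X) +
      x ^ 2 * ∑ X ∈ S0, (W X) ^ 2 := by
    have h1 : ∀ X ∈ S0, (1 - x * W X) ^ 2 = 1 - 2 * x * W X + x ^ 2 * (W X) ^ 2 :=
      fun X _ => by ring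
    rw [Finset.sum_congr rfl h1, Finset.sum_add_distrib, Finset.sum_sub_distrib,
      Finset.mul_sum, Finset.mul_sum]
    simp
  rw [hsum, hτs, ← hS2, hsR] at e5
  rw [hτs, ← hS2] at ho
  obtain ⟨u, hu⟩ : ∃ u : ℝ, u = (e0 : ℝ) + 1 - x := ⟨_, rfl⟩
  have hxu : x + u = (e0 : ℝ) + 1 := by rw [hu]; ring
  have hS2b : S2 ≤ (x - u + x * δ / 0.3) / x ^ 2 := by
    rw [le_div_iff₀ (by positivity)]
    have h1 : 0 ≤ x * τ := by positivity
    rw [← hxu] at e5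
    nlinarith
  have hf := fin_ineq hx10 (u := u) (by linarith) (by linarith) hδ0 hδn hτ0 hτ1 hS2b
  rw [hxu] at hf
  rw [hR] at ho
  have hθ3 : 2 * ((e0 : ℝ) + 1) * θ < 0.05 / x := by
    have h1 : 0 < (e0 : ℝ) + 1 := by positivity
    have h2 : 2 * ((e0 : ℝ) + 1) * θ ≤ 2 * ((e0 : ℝ) + 1) * (0.02 / (x * ((e0 : ℝ) + 1))) :=
      mul_le_mul_of_nonneg_left hθ2 (by positivity)
    have h3 : 2 * ((e0 : ℝ) + 1) * (0.02 / (x * ((e0 : ℝ) + 1))) = 0.04 / x := by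
      field_simp
      norm_num
    have h4 : (0.04 : ℝ) / x < 0.05 / x := by
      gcongr
      norm_num
    linarith
  have hfin : V < x - 1 - δ := by
    have e1 : (1 - (1 - τ)) = τ := by ring
    rw [e1] at ho
    linarith
  rw [hδ] at hfin
  linarith

end MP2ab38c
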