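import Pool.Agent.Lib.MP_2ab38c_co.Core

/-!
JOB AX.  From `Good k r` to the parameter `x` with `log r = x + log (x-1)` and the even integer
`e0 ≤ x < e0 + 2`.  `R = log r`, `B1 = C(k,2) - 2`.

Proof.  `x ↦ x + log (x-1)` is continuous and increasing on `(1,∞)`, onto (intermediate value
theorem); `x ≥ a` iff `a + log (a-1) ≤ R`.
* `k = 4`: `hF 6` gives `r^3 < 5^15`, `r ≤ 3124`, and `3000 ≤ r`.  So `8.006 ≤ R ≤ 8.0469`,
  `6.33 ≤ x ≤ 6.37`, `e0 = 6`.
* `k ≥ 5`: `R ≥ 13.14 ≥ 10.85 + log 9.85`, so `x ≥ 10.85`.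
* `k ≤ e0`: `x ≥ k + 2` since `k + 2 + log (k+1) ≤ (k-1)(1 + log (2.6 (k-2))) ≤ R`.
* For an even `l ≥ k` the inequality `hF l` says `(l-k+1) R < (k-1)(l-1) log (l-1)`, that is
  `(1 - 1/l)(R - log (l-1)) < (k-2)/(k-1) R = TT k r`, and the left side is `x - 1 - loss x l`
  (definition of `loss`, `R = x + log (x-1)`).  This gives the two inequalities for `e0`, `e0+2`.
  For `k = 4`, `l = 7`: `r^4 ≤ 3124^4 < 6^18`.
* `e B1 / r ≤ 0.03/x`: `k = 4`: `e * 4 * 6.37 ≤ 0.03 * 3000`.  `k ≥ 5`: `B1 ≤ (k-2)^2 ≤ x^2` and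
  `r = e^x (x-1)`, so it suffices that `e x^3 ≤ 0.03 e^x (x-1)`, true for `x ≥ 10.85`.
* `e B1 (e0+1) ≤ r`: similar (`k = 4`: `e * 4 * 7 ≤ 3000`).
-/

namespace MP2ab38c

open Finset

private lemma AX_exp_ratio_le (a b : ℕ) (c : ℝ) (hb : 0 < b) (hc : 0 ≤ c)
    (h : (2.7182818286 : ℝ) ^ a ≤ c ^ b) : Real.exp ((a : ℝ) / b) ≤ c := by
  have hb' : (0 : ℝ) < b := by exact_mod_cast hb
  have h1 : Real.exp ((a : ℝ) / b) ^ b = Real.exp 1 ^ a := by
    rw [← Real.exp_nat_mul, ← Real.exp_nat_mul]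
    congr 1
    field_simp
  have h2 : Real.exp 1 ^ a ≤ (2.7182818286 : ℝ) ^ a :=
    pow_le_pow_left₀ (Real.exp_pos _).le Real.exp_one_lt_d9.le _
  by_contra h3
  push Not at h3
  have h4 : c ^ b < Real.exp ((a : ℝ) / b) ^ b := pow_lt_pow_left₀ h3 hc hb.ne'
  rw [h1] at h4
  linarith

private lemma AX_le_exp_ratio (a b : ℕ) (c : ℝ) (hb : 0 < b)
    (h : c ^ b ≤ (2.7182818283 : ℝ) ^ a) : c ≤ Real.exp ((a : ℝ) / b) := by
  have hb' : (0 : ℝ) < b := by exact_mod_cast hb
  have h1 : Real.exp ((a : ℝ) / b) ^ b = Real.exp 1 ^ a := by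
    rw [← Real.exp_nat_mul, ← Real.exp_nat_mul]
    congr 1
    field_simp
  have h2 : (2.7182818283 : ℝ) ^ a ≤ Real.exp 1 ^ a :=
    pow_le_pow_left₀ (by norm_num) Real.exp_one_gt_d9.le _
  by_contra h3
  push Not at h3
  have h4 : Real.exp ((a : ℝ) / b) ^ b < c ^ b := pow_lt_pow_left₀ h3 (Real.exp_pos _).le hb.ne'
  rw [h1] at h4
  linarith

/-- the function `x + log (x-1)` is increasing -/
private lemma AX_mono {a x R : ℝ} (_ha : 1 < a) (hx : 1 < x) (hR : R = x + Real.log (x - 1))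
    (h : a + Real.log (a - 1) ≤ R) : a ≤ x := by
  by_contra hlt
  push Not at hlt
  have h1 : Real.log (x - 1) < Real.log (a - 1) := Real.log_lt_log (by linarith) (by linarith)
  linarith

private lemma AX_mono' {a x R : ℝ} (ha : 1 < a) (_hx : 1 < x) (hR : R = x + Real.log (x - 1))
    (h : R ≤ a + Real.log (a - 1)) : x ≤ a := by
  by_contra hlt
  push Not at hlt
  have h1 : Real.log (a - 1) < Real.log (x - 1) := Real.log_lt_log (by linarith) (by linarith)
  linarith

private lemma AX_exists (R : ℝ) (hR : 2 ≤ R) : ∃ x : ℝ, 2 ≤ x ∧ R = x + Real.log (x - 1) := by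
  have hcont : ContinuousOn (fun x : ℝ => x + Real.log (x - 1)) (Set.Icc 2 (R + 1)) := by
    refine continuousOn_id.add (ContinuousOn.log (by fun_prop) ?_)
    intro x hx
    have := hx.1
    linarith
  have h := intermediate_value_Icc (by linarith : (2 : ℝ) ≤ R + 1) hcont
  have hmem : R ∈ Set.Icc ((2 : ℝ) + Real.log (2 - 1)) (R + 1 + Real.log (R + 1 - 1)) := by
    constructor
    · norm_num
      exact hR
    · have : 0 ≤ Real.log (R + 1 - 1) := Real.log_nonneg (by linarith)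
      linarith
  obtain ⟨x, hx, hx'⟩ := h hmem
  exact ⟨x, hx.1, hx'.symm⟩

/-- the palette inequality in terms of `loss` -/
private lemma AX_loss {k r l : ℕ} (hk : 4 ≤ k) (hr : 0 < r) (hkl : k ≤ l) (x : ℝ) (hx : 1 < x)
    (hR : Real.log r = x + Real.log (x - 1))
    (h : r ^ (l - k + 1) < (l - 1) ^ ((k - 1) * (l - 1))) :
    x - 1 - TT k r < loss x l := by
  have hk' : (4 : ℝ) ≤ k := by exact_mod_cast hk
  have hl' : (4 : ℝ) ≤ l := by exact_mod_cast hk.trans hkl
  have hr' : (0 : ℝ) < r := by exact_mod_cast hr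
  have h1 : ((l : ℝ) - k + 1) * Real.log r < ((k : ℝ) - 1) * ((l : ℝ) - 1) * Real.log ((l : ℝ) - 1) := by
    have h2 : ((r : ℝ)) ^ (l - k + 1) < ((l : ℝ) - 1) ^ ((k - 1) * (l - 1)) := by
      have h3 : (((r ^ (l - k + 1) : ℕ)) : ℝ) < (((l - 1) ^ ((k - 1) * (l - 1)) : ℕ) : ℝ) := by
        exact_mod_cast h
      push_cast [Nat.cast_sub (show 1 ≤ l by omega)] at h3
      exact h3
    have h4 := Real.log_lt_log (by positivity) h2
    rw [Real.log_pow, Real.log_pow] at h4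
    push_cast [Nat.cast_sub (show 1 ≤ l by omega), Nat.cast_sub (show 1 ≤ k by omega),
      Nat.cast_sub hkl] at h4
    exact h4
  have hl0 : (0 : ℝ) < l := by linarith
  have hlog : Real.log (((l : ℝ) - 1) / (x - 1)) = Real.log ((l : ℝ) - 1) - Real.log (x - 1) :=
    Real.log_div (by linarith) (by linarith)
  unfold loss TT
  rw [hlog, lt_div_iff₀ hl0]
  set L := Real.log ((l : ℝ) - 1) with hL
  have h5 : Real.log (x - 1) = Real.log r - x := by linarith
  rw [h5]
  set R := Real.log (r : ℝ) with hRdef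
  have hk1 : (0 : ℝ) < (k : ℝ) - 1 := by linarith
  have h6 : (x - 1 - ((k : ℝ) - 2) / ((k : ℝ) - 1) * R) * l * ((k : ℝ) - 1) <
      (((l : ℝ) - 1) * (L - (R - x)) - (l - x)) * ((k : ℝ) - 1) := by
    have h7 : (x - 1 - ((k : ℝ) - 2) / ((k : ℝ) - 1) * R) * l * ((k : ℝ) - 1) =
        (x - 1) * l * ((k : ℝ) - 1) - ((k : ℝ) - 2) * R * l := by
      field_simp
    rw [h7]
    nlinarith
  exact lt_of_mul_lt_mul_right h6 hk1.le

theorem exists_x {k r : ℕ} (hG : Good k r)
    (hF : ∀ l : ℕ, Even l → k ≤ l → r ^ (l - k + 1) < (l - 1) ^ ((k - 1) * (l - 1))) :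
    ∃ (x : ℝ) (e0 : ℕ), 6.3 ≤ x ∧
    Real.log r = x + Real.log (x - 1) ∧ Even e0 ∧ (e0 : ℝ) ≤ x ∧ x < e0 + 2 ∧ 4 ≤ e0 ∧
    (5 ≤ k → 10.85 ≤ x) ∧
    Real.exp 1 * ((k.choose 2 - 2 : ℕ) : ℝ) / r ≤ 0.03 / x ∧
    Real.exp 1 * ((k.choose 2 - 2 : ℕ) : ℝ) * ((e0 : ℝ) + 1) ≤ r ∧
    x - 1 - TT k r < loss x e0 ∧ x - 1 - TT k r < loss x (e0 + 2) ∧
    (k = 4 → x ≤ 6.4 ∧ e0 = 6 ∧ x - 1 - TT k r < loss x 7) := by
  obtain ⟨hk, -, h4, h5, hR⟩ := hG
  rcases Nat.lt_or_ge k 5 with hk5 | hk5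
  · -- the case k = 4
    have hk4 : k = 4 := by omega
    subst hk4
    have hr3 : 3000 ≤ r := h4 rfl
    have hr3' : (3000 : ℝ) ≤ r := by exact_mod_cast hr3
    have hr0 : 0 < r := by omega
    have hr0' : (0 : ℝ) < r := by linarith
    have hr5 : r ≤ 3124 := by
      have h1 := hF 6 (by decide) (by norm_num)
      by_contra h2
      push Not at h2
      have h3 : 3125 ^ 3 ≤ r ^ 3 := Nat.pow_le_pow_left h2 3
      norm_num at h1 h3
      omega
    have hr5' : (r : ℝ) ≤ 3124 := by exact_mod_cast hr5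
    have hlogge : (6.3 : ℝ) + Real.log (6.3 - 1) ≤ Real.log r := by
      have h1 : Real.exp ((63 : ℕ) / (10 : ℕ)) ≤ 566 :=
        AX_exp_ratio_le 63 10 566 (by norm_num) (by norm_num) (by norm_num)
      have h2 : (6.3 : ℝ) + Real.log (6.3 - 1) = Real.log (Real.exp 6.3 * 5.3) := by
        rw [Real.log_mul (Real.exp_pos _).ne' (by norm_num), Real.log_exp]
        norm_num
      rw [h2]
      refine Real.log_le_log (by positivity) ?_
      have h3 : Real.exp 6.3 ≤ 566 := by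
        have : (6.3 : ℝ) = ((63 : ℕ) : ℝ) / ((10 : ℕ) : ℝ) := by norm_num
        rw [this]
        exact h1
      linarith
    have hlogle : Real.log r ≤ (6.4 : ℝ) + Real.log (6.4 - 1) := by
      have h1 : (579 : ℝ) ≤ Real.exp ((64 : ℕ) / (10 : ℕ)) :=
        AX_le_exp_ratio 64 10 579 (by norm_num) (by norm_num)
      have h2 : (6.4 : ℝ) + Real.log (6.4 - 1) = Real.log (Real.exp 6.4 * 5.4) := by
        rw [Real.log_mul (Real.exp_pos _).ne' (by norm_num), Real.log_exp]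
        norm_num
      rw [h2]
      refine Real.log_le_log hr0' ?_
      have h3 : 579 ≤ Real.exp 6.4 := by
        have : (6.4 : ℝ) = ((64 : ℕ) : ℝ) / ((10 : ℕ) : ℝ) := by norm_num
        rw [this]
        exact h1
      linarith
    have hR2 : 2 ≤ Real.log r := by
      have : 0 ≤ Real.log ((6.3 : ℝ) - 1) := Real.log_nonneg (by norm_num)
      linarith
    obtain ⟨x, hx2, hxR⟩ := AX_exists (Real.log r) hR2
    have hx1 : 1 < x := by linarith
    have hxlo : 6.3 ≤ x := AX_mono (by norm_num) hx1 hxR hlogge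
    have hxhi : x ≤ 6.4 := AX_mono' (by norm_num) hx1 hxR hlogle
    have hexp : Real.exp 1 < 2.7182818286 := Real.exp_one_lt_d9
    have hexp0 : 0 < Real.exp 1 := Real.exp_pos _
    have hB : (((4 : ℕ).choose 2 - 2 : ℕ) : ℝ) = 4 := by norm_num [Nat.choose]
    refine ⟨x, 6, hxlo, hxR, by decide, by push_cast; linarith, by push_cast; linarith,
      by norm_num, fun h => by omega, ?_, ?_, ?_, ?_, ?_⟩
    · rw [hB, div_le_div_iff₀ hr0' (by linarith)]
      nlinarith
    · rw [hB]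
      push_cast
      nlinarith
    · exact AX_loss (l := 6) le_rfl hr0 (by norm_num) x hx1 hxR (hF 6 (by decide) (by norm_num))
    · have h1 := AX_loss (l := 8) le_rfl hr0 (by norm_num) x hx1 hxR
        (hF 8 (by decide) (by norm_num))
      have h2 : (((8 : ℕ) : ℝ)) = ((6 : ℕ) : ℝ) + 2 := by norm_num
      rw [h2] at h1
      exact h1
    · intro _
      refine ⟨hxhi, rfl, ?_⟩
      have h1 : r ^ (7 - 4 + 1) < (7 - 1) ^ ((4 - 1) * (7 - 1)) := by
        calc r ^ (7 - 4 + 1) ≤ 3124 ^ (7 - 4 + 1) := Nat.pow_le_pow_left hr5 _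
          _ < _ := by norm_num
      have h2 := AX_loss (l := 7) le_rfl hr0 (by norm_num) x hx1 hxR h1
      have h3 : (((7 : ℕ) : ℝ)) = 7 := by norm_num
      rw [h3] at h2
      exact h2
  · -- the case k ≥ 5
    have hk' : (5 : ℝ) ≤ k := by exact_mod_cast hk5
    have hR13 := h5 hk5
    have hr0 : 0 < r := by
      rcases Nat.eq_zero_or_pos r with h | h
      · rw [h] at hR13
        norm_num at hR13
      · exact h
    have hr0' : (0 : ℝ) < r := by exact_mod_cast hr0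
    obtain ⟨x, hx2, hxR⟩ := AX_exists (Real.log r) (by linarith)
    have hx1 : 1 < x := by linarith
    have hlog985 : Real.log 9.85 ≤ 2.29 := by
      rw [Real.log_le_iff_le_exp (by norm_num)]
      have h1 : (9.85 : ℝ) ≤ Real.exp ((229 : ℕ) / (100 : ℕ)) :=
        AX_le_exp_ratio 229 100 9.85 (by norm_num) (by norm_num)
      have h2 : (2.29 : ℝ) = ((229 : ℕ) : ℝ) / ((100 : ℕ) : ℝ) := by norm_num
      rw [h2]
      exact h1
    have hxlo : 10.85 ≤ x := by
      refine AX_mono (by norm_num) hx1 hxR ?_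
      have : (10.85 : ℝ) - 1 = 9.85 := by norm_num
      rw [this]
      linarith
    have hxk : (k : ℝ) + 2 ≤ x := by
      refine AX_mono (by linarith) hx1 hxR ?_
      have h1 : Real.log ((k : ℝ) + 2 - 1) ≤ Real.log (2.6 * ((k : ℝ) - 2)) :=
        Real.log_le_log (by linarith) (by linarith)
      have h2 : 1 ≤ Real.log (2.6 * ((k : ℝ) - 2)) := by
        rw [Real.le_log_iff_exp_le (by linarith)]
        have := Real.exp_one_lt_d9
        linarith
      nlinarith
    -- the even integer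
    set m := ⌊x / 2⌋₊ with hm
    have hm1 : (m : ℝ) ≤ x / 2 := Nat.floor_le (by linarith)
    have hm2 : x / 2 < m + 1 := Nat.lt_floor_add_one _
    have hke : k ≤ 2 * m := by
      have h1 : (k : ℝ) < 2 * m := by linarith
      exact_mod_cast h1.le
    have he1 : (((2 * m : ℕ)) : ℝ) ≤ x := by push_cast; linarith
    have he2 : x < ((2 * m : ℕ) : ℝ) + 2 := by push_cast; linarith
    have hB0 : (0 : ℝ) ≤ ((k.choose 2 - 2 : ℕ) : ℝ) := Nat.cast_nonneg _
    have hB : ((k.choose 2 - 2 : ℕ) : ℝ) ≤ x ^ 2 := by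
      have h1 : ((k.choose 2 - 2 : ℕ) : ℝ) ≤ (k : ℝ) ^ 2 := by
        have h2 : k.choose 2 - 2 ≤ k ^ 2 := by
          refine (Nat.sub_le _ _).trans ?_
          exact Nat.choose_le_pow k 2
        exact_mod_cast h2
      have h3 : (k : ℝ) ^ 2 ≤ x ^ 2 := by
        apply pow_le_pow_left₀ (by linarith)
        linarith
      linarith
    have hrx : (r : ℝ) = Real.exp x * (x - 1) := by
      rw [← Real.exp_log hr0', hxR, Real.exp_add, Real.exp_log (by linarith)]
    have hexp : Real.exp 1 < 2.7182818286 := Real.exp_one_lt_d9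
    have hexp' : 2.7182818283 < Real.exp 1 := Real.exp_one_gt_d9
    have hexp0 : 0 < Real.exp 1 := Real.exp_pos _
    have hbig : Real.exp 1 * x ^ 3 ≤ 0.03 * r := by
      rw [hrx]
      obtain ⟨t, ht⟩ : ∃ t, t = x - 10.85 := ⟨_, rfl⟩
      have ht0 : 0 ≤ t := by linarith
      have hxt : x = 10.85 + t := by linarith
      have h1 : (48000 : ℝ) ≤ Real.exp 10.85 := by
        have h2 : (48000 : ℝ) ≤ Real.exp ((217 : ℕ) / (20 : ℕ)) :=
          AX_le_exp_ratio 217 20 48000 (by norm_num) (by norm_num)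
        have h3 : (10.85 : ℝ) = ((217 : ℕ) : ℝ) / ((20 : ℕ) : ℝ) := by norm_num
        rw [h3]
        exact h2
      have h2 : 1 + t + t ^ 2 / 2 ≤ Real.exp t := Real.quadratic_le_exp_of_nonneg ht0
      have h3 : 48000 * (1 + t + t ^ 2 / 2) ≤ Real.exp x := by
        rw [hxt, Real.exp_add]
        exact mul_le_mul h1 h2 (by positivity) (Real.exp_pos _).le
      have h4 : Real.exp 1 * x ^ 3 ≤ 2.72 * x ^ 3 := by
        have : 0 ≤ x ^ 3 := by positivity
        nlinarith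
      have h5 : 0.03 * (48000 * (1 + t + t ^ 2 / 2) * (x - 1)) ≤ 0.03 * (Real.exp x * (x - 1)) := by
        have : 0 ≤ x - 1 := by linarith
        gcongr
      refine h4.trans (le_trans ?_ h5)
      rw [hxt]
      have ht2 : 0 ≤ t ^ 2 := by positivity
      have ht3 : 0 ≤ t ^ 3 := by positivity
      nlinarith
    refine ⟨x, 2 * m, by linarith, hxR, even_two_mul m, he1, he2, by omega, fun _ => hxlo, ?_, ?_,
      ?_, ?_, fun h => by omega⟩
    · rw [div_le_div_iff₀ hr0' (by linarith)]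
      calc Real.exp 1 * ((k.choose 2 - 2 : ℕ) : ℝ) * x ≤ Real.exp 1 * x ^ 2 * x := by
            have : 0 ≤ x := by linarith
            gcongr
        _ = Real.exp 1 * x ^ 3 := by ring
        _ ≤ 0.03 * r := hbig
    · have hx0 : 0 ≤ x := by linarith
      calc Real.exp 1 * ((k.choose 2 - 2 : ℕ) : ℝ) * (((2 * m : ℕ) : ℝ) + 1)
          ≤ Real.exp 1 * x ^ 2 * (x + x) := by
            have h1x : (1 : ℝ) ≤ x := by linarith
            gcongr
        _ = 2 * (Real.exp 1 * x ^ 3) := by ring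
        _ ≤ 2 * (0.03 * r) := by linarith
        _ ≤ r := by linarith
    · exact AX_loss (by omega) hr0 hke x hx1 hxR (hF (2 * m) (even_two_mul m) hke)
    · have h1 := AX_loss (l := 2 * m + 2) (by omega) hr0 (by omega) x hx1 hxR
        (hF (2 * m + 2) ⟨m + 1, by ring⟩ (by omega))
      have h2 : (((2 * m + 2 : ℕ)) : ℝ) = ((2 * m : ℕ) : ℝ) + 2 := by push_cast; ring
      rw [h2] at h1
      exact h1

end MP2ab38c
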