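import Pool.Agent.Lib.MP_2ab38c_co.CDefs

/-!
JOB CCount.  Counting the colourings respecting a scheme.
`card_psize`: the number of `c < r` with `c % m = i` is `(r + (m-1-i))/m`.
`prod_psize`: the product of the palette sizes is `palProd r m` (reindex `i ↦ m-1-i`).
`compat_count`: the number of `F` compatible with `f` and `pal = (· % (l-1))` is the product over the
edges `uv` of `psize r (l-1) (f (u%l) (v%l))` (each `≥ 1` as `l - 1 ≤ r`), hence at least the
product over the edges between the first `n/l` vertices of each residue class: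
`(∏_{a<l} ∏_{b<a} psize)^((n/l)^2)`.
-/

namespace MP2ab38c

open Finset SimpleGraph

private theorem CCount_div (r m i : ℕ) (hm : 0 < m) (hi : i < m) :
    (r + (m - 1 - i)) / m = r / m + if i < r % m then 1 else 0 := by
  have h1 : m * (r / m) + r % m = r := Nat.div_add_mod r m
  have h2 : r % m < m := Nat.mod_lt _ hm
  set q := r / m with hq
  set s := r % m with hs
  have h3 : r + (m - 1 - i) = (s + (m - 1 - i)) + m * q := by omega
  rw [h3, Nat.add_mul_div_left _ _ hm]
  split_ifs with h
  · have : (s + (m - 1 - i)) / m = 1 := by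
      rw [Nat.div_eq_iff hm]
      omega
    omega
  · have : (s + (m - 1 - i)) / m = 0 := by
      apply Nat.div_eq_of_lt
      omega
    omega

theorem card_psize (r m i : ℕ) (hm : 0 < m) (hi : i < m) :
    #{c : Fin r | (c : ℕ) % m = i} = psize r m i := by
  have h1 : #{c : Fin r | (c : ℕ) % m = i} = Nat.count (· ≡ i [MOD m]) r := by
    rw [Nat.count_eq_card_filter_range, Finset.card_filter, Finset.card_filter,
      ← Fin.sum_univ_eq_sum_range (fun c => if c ≡ i [MOD m] then 1 else 0) r]
    refine Finset.sum_congr rfl (fun c _ => ?_)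
    have : ((c : ℕ) % m = i) ↔ ((c : ℕ) ≡ i [MOD m]) := by
      rw [Nat.ModEq, Nat.mod_eq_of_lt hi]
    simp only [this]
  rw [h1, Nat.count_modEq_card _ hm, psize, CCount_div r m i hm hi, Nat.mod_eq_of_lt hi]

theorem prod_psize (r m : ℕ) (hm : 0 < m) : ∏ i ∈ range m, psize r m i = palProd r m := by
  unfold psize palProd
  exact Finset.prod_range_reflect (fun j => (r + j) / m) m

/-- the palette of a pair -/
private def CCount_fe {n l : ℕ} (f : ℕ → ℕ → ℕ) (hs : ∀ a b, f a b = f b a) :
    Sym2 (Fin n) → ℕ :=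
  Sym2.lift ⟨fun u v => f ((u : ℕ) % l) ((v : ℕ) % l), fun _ _ => hs _ _⟩

private theorem CCount_lt {l q n : ℕ} (hq : q = n / l) (x : Fin q) (a : ℕ) (ha : a < l) :
    l * (x : ℕ) + a < n := by
  have h1 : (x : ℕ) + 1 ≤ n / l := by rw [← hq]; exact x.2
  have h2 : l * ((x : ℕ) + 1) ≤ l * (n / l) := Nat.mul_le_mul_left _ h1
  have h3 : l * (n / l) ≤ n := Nat.mul_div_le n l
  have h4 : l * ((x : ℕ) + 1) = l * (x : ℕ) + l := by ring
  omega

theorem compat_count {r n l : ℕ} (hl : 2 ≤ l) (hr : l - 1 ≤ r) (f : ℕ → ℕ → ℕ)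
    (hf : Scheme l f) :
    (∏ a ∈ range l, ∏ b ∈ range a, psize r (l - 1) (f a b)) ^ ((n / l) ^ 2) ≤
      {F : (turanGraph n l).edgeSet → Fin r |
        Compat l f (fun c => (c : ℕ) % (l - 1)) F}.ncard := by
  classical
  have hm : 0 < l - 1 := by omega
  set fe : Sym2 (Fin n) → ℕ := CCount_fe (n := n) (l := l) f hf.symm with hfe
  have hfe' : ∀ u v : Fin n, fe s(u, v) = f ((u : ℕ) % l) ((v : ℕ) % l) := fun _ _ => rfl
  set A : Sym2 (Fin n) → Finset (Fin r) := fun e => {c : Fin r | (c : ℕ) % (l - 1) = fe e} with hA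
  -- the set of compatible colourings
  have hset : {F : (turanGraph n l).edgeSet → Fin r |
      Compat l f (fun c => (c : ℕ) % (l - 1)) F} =
      ((Fintype.piFinset fun e : (turanGraph n l).edgeSet => A e.1 :
        Finset ((turanGraph n l).edgeSet → Fin r)) : Set _) := by
    ext F
    simp only [Set.mem_setOf_eq, Finset.mem_coe, Fintype.mem_piFinset, hA, Finset.mem_filter,
      Finset.mem_univ, true_and]
    constructor
    · rintro h ⟨e, he⟩
      induction e using Sym2.ind with
      | h u v => exact h u v he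
    · intro h u v huv
      exact h ⟨s(u, v), huv⟩
  rw [hset, Set.ncard_coe_finset, Fintype.card_piFinset]
  -- palettes of edges are nonempty
  have hlt : ∀ e ∈ (turanGraph n l).edgeSet, fe e < l - 1 := by
    intro e he
    induction e using Sym2.ind with
    | h u v =>
      rw [hfe']
      have huv : (u : ℕ) % l ≠ (v : ℕ) % l := he
      exact hf.lt _ _ (Nat.mod_lt _ (by omega)) (Nat.mod_lt _ (by omega)) huv
  have hcard : ∀ e ∈ (turanGraph n l).edgeSet, #(A e) = psize r (l - 1) (fe e) := by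
    intro e he
    exact card_psize r (l - 1) (fe e) hm (hlt e he)
  have hpos : ∀ e ∈ (turanGraph n l).edgeSet, 1 ≤ #(A e) := by
    intro e he
    rw [hcard e he, psize, Nat.one_le_div_iff hm]
    omega
  -- the edges between the first vertices
  set q := n / l with hq
  let T := ((a : Fin l) × Fin (a : ℕ)) × (Fin q × Fin q)
  let ed : T → Sym2 (Fin n) := fun t =>
    s(⟨l * (t.2.1 : ℕ) + t.1.1, CCount_lt hq t.2.1 _ t.1.1.2⟩,
      ⟨l * (t.2.2 : ℕ) + t.1.2, CCount_lt hq t.2.2 _ (t.1.2.2.trans t.1.1.2)⟩)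
  have hmod : ∀ x a : ℕ, a < l → (l * x + a) % l = a := by
    intro x a ha
    rw [Nat.mul_add_mod, Nat.mod_eq_of_lt ha]
  have hedge : ∀ t : T, ed t ∈ (turanGraph n l).edgeSet := by
    rintro ⟨⟨a, b⟩, x, y⟩
    show (turanGraph n l).Adj _ _
    rw [turanGraph_adj]
    simp only
    rw [hmod _ _ a.2, hmod _ _ (b.2.trans a.2)]
    exact (Nat.ne_of_lt b.2).symm
  have hval : ∀ t : T, fe (ed t) = f t.1.1 t.1.2 := by
    rintro ⟨⟨a, b⟩, x, y⟩
    show f ((l * (x : ℕ) + a) % l) ((l * (y : ℕ) + b) % l) = _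
    rw [hmod _ _ a.2, hmod _ _ (b.2.trans a.2)]
  have hinj : Function.Injective ed := by
    rintro ⟨⟨a, b⟩, x, y⟩ ⟨⟨a', b'⟩, x', y'⟩ h
    simp only [ed, Sym2.eq_iff, Fin.mk.injEq] at h
    have hb := b.2
    have hb' := b'.2
    have key : ∀ x a x' a' : ℕ, a < l → a' < l → l * x + a = l * x' + a' → a = a' ∧ x = x' := by
      intro x a x' a' ha ha' h
      have e1 : a = a' := by
        have := congrArg (· % l) h
        simpa [hmod _ _ ha, hmod _ _ ha'] using this
      subst e1
      refine ⟨rfl, ?_⟩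
      have : l * x = l * x' := by omega
      exact Nat.eq_of_mul_eq_mul_left (by omega) this
    rcases h with ⟨h1, h2⟩ | ⟨h1, h2⟩
    · obtain ⟨e1, e2⟩ := key _ _ _ _ a.2 a'.2 h1
      obtain ⟨e3, e4⟩ := key _ _ _ _ (b.2.trans a.2) (b'.2.trans a'.2) h2
      have ea : a = a' := Fin.ext e1
      subst ea
      have eb : b = b' := Fin.ext e3
      have ex : x = x' := Fin.ext e2
      have ey : y = y' := Fin.ext e4
      rw [eb, ex, ey]
    · obtain ⟨e1, e2⟩ := key _ _ _ _ a.2 (b'.2.trans a'.2) h1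
      obtain ⟨e3, e4⟩ := key _ _ _ _ (b.2.trans a.2) a'.2 h2
      omega
  -- comparison of the products
  have hsub : ∏ t : T, #(A (ed t)) ≤ ∏ e : (turanGraph n l).edgeSet, #(A e.1) := by
    let ed' : T → (turanGraph n l).edgeSet := fun t => ⟨ed t, hedge t⟩
    have hinj' : Function.Injective ed' := by
      intro t t' h
      apply hinj
      exact congrArg Subtype.val h
    have h1 : ∏ t : T, #(A (ed t)) =
        ∏ e ∈ (univ : Finset T).image ed', #(A e.1) := by
      rw [Finset.prod_image (fun a _ b _ h => hinj' h)]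
    rw [h1]
    exact Finset.prod_le_prod_of_subset_of_one_le' (Finset.subset_univ _)
      (fun e _ _ => hpos e.1 e.2)
  refine le_trans (le_of_eq ?_) hsub
  have h2 : ∀ t : T, #(A (ed t)) = psize r (l - 1) (f t.1.1 t.1.2) := by
    intro t
    rw [hcard _ (hedge t), hval]
  simp_rw [h2]
  rw [Fintype.prod_prod_type]
  simp only [Finset.prod_const, Finset.card_univ, Fintype.card_prod, Fintype.card_fin]
  rw [Finset.prod_pow, Fintype.prod_sigma, sq]
  congr 1
  simp only [Finset.prod_range]

end MP2ab38c
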