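import Pool.Agent.Lib.MP_2ab38c_co.Core

namespace MP2ab38c

open Finset SimpleGraph

/-- size of the palette `i` of `c ↦ c % m` on `r` colours, `i < m` -/
def psize (r m i : ℕ) : ℕ := (r + (m - 1 - i)) / m

/-- `F` respects the palette scheme: the edge `uv` of `T_l(n)` (the part of `u` is `u % l`) gets a
colour of the palette `f (u % l) (v % l)`. -/
def Compat {r n : ℕ} (l : ℕ) (f : ℕ → ℕ → ℕ) (pal : Fin r → ℕ)
    (F : (turanGraph n l).edgeSet → Fin r) : Prop :=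
  ∀ (u v : Fin n) (h : (turanGraph n l).Adj u v),
    pal (F ⟨s(u, v), h⟩) = f ((u : ℕ) % l) ((v : ℕ) % l)

/-- a symmetric scheme on `l` parts with `l-1` palettes, all used, with the product property -/
structure Scheme (l : ℕ) (f : ℕ → ℕ → ℕ) : Prop where
  symm : ∀ a b, f a b = f b a
  lt : ∀ a b, a < l → b < l → a ≠ b → f a b < l - 1
  surj : ∀ i, i < l - 1 → ∃ a b, a < l ∧ b < l ∧ a ≠ b ∧ f a b = i
  prod : ∀ p : ℕ → ℕ, (∀ i j, i ≤ j → p j ≤ p i) → (∀ i, i < l - 1 → 1 ≤ p i) →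
    (∏ i ∈ range (l - 1), p i) ^ l ≤ (∏ a ∈ range l, ∏ b ∈ range a, p (f a b)) ^ 2

/-- the scheme gives different palettes to adjacent edges -/
def ProperF (l : ℕ) (f : ℕ → ℕ → ℕ) : Prop :=
  ∀ a b c, a < l → b < l → c < l → a ≠ b → a ≠ c → b ≠ c → f a b ≠ f a c

/-- the scheme gives different palettes to disjoint edges -/
def StarF (l : ℕ) (f : ℕ → ℕ → ℕ) : Prop :=
  ∀ a b c d, a < l → b < l → c < l → d < l → a ≠ b → c ≠ d → a ≠ c → a ≠ d → b ≠ c → b ≠ d →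
    f a b ≠ f c d

end MP2ab38c
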