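import Pool.Agent.Lib.MP_2ab38c_co.CDefs

/-!
JOB CFree.  Colourings respecting a suitable scheme are `P`-free.
In a copy of `K_k` in `T_l(n)` the `k` vertices lie in distinct parts (residues mod `l`).  If `P`
has two distinct edges `e, f` in the same class then their images have the same colour, hence the
same palette; impossible for a proper scheme if `e`, `f` share a vertex, and for a star scheme if
they are disjoint.
`ne_bot_cases`: a pattern other than `⊥` has two distinct equivalent edges, either sharing a vertex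
or disjoint.
-/

namespace MP2ab38c

open Finset SimpleGraph

/-- `P` has two distinct edges with a common vertex in the same class -/
def TypeA {k : ℕ} (P : Pattern k) : Prop :=
  ∃ e f : (⊤ : SimpleGraph (Fin k)).edgeSet, e ≠ f ∧ P.r e f ∧ ∃ x : Fin k, x ∈ e.1 ∧ x ∈ f.1

/-- `P` has two disjoint edges in the same class -/
def TypeB {k : ℕ} (P : Pattern k) : Prop :=
  ∃ e f : (⊤ : SimpleGraph (Fin k)).edgeSet, P.r e f ∧ ∀ x : Fin k, ¬ (x ∈ e.1 ∧ x ∈ f.1)

theorem ne_bot_cases {k : ℕ} (P : Pattern k) (hP : P ≠ ⊥) : TypeA P ∨ TypeB P := by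
  have h1 : ∃ e f : (⊤ : SimpleGraph (Fin k)).edgeSet, P.r e f ∧ e ≠ f := by
    by_contra hcon
    apply hP
    apply Setoid.ext
    intro e f
    constructor
    · intro h
      by_contra hne
      exact hcon ⟨e, f, h, hne⟩
    · intro h
      have h2 : e = f := h
      rw [h2]
  obtain ⟨e, f, hef, hne⟩ := h1
  by_cases hx : ∃ x : Fin k, x ∈ e.1 ∧ x ∈ f.1
  · exact Or.inl ⟨e, f, hne, hef, hx⟩
  · exact Or.inr ⟨e, f, hef, fun x h => hx ⟨x, h⟩⟩

private theorem CFree_color {k r n l : ℕ} (f : ℕ → ℕ → ℕ) (pal : Fin r → ℕ)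
    (F : (turanGraph n l).edgeSet → Fin r) (hF : Compat l f pal F)
    (φ : (⊤ : SimpleGraph (Fin k)) ↪g turanGraph n l) (x a : Fin k)
    (h : s(x, a) ∈ (⊤ : SimpleGraph (Fin k)).edgeSet) :
    pal (F (φ.mapEdgeSet ⟨s(x, a), h⟩)) = f ((φ x : ℕ) % l) ((φ a : ℕ) % l) := by
  have h1 : (⊤ : SimpleGraph (Fin k)).Adj x a := h
  have h2 : (turanGraph n l).Adj (φ x) (φ a) := φ.map_rel_iff.mpr h1
  exact hF (φ x) (φ a) h2

private theorem CFree_mod {k n l : ℕ}
    (φ : (⊤ : SimpleGraph (Fin k)) ↪g turanGraph n l) (x a : Fin k) (h : x ≠ a) :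
    (φ x : ℕ) % l ≠ (φ a : ℕ) % l := by
  have h1 : (⊤ : SimpleGraph (Fin k)).Adj x a := h
  have h2 : (turanGraph n l).Adj (φ x) (φ a) := φ.map_rel_iff.mpr h1
  exact h2

theorem compat_freeA {k r n l : ℕ} (P : Pattern k) (hP : TypeA P) (hl : 0 < l)
    (f : ℕ → ℕ → ℕ) (hf : ProperF l f) (pal : Fin r → ℕ)
    (F : (turanGraph n l).edgeSet → Fin r) (hF : Compat l f pal F) :
    ¬ HasCopy (turanGraph n l) F P := by
  rintro ⟨φ, hφ⟩
  obtain ⟨⟨e, he⟩, ⟨e', he'⟩, hne, hr, x, hx, hx'⟩ := hP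
  obtain ⟨a, rfl⟩ := hx
  obtain ⟨b, rfl⟩ := hx'
  have h1 := (hφ _ _).mpr hr
  have h2 : f ((φ x : ℕ) % l) ((φ a : ℕ) % l) = f ((φ x : ℕ) % l) ((φ b : ℕ) % l) := by
    rw [← CFree_color f pal F hF φ x a he, ← CFree_color f pal F hF φ x b he', h1]
  have hxa : x ≠ a := by simpa using he
  have hxb : x ≠ b := by simpa using he'
  have hab : a ≠ b := by
    rintro rfl
    exact hne rfl
  exact hf _ _ _ (Nat.mod_lt _ hl) (Nat.mod_lt _ hl) (Nat.mod_lt _ hl) (CFree_mod φ x a hxa)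
    (CFree_mod φ x b hxb) (CFree_mod φ a b hab) h2

theorem compat_freeB {k r n l : ℕ} (P : Pattern k) (hP : TypeB P) (hl : 0 < l)
    (f : ℕ → ℕ → ℕ) (hf : StarF l f) (pal : Fin r → ℕ)
    (F : (turanGraph n l).edgeSet → Fin r) (hF : Compat l f pal F) :
    ¬ HasCopy (turanGraph n l) F P := by
  rintro ⟨φ, hφ⟩
  obtain ⟨⟨e, he⟩, ⟨e', he'⟩, hr, hdis⟩ := hP
  induction e using Sym2.ind with
  | _ a b =>
    induction e' using Sym2.ind with
    | _ c d =>
      have h1 := (hφ _ _).mpr hr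
      have h2 : f ((φ a : ℕ) % l) ((φ b : ℕ) % l) = f ((φ c : ℕ) % l) ((φ d : ℕ) % l) := by
        rw [← CFree_color f pal F hF φ a b he, ← CFree_color f pal F hF φ c d he', h1]
      have hab : a ≠ b := by simpa using he
      have hcd : c ≠ d := by simpa using he'
      have hac : a ≠ c := by
        rintro rfl
        exact hdis a ⟨Sym2.mem_mk_left _ _, Sym2.mem_mk_left _ _⟩
      have had : a ≠ d := by
        rintro rfl
        exact hdis a ⟨Sym2.mem_mk_left _ _, Sym2.mem_mk_right _ _⟩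
      have hbc : b ≠ c := by
        rintro rfl
        exact hdis b ⟨Sym2.mem_mk_right _ _, Sym2.mem_mk_left _ _⟩
      have hbd : b ≠ d := by
        rintro rfl
        exact hdis b ⟨Sym2.mem_mk_right _ _, Sym2.mem_mk_right _ _⟩
      exact hf _ _ _ _ (Nat.mod_lt _ hl) (Nat.mod_lt _ hl) (Nat.mod_lt _ hl) (Nat.mod_lt _ hl)
        (CFree_mod φ a b hab) (CFree_mod φ c d hcd) (CFree_mod φ a c hac) (CFree_mod φ a d had)
        (CFree_mod φ b c hbc) (CFree_mod φ b d hbd) h2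

end MP2ab38c
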