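import Pool.Agent.Lib.MP_2ab38c_co.Core

/-!
JOB ZNum.  Numbers of edges.
`turan_upper`, `turan_lower`: from `card_edgeFinset_turanGraph` (with `s = n % p`, the number of
edges is `(p-1)/(2p) n^2 - s (p-s)/(2p)`, and `s (p-s) ≤ p^2/4`).
`two_mul_edges`: handshake.  `edges_le`: at most `(number of v with π v not in the range of ρ) * n`
edges meet such a vertex; give all those vertices the label `ρ 0`; the remaining edges form a
subgraph of a complete multipartite graph with at most `k-1` parts, which has at most `tE k n`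
edges (Turan's theorem in Mathlib: `isTuranMaximal_turanGraph`, or `CliqueFree.card_edgeFinset_le`
with `card_edgeFinset_turanGraph`).
-/

namespace MP2ab38c

open Finset SimpleGraph

/-- the exact number of edges of the Turan graph, over the reals -/
private lemma ZNum_exact (n p : ℕ) (hp : 1 ≤ p) :
    (#(turanGraph n p).edgeFinset : ℝ) = ((p : ℝ) - 1) / (2 * p) * (n : ℝ) ^ 2 -
      ((n % p : ℕ) : ℝ) * (p - ((n % p : ℕ) : ℝ)) / (2 * p) := by
  have hp' : (0 : ℝ) < p := by exact_mod_cast hp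
  set s := n % p with hs
  set q := n / p with hq
  have hn : n = s + p * q := (Nat.mod_add_div n p).symm
  have h1 : 2 * ((n ^ 2 - s ^ 2) * (p - 1) / (2 * p)) = 2 * (s * q * (p - 1)) +
      p * (p - 1) * q ^ 2 := by
    obtain ⟨m, hm⟩ : ∃ m, p = m + 1 := ⟨p - 1, by omega⟩
    have h2 : n ^ 2 - s ^ 2 = p * (q * (2 * s + p * q)) := by
      rw [hn]
      have : (s + p * q) ^ 2 = s ^ 2 + p * (q * (2 * s + p * q)) := by ring
      omega
    obtain ⟨w, hw⟩ : 2 ∣ p * (p - 1) := by
      rw [mul_comm]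
      have := Nat.even_mul_succ_self (p - 1)
      rw [Nat.sub_add_cancel hp] at this
      exact even_iff_two_dvd.1 this
    have h3 : (n ^ 2 - s ^ 2) * (p - 1) = (2 * p) * (s * q * (p - 1) + w * q ^ 2) := by
      rw [h2]
      have : p * (q * (2 * s + p * q)) * (p - 1) =
        2 * p * (s * q * (p - 1)) + p * q ^ 2 * (p * (p - 1)) := by ring
      rw [this, hw]
      ring
    rw [h3, Nat.mul_div_cancel_left _ (by omega), hw]
    ring
  have h4 : 2 * s.choose 2 = s * (s - 1) := by
    rw [Nat.choose_two_right]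
    exact Nat.two_mul_div_two_of_even (Nat.even_mul_pred_self s)
  have h5 : 2 * #(turanGraph n p).edgeFinset =
      2 * (s * q * (p - 1)) + p * (p - 1) * q ^ 2 + s * (s - 1) := by
    rw [card_edgeFinset_turanGraph, mul_add, ← hs, h1, h4]
  have h6 : (2 : ℝ) * (#(turanGraph n p).edgeFinset : ℝ) =
      2 * (s * q * ((p : ℝ) - 1)) + p * ((p : ℝ) - 1) * q ^ 2 + s * ((s : ℝ) - 1) := by
    have h7 : (s : ℝ) * ((s - 1 : ℕ) : ℝ) = s * ((s : ℝ) - 1) := by
      rcases Nat.eq_zero_or_pos s with h | h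
      · rw [h]; simp
      · rw [Nat.cast_sub h]; simp
    have h8 : ((2 * #(turanGraph n p).edgeFinset : ℕ) : ℝ) =
      ((2 * (s * q * (p - 1)) + p * (p - 1) * q ^ 2 + s * (s - 1) : ℕ) : ℝ) := by rw [h5]
    rw [Nat.cast_add, Nat.cast_mul s, h7] at h8
    push_cast [Nat.cast_sub hp] at h8
    exact h8
  have hn' : (n : ℝ) = s + p * q := by exact_mod_cast hn
  have h9 : (#(turanGraph n p).edgeFinset : ℝ) =
      (2 * (s * q * ((p : ℝ) - 1)) + p * ((p : ℝ) - 1) * q ^ 2 + s * ((s : ℝ) - 1)) / 2 := by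
    linarith
  rw [h9, hn']
  field_simp
  ring

theorem turan_lower (n p : ℕ) (hp : 1 ≤ p) :
    ((p : ℝ) - 1) / (2 * p) * (n : ℝ) ^ 2 - p / 8 ≤ (#(turanGraph n p).edgeFinset : ℝ) := by
  have hp' : (0 : ℝ) < p := by exact_mod_cast hp
  rw [ZNum_exact n p hp]
  have h1 : ((n % p : ℕ) : ℝ) * (p - ((n % p : ℕ) : ℝ)) / (2 * p) ≤ p / 8 := by
    rw [div_le_iff₀ (by positivity)]
    nlinarith [sq_nonneg ((p : ℝ) - 2 * ((n % p : ℕ) : ℝ))]
  linarith

theorem turan_upper (n p : ℕ) (hp : 1 ≤ p) :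
    (#(turanGraph n p).edgeFinset : ℝ) ≤ ((p : ℝ) - 1) / (2 * p) * (n : ℝ) ^ 2 := by
  have hp' : (0 : ℝ) < p := by exact_mod_cast hp
  rw [ZNum_exact n p hp]
  have h0 : ((n % p : ℕ) : ℝ) ≤ p := by exact_mod_cast (Nat.mod_lt n hp).le
  have h1 : 0 ≤ ((n % p : ℕ) : ℝ) * (p - ((n % p : ℕ) : ℝ)) / (2 * p) := by
    have : 0 ≤ (p : ℝ) - ((n % p : ℕ) : ℝ) := by linarith
    positivity
  linarith

theorem two_mul_edges {V ι : Type} [Fintype V] [DecidableEq V] (π : V → ι) :
    2 * (mp π).edgeSet.ncard = {p : V × V | π p.1 ≠ π p.2}.ncard := by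
  classical
  have h1 : (mp π).edgeSet.ncard = #(mp π).edgeFinset := by
    rw [← SimpleGraph.coe_edgeFinset, Set.ncard_coe_finset]
  have h2 : {p : V × V | π p.1 ≠ π p.2} =
      ((univ.filter fun p : V × V => (mp π).Adj p.1 p.2 : Finset (V × V)) : Set (V × V)) := by
    ext p
    simp [mp_adj]
  rw [h1, h2, Set.ncard_coe_finset, SimpleGraph.two_mul_card_edgeFinset]

private lemma ZNum_turan {k : ℕ} (hk : 2 ≤ k) {n : ℕ} (G : SimpleGraph (Fin n))
    (h : G.CliqueFree k) : G.edgeSet.ncard ≤ tE k n := by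
  classical
  have h1 : G.edgeSet.ncard = #G.edgeFinset := by
    rw [← SimpleGraph.coe_edgeFinset, Set.ncard_coe_finset]
  have h2 := (isTuranMaximal_turanGraph (n := n) (show 0 < k - 1 by omega)).2
    (G' := G) (by rw [Nat.sub_add_cancel (by omega)]; exact h)
  rw [h1]
  unfold tE
  convert h2

theorem edges_le {k : ℕ} (hk : 2 ≤ k) {n : ℕ} {ι : Type} (π : Fin n → ι)
    (ρ : Fin (k - 1) → ι) :
    (mp π).edgeSet.ncard ≤ tE k n + {v : Fin n | ∀ i, π v ≠ ρ i}.ncard * n := by
  classical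
  set c : Fin n → Fin (k - 1) := fun v =>
    if h : ∃ i, π v = ρ i then h.choose else ⟨0, by omega⟩ with hc
  have hcv : ∀ v, (∃ i, π v = ρ i) → ρ (c v) = π v := by
    intro v h
    simp only [hc, dif_pos h]
    exact h.choose_spec.symm
  have hfree : (mp (ρ ∘ c)).CliqueFree k := by
    refine SimpleGraph.Colorable.cliqueFree (n := k - 1) ?_ (by omega)
    refine ⟨SimpleGraph.Coloring.mk c ?_⟩
    intro u v huv h
    exact huv (by simp [h])
  set bad : Finset (Fin n) := univ.filter fun v => ∀ i, π v ≠ ρ i with hbad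
  have hbadcard : {v : Fin n | ∀ i, π v ≠ ρ i}.ncard = bad.card := by
    have : {v : Fin n | ∀ i, π v ≠ ρ i} = (bad : Set (Fin n)) := by
      ext v
      simp [hbad]
    rw [this, Set.ncard_coe_finset]
  rw [hbadcard]
  set inc : Finset (Sym2 (Fin n)) := bad.biUnion fun v => univ.image fun w => s(v, w) with hinc
  have hsub : (mp π).edgeSet ⊆ (mp (ρ ∘ c)).edgeSet ∪ (inc : Set (Sym2 (Fin n))) := by
    intro e he
    induction e with
    | h u v =>
      rw [SimpleGraph.mem_edgeSet] at he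
      by_cases hu : ∃ i, π u = ρ i
      · by_cases hv : ∃ i, π v = ρ i
        · left
          rw [SimpleGraph.mem_edgeSet]
          change (ρ ∘ c) u ≠ (ρ ∘ c) v
          simp only [Function.comp]
          rw [hcv u hu, hcv v hv]
          exact he
        · right
          rw [Finset.mem_coe, hinc, Finset.mem_biUnion]
          push Not at hv
          exact ⟨v, by simp [hbad]; exact hv, Finset.mem_image.2 ⟨u, Finset.mem_univ _,
            Sym2.eq_swap⟩⟩
      · right
        rw [Finset.mem_coe, hinc, Finset.mem_biUnion]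
        push Not at hu
        exact ⟨u, by simp [hbad]; exact hu, Finset.mem_image.2 ⟨v, Finset.mem_univ _, rfl⟩⟩
  have h1 : (mp π).edgeSet.ncard ≤ (mp (ρ ∘ c)).edgeSet.ncard + inc.card := by
    refine (Set.ncard_le_ncard hsub (Set.toFinite _)).trans ?_
    refine (Set.ncard_union_le _ _).trans ?_
    rw [Set.ncard_coe_finset]
  have h2 : inc.card ≤ bad.card * n := by
    refine Finset.card_biUnion_le_card_mul _ _ _ fun v _ => ?_
    exact Finset.card_image_le.trans (by simp)
  have h3 := ZNum_turan hk _ hfree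
  omega

end MP2ab38c
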