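import Pool.Agent.Lib.MP_2ab38c_co.Core

/-!
JOB ZTri.  Trivial bounds.  `cA ≤ r^e(G)`; equality for `T_{k-1}(n)`, which has no `K_k` (a map
`v : Fin k → V` with all `v a`, `v b` adjacent gives a `k`-clique; `turanGraph_cliqueFree`);
a complete multipartite graph with at most `k-1` parts has no `K_k`, so by Turan's theorem
(`isTuranMaximal_turanGraph` or `CliqueFree.card_edgeFinset_le` with `card_edgeFinset_turanGraph`)
it has at most `tE k n` edges.
-/

namespace MP2ab38c

open Finset SimpleGraph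

theorem ztri_card_cols {V : Type} [Finite V] (r : ℕ) (G : SimpleGraph V) :
    Nat.card (G.edgeSet → Fin r) = r ^ G.edgeSet.ncard := by
  have : Finite G.edgeSet := inferInstance
  rw [Nat.card_fun, Nat.card_fin, Nat.card_coe_set_eq]

theorem ztri_subtype_card {α : Type} (p : α → Prop) (h : ∀ a, p a) :
    Nat.card {a // p a} = Nat.card α :=
  Nat.card_congr (Equiv.subtypeUnivEquiv h)

theorem ztri_no_map {V : Type} {k : ℕ} {G : SimpleGraph V} (h : G.CliqueFree k)
    (v : Fin k → V) (hv : ∀ a b, a ≠ b → G.Adj (v a) (v b)) : False := by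
  classical
  have hinj : Function.Injective v := by
    intro a b hab
    by_contra hne
    have := hv a b hne
    rw [hab] at this
    exact G.loopless.irrefl _ this
  apply h (univ.map ⟨v, hinj⟩)
  rw [isNClique_iff]
  constructor
  · intro x hx y hy hxy
    rw [Finset.mem_coe, Finset.mem_map] at hx hy
    obtain ⟨a, _, rfl⟩ := hx
    obtain ⟨b, _, rfl⟩ := hy
    apply hv a b
    rintro rfl
    exact hxy rfl
  · rw [Finset.card_map, Finset.card_univ, Fintype.card_fin]

theorem ztri_paFree {V : Type} {k r : ℕ} {G : SimpleGraph V} (h : G.CliqueFree k)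
    (F : G.edgeSet → Fin r) : PAFree k G F := by
  rintro ⟨v, hv, _⟩
  exact ztri_no_map h v hv

theorem ztri_turan_free {k : ℕ} (hk : 2 ≤ k) (n : ℕ) : (turanGraph n (k - 1)).CliqueFree k := by
  have h := turanGraph_cliqueFree (n := n) (r := k - 1) (by omega)
  have e : k - 1 + 1 = k := by omega
  rw [e] at h
  exact h

theorem ztri_ncard_turan (k n : ℕ) : (turanGraph n (k - 1)).edgeSet.ncard = tE k n := by
  rw [tE, ← SimpleGraph.coe_edgeFinset, Set.ncard_coe_finset]

theorem cA_le_pow {V : Type} [Finite V] (k r : ℕ) (G : SimpleGraph V) :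
    cA k r G ≤ r ^ G.edgeSet.ncard := by
  rw [cA, ← ztri_card_cols r G]
  have : Finite (G.edgeSet → Fin r) := inferInstance
  exact Nat.card_le_card_of_injective Subtype.val Subtype.val_injective

theorem cA_turan {k : ℕ} (hk : 2 ≤ k) (r n : ℕ) :
    cA k r (turanGraph n (k - 1)) = r ^ tE k n := by
  rw [cA, ztri_subtype_card _ (fun F => ztri_paFree (ztri_turan_free hk n) F), ztri_card_cols,
    ztri_ncard_turan]

theorem edges_le_turan {k : ℕ} (hk : 2 ≤ k) {n : ℕ} (G : SimpleGraph (Fin n))
    (h : G.CliqueFree k) : G.edgeSet.ncard ≤ tE k n := by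
  classical
  have hm := isTuranMaximal_turanGraph (n := n) (r := k - 1) (by omega)
  have e : k - 1 + 1 = k := by omega
  have h2 := hm.2 (G' := G) (by rw [e]; exact h)
  rw [tE, ← SimpleGraph.coe_edgeFinset, Set.ncard_coe_finset]
  exact h2

theorem ztri_mp_free {k : ℕ} (hk : 2 ≤ k) {n : ℕ} {ι : Type} (π : Fin n → ι)
    (Q : Finset ι) (hQ : Q.card ≤ k - 1) (hπ : ∀ v, π v ∈ Q) : (mp π).CliqueFree k := by
  classical
  intro s hs
  rw [isNClique_iff] at hs
  have h1 : s.card ≤ Q.card := by
    apply Finset.card_le_card_of_injOn π (fun v _ => hπ v)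
    intro a ha b hb hab
    by_contra hne
    exact hs.1 ha hb hne hab
  omega

theorem cA_le_turan {k : ℕ} (hk : 2 ≤ k) {r n : ℕ} (hr : 1 ≤ r) {ι : Type} (π : Fin n → ι)
    (Q : Finset ι) (hQ : Q.card ≤ k - 1) (hπ : ∀ v, π v ∈ Q) :
    cA k r (mp π) ≤ r ^ tE k n :=
  (cA_le_pow k r (mp π)).trans
    (Nat.pow_le_pow_right hr (edges_le_turan hk (mp π) (ztri_mp_free hk π Q hQ hπ)))

/-- the colourings of the Turan graph: all of them are `P`-free -/
theorem cols_turan {k : ℕ} (hk : 2 ≤ k) (P : Pattern k) (r n : ℕ) :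
    cols r P (turanGraph n (k - 1)) = r ^ tE k n := by
  have hall : ∀ F : (turanGraph n (k - 1)).edgeSet → Fin r, ¬ HasCopy (turanGraph n (k - 1)) F P := by
    rintro F ⟨φ, _⟩
    refine ztri_no_map (ztri_turan_free hk n) (fun a => φ a) ?_
    intro a b hab
    exact φ.map_adj_iff.mpr ((top_adj a b).mpr hab)
  rw [cols, ztri_subtype_card _ hall, ztri_card_cols, ztri_ncard_turan]

end MP2ab38c
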