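import Pool.Agent.Lib.MP_2ab38c_co.CScheme
import Pool.Agent.Lib.MP_2ab38c_co.CFree
import Pool.Agent.Lib.MP_2ab38c_co.CCount
import Pool.Agent.Lib.MP_2ab38c_co.ZTri
import Pool.Agent.Lib.MP_2ab38c_co.ZNum

/-!
JOB CEq.  The equality case `r = (l-1) q`, `r^(l(k-2)) = q^((l-1)(k-1))`.

Proof.  (`palProd r (l-1) = q^(l-1)`; `r ≥ 2`.)  Take the scheme `f` on `l` parts as in CUpper.  For
a balanced map `pal : Fin r → ℕ` (values `< l-1`, all fibres of size `q`) let `Φ(pal)` be the set of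
the colourings `F` of `T_l(n)` compatible with `f, pal` that use all `r` colours.  If `F` is in
`Φ(pal) ∩ Φ(pal')` then `pal = pal'` (each colour `c` is used on some edge `uv`, where
`pal c = f (u%l) (v%l) = pal' c`).  There are `q^e` compatible colourings, `e` = number of edges of
`T_l(n)`; those missing the colour `c` are at most `(1 - 1/q)^a q^e`, `a` the number of edges whose
palette contains `c`, `a → ∞`; so `|Φ(pal)| ≥ q^e/2` for `n` large.  Hence
`cols r P (turanGraph n l) ≥ M q^e/2`, `M` the number of balanced maps.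
`e ≥ (l-1)/(2l) n^2 - l/8` (`turan_lower`) and
`r^(tE k n) ≤ r^((k-2)/(2(k-1)) n^2) = q^((l-1)/(2l) n^2)` by the equality, so it is enough that
`M > 2 q^(l/8)`.  With `Fin r ≃ Fin (l-1) × Fin q` the maps `(i, j) ↦ i + τ j`
(`τ : Fin q → Fin (l-1)`) are balanced, so `M ≥ (l-1)^q ≥ 3^q`.  The equality gives
`q ≥ (l-1)^2`, so `log q = 2 log (sqrt q) ≤ 2 (sqrt q - 1)`, `l ≤ 1 + sqrt q`,
`(l/8) log q ≤ (q-1)/4`.
-/

namespace MP2ab38c

open Finset SimpleGraph

/-- the palette of an edge -/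
def CEq_phi {n : ℕ} (l : ℕ) (f : ℕ → ℕ → ℕ) (hs : ∀ a b, f a b = f b a)
    (e : Sym2 (Fin n)) : ℕ :=
  Sym2.lift ⟨fun u v : Fin n => f ((u : ℕ) % l) ((v : ℕ) % l), fun _ _ => hs _ _⟩ e

lemma CEq_phi_mk {n : ℕ} (l : ℕ) (f : ℕ → ℕ → ℕ) (hs : ∀ a b, f a b = f b a) (u v : Fin n) :
    CEq_phi l f hs s(u, v) = f ((u : ℕ) % l) ((v : ℕ) % l) := rfl

lemma CEq_a0 (r q : ℕ) (hq : 1 ≤ q) : ∃ a0 : ℕ, ∀ a ≥ a0, 2 * r * (q - 1) ^ a ≤ q ^ a := by
  have hq0 : (0 : ℝ) < q := by exact_mod_cast hq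
  have h1 : Filter.Tendsto (fun a : ℕ => (((q : ℝ) - 1) / q) ^ a) Filter.atTop (nhds 0) := by
    apply tendsto_pow_atTop_nhds_zero_of_lt_one
    · apply div_nonneg _ hq0.le
      have : (1 : ℝ) ≤ q := by exact_mod_cast hq
      linarith
    · rw [div_lt_one hq0]; linarith
  have h2 : ∀ᶠ a : ℕ in Filter.atTop, (((q : ℝ) - 1) / q) ^ a < 1 / (2 * r + 1) := by
    apply h1.eventually_lt_const
    positivity
  obtain ⟨a0, ha0⟩ := Filter.eventually_atTop.1 h2
  refine ⟨a0, fun a ha => ?_⟩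
  have h3 := ha0 a ha
  rw [div_pow, div_lt_div_iff₀ (by positivity) (by positivity)] at h3
  have h4 : ((2 * r * (q - 1) ^ a : ℕ) : ℝ) ≤ ((q ^ a : ℕ) : ℝ) := by
    push_cast [Nat.cast_sub hq]
    have h5 : (0 : ℝ) ≤ ((q : ℝ) - 1) ^ a := by
      apply pow_nonneg
      have : (1 : ℝ) ≤ q := by exact_mod_cast hq
      linarith
    nlinarith
  exact_mod_cast h4

/-- most compatible colourings use all colours -/
lemma CEq_count {E : Type} [Fintype E] [DecidableEq E] {r q a0 : ℕ} (φ : E → ℕ)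
    (pal : Fin r → ℕ) (hbal : ∀ e, #{c : Fin r | pal c = φ e} = q)
    (hall : ∀ c : Fin r, a0 ≤ #{e : E | φ e = pal c})
    (ha0 : ∀ a ≥ a0, 2 * r * (q - 1) ^ a ≤ q ^ a) :
    q ^ Fintype.card E ≤
      2 * #{F : E → Fin r | (∀ e, pal (F e) = φ e) ∧ Function.Surjective F} := by
  classical
  set A : Finset (E → Fin r) := Fintype.piFinset (fun e => {c : Fin r | pal c = φ e}) with hA
  set B : Fin r → Finset (E → Fin r) := fun c0 =>
    Fintype.piFinset (fun e => {c : Fin r | pal c = φ e ∧ c ≠ c0}) with hB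
  set Φ : Finset (E → Fin r) :=
    {F : E → Fin r | (∀ e, pal (F e) = φ e) ∧ Function.Surjective F} with hΦ
  have hAc : A.card = q ^ Fintype.card E := by
    rw [hA, Fintype.card_piFinset]
    simp only [hbal]
    rw [Finset.prod_const, Finset.card_univ]
  have hBc : ∀ c0, 2 * r * (B c0).card ≤ q ^ Fintype.card E := by
    intro c0
    have h1 : (B c0).card = ∏ e : E, (if φ e = pal c0 then q - 1 else q) := by
      rw [hB, Fintype.card_piFinset]
      apply Finset.prod_congr rfl
      intro e _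
      by_cases h : φ e = pal c0
      · rw [if_pos h]
        have : ({c : Fin r | pal c = φ e ∧ c ≠ c0} : Finset (Fin r)) =
            ({c : Fin r | pal c = φ e} : Finset (Fin r)).erase c0 := by
          ext c
          simp only [mem_filter, mem_univ, true_and, mem_erase]
          tauto
        rw [this, Finset.card_erase_of_mem (by simp [h]), hbal]
      · rw [if_neg h]
        have : ({c : Fin r | pal c = φ e ∧ c ≠ c0} : Finset (Fin r)) =
            ({c : Fin r | pal c = φ e} : Finset (Fin r)) := by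
          ext c
          simp only [mem_filter, mem_univ, true_and]
          constructor
          · exact fun h => h.1
          · intro hc
            refine ⟨hc, ?_⟩
            rintro rfl
            exact h hc.symm
        rw [this, hbal]
    have h2 : (B c0).card = (q - 1) ^ #{e : E | φ e = pal c0} *
        q ^ #{e : E | ¬ φ e = pal c0} := by
      rw [h1, Finset.prod_ite, Finset.prod_const, Finset.prod_const]
    have h3 : #{e : E | φ e = pal c0} + #{e : E | ¬ φ e = pal c0} = Fintype.card E := by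
      rw [Finset.card_filter_add_card_filter_not, Finset.card_univ]
    rw [h2, ← h3, pow_add]
    calc 2 * r * ((q - 1) ^ #{e : E | φ e = pal c0} * q ^ #{e : E | ¬ φ e = pal c0})
        = (2 * r * (q - 1) ^ #{e : E | φ e = pal c0}) * q ^ #{e : E | ¬ φ e = pal c0} := by ring
      _ ≤ _ := Nat.mul_le_mul_right _ (ha0 _ (hall c0))
  have hsub : A ⊆ Φ ∪ univ.biUnion B := by
    intro F hF
    rw [hA, Fintype.mem_piFinset] at hF
    simp only [mem_filter, mem_univ, true_and] at hF
    rw [mem_union]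
    by_cases h : Function.Surjective F
    · left
      simp only [hΦ, mem_filter, mem_univ, true_and]
      exact ⟨hF, h⟩
    · right
      unfold Function.Surjective at h
      push Not at h
      obtain ⟨c0, hc0⟩ := h
      rw [mem_biUnion]
      refine ⟨c0, mem_univ _, ?_⟩
      rw [hB, Fintype.mem_piFinset]
      intro e
      simp only [mem_filter, mem_univ, true_and]
      exact ⟨hF e, hc0 e⟩
  have h1 : q ^ Fintype.card E ≤ Φ.card + ∑ c0, (B c0).card := by
    rw [← hAc]
    calc A.card ≤ (Φ ∪ univ.biUnion B).card := card_le_card hsub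
      _ ≤ Φ.card + (univ.biUnion B).card := card_union_le _ _
      _ ≤ Φ.card + ∑ c0, (B c0).card := Nat.add_le_add_left card_biUnion_le _
  have h2 : 2 * ∑ c0, (B c0).card ≤ q ^ Fintype.card E := by
    rcases Nat.eq_zero_or_pos r with hr | hr
    · subst hr
      simp
    · have h3 : r * (2 * ∑ c0, (B c0).card) ≤ r * q ^ Fintype.card E := by
        calc r * (2 * ∑ c0, (B c0).card) = ∑ c0, 2 * r * (B c0).card := by
              rw [← Finset.mul_sum]; ring
          _ ≤ ∑ _c0 : Fin r, q ^ Fintype.card E := Finset.sum_le_sum (fun c0 _ => hBc c0)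
          _ = r * q ^ Fintype.card E := by
              rw [Finset.sum_const, Finset.card_univ, Fintype.card_fin, smul_eq_mul]
      exact Nat.le_of_mul_le_mul_left h3 hr
  omega

/-- each palette is used on many edges -/
lemma CEq_edges {l n : ℕ} {f : ℕ → ℕ → ℕ} (hf : Scheme l f) (hl : 2 ≤ l) (a0 : ℕ)
    (hn : l * (a0 + 1) ≤ n) (i : ℕ) (hi : i < l - 1) :
    a0 ≤ #{e : (turanGraph n l).edgeSet | CEq_phi l f hf.symm e.1 = i} := by
  classical
  obtain ⟨a, b, ha, hb, hab, hfab⟩ := hf.surj i hi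
  have hln : l ≤ n := by nlinarith
  have hax : ∀ x : Fin a0, a + l * (x : ℕ) < n := by
    intro x
    have := x.2
    nlinarith
  have hmod : ∀ x : ℕ, (a + l * x) % l = a := by
    intro x
    rw [Nat.add_mul_mod_self_left, Nat.mod_eq_of_lt ha]
  have hadj : ∀ x : Fin a0,
      (s(⟨a + l * (x : ℕ), hax x⟩, ⟨b, by omega⟩) : Sym2 (Fin n)) ∈ (turanGraph n l).edgeSet := by
    intro x
    rw [mem_edgeSet, turanGraph_adj]
    simp only
    rw [hmod, Nat.mod_eq_of_lt hb]
    exact hab
  have hcard : (univ : Finset (Fin a0)).card ≤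
      #{e : (turanGraph n l).edgeSet | CEq_phi l f hf.symm e.1 = i} := by
    apply Finset.card_le_card_of_injOn (fun x => ⟨_, hadj x⟩)
    · intro x _
      simp only [coe_filter, mem_univ, true_and, Set.mem_ofPred_eq]
      rw [CEq_phi_mk]
      simp only
      rw [hmod, Nat.mod_eq_of_lt hb]
      exact hfab
    · intro x _ y _ hxy
      have h1 := Subtype.mk.inj hxy
      rw [Sym2.eq_iff] at h1
      rcases h1 with ⟨h1, _⟩ | ⟨h1, _⟩
      · have h2 := Fin.mk.inj h1
        have h3 : l * (x : ℕ) = l * (y : ℕ) := by omega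
        exact Fin.ext (Nat.eq_of_mul_eq_mul_left (by omega) h3)
      · exfalso
        have h2 := Fin.mk.inj h1
        apply hab
        rw [← hmod x, h2, Nat.mod_eq_of_lt hb]
  simpa using hcard

/-- the palette maps -/
def CEq_pal {m q : ℕ} [NeZero m] (τ : Fin q → Fin m) (c : Fin (m * q)) : ℕ :=
  ((finProdFinEquiv.symm c).1 + τ (finProdFinEquiv.symm c).2 : Fin m).val

lemma CEq_pal_lt {m q : ℕ} [NeZero m] (τ : Fin q → Fin m) (c : Fin (m * q)) :
    CEq_pal τ c < m := Fin.is_lt _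

lemma CEq_pal_inj {m q : ℕ} [NeZero m] (τ τ' : Fin q → Fin m)
    (h : ∀ c, CEq_pal τ c = CEq_pal τ' c) : τ = τ' := by
  funext j
  have h1 := h (finProdFinEquiv (0, j))
  unfold CEq_pal at h1
  rw [Equiv.symm_apply_apply] at h1
  simp only [zero_add] at h1
  exact Fin.ext h1

lemma CEq_pal_bal {m q : ℕ} [NeZero m] (τ : Fin q → Fin m) (i : ℕ) (hi : i < m) :
    #{c : Fin (m * q) | CEq_pal τ c = i} = q := by
  classical
  have h : #{c : Fin (m * q) | CEq_pal τ c = i} = (univ : Finset (Fin q)).card := by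
    symm
    apply Finset.card_bij (fun j _ => finProdFinEquiv ((⟨i, hi⟩ : Fin m) - τ j, j))
    · intro j _
      simp only [mem_filter, mem_univ, true_and]
      unfold CEq_pal
      rw [Equiv.symm_apply_apply]
      simp only [sub_add_cancel]
    · intro j _ j' _ hj
      have := finProdFinEquiv.injective hj
      exact (Prod.mk.inj this).2
    · intro c hc
      simp only [mem_filter, mem_univ, true_and] at hc
      refine ⟨(finProdFinEquiv.symm c).2, mem_univ _, ?_⟩
      unfold CEq_pal at hc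
      have h1 : (finProdFinEquiv.symm c).1 + τ (finProdFinEquiv.symm c).2 = (⟨i, hi⟩ : Fin m) :=
        Fin.ext hc
      rw [← h1, add_sub_cancel_right]
      exact finProdFinEquiv.apply_symm_apply c
  rw [h, Finset.card_univ, Fintype.card_fin]

/-- many palette partitions -/
lemma CEq_many {k l n q a0 : ℕ} (hl : 2 ≤ l) (P : Pattern k) (f : ℕ → ℕ → ℕ)
    (hf : Scheme l f)
    (hfree : ∀ (pal : Fin ((l - 1) * q) → ℕ) (F : (turanGraph n l).edgeSet → Fin ((l - 1) * q)),
      Compat l f pal F → ¬ HasCopy (turanGraph n l) F P)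
    (ha0 : ∀ a ≥ a0, 2 * ((l - 1) * q) * (q - 1) ^ a ≤ q ^ a) (hn : l * (a0 + 1) ≤ n) :
    (l - 1) ^ q * q ^ #(turanGraph n l).edgeFinset ≤
      2 * cols ((l - 1) * q) P (turanGraph n l) := by
  classical
  have : NeZero (l - 1) := ⟨by omega⟩
  set E := (turanGraph n l).edgeSet with hE
  set S : (Fin q → Fin (l - 1)) → Finset (E → Fin ((l - 1) * q)) := fun τ =>
    {F : E → Fin ((l - 1) * q) | (∀ e, CEq_pal τ (F e) = CEq_phi l f hf.symm e.1) ∧
      Function.Surjective F} with hS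
  have hphi : ∀ e : E, CEq_phi l f hf.symm e.1 < l - 1 := by
    rintro ⟨e, he⟩
    induction e using Sym2.ind with
    | _ u v =>
      rw [hE, mem_edgeSet, turanGraph_adj] at he
      exact hf.lt _ _ (Nat.mod_lt _ (by omega)) (Nat.mod_lt _ (by omega)) he
  have hcardE : Fintype.card E = #(turanGraph n l).edgeFinset := by
    rw [edgeFinset_card]
  have hSc : ∀ τ, q ^ #(turanGraph n l).edgeFinset ≤ 2 * (S τ).card := by
    intro τ
    rw [← hcardE]
    exact CEq_count (E := E) (fun e => CEq_phi l f hf.symm e.1) (CEq_pal τ)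
      (fun e => CEq_pal_bal τ _ (hphi e))
      (fun c => CEq_edges hf hl a0 hn _ (CEq_pal_lt τ c)) ha0
  have hdisj : ∀ τ τ', τ ≠ τ' → Disjoint (S τ) (S τ') := by
    intro τ τ' hne
    rw [Finset.disjoint_left]
    intro F hF hF'
    simp only [hS, mem_filter, mem_univ, true_and] at hF hF'
    apply hne
    apply CEq_pal_inj
    intro c
    obtain ⟨e, he⟩ := hF.2 c
    rw [← he, hF.1 e, hF'.1 e]
  have hsub : univ.biUnion S ⊆
      (univ.filter (fun F : E → Fin ((l - 1) * q) => ¬ HasCopy (turanGraph n l) F P)) := by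
    intro F hF
    rw [mem_biUnion] at hF
    obtain ⟨τ, _, hF⟩ := hF
    simp only [hS, mem_filter, mem_univ, true_and] at hF
    rw [mem_filter]
    refine ⟨mem_univ _, hfree (CEq_pal τ) F ?_⟩
    intro u v h
    rw [hF.1]
    rfl
  have hcols : cols ((l - 1) * q) P (turanGraph n l) =
      (univ.filter (fun F : E → Fin ((l - 1) * q) => ¬ HasCopy (turanGraph n l) F P)).card := by
    unfold cols
    rw [Nat.card_eq_fintype_card, Fintype.card_subtype]
  rw [hcols]
  calc (l - 1) ^ q * q ^ #(turanGraph n l).edgeFinset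
      = ∑ _τ : Fin q → Fin (l - 1), q ^ #(turanGraph n l).edgeFinset := by
        rw [Finset.sum_const, Finset.card_univ, Fintype.card_fun, Fintype.card_fin,
          Fintype.card_fin, smul_eq_mul]
    _ ≤ ∑ τ : Fin q → Fin (l - 1), 2 * (S τ).card := Finset.sum_le_sum (fun τ _ => hSc τ)
    _ = 2 * (univ.biUnion S).card := by
        rw [← Finset.mul_sum, Finset.card_biUnion (fun τ _ τ' _ h => hdisj τ τ' h)]
    _ ≤ _ := Nat.mul_le_mul_left _ (card_le_card hsub)

/-- the product of the palette sizes -/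
lemma CEq_palProd (q m : ℕ) : palProd (m * q) m = q ^ m := by
  unfold palProd
  rw [Finset.prod_congr rfl (g := fun _ => q), Finset.prod_const, Finset.card_range]
  intro i hi
  rw [mem_range] at hi
  rw [Nat.mul_add_div (by omega), Nat.div_eq_of_lt hi, add_zero]

/-- the numerical part -/
lemma CEq_num {k l q e t : ℕ} {x : ℝ} (hk : 4 ≤ k) (hkl : k ≤ l) (hq : 1 ≤ q)
    (h : ((l - 1) * q) ^ (l * (k - 2)) = (q ^ (l - 1)) ^ (k - 1))
    (he : ((l : ℝ) - 1) / (2 * l) * x - l / 8 ≤ e)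
    (ht : (t : ℝ) ≤ (((k - 1 : ℕ) : ℝ) - 1) / (2 * ((k - 1 : ℕ) : ℝ)) * x) :
    2 * ((l - 1) * q) ^ t < (l - 1) ^ q * q ^ e := by
  have hl4 : (4 : ℝ) ≤ l := by exact_mod_cast (hk.trans hkl)
  have hk4 : (4 : ℝ) ≤ k := by exact_mod_cast hk
  have hkl' : (k : ℝ) ≤ l := by exact_mod_cast hkl
  have hq1 : (1 : ℝ) ≤ q := by exact_mod_cast hq
  have hm3 : (3 : ℝ) ≤ (l : ℝ) - 1 := by linarith
  have hcm : ((l - 1 : ℕ) : ℝ) = (l : ℝ) - 1 := by
    rw [Nat.cast_sub (by omega)]; simp
  have hck : ((k - 1 : ℕ) : ℝ) = (k : ℝ) - 1 := by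
    rw [Nat.cast_sub (by omega)]; simp
  have hck2 : ((k - 2 : ℕ) : ℝ) = (k : ℝ) - 2 := by
    rw [Nat.cast_sub (by omega)]; simp
  set M := Real.log ((l : ℝ) - 1) with hM
  set Q := Real.log (q : ℝ) with hQ
  have hQ0 : 0 ≤ Q := Real.log_nonneg hq1
  -- the equality in logarithmic form
  have hlog : (l : ℝ) * ((k : ℝ) - 2) * (M + Q) = ((l : ℝ) - 1) * ((k : ℝ) - 1) * Q := by
    have h1 : ((((l : ℝ) - 1) * q) ^ (l * (k - 2)) : ℝ) = ((q : ℝ) ^ (l - 1)) ^ (k - 1) := by
      have := congrArg (Nat.cast : ℕ → ℝ) h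
      push_cast at this
      rw [hcm] at this
      exact this
    have h2 := congrArg Real.log h1
    rw [Real.log_pow, Real.log_pow, Real.log_pow,
      Real.log_mul (by linarith) (by linarith)] at h2
    push_cast at h2
    rw [hck, hcm, hck2] at h2
    rw [hM, hQ]
    linarith
  have hM1 : 1 ≤ M := by
    rw [hM, Real.le_log_iff_exp_le (by linarith)]
    have := Real.exp_one_lt_d9
    linarith
  -- `q ≥ (l-1)^2`
  have h2MQ : 2 * M ≤ Q := by
    have h1 : (l : ℝ) * ((k : ℝ) - 2) * M = ((l : ℝ) - k + 1) * Q := by linarith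
    have h2 : ((l : ℝ) - k + 1) * Q ≤ l * Q := by
      apply mul_le_mul_of_nonneg_right _ hQ0
      linarith
    have h3 : (l : ℝ) * (((k : ℝ) - 2) * M) ≤ l * Q := by
      calc (l : ℝ) * (((k : ℝ) - 2) * M) = (l : ℝ) * ((k : ℝ) - 2) * M := by ring
        _ ≤ l * Q := by rw [h1]; exact h2
    have h4 : ((k : ℝ) - 2) * M ≤ Q := le_of_mul_le_mul_left h3 (by linarith)
    nlinarith
  have hsq : ((l : ℝ) - 1) ≤ Real.sqrt q := by
    apply Real.le_sqrt_of_sq_le
    have h1 : Real.log (((l : ℝ) - 1) ^ 2) ≤ Real.log q := by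
      rw [Real.log_pow]; push_cast; exact h2MQ
    exact (Real.log_le_log_iff (by positivity) (by linarith)).1 h1
  have hs0 : (0 : ℝ) < Real.sqrt q := Real.sqrt_pos.2 (by linarith)
  have hss : Real.sqrt q * Real.sqrt q = q := Real.mul_self_sqrt (by linarith)
  have hQs : Q ≤ 2 * (Real.sqrt q - 1) := by
    have h1 : Q = 2 * Real.log (Real.sqrt q) := by
      rw [Real.log_sqrt (by linarith)]; ring
    rw [h1]
    have := Real.log_le_sub_one_of_pos hs0
    linarith
  have hlQ : (l : ℝ) / 8 * Q ≤ (q - 1) / 4 := by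
    have h1 : (l : ℝ) * Q ≤ (1 + Real.sqrt q) * (2 * (Real.sqrt q - 1)) := by
      apply mul_le_mul _ hQs hQ0 (by linarith)
      linarith
    nlinarith
  have hq9 : (9 : ℝ) ≤ q := by
    nlinarith
  -- comparison of logarithms
  have hpos1 : (0 : ℝ) < ((l : ℝ) - 1) * q := by nlinarith
  have hmain : Real.log (2 * (((l : ℝ) - 1) * q) ^ t) <
      Real.log (((l : ℝ) - 1) ^ q * (q : ℝ) ^ e) := by
    rw [Real.log_mul (by norm_num) (by positivity), Real.log_pow,
      Real.log_mul (by linarith) (by linarith), Real.log_mul (by positivity) (by positivity),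
      Real.log_pow, Real.log_pow, ← hM, ← hQ]
    have h1 : (t : ℝ) * (M + Q) ≤ ((l : ℝ) - 1) / (2 * l) * x * Q := by
      have h2 : (t : ℝ) * (M + Q) ≤ ((k : ℝ) - 2) / (2 * ((k : ℝ) - 1)) * x * (M + Q) := by
        apply mul_le_mul_of_nonneg_right _ (by linarith)
        rw [hck] at ht
        have : ((k : ℝ) - 1 - 1) = (k : ℝ) - 2 := by ring
        rw [this] at ht
        exact ht
      refine h2.trans (le_of_eq ?_)
      have hk1 : (k : ℝ) - 1 ≠ 0 := by linarith
      have hl0 : (l : ℝ) ≠ 0 := by linarith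
      field_simp
      linear_combination x * hlog
    have h3 : (((l : ℝ) - 1) / (2 * l) * x - l / 8) * Q ≤ (e : ℝ) * Q :=
      mul_le_mul_of_nonneg_right he hQ0
    have h4 : (q : ℝ) ≤ (q : ℝ) * M := by nlinarith
    have h5 : Real.log 2 < 1 := by
      have := Real.log_two_lt_d9
      linarith
    nlinarith
  have hfin : (2 * (((l : ℝ) - 1) * q) ^ t) < (((l : ℝ) - 1) ^ q * (q : ℝ) ^ e) := by
    rw [Real.log_lt_log_iff (by positivity) (by positivity)] at hmain
    exact hmain
  have hcast : ((2 * ((l - 1) * q) ^ t : ℕ) : ℝ) < (((l - 1) ^ q * q ^ e : ℕ) : ℝ) := by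
    push_cast
    rw [hcm]
    exact hfin
  exact_mod_cast hcast

theorem upper_eq {k r l : ℕ} (hk : 4 ≤ k) (hr : 2 ≤ r) (P : Pattern k) (hP : P ≠ ⊥)
    (hl : Even l) (hkl : k ≤ l) (hd : (l - 1) ∣ r)
    (h : r ^ (l * (k - 2)) = palProd r (l - 1) ^ (k - 1)) : ∃ n₀ : ℕ, ∀ n ≥ n₀,
      ¬ IsExtremalCol r P (turanGraph n (k - 1)) := by
  obtain ⟨q, rfl⟩ := hd
  have hq : 1 ≤ q := by
    rcases Nat.eq_zero_or_pos q with h0 | h0
    · subst h0; simp at hr
    · exact h0
  have hl2 : 2 ≤ l := by omega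
  obtain ⟨f, hf, hfree⟩ : ∃ f : ℕ → ℕ → ℕ, Scheme l f ∧
      ∀ (n : ℕ) (pal : Fin ((l - 1) * q) → ℕ)
        (F : (turanGraph n l).edgeSet → Fin ((l - 1) * q)),
        Compat l f pal F → ¬ HasCopy (turanGraph n l) F P := by
    rcases ne_bot_cases P hP with hA | hB
    · obtain ⟨f, hf, hpf⟩ := scheme_proper l hl hl2
      exact ⟨f, hf, fun n pal F hF => compat_freeA P hA (by omega) f hpf pal F hF⟩
    · obtain ⟨f, hf, hpf⟩ := scheme_star l hl2
      exact ⟨f, hf, fun n pal F hF => compat_freeB P hB (by omega) f hpf pal F hF⟩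
  obtain ⟨a0, ha0⟩ := CEq_a0 ((l - 1) * q) q hq
  refine ⟨l * (a0 + 1), fun n hn hext => ?_⟩
  have h1 := hext (turanGraph n l)
  have h2 := CEq_many hl2 P f hf (hfree n) ha0 hn
  rw [cols_turan (by omega) P] at h1
  rw [CEq_palProd] at h
  have h3 := CEq_num (x := (n : ℝ) ^ 2) hk hkl hq h (turan_lower n l (by omega))
    (turan_upper n (k - 1) (by omega))
  have h4 : tE k n = #(turanGraph n (k - 1)).edgeFinset := rfl
  rw [← h4] at h3
  omega

end MP2ab38c
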