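import Pool.Agent.Lib.MP_2ab38c_co.CDefs

/-!
JOB CScheme.  The two schemes.
`scheme_proper` (l even): the round robin 1-factorisation of `K_l`: for `a ≠ b < l-1`,
`f a b = (a + b) % (l-1)`, and `f a (l-1) = f (l-1) a = (2a) % (l-1)` (`l-1` odd); extend
symmetrically, anything on the diagonal (e.g. define via `min`, `max`).  For every `a < l` the map
`b ↦ f a b` is a bijection from the other parts to the `l-1` palettes, so
`(∏_{b<a} p (f a b))^2 = ∏_a ∏_{b ≠ a} p (f a b) = (∏_i p i)^l` (equality, for every `p`).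
`scheme_star`: `f a b = min a b`.  For `a ≠ b < l` it is `< l-1`; disjoint pairs have different
minima.  `∏_{a<l} ∏_{b<a} p b = ∏_{i < l-1} (p i)^(l-1-i)`, and for antitone `p ≥ 1`
`∏ (p i)^(2(l-1-i)) ≥ ∏ (p i)^l`: pair `i` with `l-2-i` (exponents `2(l-1-i) - l` and its negative),
or induction, or Chebyshev.
-/

namespace MP2ab38c

open Finset SimpleGraph

private lemma CScheme_sq (g : ℕ → ℕ → ℕ) (hs : ∀ a b, g a b = g b a) (l : ℕ) :
    (∏ a ∈ range l, ∏ b ∈ range a, g a b) ^ 2 =
      ∏ a ∈ range l, ∏ b ∈ (range l).erase a, g a b := by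
  induction l with
  | zero => simp
  | succ l ih =>
    rw [prod_range_succ, mul_pow, ih, prod_range_succ]
    have h1 : ∀ a ∈ range l, ∏ b ∈ (range (l + 1)).erase a, g a b =
        g a l * ∏ b ∈ (range l).erase a, g a b := by
      intro a ha
      have h2 : (range (l + 1)).erase a = insert l ((range l).erase a) := by
        ext b
        simp only [mem_erase, mem_range, mem_insert] at ha ⊢
        omega
      rw [h2, prod_insert (by simp)]
    rw [prod_congr rfl h1, prod_mul_distrib]
    have h3 : (range (l + 1)).erase l = range l := by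
      ext b
      simp only [mem_erase, mem_range]
      omega
    rw [h3]
    have h4 : ∏ a ∈ range l, g a l = ∏ b ∈ range l, g l b :=
      prod_congr rfl (fun a _ => hs a l)
    rw [h4]
    ring

/-- the round robin function -/
private def CScheme_f (m a b : ℕ) : ℕ :=
  if a = b then 0 else if a = m then (2 * b) % m else if b = m then (2 * a) % m else (a + b) % m

private lemma CScheme_symm (m a b : ℕ) : CScheme_f m a b = CScheme_f m b a := by
  unfold CScheme_f
  by_cases h1 : a = b
  · subst h1; rfl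
  · have h2 : ¬ b = a := fun h => h1 h.symm
    rw [if_neg h1, if_neg h2]
    by_cases h3 : a = m
    · have h4 : ¬ b = m := by omega
      rw [if_pos h3, if_neg h4, if_pos h3]
    · rw [if_neg h3]
      by_cases h4 : b = m
      · rw [if_pos h4, if_pos h4]
      · rw [if_neg h4, if_neg h4, if_neg h3, add_comm]

private lemma CScheme_lt (m : ℕ) (hm : 0 < m) (a b : ℕ) : CScheme_f m a b < m := by
  unfold CScheme_f
  split_ifs
  · exact hm
  · exact Nat.mod_lt _ hm
  · exact Nat.mod_lt _ hm
  · exact Nat.mod_lt _ hm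

private lemma CScheme_two (m : ℕ) (hm : ¬ 2 ∣ m) (b c : ℕ) (hb : b < m) (hc : c < m)
    (h : (2 * b) % m = (2 * c) % m) : b = c := by
  have h1 : 2 * b ≡ 2 * c [MOD m] := h
  have hg : m.gcd 2 = 1 := by
    have : Nat.Coprime 2 m := (Nat.Prime.coprime_iff_not_dvd Nat.prime_two).2 hm
    exact this.symm
  exact (Nat.ModEq.cancel_left_of_coprime hg h1).eq_of_lt_of_lt hb hc

private lemma CScheme_add (m : ℕ) (a b c : ℕ) (hb : b < m) (hc : c < m)
    (h : (a + b) % m = (a + c) % m) : b = c := by
  have h1 : a + b ≡ a + c [MOD m] := h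
  exact (Nat.ModEq.add_left_cancel' a h1).eq_of_lt_of_lt hb hc

private lemma CScheme_proper (m : ℕ) (hm : ¬ 2 ∣ m) (a b c : ℕ) (ha : a < m + 1) (hb : b < m + 1)
    (hc : c < m + 1) (hab : a ≠ b) (hac : a ≠ c) (hbc : b ≠ c) :
    CScheme_f m a b ≠ CScheme_f m a c := by
  unfold CScheme_f
  rw [if_neg hab, if_neg hac]
  intro h
  by_cases h1 : a = m
  · rw [if_pos h1, if_pos h1] at h
    exact hbc (CScheme_two m hm b c (by omega) (by omega) h)
  · rw [if_neg h1, if_neg h1] at h
    by_cases h2 : b = m
    · have h3 : ¬ c = m := by omega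
      rw [if_pos h2, if_neg h3, two_mul] at h
      exact hac (CScheme_add m a a c (by omega) (by omega) h)
    · rw [if_neg h2] at h
      by_cases h3 : c = m
      · rw [if_pos h3, two_mul] at h
        exact hab (CScheme_add m a b a (by omega) (by omega) h).symm
      · rw [if_neg h3] at h
        exact hbc (CScheme_add m a b c (by omega) (by omega) h)

theorem scheme_proper (l : ℕ) (hl : Even l) (h2 : 2 ≤ l) :
    ∃ f : ℕ → ℕ → ℕ, Scheme l f ∧ ProperF l f := by
  obtain ⟨m, rfl⟩ : ∃ m, l = m + 1 := ⟨l - 1, by omega⟩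
  have hm0 : 0 < m := by omega
  have hm : ¬ 2 ∣ m := by
    rw [Nat.even_iff] at hl
    omega
  have hprop : ProperF (m + 1) (CScheme_f m) := by
    intro a b c ha hb hc hab hac hbc
    exact CScheme_proper m hm a b c ha hb hc hab hac hbc
  refine ⟨CScheme_f m, ⟨CScheme_symm m, ?_, ?_, ?_⟩, hprop⟩
  · intro a b _ _ _
    exact CScheme_lt m hm0 a b
  · intro i hi
    simp only [Nat.add_sub_cancel] at hi
    refine ⟨m, (i * ((m + 1) / 2)) % m, by omega, lt_trans (Nat.mod_lt _ hm0) (by omega),
      (Nat.mod_lt _ hm0).ne', ?_⟩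
    unfold CScheme_f
    rw [if_neg (Nat.mod_lt _ hm0).ne', if_pos rfl, Nat.mul_mod, Nat.mod_mod, ← Nat.mul_mod]
    have h3 : 2 * (i * ((m + 1) / 2)) = i + m * i := by
      have h4 : 2 * ((m + 1) / 2) = m + 1 := by omega
      calc 2 * (i * ((m + 1) / 2)) = i * (2 * ((m + 1) / 2)) := by ring
        _ = i + m * i := by rw [h4]; ring
    rw [h3, Nat.add_mul_mod_self_left, Nat.mod_eq_of_lt hi]
  · intro p _ _
    have h1 := CScheme_sq (fun a b => p (CScheme_f m a b))
      (fun a b => by rw [CScheme_symm m a b]) (m + 1)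
    rw [h1]
    have h3 : ∀ a ∈ range (m + 1), ∏ b ∈ (range (m + 1)).erase a, p (CScheme_f m a b) =
        ∏ i ∈ range (m + 1 - 1), p i := by
      intro a ha
      have hinj : Set.InjOn (CScheme_f m a) ((range (m + 1)).erase a : Finset ℕ) := by
        intro b hb c hc hbc
        by_contra hne
        simp only [coe_erase, coe_range, Set.mem_sdiff, Set.mem_Iio, Set.mem_singleton_iff] at hb hc
        exact hprop a b c (mem_range.1 ha) hb.1 hc.1 (fun h => hb.2 h.symm)
          (fun h => hc.2 h.symm) hne hbc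
      have himg : ((range (m + 1)).erase a).image (CScheme_f m a) = range (m + 1 - 1) := by
        apply Finset.eq_of_subset_of_card_le
        · intro i hi
          rw [mem_image] at hi
          obtain ⟨b, _, rfl⟩ := hi
          rw [mem_range, Nat.add_sub_cancel]
          exact CScheme_lt m hm0 a b
        · rw [card_image_of_injOn hinj, card_erase_of_mem ha, card_range, card_range]
      rw [← himg, prod_image hinj]
    rw [prod_congr rfl h3, prod_const, card_range]

private lemma CScheme_star (p : ℕ → ℕ) (hp : ∀ i j, i ≤ j → p j ≤ p i) (m : ℕ) :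
    (∏ i ∈ range m, p i) ^ (m + 1) ≤ (∏ a ∈ range (m + 1), ∏ b ∈ range a, p b) ^ 2 := by
  induction m with
  | zero => simp
  | succ m ih =>
    rw [prod_range_succ (n := m + 1), mul_pow]
    have h1 : (∏ i ∈ range (m + 1), p i) ^ m ≤ (∏ i ∈ range m, p i) ^ (m + 1) := by
      rw [prod_range_succ, mul_pow, pow_succ]
      apply Nat.mul_le_mul_left
      calc p m ^ m = ∏ i ∈ range m, p m := by simp
        _ ≤ ∏ i ∈ range m, p i := by
            apply prod_le_prod'
            intro i hi
            exact hp i m (mem_range.1 hi).le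
    calc (∏ i ∈ range (m + 1), p i) ^ (m + 1 + 1)
        = (∏ i ∈ range (m + 1), p i) ^ m * (∏ i ∈ range (m + 1), p i) ^ 2 := by
          rw [← pow_add]
      _ ≤ _ := Nat.mul_le_mul_right _ (le_trans h1 ih)

theorem scheme_star (l : ℕ) (h2 : 2 ≤ l) : ∃ f : ℕ → ℕ → ℕ, Scheme l f ∧ StarF l f := by
  refine ⟨fun a b => min a b, ⟨fun a b => min_comm a b, ?_, ?_, ?_⟩, ?_⟩
  · intro a b ha hb hab
    omega
  · intro i hi
    exact ⟨i, i + 1, by omega, by omega, by omega, by simp⟩
  · intro p hp _
    obtain ⟨m, rfl⟩ : ∃ m, l = m + 1 := ⟨l - 1, by omega⟩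
    have h1 := CScheme_star p hp m
    have h3 : ∏ a ∈ range (m + 1), ∏ b ∈ range a, p (min a b) =
        ∏ a ∈ range (m + 1), ∏ b ∈ range a, p b := by
      apply prod_congr rfl
      intro a _
      apply prod_congr rfl
      intro b hb
      rw [min_eq_right (mem_range.1 hb).le]
    simp only [Nat.add_sub_cancel]
    rw [h3]
    exact h1
  · intro a b c d _ _ _ _ hab hcd hac had hbc hbd
    simp only
    omega

end MP2ab38c
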