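import Pool.Agent.Lib.MP_2ab38c_co.CScheme
import Pool.Agent.Lib.MP_2ab38c_co.CFree
import Pool.Agent.Lib.MP_2ab38c_co.CCount
import Pool.Agent.Lib.MP_2ab38c_co.ZTri
import Pool.Agent.Lib.MP_2ab38c_co.ZNum

/-!
JOB CUpper.  Strict palette inequality: the Turan graph is eventually not extremal.

Proof.  `P ≠ ⊥` is of type A or B; take the scheme `f` on `l` parts.  For every `n`, with
`Π = ∏_{a<l} ∏_{b<a} psize`, `q0 = n/l`: `cols r P (turanGraph n l) ≥ Π^(q0^2)` and
`Π^2 ≥ (palProd r (l-1))^l` (`psize r (l-1)` is antitone in `i`, and `≥ 1` if `l - 1 ≤ r`; if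
`r < l - 1` then `palProd r (l-1) = 0` (the factor `i = 0` is `r/(l-1) = 0`) and the hypothesis
fails).  `cols r P (turanGraph n (k-1)) = r^(tE k n)`, `2 tE k n ≤ (k-2)/(k-1) n^2`.
With `a = log (palProd r (l-1))`, the hypothesis says `(k-1) a > l (k-2) log r`, so
`l q0^2 a > (k-2)/(k-1) n^2 log r` for all large `n` (`q0 ≥ n/l - 1`), i.e.
`Π^(q0^2) > r^(tE k n)`: `turanGraph n (k-1)` is not extremal.
-/

namespace MP2ab38c

open Finset SimpleGraph

/-- the lower bound for the number of `P`-free colourings of the Turan graph with `l` parts -/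
private lemma CUpper_lower {k r l : ℕ} (P : Pattern k) (hP : P ≠ ⊥) (hl : Even l)
    (hl2 : 2 ≤ l) (hlr : l - 1 ≤ r) : ∃ M : ℕ, palProd r (l - 1) ^ l ≤ M ^ 2 ∧
      ∀ n : ℕ, M ^ ((n / l) ^ 2) ≤ cols r P (turanGraph n l) := by
  obtain ⟨f, hf, hfree⟩ : ∃ f : ℕ → ℕ → ℕ, Scheme l f ∧
      ∀ (n : ℕ) (F : (turanGraph n l).edgeSet → Fin r),
        Compat l f (fun c => (c : ℕ) % (l - 1)) F → ¬ HasCopy (turanGraph n l) F P := by
    rcases ne_bot_cases P hP with hA | hB
    · obtain ⟨f, hf, hf'⟩ := scheme_proper l hl hl2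
      exact ⟨f, hf, fun n F hF => compat_freeA P hA (by omega) f hf' _ F hF⟩
    · obtain ⟨f, hf, hf'⟩ := scheme_star l hl2
      exact ⟨f, hf, fun n F hF => compat_freeB P hB (by omega) f hf' _ F hF⟩
  have hm : 0 < l - 1 := by omega
  refine ⟨∏ a ∈ range l, ∏ b ∈ range a, psize r (l - 1) (f a b), ?_, ?_⟩
  · have h1 := hf.prod (psize r (l - 1)) ?_ ?_
    · rw [prod_psize r (l - 1) hm] at h1
      exact h1
    · intro i j hij
      unfold psize
      exact Nat.div_le_div_right (by omega)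
    · intro i hi
      unfold psize
      exact (Nat.one_le_div_iff hm).2 (by omega)
  · intro n
    refine (compat_count hl2 hlr f hf).trans ?_
    unfold cols
    rw [← Set.coe_setOf, Nat.card_coe_set_eq]
    refine Set.ncard_le_ncard ?_ (Set.toFinite _)
    intro F hF
    exact hfree n F hF

theorem upper_strict {k r l : ℕ} (hk : 3 ≤ k) (P : Pattern k) (hP : P ≠ ⊥) (hl : Even l)
    (hkl : k ≤ l) (h : r ^ (l * (k - 2)) < palProd r (l - 1) ^ (k - 1)) : ∃ n₀ : ℕ, ∀ n ≥ n₀,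
      ¬ IsExtremalCol r P (turanGraph n (k - 1)) := by
  have hl2 : 2 ≤ l := by omega
  have hm : 0 < l - 1 := by omega
  have hlr : l - 1 ≤ r := by
    by_contra hlt
    push Not at hlt
    have h0 : palProd r (l - 1) = 0 := by
      unfold palProd
      refine Finset.prod_eq_zero (Finset.mem_range.2 hm) ?_
      rw [add_zero]
      exact Nat.div_eq_of_lt hlt
    rw [h0, zero_pow (by omega)] at h
    omega
  obtain ⟨M, hM, hcols⟩ := CUpper_lower P hP hl hl2 hlr
  have hr0 : 0 < r := by omega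
  have hr' : (1 : ℝ) ≤ r := by exact_mod_cast hr0
  set p0 := palProd r (l - 1) with hp0
  have hp0pos : 0 < p0 := by
    rw [hp0]
    unfold palProd
    refine Finset.prod_pos fun i _ => ?_
    exact Nat.div_pos (by omega) hm
  have hM0 : 0 < M := by
    rcases Nat.eq_zero_or_pos M with h0 | h0
    · rw [h0] at hM
      have : 0 < p0 ^ l := pow_pos hp0pos _
      simp at hM
      omega
    · exact h0
  set a := Real.log (p0 : ℝ) with ha
  set R := Real.log (r : ℝ) with hR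
  have hp0' : (1 : ℝ) ≤ p0 := by exact_mod_cast hp0pos
  have ha0 : 0 ≤ a := Real.log_nonneg hp0'
  have hR0 : 0 ≤ R := Real.log_nonneg hr'
  have hk' : (3 : ℝ) ≤ k := by exact_mod_cast hk
  have hl' : (2 : ℝ) ≤ l := by exact_mod_cast hl2
  -- logarithm of the hypothesis
  have h1 : (l : ℝ) * ((k : ℝ) - 2) * R < ((k : ℝ) - 1) * a := by
    have h2 : ((r : ℝ)) ^ (l * (k - 2)) < (p0 : ℝ) ^ (k - 1) := by exact_mod_cast h
    have h3 := Real.log_lt_log (by positivity) h2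
    rw [Real.log_pow, Real.log_pow] at h3
    push_cast [Nat.cast_sub (show 2 ≤ k by omega), Nat.cast_sub (show 1 ≤ k by omega)] at h3
    exact h3
  -- logarithm of the bound for `M`
  have h2 : (l : ℝ) * a ≤ 2 * Real.log (M : ℝ) := by
    have h3 : ((p0 : ℝ)) ^ l ≤ (M : ℝ) ^ 2 := by exact_mod_cast hM
    have h4 := Real.log_le_log (by positivity) h3
    rw [Real.log_pow, Real.log_pow] at h4
    push_cast at h4
    exact h4
  have hM1 : (1 : ℝ) ≤ M := by exact_mod_cast hM0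
  have hlogM : 0 ≤ Real.log (M : ℝ) := Real.log_nonneg hM1
  -- the gap
  set D := a / l - ((k : ℝ) - 2) / ((k : ℝ) - 1) * R with hD
  have hk1 : 0 < (k : ℝ) - 1 := by linarith
  have hl0 : 0 < (l : ℝ) := by linarith
  have hDpos : 0 < D := by
    have h3 : D * (l * ((k : ℝ) - 1)) = ((k : ℝ) - 1) * a - (l : ℝ) * ((k : ℝ) - 2) * R := by
      rw [hD]
      field_simp
    have h4 : 0 < D * (l * ((k : ℝ) - 1)) := by rw [h3]; linarith
    exact pos_of_mul_pos_left h4 (by positivity)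
  refine ⟨⌈2 * a / D⌉₊ + l + 1, fun n hn hext => ?_⟩
  have hn1 : 2 * a / D < n := by
    refine lt_of_le_of_lt (Nat.le_ceil _) ?_
    exact_mod_cast (show ⌈2 * a / D⌉₊ < n by omega)
  have hnl : (l : ℝ) ≤ n := by exact_mod_cast (show l ≤ n by omega)
  have hn0 : 0 < (n : ℝ) := by linarith
  rw [div_lt_iff₀ hDpos] at hn1
  have h3 : M ^ ((n / l) ^ 2) ≤ r ^ tE k n := by
    rw [← cols_turan (by omega : 2 ≤ k) P r n]
    exact (hcols n).trans (hext _)
  have h4 : (((n / l : ℕ) : ℝ)) ^ 2 * Real.log (M : ℝ) ≤ (tE k n : ℝ) * R := by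
    have h5 : ((M : ℝ)) ^ ((n / l) ^ 2) ≤ (r : ℝ) ^ tE k n := by exact_mod_cast h3
    have h6 := Real.log_le_log (by positivity) h5
    rw [Real.log_pow, Real.log_pow] at h6
    push_cast at h6
    exact h6
  have h5 : (tE k n : ℝ) ≤ ((k : ℝ) - 2) / (2 * ((k : ℝ) - 1)) * (n : ℝ) ^ 2 := by
    have h6 := turan_upper n (k - 1) (by omega)
    push_cast [Nat.cast_sub (show 1 ≤ k by omega)] at h6
    unfold tE
    have h7 : (k : ℝ) - 1 - 1 = (k : ℝ) - 2 := by ring
    rw [h7] at h6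
    exact h6
  have h6 : (n : ℝ) / l - 1 ≤ ((n / l : ℕ) : ℝ) := by
    have h7 : (n : ℝ) < (((n / l : ℕ) : ℝ) + 1) * l := by
      have h8 : n < (n / l + 1) * l := by
        rw [add_mul, one_mul]
        exact Nat.lt_div_mul_add (by omega)
      exact_mod_cast h8
    have h8 : (n : ℝ) / l < ((n / l : ℕ) : ℝ) + 1 := by
      rw [div_lt_iff₀ hl0]
      exact h7
    linarith
  have h7 : 0 ≤ (n : ℝ) / l - 1 := by
    have : 1 ≤ (n : ℝ) / l := by
      rw [le_div_iff₀ hl0]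
      linarith
    linarith
  have h8 : ((n : ℝ) / l - 1) ^ 2 * (l * a) ≤ ((k : ℝ) - 2) / ((k : ℝ) - 1) * (n : ℝ) ^ 2 * R := by
    calc ((n : ℝ) / l - 1) ^ 2 * (l * a) ≤ (((n / l : ℕ) : ℝ)) ^ 2 * (2 * Real.log (M : ℝ)) := by
          gcongr
      _ = 2 * ((((n / l : ℕ) : ℝ)) ^ 2 * Real.log (M : ℝ)) := by ring
      _ ≤ 2 * ((tE k n : ℝ) * R) := by linarith
      _ ≤ 2 * ((((k : ℝ) - 2) / (2 * ((k : ℝ) - 1)) * (n : ℝ) ^ 2) * R) := by gcongr
      _ = _ := by
          field_simp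
  have h9 : ((n : ℝ) / l - 1) ^ 2 * (l * a) =
      (n : ℝ) ^ 2 * (a / l) - 2 * n * a + l * a := by
    field_simp
    ring
  have h10 : (n : ℝ) * (n * D) ≤ n * (2 * a) := by
    have h11 : (n : ℝ) * (n * D) = (n : ℝ) ^ 2 * (a / l) -
        ((k : ℝ) - 2) / ((k : ℝ) - 1) * (n : ℝ) ^ 2 * R := by
      rw [hD]
      ring
    have h12 : 0 ≤ (l : ℝ) * a := by positivity
    rw [h11]
    linarith
  have h11 : (n : ℝ) * D ≤ 2 * a := le_of_mul_le_mul_left h10 hn0
  linarith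

end MP2ab38c
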