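import Pool.Agent.Lib.MP_2ab38c_co.Defs

/-!
# MP_2ab38c_co : internal definitions shared by all modules
-/

namespace MP2ab38c

open Finset

/-! ## Colourings of general graphs -/

/-- A colouring of the edges of `G`, extended by `none` to all pairs. -/
noncomputable def ext {V : Type} {r : ℕ} {G : SimpleGraph V} (F : G.edgeSet → Fin r)
    (e : Sym2 V) : Option (Fin r) :=
  open Classical in if h : e ∈ G.edgeSet then some (F ⟨e, h⟩) else none

/-- Exactly one coincidence among the edges inside `K`, and it is between two adjacent edges. -/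
def OneAdj {I α : Type} (K : Finset I) (c : Sym2 I → α) : Prop :=
  ∃ x ∈ K, ∃ y ∈ K, ∃ z ∈ K, x ≠ y ∧ x ≠ z ∧ y ≠ z ∧ c s(x, y) = c s(x, z) ∧
    ∀ e f : Sym2 I, (∀ a ∈ e, a ∈ K) → (∀ a ∈ f, a ∈ K) → ¬ e.IsDiag → ¬ f.IsDiag →
      c e = c f → e = f ∨ (e = s(x, y) ∧ f = s(x, z)) ∨ (e = s(x, z) ∧ f = s(x, y))

/-- The colouring `F` has no cherry-coloured `K_k`. -/
def PAFree {V : Type} (k : ℕ) {r : ℕ} (G : SimpleGraph V) (F : G.edgeSet → Fin r) : Prop :=
  ¬ ∃ v : Fin k → V, (∀ a b, a ≠ b → G.Adj (v a) (v b)) ∧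
    OneAdj (univ : Finset (Fin k)) (fun e => ext F (e.map v))

/-- number of cherry-free colourings -/
noncomputable def cA {V : Type} (k r : ℕ) (G : SimpleGraph V) : ℕ :=
  Nat.card {F : G.edgeSet → Fin r // PAFree k G F}

/-- the maximum of `cA` over all graphs on `n` vertices -/
noncomputable def cmax (k r n : ℕ) : ℕ :=
  sSup (Set.range fun G : SimpleGraph (Fin n) => cA k r G)

/-- the complete multipartite graph with parts the fibres of `π` -/
def mp {V ι : Type} (π : V → ι) : SimpleGraph V where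
  Adj u v := π u ≠ π v
  symm := ⟨fun _ _ h => Ne.symm h⟩
  loopless := ⟨fun _ h => h rfl⟩

@[simp] lemma mp_adj {V ι : Type} (π : V → ι) (u v : V) : (mp π).Adj u v ↔ π u ≠ π v := Iff.rfl

/-- number of edges of the Turan graph `T_{k-1}(n)` -/
noncomputable def tE (k n : ℕ) : ℕ := #(SimpleGraph.turanGraph n (k - 1)).edgeFinset

/-! ## List structures -/

/-- A bad tuple: `k` vertices in distinct parts whose lists allow a cherry colouring. -/
def BadTuple {k r : ℕ} {I ι : Type} (π : I → ι) (L : Sym2 I → Finset (Fin r))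
    (v : Fin k → I) : Prop :=
  (∀ a b, a ≠ b → π (v a) ≠ π (v b)) ∧ ∃ c : Sym2 (Fin k) → Fin r,
    (∀ a b, a ≠ b → c s(a, b) ∈ L s(v a, v b)) ∧ OneAdj (univ : Finset (Fin k)) c

/-- An exact cherry-free list structure: a partition into parts, a nonempty list of colours for
each pair in different parts, and no bad tuple. -/
structure LS (k r : ℕ) (I ι : Type) where
  part : I → ι
  L : Sym2 I → Finset (Fin r)
  ne : ∀ i j, part i ≠ part j → (L s(i, j)).Nonempty
  free : ∀ v : Fin k → I, ¬ BadTuple part L v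

/-- log of the list size (0 inside a part) -/
noncomputable def ellF {r : ℕ} {I ι : Type} [DecidableEq ι] (π : I → ι)
    (L : Sym2 I → Finset (Fin r)) (i j : I) : ℝ :=
  if π i = π j then 0 else Real.log ((L s(i, j)).card : ℝ)

namespace LS

variable {k r : ℕ} {I ι : Type}

noncomputable def ell [DecidableEq ι] (S : LS k r I ι) (i j : I) : ℝ := ellF S.part S.L i j

/-- weighted degree -/
noncomputable def D [Fintype I] [DecidableEq ι] (S : LS k r I ι) (w : I → ℝ) (i : I) : ℝ :=
  ∑ j, w j * S.ell i j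

/-- weight of a part -/
noncomputable def W [Fintype I] [DecidableEq ι] (S : LS k r I ι) (w : I → ℝ) (X : ι) : ℝ :=
  ∑ i, if S.part i = X then w i else 0

/-- a big pair: different parts and at least `C(k,2)-1` colours -/
def big (S : LS k r I ι) (i j : I) : Prop :=
  S.part i ≠ S.part j ∧ k.choose 2 - 1 ≤ (S.L s(i, j)).card

/-- weight of the big neighbourhood -/
noncomputable def xdeg [Fintype I] (S : LS k r I ι) (w : I → ℝ) (i : I) : ℝ :=
  open Classical in ∑ j, if S.big i j then w j else 0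

/-- weight of the big neighbours `i` of `j` whose list contains `c` -/
noncomputable def nw [Fintype I] (S : LS k r I ι) (w : I → ℝ) (c : Fin r) (j : I) : ℝ :=
  open Classical in ∑ i, if S.big i j ∧ c ∈ S.L s(i, j) then w i else 0

/-- the Turan alternative: at most `k-1` parts carry all but `ζ` of the weight -/
def Conc [Fintype I] [DecidableEq ι] (S : LS k r I ι) (w : I → ℝ) (ζ : ℝ) : Prop :=
  ∃ Q : Finset ι, Q.card ≤ k - 1 ∧ 1 - ζ ≤ ∑ i, if S.part i ∈ Q then w i else 0

/-- colour neighbourhoods lie in one part or have weight at most `θ` -/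
def OnePart [Fintype I] (S : LS k r I ι) (w : I → ℝ) (θ : ℝ) : Prop :=
  ∀ (c : Fin r) (j : I), (∀ i i', S.big i j → c ∈ S.L s(i, j) → S.big i' j →
    c ∈ S.L s(i', j) → S.part i = S.part i') ∨ S.nw w c j ≤ θ

/-- pull back along any map -/
def comap {J : Type} (S : LS k r I ι) (f : J → I) : LS k r J ι where
  part := S.part ∘ f
  L := fun e => S.L (e.map f)
  ne := fun i j h => S.ne _ _ h
  free := fun v hv => S.free (f ∘ v) ⟨fun a b hab => hv.1 a b hab, by
    obtain ⟨c, hc, hc'⟩ := hv.2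
    exact ⟨c, fun a b hab => hc a b hab, hc'⟩⟩

end LS

/-- `T = (k-2)/(k-1) log r` -/
noncomputable def TT (k r : ℕ) : ℝ := ((k : ℝ) - 2) / ((k : ℝ) - 1) * Real.log r

/-- The hypotheses on `k`, `r` under which the Turan graph is shown to be extremal infinitely
often: either the continuous palette inequality fails at `r`, or `k ≥ 11`, it fails at `r - 1` and
the exact palette inequality fails at `r`. -/
structure Good (k r : ℕ) : Prop where
  hk : 4 ≤ k
  hF : (∀ l : ℕ, Even l → k ≤ l → r ^ (l - k + 1) < (l - 1) ^ ((k - 1) * (l - 1))) ∨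
    (11 ≤ k ∧
      (∀ l : ℕ, Even l → k ≤ l → (r - 1) ^ (l - k + 1) < (l - 1) ^ ((k - 1) * (l - 1))) ∧
      ∀ l : ℕ, Even l → k ≤ l → palProd r (l - 1) ^ (k - 1) < r ^ (l * (k - 2)))
  h4 : k = 4 → 3000 ≤ r
  h5 : 5 ≤ k → (13.14 : ℝ) ≤ Real.log r
  hR : ((k : ℝ) - 1) * (1 + Real.log (2.6 * ((k : ℝ) - 2))) ≤ Real.log r

/-! ## Real functions of the analysis part -/

/-- `φ_κ(t) = t(1-t)(R + log max(t,κ) - log(1-t))` -/
noncomputable def phi (R κ t : ℝ) : ℝ :=
  t * (1 - t) * (R + Real.log (max t κ) - Real.log (1 - t))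

/-- `G(t) = t(1-t) log((1-t)/(t(x-1))) - t + x t^2`; if `R = x + log(x-1)` then
`φ(t) = (x-1) t - G(t)`. -/
noncomputable def Gf (x t : ℝ) : ℝ :=
  t * (1 - t) * Real.log ((1 - t) / (t * (x - 1))) - t + x * t ^ 2

/-- derivative of `Gf x` -/
noncomputable def Gd (x t : ℝ) : ℝ :=
  (1 - 2 * t) * Real.log ((1 - t) / (t * (x - 1))) - 2 + 2 * x * t

/-- `loss x l = (x-1) - (1-1/l)(R - log(l-1)) = l * Gf x (1/l)` -/
noncomputable def loss (x l : ℝ) : ℝ :=
  ((l - 1) * Real.log ((l - 1) / (x - 1)) - (l - x)) / l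

/-! ## Cut norm -/

/-- all rectangle sums of `W` are at most `C` in absolute value -/
def CutBd {V : Type} (W : V → V → ℝ) (C : ℝ) : Prop :=
  ∀ S T : Finset V, |∑ u ∈ S, ∑ v ∈ T, W u v| ≤ C

/-- average of `A` over the blocks of the partition `P` -/
noncomputable def avg {V K : Type} [Fintype V] [DecidableEq K] (P : V → K) (A : V → V → ℝ)
    (u v : V) : ℝ :=
  (∑ u', ∑ v', if P u' = P u ∧ P v' = P v then A u' v' else 0) /
    ((#{u' | P u' = P u} : ℝ) * (#{v' | P v' = P v} : ℝ))

end MP2ab38c
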