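import Mathlib

/-!
# MP_2ab38c_co : edge-colourings avoiding a colour pattern of K_k, official definitions
-/

namespace MP2ab38c

open SimpleGraph

/-- A pattern of `K_k`: a partition of the edge set of `K_k` into classes, given as an
equivalence relation on the edges.  The rainbow pattern is `⊥` (all classes are singletons). -/
abbrev Pattern (k : ℕ) : Type := Setoid (⊤ : SimpleGraph (Fin k)).edgeSet

/-- The `r`-edge-colouring `F` of `G` contains a copy of the pattern `P` of `K_k`: there is an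
embedding of `K_k` into `G` under which two edges have the same colour if and only if they lie in
the same class of `P`. -/
def HasCopy {V : Type} {k r : ℕ} (G : SimpleGraph V) (F : G.edgeSet → Fin r)
    (P : Pattern k) : Prop :=
  ∃ φ : (⊤ : SimpleGraph (Fin k)) ↪g G, ∀ e f : (⊤ : SimpleGraph (Fin k)).edgeSet,
    F (φ.mapEdgeSet e) = F (φ.mapEdgeSet f) ↔ P.r e f

/-- `c_{r,P}(G)`: the number of `P`-free `r`-edge-colourings of `G`. -/
noncomputable def cols {V : Type} {k : ℕ} (r : ℕ) (P : Pattern k) (G : SimpleGraph V) : ℕ :=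
  Nat.card {F : G.edgeSet → Fin r // ¬ HasCopy G F P}

/-- The graph `G` on `n` vertices is `(r,P)`-extremal. -/
def IsExtremalCol {k n : ℕ} (r : ℕ) (P : Pattern k) (G : SimpleGraph (Fin n)) : Prop :=
  ∀ H : SimpleGraph (Fin n), cols r P H ≤ cols r P G

/-- `ρ = r_1(P)`: the least `ρ ≥ 2` such that for every `r ≥ ρ` the Turan graph `T_{k-1}(n)` is
not `(r,P)`-extremal for all sufficiently large `n`. -/
def IsThreshold {k : ℕ} (P : Pattern k) (ρ : ℕ) : Prop :=
  IsLeast {ρ : ℕ | 2 ≤ ρ ∧ ∀ r ≥ ρ, ∃ n₀ : ℕ, ∀ n ≥ n₀,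
    ¬ IsExtremalCol r P (turanGraph n (k - 1))} ρ

/-- `ρ = r_1(k)`: the maximum of `r_1(P)` over all patterns `P` of `K_k` other than the rainbow
pattern. -/
def IsMaxThreshold (k ρ : ℕ) : Prop :=
  IsGreatest {ρ : ℕ | ∃ P : Pattern k, P ≠ ⊥ ∧ IsThreshold P ρ} ρ

/-- `P` is the pattern with exactly one coincidence, between two adjacent edges: the two edges
`xy`, `xz` form one class and every other class is a single edge. -/
def IsCherry {k : ℕ} (P : Pattern k) : Prop :=
  ∃ x y z : Fin k, x ≠ y ∧ x ≠ z ∧ y ≠ z ∧ ∀ e f : (⊤ : SimpleGraph (Fin k)).edgeSet,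
    P.r e f ↔ (e = f ∨ (e.1 = s(x, y) ∧ f.1 = s(x, z)) ∨ (e.1 = s(x, z) ∧ f.1 = s(x, y)))

/-- `thr k`: the least natural number `N` with `(l-1)^((k-1)(l-1)) ≤ N^(l-k+1)` for some even
`l ≥ k`, that is, the minimum over even `l ≥ k` of `⌈(l-1)^((k-1)(l-1)/(l-k+1))⌉`. -/
noncomputable def thr (k : ℕ) : ℕ :=
  sInf {N : ℕ | ∃ l : ℕ, Even l ∧ k ≤ l ∧ (l - 1) ^ ((k - 1) * (l - 1)) ≤ N ^ (l - k + 1)}

/-- the product of the sizes of `m` nearly equal palettes partitioning `r` colours -/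
def palProd (r m : ℕ) : ℕ := ∏ i ∈ Finset.range m, (r + i) / m

/-- The palette inequality at `r`: for some even `l ≥ k`, with `l - 1` nearly equal palettes whose
sizes have product `p`, either `r^(l(k-2)) < p^(k-1)`, or equality holds and `l - 1` divides `r`. -/
def PalCond (k r : ℕ) : Prop :=
  ∃ l : ℕ, Even l ∧ k ≤ l ∧ (r ^ (l * (k - 2)) < palProd r (l - 1) ^ (k - 1) ∨
    ((l - 1) ∣ r ∧ r ^ (l * (k - 2)) = palProd r (l - 1) ^ (k - 1)))

/-- `palThr k`: the least `r ≥ 1` such that for some even `l ≥ k` the product `p` of the sizes of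
`l - 1` nearly equal palettes partitioning `r` colours satisfies `r^(l(k-2)) ≤ p^(k-1)`. -/
noncomputable def palThr (k : ℕ) : ℕ :=
  sInf {r : ℕ | 1 ≤ r ∧ ∃ l : ℕ, Even l ∧ k ≤ l ∧
    r ^ (l * (k - 2)) ≤ palProd r (l - 1) ^ (k - 1)}

end MP2ab38c
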