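import Pool.Agent.Lib.MP_2ab38c_co.FDefs

/-!
JOB FAvoid.
`avoid_count`: the functions `F : E → Fin r` which on each of the pairwise disjoint sets `s t`
differ somewhere from a given function `g t` form a fraction at most `∏_t (1 - r^(-|s t|))` of all
functions (independence; induction on a Finset of indices `t`, splitting off the coordinates in
`s t`).
`disj_cliques`: enumerate `N` elements of each `A i` and for `x < N/2`, `y < N/(2p)` take in `A i`
the element number `x + i y` (`< N/2 + p N/(2p) ≤ N`); two different coordinates `i ≠ j` determine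
`(x, y)`.
-/

namespace MP2ab38c

open Finset

private theorem FAvoid_step {E T : Type} [Fintype E] [DecidableEq E] [DecidableEq T]
    {r : ℕ} (s : T → Finset E) (hdisj : ∀ t t', t ≠ t' → Disjoint (s t) (s t'))
    (g : T → E → Fin r) (S : Finset T) (t : T) (ht : t ∉ S) :
    (univ.filter fun F : E → Fin r => ∀ t ∈ S, ∃ e ∈ s t, F e ≠ g t e).card ≤
      ((univ.filter fun F : E → Fin r => ∀ t ∈ S, ∃ e ∈ s t, F e ≠ g t e).filter
        fun F => ¬ ∃ e ∈ s t, F e ≠ g t e).card * r ^ (s t).card := by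
  have h1 : r ^ (s t).card = (univ : Finset ((s t) → Fin r)).card := by
    rw [Finset.card_univ, Fintype.card_fun, Fintype.card_fin, Fintype.card_coe]
  rw [h1, ← Finset.card_product]
  apply Finset.card_le_card_of_injOn
    (fun F : E → Fin r => ((fun e => if e ∈ s t then g t e else F e), fun e : s t => F e.1))
  · intro F hF
    have hF' := (mem_filter.mp (Finset.mem_coe.mp hF)).2
    rw [Finset.mem_coe, mem_product]
    refine ⟨mem_filter.mpr ⟨mem_filter.mpr ⟨mem_univ _, ?_⟩, ?_⟩, mem_univ _⟩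
    · intro t' ht'
      obtain ⟨e, he, hne⟩ := hF' t' ht'
      refine ⟨e, he, ?_⟩
      have hne' : t ≠ t' := by
        rintro rfl
        exact ht ht'
      have hnot : e ∉ s t := fun h => (Finset.disjoint_left.mp (hdisj t t' hne')) h he
      simpa [hnot] using hne
    · rintro ⟨e, he, hne⟩
      exact hne (by simp [he])
  · intro F _ F' _ hFF
    have h2 := congrArg Prod.fst hFF
    have h3 := congrArg Prod.snd hFF
    funext e
    by_cases he : e ∈ s t
    · exact congrFun h3 ⟨e, he⟩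
    · have := congrFun h2 e
      simpa [he] using this

private theorem FAvoid_main {E T : Type} [Fintype E] [DecidableEq E] [DecidableEq T]
    {r : ℕ} (hr : 1 ≤ r) (s : T → Finset E) (hdisj : ∀ t t', t ≠ t' → Disjoint (s t) (s t'))
    (g : T → E → Fin r) (q : ℕ) (hq : ∀ t, (s t).card ≤ q) (S : Finset T) :
      ((univ.filter fun F : E → Fin r => ∀ t ∈ S, ∃ e ∈ s t, F e ≠ g t e).card : ℝ) ≤
        (r : ℝ) ^ (Fintype.card E) * (1 - 1 / (r : ℝ) ^ q) ^ S.card := by
  have hr' : (1 : ℝ) ≤ r := by exact_mod_cast hr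
  have hrq : 1 ≤ (r : ℝ) ^ q := one_le_pow₀ hr'
  have hnn : 0 ≤ 1 - 1 / (r : ℝ) ^ q := by
    rw [sub_nonneg, div_le_one (by linarith)]
    exact hrq
  induction S using Finset.induction_on with
  | empty =>
    have h1 : (univ.filter fun F : E → Fin r => ∀ t ∈ (∅ : Finset T),
        ∃ e ∈ s t, F e ≠ g t e) = univ := by
      ext F
      simp
    rw [h1, Finset.card_univ, Fintype.card_fun, Fintype.card_fin]
    simp
  | insert t S ht ih =>
    have hstep := FAvoid_step s hdisj g S t ht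
    have hsplit := Finset.card_filter_add_card_filter_not
      (s := univ.filter fun F : E → Fin r => ∀ t ∈ S, ∃ e ∈ s t, F e ≠ g t e)
      (fun F => ∃ e ∈ s t, F e ≠ g t e)
    have hins : (univ.filter fun F : E → Fin r => ∀ t' ∈ insert t S, ∃ e ∈ s t', F e ≠ g t' e) =
        ((univ.filter fun F : E → Fin r => ∀ t ∈ S, ∃ e ∈ s t, F e ≠ g t e).filter
          fun F => ∃ e ∈ s t, F e ≠ g t e) := by
      ext F
      simp only [mem_filter, mem_univ, true_and, Finset.mem_insert, forall_eq_or_imp]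
      exact and_comm
    rw [hins, Finset.card_insert_of_notMem ht, pow_succ]
    set b := (univ.filter fun F : E → Fin r => ∀ t ∈ S, ∃ e ∈ s t, F e ≠ g t e).card with hb
    set b' := ((univ.filter fun F : E → Fin r => ∀ t ∈ S, ∃ e ∈ s t, F e ≠ g t e).filter
          fun F => ∃ e ∈ s t, F e ≠ g t e).card with hb'
    set c := ((univ.filter fun F : E → Fin r => ∀ t ∈ S, ∃ e ∈ s t, F e ≠ g t e).filter
          fun F => ¬ ∃ e ∈ s t, F e ≠ g t e).card with hc
    have h1 : (b : ℝ) ≤ c * (r : ℝ) ^ q := by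
      have hstep' : b ≤ c * r ^ (s t).card := hstep
      have h2 : (b : ℝ) ≤ ((c * r ^ (s t).card : ℕ) : ℝ) := Nat.cast_le.mpr hstep'
      rw [Nat.cast_mul, Nat.cast_pow] at h2
      refine h2.trans ?_
      exact mul_le_mul_of_nonneg_left (pow_le_pow_right₀ hr' (hq t)) (Nat.cast_nonneg c)
    have h3 : (b' : ℝ) + c = b := by
      have h3' : b' + c = b := hsplit
      rw [← Nat.cast_add, h3']
    have h4 : (b : ℝ) / (r : ℝ) ^ q ≤ c := by
      rw [div_le_iff₀ (by linarith)]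
      exact h1
    have h5 : (b' : ℝ) ≤ b * (1 - 1 / (r : ℝ) ^ q) := by
      have : (b : ℝ) * (1 - 1 / (r : ℝ) ^ q) = b - b / (r : ℝ) ^ q := by ring
      rw [this]
      linarith
    calc (b' : ℝ) ≤ b * (1 - 1 / (r : ℝ) ^ q) := h5
      _ ≤ ((r : ℝ) ^ (Fintype.card E) * (1 - 1 / (r : ℝ) ^ q) ^ S.card) *
          (1 - 1 / (r : ℝ) ^ q) := mul_le_mul_of_nonneg_right ih hnn
      _ = _ := by ring

theorem avoid_count {E T : Type} [Fintype E] [DecidableEq E] [Fintype T] [DecidableEq T]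
    {r : ℕ} (hr : 1 ≤ r) (s : T → Finset E) (hdisj : ∀ t t', t ≠ t' → Disjoint (s t) (s t'))
    (g : T → E → Fin r) (q : ℕ) (hq : ∀ t, (s t).card ≤ q) :
    ({F : E → Fin r | ∀ t, ∃ e ∈ s t, F e ≠ g t e}.ncard : ℝ) ≤
      (r : ℝ) ^ (Fintype.card E) * (1 - 1 / (r : ℝ) ^ q) ^ (Fintype.card T) := by
  have h := FAvoid_main hr s hdisj g q hq univ
  rw [Finset.card_univ] at h
  refine le_trans (le_of_eq ?_) h
  rw [← Set.ncard_coe_finset]
  congr 2
  ext F
  simp

private theorem FAvoid_lt (p N x y i : ℕ) (hx : x < N / 2) (hy : y < N / (2 * p))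
    (hi : i < p) : x + i * y < N := by
  have h1 : i * y ≤ p * y := Nat.mul_le_mul_right y hi.le
  have h2 : p * y ≤ p * (N / (2 * p)) := Nat.mul_le_mul_left p hy.le
  have h3 : 2 * p * (N / (2 * p)) ≤ N := Nat.mul_div_le N (2 * p)
  have h4 : 2 * (p * (N / (2 * p))) ≤ N := by
    calc 2 * (p * (N / (2 * p))) = 2 * p * (N / (2 * p)) := by ring
      _ ≤ N := h3
  omega

theorem disj_cliques {V : Type} [DecidableEq V] (p N : ℕ) (hp : 1 ≤ p) (A : Fin p → Finset V)
    (hA : ∀ i, N ≤ (A i).card) : ∃ τ : Fin (N / 2) × Fin (N / (2 * p)) → Fin p → V,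
      (∀ t i, τ t i ∈ A i) ∧
      ∀ t t' i j, i ≠ j → τ t i = τ t' i → τ t j = τ t' j → t = t' := by
  have hlt : ∀ (t : Fin (N / 2) × Fin (N / (2 * p))) (i : Fin p),
      (t.1 : ℕ) + (i : ℕ) * (t.2 : ℕ) < (A i).card := fun t i =>
    lt_of_lt_of_le (FAvoid_lt p N t.1 t.2 i t.1.2 t.2.2 i.2) (hA i)
  refine ⟨fun t i => ((A i).equivFin.symm ⟨(t.1 : ℕ) + (i : ℕ) * (t.2 : ℕ), hlt t i⟩ : V), ?_, ?_⟩
  · intro t i
    exact ((A i).equivFin.symm _).2
  · intro t t' i j hij h1 h2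
    have h3 := (A i).equivFin.symm.injective (Subtype.ext h1)
    have h4 := (A j).equivFin.symm.injective (Subtype.ext h2)
    have h5 : (t.1 : ℕ) + (i : ℕ) * (t.2 : ℕ) = (t'.1 : ℕ) + (i : ℕ) * (t'.2 : ℕ) :=
      congrArg Fin.val h3
    have h6 : (t.1 : ℕ) + (j : ℕ) * (t.2 : ℕ) = (t'.1 : ℕ) + (j : ℕ) * (t'.2 : ℕ) :=
      congrArg Fin.val h4
    have h5' : ((t.1 : ℕ) : ℤ) + ((i : ℕ) : ℤ) * ((t.2 : ℕ) : ℤ) =
        ((t'.1 : ℕ) : ℤ) + ((i : ℕ) : ℤ) * ((t'.2 : ℕ) : ℤ) := by exact_mod_cast h5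
    have h6' : ((t.1 : ℕ) : ℤ) + ((j : ℕ) : ℤ) * ((t.2 : ℕ) : ℤ) =
        ((t'.1 : ℕ) : ℤ) + ((j : ℕ) : ℤ) * ((t'.2 : ℕ) : ℤ) := by exact_mod_cast h6
    have h7 : (((i : ℕ) : ℤ) - ((j : ℕ) : ℤ)) * (((t.2 : ℕ) : ℤ) - ((t'.2 : ℕ) : ℤ)) = 0 := by
      linear_combination h5' - h6'
    have h8 : ((i : ℕ) : ℤ) - ((j : ℕ) : ℤ) ≠ 0 := by
      intro h
      apply hij
      apply Fin.ext
      omega
    have h9 : ((t.2 : ℕ) : ℤ) = ((t'.2 : ℕ) : ℤ) := by
      rcases mul_eq_zero.mp h7 with h | h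
      · exact absurd h h8
      · linarith
    have h10 : t.2 = t'.2 := Fin.ext (by exact_mod_cast h9)
    have h11 : t.1 = t'.1 := by
      apply Fin.ext
      rw [h10] at h5
      omega
    exact Prod.ext h11 h10

end MP2ab38c
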