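import Pool.Agent.Lib.MP_2ab38c_co.FAvoid

/-!
JOB FBad.  Few colourings of a complete multipartite graph are not good.

Proof.  `n = |V|`, `N = ⌈β n⌉`.  If `F` is not `GoodF` there are `A i ⊆ X i`, `|A i| ≥ N`, and
`g : Sym2 (Fin (k-1)) → Fin r` such that no transversal `a` of the `A i` is coloured by `g`.  For
fixed `A, g` apply `disj_cliques` (`p = k-1`) and `avoid_count` with `E = (mp π).edgeSet`,
`T = Fin (N/2) × Fin (N/(2(k-1)))`, `s t` = the edges `τ t i, τ t j` (`i ≠ j`; these are edges by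
`hX`, and the sets are pairwise disjoint, note the `X i` are disjoint), `|s t| ≤ (k-1)^2 =: q`:
at most `r^e (1 - r^(-q))^(|T|)` functions, `|T| ≥ (βn/2 - 1)(βn/(2k) - 1) ≥ c1 n^2`.
The number of pairs `(A, g)` is at most `2^(n k) * (a constant depending on k, r)`.  So the total is
`≤ r^e exp(-c n^2)` for `n` large, with e.g. `c = c1 r^(-q)/2`.
-/

namespace MP2ab38c

open Finset

/-- the estimate for one box and one pattern -/
private lemma FBad_one {k r : ℕ} (hk : 3 ≤ k) (hr : 2 ≤ r) {V ι : Type} [Fintype V]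
    [DecidableEq V] (π : V → ι) (X : Fin (k - 1) → Finset V) (N : ℕ)
    (hX : ∀ i j, i ≠ j → ∀ u ∈ X i, ∀ u' ∈ X j, π u ≠ π u')
    (A : Fin (k - 1) → Finset V) (hAX : ∀ i, A i ⊆ X i) (hAN : ∀ i, N ≤ (A i).card)
    (g : Sym2 (Fin (k - 1)) → Fin r) :
    ({F : (mp π).edgeSet → Fin r | ∀ a : Fin (k - 1) → V, (∀ i, a i ∈ A i) →
        ∃ i j, i ≠ j ∧ ext F s(a i, a j) ≠ some (g s(i, j))}.ncard : ℝ) ≤
      (r : ℝ) ^ (mp π).edgeSet.ncard *
        (1 - 1 / (r : ℝ) ^ ((k - 1) * (k - 1))) ^ ((N / 2) * (N / (2 * (k - 1)))) := by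
  classical
  obtain ⟨τ, hτA, hτ⟩ := disj_cliques (k - 1) N (by omega) A hAN
  have hidx : ∀ t t' i j, τ t i = τ t' j → i = j := by
    intro t t' i j h
    by_contra hij
    exact hX i j hij _ (hAX i (hτA t i)) _ (hAX j (hτA t' j)) (by rw [h])
  -- edges of one clique
  set im : Fin (N / 2) × Fin (N / (2 * (k - 1))) → Finset (Sym2 V) := fun t =>
    (univ : Finset (Fin (k - 1) × Fin (k - 1))).image fun ij => s(τ t ij.1, τ t ij.2) with him
  set st : Fin (N / 2) × Fin (N / (2 * (k - 1))) → Finset (mp π).edgeSet := fun t =>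
    univ.filter fun e => e.1 ∈ im t with hst
  have hmem : ∀ t (e : (mp π).edgeSet), e ∈ st t ↔ ∃ i j, e.1 = s(τ t i, τ t j) := by
    intro t e
    simp only [hst, him, mem_filter, mem_univ, true_and, mem_image, Prod.exists]
    constructor
    · rintro ⟨i, j, h⟩
      exact ⟨i, j, h.symm⟩
    · rintro ⟨i, j, h⟩
      exact ⟨i, j, h.symm⟩
  have hne : ∀ t (e : (mp π).edgeSet) i j, e.1 = s(τ t i, τ t j) → i ≠ j := by
    rintro t ⟨e, he⟩ i j h rfl
    simp only at h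
    subst h
    rw [SimpleGraph.mem_edgeSet] at he
    exact he rfl
  have hcases : ∀ t t' (i j i' j' : Fin (k - 1)), s(τ t i, τ t j) = s(τ t' i', τ t' j') →
      (i = i' ∧ j = j' ∧ τ t i = τ t' i ∧ τ t j = τ t' j) ∨
      (i = j' ∧ j = i' ∧ τ t i = τ t' i ∧ τ t j = τ t' j) := by
    intro t t' i j i' j' h
    rw [Sym2.eq_iff] at h
    rcases h with ⟨h1, h2⟩ | ⟨h1, h2⟩
    · left
      have e1 := hidx _ _ _ _ h1
      have e2 := hidx _ _ _ _ h2
      subst e1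
      subst e2
      exact ⟨rfl, rfl, h1, h2⟩
    · right
      have e1 := hidx _ _ _ _ h1
      have e2 := hidx _ _ _ _ h2
      subst e1
      subst e2
      exact ⟨rfl, rfl, h1, h2⟩
  have hdisj : ∀ t t', t ≠ t' → Disjoint (st t) (st t') := by
    intro t t' htt
    rw [Finset.disjoint_left]
    intro e he he'
    obtain ⟨i, j, h1⟩ := (hmem t e).1 he
    obtain ⟨i', j', h2⟩ := (hmem t' e).1 he'
    have hij := hne t e i j h1
    apply htt
    rcases hcases t t' i j i' j' (h1.symm.trans h2) with ⟨-, -, h3, h4⟩ | ⟨-, -, h3, h4⟩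
    · exact hτ t t' i j hij h3 h4
    · exact hτ t t' i j hij h3 h4
  have hcard : ∀ t, (st t).card ≤ (k - 1) * (k - 1) := by
    intro t
    have h1 : (st t).card = ((st t).image Subtype.val).card :=
      (Finset.card_image_of_injective _ Subtype.val_injective).symm
    rw [h1]
    calc ((st t).image Subtype.val).card ≤ (im t).card := by
          refine Finset.card_le_card ?_
          intro x hx
          obtain ⟨e, he, rfl⟩ := Finset.mem_image.1 hx
          exact (Finset.mem_filter.1 he).2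
      _ ≤ (univ : Finset (Fin (k - 1) × Fin (k - 1))).card := Finset.card_image_le
      _ = (k - 1) * (k - 1) := by simp
  -- the forbidden functions
  have hr0 : 0 < r := by omega
  set gt : Fin (N / 2) × Fin (N / (2 * (k - 1))) → (mp π).edgeSet → Fin r := fun t e =>
    if h : ∃ ij : Fin (k - 1) × Fin (k - 1), e.1 = s(τ t ij.1, τ t ij.2) then
      g s(h.choose.1, h.choose.2) else ⟨0, hr0⟩ with hgt
  have hgt' : ∀ t (e : (mp π).edgeSet) i j, e.1 = s(τ t i, τ t j) → gt t e = g s(i, j) := by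
    intro t e i j h
    have hex : ∃ ij : Fin (k - 1) × Fin (k - 1), e.1 = s(τ t ij.1, τ t ij.2) := ⟨(i, j), h⟩
    simp only [hgt, dif_pos hex]
    have h1 := hex.choose_spec
    rcases hcases t t i j _ _ (h.symm.trans h1) with ⟨h3, h4, -, -⟩ | ⟨h3, h4, -, -⟩
    · rw [← h3, ← h4]
    · rw [← h3, ← h4, Sym2.eq_swap]
  have hmain := avoid_count (by omega : 1 ≤ r) st hdisj gt ((k - 1) * (k - 1)) hcard
  have hsub : {F : (mp π).edgeSet → Fin r | ∀ a : Fin (k - 1) → V, (∀ i, a i ∈ A i) →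
      ∃ i j, i ≠ j ∧ ext F s(a i, a j) ≠ some (g s(i, j))} ⊆
      {F : (mp π).edgeSet → Fin r | ∀ t, ∃ e ∈ st t, F e ≠ gt t e} := by
    intro F hF t
    obtain ⟨i, j, hij, hFe⟩ := hF (τ t) (hτA t)
    have hadj : s(τ t i, τ t j) ∈ (mp π).edgeSet := by
      rw [SimpleGraph.mem_edgeSet]
      exact hX i j hij _ (hAX i (hτA t i)) _ (hAX j (hτA t j))
    refine ⟨⟨s(τ t i, τ t j), hadj⟩, (hmem t _).2 ⟨i, j, rfl⟩, ?_⟩
    rw [hgt' t _ i j rfl]
    intro h
    apply hFe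
    unfold ext
    rw [dif_pos hadj, h]
  have h1 : ({F : (mp π).edgeSet → Fin r | ∀ a : Fin (k - 1) → V, (∀ i, a i ∈ A i) →
      ∃ i j, i ≠ j ∧ ext F s(a i, a j) ≠ some (g s(i, j))}.ncard : ℝ) ≤
      ({F : (mp π).edgeSet → Fin r | ∀ t, ∃ e ∈ st t, F e ≠ gt t e}.ncard : ℝ) := by
    exact_mod_cast Set.ncard_le_ncard hsub (Set.toFinite _)
  have h2 : Fintype.card (mp π).edgeSet = (mp π).edgeSet.ncard := by
    rw [← Nat.card_eq_fintype_card, Nat.card_coe_set_eq]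
  have h3 : Fintype.card (Fin (N / 2) × Fin (N / (2 * (k - 1)))) =
      (N / 2) * (N / (2 * (k - 1))) := by simp
  rw [h2, h3] at hmain
  exact h1.trans hmain

/-- the number of boxes and patterns -/
private lemma FBad_numeric (p : ℕ) (hp : 1 ≤ p) (β δ Cg : ℝ) (hβ : 0 < β) (hδ : 0 < δ)
    (hδ1 : δ ≤ 1) (hCg : 1 ≤ Cg) :
    ∃ c > 0, ∃ n0 : ℕ, ∀ n : ℕ, n0 ≤ n →
      (2 : ℝ) ^ (n * p) * Cg * (1 - δ) ^ ((⌈β * (n : ℝ)⌉₊ / 2) * (⌈β * (n : ℝ)⌉₊ / (2 * p))) ≤
        Real.exp (-c * (n : ℝ) ^ 2) := by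
  set c1 : ℝ := δ * β ^ 2 / (16 * p) with hc1
  have hp' : (1 : ℝ) ≤ p := by exact_mod_cast hp
  have hc1pos : 0 < c1 := by positivity
  refine ⟨c1 / 2, by positivity, ⌈4 * p / β⌉₊ + ⌈4 * p / c1⌉₊ + ⌈4 * Real.log Cg / c1⌉₊ + 1, ?_⟩
  intro n hn
  have hn1 : (4 * p / β : ℝ) ≤ n := by
    refine (Nat.le_ceil _).trans ?_
    exact_mod_cast (show ⌈4 * p / β⌉₊ ≤ n by omega)
  have hn2 : (4 * p / c1 : ℝ) ≤ n := by
    refine (Nat.le_ceil _).trans ?_
    exact_mod_cast (show ⌈4 * p / c1⌉₊ ≤ n by omega)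
  have hn3 : (4 * Real.log Cg / c1 : ℝ) ≤ n := by
    refine (Nat.le_ceil _).trans ?_
    exact_mod_cast (show ⌈4 * Real.log Cg / c1⌉₊ ≤ n by omega)
  have hn4 : (1 : ℝ) ≤ n := by exact_mod_cast (show 1 ≤ n by omega)
  set N := ⌈β * (n : ℝ)⌉₊ with hN
  have hNβ : β * n ≤ N := Nat.le_ceil _
  rw [div_le_iff₀ hβ] at hn1
  rw [div_le_iff₀ hc1pos] at hn2 hn3
  have hn1' : 4 * (p : ℝ) ≤ β * n := by linarith
  -- the number of cliques
  have hT1 : β * n / 4 ≤ ((N / 2 : ℕ) : ℝ) := by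
    have h1 : (N : ℝ) < (((N / 2 : ℕ) : ℝ) + 1) * 2 := by
      have : N < (N / 2 + 1) * 2 := by omega
      exact_mod_cast this
    linarith
  have hT2 : β * n / (4 * p) ≤ ((N / (2 * p) : ℕ) : ℝ) := by
    have h1 : (N : ℝ) < (((N / (2 * p) : ℕ) : ℝ) + 1) * (2 * p) := by
      have h2 : N < (N / (2 * p) + 1) * (2 * p) := by
        rw [add_mul, one_mul]
        exact Nat.lt_div_mul_add (by omega)
      exact_mod_cast h2
    rw [div_le_iff₀ (by positivity)]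
    nlinarith
  have hT : c1 / δ * (n : ℝ) ^ 2 ≤ (((N / 2) * (N / (2 * p)) : ℕ) : ℝ) := by
    push_cast
    calc c1 / δ * (n : ℝ) ^ 2 = (β * n / 4) * (β * n / (4 * p)) := by
          rw [hc1]
          field_simp
          ring
      _ ≤ _ := by gcongr
  have h1 : (1 - δ) ^ ((N / 2) * (N / (2 * p))) ≤ Real.exp (-(c1 * (n : ℝ) ^ 2)) := by
    calc (1 - δ) ^ ((N / 2) * (N / (2 * p))) ≤ (Real.exp (-δ)) ^ ((N / 2) * (N / (2 * p))) := by
          refine pow_le_pow_left₀ (by linarith) ?_ _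
          have := Real.add_one_le_exp (-δ)
          linarith
      _ = Real.exp (-(δ * (((N / 2) * (N / (2 * p)) : ℕ) : ℝ))) := by
          rw [← Real.exp_nat_mul]
          congr 1
          ring
      _ ≤ Real.exp (-(c1 * (n : ℝ) ^ 2)) := by
          refine Real.exp_le_exp.2 (neg_le_neg ?_)
          calc c1 * (n : ℝ) ^ 2 = δ * (c1 / δ * (n : ℝ) ^ 2) := by field_simp
            _ ≤ _ := by gcongr
  have h2 : (2 : ℝ) ^ (n * p) ≤ Real.exp (c1 * (n : ℝ) ^ 2 / 4) := by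
    have h3 : (2 : ℝ) ≤ Real.exp 1 := by
      have := Real.exp_one_gt_d9
      linarith
    calc (2 : ℝ) ^ (n * p) ≤ (Real.exp 1) ^ (n * p) := pow_le_pow_left₀ (by norm_num) h3 _
      _ = Real.exp ((n * p : ℕ) : ℝ) := by
          rw [← Real.exp_nat_mul, mul_one]
      _ ≤ _ := by
          refine Real.exp_le_exp.2 ?_
          push_cast
          nlinarith
  have h3 : Cg ≤ Real.exp (c1 * (n : ℝ) ^ 2 / 4) := by
    rw [← Real.log_le_iff_le_exp (by linarith)]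
    have h4 : 0 ≤ Real.log Cg := Real.log_nonneg hCg
    nlinarith
  have h0 : 0 ≤ (1 - δ) ^ ((N / 2) * (N / (2 * p))) := pow_nonneg (by linarith) _
  calc (2 : ℝ) ^ (n * p) * Cg * (1 - δ) ^ ((N / 2) * (N / (2 * p)))
      ≤ Real.exp (c1 * (n : ℝ) ^ 2 / 4) * Real.exp (c1 * (n : ℝ) ^ 2 / 4) *
        Real.exp (-(c1 * (n : ℝ) ^ 2)) := by
        gcongr
    _ = Real.exp (-(c1 / 2) * (n : ℝ) ^ 2) := by
        rw [← Real.exp_add, ← Real.exp_add]
        congr 1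
        ring

theorem bad_count {k r : ℕ} (hk : 3 ≤ k) (hr : 2 ≤ r) (β : ℝ) (hβ : 0 < β) : ∃ c > 0,
    ∃ n0 : ℕ, ∀ (V ι : Type) [Fintype V] [DecidableEq V] (π : V → ι)
      (X : Fin (k - 1) → Finset V), n0 ≤ Fintype.card V →
      (∀ i j, i ≠ j → ∀ u ∈ X i, ∀ u' ∈ X j, π u ≠ π u') →
      ({F : (mp π).edgeSet → Fin r |
          ¬ GoodF (k := k) X ⌈β * (Fintype.card V : ℝ)⌉₊ F}.ncard : ℝ) ≤
        (r : ℝ) ^ (mp π).edgeSet.ncard * Real.exp (-c * (Fintype.card V : ℝ) ^ 2) := by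
  classical
  have hr' : (2 : ℝ) ≤ r := by exact_mod_cast hr
  set δ : ℝ := 1 / (r : ℝ) ^ ((k - 1) * (k - 1)) with hδ
  have hδ0 : 0 < δ := by positivity
  have hδ1 : δ ≤ 1 := by
    rw [hδ, div_le_one (by positivity)]
    exact one_le_pow₀ (by linarith)
  set Cg : ℝ := ((Fintype.card (Sym2 (Fin (k - 1)) → Fin r) : ℕ) : ℝ) with hCg
  have hCg1 : 1 ≤ Cg := by
    have : 0 < Fintype.card (Sym2 (Fin (k - 1)) → Fin r) :=
      Fintype.card_pos_iff.2 ⟨fun _ => ⟨0, by omega⟩⟩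
    rw [hCg]
    exact_mod_cast this
  obtain ⟨c, hc, n0, hn0⟩ := FBad_numeric (k - 1) (by omega) β δ Cg hβ hδ0 hδ1 hCg1
  refine ⟨c, hc, n0, ?_⟩
  intro V ι _ _ π X hn hX
  set n := Fintype.card V with hndef
  set N := ⌈β * (n : ℝ)⌉₊ with hN
  -- the bad sets
  set B : (Fin (k - 1) → Finset V) × (Sym2 (Fin (k - 1)) → Fin r) →
      Finset ((mp π).edgeSet → Fin r) := fun q => univ.filter fun F =>
    (∀ i, q.1 i ⊆ X i) ∧ (∀ i, N ≤ (q.1 i).card) ∧
      ∀ a : Fin (k - 1) → V, (∀ i, a i ∈ q.1 i) →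
        ∃ i j, i ≠ j ∧ ext F s(a i, a j) ≠ some (q.2 s(i, j)) with hB
  have hcover : {F : (mp π).edgeSet → Fin r | ¬ GoodF (k := k) X N F} ⊆
      ((univ.biUnion B : Finset ((mp π).edgeSet → Fin r)) : Set _) := by
    intro F hF
    have hF' : ¬ GoodF (k := k) X N F := hF
    unfold GoodF at hF'
    push Not at hF'
    obtain ⟨A, h1, h2, g, h3⟩ := hF'
    rw [Finset.mem_coe, Finset.mem_biUnion]
    refine ⟨(A, g), Finset.mem_univ _, ?_⟩
    simp only [hB]
    rw [Finset.mem_filter]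
    exact ⟨Finset.mem_univ _, h1, h2, h3⟩
  have hBq : ∀ q, ((B q).card : ℝ) ≤ (r : ℝ) ^ (mp π).edgeSet.ncard *
      (1 - δ) ^ ((N / 2) * (N / (2 * (k - 1)))) := by
    intro q
    by_cases hq : (∀ i, q.1 i ⊆ X i) ∧ ∀ i, N ≤ (q.1 i).card
    · have h1 := FBad_one hk hr π X N hX q.1 hq.1 hq.2 q.2
      refine le_trans ?_ h1
      have h2 : (B q : Set ((mp π).edgeSet → Fin r)) ⊆
          {F : (mp π).edgeSet → Fin r | ∀ a : Fin (k - 1) → V, (∀ i, a i ∈ q.1 i) →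
            ∃ i j, i ≠ j ∧ ext F s(a i, a j) ≠ some (q.2 s(i, j))} := by
        intro F hF
        exact (Finset.mem_filter.1 (Finset.mem_coe.1 hF)).2.2.2
      have h3 := Set.ncard_le_ncard h2 (Set.toFinite _)
      rw [Set.ncard_coe_finset] at h3
      exact_mod_cast h3
    · have h1 : B q = ∅ := by
        simp only [hB]
        rw [Finset.filter_eq_empty_iff]
        rintro F - ⟨h2, h3, -⟩
        exact hq ⟨h2, h3⟩
      rw [h1, Finset.card_empty, Nat.cast_zero]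
      have : 0 ≤ 1 - δ := by linarith
      positivity
  have h1 : ({F : (mp π).edgeSet → Fin r | ¬ GoodF (k := k) X N F}.ncard : ℝ) ≤
      ∑ q, ((B q).card : ℝ) := by
    have h2 := Set.ncard_le_ncard hcover (Set.toFinite _)
    rw [Set.ncard_coe_finset] at h2
    have h3 := h2.trans (Finset.card_biUnion_le)
    exact_mod_cast h3
  have hcardq : (Fintype.card ((Fin (k - 1) → Finset V) × (Sym2 (Fin (k - 1)) → Fin r)) : ℝ) =
      (2 : ℝ) ^ (n * (k - 1)) * Cg := by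
    rw [Fintype.card_prod, Nat.cast_mul, hCg]
    congr 1
    rw [Fintype.card_fun, Fintype.card_finset, Fintype.card_fin, ← pow_mul, ← hndef]
    push_cast
    rfl
  calc ({F : (mp π).edgeSet → Fin r | ¬ GoodF (k := k) X N F}.ncard : ℝ)
      ≤ ∑ q, ((B q).card : ℝ) := h1
    _ ≤ ∑ _q : (Fin (k - 1) → Finset V) × (Sym2 (Fin (k - 1)) → Fin r),
          ((r : ℝ) ^ (mp π).edgeSet.ncard * (1 - δ) ^ ((N / 2) * (N / (2 * (k - 1))))) :=
        Finset.sum_le_sum fun q _ => hBq q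
    _ = (r : ℝ) ^ (mp π).edgeSet.ncard * ((2 : ℝ) ^ (n * (k - 1)) * Cg *
          (1 - δ) ^ ((N / 2) * (N / (2 * (k - 1))))) := by
        rw [Finset.sum_const, Finset.card_univ, nsmul_eq_mul, hcardq]
        ring
    _ ≤ (r : ℝ) ^ (mp π).edgeSet.ncard * Real.exp (-c * (n : ℝ) ^ 2) := by
        refine mul_le_mul_of_nonneg_left (hn0 n hn) (by positivity)

end MP2ab38c
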