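import Pool.Agent.Lib.MP_2ab38c_co.Core

/-!
JOB RExc.  Counting functions with few exceptions.  For `0 < lam ≤ 1`, a function `F` with at most
`q` exceptions (`F e ∉ L e`) satisfies `1 ≤ lam^(-q) * ∏_e (if F e ∈ L e then 1 else lam)`.  Sum
over all `F` (`Finset.prod_univ_sum`/`Fintype.piFinset`): the sum of the products is
`∏_e (|L e| + lam (r - |L e|)) ≤ ∏_e (max 1 |L e| (1 + lam r))`.
-/

namespace MP2ab38c

open Finset

theorem few_exceptions {E : Type} [Fintype E] [DecidableEq E] (r : ℕ)
    (L : E → Finset (Fin r)) (q lam : ℝ) (h0 : 0 < lam) (h1 : lam ≤ 1) :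
    ({F : E → Fin r | ({e | F e ∉ L e}.ncard : ℝ) ≤ q}.ncard : ℝ) ≤
      lam ^ (-q) * (1 + lam * r) ^ (Fintype.card E) * ∏ e, max 1 ((L e).card : ℝ) := by
  classical
  have hset : {F : E → Fin r | ({e | F e ∉ L e}.ncard : ℝ) ≤ q} =
      (((univ : Finset (E → Fin r)).filter (fun F => ({e | F e ∉ L e}.ncard : ℝ) ≤ q) :
        Finset (E → Fin r)) : Set (E → Fin r)) := by
    ext F
    simp
  have hlq : 0 < lam ^ (-q) := Real.rpow_pos_of_pos h0 _
  rw [hset, Set.ncard_coe_finset]
  have hprod : ∀ F : E → Fin r, ∏ e, (if F e ∈ L e then (1 : ℝ) else lam) =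
      lam ^ ({e | F e ∉ L e}.ncard : ℝ) := by
    intro F
    have h2 : {e | F e ∉ L e} = (((univ : Finset E).filter (fun e => F e ∉ L e) : Finset E) :
        Set E) := by
      ext e
      simp
    rw [h2, Set.ncard_coe_finset, Real.rpow_natCast, Finset.prod_ite, Finset.prod_const_one,
      one_mul, Finset.prod_const]
  have hstep : ∀ F ∈ (univ : Finset (E → Fin r)).filter
      (fun F => ({e | F e ∉ L e}.ncard : ℝ) ≤ q),
      (1 : ℝ) ≤ lam ^ (-q) * ∏ e, (if F e ∈ L e then (1 : ℝ) else lam) := by
    intro F hF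
    rw [Finset.mem_filter] at hF
    rw [hprod F, ← Real.rpow_add h0]
    apply Real.one_le_rpow_of_pos_of_le_one_of_nonpos h0 h1
    linarith [hF.2]
  calc (((univ : Finset (E → Fin r)).filter
        (fun F => ({e | F e ∉ L e}.ncard : ℝ) ≤ q)).card : ℝ)
      = ∑ F ∈ (univ : Finset (E → Fin r)).filter
        (fun F => ({e | F e ∉ L e}.ncard : ℝ) ≤ q), (1 : ℝ) := by
        rw [Finset.sum_const, nsmul_eq_mul, mul_one]
    _ ≤ ∑ F ∈ (univ : Finset (E → Fin r)).filter
        (fun F => ({e | F e ∉ L e}.ncard : ℝ) ≤ q),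
          lam ^ (-q) * ∏ e, (if F e ∈ L e then (1 : ℝ) else lam) := Finset.sum_le_sum hstep
    _ ≤ ∑ F : E → Fin r, lam ^ (-q) * ∏ e, (if F e ∈ L e then (1 : ℝ) else lam) := by
        refine Finset.sum_le_sum_of_subset_of_nonneg (Finset.subset_univ _) (fun F _ _ => ?_)
        apply mul_nonneg hlq.le
        refine Finset.prod_nonneg (fun e _ => ?_)
        split_ifs
        · exact zero_le_one
        · exact h0.le
    _ = lam ^ (-q) * ∏ e, ∑ c : Fin r, (if c ∈ L e then (1 : ℝ) else lam) := by
        rw [← Finset.mul_sum, Finset.prod_univ_sum, Fintype.piFinset_univ]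
    _ ≤ lam ^ (-q) * ∏ e, ((1 + lam * r) * max 1 ((L e).card : ℝ)) := by
        apply mul_le_mul_of_nonneg_left _ hlq.le
        refine Finset.prod_le_prod (fun e _ => ?_) (fun e _ => ?_)
        · refine Finset.sum_nonneg (fun c _ => ?_)
          split_ifs
          · exact zero_le_one
          · exact h0.le
        · rw [Finset.sum_ite, Finset.sum_const, Finset.sum_const, nsmul_eq_mul, nsmul_eq_mul,
            mul_one]
          have h3 : ((univ : Finset (Fin r)).filter (fun c => c ∈ L e)) = L e := by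
            ext c; simp
          have h4 : (((univ : Finset (Fin r)).filter (fun c => c ∉ L e)).card : ℝ) ≤ r := by
            have h5 := Finset.card_le_univ ((univ : Finset (Fin r)).filter (fun c => c ∉ L e))
            rw [Fintype.card_fin] at h5
            exact_mod_cast h5
          rw [h3]
          have h6 : ((L e).card : ℝ) ≤ max 1 ((L e).card : ℝ) := le_max_right _ _
          have h7 : (1 : ℝ) ≤ max 1 ((L e).card : ℝ) := le_max_left _ _
          have h8 : (((univ : Finset (Fin r)).filter (fun c => c ∉ L e)).card : ℝ) * lam ≤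
              r * lam := mul_le_mul_of_nonneg_right h4 h0.le
          have h9 : (r : ℝ) * lam ≤ r * lam * max 1 ((L e).card : ℝ) :=
            le_mul_of_one_le_right (by positivity) h7
          nlinarith
    _ = lam ^ (-q) * (1 + lam * r) ^ (Fintype.card E) * ∏ e, max 1 ((L e).card : ℝ) := by
        rw [Finset.prod_mul_distrib, Finset.prod_const, Finset.card_univ]
        ring

end MP2ab38c
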