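import Pool.Agent.Lib.MP_2ab38c_co.FDefs
import Pool.Agent.Lib.MP_2ab38c_co.RExc

/-!
JOB FCount.  Counting star colourings with at least three `X i` with few popular colours.

Proof.  `N = ⌈βn⌉`, `R = log r`.  Such an `f` determines `J` and the sets `P i` of popular colours
(`i ∈ J`), at most `2^(k-1) 2^(r(k-1))` choices; with `L x = P i` for `x ∈ X i`, `i ∈ J`, and
`L x = univ` otherwise, `f` has at most `(k-1) r N =: q` exceptions.  By `few_exceptions` with
`lam = β`: at most `β^(-q) (1 + β r)^n ∏_x max 1 |L x|` functions for given `J, P`, and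
`∏ max 1 |L x| ≤ (k-2)^a r^(|U| - a)`, `a = ∑_{i ∈ J} |X i| ≥ 3 (1/(k-1) - ε') n`, `|U| ≤ n`.
Since `k - 2 ≤ r` this is at most `exp (n (R - 3 (1/(k-1) - ε')(R - log (k-2))))`, and
`R - 3/(k-1) (R - log (k-2)) = ((k-4) R + 3 log (k-2))/(k-1)`.  The error terms
`q log (1/β) + βrn + 3ε'(R - log (k-2)) n + const` are `≤ γ n` for `β, ε'` small, `n` large
(`q ≤ (k-1) r (βn + 1)`, `β log (1/β) → 0`).
-/

namespace MP2ab38c

open Finset

open Classical in
/-- the lists determined by `J` and `P` -/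
noncomputable def FCountL {U : Type} {m r : ℕ} (X : Fin m → Finset U) (J : Finset (Fin m))
    (P : Fin m → Finset (Fin r)) (x : U) : Finset (Fin r) :=
  univ.filter fun c => ∀ i ∈ J, x ∈ X i → c ∈ P i

lemma FCount_mem {U : Type} {m r : ℕ} (X : Fin m → Finset U) (J : Finset (Fin m))
    (P : Fin m → Finset (Fin r)) (x : U) (c : Fin r) :
    c ∈ FCountL X J P x ↔ ∀ i ∈ J, x ∈ X i → c ∈ P i := by
  unfold FCountL
  simp

lemma FCount_exc {U : Type} [Fintype U] [DecidableEq U] {m r N : ℕ} (X : Fin m → Finset U)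
    (J : Finset (Fin m)) (P : Fin m → Finset (Fin r)) (f : U → Fin r)
    (h : ∀ i ∈ J, ∀ c, c ∉ P i → #{x ∈ X i | f x = c} ≤ N) :
    {e | f e ∉ FCountL X J P e}.ncard ≤ m * (r * N) := by
  classical
  have h1 : {e | f e ∉ FCountL X J P e} ⊆
      ((J.biUnion fun i => (univ \ P i).biUnion fun c => {x ∈ X i | f x = c} : Finset U) :
        Set U) := by
    intro x hx
    have hx' : ¬ (∀ i ∈ J, x ∈ X i → f x ∈ P i) := by
      intro hcon
      exact hx ((FCount_mem X J P x (f x)).2 hcon)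
    push Not at hx'
    obtain ⟨i, hi, hxi, hfx⟩ := hx'
    simp only [Finset.coe_biUnion, Set.mem_iUnion, Finset.mem_coe]
    exact ⟨i, hi, f x, by simpa using hfx, by simpa using hxi⟩
  refine (Set.ncard_le_ncard h1 (Finset.finite_toSet _)).trans ?_
  rw [Set.ncard_coe_finset]
  refine Finset.card_biUnion_le.trans ?_
  have h2 : ∀ i ∈ J, ((univ \ P i).biUnion fun c => {x ∈ X i | f x = c}).card ≤ r * N := by
    intro i hi
    refine Finset.card_biUnion_le.trans ?_
    refine (Finset.sum_le_card_nsmul _ _ N fun c hc => h i hi c (by simpa using hc)).trans ?_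
    rw [smul_eq_mul]
    refine Nat.mul_le_mul_right _ ?_
    refine (Finset.card_le_univ _).trans (le_of_eq ?_)
    exact Fintype.card_fin r
  refine (Finset.sum_le_card_nsmul _ _ (r * N) h2).trans ?_
  rw [smul_eq_mul]
  refine Nat.mul_le_mul_right _ ?_
  refine (Finset.card_le_univ _).trans (le_of_eq ?_)
  exact Fintype.card_fin m

lemma FCount_prod {U : Type} [Fintype U] [DecidableEq U] {m r k : ℕ} (hk : 4 ≤ k) (hr : k ≤ r)
    (X : Fin m → Finset U) (J : Finset (Fin m)) (P : Fin m → Finset (Fin r))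
    (hP : ∀ i ∈ J, (P i).card ≤ k - 2) (hX : ∀ i j, i ≠ j → Disjoint (X i) (X j)) (y : ℝ)
    (hy : 0 ≤ y) (hJ : 3 ≤ J.card) (hXy : ∀ i, y ≤ ((X i).card : ℝ)) :
    ∏ x, max 1 ((FCountL X J P x).card : ℝ) ≤
      Real.exp (Fintype.card U * Real.log r - 3 * y * (Real.log r - Real.log ((k : ℝ) - 2))) := by
  classical
  have hk2 : ((k - 2 : ℕ) : ℝ) = (k : ℝ) - 2 := by
    rw [Nat.cast_sub (by omega)]
    norm_num
  have hk2' : (2 : ℝ) ≤ (k : ℝ) - 2 := by
    have : (4 : ℝ) ≤ k := by exact_mod_cast hk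
    linarith
  have hkr : (k : ℝ) - 2 ≤ r := by
    have : (k : ℝ) ≤ r := by exact_mod_cast hr
    linarith
  have hRQ : 0 ≤ Real.log r - Real.log ((k : ℝ) - 2) := by
    rw [sub_nonneg]
    exact Real.log_le_log (by linarith) hkr
  set Y : Finset U := J.biUnion X with hY
  have hterm : ∀ x, max 1 ((FCountL X J P x).card : ℝ) ≤
      Real.exp (if x ∈ Y then Real.log ((k : ℝ) - 2) else Real.log r) := by
    intro x
    split_ifs with hx
    · rw [Real.exp_log (by linarith)]
      rw [hY, Finset.mem_biUnion] at hx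
      obtain ⟨i, hi, hxi⟩ := hx
      refine max_le (by linarith) ?_
      rw [← hk2]
      have h1 : FCountL X J P x ⊆ P i := by
        intro c hc
        exact (FCount_mem X J P x c).1 hc i hi hxi
      exact_mod_cast (Finset.card_le_card h1).trans (hP i hi)
    · rw [Real.exp_log (by linarith)]
      refine max_le (by linarith) ?_
      have h1 := Finset.card_le_univ (FCountL X J P x)
      rw [Fintype.card_fin] at h1
      exact_mod_cast h1
  have hYc : 3 * y ≤ (Y.card : ℝ) := by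
    rw [hY, Finset.card_biUnion (fun i _ j _ hij => hX i j hij)]
    push_cast
    have h1 : (J.card : ℝ) * y ≤ ∑ i ∈ J, ((X i).card : ℝ) := by
      rw [← nsmul_eq_mul]
      exact Finset.card_nsmul_le_sum _ _ _ fun i _ => hXy i
    have h2 : (3 : ℝ) ≤ J.card := by exact_mod_cast hJ
    nlinarith
  calc ∏ x, max 1 ((FCountL X J P x).card : ℝ)
      ≤ ∏ x, Real.exp (if x ∈ Y then Real.log ((k : ℝ) - 2) else Real.log r) :=
        Finset.prod_le_prod (fun x _ => by positivity) fun x _ => hterm x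
    _ = Real.exp (∑ x, if x ∈ Y then Real.log ((k : ℝ) - 2) else Real.log r) :=
        (Real.exp_sum _ _).symm
    _ ≤ _ := by
        rw [Real.exp_le_exp]
        have h1 : ∀ x, (if x ∈ Y then Real.log ((k : ℝ) - 2) else Real.log r) =
            Real.log r - (if x ∈ Y then Real.log r - Real.log ((k : ℝ) - 2) else 0) := by
          intro x
          split_ifs <;> ring
        rw [Finset.sum_congr rfl fun x _ => h1 x, Finset.sum_sub_distrib, Finset.sum_const,
          Finset.sum_ite_mem, Finset.univ_inter, Finset.sum_const, nsmul_eq_mul, nsmul_eq_mul,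
          Finset.card_univ]
        have h2 := mul_le_mul_of_nonneg_right hYc hRQ
        linarith

/-- `β log (1/β) ≤ 2 δ` for `β ≤ δ²` -/
lemma FCount_log {β δ : ℝ} (hβ : 0 < β) (hδ : 0 < δ) (h : β ≤ δ ^ 2) :
    β * (-Real.log β) ≤ 2 * δ := by
  have h1 : 0 < Real.sqrt β := Real.sqrt_pos.2 hβ
  have h2 : Real.log (Real.sqrt β) = Real.log β / 2 := Real.log_sqrt hβ.le
  have h3 : Real.log (Real.sqrt β)⁻¹ ≤ (Real.sqrt β)⁻¹ := by
    have := Real.log_le_sub_one_of_pos (inv_pos.2 h1)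
    linarith
  rw [Real.log_inv, h2] at h3
  have h4 : -Real.log β ≤ 2 * (Real.sqrt β)⁻¹ := by linarith
  have h5 : β * (2 * (Real.sqrt β)⁻¹) = 2 * Real.sqrt β := by
    have h6 : β = Real.sqrt β * Real.sqrt β := (Real.mul_self_sqrt hβ.le).symm
    nth_rewrite 1 [h6]
    field_simp
  have h7 : Real.sqrt β ≤ δ := by
    rw [Real.sqrt_le_left hδ.le]
    exact h
  calc β * (-Real.log β) ≤ β * (2 * (Real.sqrt β)⁻¹) := mul_le_mul_of_nonneg_left h4 hβ.le
    _ = 2 * Real.sqrt β := h5
    _ ≤ 2 * δ := by linarith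

theorem star_count {k r : ℕ} (hk : 4 ≤ k) (hr : k ≤ r) (γ : ℝ) (hγ : 0 < γ) (βm : ℝ)
    (hβm : 0 < βm) : ∃ β > 0, β ≤ βm ∧ ∃ ε' > 0, ∃ n0 : ℕ, ∀ (U : Type) [Fintype U] [DecidableEq U] (n : ℕ)
      (X : Fin (k - 1) → Finset U), n0 ≤ n → Fintype.card U ≤ n →
      (∀ i j, i ≠ j → Disjoint (X i) (X j)) →
      (∀ i, (1 / ((k : ℝ) - 1) - ε') * n ≤ ((X i).card : ℝ)) →
      ({f : U → Fin r |
          StarSmall k ⌈β * (n : ℝ)⌉₊ X (fun x => some (f x))}.ncard : ℝ) ≤
        Real.exp (((((k : ℝ) - 4) * Real.log r + 3 * Real.log ((k : ℝ) - 2)) /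
          ((k : ℝ) - 1) + γ) * n) := by
  classical
  have hk4 : (4 : ℝ) ≤ k := by exact_mod_cast hk
  have hkr : (k : ℝ) ≤ r := by exact_mod_cast hr
  set R := Real.log r with hR
  set Q := Real.log ((k : ℝ) - 2) with hQ
  have hRQ : 0 ≤ R - Q := by
    rw [sub_nonneg]
    exact Real.log_le_log (by linarith) (by linarith)
  have hr0 : (0 : ℝ) < r := by linarith
  -- the choice of the parameters
  obtain ⟨δ, hδ⟩ : ∃ δ : ℝ, δ = min 1 (γ / (6 * k * r)) := ⟨_, rfl⟩
  have hδ0 : 0 < δ := by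
    rw [hδ]
    exact lt_min one_pos (by positivity)
  have hδ1 : δ ≤ 1 := by rw [hδ]; exact min_le_left _ _
  have hδγ : 6 * k * r * δ ≤ γ := by
    have h1 : δ ≤ γ / (6 * k * r) := by rw [hδ]; exact min_le_right _ _
    rwa [le_div_iff₀ (by positivity), mul_comm] at h1
  obtain ⟨β, hβ⟩ : ∃ β : ℝ, β = min βm (δ ^ 2) := ⟨_, rfl⟩
  have hβ0 : 0 < β := by
    rw [hβ]
    exact lt_min hβm (by positivity)
  have hββm : β ≤ βm := by rw [hβ]; exact min_le_left _ _
  have hβδ : β ≤ δ ^ 2 := by rw [hβ]; exact min_le_right _ _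
  have hβδ' : β ≤ δ := hβδ.trans (by nlinarith)
  have hβ1 : β ≤ 1 := hβδ'.trans hδ1
  obtain ⟨ε, hε⟩ : ∃ ε : ℝ, ε = min (1 / ((k : ℝ) - 1)) (γ / (9 * (R - Q + 1))) := ⟨_, rfl⟩
  have hε0 : 0 < ε := by
    rw [hε]
    exact lt_min (one_div_pos.2 (by linarith)) (by positivity)
  have hε1 : ε ≤ 1 / ((k : ℝ) - 1) := by rw [hε]; exact min_le_left _ _
  have hεγ : 3 * ε * (R - Q) ≤ γ / 3 := by
    have h1 : ε ≤ γ / (9 * (R - Q + 1)) := by rw [hε]; exact min_le_right _ _
    rw [le_div_iff₀ (by positivity)] at h1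
    nlinarith
  obtain ⟨C0, hC0⟩ : ∃ C0 : ℝ, C0 = ((k : ℝ) - 1) * (1 + r) * Real.log 2 +
    ((k : ℝ) - 1) * r * (-Real.log β) := ⟨_, rfl⟩
  refine ⟨β, hβ0, hββm, ε, hε0, ⌈3 * C0 / γ⌉₊, ?_⟩
  intro U _ _ n X hn hU hX hXn
  have hnC : C0 ≤ γ / 3 * n := by
    have h1 : 3 * C0 / γ ≤ n := (Nat.le_ceil _).trans (by exact_mod_cast hn)
    rw [div_le_iff₀ hγ] at h1
    linarith
  have hn0 : (0 : ℝ) ≤ n := Nat.cast_nonneg n
  have hlogβ : 0 ≤ -Real.log β := by
    have := Real.log_nonpos hβ0.le hβ1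
    linarith
  obtain ⟨N, hN⟩ : ∃ N, N = ⌈β * (n : ℝ)⌉₊ := ⟨_, rfl⟩
  have hNle : (N : ℝ) ≤ β * n + 1 := by
    rw [hN]
    exact (Nat.ceil_lt_add_one (by positivity)).le
  rw [← hN]
  -- the index set
  let Idx : Finset (Finset (Fin (k - 1)) × (Fin (k - 1) → Finset (Fin r))) :=
    univ.filter fun JP => 3 ≤ JP.1.card ∧ ∀ i ∈ JP.1, (JP.2 i).card ≤ k - 2
  let q : ℝ := (((k - 1) * (r * N) : ℕ) : ℝ)
  have hsub : (univ.filter fun f : U → Fin r => StarSmall k N X (fun x => some (f x))) ⊆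
      Idx.biUnion fun JP => univ.filter fun f : U → Fin r =>
        ({e | f e ∉ FCountL X JP.1 JP.2 e}.ncard : ℝ) ≤ q := by
    intro f hf
    rw [Finset.mem_filter] at hf
    obtain ⟨J, hJ3, hJ⟩ := hf.2
    rw [Finset.mem_biUnion]
    refine ⟨(J, fun i => univ.filter fun c => N ≤ #{x ∈ X i | f x = c}), ?_, ?_⟩
    · simp only [Idx, Finset.mem_filter, Finset.mem_univ, true_and]
      refine ⟨hJ3, fun i hi => ?_⟩
      have h1 := hJ i hi
      unfold popN at h1
      simpa using h1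
    · rw [Finset.mem_filter]
      refine ⟨Finset.mem_univ _, ?_⟩
      have h1 := FCount_exc (N := N) X J (fun i => univ.filter fun c => N ≤ #{x ∈ X i | f x = c}) f
        (by
          intro i _ c hc
          simp only [Finset.mem_filter, Finset.mem_univ, true_and, not_le] at hc
          exact hc.le)
      exact Nat.cast_le.2 h1
  have hy : 0 ≤ (1 / ((k : ℝ) - 1) - ε) * n := mul_nonneg (by linarith) hn0
  have hB : ∀ JP ∈ Idx, (((univ.filter fun f : U → Fin r =>
      ({e | f e ∉ FCountL X JP.1 JP.2 e}.ncard : ℝ) ≤ q).card : ℕ) : ℝ) ≤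
      β ^ (-q) * (1 + β * r) ^ (Fintype.card U) *
        Real.exp (Fintype.card U * R - 3 * ((1 / ((k : ℝ) - 1) - ε) * n) * (R - Q)) := by
    intro JP hJP
    simp only [Idx, Finset.mem_filter, Finset.mem_univ, true_and] at hJP
    have h1 := few_exceptions r (FCountL X JP.1 JP.2) q β hβ0 hβ1
    have h2 := FCount_prod (m := k - 1) hk hr X JP.1 JP.2 hJP.2 hX
      ((1 / ((k : ℝ) - 1) - ε) * n) hy hJP.1 hXn
    have h3 : (((univ.filter fun f : U → Fin r =>
        ({e | f e ∉ FCountL X JP.1 JP.2 e}.ncard : ℝ) ≤ q).card : ℕ) : ℝ) =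
        (({F : U → Fin r | ({e | F e ∉ FCountL X JP.1 JP.2 e}.ncard : ℝ) ≤ q}.ncard : ℕ) : ℝ) := by
      rw [Set.ncard_eq_toFinset_card']
      congr 2
      ext f
      simp
    rw [h3]
    refine h1.trans (mul_le_mul_of_nonneg_left h2 ?_)
    have : 0 ≤ β ^ (-q) := Real.rpow_nonneg hβ0.le _
    positivity
  have hcard : (({f : U → Fin r | StarSmall k N X (fun x => some (f x))}.ncard : ℕ) : ℝ) ≤
      (Idx.card : ℝ) * (β ^ (-q) * (1 + β * r) ^ (Fintype.card U) *
        Real.exp (Fintype.card U * R - 3 * ((1 / ((k : ℝ) - 1) - ε) * n) * (R - Q))) := by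
    have h1 : {f : U → Fin r | StarSmall k N X (fun x => some (f x))}.ncard =
        (univ.filter fun f : U → Fin r => StarSmall k N X (fun x => some (f x))).card := by
      rw [Set.ncard_eq_toFinset_card']
      congr 1
      ext f
      simp
    rw [h1]
    have h2 := (Finset.card_le_card hsub).trans Finset.card_biUnion_le
    have h3 : (((univ.filter fun f : U → Fin r =>
        StarSmall k N X (fun x => some (f x))).card : ℕ) : ℝ) ≤
        ∑ JP ∈ Idx, (((univ.filter fun f : U → Fin r =>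
          ({e | f e ∉ FCountL X JP.1 JP.2 e}.ncard : ℝ) ≤ q).card : ℕ) : ℝ) := by
      exact_mod_cast h2
    refine h3.trans ?_
    rw [← nsmul_eq_mul]
    exact Finset.sum_le_card_nsmul _ _ _ hB
  refine hcard.trans ?_
  have hIdx : (Idx.card : ℝ) ≤ Real.exp (((k : ℝ) - 1) * (1 + r) * Real.log 2) := by
    have h1 : Idx.card ≤ 2 ^ ((k - 1) * (1 + r)) := by
      refine (Finset.card_le_univ _).trans (le_of_eq ?_)
      rw [Fintype.card_prod, Fintype.card_finset, Fintype.card_fin, Fintype.card_fun,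
        Fintype.card_finset, Fintype.card_fin, Fintype.card_fin, ← pow_mul, ← pow_add]
      congr 1
      ring
    have h2 : Real.exp (((k : ℝ) - 1) * (1 + r) * Real.log 2) =
        ((2 ^ ((k - 1) * (1 + r)) : ℕ) : ℝ) := by
      push_cast
      rw [← Real.rpow_natCast, Real.rpow_def_of_pos (by norm_num)]
      congr 1
      rw [Nat.cast_mul, Nat.cast_sub (by omega)]
      push_cast
      ring
    rw [h2]
    exact_mod_cast h1
  have hq : q ≤ ((k : ℝ) - 1) * (r * (β * n + 1)) := by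
    have h1 : q = ((k : ℝ) - 1) * (r * N) := by
      simp only [q]
      rw [Nat.cast_mul, Nat.cast_sub (by omega)]
      push_cast
      ring
    rw [h1]
    refine mul_le_mul_of_nonneg_left ?_ (by linarith)
    exact mul_le_mul_of_nonneg_left hNle hr0.le
  have hβq : β ^ (-q) ≤ Real.exp (((k : ℝ) - 1) * (r * (β * n + 1)) * (-Real.log β)) := by
    rw [Real.rpow_def_of_pos hβ0, Real.exp_le_exp]
    have := mul_le_mul_of_nonneg_right hq hlogβ
    linarith
  have hpow : (1 + β * r) ^ (Fintype.card U) ≤ Real.exp (β * r * n) := by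
    have h1 : 1 + β * r ≤ Real.exp (β * r) := by
      have := Real.add_one_le_exp (β * r)
      linarith
    calc (1 + β * r) ^ (Fintype.card U) ≤ Real.exp (β * r) ^ (Fintype.card U) :=
          pow_le_pow_left₀ (by positivity) h1 _
      _ = Real.exp (Fintype.card U * (β * r)) := (Real.exp_nat_mul _ _).symm
      _ ≤ Real.exp (β * r * n) := by
          rw [Real.exp_le_exp, mul_comm]
          refine mul_le_mul_of_nonneg_left ?_ (by positivity)
          exact_mod_cast hU
  have hRpos : 0 ≤ R := Real.log_nonneg (by linarith)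
  have hexp : Real.exp (Fintype.card U * R - 3 * ((1 / ((k : ℝ) - 1) - ε) * n) * (R - Q)) ≤
      Real.exp (n * R - 3 * ((1 / ((k : ℝ) - 1) - ε) * n) * (R - Q)) := by
    rw [Real.exp_le_exp]
    have h1 : (Fintype.card U : ℝ) ≤ n := by exact_mod_cast hU
    have := mul_le_mul_of_nonneg_right h1 hRpos
    linarith
  calc (Idx.card : ℝ) * (β ^ (-q) * (1 + β * r) ^ (Fintype.card U) *
        Real.exp (Fintype.card U * R - 3 * ((1 / ((k : ℝ) - 1) - ε) * n) * (R - Q)))
      ≤ Real.exp (((k : ℝ) - 1) * (1 + r) * Real.log 2) *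
        (Real.exp (((k : ℝ) - 1) * (r * (β * n + 1)) * (-Real.log β)) *
          Real.exp (β * r * n) *
          Real.exp (n * R - 3 * ((1 / ((k : ℝ) - 1) - ε) * n) * (R - Q))) := by
        have hβq0 : 0 ≤ β ^ (-q) := Real.rpow_nonneg hβ0.le _
        gcongr
    _ = Real.exp (((k : ℝ) - 1) * (1 + r) * Real.log 2 +
          (((k : ℝ) - 1) * (r * (β * n + 1)) * (-Real.log β) + β * r * n +
          (n * R - 3 * ((1 / ((k : ℝ) - 1) - ε) * n) * (R - Q)))) := by
        rw [Real.exp_add, Real.exp_add, Real.exp_add]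
    _ ≤ _ := by
        rw [Real.exp_le_exp]
        have h1 := FCount_log hβ0 hδ0 hβδ
        have h2 : ((k : ℝ) - 1) * r * (β * (-Real.log β)) + β * r ≤ γ / 3 := by
          have h3 : ((k : ℝ) - 1) * r * (β * (-Real.log β)) ≤ ((k : ℝ) - 1) * r * (2 * δ) :=
            mul_le_mul_of_nonneg_left h1 (mul_nonneg (by linarith) hr0.le)
          have h4 : β * r ≤ δ * r := mul_le_mul_of_nonneg_right hβδ' hr0.le
          have h5 : ((k : ℝ) - 1) * r * (2 * δ) + δ * r ≤ 2 * k * r * δ := by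
            have : 0 ≤ δ * r := by positivity
            nlinarith
          linarith
        have h3 := mul_le_mul_of_nonneg_right h2 hn0
        have h4 := mul_le_mul_of_nonneg_right hεγ hn0
        have hk1 : (k : ℝ) - 1 ≠ 0 := by linarith
        have h5 : ((((k : ℝ) - 4) * R + 3 * Q) / ((k : ℝ) - 1) + γ) * n =
            n * R - 3 * (1 / ((k : ℝ) - 1) * n) * (R - Q) + γ * n := by
          field_simp
          ring
        rw [h5]
        have h6 : ((k : ℝ) - 1) * (1 + r) * Real.log 2 +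
            (((k : ℝ) - 1) * (r * (β * n + 1)) * (-Real.log β) + β * r * n +
            (n * R - 3 * ((1 / ((k : ℝ) - 1) - ε) * n) * (R - Q))) =
            C0 + (((k : ℝ) - 1) * r * (β * (-Real.log β)) + β * r) * n + 3 * ε * (R - Q) * n +
            (n * R - 3 * (1 / ((k : ℝ) - 1) * n) * (R - Q)) := by
          rw [hC0]
          ring
        rw [h6]
        linarith

end MP2ab38c
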