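import Pool.Agent.Lib.MP_2ab38c_co.Core

namespace MP2ab38c

open Finset

/-- every transversal box with sides at least `N` contains every colour pattern of `K_{k-1}` -/
def GoodF {V : Type} {k r : ℕ} {G : SimpleGraph V} (X : Fin (k - 1) → Finset V) (N : ℕ)
    (F : G.edgeSet → Fin r) : Prop :=
  ∀ A : Fin (k - 1) → Finset V, (∀ i, A i ⊆ X i) → (∀ i, N ≤ (A i).card) →
    ∀ g : Sym2 (Fin (k - 1)) → Fin r, ∃ a : Fin (k - 1) → V, (∀ i, a i ∈ A i) ∧
      ∀ i j, i ≠ j → ext F s(a i, a j) = some (g s(i, j))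

/-- the number of colours used at least `N` times by `f` on `X` -/
def popN {U : Type} {r : ℕ} (X : Finset U) (N : ℕ) (f : U → Option (Fin r)) : ℕ :=
  #{c : Fin r | N ≤ #{x ∈ X | f x = some c}}

/-- at least three of the sets `X i` have at most `k-2` popular colours -/
def StarSmall {U : Type} {r : ℕ} (k N : ℕ) (X : Fin (k - 1) → Finset U)
    (f : U → Option (Fin r)) : Prop :=
  ∃ J : Finset (Fin (k - 1)), 3 ≤ J.card ∧ ∀ i ∈ J, popN (X i) N f ≤ k - 2

end MP2ab38c
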