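import Pool.Agent.Lib.MP_2ab38c_co.Core

/-!
JOB ZIso.  Isomorphism invariance of `cA` and elementary facts on `cmax`
(`SimpleGraph (Fin n)` is finite, so the supremum is a maximum).
-/

namespace MP2ab38c

open Finset

lemma ZIso_ext {V V' : Type} {r : ℕ} {G : SimpleGraph V} {H : SimpleGraph V'} (e : G ≃g H)
    (F : G.edgeSet → Fin r) (s : Sym2 V) :
    ext (G := H) (fun x => F (e.mapEdgeSet.symm x)) (s.map e) = ext F s := by
  classical
  unfold ext
  have key : s.map e ∈ H.edgeSet ↔ s ∈ G.edgeSet := by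
    induction s using Sym2.ind with
    | _ x y =>
      simp only [Sym2.map_mk, SimpleGraph.mem_edgeSet]
      exact e.map_adj_iff
  by_cases h : s ∈ G.edgeSet
  · have h' : s.map e ∈ H.edgeSet := key.2 h
    rw [dif_pos h, dif_pos h']
    have h2 : e.mapEdgeSet.symm ⟨s.map e, h'⟩ = ⟨s, h⟩ := by
      rw [Equiv.symm_apply_eq]
      apply Subtype.ext
      rfl
    change some (F (e.mapEdgeSet.symm ⟨s.map e, h'⟩)) = some (F ⟨s, h⟩)
    rw [h2]
  · have h' : ¬ s.map e ∈ H.edgeSet := fun h' => h (key.1 h')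
    rw [dif_neg h, dif_neg h']

lemma ZIso_free {V V' : Type} {k r : ℕ} {G : SimpleGraph V} {H : SimpleGraph V'} (e : G ≃g H)
    (F : G.edgeSet → Fin r) (hF : PAFree k H (fun x => F (e.mapEdgeSet.symm x))) :
    PAFree k G F := by
  rintro ⟨v, hv, h1⟩
  refine hF ⟨fun a => e (v a), fun a b hab => e.map_adj_iff.2 (hv a b hab), ?_⟩
  have h2 : (fun s : Sym2 (Fin k) => ext (G := H) (fun x => F (e.mapEdgeSet.symm x))
      (s.map fun a => e (v a))) = fun s => ext F (s.map v) := by
    funext s
    have : (s.map fun a => e (v a)) = (s.map v).map e := by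
      rw [Sym2.map_map]
      rfl
    rw [this, ZIso_ext]
  rw [h2]
  exact h1

theorem cA_iso {V V' : Type} {k r : ℕ} {G : SimpleGraph V} {H : SimpleGraph V'} (e : G ≃g H) :
    cA k r G = cA k r H := by
  unfold cA
  apply Nat.card_congr
  refine Equiv.subtypeEquiv (Equiv.arrowCongr e.mapEdgeSet (Equiv.refl (Fin r))) ?_
  intro F
  have h0 : (Equiv.arrowCongr e.mapEdgeSet (Equiv.refl (Fin r))) F =
      fun x => F (e.mapEdgeSet.symm x) := by
    funext x
    rfl
  rw [h0]
  constructor
  · intro hF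
    apply ZIso_free e.symm
    have h1 : (fun x => (fun y => F (e.mapEdgeSet.symm y)) (e.symm.mapEdgeSet.symm x)) = F := by
      funext x
      have h2 : e.mapEdgeSet.symm (e.symm.mapEdgeSet.symm x) = x := by
        rw [Equiv.symm_apply_eq, Equiv.symm_apply_eq]
        apply Subtype.ext
        change x.1 = Sym2.map e.symm (Sym2.map e x.1)
        rw [Sym2.map_map]
        have h3 : (e.symm ∘ e : V → V) = id := by
          funext a
          simp
        rw [h3, Sym2.map_id]
        rfl
      change F (e.mapEdgeSet.symm (e.symm.mapEdgeSet.symm x)) = F x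
      rw [h2]
    rw [h1]
    exact hF
  · exact ZIso_free e F

lemma ZIso_bdd (k r n : ℕ) : BddAbove (Set.range fun G : SimpleGraph (Fin n) => cA k r G) :=
  (Set.finite_range _).bddAbove

theorem cA_le_cmax {V : Type} [Fintype V] (k r : ℕ) (G : SimpleGraph V) :
    cA k r G ≤ cmax k r (Fintype.card V) := by
  rw [cA_iso (k := k) (r := r) (SimpleGraph.Iso.map (Fintype.equivFin V) G)]
  exact le_csSup (ZIso_bdd k r _) ⟨_, rfl⟩

theorem exists_cmax (k r n : ℕ) : ∃ G : SimpleGraph (Fin n), cA k r G = cmax k r n := by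
  have h := Nat.sSup_mem (Set.range_nonempty fun G : SimpleGraph (Fin n) => cA k r G)
    (ZIso_bdd k r n)
  exact h

end MP2ab38c
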