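import Pool.Agent.Lib.MP_2ab38c_co.FStar
import Pool.Agent.Lib.MP_2ab38c_co.ZIso

/-!
JOB FStep.  Removing the vertex `v`.

Proof.  A colouring `F` of `mp π` is determined by its restriction to the graph
`mp (fun x : {x // x ≠ v} => π x)` on the other vertices and by the star function
`f x = F(v x)` on `U = {x // π v ≠ π x}`.  If `F` is cherry-free and good then the restriction is
cherry-free (a bad tuple of the restriction is a bad tuple), so there are at most
`cmax k r (|V|-1)` restrictions (`cA_le_cmax`), and the star function satisfies `StarSmall` by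
`star_small` (`popN` over `X i` of `x ↦ ext F s(v,x)` and over `(X i).subtype` of `some ∘ f`
agree).
-/

namespace MP2ab38c

open Finset

private lemma FStep_mem {V ι : Type} (π : V → ι) (v : V) (e : Sym2 {x : V // x ≠ v}) :
    e ∈ (mp (fun x : {x : V // x ≠ v} => π x.1)).edgeSet ↔
      e.map Subtype.val ∈ (mp π).edgeSet := by
  induction e using Sym2.ind with
  | _ a b => simp [mp_adj]

/-- the restriction of the colouring -/
private noncomputable def FStep_res {r : ℕ} {V ι : Type} (π : V → ι) (v : V)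
    (F : (mp π).edgeSet → Fin r) :
    (mp (fun x : {x : V // x ≠ v} => π x.1)).edgeSet → Fin r :=
  fun e => F ⟨e.1.map Subtype.val, (FStep_mem π v e.1).1 e.2⟩

/-- the star function -/
private noncomputable def FStep_star {r : ℕ} {V ι : Type} (π : V → ι) (v : V)
    (F : (mp π).edgeSet → Fin r) : {x : V // π v ≠ π x} → Fin r :=
  fun x => F ⟨s(v, x.1), x.2⟩

private lemma FStep_ext {r : ℕ} {V ι : Type} (π : V → ι) (v : V)
    (F : (mp π).edgeSet → Fin r) (e : Sym2 {x : V // x ≠ v}) :
    ext (FStep_res π v F) e = ext F (e.map Subtype.val) := by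
  unfold ext
  by_cases h : e ∈ (mp (fun x : {x : V // x ≠ v} => π x.1)).edgeSet
  · rw [dif_pos h, dif_pos ((FStep_mem π v e).1 h)]
    rfl
  · rw [dif_neg h, dif_neg (fun h' => h ((FStep_mem π v e).2 h'))]

private lemma FStep_paf {k r : ℕ} {V ι : Type} (π : V → ι) (v : V)
    (F : (mp π).edgeSet → Fin r) (hF : PAFree k (mp π) F) :
    PAFree k (mp (fun x : {x : V // x ≠ v} => π x.1)) (FStep_res π v F) := by
  rintro ⟨w, hw1, hw2⟩
  apply hF
  refine ⟨fun a => (w a).1, fun a b hab => hw1 a b hab, ?_⟩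
  have h : (fun e : Sym2 (Fin k) => ext F (e.map (fun a => (w a).1))) =
      (fun e => ext (FStep_res π v F) (e.map w)) := by
    funext e
    rw [FStep_ext, Sym2.map_map]
    rfl
  rw [h]
  exact hw2

private lemma FStep_inj {r : ℕ} {V ι : Type} [DecidableEq V] (π : V → ι) (v : V)
    (F F' : (mp π).edgeSet → Fin r) (h1 : FStep_res π v F = FStep_res π v F')
    (h2 : FStep_star π v F = FStep_star π v F') : F = F' := by
  funext ⟨e, he⟩
  induction e using Sym2.ind with
  | _ a b =>
    have hab : π a ≠ π b := he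
    by_cases ha : a = v
    · subst ha
      exact congrFun h2 ⟨b, hab⟩
    · by_cases hb : b = v
      · subst hb
        have h3 := congrFun h2 ⟨a, hab.symm⟩
        have h4 : (⟨s(a, b), he⟩ : (mp π).edgeSet) =
            ⟨s(b, a), (show (mp π).Adj b a from hab.symm)⟩ := by
          apply Subtype.ext
          exact Sym2.eq_swap
        rw [h4]
        exact h3
      · exact congrFun h1 ⟨s(⟨a, ha⟩, ⟨b, hb⟩), hab⟩

private lemma FStep_pop {r : ℕ} {V ι : Type} [DecidableEq V] [DecidableEq ι] (π : V → ι) (v : V)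
    (F : (mp π).edgeSet → Fin r) (X : Finset V) (hX : ∀ u ∈ X, π v ≠ π u) (N : ℕ) :
    popN (X.subtype (fun x => π v ≠ π x)) N (fun x => some (FStep_star π v F x)) =
      popN X N (fun x => ext F s(v, x)) := by
  unfold popN
  congr 1
  apply Finset.filter_congr
  intro c _
  have h1 : #{x ∈ X.subtype (fun x => π v ≠ π x) | some (FStep_star π v F x) = some c} =
      #{x ∈ X | ext F s(v, x) = some c} := by
    apply Finset.card_bij (fun x _ => x.1)
    · intro x hx
      rw [mem_filter, mem_subtype] at hx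
      rw [mem_filter]
      refine ⟨hx.1, ?_⟩
      unfold ext
      rw [dif_pos (show s(v, x.1) ∈ (mp π).edgeSet from x.2)]
      exact hx.2
    · intro x _ y _ hxy
      exact Subtype.ext hxy
    · intro x hx
      rw [mem_filter] at hx
      refine ⟨⟨x, hX x hx.1⟩, ?_, rfl⟩
      rw [mem_filter, mem_subtype]
      refine ⟨hx.1, ?_⟩
      have h2 := hx.2
      unfold ext at h2
      rw [dif_pos (show s(v, x) ∈ (mp π).edgeSet from hX x hx.1)] at h2
      exact h2
  rw [h1]

theorem step_count {k r : ℕ} (hk : 4 ≤ k) (hr : k.choose 2 ≤ r) {V ι : Type} [Fintype V]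
    [DecidableEq V] [DecidableEq ι] (π : V → ι) (X : Fin (k - 1) → Finset V)
    (hX : ∀ i j, i ≠ j → ∀ u ∈ X i, ∀ u' ∈ X j, π u ≠ π u') (v : V)
    (hv : ∀ i, ∀ u ∈ X i, π v ≠ π u) (N : ℕ) (hN1 : 1 ≤ N) (hN : ∀ i, r * N ≤ (X i).card) :
    {F : (mp π).edgeSet → Fin r | PAFree k (mp π) F ∧ GoodF (k := k) X N F}.ncard ≤
      cmax k r (Fintype.card V - 1) *
        {f : {x : V // π v ≠ π x} → Fin r | StarSmall k N
          (fun i => (X i).subtype (fun x => π v ≠ π x)) (fun x => some (f x))}.ncard := by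
  classical
  have h1 : {F : (mp π).edgeSet → Fin r | PAFree k (mp π) F ∧ GoodF (k := k) X N F}.ncard ≤
      ({F' : (mp (fun x : {x : V // x ≠ v} => π x.1)).edgeSet → Fin r |
        PAFree k (mp (fun x : {x : V // x ≠ v} => π x.1)) F'} ×ˢ
      {f : {x : V // π v ≠ π x} → Fin r | StarSmall k N
          (fun i => (X i).subtype (fun x => π v ≠ π x)) (fun x => some (f x))}).ncard := by
    apply Set.ncard_le_ncard_of_injOn (fun F => (FStep_res π v F, FStep_star π v F))
    · rintro F ⟨hF1, hF2⟩
      refine ⟨FStep_paf π v F hF1, ?_⟩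
      obtain ⟨J, hJ1, hJ2⟩ := star_small hk hr π X hX v hv F hF1 N hF2 hN1 hN
      refine ⟨J, hJ1, fun i hi => ?_⟩
      rw [FStep_pop π v F (X i) (hv i) N]
      exact hJ2 i hi
    · intro F _ F' _ h
      exact FStep_inj π v F F' (congrArg Prod.fst h) (congrArg Prod.snd h)
  rw [Set.ncard_prod] at h1
  refine le_trans h1 (Nat.mul_le_mul_right _ ?_)
  have h2 := cA_le_cmax k r (mp (fun x : {x : V // x ≠ v} => π x.1))
  have h3 : Fintype.card {x : V // x ≠ v} = Fintype.card V - 1 := by
    rw [Fintype.card_subtype_compl, Fintype.card_subtype_eq]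
  rw [h3] at h2
  exact h2

end MP2ab38c
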