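import Pool.Agent.Lib.MP_2ab38c_co.Core

/-!
JOB ZCS.  Zykov symmetrisation by Cauchy-Schwarz.  (`G.replaceVertex s t` of Mathlib: `t` forgets
its neighbours and gets those of `s`.)

Proof.  `u ≠ v` nonadjacent.  A colouring of `G` is the same as a triple `(F0, f_u, f_v)`, `F0` the
colouring of the edges not meeting `{u, v}`, `f_u`, `f_v` the colourings of the edges at `u`, `v`.
A `K_k` contains at most one of `u`, `v` (not adjacent), so the colouring is cherry-free iff both
`(F0, f_u)` (on `V \ v`) and `(F0, f_v)` (on `V \ u`) are.  So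
`cA G = ∑_{F0} a(F0) b(F0)`, with `a(F0)` the number of good `f_u`, `b(F0)` the number of good
`f_v`.  In `G.replaceVertex u v` (v becomes a copy of u) the same count gives `∑ a(F0)^2`, in
`G.replaceVertex v u` it gives `∑ b(F0)^2`.  Cauchy-Schwarz.
It may be convenient to work with `F : Sym2 V → Option (Fin r)` with `(F e).isSome ↔ e ∈ G.edgeSet`,
or with `Sym2`-functions supported on edges.
-/

namespace MP2ab38c

open Finset SimpleGraph

section ZCS

variable {V : Type} {r : ℕ}

/-- a colouring of pairs without cherry coloured `K_k` -/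
def ZCS_Free (k : ℕ) (c : Sym2 V → Option (Fin r)) : Prop :=
  ¬ ∃ p : Fin k → V, (∀ a b, a ≠ b → (c s(p a, p b)).isSome) ∧
    OneAdj (univ : Finset (Fin k)) (fun e => c (e.map p))

theorem ZCS_ext_isSome {G : SimpleGraph V} (F : G.edgeSet → Fin r) (e : Sym2 V) :
    (ext F e).isSome ↔ e ∈ G.edgeSet := by
  unfold ext
  split_ifs with h
  · simp [h]
  · simp [h]

theorem ZCS_free_ext {G : SimpleGraph V} (k : ℕ) (F : G.edgeSet → Fin r) :
    PAFree k G F ↔ ZCS_Free k (ext F) := by
  unfold PAFree ZCS_Free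
  simp only [ZCS_ext_isSome, SimpleGraph.mem_edgeSet]

theorem ZCS_cA_eq (k : ℕ) (G : SimpleGraph V) : cA k r G =
    Nat.card {c : Sym2 V → Option (Fin r) //
      (∀ e, (c e).isSome ↔ e ∈ G.edgeSet) ∧ ZCS_Free k c} := by
  unfold cA
  refine Nat.card_congr (Equiv.ofBijective (fun F => ⟨ext F.1, fun e => ZCS_ext_isSome _ e,
    (ZCS_free_ext k F.1).1 F.2⟩) ⟨?_, ?_⟩)
  · intro F F' h
    have h1 : ext F.1 = ext F'.1 := congrArg Subtype.val h
    apply Subtype.ext
    funext e
    have h2 := congrFun h1 e.1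
    unfold ext at h2
    rw [dif_pos e.2, dif_pos e.2] at h2
    exact Option.some.inj h2
  · rintro ⟨c, hc, hf⟩
    have key : ext (fun e : G.edgeSet => (c e.1).get ((hc e.1).2 e.2)) = c := by
      funext e
      unfold ext
      split_ifs with h
      · simp
      · have : ¬ (c e).isSome := fun h' => h ((hc e).1 h')
        rw [Option.not_isSome_iff_eq_none] at this
        exact this.symm
    refine ⟨⟨fun e => (c e.1).get ((hc e.1).2 e.2), ?_⟩, ?_⟩
    · rw [ZCS_free_ext, key]
      exact hf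
    · exact Subtype.ext key

/-- relabelling -/
theorem ZCS_free_map (k : ℕ) (σ : Equiv.Perm V) (c : Sym2 V → Option (Fin r))
    (h : ZCS_Free k c) : ZCS_Free k (fun e => c (e.map σ)) := by
  rintro ⟨p, hp, ho⟩
  refine h ⟨σ ∘ p, fun a b hab => ?_, ?_⟩
  · have := hp a b hab
    simpa using this
  · have e1 : (fun e : Sym2 (Fin k) => c (e.map (σ ∘ p))) =
        fun e => c ((e.map p).map σ) := by
      funext e
      rw [Sym2.map_map]
    rw [e1]
    exact ho

variable [DecidableEq V]

/-- colour the pairs at `w` by `f` -/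
def ZCS_glue (w : V) (c : Sym2 V → Option (Fin r)) (f : V → Option (Fin r)) :
    Sym2 V → Option (Fin r) :=
  Sym2.lift ⟨fun x y => if x = w then f y else if y = w then f x else c s(x, y), by
    intro x y
    by_cases hx : x = w
    · by_cases hy : y = w
      · simp [hx, hy]
      · simp [hx, hy]
    · by_cases hy : y = w
      · simp [hx, hy]
      · simp only [hx, hy, if_false]
        rw [Sym2.eq_swap]⟩

theorem ZCS_glue_mk (w : V) (c : Sym2 V → Option (Fin r)) (f : V → Option (Fin r)) (x y : V) :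
    ZCS_glue w c f s(x, y) = if x = w then f y else if y = w then f x else c s(x, y) := rfl

/-- forget the pairs at `w` -/
def ZCS_del (w : V) (c : Sym2 V → Option (Fin r)) : Sym2 V → Option (Fin r) :=
  fun e => if w ∈ e then none else c e

theorem ZCS_free_del (k : ℕ) (hk : 2 ≤ k) (w : V) (c : Sym2 V → Option (Fin r))
    (h : ZCS_Free k c) : ZCS_Free k (ZCS_del w c) := by
  rintro ⟨p, hp, ho⟩
  have hw : ∀ a, p a ≠ w := by
    intro a ha
    obtain ⟨b, hb⟩ : ∃ b : Fin k, a ≠ b := by
      have : Nontrivial (Fin k) := Fin.nontrivial_iff_two_le.2 hk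
      obtain ⟨b, hb⟩ := exists_ne a
      exact ⟨b, hb.symm⟩
    have h1 := hp a b hb
    unfold ZCS_del at h1
    rw [if_pos (by simp [ha])] at h1
    simp at h1
  have e1 : (fun e : Sym2 (Fin k) => ZCS_del w c (e.map p)) = fun e => c (e.map p) := by
    funext e
    unfold ZCS_del
    rw [if_neg]
    intro h1
    rw [Sym2.mem_map] at h1
    obtain ⟨a, -, ha⟩ := h1
    exact hw a ha
  rw [e1] at ho
  refine h ⟨p, fun a b hab => ?_, ho⟩
  have h1 := hp a b hab
  unfold ZCS_del at h1
  rw [if_neg (by simp [(hw a).symm, (hw b).symm])] at h1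
  exact h1

theorem ZCS_free_of_del (k : ℕ) {u v : V} (huv : u ≠ v) (c : Sym2 V → Option (Fin r))
    (hc : c s(u, v) = none) (h1 : ZCS_Free k (ZCS_del u c)) (h2 : ZCS_Free k (ZCS_del v c)) :
    ZCS_Free k c := by
  rintro ⟨p, hp, ho⟩
  have key : ∀ w : V, (∀ a, p a ≠ w) → ¬ ZCS_Free k (ZCS_del w c) := by
    intro w hw h
    have e1 : (fun e : Sym2 (Fin k) => ZCS_del w c (e.map p)) = fun e => c (e.map p) := by
      funext e
      unfold ZCS_del
      rw [if_neg]
      intro h1
      rw [Sym2.mem_map] at h1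
      obtain ⟨a, -, ha⟩ := h1
      exact hw a ha
    refine h ⟨p, fun a b hab => ?_, ?_⟩
    · have h1 := hp a b hab
      unfold ZCS_del
      rw [if_neg (by simp [(hw a).symm, (hw b).symm])]
      exact h1
    · rw [e1]
      exact ho
  by_cases hu : ∀ a, p a ≠ u
  · exact key u hu h1
  · by_cases hv : ∀ a, p a ≠ v
    · exact key v hv h2
    · push Not at hu hv
      obtain ⟨a, ha⟩ := hu
      obtain ⟨b, hb⟩ := hv
      have hab : a ≠ b := by
        rintro rfl
        exact huv (ha.symm.trans hb)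
      have h3 := hp a b hab
      rw [ha, hb, hc] at h3
      simp at h3

/-- support of the base colouring -/
def ZCS_supp (H : SimpleGraph V) (u v : V) (c : Sym2 V → Option (Fin r)) : Prop :=
  ∀ e, (c e).isSome ↔ (e ∈ H.edgeSet ∧ u ∉ e ∧ v ∉ e)

/-- the number of extensions at `w` -/
noncomputable def ZCS_cnt (k : ℕ) (w : V) (N : V → Prop) (c : Sym2 V → Option (Fin r)) : ℕ :=
  Nat.card {f : V → Option (Fin r) // (∀ x, (f x).isSome ↔ N x) ∧ ZCS_Free k (ZCS_glue w c f)}

theorem ZCS_none_of {o : Option (Fin r)} {P : Prop} (h : o.isSome ↔ P) (hP : ¬ P) : o = none := by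
  rw [← Option.not_isSome_iff_eq_none]
  exact fun h' => hP (h.1 h')

theorem ZCS_mem (w x y : V) : w ∈ s(x, y) ↔ (x = w ∨ y = w) := by
  rw [Sym2.mem_iff, eq_comm, eq_comm (a := w) (b := y)]

/-- the data of a decomposition -/
structure ZCS_data (u v : V) (c : Sym2 V → Option (Fin r)) (f g : V → Option (Fin r)) : Prop where
  huv : u ≠ v
  cu : ∀ y, c s(u, y) = none
  cu' : ∀ y, c s(y, u) = none
  cv : ∀ y, c s(v, y) = none
  cv' : ∀ y, c s(y, v) = none
  fu : f u = none
  fv : f v = none
  gu : g u = none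
  gv : g v = none

theorem ZCS_supp_data {H : SimpleGraph V} {u v : V} (huv : u ≠ v) (hn : ¬ H.Adj u v)
    {c : Sym2 V → Option (Fin r)} (hc : ZCS_supp H u v c) {f g : V → Option (Fin r)}
    (hf : ∀ x, (f x).isSome ↔ H.Adj u x) (hg : ∀ x, (g x).isSome ↔ H.Adj v x) :
    ZCS_data u v c f g where
  huv := huv
  cu := fun y => ZCS_none_of (hc _) (by simp)
  cu' := fun y => ZCS_none_of (hc _) (by simp)
  cv := fun y => ZCS_none_of (hc _) (by simp)
  cv' := fun y => ZCS_none_of (hc _) (by simp)
  fu := ZCS_none_of (hf u) (H.loopless.irrefl u)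
  fv := ZCS_none_of (hf v) hn
  gu := ZCS_none_of (hg u) (fun h => hn h.symm)
  gv := ZCS_none_of (hg v) (H.loopless.irrefl v)

theorem ZCS_data.del_v {u v : V} {c : Sym2 V → Option (Fin r)} {f g : V → Option (Fin r)}
    (h : ZCS_data u v c f g) :
    ZCS_del v (ZCS_glue u (ZCS_glue v c g) f) = ZCS_glue u c f := by
  obtain ⟨huv, cu, cu', cv, cv', fu, fv, gu, gv⟩ := h
  have hvu := huv.symm
  funext e
  induction e using Sym2.ind with
  | _ x y =>
    unfold ZCS_del
    simp only [ZCS_glue_mk, ZCS_mem]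
    by_cases h1 : x = u <;> by_cases h2 : x = v <;> by_cases h3 : y = u <;>
      by_cases h4 : y = v <;> simp_all

theorem ZCS_data.del_u {u v : V} {c : Sym2 V → Option (Fin r)} {f g : V → Option (Fin r)}
    (h : ZCS_data u v c f g) :
    ZCS_del u (ZCS_glue u (ZCS_glue v c g) f) = ZCS_glue v c g := by
  obtain ⟨huv, cu, cu', cv, cv', fu, fv, gu, gv⟩ := h
  have hvu := huv.symm
  funext e
  induction e using Sym2.ind with
  | _ x y =>
    unfold ZCS_del
    simp only [ZCS_glue_mk, ZCS_mem]
    by_cases h1 : x = u <;> by_cases h2 : x = v <;> by_cases h3 : y = u <;>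
      by_cases h4 : y = v <;> simp_all

theorem ZCS_data.del_uv {u v : V} {c : Sym2 V → Option (Fin r)} {f g : V → Option (Fin r)}
    (h : ZCS_data u v c f g) :
    ZCS_del u (ZCS_del v (ZCS_glue u (ZCS_glue v c g) f)) = c := by
  obtain ⟨huv, cu, cu', cv, cv', fu, fv, gu, gv⟩ := h
  have hvu := huv.symm
  funext e
  induction e using Sym2.ind with
  | _ x y =>
    unfold ZCS_del
    simp only [ZCS_glue_mk, ZCS_mem]
    by_cases h1 : x = u <;> by_cases h2 : x = v <;> by_cases h3 : y = u <;>
      by_cases h4 : y = v <;> simp_all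

theorem ZCS_data.swap {u v : V} {c : Sym2 V → Option (Fin r)} {f g : V → Option (Fin r)}
    (h : ZCS_data u v c f g) :
    ZCS_glue v c g = fun e => ZCS_glue u c g (e.map (Equiv.swap u v)) := by
  obtain ⟨huv, cu, cu', cv, cv', fu, fv, gu, gv⟩ := h
  have hvu := huv.symm
  funext e
  induction e using Sym2.ind with
  | _ x y =>
    simp only [ZCS_glue_mk, Sym2.map_mk]
    by_cases h1 : x = u <;> by_cases h2 : x = v <;> by_cases h3 : y = u <;>
      by_cases h4 : y = v <;> simp_all [Equiv.swap_apply_def]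

theorem ZCS_data.swap' {u v : V} {c : Sym2 V → Option (Fin r)} {f g : V → Option (Fin r)}
    (h : ZCS_data u v c f g) :
    ZCS_glue u c g = fun e => ZCS_glue v c g (e.map (Equiv.swap u v)) := by
  obtain ⟨huv, cu, cu', cv, cv', fu, fv, gu, gv⟩ := h
  have hvu := huv.symm
  funext e
  induction e using Sym2.ind with
  | _ x y =>
    simp only [ZCS_glue_mk, Sym2.map_mk]
    by_cases h1 : x = u <;> by_cases h2 : x = v <;> by_cases h3 : y = u <;>
      by_cases h4 : y = v <;> simp_all [Equiv.swap_apply_def]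

theorem ZCS_cnt_swap (k : ℕ) {u v : V} (huv : u ≠ v) {c : Sym2 V → Option (Fin r)}
    (cu : ∀ y, c s(u, y) = none) (cv : ∀ y, c s(v, y) = none) (N : V → Prop) (hu : ¬ N u)
    (hv : ¬ N v) : ZCS_cnt k v N c = ZCS_cnt k u N c := by
  have hd : ∀ g : V → Option (Fin r), (∀ x, (g x).isSome ↔ N x) → ZCS_data u v c g g := by
    intro g hg
    refine ⟨huv, cu, fun y => ?_, cv, fun y => ?_, ZCS_none_of (hg u) hu, ZCS_none_of (hg v) hv,
      ZCS_none_of (hg u) hu, ZCS_none_of (hg v) hv⟩
    · rw [Sym2.eq_swap]; exact cu y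
    · rw [Sym2.eq_swap]; exact cv y
  unfold ZCS_cnt
  refine Nat.card_congr (Equiv.subtypeEquivRight fun g => ?_)
  refine and_congr_right fun hg => ⟨fun h => ?_, fun h => ?_⟩
  · rw [(hd g hg).swap']
    exact ZCS_free_map k _ _ h
  · rw [(hd g hg).swap]
    exact ZCS_free_map k _ _ h

theorem ZCS_decomp {u v : V} (huv : u ≠ v) (c : Sym2 V → Option (Fin r)) (hu : c s(u, u) = none)
    (hv : c s(v, v) = none) (h : c s(u, v) = none) :
    ZCS_glue u (ZCS_glue v (ZCS_del u (ZCS_del v c)) fun x => c s(v, x)) (fun x => c s(u, x)) =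
      c := by
  funext e
  induction e using Sym2.ind with
  | _ x y =>
    unfold ZCS_del
    simp only [ZCS_glue_mk, ZCS_mem]
    have hs : c s(v, u) = none := by rw [Sym2.eq_swap]; exact h
    have e1 : c s(u, x) = c s(x, u) := by rw [Sym2.eq_swap]
    have e2 : c s(v, x) = c s(x, v) := by rw [Sym2.eq_swap]
    by_cases h1 : x = u <;> by_cases h2 : x = v <;> by_cases h3 : y = u <;>
      by_cases h4 : y = v <;> simp_all [eq_comm]

theorem ZCS_count [Fintype V] (k : ℕ) (hk : 2 ≤ k) (H : SimpleGraph V) {u v : V} (huv : u ≠ v)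
    (hn : ¬ H.Adj u v) :
    cA k r H = ∑ c : Sym2 V → Option (Fin r), open Classical in if ZCS_supp H u v c then
      ZCS_cnt k u (H.Adj u) c * ZCS_cnt k v (H.Adj v) c else 0 := by
  classical
  have huv' : ∀ c : Sym2 V → Option (Fin r), (∀ e, (c e).isSome ↔ e ∈ H.edgeSet) →
      c s(u, u) = none ∧ c s(v, v) = none ∧ c s(u, v) = none := by
    intro c hc
    refine ⟨ZCS_none_of (hc _) ?_, ZCS_none_of (hc _) ?_, ZCS_none_of (hc _) ?_⟩
    · exact H.loopless.irrefl u
    · exact H.loopless.irrefl v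
    · exact hn
  have hglue : ∀ (c : Sym2 V → Option (Fin r)) (f g : V → Option (Fin r)), ZCS_supp H u v c →
      (∀ x, (f x).isSome ↔ H.Adj u x) → (∀ x, (g x).isSome ↔ H.Adj v x) → ∀ e,
      (ZCS_glue u (ZCS_glue v c g) f e).isSome ↔ e ∈ H.edgeSet := by
    intro c f g hc hf hg e
    induction e using Sym2.ind with
    | _ x y =>
      simp only [ZCS_glue_mk, SimpleGraph.mem_edgeSet]
      by_cases h1 : x = u
      · simp only [h1, if_true]
        exact hf y
      · by_cases h2 : y = u
        · simp only [h1, h2, if_true, if_false]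
          rw [hf x, H.adj_comm]
        · by_cases h3 : x = v
          · simp only [h1, h2, h3, if_true, if_false, huv.symm]
            exact hg y
          · by_cases h4 : y = v
            · simp only [h1, h3, h4, if_true, if_false, huv.symm]
              rw [hg x, H.adj_comm]
            · simp only [h1, h2, h3, h4, if_false]
              rw [hc s(x, y)]
              simp only [SimpleGraph.mem_edgeSet, ZCS_mem]
              tauto
  let A : (Sym2 V → Option (Fin r)) → Type := fun c =>
    {f : V → Option (Fin r) // (∀ x, (f x).isSome ↔ H.Adj u x) ∧ ZCS_Free k (ZCS_glue u c f)} ×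
    {g : V → Option (Fin r) // (∀ x, (g x).isSome ↔ H.Adj v x) ∧ ZCS_Free k (ZCS_glue v c g)}
  have hdata : ∀ z : (Σ c : {c : Sym2 V → Option (Fin r) // ZCS_supp H u v c}, A c.1),
      ZCS_data u v z.1.1 z.2.1.1 z.2.2.1 := fun z =>
    ZCS_supp_data huv hn z.1.2 z.2.1.2.1 z.2.2.2.1
  have hval : ∀ z : (Σ c : {c : Sym2 V → Option (Fin r) // ZCS_supp H u v c}, A c.1),
      ZCS_Free k (ZCS_glue u (ZCS_glue v z.1.1 z.2.2.1) z.2.1.1) := by
    intro z
    have hz := hdata z
    refine ZCS_free_of_del k huv _ ?_ ?_ ?_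
    · rw [ZCS_glue_mk, if_pos rfl]
      exact hz.fv
    · rw [hz.del_u]
      exact z.2.2.2.2
    · rw [hz.del_v]
      exact z.2.1.2.2
  have hE : Function.Bijective (fun z : (Σ c : {c : Sym2 V → Option (Fin r) //
      ZCS_supp H u v c}, A c.1) => (⟨ZCS_glue u (ZCS_glue v z.1.1 z.2.2.1) z.2.1.1,
        hglue _ _ _ z.1.2 z.2.1.2.1 z.2.2.2.1, hval z⟩ : {c : Sym2 V → Option (Fin r) //
      (∀ e, (c e).isSome ↔ e ∈ H.edgeSet) ∧ ZCS_Free k c})) := by
    constructor
    · intro z z' h
      have h0 : ZCS_glue u (ZCS_glue v z.1.1 z.2.2.1) z.2.1.1 =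
          ZCS_glue u (ZCS_glue v z'.1.1 z'.2.2.1) z'.2.1.1 := congrArg Subtype.val h
      have hz := hdata z
      have hz' := hdata z'
      have hc : z.1.1 = z'.1.1 := by
        rw [← hz.del_uv, ← hz'.del_uv, h0]
      have hf : z.2.1.1 = z'.2.1.1 := by
        funext x
        have h1 := congrFun h0 s(u, x)
        simp only [ZCS_glue_mk, if_true] at h1
        exact h1
      have hg : z.2.2.1 = z'.2.2.1 := by
        funext x
        by_cases hx : x = u
        · rw [hx, hz.gu, hz'.gu]
        · have h1 := congrFun h0 s(v, x)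
          simp only [ZCS_glue_mk, if_neg huv.symm, if_neg hx, if_true] at h1
          exact h1
      obtain ⟨⟨c, hc0⟩, ⟨f, hf0⟩, ⟨g, hg0⟩⟩ := z
      obtain ⟨⟨c', hc0'⟩, ⟨f', hf0'⟩, ⟨g', hg0'⟩⟩ := z'
      simp only at hc hf hg
      subst hc
      subst hf
      subst hg
      rfl
    · rintro ⟨c, hc, hfree⟩
      have hcc := huv' c hc
      have hs : ZCS_supp H u v (ZCS_del u (ZCS_del v c)) := by
        intro e
        unfold ZCS_del
        by_cases h1 : u ∈ e
        · simp [h1]
        · by_cases h2 : v ∈ e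
          · simp [h2]
          · simp [h1, h2, hc e]
      have hf : ∀ x, (c s(u, x)).isSome ↔ H.Adj u x := fun x => by
        rw [hc, SimpleGraph.mem_edgeSet]
      have hg : ∀ x, (c s(v, x)).isSome ↔ H.Adj v x := fun x => by
        rw [hc, SimpleGraph.mem_edgeSet]
      have hd := ZCS_supp_data (f := fun x => c s(u, x)) (g := fun x => c s(v, x)) huv hn hs hf hg
      have hdec := ZCS_decomp huv c hcc.1 hcc.2.1 hcc.2.2
      refine ⟨⟨⟨ZCS_del u (ZCS_del v c), hs⟩, ⟨⟨fun x => c s(u, x), hf, ?_⟩,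
        ⟨fun x => c s(v, x), hg, ?_⟩⟩⟩, Subtype.ext hdec⟩
      · rw [← hd.del_v, hdec]
        exact ZCS_free_del k hk v c hfree
      · rw [← hd.del_u, hdec]
        exact ZCS_free_del k hk u c hfree
  rw [ZCS_cA_eq, ← Nat.card_congr (Equiv.ofBijective _ hE), Nat.card_sigma, ← Finset.sum_filter,
    Finset.sum_subtype (Finset.univ.filter fun c => ZCS_supp H u v c)
      (p := fun c => ZCS_supp H u v c) (by simp)]
  refine Finset.sum_congr rfl fun c _ => ?_
  exact Nat.card_prod _ _

end ZCS

theorem symm_cs {V : Type} [Fintype V] [DecidableEq V] (k r : ℕ) (hk : 2 ≤ k)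
    (G : SimpleGraph V) (u v : V) (huv : u ≠ v) (hn : ¬ G.Adj u v) :
    (cA k r G) ^ 2 ≤ cA k r (G.replaceVertex u v) * cA k r (G.replaceVertex v u) := by
  classical
  have hn' : ¬ G.Adj v u := fun h => hn h.symm
  -- adjacency in the two graphs
  have a1 : (G.replaceVertex u v).Adj u = G.Adj u := by
    funext x
    simp only [SimpleGraph.replaceVertex, if_neg huv]
    by_cases hx : x = v
    · subst hx
      simp [hn]
    · simp [hx]
  have a2 : (G.replaceVertex u v).Adj v = G.Adj u := by
    funext x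
    by_cases hx : x = v
    · subst hx
      simp [SimpleGraph.replaceVertex, hn]
    · simp [SimpleGraph.replaceVertex, hx]
  have b1 : (G.replaceVertex v u).Adj v = G.Adj v := by
    funext x
    simp only [SimpleGraph.replaceVertex, if_neg huv.symm]
    by_cases hx : x = u
    · subst hx
      simp [hn']
    · simp [hx]
  have b2 : (G.replaceVertex v u).Adj u = G.Adj v := by
    funext x
    by_cases hx : x = u
    · subst hx
      simp [SimpleGraph.replaceVertex, hn']
    · simp [SimpleGraph.replaceVertex, hx]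
  have s1 : (ZCS_supp (r := r) (G.replaceVertex u v) u v) = ZCS_supp G u v := by
    funext c
    unfold ZCS_supp
    apply propext
    refine forall_congr' fun e => ?_
    suffices h : (e ∈ (G.replaceVertex u v).edgeSet ∧ u ∉ e ∧ v ∉ e) ↔
        (e ∈ G.edgeSet ∧ u ∉ e ∧ v ∉ e) by rw [h]
    induction e using Sym2.ind with
    | _ x y =>
      simp only [SimpleGraph.mem_edgeSet, ZCS_mem, SimpleGraph.replaceVertex]
      by_cases hx : x = v
      · simp [hx]
      · by_cases hy : y = v
        · simp [hy]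
        · simp [hx, hy]
  have s2 : (ZCS_supp (r := r) (G.replaceVertex v u) u v) = ZCS_supp G u v := by
    funext c
    unfold ZCS_supp
    apply propext
    refine forall_congr' fun e => ?_
    suffices h : (e ∈ (G.replaceVertex v u).edgeSet ∧ u ∉ e ∧ v ∉ e) ↔
        (e ∈ G.edgeSet ∧ u ∉ e ∧ v ∉ e) by rw [h]
    induction e using Sym2.ind with
    | _ x y =>
      simp only [SimpleGraph.mem_edgeSet, ZCS_mem, SimpleGraph.replaceVertex]
      by_cases hx : x = u
      · simp [hx]
      · by_cases hy : y = u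
        · simp [hy]
        · simp [hx, hy]
  have hn1 : ¬ (G.replaceVertex u v).Adj u v := by rw [a1]; exact hn
  have hn2 : ¬ (G.replaceVertex v u).Adj u v := by
    rw [b2]; exact G.loopless.irrefl v
  rw [ZCS_count k hk G huv hn, ZCS_count k hk _ huv hn1, ZCS_count k hk _ huv hn2, s1, s2, a1, a2,
    b1, b2, ← Finset.sum_filter, ← Finset.sum_filter, ← Finset.sum_filter]
  have e1 : ∑ c ∈ Finset.univ.filter (fun c : Sym2 V → Option (Fin r) => ZCS_supp G u v c),
      ZCS_cnt k u (G.Adj u) c * ZCS_cnt k v (G.Adj u) c =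
      ∑ c ∈ Finset.univ.filter (fun c : Sym2 V → Option (Fin r) => ZCS_supp G u v c),
        ZCS_cnt k u (G.Adj u) c ^ 2 := by
    refine Finset.sum_congr rfl fun c hc => ?_
    have hc' := (Finset.mem_filter.1 hc).2
    rw [ZCS_cnt_swap k huv (fun y => ZCS_none_of (hc' _) (by simp))
      (fun y => ZCS_none_of (hc' _) (by simp)) (G.Adj u) (G.loopless.irrefl u) hn, sq]
  have e2 : ∑ c ∈ Finset.univ.filter (fun c : Sym2 V → Option (Fin r) => ZCS_supp G u v c),
      ZCS_cnt k u (G.Adj v) c * ZCS_cnt k v (G.Adj v) c =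
      ∑ c ∈ Finset.univ.filter (fun c : Sym2 V → Option (Fin r) => ZCS_supp G u v c),
        ZCS_cnt k v (G.Adj v) c ^ 2 := by
    refine Finset.sum_congr rfl fun c hc => ?_
    have hc' := (Finset.mem_filter.1 hc).2
    rw [← ZCS_cnt_swap k huv (fun y => ZCS_none_of (hc' _) (by simp))
      (fun y => ZCS_none_of (hc' _) (by simp)) (G.Adj v) hn' (G.loopless.irrefl v), sq]
  rw [e1, e2]
  exact Finset.sum_mul_sq_le_sq_mul_sq _ _ _

end MP2ab38c
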