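import Pool.Agent.Lib.MP_2ab38c_co.ZIso
import Pool.Agent.Lib.MP_2ab38c_co.ZCS

/-!
JOB ZMain.  Some graph attaining `cmax k r n` is complete multipartite.

Proof.  Among the graphs `G` on `Fin n` with `cA k r G = cmax k r n` choose one with the largest
number of twin pairs `{(x,y) | ¬ Adj x y ∧ ∀ z, Adj x z ↔ Adj y z}`.  Suppose `u ≠ v` are
nonadjacent but not twins; let `A`, `B` be their twin classes, wlog `|A| ≤ |B|`.  By `symm_cs`
both `G.replaceVertex u v` and `G.replaceVertex v u` attain `cmax` (if `cmax > 0`; `cmax = 0` is
impossible unless there is no graph: if `cmax = 0` any graph attains it, take `π` constant... in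
general if `cmax = 0` then `cA (mp π) ≤ cmax = 0` for every `π`).  In `G' = G.replaceVertex v u`
(`u` becomes a copy of `v`): twins `x, y ≠ u` stay twins, and `u` is a twin of all of `B` instead
of `A`; the number of twin pairs grows by at least `2(|B| - (|A|-1)) > 0`, contradiction.  So
nonadjacency is an equivalence relation (nonadjacent implies twins); let `π x` be the smallest
element of the class of `x`.
-/

namespace MP2ab38c

open Finset SimpleGraph

/-- twins -/
private def zmainTw {n : ℕ} (G : SimpleGraph (Fin n)) (x y : Fin n) : Prop :=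
  ∀ z, G.Adj x z ↔ G.Adj y z

/-- twin class -/
private noncomputable def zmainCls {n : ℕ} (G : SimpleGraph (Fin n)) (x : Fin n) :
    Finset (Fin n) :=
  open Classical in univ.filter fun y => zmainTw G x y

/-- twin pairs -/
private noncomputable def zmainTP {n : ℕ} (G : SimpleGraph (Fin n)) :
    Finset (Fin n × Fin n) :=
  open Classical in univ.filter fun p => zmainTw G p.1 p.2

private theorem zmain_grow {n : ℕ} (G : SimpleGraph (Fin n)) (u v : Fin n)
    (hn : ¬ zmainTw G u v) (hle : (zmainCls G u).card ≤ (zmainCls G v).card) :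
    (zmainTP G).card < (zmainTP (G.replaceVertex v u)).card := by
  classical
  have memC : ∀ x y, y ∈ zmainCls G x ↔ zmainTw G x y := by
    intro x y; simp [zmainCls]
  have memT : ∀ (H : SimpleGraph (Fin n)) (p : Fin n × Fin n),
      p ∈ zmainTP H ↔ zmainTw H p.1 p.2 := by
    intro H p; simp [zmainTP]
  set N := (zmainTP G).filter fun p => p.1 ≠ u ∧ p.2 ≠ u with hN
  have huu : u ∈ zmainCls G u := (memC u u).mpr fun z => Iff.rfl
  have huv : u ∉ zmainCls G v := fun h => hn fun z => ((memC v u).mp h z).symm
  -- upper bound
  have hup : zmainTP G ⊆ (N ∪ (zmainCls G u).image (fun y => (u, y))) ∪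
      ((zmainCls G u).erase u).image (fun x => (x, u)) := by
    intro p hp
    have hp' := (memT G p).mp hp
    by_cases h1 : p.1 = u
    · refine Finset.mem_union_left _ (Finset.mem_union_right _ (Finset.mem_image.mpr
        ⟨p.2, (memC u p.2).mpr ?_, ?_⟩))
      · rw [← h1]; exact hp'
      · rw [← h1]
    · by_cases h2 : p.2 = u
      · refine Finset.mem_union_right _ (Finset.mem_image.mpr
          ⟨p.1, Finset.mem_erase.mpr ⟨h1, (memC u p.1).mpr ?_⟩, ?_⟩)
        · rw [← h2]; exact fun z => (hp' z).symm
        · rw [← h2]
      · exact Finset.mem_union_left _ (Finset.mem_union_left _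
          (Finset.mem_filter.mpr ⟨hp, h1, h2⟩))
  have hupc : (zmainTP G).card ≤ N.card + (zmainCls G u).card + ((zmainCls G u).card - 1) := by
    refine (Finset.card_le_card hup).trans ((Finset.card_union_le _ _).trans ?_)
    refine Nat.add_le_add ((Finset.card_union_le _ _).trans ?_) ?_
    · exact Nat.add_le_add le_rfl Finset.card_image_le
    · refine Finset.card_image_le.trans ?_
      rw [Finset.card_erase_of_mem huu]
  -- lower bound
  have hadj : ∀ x z, x ≠ u → z ≠ u → ((G.replaceVertex v u).Adj x z ↔ G.Adj x z) := by
    intro x z hx hz; simp [replaceVertex, hx, hz]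
  have hadju : ∀ x, x ≠ u → ((G.replaceVertex v u).Adj x u ↔ G.Adj x v) := by
    intro x hx; simp [replaceVertex, hx]
  have hadjl : ∀ z, z ≠ u → ((G.replaceVertex v u).Adj u z ↔ G.Adj v z) := by
    intro z hz; simp [replaceVertex, hz]
  have htw : ∀ y ∈ zmainCls G v, zmainTw (G.replaceVertex v u) u y := by
    intro y hy z
    have hy' := (memC v y).mp hy
    have hyu : y ≠ u := by rintro rfl; exact huv hy
    by_cases hz : z = u
    · rw [hz, hadju y hyu]
      have h1 : ¬ (G.replaceVertex v u).Adj u u := (G.replaceVertex v u).loopless.irrefl u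
      have h2 : ¬ G.Adj y v := fun h => (G.loopless.irrefl v) ((hy' v).mpr h)
      exact iff_of_false h1 h2
    · rw [hadjl z hz, hadj y z hyu hz]
      exact hy' z
  have hlow : (N ∪ (insert u (zmainCls G v)).image (fun y => (u, y))) ∪
      (zmainCls G v).image (fun x => (x, u)) ⊆ zmainTP (G.replaceVertex v u) := by
    intro p hp
    rw [memT]
    rcases Finset.mem_union.mp hp with hp | hp
    · rcases Finset.mem_union.mp hp with hp | hp
      · obtain ⟨h1, h2, h3⟩ := Finset.mem_filter.mp hp
        have h4 := (memT G p).mp h1
        intro z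
        by_cases hz : z = u
        · rw [hz, hadju _ h2, hadju _ h3]; exact h4 v
        · rw [hadj _ _ h2 hz, hadj _ _ h3 hz]; exact h4 z
      · obtain ⟨y, hy, rfl⟩ := Finset.mem_image.mp hp
        rcases Finset.mem_insert.mp hy with rfl | hy
        · exact fun z => Iff.rfl
        · exact htw y hy
    · obtain ⟨y, hy, rfl⟩ := Finset.mem_image.mp hp
      exact fun z => (htw y hy z).symm
  have hd1 : Disjoint N ((insert u (zmainCls G v)).image (fun y => (u, y))) := by
    rw [Finset.disjoint_left]
    intro p hp hp'
    obtain ⟨y, _, rfl⟩ := Finset.mem_image.mp hp'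
    exact (Finset.mem_filter.mp hp).2.1 rfl
  have hd2 : Disjoint (N ∪ (insert u (zmainCls G v)).image (fun y => (u, y)))
      ((zmainCls G v).image (fun x => (x, u))) := by
    rw [Finset.disjoint_left]
    intro p hp hp'
    obtain ⟨y, hy, rfl⟩ := Finset.mem_image.mp hp'
    rcases Finset.mem_union.mp hp with hp | hp
    · exact (Finset.mem_filter.mp hp).2.2 rfl
    · obtain ⟨y', _, h⟩ := Finset.mem_image.mp hp
      have h1 : u = y := (Prod.mk.inj h).1
      rw [← h1] at hy
      exact huv hy
  have hlowc : N.card + ((zmainCls G v).card + 1) + (zmainCls G v).card ≤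
      (zmainTP (G.replaceVertex v u)).card := by
    refine le_trans (le_of_eq ?_) (Finset.card_le_card hlow)
    rw [Finset.card_union_of_disjoint hd2, Finset.card_union_of_disjoint hd1,
      Finset.card_image_of_injective _ (fun a b h => (Prod.mk.inj h).2),
      Finset.card_image_of_injective _ (fun a b h => (Prod.mk.inj h).1),
      Finset.card_insert_of_notMem huv]
  omega

theorem zykov (k r n : ℕ) (hk : 2 ≤ k) : ∃ π : Fin n → Fin n, cA k r (mp π) = cmax k r n := by
  classical
  have hmax : ∀ G : SimpleGraph (Fin n), cA k r G ≤ cmax k r n := by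
    intro G
    have := cA_le_cmax k r G
    rwa [Fintype.card_fin] at this
  rcases Nat.eq_zero_or_pos (cmax k r n) with h0 | hpos
  · refine ⟨id, ?_⟩
    have := hmax (mp (id : Fin n → Fin n))
    omega
  obtain ⟨G, hG, hGmax⟩ := Set.exists_max_image {G : SimpleGraph (Fin n) | cA k r G = cmax k r n}
    (fun G => (zmainTP G).card) (Set.toFinite _) (exists_cmax k r n)
  have hG' : cA k r G = cmax k r n := hG
  have key : ∀ u v, ¬ G.Adj u v → (zmainCls G u).card ≤ (zmainCls G v).card →
      zmainTw G u v := by
    intro u v huv hle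
    by_contra hn
    have hne : u ≠ v := by
      rintro rfl
      exact hn fun z => Iff.rfl
    have hcs := symm_cs k r hk G u v hne huv
    rw [hG'] at hcs
    have h1 := hmax (G.replaceVertex u v)
    have h2 := hmax (G.replaceVertex v u)
    have h3 : cA k r (G.replaceVertex v u) = cmax k r n := by
      by_contra h
      have h4 : cA k r (G.replaceVertex v u) < cmax k r n := lt_of_le_of_ne h2 h
      have h5 : cA k r (G.replaceVertex u v) * cA k r (G.replaceVertex v u) <
          cmax k r n * cmax k r n :=
        lt_of_le_of_lt (Nat.mul_le_mul_right _ h1) (Nat.mul_lt_mul_of_pos_left h4 hpos)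
      rw [pow_two] at hcs
      omega
    have h6 := hGmax (G.replaceVertex v u) h3
    have h7 := zmain_grow G u v hn hle
    exact absurd h6 (not_le.mpr h7)
  have key' : ∀ u v, ¬ G.Adj u v → zmainTw G u v := by
    intro u v huv
    rcases le_total (zmainCls G u).card (zmainCls G v).card with h | h
    · exact key u v huv h
    · exact fun z => (key v u (fun h' => huv h'.symm) h z).symm
  let s : Setoid (Fin n) := ⟨zmainTw G, fun _ _ => Iff.rfl, fun h z => (h z).symm,
    fun h h' z => (h z).trans (h' z)⟩
  refine ⟨fun x => (Quotient.mk s x).out, ?_⟩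
  have hmp : mp (fun x => (Quotient.mk s x).out) = G := by
    ext u v
    rw [mp_adj]
    constructor
    · intro h
      by_contra huv
      apply h
      have : Quotient.mk s u = Quotient.mk s v := Quotient.sound (key' u v huv)
      rw [this]
    · intro h h'
      have h1 : Quotient.mk s u = Quotient.mk s v := Quotient.out_injective h'
      have h2 : zmainTw G u v := Quotient.exact h1
      exact G.loopless.irrefl v ((h2 v).mp h)
  rw [hmp, hG']

end MP2ab38c
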