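import Pool.Agent.Lib.MP_2ab38c_co.FStab
import Pool.Agent.Lib.MP_2ab38c_co.FBad
import Pool.Agent.Lib.MP_2ab38c_co.FCount
import Pool.Agent.Lib.MP_2ab38c_co.FStep
import Pool.Agent.Lib.MP_2ab38c_co.ZMain

/-!
The Turan graph maximises the number of cherry-free colourings for infinitely many `n`.
-/

namespace MP2ab38c

open Finset SimpleGraph

theorem growth (f : ℕ → ℝ) (a b C : ℝ) (ha : 0 ≤ a) (hb : b < a)
    (hf : ∀ n : ℕ, a / 2 * (n : ℝ) ^ 2 - C ≤ f n) (N : ℕ) :
    ∃ n ≥ N, 1 ≤ n ∧ b * n ≤ f n - f (n - 1) := by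
  by_contra hcon
  push Not at hcon
  have hstep : ∀ m : ℕ, f (N + m) ≤ f N + b * (m * N + m * (m + 1) / 2) := by
    intro m
    induction m with
    | zero => simp
    | succ m ih =>
      have h := hcon (N + (m + 1)) (by omega) (by omega)
      have e : N + (m + 1) - 1 = N + m := by omega
      rw [e] at h
      push_cast at h ⊢
      nlinarith
  obtain ⟨m, hm⟩ := exists_nat_gt ((|b| / 2 + |C| + |f N| + 1) / ((a - b) / 2))
  have hab : 0 < (a - b) / 2 := by linarith
  rw [div_lt_iff₀ hab] at hm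
  have hm0 : (0 : ℝ) < m := by
    by_contra h
    push Not at h
    have : (m : ℝ) * ((a - b) / 2) ≤ 0 := mul_nonpos_of_nonpos_of_nonneg h hab.le
    have h1 := abs_nonneg b
    have h2 := abs_nonneg C
    have h3 := abs_nonneg (f N)
    linarith
  have hm1 : (1 : ℝ) ≤ m := by
    have : 0 < m := by exact_mod_cast hm0
    exact_mod_cast this
  have h1 := hstep m
  have h2 := hf (N + m)
  push_cast at h2
  have hN : (0 : ℝ) ≤ N := Nat.cast_nonneg N
  have h3 : (|b| / 2 + |C| + |f N| + 1) * m ≤ (m : ℝ) * ((a - b) / 2) * m := by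
    apply mul_le_mul_of_nonneg_right hm.le hm0.le
  have h4 : 0 ≤ (a - b) * (N * m) := by
    apply mul_nonneg (by linarith)
    positivity
  have h5 : 0 ≤ a / 2 * (N : ℝ) ^ 2 := by positivity
  have h6 : b ≤ |b| := le_abs_self b
  have h7 : C ≤ |C| := le_abs_self C
  have h8 : f N ≤ |f N| := le_abs_self _
  have h9 : 0 ≤ |C| := abs_nonneg C
  have h10 : 0 ≤ |f N| := abs_nonneg _
  have h11 : b * m ≤ |b| * m := mul_le_mul_of_nonneg_right h6 hm0.le
  have h12 : |C| ≤ |C| * m := le_mul_of_one_le_right h9 hm1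
  have h13 : |f N| ≤ |f N| * m := le_mul_of_one_le_right h10 hm1
  nlinarith

theorem cA_eq_ncard {V : Type} (k r : ℕ) (G : SimpleGraph V) :
    cA k r G = {F : G.edgeSet → Fin r | PAFree k G F}.ncard := by
  unfold cA
  rw [Set.ncard_def, Set.encard, ENat.card]
  rfl

theorem lower_main {k r : ℕ} (hG : Good k r) (n₀ : ℕ) :
    ∃ n ≥ n₀, cA k r (turanGraph n (k - 1)) = cmax k r n := by
  by_contra hcon
  push Not at hcon
  have hk : 4 ≤ k := hG.hk
  have hkR : (4 : ℝ) ≤ k := by exact_mod_cast hk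
  have hk1 : (0 : ℝ) < (k : ℝ) - 1 := by linarith
  have hnum2 := num2 hG
  have hCk : k ≤ k.choose 2 := by
    have h1 : k.choose 2 = k * (k - 1) / 2 := Nat.choose_two_right k
    rw [h1, Nat.le_div_iff_mul_le (by norm_num)]
    apply Nat.mul_le_mul_left
    omega
  have hkr : k ≤ r := by omega
  have hr : 2 ≤ r := by omega
  have hrR : (2 : ℝ) ≤ r := by exact_mod_cast hr
  have hrpos : (0 : ℝ) < r := by linarith
  set R : ℝ := Real.log r with hRdef
  have hR0 : 0 < R := Real.log_pos (by linarith)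
  -- `3 log (k-2) < 2 R`
  have hlogk : Real.log ((k : ℝ) - 2) ≤ Real.log ((k.choose 2 - 2 : ℕ) : ℝ) := by
    apply Real.log_le_log (by linarith)
    have : k - 2 ≤ k.choose 2 - 2 := by omega
    have h2 : ((k - 2 : ℕ) : ℝ) = (k : ℝ) - 2 := by rw [Nat.cast_sub (by omega)]; simp
    rw [← h2]
    exact_mod_cast this
  have hnum5 := num5 hG
  have hnum1 := num1 hG
  have hlog32 : 0 < Real.log (3 / 2) := Real.log_pos (by norm_num)
  set lk : ℝ := Real.log ((k : ℝ) - 2) with hlk
  have hlk0 : 0 ≤ lk := Real.log_nonneg (by linarith)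
  have hγ0 : 0 < 2 * R - 3 * lk := by
    have : 2 * lk + Real.log (3 / 2) ≤ R := by linarith
    nlinarith
  set γ : ℝ := (2 * R - 3 * lk) / (k - 1) / 4 with hγdef
  have hγ : 0 < γ := by positivity
  have hTE : TT k r = (((k : ℝ) - 4) * R + 3 * lk) / (k - 1) + 4 * γ := by
    unfold TT
    rw [hγdef]
    field_simp
    ring
  obtain ⟨β, hβ, hβm, ε', hε', n1, hstar⟩ := star_count hk hkr γ hγ (1 / (4 * k * r))
    (by positivity)
  obtain ⟨c, hc, n2, hbad⟩ := bad_count (k := k) (r := r) (by omega) hr β hβ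
  set ε : ℝ := min ε' (min (1 / (2 * ((k : ℝ) - 1)) / 2) (c / (2 * ((k : ℝ) - 1) * R))) with hεdef
  have hε : 0 < ε := by positivity
  have hεa : ε ≤ ε' := min_le_left _ _
  have hεb : ε ≤ 1 / (2 * ((k : ℝ) - 1)) / 2 := (min_le_right _ _).trans (min_le_left _ _)
  have hεc : ε ≤ c / (2 * ((k : ℝ) - 1) * R) := (min_le_right _ _).trans (min_le_right _ _)
  obtain ⟨n3, hstab⟩ := stability hG ε hε
  obtain ⟨n4, hn4⟩ := exists_nat_gt (8 * k * r : ℝ)
  obtain ⟨n5, hn5⟩ := exists_nat_gt (1 / γ)
  obtain ⟨n6, hn6⟩ := exists_nat_gt (2 / c)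
  -- positivity of cmax
  have hcm : ∀ n : ℕ, r ^ tE k n ≤ cmax k r n := by
    intro n
    have h1 := cA_le_cmax k r (turanGraph n (k - 1))
    rw [cA_turan (by omega), Fintype.card_fin] at h1
    exact h1
  have hcmpos : ∀ n : ℕ, 0 < (cmax k r n : ℝ) := by
    intro n
    have : 0 < cmax k r n := lt_of_lt_of_le (by positivity) (hcm n)
    exact_mod_cast this
  obtain ⟨n, hn, hn1, hgrow⟩ := growth (fun n => Real.log (cmax k r n)) (TT k r) (TT k r - γ)
    (k * R) (by unfold TT; apply mul_nonneg _ hR0.le; apply div_nonneg <;> linarith)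
    (by linarith)
    (by
      intro n
      have h1 : (tE k n : ℝ) * R ≤ Real.log (cmax k r n) := by
        rw [hRdef, ← Real.log_pow]
        apply Real.log_le_log (by positivity)
        exact_mod_cast hcm n
      have h2 := two_tE_lower (k := k) (by omega) n
      have h3 : TT k r / 2 * (n : ℝ) ^ 2 - k * R ≤ (tE k n : ℝ) * R := by
        have : TT k r / 2 * (n : ℝ) ^ 2 - k * R =
            ((((k : ℝ) - 2) / ((k : ℝ) - 1) * (n : ℝ) ^ 2 - k) / 2 - k / 2) * R := by
          unfold TT; rw [hRdef]; ring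
        rw [this]
        apply mul_le_mul_of_nonneg_right _ hR0.le
        have : (0 : ℝ) ≤ k := by linarith
        linarith
      exact h3.trans h1)
    (n₀ + n1 + n2 + n3 + n4 + n5 + n6)

  have hnR : (1 : ℝ) ≤ n := by exact_mod_cast hn1
  obtain ⟨π, hπ⟩ := zykov k r n (by omega)
  have hcAπ : r ^ tE k n ≤ cA k r (mp π) := by rw [hπ]; exact hcm n
  obtain ⟨ρ, hρ, hsize⟩ := hstab n (by omega) (Fin n) π hcAπ
  -- a vertex outside
  have hout : ∃ v, ∀ i, π v ≠ ρ i := by
    by_contra hno
    push Not at hno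
    have h1 := cA_le_turan (k := k) (r := r) (by omega) (by omega) π (univ.image ρ)
      (by
        refine card_image_le.trans ?_
        simp)
      (by
        intro v
        obtain ⟨i, hi⟩ := hno v
        rw [hi]
        exact mem_image_of_mem _ (mem_univ i))
    rw [hπ] at h1
    have h2 := hcm n
    apply hcon n (by omega)
    rw [cA_turan (by omega)]
    exact le_antisymm h2 h1
  obtain ⟨v, hv⟩ := hout
  set X : Fin (k - 1) → Finset (Fin n) := fun i => univ.filter (fun u => π u = ρ i) with hXdef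
  have hX : ∀ i j, i ≠ j → ∀ u ∈ X i, ∀ u' ∈ X j, π u ≠ π u' := by
    intro i j hij u hu u' hu'
    simp only [hXdef, mem_filter, mem_univ, true_and] at hu hu'
    rw [hu, hu']
    exact fun h => hij (hρ h)
  have hvX : ∀ i, ∀ u ∈ X i, π v ≠ π u := by
    intro i u hu
    simp only [hXdef, mem_filter, mem_univ, true_and] at hu
    rw [hu]; exact hv i
  have hXsize : ∀ i, (1 / ((k : ℝ) - 1) - ε) * (n : ℝ) ≤ ((X i).card : ℝ) := hsize
  set N : ℕ := ⌈β * (n : ℝ)⌉₊ with hNdef
  have hN1 : 1 ≤ N := by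
    rw [hNdef, Nat.one_le_ceil_iff]
    positivity
  have hNle : (N : ℝ) ≤ β * n + 1 := (Nat.ceil_lt_add_one (by positivity)).le
  have hn4' : 8 * (k : ℝ) * r ≤ n := by
    have : (n4 : ℝ) ≤ n := by exact_mod_cast (by omega : n4 ≤ n)
    linarith
  have hrN : ∀ i, r * N ≤ (X i).card := by
    intro i
    have h1 : (r : ℝ) * N ≤ ((X i).card : ℝ) := by
      refine le_trans ?_ (hXsize i)
      have h2 : (r : ℝ) * N ≤ r * (β * n + 1) := by gcongr
      have h3 : (r : ℝ) * (β * n) ≤ n / (4 * k) := by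
        have : (r : ℝ) * (β * n) ≤ r * (1 / (4 * k * r) * n) := by gcongr
        refine this.trans (le_of_eq ?_)
        field_simp
      have h4 : (r : ℝ) ≤ n / (8 * k) := by
        rw [le_div_iff₀ (by positivity)]; linarith
      have h5 : (n : ℝ) / (4 * k) + n / (8 * k) ≤ n / (2 * k) := by
        have : (n : ℝ) / (2 * k) - (n / (4 * k) + n / (8 * k)) = n / (8 * k) := by
          field_simp; ring
        have h6 : 0 ≤ (n : ℝ) / (8 * k) := by positivity
        linarith
      have h6 : (n : ℝ) / (2 * k) ≤ (1 / ((k : ℝ) - 1) - ε) * n := by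
        have h7 : 1 / (2 * (k : ℝ)) ≤ 1 / ((k : ℝ) - 1) - ε := by
          have h8 : 1 / (2 * ((k : ℝ) - 1)) / 2 = 1 / 4 * (1 / ((k : ℝ) - 1)) := by
            field_simp; ring
          have h9 : 1 / (2 * (k : ℝ)) ≤ 1 / 2 * (1 / ((k : ℝ) - 1)) := by
            rw [show 1 / 2 * (1 / ((k : ℝ) - 1)) = 1 / (2 * ((k : ℝ) - 1)) by
              field_simp]
            apply one_div_le_one_div_of_le (by positivity)
            linarith
          have h10 : 0 < 1 / ((k : ℝ) - 1) := by positivity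
          rw [h8] at hεb
          linarith
        calc (n : ℝ) / (2 * k) = 1 / (2 * (k : ℝ)) * n := by ring
          _ ≤ _ := by gcongr
      linarith
    exact_mod_cast h1
  -- the two counts
  have hgood := step_count hk (by omega) π X hX v hvX N hN1 hrN
  rw [Fintype.card_fin] at hgood
  have hst := hstar {x : Fin n // π v ≠ π x} n (fun i => (X i).subtype (fun x => π v ≠ π x))
    (by omega)
    (by
      have := Fintype.card_subtype_le (fun x : Fin n => π v ≠ π x)
      simpa using this)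
    (by
      intro i j hij
      rw [Finset.disjoint_left]
      intro u hu hu'
      rw [Finset.mem_subtype] at hu hu'
      exact hX i j hij _ hu _ hu' rfl)
    (by
      intro i
      have h1 : ((X i).subtype (fun x => π v ≠ π x)).card = (X i).card := by
        rw [Finset.card_subtype, Finset.filter_true_of_mem]
        intro u hu
        exact hvX i u hu
      rw [h1]
      refine le_trans ?_ (hXsize i)
      gcongr)
  rw [← hNdef] at hst
  have hbd := hbad (Fin n) (Fin n) π X (by simpa using (by omega : n2 ≤ n)) hX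
  rw [Fintype.card_fin, ← hNdef] at hbd
  -- edges
  have hedge := edges_le (k := k) (by omega) π ρ
  have hout2 : (({v : Fin n | ∀ i, π v ≠ ρ i}.ncard : ℕ) : ℝ) ≤ ((k : ℝ) - 1) * ε * n := by
    have h1 : ({v : Fin n | ∀ i, π v ≠ ρ i}.ncard : ℝ) + ∑ i, ((X i).card : ℝ) ≤ n := by
      have h2 : {v : Fin n | ∀ i, π v ≠ ρ i}.ncard + ∑ i, (X i).card ≤ n := by
        rw [← Finset.card_biUnion (by
          intro i _ j _ hij
          rw [Function.onFun, Finset.disjoint_left]
          intro u hu hu'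
          exact hX i j hij _ hu _ hu' rfl)]
        have h3 : {v : Fin n | ∀ i, π v ≠ ρ i}.ncard =
            (univ.filter (fun v : Fin n => ∀ i, π v ≠ ρ i)).card := by
          rw [← Set.ncard_coe_finset]
          congr 1
          ext u; simp
        rw [h3, ← Finset.card_union_of_disjoint]
        · exact (Finset.card_le_univ _).trans (by simp)
        · rw [Finset.disjoint_left]
          intro u hu hu'
          simp only [mem_filter, mem_univ, true_and, mem_biUnion, hXdef] at hu hu'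
          obtain ⟨i, hi⟩ := hu'
          exact hu i hi
      exact_mod_cast h2
    have h3 : ∑ i : Fin (k - 1), (1 / ((k : ℝ) - 1) - ε) * (n : ℝ) ≤
        ∑ i, ((X i).card : ℝ) := Finset.sum_le_sum fun i _ => hXsize i
    rw [Finset.sum_const, card_univ, Fintype.card_fin, nsmul_eq_mul] at h3
    have h4 : ((k - 1 : ℕ) : ℝ) = (k : ℝ) - 1 := by rw [Nat.cast_sub (by omega)]; simp
    rw [h4] at h3
    have h5 : ((k : ℝ) - 1) * ((1 / ((k : ℝ) - 1) - ε) * n) = n - ((k : ℝ) - 1) * ε * n := by
      field_simp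
    rw [h5] at h3
    linarith
  have hedgeR : ((mp π).edgeSet.ncard : ℝ) ≤ tE k n + ((k : ℝ) - 1) * ε * n * n := by
    have h1 : ((mp π).edgeSet.ncard : ℝ) ≤
        tE k n + ({v : Fin n | ∀ i, π v ≠ ρ i}.ncard : ℝ) * n := by exact_mod_cast hedge
    refine h1.trans ?_
    gcongr
  have hbd2 : ({F : (mp π).edgeSet → Fin r | ¬ GoodF (k := k) X N F}.ncard : ℝ) ≤
      (cmax k r n : ℝ) * Real.exp (-(c / 2) * (n : ℝ) ^ 2) := by
    refine hbd.trans ?_
    have h1 : (r : ℝ) ^ (mp π).edgeSet.ncard = Real.exp (R * (mp π).edgeSet.ncard) := by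
      rw [mul_comm, Real.exp_nat_mul, hRdef, Real.exp_log hrpos]
    have h2 : Real.exp (R * tE k n) ≤ (cmax k r n : ℝ) := by
      have : Real.exp (R * tE k n) = (r : ℝ) ^ tE k n := by
        rw [mul_comm, Real.exp_nat_mul, hRdef, Real.exp_log hrpos]
      rw [this]
      exact_mod_cast hcm n
    rw [h1, ← Real.exp_add]
    calc Real.exp (R * (mp π).edgeSet.ncard + -c * (n : ℝ) ^ 2)
        ≤ Real.exp (R * tE k n + -(c / 2) * (n : ℝ) ^ 2) := by
          apply Real.exp_le_exp.2
          have h3 : R * (mp π).edgeSet.ncard ≤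
              R * (tE k n + ((k : ℝ) - 1) * ε * n * n) := by gcongr
          have h4 : R * (((k : ℝ) - 1) * ε * n * n) ≤ c / 2 * (n : ℝ) ^ 2 := by
            have h5 : ((k : ℝ) - 1) * R * ε ≤ c / 2 := by
              have h6 := mul_le_mul_of_nonneg_left hεc
                (mul_nonneg hk1.le hR0.le)
              refine h6.trans (le_of_eq ?_)
              field_simp
            calc R * (((k : ℝ) - 1) * ε * n * n) = ((k : ℝ) - 1) * R * ε * (n : ℝ) ^ 2 := by ring
              _ ≤ _ := by gcongr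
          nlinarith
      _ = Real.exp (R * tE k n) * Real.exp (-(c / 2) * (n : ℝ) ^ 2) := Real.exp_add _ _
      _ ≤ _ := by gcongr
  have hgd2 : ({F : (mp π).edgeSet → Fin r |
      PAFree k (mp π) F ∧ GoodF (k := k) X N F}.ncard : ℝ) ≤
      (cmax k r n : ℝ) * Real.exp (-(2 * γ) * n) := by
    have h1 : ({F : (mp π).edgeSet → Fin r |
        PAFree k (mp π) F ∧ GoodF (k := k) X N F}.ncard : ℝ) ≤
        (cmax k r (n - 1) : ℝ) * Real.exp (((((k : ℝ) - 4) * R + 3 * lk) /
          ((k : ℝ) - 1) + γ) * n) := by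
      have h2 : ({F : (mp π).edgeSet → Fin r |
          PAFree k (mp π) F ∧ GoodF (k := k) X N F}.ncard : ℝ) ≤
          (cmax k r (n - 1) : ℝ) * ({f : {x : Fin n // π v ≠ π x} → Fin r | StarSmall k N
          (fun i => (X i).subtype (fun x => π v ≠ π x)) (fun x => some (f x))}.ncard : ℝ) := by
        exact_mod_cast hgood
      refine h2.trans ?_
      gcongr
    refine h1.trans ?_
    have h3 : (cmax k r (n - 1) : ℝ) ≤ (cmax k r n : ℝ) * Real.exp (-((TT k r - γ) * n)) := by
      rw [← Real.log_le_log_iff (hcmpos _) (mul_pos (hcmpos _) (Real.exp_pos _)),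
        Real.log_mul (hcmpos _).ne' (Real.exp_pos _).ne', Real.log_exp]
      linarith
    calc (cmax k r (n - 1) : ℝ) * Real.exp (((((k : ℝ) - 4) * R + 3 * lk) /
          ((k : ℝ) - 1) + γ) * n)
        ≤ ((cmax k r n : ℝ) * Real.exp (-((TT k r - γ) * n))) *
          Real.exp (((((k : ℝ) - 4) * R + 3 * lk) / ((k : ℝ) - 1) + γ) * n) := by gcongr
      _ = (cmax k r n : ℝ) * Real.exp (-(2 * γ) * n) := by
        rw [mul_assoc, ← Real.exp_add, hTE]
        congr 2
        ring
  -- total
  have htot : (cmax k r n : ℝ) ≤ ({F : (mp π).edgeSet → Fin r |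
      PAFree k (mp π) F ∧ GoodF (k := k) X N F}.ncard : ℝ) +
      ({F : (mp π).edgeSet → Fin r | ¬ GoodF (k := k) X N F}.ncard : ℝ) := by
    rw [← hπ, cA_eq_ncard]
    have h1 : {F : (mp π).edgeSet → Fin r | PAFree k (mp π) F} ⊆
        {F : (mp π).edgeSet → Fin r | PAFree k (mp π) F ∧ GoodF (k := k) X N F} ∪
        {F : (mp π).edgeSet → Fin r | ¬ GoodF (k := k) X N F} := by
      intro F hF
      by_cases h : GoodF (k := k) X N F
      · exact Or.inl ⟨hF, h⟩
      · exact Or.inr h
    have h2 := Set.ncard_le_ncard h1 (Set.toFinite _)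
    have h3 := Set.ncard_union_le
      {F : (mp π).edgeSet → Fin r | PAFree k (mp π) F ∧ GoodF (k := k) X N F}
      {F : (mp π).edgeSet → Fin r | ¬ GoodF (k := k) X N F}
    exact_mod_cast h2.trans h3
  have he1 : Real.exp (-(2 * γ) * n) ≤ Real.exp (-1) := by
    apply Real.exp_le_exp.2
    have h1 : 1 / γ ≤ n := by
      have : (n5 : ℝ) ≤ n := by exact_mod_cast (by omega : n5 ≤ n)
      linarith
    rw [div_le_iff₀ hγ] at h1
    nlinarith
  have he2 : Real.exp (-(c / 2) * (n : ℝ) ^ 2) ≤ Real.exp (-1) := by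
    apply Real.exp_le_exp.2
    have h1 : 2 / c ≤ n := by
      have : (n6 : ℝ) ≤ n := by exact_mod_cast (by omega : n6 ≤ n)
      linarith
    rw [div_le_iff₀ hc] at h1
    have h2 : (n : ℝ) * c ≤ (n : ℝ) ^ 2 * c := by
      apply mul_le_mul_of_nonneg_right _ (le_of_lt hc)
      nlinarith
    nlinarith
  have he3 : Real.exp (-1) < 1 / 2 := by
    have := Real.exp_neg_one_lt_d9
    linarith
  have hcp := hcmpos n
  nlinarith [mul_le_mul_of_nonneg_left he1 hcp.le, mul_le_mul_of_nonneg_left he2 hcp.le]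

end MP2ab38c
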