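import Pool.Agent.Lib.MP_2ab38c_co.Core

/-!
JOB MParts.
`parts_cover`: if every `k-1` parts miss at least `ε n` vertices, then choosing `v_1, v_2, ...` one
after the other, each outside the parts of the previous ones (at most `k-1` parts, so at least `ε n`
choices) gives at least `(ε n)^k` injective-part tuples (induction on the length of the tuple).
`sizes`: let `n = |V|`, `W X = |X|/n`.  `∑_X W X^2 = 1 - #{(u,v) | π u ≠ π v}/n^2 ≤ 1/(k-1) + k/n^2`
and `∑_{X ∈ Q} W X ≥ 1 - ε1`, `|Q| ≤ k-1`, so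
`∑_{X ∈ Q} (W X - 1/(k-1))^2 + (k-1-|Q|)/(k-1)^2
  ≤ 1/(k-1) + k/n^2 - 2 (1-ε1)/(k-1) + 1/(k-1) = 2 ε1/(k-1) + k/n^2`.
For `ε1` small and `n` large this is less than `min(ε^2, 1/(k-1)^2)`, so `|Q| = k-1` and each
`W X ≥ 1/(k-1) - ε`; enumerate `Q`.
-/

namespace MP2ab38c

open Finset

theorem mparts_aux {k : ℕ} {V ι : Type} [Fintype V] [DecidableEq V]
    [DecidableEq ι] (π : V → ι) (ε : ℝ) (hε0 : 0 ≤ ε)
    (h : ∀ Q : Finset ι, Q.card ≤ k - 1 →
      (#{v | π v ∈ Q} : ℝ) ≤ (1 - ε) * (Fintype.card V : ℝ)) (m : ℕ) (hm : m ≤ k) :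
    (ε * (Fintype.card V : ℝ)) ^ m ≤
      ((univ.filter fun v : Fin m → V => Function.Injective (π ∘ v)).card : ℝ) := by
  classical
  induction m with
  | zero =>
    rw [pow_zero]
    have : (univ.filter fun v : Fin 0 → V => Function.Injective (π ∘ v)).Nonempty := by
      refine ⟨Fin.elim0, Finset.mem_filter.mpr ⟨Finset.mem_univ _, ?_⟩⟩
      intro a
      exact a.elim0
    exact_mod_cast this.card_pos
  | succ m ih =>
    have ih' := ih (by omega)
    set A := (univ.filter fun v : Fin m → V => Function.Injective (π ∘ v)) with hA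
    set B := (univ.filter fun v : Fin (m + 1) → V => Function.Injective (π ∘ v)) with hB
    have hfib : ∀ v ∈ A, ε * (Fintype.card V : ℝ) ≤
        ((univ.filter fun x : V => π x ∉ univ.image (π ∘ v)).card : ℝ) := by
      intro v _
      have hc : (univ.image (π ∘ v)).card ≤ k - 1 := by
        refine Finset.card_image_le.trans ?_
        rw [Finset.card_univ, Fintype.card_fin]
        omega
      have h1 := h _ hc
      have h2 := Finset.card_filter_add_card_filter_not (s := (univ : Finset V))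
        (fun x => π x ∈ univ.image (π ∘ v))
      rw [Finset.card_univ] at h2
      have h3 : ((univ.filter fun x : V => π x ∈ univ.image (π ∘ v)).card : ℝ) +
          ((univ.filter fun x : V => ¬ (π x ∈ univ.image (π ∘ v))).card : ℝ) =
            (Fintype.card V : ℝ) := by exact_mod_cast h2
      linarith
    have hle : ∑ v ∈ A, (univ.filter fun x : V => π x ∉ univ.image (π ∘ v)).card ≤ B.card := by
      rw [← Finset.card_sigma]
      apply Finset.card_le_card_of_injOn
        (fun p : (Σ _ : Fin m → V, V) => (Fin.cons p.2 p.1 : Fin (m + 1) → V))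
      · intro p hp
        rw [Finset.mem_coe, Finset.mem_sigma] at hp
        have hp1 := (Finset.mem_filter.mp hp.1).2
        have hp2 := (Finset.mem_filter.mp hp.2).2
        rw [Finset.mem_coe, hB, Finset.mem_filter]
        refine ⟨Finset.mem_univ _, ?_⟩
        show Function.Injective (π ∘ (Fin.cons p.2 p.1 : Fin (m + 1) → V))
        rw [Fin.comp_cons, Fin.cons_injective_iff]
        refine ⟨?_, hp1⟩
        rintro ⟨a, ha⟩
        exact hp2 (Finset.mem_image.mpr ⟨a, Finset.mem_univ _, ha⟩)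
      · intro p _ q _ hpq
        have := Fin.cons_injective2 hpq
        obtain ⟨p1, p2⟩ := p
        obtain ⟨q1, q2⟩ := q
        simp only at this
        rw [this.1, this.2]
    calc (ε * (Fintype.card V : ℝ)) ^ (m + 1)
        = (ε * (Fintype.card V : ℝ)) ^ m * (ε * (Fintype.card V : ℝ)) := pow_succ _ _
      _ ≤ (A.card : ℝ) * (ε * (Fintype.card V : ℝ)) :=
          mul_le_mul_of_nonneg_right ih' (by positivity)
      _ = ∑ _v ∈ A, (ε * (Fintype.card V : ℝ)) := by rw [Finset.sum_const, nsmul_eq_mul]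
      _ ≤ ∑ v ∈ A, ((univ.filter fun x : V => π x ∉ univ.image (π ∘ v)).card : ℝ) :=
          Finset.sum_le_sum hfib
      _ ≤ (B.card : ℝ) := by exact_mod_cast hle

theorem parts_cover {k : ℕ} (hk : 1 ≤ k) {V ι : Type} [Fintype V] [DecidableEq V]
    [DecidableEq ι] (π : V → ι) (ε : ℝ) (hε0 : 0 ≤ ε)
    (h : ∀ Q : Finset ι, Q.card ≤ k - 1 →
      (#{v | π v ∈ Q} : ℝ) ≤ (1 - ε) * (Fintype.card V : ℝ)) :
    (ε * (Fintype.card V : ℝ)) ^ k ≤
      ({v : Fin k → V | Function.Injective (π ∘ v)}.ncard : ℝ) := by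
  classical
  have h1 := mparts_aux π ε hε0 h k le_rfl
  have h2 : {v : Fin k → V | Function.Injective (π ∘ v)}.ncard =
      (univ.filter fun v : Fin k → V => Function.Injective (π ∘ v)).card := by
    rw [← Set.ncard_coe_finset]
    congr 1
    ext v
    simp
  rw [h2]
  exact h1

theorem mparts_sq {V ι : Type} [Fintype V] [DecidableEq V] [DecidableEq ι] (π : V → ι)
    (Q : Finset ι) :
    ∑ X ∈ Q, ((#{v | π v = X} : ℕ) : ℝ) ^ 2 + ({p : V × V | π p.1 ≠ π p.2}.ncard : ℝ) ≤
      (Fintype.card V : ℝ) ^ 2 := by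
  classical
  have h1 : {p : V × V | π p.1 ≠ π p.2}.ncard =
      (univ.filter fun p : V × V => ¬ (π p.1 = π p.2)).card := by
    rw [← Set.ncard_coe_finset]
    congr 1
    ext v
    simp
  have h2 := Finset.card_filter_add_card_filter_not (s := (univ : Finset (V × V)))
    (fun p => π p.1 = π p.2)
  rw [Finset.card_univ, Fintype.card_prod] at h2
  have h3 : ∑ X ∈ Q, (#{v | π v = X}) ^ 2 ≤
      (univ.filter fun p : V × V => π p.1 = π p.2).card := by
    have e1 : ∀ X ∈ Q, (#{v | π v = X}) ^ 2 =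
        ((univ.filter fun v => π v = X) ×ˢ (univ.filter fun v => π v = X)).card := by
      intro X _
      rw [Finset.card_product, sq]
    rw [Finset.sum_congr rfl e1, ← Finset.card_biUnion]
    · apply Finset.card_le_card
      intro p hp
      rw [Finset.mem_biUnion] at hp
      obtain ⟨X, _, hX⟩ := hp
      rw [Finset.mem_product, Finset.mem_filter, Finset.mem_filter] at hX
      rw [Finset.mem_filter]
      exact ⟨Finset.mem_univ _, hX.1.2.trans hX.2.2.symm⟩
    · intro X _ Y _ hXY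
      rw [Function.onFun, Finset.disjoint_left]
      intro p hp hp'
      rw [Finset.mem_product, Finset.mem_filter, Finset.mem_filter] at hp hp'
      exact hXY (hp.1.2.symm.trans hp'.1.2)
  rw [h1]
  have h4 : ∑ X ∈ Q, (#{v | π v = X}) ^ 2 +
      (univ.filter fun p : V × V => ¬ (π p.1 = π p.2)).card ≤ Fintype.card V ^ 2 := by
    rw [sq]
    omega
  exact_mod_cast h4

theorem mparts_sum {V ι : Type} [Fintype V] [DecidableEq V] [DecidableEq ι] (π : V → ι)
    (Q : Finset ι) :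
    ∑ X ∈ Q, ((#{v | π v = X} : ℕ) : ℝ) = ((#{v | π v ∈ Q} : ℕ) : ℝ) := by
  classical
  have h : #{v | π v ∈ Q} = ∑ X ∈ Q, #{v | π v = X} := by
    rw [Finset.card_eq_sum_card_fiberwise (f := π) (t := Q)]
    · refine Finset.sum_congr rfl fun X hX => ?_
      congr 1
      ext v
      simp only [Finset.mem_filter, Finset.mem_univ, true_and]
      constructor
      · exact fun hv => hv.2
      · exact fun hv => ⟨by rw [hv]; exact hX, hv⟩
    · intro v hv
      rw [Finset.mem_coe, Finset.mem_filter] at hv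
      exact hv.2
  rw [h]
  push_cast
  rfl

theorem sizes {k : ℕ} (hk : 3 ≤ k) (ε : ℝ) (hε : 0 < ε) : ∃ ε1 > 0, ∃ n0 : ℕ,
    ∀ (V ι : Type) [Fintype V] [DecidableEq V] [DecidableEq ι] (π : V → ι)
      (Q : Finset ι), n0 ≤ Fintype.card V → Q.card ≤ k - 1 →
      (1 - ε1) * (Fintype.card V : ℝ) ≤ (#{v | π v ∈ Q} : ℝ) →
      ((k : ℝ) - 2) / ((k : ℝ) - 1) * (Fintype.card V : ℝ) ^ 2 - k ≤
        ({p : V × V | π p.1 ≠ π p.2}.ncard : ℝ) →
      ∃ ρ : Fin (k - 1) → ι, Function.Injective ρ ∧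
        ∀ i, (1 / ((k : ℝ) - 1) - ε) * (Fintype.card V : ℝ) ≤ (#{v | π v = ρ i} : ℝ) := by
  have hk3 : (3 : ℝ) ≤ k := by exact_mod_cast hk
  set K : ℝ := (k : ℝ) - 1 with hK
  have hKpos : 0 < K := by rw [hK]; linarith
  set δ : ℝ := min (ε ^ 2) ((1 / K) ^ 2) with hδ
  have hδpos : 0 < δ := lt_min (by positivity) (by positivity)
  obtain ⟨n0, hn0⟩ := exists_nat_ge (4 * k / δ)
  refine ⟨δ * K / 8, by positivity, n0 + 1, ?_⟩
  intro V ι _ _ _ π Q hn hQ h1 h2
  set n : ℝ := (Fintype.card V : ℝ) with hnn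
  have hn1 : (1 : ℝ) ≤ n := by
    have : 1 ≤ Fintype.card V := by omega
    rw [hnn]
    exact_mod_cast this
  have hn2 : 4 * k / δ ≤ n := by
    refine hn0.trans ?_
    have : n0 ≤ Fintype.card V := by omega
    rw [hnn]
    exact_mod_cast this
  have hkn : (k : ℝ) ≤ δ / 4 * n ^ 2 := by
    rw [div_le_iff₀ hδpos] at hn2
    have h3 : n ≤ n ^ 2 := by nlinarith
    have h4 : n * δ ≤ n ^ 2 * δ := mul_le_mul_of_nonneg_right h3 hδpos.le
    nlinarith
  have hsq := mparts_sq π Q
  have hsum := mparts_sum π Q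
  rw [← hnn] at hsq
  set s : ι → ℝ := fun X => ((#{v | π v = X} : ℕ) : ℝ) with hs
  have hsq' : ∑ X ∈ Q, s X ^ 2 ≤ n ^ 2 / K + k := by
    have e1 : ((k : ℝ) - 2) / K * n ^ 2 = n ^ 2 - n ^ 2 / K := by
      rw [hK]
      have : (k : ℝ) - 1 ≠ 0 := by rw [← hK]; exact hKpos.ne'
      field_simp
      ring
    rw [e1] at h2
    show ∑ X ∈ Q, (((#{v | π v = X} : ℕ) : ℝ)) ^ 2 ≤ n ^ 2 / K + k
    linarith
  have hsum' : (1 - δ * K / 8) * n ≤ ∑ X ∈ Q, s X := by
    show _ ≤ ∑ X ∈ Q, (((#{v | π v = X} : ℕ) : ℝ))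
    rw [hsum]
    exact h1
  have hQK : (Q.card : ℝ) ≤ K := by
    rw [hK]
    have : Q.card + 1 ≤ k := by omega
    have h5 : ((Q.card + 1 : ℕ) : ℝ) ≤ k := by exact_mod_cast this
    push_cast at h5
    linarith
  have hexp : ∑ X ∈ Q, (s X - n / K) ^ 2 =
      ∑ X ∈ Q, s X ^ 2 - 2 * (n / K) * ∑ X ∈ Q, s X + Q.card * (n / K) ^ 2 := by
    have e2 : ∀ X ∈ Q, (s X - n / K) ^ 2 = s X ^ 2 - 2 * (n / K) * s X + (n / K) ^ 2 := by
      intro X _
      ring
    rw [Finset.sum_congr rfl e2, Finset.sum_add_distrib, Finset.sum_sub_distrib, ← Finset.mul_sum,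
      Finset.sum_const, nsmul_eq_mul]
  have hmain : ∑ X ∈ Q, (s X - n / K) ^ 2 + (K - Q.card) * (n / K) ^ 2 ≤ δ / 2 * n ^ 2 := by
    rw [hexp]
    have h6 : 2 * (n / K) * ((1 - δ * K / 8) * n) ≤ 2 * (n / K) * ∑ X ∈ Q, s X :=
      mul_le_mul_of_nonneg_left hsum' (by positivity)
    have e3 : 2 * (n / K) * ((1 - δ * K / 8) * n) = 2 * (n ^ 2 / K) - δ / 4 * n ^ 2 := by
      field_simp
      ring
    have e4 : K * (n / K) ^ 2 = n ^ 2 / K := by
      field_simp
    have e5 : (K - Q.card) * (n / K) ^ 2 = n ^ 2 / K - Q.card * (n / K) ^ 2 := by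
      rw [sub_mul, e4]
    rw [e5]
    rw [e3] at h6
    linarith
  have hsqn : ∀ X ∈ Q, (s X - n / K) ^ 2 ≤ ∑ X ∈ Q, (s X - n / K) ^ 2 := fun X hX =>
    Finset.single_le_sum (f := fun X => (s X - n / K) ^ 2) (fun _ _ => sq_nonneg _) hX
  have hnsq : 0 < n ^ 2 := by positivity
  have hcard : Q.card = k - 1 := by
    by_contra hne
    have h7 : Q.card + 2 ≤ k := by omega
    have h8 : ((Q.card + 2 : ℕ) : ℝ) ≤ k := by exact_mod_cast h7
    push_cast at h8
    have h9 : 1 ≤ K - Q.card := by rw [hK]; linarith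
    have h10 : (n / K) ^ 2 ≤ (K - Q.card) * (n / K) ^ 2 := by
      have := mul_le_mul_of_nonneg_right h9 (sq_nonneg (n / K))
      linarith
    have h11 : 0 ≤ ∑ X ∈ Q, (s X - n / K) ^ 2 := Finset.sum_nonneg fun _ _ => sq_nonneg _
    have h12 : δ * n ^ 2 ≤ (n / K) ^ 2 := by
      have e6 : (n / K) ^ 2 = (1 / K) ^ 2 * n ^ 2 := by ring
      rw [e6]
      exact mul_le_mul_of_nonneg_right (min_le_right _ _) hnsq.le
    have h13 : 0 < δ * n ^ 2 := by positivity
    linarith
  have hX : ∀ X ∈ Q, (1 / K - ε) * n ≤ s X := by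
    intro X hX
    have h14 := hsqn X hX
    have h15 : 0 ≤ (K - Q.card) * (n / K) ^ 2 := mul_nonneg (by linarith) (sq_nonneg _)
    have h16 : (s X - n / K) ^ 2 ≤ (ε * n) ^ 2 := by
      have h17 : δ / 2 * n ^ 2 ≤ (ε * n) ^ 2 := by
        rw [mul_pow]
        apply mul_le_mul_of_nonneg_right _ hnsq.le
        have : δ ≤ ε ^ 2 := min_le_left _ _
        linarith
      linarith
    have h18 := abs_le_of_sq_le_sq h16 (by positivity)
    have h19 := (abs_le.mp h18).1
    have e7 : (1 / K - ε) * n = n / K - ε * n := by ring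
    rw [e7]
    linarith
  refine ⟨fun i => ((Q.equivFinOfCardEq hcard).symm i : ι), ?_, ?_⟩
  · intro a b hab
    exact (Q.equivFinOfCardEq hcard).symm.injective (Subtype.ext hab)
  · intro i
    exact hX _ ((Q.equivFinOfCardEq hcard).symm i).2

end MP2ab38c
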