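import Pool.Agent.Lib.MP_2ab38c_co.Core

/-!
JOB MAvg.  Averaging over samples: for an injective `a : Fin p → Fin m`, a function of `s ∘ a`
summed over all `s : Fin m → V` (split `Fin m` into the image of `a` and its complement, e.g.
`Equiv.piEquivPiSubtypeProd`, or fibrewise counting: every `v : Fin p → V` has exactly
`|V|^(m-p)` extensions).
-/

namespace MP2ab38c

open Finset

private theorem mavg_fiber {V : Type} [Fintype V] [DecidableEq V] {p m : ℕ} (a : Fin p → Fin m)
    (ha : Function.Injective a) (v : Fin p → V) :
    ((univ : Finset (Fin m → V)).filter (fun s => s ∘ a = v)).card =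
      Fintype.card V ^ (m - p) := by
  classical
  have h1 : (univ : Finset (Fin m → V)).filter (fun s => s ∘ a = v) =
      Fintype.piFinset (fun j => (univ : Finset V).filter (fun y => ∀ i, a i = j → v i = y)) := by
    ext s
    simp only [Finset.mem_filter, Finset.mem_univ, true_and, Fintype.mem_piFinset]
    constructor
    · rintro rfl j i rfl
      rfl
    · intro h
      funext i
      exact (h (a i) i rfl).symm
  have h2 : ∀ j : Fin m, ((univ : Finset V).filter (fun y => ∀ i, a i = j → v i = y)).card =
      if j ∈ (univ : Finset (Fin p)).image a then 1 else Fintype.card V := by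
    intro j
    split_ifs with hj
    · obtain ⟨i, _, rfl⟩ := Finset.mem_image.1 hj
      rw [Finset.card_eq_one]
      refine ⟨v i, ?_⟩
      ext y
      simp only [Finset.mem_filter, Finset.mem_univ, true_and, Finset.mem_singleton]
      constructor
      · intro h
        exact (h i rfl).symm
      · rintro rfl i' hi'
        rw [ha hi']
    · have h3 : (univ : Finset V).filter (fun y => ∀ i, a i = j → v i = y) = univ := by
        apply Finset.filter_true_of_mem
        intro y _ i hi
        exact absurd (Finset.mem_image.2 ⟨i, Finset.mem_univ i, hi⟩) hj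
      rw [h3, Finset.card_univ]
  rw [h1, Fintype.card_piFinset, Finset.prod_congr rfl (fun j _ => h2 j), Finset.prod_ite,
    Finset.prod_const_one, one_mul, Finset.prod_const]
  congr 1
  have h4 : (univ : Finset (Fin m)).filter (fun j => j ∉ (univ : Finset (Fin p)).image a) =
      ((univ : Finset (Fin p)).image a)ᶜ := by
    ext j
    simp
  rw [h4, Finset.card_compl, Finset.card_image_of_injective _ ha]
  simp

theorem avg_inj {V : Type} [Fintype V] [DecidableEq V] {p m : ℕ} (a : Fin p → Fin m)
    (ha : Function.Injective a) (f : (Fin p → V) → ℝ) :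
    ∑ s : Fin m → V, f (s ∘ a) = (Fintype.card V : ℝ) ^ (m - p) * ∑ v : Fin p → V, f v := by
  classical
  rw [Finset.mul_sum, ← Finset.sum_fiberwise (univ : Finset (Fin m → V)) (fun s => s ∘ a)
    (fun s => f (s ∘ a))]
  refine Finset.sum_congr rfl (fun v _ => ?_)
  have h1 : ∑ s ∈ (univ : Finset (Fin m → V)).filter (fun s => s ∘ a = v), f (s ∘ a) =
      ∑ s ∈ (univ : Finset (Fin m → V)).filter (fun s => s ∘ a = v), f v := by
    refine Finset.sum_congr rfl (fun s hs => ?_)
    rw [(Finset.mem_filter.1 hs).2]
  rw [h1, Finset.sum_const, mavg_fiber a ha v, nsmul_eq_mul]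
  push_cast
  rfl

end MP2ab38c
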