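import Pool.Agent.Lib.MP_2ab38c_co.MClean
import Pool.Agent.Lib.MP_2ab38c_co.MAvg

/-!
JOB MSample.  Sampling.  `V` has `n` elements.

Proof.  Given `ζ`, let `ζ' = ζ/(4 k)`, and let `δ', m0` be given by `clean` for `ζ'`; fix
`m ≥ m0`, `m` large (depending on `k, r, ζ, δ'`), then `δ` small and `η` small depending on `m`.
For `s : Fin m → V` call `s` clean if `Lv s(s i, s j)` is nonempty whenever `π (s i) ≠ π (s j)` and
there is no `a : Fin k → Fin m` with `BadTuple π Lv (s ∘ a)`.  (If `BadTuple π Lv (s ∘ a)` then `a`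
is injective.)  A clean `s` gives `S : LS k r (Fin m) ι` with `part = π ∘ s`,
`L e = Lv (e.map s)`, so by `tot_le` its total `∑_{i,j} ellF π Lv (s i) (s j) ≤ T m (m+1)`.
The fraction of `s` which are not clean is at most `m^2 η + m^k η` (`avg_inj` for `p = 2`, `p = k`).
The average over all `s` of the total is `m (m-1)/n^2 ∑_{u,v} ellF ≥ m (m-1) (T - δ)` (`avg_inj`,
`p = 2`; the terms `i = j` vanish), the total is at most `R m^2` always (`R = log r`) and at most
`T m (m+1)` on clean `s`.  So the fraction of `s` that are clean with total `< (T - δ') m^2` is at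
most (`Markov`) `(T m (m+1) + R m^2 (m^2+m^k) η - m (m-1)(T-δ)) / (T m (m+1) - (T - δ') m^2)
≤ ζ/4` for `m` large and `δ, η` small (`T m(m+1) - (T-δ')m^2 ≥ δ' m^2`).  For clean `s` with total
`≥ (T-δ') m^2`, `clean` gives `Q`, `|Q| ≤ k-1`, containing the parts of at least `(1-ζ') m`
indices, so the number of injective `a : Fin k → Fin m` with `π ∘ s ∘ a` injective is at most
`k ζ' m^k` (some `a b` is one of the at most `ζ' m` other indices).  Average over `s` of the number of
injective `a` with `π ∘ s ∘ a` injective: it equals `(m)_k / n^k * #{v | Injective (π ∘ v)}`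
(`avg_inj`, `p = k`), and is at most `k ζ' m^k + (ζ/4 + m^2 η + m^k η) m^k`.  As
`(m)_k ≥ (1 - ζ'') m^k` for `m` large, done.
-/

namespace MP2ab38c

open Finset

section

variable {V ι : Type}

private lemma MSample_ncard {α : Type} [Fintype α] (p : α → Prop) [DecidablePred p] :
    ({x | p x}.ncard : ℝ) = ∑ x, if p x then (1 : ℝ) else 0 := by
  rw [sum_boole]
  congr 1
  rw [← Set.ncard_coe_finset]
  congr 1
  ext x
  simp

private lemma MSample_two [Fintype V] [DecidableEq V] {m : ℕ} (i j : Fin m) (hij : i ≠ j)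
    (F : V → V → ℝ) :
    ∑ s : Fin m → V, F (s i) (s j) = (Fintype.card V : ℝ) ^ (m - 2) * ∑ u, ∑ v, F u v := by
  have hinj : Function.Injective (![i, j] : Fin 2 → Fin m) := by
    intro x y
    fin_cases x <;> fin_cases y <;> simp [hij, hij.symm]
  have h := avg_inj (V := V) (![i, j] : Fin 2 → Fin m) hinj (fun v => F (v 0) (v 1))
  have h2 : ∑ v : Fin 2 → V, F (v 0) (v 1) = ∑ u, ∑ v, F u v := by
    rw [← Fintype.sum_prod_type' (f := fun u v => F u v),
      ← Equiv.sum_comp (finTwoArrowEquiv V) (fun p : V × V => F p.1 p.2)]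
    rfl
  rw [h2] at h
  exact h

private lemma MSample_one {m k : ℕ} (b : Fin k) (Z : Fin m → Prop) [DecidablePred Z] :
    ∑ a : Fin k → Fin m, (if Z (a b) then (1 : ℝ) else 0) =
      (m : ℝ) ^ (k - 1) * ∑ i : Fin m, (if Z i then (1 : ℝ) else 0) := by
  have hinj : Function.Injective (fun _ : Fin 1 => b) := fun x y _ => Subsingleton.elim x y
  have h := avg_inj (V := Fin m) (fun _ : Fin 1 => b) hinj
    (fun v => if Z (v 0) then (1 : ℝ) else 0)
  have h2 : ∑ v : Fin 1 → Fin m, (if Z (v 0) then (1 : ℝ) else 0) =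
      ∑ i : Fin m, (if Z i then (1 : ℝ) else 0) := by
    rw [← Equiv.sum_comp (Equiv.funUnique (Fin 1) (Fin m))
      (fun i : Fin m => if Z i then (1 : ℝ) else 0)]
    rfl
  rw [h2, Fintype.card_fin] at h
  exact h

/-- clean samples -/
private def MSample_Cl (k : ℕ) {r m : ℕ} (π : V → ι) (Lv : Sym2 V → Finset (Fin r))
    (s : Fin m → V) : Prop :=
  (∀ i j, π (s i) ≠ π (s j) → (Lv s(s i, s j)).Nonempty) ∧
    ∀ a : Fin k → Fin m, ¬ BadTuple π Lv (s ∘ a)

private def MSample_LS {k r m : ℕ} {π : V → ι} {Lv : Sym2 V → Finset (Fin r)}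
    {s : Fin m → V} (h : MSample_Cl k π Lv s) : LS k r (Fin m) ι where
  part := π ∘ s
  L := fun e => Lv (e.map s)
  ne := fun i j hij => h.1 i j hij
  free := fun a ha => h.2 a ⟨fun x y hxy => ha.1 x y hxy, by
    obtain ⟨c, hc, hc'⟩ := ha.2
    exact ⟨c, fun x y hxy => hc x y hxy, hc'⟩⟩

private lemma MSample_bad_inj {k r m : ℕ} (π : V → ι) (Lv : Sym2 V → Finset (Fin r))
    (s : Fin m → V) (a : Fin k → Fin m) (h : BadTuple π Lv (s ∘ a)) : Function.Injective a := by
  intro x y hxy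
  by_contra hne
  apply h.1 x y hne
  simp only [Function.comp_apply, hxy]

open Classical in
private lemma MSample_bad [Fintype V] {k r m : ℕ} (hm2 : 2 ≤ m) (hmk : k ≤ m) (π : V → ι)
    (Lv : Sym2 V → Finset (Fin r)) (η : ℝ)
    (h2' : ({p : V × V | π p.1 ≠ π p.2 ∧ Lv s(p.1, p.2) = ∅}.ncard : ℝ) ≤
      η * (Fintype.card V : ℝ) ^ 2)
    (hk' : ({v : Fin k → V | BadTuple π Lv v}.ncard : ℝ) ≤ η * (Fintype.card V : ℝ) ^ k) :
    ∑ s : Fin m → V, (if ¬ MSample_Cl k π Lv s then (1 : ℝ) else 0) ≤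
      ((m : ℝ) ^ 2 + (m : ℝ) ^ k) * η * (Fintype.card V : ℝ) ^ m := by
  have h2 : ∑ u, ∑ v, (if π u ≠ π v ∧ Lv s(u, v) = ∅ then (1 : ℝ) else 0) ≤
      η * (Fintype.card V : ℝ) ^ 2 := by
    refine le_trans (le_of_eq ?_) h2'
    rw [MSample_ncard, Fintype.sum_prod_type]
  have hk : ∑ v : Fin k → V, (if BadTuple π Lv v then (1 : ℝ) else 0) ≤
      η * (Fintype.card V : ℝ) ^ k := by
    refine le_trans (le_of_eq ?_) hk'
    rw [MSample_ncard]
  have hpt : ∀ s : Fin m → V, (if ¬ MSample_Cl k π Lv s then (1 : ℝ) else 0) ≤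
      ∑ i, ∑ j, (if i ≠ j then (if π (s i) ≠ π (s j) ∧ Lv s(s i, s j) = ∅ then (1 : ℝ) else 0)
        else 0) +
      ∑ a : Fin k → Fin m, (if Function.Injective a then
        (if BadTuple π Lv (s ∘ a) then (1 : ℝ) else 0) else 0) := by
    intro s
    have n1 : ∀ i j, 0 ≤ (if i ≠ j then (if π (s i) ≠ π (s j) ∧ Lv s(s i, s j) = ∅ then (1 : ℝ)
        else 0) else 0) := by
      intro i j
      split_ifs <;> norm_num
    have n2 : ∀ a : Fin k → Fin m, 0 ≤ (if Function.Injective a then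
        (if BadTuple π Lv (s ∘ a) then (1 : ℝ) else 0) else 0) := by
      intro a
      split_ifs <;> norm_num
    have N1 : 0 ≤ ∑ i, ∑ j, (if i ≠ j then (if π (s i) ≠ π (s j) ∧ Lv s(s i, s j) = ∅ then (1 : ℝ)
        else 0) else 0) := sum_nonneg fun i _ => sum_nonneg fun j _ => n1 i j
    have N2 : 0 ≤ ∑ a : Fin k → Fin m, (if Function.Injective a then
        (if BadTuple π Lv (s ∘ a) then (1 : ℝ) else 0) else 0) := sum_nonneg fun a _ => n2 a
    by_cases hc : MSample_Cl k π Lv s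
    · rw [if_neg (not_not.2 hc)]
      exact add_nonneg N1 N2
    · rw [if_pos hc]
      unfold MSample_Cl at hc
      rw [not_and_or] at hc
      rcases hc with hc | hc
      · push Not at hc
        obtain ⟨i, j, h3, h4⟩ := hc
        have hij : i ≠ j := by
          intro h5
          rw [h5] at h3
          exact h3 rfl
        have h6 : (if i ≠ j then (if π (s i) ≠ π (s j) ∧ Lv s(s i, s j) = ∅ then (1 : ℝ)
            else 0) else 0) = 1 := by
          rw [if_pos hij, if_pos ⟨h3, h4⟩]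
        have h7 : (1 : ℝ) ≤ ∑ i, ∑ j, (if i ≠ j then
            (if π (s i) ≠ π (s j) ∧ Lv s(s i, s j) = ∅ then (1 : ℝ) else 0) else 0) := by
          refine h6.symm.le.trans ?_
          refine le_trans ?_ (single_le_sum (f := fun i => ∑ j, (if i ≠ j then
            (if π (s i) ≠ π (s j) ∧ Lv s(s i, s j) = ∅ then (1 : ℝ) else 0) else 0))
            (fun i _ => sum_nonneg fun j _ => n1 i j) (mem_univ i))
          exact single_le_sum (f := fun j => (if i ≠ j then
            (if π (s i) ≠ π (s j) ∧ Lv s(s i, s j) = ∅ then (1 : ℝ) else 0) else 0))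
            (fun j _ => n1 i j) (mem_univ j)
        linarith
      · push Not at hc
        obtain ⟨a, ha⟩ := hc
        have h6 : (if Function.Injective a then
            (if BadTuple π Lv (s ∘ a) then (1 : ℝ) else 0) else 0) = 1 := by
          rw [if_pos (MSample_bad_inj π Lv s a ha), if_pos ha]
        have h7 : (1 : ℝ) ≤ ∑ a : Fin k → Fin m, (if Function.Injective a then
            (if BadTuple π Lv (s ∘ a) then (1 : ℝ) else 0) else 0) := by
          refine h6.symm.le.trans ?_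
          exact single_le_sum (f := fun a : Fin k → Fin m => (if Function.Injective a then
            (if BadTuple π Lv (s ∘ a) then (1 : ℝ) else 0) else 0)) (fun a _ => n2 a) (mem_univ a)
        linarith
  refine (sum_le_sum fun s _ => hpt s).trans ?_
  rw [sum_add_distrib]
  have hpos1 : 0 ≤ η * (Fintype.card V : ℝ) ^ 2 := le_trans (sum_nonneg fun u _ =>
    sum_nonneg fun v _ => by split_ifs <;> norm_num) h2
  have hpos2 : 0 ≤ η * (Fintype.card V : ℝ) ^ k := le_trans (sum_nonneg fun v _ => by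
    split_ifs <;> norm_num) hk
  have b1 : ∑ s : Fin m → V, ∑ i, ∑ j, (if i ≠ j then
      (if π (s i) ≠ π (s j) ∧ Lv s(s i, s j) = ∅ then (1 : ℝ) else 0) else 0) ≤
      (m : ℝ) ^ 2 * η * (Fintype.card V : ℝ) ^ m := by
    rw [sum_comm]
    have h3 : ∀ i ∈ (univ : Finset (Fin m)), ∑ s : Fin m → V, ∑ j, (if i ≠ j then
        (if π (s i) ≠ π (s j) ∧ Lv s(s i, s j) = ∅ then (1 : ℝ) else 0) else 0) ≤
        m * (η * (Fintype.card V : ℝ) ^ m) := by
      intro i _
      rw [sum_comm]
      have h4 : ∀ j ∈ (univ : Finset (Fin m)), ∑ s : Fin m → V, (if i ≠ j then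
          (if π (s i) ≠ π (s j) ∧ Lv s(s i, s j) = ∅ then (1 : ℝ) else 0) else 0) ≤
          η * (Fintype.card V : ℝ) ^ m := by
        intro j _
        have h6 : (Fintype.card V : ℝ) ^ m = (Fintype.card V : ℝ) ^ (m - 2) *
            (Fintype.card V : ℝ) ^ 2 := by
          rw [← pow_add]; congr 1; omega
        by_cases hij : i ≠ j
        · simp only [if_pos hij]
          rw [MSample_two i j hij (fun u v => if π u ≠ π v ∧ Lv s(u, v) = ∅ then (1 : ℝ) else 0),
            h6]
          calc _ ≤ (Fintype.card V : ℝ) ^ (m - 2) * (η * (Fintype.card V : ℝ) ^ 2) :=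
                mul_le_mul_of_nonneg_left h2 (by positivity)
            _ = _ := by ring
        · simp only [if_neg hij, sum_const_zero]
          rw [h6]
          calc (0 : ℝ) ≤ (Fintype.card V : ℝ) ^ (m - 2) * (η * (Fintype.card V : ℝ) ^ 2) :=
                mul_nonneg (by positivity) hpos1
            _ = _ := by ring
      refine (sum_le_sum h4).trans ?_
      rw [sum_const, card_univ, Fintype.card_fin, nsmul_eq_mul]
    refine (sum_le_sum h3).trans ?_
    rw [sum_const, card_univ, Fintype.card_fin, nsmul_eq_mul]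
    apply le_of_eq
    ring
  have b2 : ∑ s : Fin m → V, ∑ a : Fin k → Fin m, (if Function.Injective a then
      (if BadTuple π Lv (s ∘ a) then (1 : ℝ) else 0) else 0) ≤
      (m : ℝ) ^ k * η * (Fintype.card V : ℝ) ^ m := by
    rw [sum_comm]
    have h3 : ∀ a ∈ (univ : Finset (Fin k → Fin m)), ∑ s : Fin m → V,
        (if Function.Injective a then (if BadTuple π Lv (s ∘ a) then (1 : ℝ) else 0) else 0) ≤
        η * (Fintype.card V : ℝ) ^ m := by
      intro a _
      have h6 : (Fintype.card V : ℝ) ^ m = (Fintype.card V : ℝ) ^ (m - k) *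
          (Fintype.card V : ℝ) ^ k := by
        rw [← pow_add]; congr 1; omega
      by_cases ha : Function.Injective a
      · simp only [if_pos ha]
        rw [avg_inj a ha (fun v => if BadTuple π Lv v then (1 : ℝ) else 0), h6]
        calc _ ≤ (Fintype.card V : ℝ) ^ (m - k) * (η * (Fintype.card V : ℝ) ^ k) :=
              mul_le_mul_of_nonneg_left hk (by positivity)
          _ = _ := by ring
      · simp only [if_neg ha, sum_const_zero]
        rw [h6]
        calc (0 : ℝ) ≤ (Fintype.card V : ℝ) ^ (m - k) * (η * (Fintype.card V : ℝ) ^ k) :=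
              mul_nonneg (by positivity) hpos2
          _ = _ := by ring
    refine (sum_le_sum h3).trans ?_
    rw [sum_const, card_univ, Fintype.card_fun, Fintype.card_fin, Fintype.card_fin, nsmul_eq_mul]
    push_cast
    apply le_of_eq
    ring
  calc _ ≤ (m : ℝ) ^ 2 * η * (Fintype.card V : ℝ) ^ m + (m : ℝ) ^ k * η * (Fintype.card V : ℝ) ^ m :=
        add_le_add b1 b2
    _ = _ := by ring

private lemma MSample_tot [Fintype V] [DecidableEq V] [DecidableEq ι] {r m : ℕ} (π : V → ι)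
    (Lv : Sym2 V → Finset (Fin r)) :
    ∑ s : Fin m → V, ∑ i, ∑ j, ellF π Lv (s i) (s j) =
      m * (m - 1) * ((Fintype.card V : ℝ) ^ (m - 2) * ∑ u, ∑ v, ellF π Lv u v) := by
  rw [sum_comm]
  have h3 : ∀ i ∈ (univ : Finset (Fin m)), ∑ s : Fin m → V, ∑ j, ellF π Lv (s i) (s j) =
      (m - 1) * ((Fintype.card V : ℝ) ^ (m - 2) * ∑ u, ∑ v, ellF π Lv u v) := by
    intro i _
    rw [sum_comm, ← add_sum_erase univ _ (mem_univ i)]
    have h4 : ∑ s : Fin m → V, ellF π Lv (s i) (s i) = 0 := by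
      apply sum_eq_zero
      intro s _
      unfold ellF
      rw [if_pos rfl]
    have h5 : ∀ j ∈ univ.erase i, ∑ s : Fin m → V, ellF π Lv (s i) (s j) =
        (Fintype.card V : ℝ) ^ (m - 2) * ∑ u, ∑ v, ellF π Lv u v := by
      intro j hj
      exact MSample_two i j (ne_of_mem_erase hj).symm (ellF π Lv)
    rw [h4, zero_add, sum_congr rfl h5, sum_const, card_erase_of_mem (mem_univ i), card_univ,
      Fintype.card_fin, nsmul_eq_mul]
    have : 1 ≤ m := by have := i.2; omega
    rw [Nat.cast_sub this, Nat.cast_one]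
  rw [sum_congr rfl h3, sum_const, card_univ, Fintype.card_fin, nsmul_eq_mul]
  ring

private lemma MSample_ell_le [DecidableEq ι] {r : ℕ} (π : V → ι) (Lv : Sym2 V → Finset (Fin r))
    (u v : V) : ellF π Lv u v ≤ Real.log r := by
  have hr : 0 ≤ Real.log (r : ℝ) := Real.log_natCast_nonneg r
  unfold ellF
  split_ifs
  · exact hr
  · rcases Nat.eq_zero_or_pos (Lv s(u, v)).card with h | h
    · rw [h, Nat.cast_zero, Real.log_zero]
      exact hr
    · apply Real.log_le_log (by exact_mod_cast h)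
      have := card_le_univ (Lv s(u, v))
      rw [Fintype.card_fin] at this
      exact_mod_cast this

open Classical in
private noncomputable def MSample_J {α : Type} [Fintype α] (k : ℕ) (τ : α → ι) : ℝ :=
  ∑ a : Fin k → α, (if Function.Injective (τ ∘ a) then (1 : ℝ) else 0)

private lemma MSample_J_nonneg {α : Type} [Fintype α] (k : ℕ) (τ : α → ι) :
    0 ≤ MSample_J k τ := by
  unfold MSample_J
  apply sum_nonneg
  intro v _
  split_ifs <;> norm_num

private lemma MSample_J_ncard {α : Type} [Fintype α] (k : ℕ) (τ : α → ι) :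
    ({v : Fin k → α | Function.Injective (τ ∘ v)}.ncard : ℝ) = MSample_J k τ := by
  classical
  unfold MSample_J
  rw [MSample_ncard]

private lemma MSample_J_le {m : ℕ} (k : ℕ) (τ : Fin m → ι) : MSample_J k τ ≤ (m : ℝ) ^ k := by
  unfold MSample_J
  calc _ ≤ ∑ a : Fin k → Fin m, (1 : ℝ) := by
        apply sum_le_sum
        intro a _
        split_ifs <;> norm_num
    _ = _ := by
        rw [sum_const, card_univ, Fintype.card_fun, Fintype.card_fin, Fintype.card_fin,
          nsmul_eq_mul, mul_one]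
        push_cast
        rfl

open Classical in
/-- few injective tuples if most indices lie in few parts -/
private lemma MSample_few {k m : ℕ} (hk : 1 ≤ k) (τ : Fin m → ι) (Q : Finset ι)
    (hQ : Q.card ≤ k - 1) (ζ' : ℝ)
    (hQm : (1 - ζ') * (m : ℝ) ≤ (#{i | τ i ∈ Q} : ℝ)) :
    MSample_J k τ ≤ k * ζ' * (m : ℝ) ^ k := by
  unfold MSample_J
  have hpt : ∀ a : Fin k → Fin m, (if Function.Injective (τ ∘ a) then (1 : ℝ) else 0) ≤
      ∑ b, (if ¬ τ (a b) ∈ Q then (1 : ℝ) else 0) := by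
    intro a
    have hnn : ∀ b, 0 ≤ (if ¬ τ (a b) ∈ Q then (1 : ℝ) else 0) := by
      intro b
      split_ifs <;> norm_num
    by_cases ha : Function.Injective (τ ∘ a)
    · rw [if_pos ha]
      have hex : ∃ b, ¬ τ (a b) ∈ Q := by
        by_contra hcon
        push Not at hcon
        have h1 : (univ.image (τ ∘ a)).card ≤ Q.card := by
          apply card_le_card
          intro x hx
          rw [mem_image] at hx
          obtain ⟨b, _, rfl⟩ := hx
          exact hcon b
        rw [card_image_of_injective _ ha, card_univ, Fintype.card_fin] at h1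
        omega
      obtain ⟨b, hb⟩ := hex
      have h2 : (if ¬ τ (a b) ∈ Q then (1 : ℝ) else 0) = 1 := if_pos hb
      refine h2.symm.le.trans ?_
      exact single_le_sum (f := fun b => (if ¬ τ (a b) ∈ Q then (1 : ℝ) else 0))
        (fun b _ => hnn b) (mem_univ b)
    · rw [if_neg ha]
      exact sum_nonneg fun b _ => hnn b
  refine (sum_le_sum fun a _ => hpt a).trans ?_
  rw [sum_comm]
  have h3 : ∀ b ∈ (univ : Finset (Fin k)), ∑ a : Fin k → Fin m,
      (if ¬ τ (a b) ∈ Q then (1 : ℝ) else 0) ≤ ζ' * (m : ℝ) ^ k := by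
    intro b _
    rw [MSample_one b (fun i => ¬ τ i ∈ Q)]
    have h4 : ∑ i : Fin m, (if ¬ τ i ∈ Q then (1 : ℝ) else 0) ≤ ζ' * m := by
      have h5 : ∑ i : Fin m, (if ¬ τ i ∈ Q then (1 : ℝ) else 0) +
          ∑ i : Fin m, (if τ i ∈ Q then (1 : ℝ) else 0) = m := by
        rw [← sum_add_distrib]
        have h6 : ∀ i ∈ (univ : Finset (Fin m)), (if ¬ τ i ∈ Q then (1 : ℝ) else 0) +
            (if τ i ∈ Q then (1 : ℝ) else 0) = 1 := by
          intro i _
          split_ifs <;> norm_num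
        rw [sum_congr rfl h6, sum_const, card_univ, Fintype.card_fin, nsmul_eq_mul, mul_one]
      have h7 : ∑ i : Fin m, (if τ i ∈ Q then (1 : ℝ) else 0) = (#{i | τ i ∈ Q} : ℝ) := by
        rw [sum_boole]
      rw [h7] at h5
      linarith
    calc (m : ℝ) ^ (k - 1) * ∑ i : Fin m, (if ¬ τ i ∈ Q then (1 : ℝ) else 0) ≤
        (m : ℝ) ^ (k - 1) * (ζ' * m) := mul_le_mul_of_nonneg_left h4 (by positivity)
      _ = ζ' * ((m : ℝ) ^ (k - 1) * m) := by ring
      _ = ζ' * (m : ℝ) ^ k := by rw [← pow_succ]; congr 2; omega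
  refine (sum_le_sum h3).trans ?_
  rw [sum_const, card_univ, Fintype.card_fin, nsmul_eq_mul]
  apply le_of_eq
  ring

open Classical in
private lemma MSample_lower [Fintype V] {k m : ℕ} (π : V → ι) :
    (m.descFactorial k : ℝ) * ((Fintype.card V : ℝ) ^ (m - k) * MSample_J k π) ≤
    ∑ s : Fin m → V, MSample_J k (π ∘ s) := by
  unfold MSample_J
  rw [sum_comm]
  have h1 : ∀ a ∈ univ.filter (fun a : Fin k → Fin m => Function.Injective a),
      (Fintype.card V : ℝ) ^ (m - k) *
        ∑ v : Fin k → V, (if Function.Injective (π ∘ v) then (1 : ℝ) else 0) ≤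
      ∑ s : Fin m → V, (if Function.Injective ((π ∘ s) ∘ a) then (1 : ℝ) else 0) := by
    intro a ha
    rw [mem_filter] at ha
    rw [← avg_inj a ha.2 (fun v => if Function.Injective (π ∘ v) then (1 : ℝ) else 0)]
    apply le_of_eq
    rfl
  have h2 : (univ.filter (fun a : Fin k → Fin m => Function.Injective a)).card =
      m.descFactorial k := by
    rw [← Fintype.card_subtype, Fintype.card_congr (Equiv.subtypeInjectiveEquivEmbedding _ _),
      Fintype.card_embedding_eq, Fintype.card_fin, Fintype.card_fin]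
  calc _ = ∑ a ∈ univ.filter (fun a : Fin k → Fin m => Function.Injective a),
      ((Fintype.card V : ℝ) ^ (m - k) *
        ∑ v : Fin k → V, (if Function.Injective (π ∘ v) then (1 : ℝ) else 0)) := by
        rw [sum_const, h2, nsmul_eq_mul]
    _ ≤ ∑ a ∈ univ.filter (fun a : Fin k → Fin m => Function.Injective a),
      ∑ s : Fin m → V, (if Function.Injective ((π ∘ s) ∘ a) then (1 : ℝ) else 0) :=
        sum_le_sum h1
    _ ≤ _ := by
        apply sum_le_sum_of_subset_of_nonneg (filter_subset _ _)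
        intro a _ _
        apply sum_nonneg
        intro s _
        split_ifs <;> norm_num

private lemma MSample_desc {k m : ℕ} (hkm : k ≤ m) (hm : 4 * k ^ 2 ≤ m) (hm1 : 1 ≤ m) :
    3 / 4 * (m : ℝ) ^ k ≤ (m.descFactorial k : ℝ) := by
  rcases Nat.eq_zero_or_pos k with rfl | hk
  · simp
    norm_num
  have h1 : ((m + 1 - k : ℕ) : ℝ) ^ k ≤ (m.descFactorial k : ℝ) := by
    exact_mod_cast Nat.pow_sub_le_descFactorial m k
  refine le_trans ?_ h1
  have hm0 : (0 : ℝ) < m := by exact_mod_cast hm1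
  have hk1 : (1 : ℝ) ≤ k := by exact_mod_cast hk
  have hkmR : (k : ℝ) ≤ m := by exact_mod_cast hkm
  have hmR : 4 * (k : ℝ) ^ 2 ≤ m := by exact_mod_cast hm
  have h2 : ((m + 1 - k : ℕ) : ℝ) = m * (1 + -((k - 1) / m)) := by
    rw [Nat.cast_sub (by omega)]
    push_cast
    field_simp
    ring
  have h3 : -2 ≤ -(((k : ℝ) - 1) / m) := by
    have : ((k : ℝ) - 1) / m ≤ 1 := by
      rw [div_le_one hm0]
      linarith
    linarith
  have h4 := one_add_mul_le_pow h3 k
  rw [h2, mul_pow]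
  have h5 : (3 : ℝ) / 4 ≤ 1 + k * -(((k : ℝ) - 1) / m) := by
    have h6 : (k : ℝ) * (((k : ℝ) - 1) / m) ≤ 1 / 4 := by
      rw [mul_div_assoc', div_le_iff₀ hm0]
      nlinarith
    linarith
  calc 3 / 4 * (m : ℝ) ^ k = (m : ℝ) ^ k * (3 / 4) := by ring
    _ ≤ (m : ℝ) ^ k * (1 + -((k - 1) / m)) ^ k :=
        mul_le_mul_of_nonneg_left (h5.trans h4) (by positivity)

end

theorem sampling {k r : ℕ} (hG : Good k r) (ζ : ℝ) (hζ : 0 < ζ) : ∃ δ > 0, ∃ η > 0,
    ∀ (V ι : Type) [Fintype V] [DecidableEq V] [Nonempty V] [Fintype ι] [DecidableEq ι]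
      (π : V → ι) (Lv : Sym2 V → Finset (Fin r)),
      ({p : V × V | π p.1 ≠ π p.2 ∧ Lv s(p.1, p.2) = ∅}.ncard : ℝ) ≤
        η * (Fintype.card V : ℝ) ^ 2 →
      ({v : Fin k → V | BadTuple π Lv v}.ncard : ℝ) ≤ η * (Fintype.card V : ℝ) ^ k →
      (TT k r - δ) * (Fintype.card V : ℝ) ^ 2 ≤ ∑ u, ∑ v, ellF π Lv u v →
      ({v : Fin k → V | Function.Injective (π ∘ v)}.ncard : ℝ) ≤
        ζ * (Fintype.card V : ℝ) ^ k := by
  classical
  have hk4 : 4 ≤ k := hG.hk
  have hk0 : (0 : ℝ) < k := by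
    have : (4 : ℝ) ≤ k := by exact_mod_cast hk4
    linarith
  obtain ⟨δ', hδ', m0, hclean⟩ := clean hG (ζ / (4 * k)) (by positivity)
  set R : ℝ := Real.log r with hR
  have hR0 : 0 ≤ R := Real.log_natCast_nonneg r
  set T : ℝ := TT k r with hT
  have hT0 : 0 ≤ T := by
    rw [hT]
    unfold TT
    apply mul_nonneg _ hR0
    have : (4 : ℝ) ≤ k := by exact_mod_cast hk4
    apply div_nonneg <;> linarith
  obtain ⟨m1, hm1⟩ := exists_nat_ge (24 * T / (δ' * ζ))
  set m : ℕ := m0 + m1 + 4 * k ^ 2 + k + 2 with hm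
  have hmm0 : m0 ≤ m := by omega
  have hmk : k ≤ m := by omega
  have hm2 : 2 ≤ m := by omega
  have hm4 : 4 * k ^ 2 ≤ m := by omega
  have hmR : (0 : ℝ) < m := by
    have : 0 < m := by omega
    exact_mod_cast this
  have hmT : 24 * T / (δ' * ζ) ≤ m := by
    refine hm1.trans ?_
    have : m1 ≤ m := by omega
    exact_mod_cast this
  set M : ℝ := (m : ℝ) ^ 2 + (m : ℝ) ^ k with hM
  have hM0 : 0 < M := by positivity
  refine ⟨ζ * δ' / 12, by positivity, ζ * δ' / (12 * M * (R + δ')), by positivity, ?_⟩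
  intro V ι _ _ _ _ _ π Lv hb2 hbk hell
  set η : ℝ := ζ * δ' / (12 * M * (R + δ')) with hη
  have hη0 : 0 < η := by positivity
  set n : ℝ := (Fintype.card V : ℝ) with hn
  have hn0 : 0 < n := by
    rw [hn]
    exact_mod_cast Fintype.card_pos
  have hMη : M * η ≤ ζ / 12 := by
    rw [hη]
    have : M * (ζ * δ' / (12 * M * (R + δ'))) = ζ / 12 * (δ' / (R + δ')) := by
      field_simp
    rw [this]
    have h1 : δ' / (R + δ') ≤ 1 := by
      rw [div_le_one (by positivity)]
      linarith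
    calc ζ / 12 * (δ' / (R + δ')) ≤ ζ / 12 * 1 := mul_le_mul_of_nonneg_left h1 (by positivity)
      _ = _ := mul_one _
  have hMηR : M * η * R ≤ ζ * δ' / 12 := by
    rw [hη]
    have : M * (ζ * δ' / (12 * M * (R + δ'))) * R = ζ * δ' / 12 * (R / (R + δ')) := by
      field_simp
    rw [this]
    have h1 : R / (R + δ') ≤ 1 := by
      rw [div_le_one (by positivity)]
      linarith
    calc ζ * δ' / 12 * (R / (R + δ')) ≤ ζ * δ' / 12 * 1 :=
          mul_le_mul_of_nonneg_left h1 (by positivity)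
      _ = _ := mul_one _
  -- the number of bad samples
  have hB := MSample_bad (k := k) (m := m) hm2 hmk π Lv η hb2 hbk
  rw [← hM, ← hn] at hB
  set b : (Fin m → V) → ℝ := fun s => if ¬ MSample_Cl k π Lv s then (1 : ℝ) else 0 with hb
  set tot : (Fin m → V) → ℝ := fun s => ∑ i, ∑ j, ellF π Lv (s i) (s j) with htot
  set g : (Fin m → V) → ℝ := fun s => if MSample_Cl k π Lv s ∧ tot s < (T - δ') * (m : ℝ) ^ 2
    then (1 : ℝ) else 0 with hg
  have hb' : ∑ s, b s ≤ M * η * n ^ m := hB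
  have hcl_tot : ∀ s, MSample_Cl k π Lv s → tot s ≤ T * m * (m + 1) := by
    intro s hs
    have h1 := tot_le hG (MSample_LS hs)
    rw [Fintype.card_fin] at h1
    exact h1
  have htotR : ∀ s, tot s ≤ R * (m : ℝ) ^ 2 := by
    intro s
    calc tot s ≤ ∑ i : Fin m, ∑ j : Fin m, R :=
          sum_le_sum fun i _ => sum_le_sum fun j _ => MSample_ell_le π Lv _ _
      _ = _ := by
          simp only [sum_const, card_univ, Fintype.card_fin, nsmul_eq_mul]
          ring
  have hpt1 : ∀ s, tot s ≤ T * m * (m + 1) - g s * (δ' * (m : ℝ) ^ 2) + b s * (R * (m : ℝ) ^ 2) := by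
    intro s
    by_cases hs : MSample_Cl k π Lv s
    · have hb0 : b s = 0 := if_neg (not_not.2 hs)
      by_cases ht : tot s < (T - δ') * (m : ℝ) ^ 2
      · have hg1 : g s = 1 := if_pos ⟨hs, ht⟩
        rw [hb0, hg1]
        nlinarith
      · have hg0 : g s = 0 := if_neg (fun h => ht h.2)
        rw [hb0, hg0]
        have := hcl_tot s hs
        linarith
    · have hb1 : b s = 1 := if_pos hs
      have hg0 : g s = 0 := if_neg (fun h => hs h.1)
      rw [hb1, hg0]
      have h1 := htotR s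
      have h2 : 0 ≤ T * m * (m + 1) := by positivity
      linarith
  have hcardfun : ∑ _s : Fin m → V, (1 : ℝ) = n ^ m := by
    rw [sum_const, card_univ, Fintype.card_fun, Fintype.card_fin, nsmul_eq_mul, mul_one]
    push_cast
    rfl
  have hsum1 : ∑ s, tot s ≤ n ^ m * (T * m * (m + 1)) - (∑ s, g s) * (δ' * (m : ℝ) ^ 2) +
      (∑ s, b s) * (R * (m : ℝ) ^ 2) := by
    refine (sum_le_sum fun s _ => hpt1 s).trans ?_
    apply le_of_eq
    rw [← hcardfun, sum_mul, sum_mul, sum_mul, ← sum_sub_distrib, ← sum_add_distrib]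
    apply sum_congr rfl
    intro s _
    ring
  have htotsum : (m : ℝ) * (m - 1) * ((T - ζ * δ' / 12) * n ^ m) ≤ ∑ s, tot s := by
    rw [htot]
    rw [MSample_tot π Lv]
    apply mul_le_mul_of_nonneg_left
    · have h6 : n ^ m = n ^ (m - 2) * n ^ 2 := by
        rw [← pow_add, Nat.sub_add_cancel hm2]
      rw [h6]
      calc (T - ζ * δ' / 12) * (n ^ (m - 2) * n ^ 2) = n ^ (m - 2) * ((T - ζ * δ' / 12) * n ^ 2) := by
            ring
        _ ≤ _ := mul_le_mul_of_nonneg_left hell (by positivity)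
    · have : (2 : ℝ) ≤ m := by exact_mod_cast hm2
      apply mul_nonneg <;> linarith
  have hNpos : 0 < n ^ m := by positivity
  have hg' : ∑ s, g s ≤ ζ / 4 * n ^ m := by
    have h1 : (∑ s, b s) * (R * (m : ℝ) ^ 2) ≤ (ζ * δ' / 12) * (n ^ m * (m : ℝ) ^ 2) := by
      calc (∑ s, b s) * (R * (m : ℝ) ^ 2) ≤ (M * η * n ^ m) * (R * (m : ℝ) ^ 2) :=
            mul_le_mul_of_nonneg_right hb' (by positivity)
        _ = (M * η * R) * (n ^ m * (m : ℝ) ^ 2) := by ring
        _ ≤ _ := mul_le_mul_of_nonneg_right hMηR (by positivity)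
    have h2 : (∑ s, g s) * (δ' * (m : ℝ) ^ 2) ≤ n ^ m * (2 * T * m + m * (m - 1) * (ζ * δ' / 12)) +
        (ζ * δ' / 12) * (n ^ m * (m : ℝ) ^ 2) := by
      have h3 := htotsum.trans hsum1
      have h4 : n ^ m * (T * m * (m + 1)) - (m : ℝ) * (m - 1) * ((T - ζ * δ' / 12) * n ^ m) =
          n ^ m * (2 * T * m + m * (m - 1) * (ζ * δ' / 12)) := by ring
      linarith
    have h5 : 2 * T * m ≤ (ζ * δ' / 12) * (m : ℝ) ^ 2 := by
      rw [div_le_iff₀ (by positivity)] at hmT
      have h6 : 24 * T ≤ m * (δ' * ζ) := hmT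
      nlinarith
    have h7 : (m : ℝ) * (m - 1) * (ζ * δ' / 12) ≤ (ζ * δ' / 12) * (m : ℝ) ^ 2 := by
      have : 0 ≤ ζ * δ' / 12 := by positivity
      nlinarith
    have h8 : (∑ s, g s) * (δ' * (m : ℝ) ^ 2) ≤ (ζ / 4 * n ^ m) * (δ' * (m : ℝ) ^ 2) := by
      refine h2.trans ?_
      have h9 := mul_le_mul_of_nonneg_left (add_le_add h5 h7) hNpos.le
      calc _ ≤ n ^ m * ((ζ * δ' / 12) * (m : ℝ) ^ 2 + (ζ * δ' / 12) * (m : ℝ) ^ 2) +
          (ζ * δ' / 12) * (n ^ m * (m : ℝ) ^ 2) := by linarith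
        _ = _ := by ring
    exact le_of_mul_le_mul_right h8 (by positivity)
  -- the number of injective tuples
  set J : (Fin m → V) → ℝ := fun s => MSample_J k (π ∘ s) with hJ
  have hJle : ∀ s, J s ≤ (m : ℝ) ^ k := fun s => MSample_J_le k _
  have hpt2 : ∀ s, J s ≤ ζ / 4 * (m : ℝ) ^ k + (g s + b s) * (m : ℝ) ^ k := by
    intro s
    have hmk0 : 0 ≤ ζ / 4 * (m : ℝ) ^ k := by positivity
    by_cases hs : MSample_Cl k π Lv s
    · have hb0 : b s = 0 := if_neg (not_not.2 hs)
      by_cases ht : tot s < (T - δ') * (m : ℝ) ^ 2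
      · have hg1 : g s = 1 := if_pos ⟨hs, ht⟩
        rw [hb0, hg1]
        have := hJle s
        linarith
      · have hg0 : g s = 0 := if_neg (fun h => ht h.2)
        rw [hb0, hg0]
        obtain ⟨Q, hQ, hQm⟩ := hclean (Fin m) ι (MSample_LS hs) (by rw [Fintype.card_fin]; exact hmm0)
          (by
            rw [Fintype.card_fin]
            exact not_lt.1 ht)
        rw [Fintype.card_fin] at hQm
        have h1 := MSample_few (k := k) (m := m) (by omega) (π ∘ s) Q hQ (ζ / (4 * k)) (by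
          refine hQm.trans (le_of_eq ?_)
          congr 2
          ext i
          simp only [mem_filter, mem_univ, true_and]
          exact Iff.rfl)
        have h2 : (k : ℝ) * (ζ / (4 * k)) * (m : ℝ) ^ k = ζ / 4 * (m : ℝ) ^ k := by
          field_simp
        rw [h2] at h1
        have h3 : J s ≤ ζ / 4 * (m : ℝ) ^ k := h1
        linarith
    · have hb1 : b s = 1 := if_pos hs
      have hg0 : g s = 0 := if_neg (fun h => hs h.1)
      rw [hb1, hg0]
      have := hJle s
      linarith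
  have hsum2 : ∑ s, J s ≤ (ζ / 4 * (m : ℝ) ^ k) * n ^ m + (∑ s, g s + ∑ s, b s) * (m : ℝ) ^ k := by
    refine (sum_le_sum fun s _ => hpt2 s).trans (le_of_eq ?_)
    rw [← hcardfun, mul_sum, ← sum_add_distrib, sum_mul, ← sum_add_distrib]
    apply sum_congr rfl
    intro s _
    ring
  have hlow := MSample_lower (k := k) (m := m) π
  rw [← hn] at hlow
  rw [MSample_J_ncard]
  set I : ℝ := MSample_J k π with hIdef
  have hI0 : 0 ≤ I := MSample_J_nonneg k π
  have hdesc := MSample_desc (k := k) (m := m) hmk hm4 (by omega)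
  have hfinal : 3 / 4 * (m : ℝ) ^ k * (n ^ (m - k) * I) ≤ (7 / 12 * ζ) * ((m : ℝ) ^ k * n ^ m) := by
    calc 3 / 4 * (m : ℝ) ^ k * (n ^ (m - k) * I) ≤ (m.descFactorial k : ℝ) * (n ^ (m - k) * I) :=
          mul_le_mul_of_nonneg_right hdesc (by positivity)
      _ ≤ ∑ s, J s := hlow
      _ ≤ (ζ / 4 * (m : ℝ) ^ k) * n ^ m + (∑ s, g s + ∑ s, b s) * (m : ℝ) ^ k := hsum2
      _ ≤ (ζ / 4 * (m : ℝ) ^ k) * n ^ m + (ζ / 4 * n ^ m + ζ / 12 * n ^ m) * (m : ℝ) ^ k := by
          have h1 : M * η * n ^ m ≤ ζ / 12 * n ^ m := mul_le_mul_of_nonneg_right hMη hNpos.le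
          have h2 : ∑ s, g s + ∑ s, b s ≤ ζ / 4 * n ^ m + ζ / 12 * n ^ m :=
            add_le_add hg' (hb'.trans h1)
          have h3 := mul_le_mul_of_nonneg_right h2 (by positivity : (0 : ℝ) ≤ (m : ℝ) ^ k)
          linarith
      _ = _ := by ring
  have h6 : n ^ m = n ^ (m - k) * n ^ k := by
    rw [← pow_add]; congr 1; omega
  rw [h6] at hfinal
  have hP : 0 < (m : ℝ) ^ k * n ^ (m - k) := by positivity
  have h7 : ((m : ℝ) ^ k * n ^ (m - k)) * (3 / 4 * I) ≤
      ((m : ℝ) ^ k * n ^ (m - k)) * (7 / 12 * ζ * n ^ k) := by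
    calc _ = 3 / 4 * (m : ℝ) ^ k * (n ^ (m - k) * I) := by ring
      _ ≤ _ := hfinal
      _ = _ := by ring
  have h8 := le_of_mul_le_mul_left h7 hP
  have h9 : 0 ≤ ζ * n ^ k := by positivity
  nlinarith

end MP2ab38c
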