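import Pool.Agent.Lib.MP_2ab38c_co.RMain
import Pool.Agent.Lib.MP_2ab38c_co.MSample
import Pool.Agent.Lib.MP_2ab38c_co.MParts
import Pool.Agent.Lib.MP_2ab38c_co.ZTri
import Pool.Agent.Lib.MP_2ab38c_co.ZNum

/-!
Stability: a complete multipartite graph with at least as many cherry-free colourings as the Turan
graph has `k-1` parts of size about `n/(k-1)`.
-/

namespace MP2ab38c

open Finset SimpleGraph

theorem two_tE_lower {k : ℕ} (hk : 3 ≤ k) (n : ℕ) :
    ((k : ℝ) - 2) / ((k : ℝ) - 1) * (n : ℝ) ^ 2 - k ≤ 2 * (tE k n : ℝ) := by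
  have h := turan_lower n (k - 1) (by omega)
  have hc : ((k - 1 : ℕ) : ℝ) = (k : ℝ) - 1 := by
    rw [Nat.cast_sub (by omega)]; simp
  rw [hc] at h
  have hk1 : (0 : ℝ) < (k : ℝ) - 1 := by
    have : (3 : ℝ) ≤ k := by exact_mod_cast hk
    linarith
  have e1 : ((k : ℝ) - 1 - 1) / (2 * ((k : ℝ) - 1)) * (n : ℝ) ^ 2 * 2 =
      ((k : ℝ) - 2) / ((k : ℝ) - 1) * (n : ℝ) ^ 2 := by
    field_simp
    ring
  have hkR : (3 : ℝ) ≤ k := by exact_mod_cast hk
  unfold tE
  linarith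

theorem stability {k r : ℕ} (hG : Good k r) (ε : ℝ) (hε : 0 < ε) : ∃ n1 : ℕ, ∀ n : ℕ,
    n1 ≤ n → ∀ (ι : Type) [Fintype ι] [DecidableEq ι] (π : Fin n → ι),
      r ^ tE k n ≤ cA k r (mp π) →
      ∃ ρ : Fin (k - 1) → ι, Function.Injective ρ ∧
        ∀ i, (1 / ((k : ℝ) - 1) - ε) * (n : ℝ) ≤ (#{v | π v = ρ i} : ℝ) := by
  have hk : 4 ≤ k := hG.hk
  have hkR : (4 : ℝ) ≤ k := by exact_mod_cast hk
  have hr : 2 ≤ r := by have := num2 hG; omega
  have hrR : (2 : ℝ) ≤ r := by exact_mod_cast hr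
  have hR0 : 0 < Real.log r := Real.log_pos (by linarith)
  obtain ⟨ε1, hε1, n0, hs⟩ := sizes (k := k) (by omega) ε hε
  obtain ⟨δ, hδ, η, hη, hsamp⟩ := sampling hG (ε1 ^ k / 2) (by positivity)
  obtain ⟨n2, hreg⟩ := reg_lists k r (by omega) (by omega) (min η (δ / 2)) (by positivity)
  obtain ⟨n3, hn3⟩ := exists_nat_gt (2 * k * Real.log r / δ)
  refine ⟨max (max n0 n2) (max n3 1), ?_⟩
  intro n hn ι _ _ π hcA
  have hn0 : n0 ≤ n := le_trans (le_trans (le_max_left _ _) (le_max_left _ _)) hn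
  have hn2 : n2 ≤ n := le_trans (le_trans (le_max_right _ _) (le_max_left _ _)) hn
  have hn3' : n3 ≤ n := le_trans (le_trans (le_max_left _ _) (le_max_right _ _)) hn
  have hn1 : 1 ≤ n := le_trans (le_trans (le_max_right _ _) (le_max_right _ _)) hn
  have hnR : (1 : ℝ) ≤ n := by exact_mod_cast hn1
  have : Nonempty (Fin n) := ⟨⟨0, hn1⟩⟩
  have hcA1 : 1 ≤ cA k r (mp π) := le_trans (Nat.one_le_pow _ _ (by omega)) hcA
  obtain ⟨Lv, ha, hb, hc⟩ := hreg (Fin n) ι π (by simpa using hn2) hcA1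
  simp only [Fintype.card_fin] at ha hb hc
  have htE := two_tE_lower (k := k) (by omega) n
  -- the logarithm bound
  have hlog : (tE k n : ℝ) * Real.log r ≤ Real.log (cA k r (mp π)) := by
    rw [← Real.log_pow]
    apply Real.log_le_log
    · positivity
    · exact_mod_cast hcA
  have hTT : TT k r * (n : ℝ) ^ 2 - k * Real.log r ≤ 2 * Real.log (cA k r (mp π)) := by
    have : TT k r * (n : ℝ) ^ 2 - k * Real.log r =
        (((k : ℝ) - 2) / ((k : ℝ) - 1) * (n : ℝ) ^ 2 - k) * Real.log r := by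
      unfold TT; ring
    rw [this]
    nlinarith
  have hbig : (k : ℝ) * Real.log r ≤ δ / 2 * (n : ℝ) ^ 2 := by
    have h1 : 2 * k * Real.log r / δ ≤ n := hn3.le.trans (by exact_mod_cast hn3')
    rw [div_le_iff₀ hδ] at h1
    have h2 : (n : ℝ) * δ ≤ (n : ℝ) ^ 2 * δ := by
      apply mul_le_mul_of_nonneg_right _ hδ.le
      nlinarith
    linarith
  have hmin1 : min η (δ / 2) ≤ η := min_le_left _ _
  have hmin2 : min η (δ / 2) ≤ δ / 2 := min_le_right _ _
  have hinj := hsamp (Fin n) ι π Lv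
    (by
      simp only [Fintype.card_fin]
      exact ha.trans (by gcongr))
    (by
      simp only [Fintype.card_fin]
      exact hb.trans (by gcongr))
    (by
      simp only [Fintype.card_fin]
      refine le_trans ?_ hc
      have : min η (δ / 2) * (n : ℝ) ^ 2 ≤ δ / 2 * (n : ℝ) ^ 2 := by gcongr
      nlinarith)
  simp only [Fintype.card_fin] at hinj
  -- edges
  have he : tE k n ≤ (mp π).edgeSet.ncard := by
    have h1 := cA_le_pow k r (mp π)
    have h2 := hcA.trans h1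
    exact (Nat.pow_le_pow_iff_right (by omega)).1 h2
  have he2 : ((k : ℝ) - 2) / ((k : ℝ) - 1) * (n : ℝ) ^ 2 - k ≤
      ({p : Fin n × Fin n | π p.1 ≠ π p.2}.ncard : ℝ) := by
    rw [← two_mul_edges π]
    push_cast
    have : (tE k n : ℝ) ≤ ((mp π).edgeSet.ncard : ℝ) := by exact_mod_cast he
    linarith
  -- a good Q
  have hQ : ∃ Q : Finset ι, Q.card ≤ k - 1 ∧ (1 - ε1) * (n : ℝ) < (#{v | π v ∈ Q} : ℝ) := by
    by_contra hcon
    push Not at hcon
    have := parts_cover (k := k) (by omega) π ε1 hε1.le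
      (by
        intro Q hQ
        simpa using hcon Q hQ)
    simp only [Fintype.card_fin] at this
    have h3 := this.trans hinj
    rw [mul_pow] at h3
    have : 0 < ε1 ^ k * (n : ℝ) ^ k := by positivity
    nlinarith
  obtain ⟨Q, hQ1, hQ2⟩ := hQ
  have := hs (Fin n) ι π Q (by simpa using hn0) hQ1 (by simpa using hQ2.le)
    (by simpa using he2)
  simpa using this

end MP2ab38c
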