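import Pool.Agent.Lib.MP_2ab38c_co.FDefs

/-!
JOB FStar.  In a good cherry-free colouring, every vertex `v` adjacent to all of the `X i` sees at
least three of the `X i` in at most `k-2` popular colours.

Proof.  Let `P i` be the set of popular colours on `X i` (used at least `N` times from `v`); it is
nonempty because `r N ≤ |X i|` and all pairs `v x`, `x ∈ X i`, are edges.  Suppose at most two
of the `P i` have at most `k-2` elements.  Choose `c i ∈ P i`, first for those (at most two) `i`,
then for the others one by one, different from all colours chosen so far (`|P i| ≥ k-1`).  So among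
the `c i` there is at most one coincidence.  Let `A i = {x ∈ X i | F(v x) = c i}`, `|A i| ≥ N`.
Choose `g : Sym2 (Fin (k-1)) → Fin r`:
if `c i = c j` for some `i ≠ j`: injective on the edges (non-diagonal elements), avoiding all `c i`;
if all `c i` are distinct: `g s(0,1) = c 0`, on the other edges injective and avoiding all `c i`.
This needs `C(k,2) - 1 ≤ r` colours in total.  `GoodF` gives `a i ∈ A i` with
`ext F s(a i, a j) = g s(i,j)`.  The tuple `(v, a 0, ..., a (k-2))` (`Fin.cons`, casting
`k = (k-1)+1`) violates `PAFree`: the only coincidence is `va_i`, `va_j` (centre `v`), respectively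
`v a_0`, `a_0 a_1` (centre `a_0`).
-/

namespace MP2ab38c

open Finset

/-- a non-diagonal pair of `Fin (m+1)` contains `0` or comes from `Fin m` -/
lemma FStar_cases {m : ℕ} (e : Sym2 (Fin (m + 1))) (he : ¬ e.IsDiag) :
    (∃ i : Fin m, e = s(0, i.succ)) ∨
      ∃ e' : Sym2 (Fin m), ¬ e'.IsDiag ∧ e = e'.map Fin.succ := by
  induction e using Sym2.ind with
  | _ p q =>
    rw [Sym2.mk_isDiag_iff] at he
    rcases Fin.eq_zero_or_eq_succ p with hp | ⟨i, hp⟩
    · rcases Fin.eq_zero_or_eq_succ q with hq | ⟨j, hq⟩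
      · exact absurd (hp.trans hq.symm) he
      · exact Or.inl ⟨j, by rw [hp, hq]⟩
    · rcases Fin.eq_zero_or_eq_succ q with hq | ⟨j, hq⟩
      · exact Or.inl ⟨i, by rw [hp, hq, Sym2.eq_swap]⟩
      · refine Or.inr ⟨s(i, j), ?_, by rw [hp, hq]; rfl⟩
        rw [Sym2.mk_isDiag_iff]
        intro h
        exact he (by rw [hp, hq, h])

/-- the case of a coincidence at the centre `0` -/
lemma FStar_oneAdj1 {m : ℕ} {α : Type} (C : Sym2 (Fin (m + 1)) → α) (c : Fin m → α)
    (g : Sym2 (Fin m) → α) (h1 : ∀ i, C s(0, i.succ) = c i)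
    (h2 : ∀ e, ¬ e.IsDiag → C (e.map Fin.succ) = g e) (i0 j0 : Fin m) (hij : i0 ≠ j0)
    (hc0 : c i0 = c j0)
    (hc : ∀ i j, i ≠ j → c i = c j → (i = i0 ∧ j = j0) ∨ (i = j0 ∧ j = i0))
    (hg : ∀ e f, ¬ e.IsDiag → ¬ f.IsDiag → g e = g f → e = f)
    (hgc : ∀ i e, ¬ e.IsDiag → g e ≠ c i) :
    OneAdj (univ : Finset (Fin (m + 1))) C := by
  refine ⟨0, mem_univ _, i0.succ, mem_univ _, j0.succ, mem_univ _, (Fin.succ_ne_zero _).symm,
    (Fin.succ_ne_zero _).symm, ?_, by rw [h1, h1, hc0], ?_⟩
  · intro h
    exact hij (Fin.succ_injective _ h)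
  intro e f _ _ he hf hef
  rcases FStar_cases e he with ⟨i, rfl⟩ | ⟨e', he', rfl⟩
  · rcases FStar_cases f hf with ⟨j, rfl⟩ | ⟨f', hf', rfl⟩
    · rw [h1, h1] at hef
      by_cases h : i = j
      · exact Or.inl (by rw [h])
      · rcases hc i j h hef with ⟨rfl, rfl⟩ | ⟨rfl, rfl⟩
        · exact Or.inr (Or.inl ⟨rfl, rfl⟩)
        · exact Or.inr (Or.inr ⟨rfl, rfl⟩)
    · rw [h1, h2 _ hf'] at hef
      exact absurd hef.symm (hgc i f' hf')
  · rcases FStar_cases f hf with ⟨j, rfl⟩ | ⟨f', hf', rfl⟩
    · rw [h1, h2 _ he'] at hef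
      exact absurd hef (hgc j e' he')
    · rw [h2 _ he', h2 _ hf'] at hef
      exact Or.inl (by rw [hg e' f' he' hf' hef])

/-- the case of no coincidence at the centre `0` -/
lemma FStar_oneAdj2 {m : ℕ} {α : Type} (C : Sym2 (Fin (m + 1)) → α) (c : Fin m → α)
    (g : Sym2 (Fin m) → α) (h1 : ∀ i, C s(0, i.succ) = c i)
    (h2 : ∀ e, ¬ e.IsDiag → C (e.map Fin.succ) = g e) (i0 j0 : Fin m) (hij : i0 ≠ j0)
    (hg0 : g s(i0, j0) = c i0)
    (hc : ∀ i j, c i = c j → i = j)
    (hg : ∀ e f, ¬ e.IsDiag → ¬ f.IsDiag → e ≠ s(i0, j0) → f ≠ s(i0, j0) → g e = g f → e = f)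
    (hgc : ∀ i e, ¬ e.IsDiag → e ≠ s(i0, j0) → g e ≠ c i) :
    OneAdj (univ : Finset (Fin (m + 1))) C := by
  have hd : ¬ (s(i0, j0) : Sym2 (Fin m)).IsDiag := by
    rw [Sym2.mk_isDiag_iff]; exact hij
  have hm : (s(i0, j0) : Sym2 (Fin m)).map Fin.succ = s(i0.succ, j0.succ) := rfl
  refine ⟨i0.succ, mem_univ _, 0, mem_univ _, j0.succ, mem_univ _, Fin.succ_ne_zero _,
    ?_, (Fin.succ_ne_zero _).symm, ?_, ?_⟩
  · intro h
    exact hij (Fin.succ_injective _ h)
  · rw [Sym2.eq_swap, h1, ← hm, h2 _ hd, hg0]
  intro e f _ _ he hf hef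
  rcases FStar_cases e he with ⟨i, rfl⟩ | ⟨e', he', rfl⟩
  · rcases FStar_cases f hf with ⟨j, rfl⟩ | ⟨f', hf', rfl⟩
    · rw [h1, h1] at hef
      exact Or.inl (by rw [hc i j hef])
    · rw [h1, h2 _ hf'] at hef
      by_cases h : f' = s(i0, j0)
      · subst h
        rw [hg0] at hef
        have := hc _ _ hef
        subst this
        exact Or.inr (Or.inl ⟨Sym2.eq_swap, rfl⟩)
      · exact absurd hef.symm (hgc i f' hf' h)
  · rcases FStar_cases f hf with ⟨j, rfl⟩ | ⟨f', hf', rfl⟩
    · rw [h1, h2 _ he'] at hef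
      by_cases h : e' = s(i0, j0)
      · subst h
        rw [hg0] at hef
        have := hc _ _ hef
        subst this
        exact Or.inr (Or.inr ⟨rfl, Sym2.eq_swap⟩)
      · exact absurd hef (hgc j e' he' h)
    · rw [h2 _ he', h2 _ hf'] at hef
      left
      by_cases h : e' = s(i0, j0)
      · by_cases h' : f' = s(i0, j0)
        · rw [h, h']
        · rw [h, hg0] at hef
          exact absurd hef.symm (hgc _ f' hf' h')
      · by_cases h' : f' = s(i0, j0)
        · rw [h', hg0] at hef
          exact absurd hef (hgc _ e' he' h)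
        · rw [hg e' f' he' hf' h h' hef]

/-- greedy choice of the colours at the centre -/
lemma FStar_greedy {m r : ℕ} (P : Fin m → Finset (Fin r)) (hP : ∀ i, (P i).Nonempty)
    (J : Finset (Fin m)) (hJ : ∀ i, i ∉ J → m ≤ (P i).card) (T : Finset (Fin m)) :
    ∃ c : Fin m → Fin r, (∀ i, c i ∈ P i) ∧
      ∀ i ∈ J ∪ T, ∀ j ∈ J ∪ T, i ≠ j → c i = c j → i ∈ J ∧ j ∈ J := by
  classical
  induction T using Finset.induction_on with
  | empty =>
    refine ⟨fun i => (hP i).choose, fun i => (hP i).choose_spec, ?_⟩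
    intro i hi j hj _ _
    simp only [union_empty] at hi hj
    exact ⟨hi, hj⟩
  | insert a T _ ih =>
    obtain ⟨c, hc, hcc⟩ := ih
    by_cases haT : a ∈ J ∪ T
    · refine ⟨c, hc, ?_⟩
      have : J ∪ insert a T = J ∪ T := by
        rw [union_insert, insert_eq_of_mem haT]
      rw [this]
      exact hcc
    · have haJ : a ∉ J := fun h => haT (mem_union_left _ h)
      have hlt : ((J ∪ T).image c).card < (P a).card := by
        have h1 : ((J ∪ T).image c).card ≤ (J ∪ T).card := card_image_le
        have h2 : (J ∪ T).card < m := by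
          have : (J ∪ T).card < (univ : Finset (Fin m)).card := by
            apply card_lt_card
            rw [Finset.ssubset_univ_iff]
            intro h
            exact haT (h ▸ mem_univ a)
          simpa using this
        exact lt_of_le_of_lt h1 (lt_of_lt_of_le h2 (hJ a haJ))
      obtain ⟨x, hxP, hx⟩ := Finset.exists_mem_notMem_of_card_lt_card hlt
      refine ⟨Function.update c a x, ?_, ?_⟩
      · intro i
        by_cases h : i = a
        · subst h; simpa using hxP
        · rw [Function.update_of_ne h]; exact hc i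
      · intro i hi j hj hij hcij
        rw [union_insert, mem_insert] at hi hj
        by_cases h : i = a
        · subst h
          have hj' : j ∈ J ∪ T := by
            rcases hj with h | h
            · exact absurd h.symm hij
            · exact h
          rw [Function.update_self, Function.update_of_ne (Ne.symm hij)] at hcij
          exact absurd (mem_image.2 ⟨j, hj', hcij.symm⟩) hx
        · have hi' : i ∈ J ∪ T := by
            rcases hi with h' | h'
            · exact absurd h' h
            · exact h'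
          rw [Function.update_of_ne h] at hcij
          by_cases h' : j = a
          · subst h'
            rw [Function.update_self] at hcij
            exact absurd (mem_image.2 ⟨i, hi', hcij⟩) hx
          · have hj' : j ∈ J ∪ T := by
              rcases hj with h'' | h''
              · exact absurd h'' h'
              · exact h''
            rw [Function.update_of_ne h'] at hcij
            exact hcc i hi' j hj' hij hcij

/-- a rainbow pattern avoiding the colours at the centre -/
lemma FStar_pattern {m r : ℕ} (hr : (m + 1).choose 2 ≤ r) (hm : 0 < m) (c : Fin m → Fin r) :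
    ∃ g : Sym2 (Fin m) → Fin r, (∀ e f, ¬ e.IsDiag → ¬ f.IsDiag → g e = g f → e = f) ∧
      ∀ i e, ¬ e.IsDiag → g e ≠ c i := by
  classical
  have hcard : Fintype.card {e : Sym2 (Fin m) // ¬ e.IsDiag} ≤
      Fintype.card {x : Fin r // x ∉ (univ : Finset (Fin m)).image c} := by
    rw [Sym2.card_subtype_not_diag, Fintype.card_fin]
    have h1 : Fintype.card {x : Fin r // x ∉ (univ : Finset (Fin m)).image c} =
        r - ((univ : Finset (Fin m)).image c).card := by
      rw [Fintype.card_subtype_compl, Fintype.card_fin, Fintype.card_coe]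
    rw [h1]
    have h2 : ((univ : Finset (Fin m)).image c).card ≤ m := by
      calc _ ≤ (univ : Finset (Fin m)).card := card_image_le
        _ = m := by simp
    have h3 : (m + 1).choose 2 = m + m.choose 2 := by
      rw [Nat.choose_succ_succ' m 1, Nat.choose_one_right]
    omega
  obtain ⟨φ⟩ := Function.Embedding.nonempty_of_card_le hcard
  refine ⟨fun e => if h : ¬ e.IsDiag then (φ ⟨e, h⟩).1 else c ⟨0, hm⟩, ?_, ?_⟩
  · intro e f he hf hef
    simp only [he, hf, not_false_eq_true, dite_true] at hef
    have := φ.injective (Subtype.ext hef)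
    exact congrArg Subtype.val this
  · intro i e he h
    simp only [he, not_false_eq_true, dite_true] at h
    exact (φ ⟨e, he⟩).2 (h ▸ mem_image_of_mem c (mem_univ i))

/-- the sets of popular colours are nonempty -/
lemma FStar_pop_nonempty {V : Type} {r : ℕ} (hr : 0 < r) (X : Finset V)
    (f : V → Option (Fin r)) (hf : ∀ x ∈ X, (f x).isSome) (N : ℕ) (hN : r * N ≤ X.card) :
    (univ.filter (fun c : Fin r => N ≤ #{x ∈ X | f x = some c})).Nonempty := by
  classical
  by_contra hne
  rw [Finset.not_nonempty_iff_eq_empty, Finset.filter_eq_empty_iff] at hne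
  have hsum : X.card = ∑ c : Fin r, #{x ∈ X | f x = some c} := by
    have hX : X.card = ∑ o ∈ (univ : Finset (Option (Fin r))), #{x ∈ X | f x = o} :=
      Finset.card_eq_sum_card_fiberwise (fun x _ => mem_univ _)
    rw [hX, Fintype.sum_option]
    have h0 : #{x ∈ X | f x = none} = 0 := by
      rw [Finset.card_eq_zero, Finset.filter_eq_empty_iff]
      intro x hx h
      have := hf x hx
      rw [h] at this
      simp at this
    rw [h0, zero_add]
  have hlt : ∑ c : Fin r, #{x ∈ X | f x = some c} < ∑ _c : Fin r, N := by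
    apply Finset.sum_lt_sum_of_nonempty
    · exact ⟨⟨0, hr⟩, mem_univ _⟩
    · intro c _
      have := hne (mem_univ c)
      omega
  rw [Finset.sum_const, Finset.card_univ, Fintype.card_fin, smul_eq_mul, ← hsum] at hlt
  omega

/-- the statement with `k = m + 1` -/
lemma FStar_main {m r : ℕ} (hk : 3 ≤ m) (hr : (m + 1).choose 2 ≤ r) {V ι : Type} [Fintype V]
    [DecidableEq V] (π : V → ι) (X : Fin m → Finset V)
    (hX : ∀ i j, i ≠ j → ∀ u ∈ X i, ∀ u' ∈ X j, π u ≠ π u') (v : V)
    (hv : ∀ i, ∀ u ∈ X i, π v ≠ π u) (F : (mp π).edgeSet → Fin r)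
    (hF : PAFree (m + 1) (mp π) F) (N : ℕ)
    (hgood : ∀ A : Fin m → Finset V, (∀ i, A i ⊆ X i) → (∀ i, N ≤ (A i).card) →
      ∀ g : Sym2 (Fin m) → Fin r, ∃ a : Fin m → V, (∀ i, a i ∈ A i) ∧
        ∀ i j, i ≠ j → ext F s(a i, a j) = some (g s(i, j)))
    (hN : ∀ i, r * N ≤ (X i).card) :
    ∃ J : Finset (Fin m), 3 ≤ J.card ∧
      ∀ i ∈ J, popN (X i) N (fun x => ext F s(v, x)) ≤ m - 1 := by
  classical
  have hrpos : 0 < r := by
    have : 0 < (m + 1).choose 2 := Nat.choose_pos (by omega)
    omega
  set P : Fin m → Finset (Fin r) := fun i =>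
    univ.filter (fun c : Fin r => N ≤ #{x ∈ X i | ext F s(v, x) = some c}) with hPdef
  have hPne : ∀ i, (P i).Nonempty := by
    intro i
    apply FStar_pop_nonempty hrpos (X i) (fun x => ext F s(v, x)) _ N (hN i)
    intro x hx
    have hadj : s(v, x) ∈ (mp π).edgeSet := by
      rw [SimpleGraph.mem_edgeSet]; exact hv i x hx
    simp only [ext, hadj, dite_true, Option.isSome_some]
  have hpop : ∀ i, popN (X i) N (fun x => ext F s(v, x)) = (P i).card := fun i => rfl
  refine ⟨univ.filter (fun i => popN (X i) N (fun x => ext F s(v, x)) ≤ m - 1), ?_, ?_⟩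
  swap
  · intro i hi
    exact (mem_filter.1 hi).2
  by_contra hJ3
  rw [not_le] at hJ3
  set J : Finset (Fin m) :=
    univ.filter (fun i => popN (X i) N (fun x => ext F s(v, x)) ≤ m - 1) with hJdef
  have hJ : ∀ i, i ∉ J → m ≤ (P i).card := by
    intro i hi
    rw [hJdef, mem_filter, not_and] at hi
    have := hi (mem_univ i)
    rw [hpop] at this
    omega
  obtain ⟨c, hcP, hcc⟩ := FStar_greedy P hPne J hJ univ
  have hcc' : ∀ i j, i ≠ j → c i = c j → i ∈ J ∧ j ∈ J := fun i j hij h =>
    hcc i (mem_union_right _ (mem_univ i)) j (mem_union_right _ (mem_univ j)) hij h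
  obtain ⟨g0, hg0, hg0c⟩ := FStar_pattern hr (by omega) c
  -- the boxes
  have key : ∀ g : Sym2 (Fin m) → Fin r, ∃ w : Fin (m + 1) → V,
      (∀ a b, a ≠ b → (mp π).Adj (w a) (w b)) ∧
      (∀ i : Fin m, ext F ((s(0, i.succ) : Sym2 (Fin (m + 1))).map w) = some (c i)) ∧
      ∀ e : Sym2 (Fin m), ¬ e.IsDiag → ext F ((e.map Fin.succ).map w) = some (g e) := by
    intro g
    obtain ⟨a, ha, hag⟩ := hgood (fun i => {x ∈ X i | ext F s(v, x) = some (c i)})
      (fun i => filter_subset _ _) (fun i => (mem_filter.1 (hcP i)).2) g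
    refine ⟨Fin.cons v a, ?_, ?_, ?_⟩
    · intro p q hpq
      rw [mp_adj]
      rcases Fin.eq_zero_or_eq_succ p with rfl | ⟨i, rfl⟩
      · rcases Fin.eq_zero_or_eq_succ q with rfl | ⟨j, rfl⟩
        · exact absurd rfl hpq
        · rw [Fin.cons_zero, Fin.cons_succ]
          exact hv j _ (mem_filter.1 (ha j)).1
      · rcases Fin.eq_zero_or_eq_succ q with rfl | ⟨j, rfl⟩
        · rw [Fin.cons_zero, Fin.cons_succ]
          exact (hv i _ (mem_filter.1 (ha i)).1).symm
        · rw [Fin.cons_succ, Fin.cons_succ]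
          have hij : i ≠ j := fun h => hpq (by rw [h])
          exact hX i j hij _ (mem_filter.1 (ha i)).1 _ (mem_filter.1 (ha j)).1
    · intro i
      rw [Sym2.map_mk]
      have := (mem_filter.1 (ha i)).2
      simpa [Fin.cons_zero, Fin.cons_succ] using this
    · intro e he
      induction e using Sym2.ind with
      | _ i j =>
        rw [Sym2.mk_isDiag_iff] at he
        rw [Sym2.map_mk, Sym2.map_mk]
        have := hag i j he
        simpa [Fin.cons_succ] using this
  by_cases hcoin : ∃ i j, i ≠ j ∧ c i = c j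
  · obtain ⟨i0, j0, hij, hcij⟩ := hcoin
    obtain ⟨w, hw, hw1, hw2⟩ := key g0
    apply hF
    refine ⟨w, hw, ?_⟩
    apply FStar_oneAdj1 (fun e => ext F (e.map w)) (fun i => some (c i)) (fun e => some (g0 e))
      hw1 hw2 i0 j0 hij (congrArg some hcij)
    · intro i j hne hce
      have hce' : c i = c j := Option.some_injective _ hce
      have hJ0 := hcc' i0 j0 hij hcij
      have hJ1 := hcc' i j hne hce'
      have hJeq : J = {i0, j0} := by
        symm
        apply Finset.eq_of_subset_of_card_le
        · intro x hx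
          rw [mem_insert, mem_singleton] at hx
          rcases hx with rfl | rfl
          · exact hJ0.1
          · exact hJ0.2
        · rw [card_pair hij]; omega
      rw [hJeq] at hJ1
      simp only [mem_insert, mem_singleton] at hJ1
      rcases hJ1 with ⟨h1 | h1, h2 | h2⟩
      · exact absurd (h1.trans h2.symm) hne
      · exact Or.inl ⟨h1, h2⟩
      · exact Or.inr ⟨h1, h2⟩
      · exact absurd (h1.trans h2.symm) hne
    · intro e f he hf hef
      exact hg0 e f he hf (Option.some_injective _ hef)
    · intro i e he h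
      exact hg0c i e he (Option.some_injective _ h)
  · push Not at hcoin
    have hcinj : ∀ i j, c i = c j → i = j := by
      intro i j h
      by_contra hne
      exact hcoin i j hne h
    set i0 : Fin m := ⟨0, by omega⟩ with hi0
    set j0 : Fin m := ⟨1, by omega⟩ with hj0
    have hij : i0 ≠ j0 := by
      rw [hi0, hj0]
      intro h
      have := Fin.mk.inj_iff.1 h
      omega
    obtain ⟨w, hw, hw1, hw2⟩ := key (Function.update g0 s(i0, j0) (c i0))
    apply hF
    refine ⟨w, hw, ?_⟩
    apply FStar_oneAdj2 (fun e => ext F (e.map w)) (fun i => some (c i))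
      (fun e => some (Function.update g0 s(i0, j0) (c i0) e))
      hw1 hw2 i0 j0 hij
    · simp
    · intro i j h
      exact hcinj i j (Option.some_injective _ h)
    · intro e f he hf he' hf' hef
      have hef' := Option.some_injective _ hef
      rw [Function.update_of_ne he', Function.update_of_ne hf'] at hef'
      exact hg0 e f he hf hef'
    · intro i e he he' h
      have h' := Option.some_injective _ h
      rw [Function.update_of_ne he'] at h'
      exact hg0c i e he h'

theorem star_small {k r : ℕ} (hk : 4 ≤ k) (hr : k.choose 2 ≤ r) {V ι : Type} [Fintype V]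
    [DecidableEq V] (π : V → ι) (X : Fin (k - 1) → Finset V)
    (hX : ∀ i j, i ≠ j → ∀ u ∈ X i, ∀ u' ∈ X j, π u ≠ π u') (v : V)
    (hv : ∀ i, ∀ u ∈ X i, π v ≠ π u) (F : (mp π).edgeSet → Fin r)
    (hF : PAFree k (mp π) F) (N : ℕ) (hgood : GoodF (k := k) X N F)
    (hN1 : 1 ≤ N) (hN : ∀ i, r * N ≤ (X i).card) :
    StarSmall k N X (fun x => ext F s(v, x)) := by
  obtain ⟨m, rfl⟩ : ∃ m, k = m + 1 := ⟨k - 1, by omega⟩
  exact FStar_main (m := m) (by omega) hr π X hX v hv F hF N hgood hN

end MP2ab38c
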