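import Pool.Agent.Lib.MP_2ab38c_co.Core

/-!
JOB KGreedy.  `greedy`: colour the edges of `K` not in `E0` one after the other, each with a colour
of its list different from all colours used so far: when the last edge is coloured at most
`C(k,2) - 1` other edges carry colours, with at least one coincidence (`xy`, `xz`), hence at most
`C(k,2) - 2` colours are used, and the list has `C(k,2) - 1` elements.  (Induction on the number of
uncoloured edges, the invariant being the hypotheses with `E0` growing.)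
`no_choice`: the Finset form of freeness, from the tuple form, via an equivalence `Fin k ≃ K`.
`no_ext`: combination of the two.
-/

namespace MP2ab38c

open Finset

private theorem kgreedy_mem {I : Type} [DecidableEq I] (K : Finset I) (e : Sym2 I) :
    e ∈ K.offDiag.image Sym2.mk.uncurry ↔ ¬ e.IsDiag ∧ ∀ a ∈ e, a ∈ K := by
  induction e using Sym2.ind with
  | _ i j =>
    simp only [Finset.mem_image, Finset.mem_offDiag, Prod.exists, Sym2.mk_isDiag_iff,
      Sym2.mem_iff, forall_eq_or_imp, forall_eq]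
    constructor
    · rintro ⟨a, b, ⟨ha, hb, hab⟩, h⟩
      rcases Sym2.eq_iff.mp h with ⟨rfl, rfl⟩ | ⟨rfl, rfl⟩
      · exact ⟨hab, ha, hb⟩
      · exact ⟨fun h => hab h.symm, hb, ha⟩
    · rintro ⟨h1, h2, h3⟩
      exact ⟨i, j, ⟨h2, h3, h1⟩, rfl⟩

private theorem kgreedy_aux {I : Type} [DecidableEq I] {k r : ℕ} (K : Finset I)
    (hK : K.card = k)
    (L : Sym2 I → Finset (Fin r)) (x y z : I)
    (hx : x ∈ K) (hy : y ∈ K) (hz : z ∈ K) (hxy : x ≠ y) (hxz : x ≠ z) (hyz : y ≠ z) (m : ℕ) :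
    ∀ (E0 : Finset (Sym2 I)) (c0 : Sym2 I → Fin r),
      ((K.offDiag.image Sym2.mk.uncurry) \ E0).card = m →
      s(x, y) ∈ E0 → s(x, z) ∈ E0 → c0 s(x, y) = c0 s(x, z) →
      (∀ e ∈ E0, ∀ f ∈ E0, c0 e = c0 f →
        e = f ∨ (e = s(x, y) ∧ f = s(x, z)) ∨ (e = s(x, z) ∧ f = s(x, y))) →
      (∀ e ∈ E0, c0 e ∈ L e) → (∀ e ∈ E0, ¬ e.IsDiag ∧ ∀ a ∈ e, a ∈ K) →
      (∀ i ∈ K, ∀ j ∈ K, i ≠ j → s(i, j) ∉ E0 → k.choose 2 - 1 ≤ (L s(i, j)).card) →
      ∃ c : Sym2 I → Fin r,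
        (∀ i ∈ K, ∀ j ∈ K, i ≠ j → c s(i, j) ∈ L s(i, j)) ∧ OneAdj K c := by
  induction m with
  | zero =>
    intro E0 c0 hm h1 h2 hc hinj hL0 hsub hbig
    have hsup : ∀ e ∈ K.offDiag.image Sym2.mk.uncurry, e ∈ E0 := by
      have := Finset.card_eq_zero.mp hm
      rw [Finset.sdiff_eq_empty_iff_subset] at this
      exact fun e he => this he
    refine ⟨c0, ?_, x, hx, y, hy, z, hz, hxy, hxz, hyz, hc, ?_⟩
    · intro i hi j hj hij
      refine hL0 _ (hsup _ ?_)
      exact Finset.mem_image.mpr ⟨(i, j), Finset.mem_offDiag.mpr ⟨hi, hj, hij⟩, rfl⟩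
    · intro e f he hf hde hdf hcef
      exact hinj e (hsup e ((kgreedy_mem K e).mpr ⟨hde, he⟩)) f
        (hsup f ((kgreedy_mem K f).mpr ⟨hdf, hf⟩)) hcef
  | succ m ih =>
    intro E0 c0 hm h1 h2 hc hinj hL0 hsub hbig
    obtain ⟨e, he⟩ : ((K.offDiag.image Sym2.mk.uncurry) \ E0).Nonempty := by
      rw [← Finset.card_pos, hm]; omega
    obtain ⟨heK, heE⟩ := Finset.mem_sdiff.mp he
    have hE0K : E0 ⊆ (K.offDiag.image Sym2.mk.uncurry).erase e := by
      intro f hf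
      refine Finset.mem_erase.mpr ⟨?_, (kgreedy_mem K f).mpr (hsub f hf)⟩
      rintro rfl
      exact heE hf
    have hcard := Finset.card_le_card hE0K
    rw [Finset.card_erase_of_mem heK, Sym2.card_image_offDiag, hK] at hcard
    have hne : s(x, y) ≠ s(x, z) := by
      intro h
      rcases Sym2.eq_iff.mp h with ⟨_, h⟩ | ⟨h, _⟩
      · exact hyz h
      · exact hxz h
    have h2E : 2 ≤ E0.card := by
      have : ({s(x, y), s(x, z)} : Finset (Sym2 I)) ⊆ E0 := by
        intro f hf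
        rcases Finset.mem_insert.mp hf with rfl | hf
        · exact h1
        · rw [Finset.mem_singleton.mp hf]; exact h2
      have h3 := Finset.card_le_card this
      rwa [Finset.card_pair hne] at h3
    have himg : E0.image c0 ⊆ (E0.erase s(x, z)).image c0 := by
      intro a ha
      obtain ⟨f, hf, rfl⟩ := Finset.mem_image.mp ha
      by_cases hfz : f = s(x, z)
      · refine Finset.mem_image.mpr ⟨s(x, y), Finset.mem_erase.mpr ⟨hne, h1⟩, ?_⟩
        rw [hfz, hc]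
      · exact Finset.mem_image.mpr ⟨f, Finset.mem_erase.mpr ⟨hfz, hf⟩, rfl⟩
    have hU : (E0.image c0).card ≤ E0.card - 1 := by
      refine (Finset.card_le_card himg).trans (Finset.card_image_le.trans ?_)
      rw [Finset.card_erase_of_mem h2]
    have hLe : k.choose 2 - 1 ≤ (L e).card := by
      obtain ⟨⟨i, j⟩, hij, rfl⟩ := Finset.mem_image.mp heK
      obtain ⟨hi, hj, hij'⟩ := Finset.mem_offDiag.mp hij
      exact hbig i hi j hj hij' heE
    obtain ⟨a, haL, haU⟩ : ∃ a ∈ L e, a ∉ E0.image c0 := by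
      refine Finset.exists_mem_notMem_of_card_lt_card ?_
      omega
    have hup : ∀ f ∈ E0, Function.update c0 e a f = c0 f := by
      intro f hf
      refine Function.update_of_ne ?_ _ _
      rintro rfl
      exact heE hf
    have haU' : ∀ f ∈ E0, c0 f ≠ a := by
      intro f hf h
      exact haU (Finset.mem_image.mpr ⟨f, hf, h⟩)
    refine ih (insert e E0) (Function.update c0 e a) ?_ (Finset.mem_insert_of_mem h1)
      (Finset.mem_insert_of_mem h2) ?_ ?_ ?_ ?_ ?_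
    · rw [Finset.sdiff_insert, Finset.card_erase_of_mem he, hm]
      omega
    · rw [hup _ h1, hup _ h2, hc]
    · intro f hf g hg hfg
      rcases Finset.mem_insert.mp hf with hf' | hf'
      · rcases Finset.mem_insert.mp hg with hg' | hg'
        · exact Or.inl (hf'.trans hg'.symm)
        · rw [hf', Function.update_self, hup g hg'] at hfg
          exact absurd hfg.symm (haU' g hg')
      · rcases Finset.mem_insert.mp hg with hg' | hg'
        · rw [hg', Function.update_self, hup f hf'] at hfg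
          exact absurd hfg (haU' f hf')
        · rw [hup f hf', hup g hg'] at hfg
          exact hinj f hf' g hg' hfg
    · intro f hf
      rcases Finset.mem_insert.mp hf with rfl | hf
      · rw [Function.update_self]; exact haL
      · rw [hup f hf]; exact hL0 f hf
    · intro f hf
      rcases Finset.mem_insert.mp hf with rfl | hf
      · exact (kgreedy_mem K f).mp heK
      · exact hsub f hf
    · intro i hi j hj hij hnot
      exact hbig i hi j hj hij fun h => hnot (Finset.mem_insert_of_mem h)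

theorem greedy {I : Type} [DecidableEq I] {k r : ℕ} (K : Finset I) (hK : K.card = k)
    (L : Sym2 I → Finset (Fin r)) (E0 : Finset (Sym2 I)) (c0 : Sym2 I → Fin r) (x y z : I)
    (hx : x ∈ K) (hy : y ∈ K) (hz : z ∈ K) (hxy : x ≠ y) (hxz : x ≠ z) (hyz : y ≠ z)
    (h1 : s(x, y) ∈ E0) (h2 : s(x, z) ∈ E0) (hc : c0 s(x, y) = c0 s(x, z))
    (hinj : ∀ e ∈ E0, ∀ f ∈ E0, c0 e = c0 f →
      e = f ∨ (e = s(x, y) ∧ f = s(x, z)) ∨ (e = s(x, z) ∧ f = s(x, y)))
    (hL0 : ∀ e ∈ E0, c0 e ∈ L e) (hsub : ∀ e ∈ E0, ¬ e.IsDiag ∧ ∀ a ∈ e, a ∈ K)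
    (hbig : ∀ i ∈ K, ∀ j ∈ K, i ≠ j → s(i, j) ∉ E0 → k.choose 2 - 1 ≤ (L s(i, j)).card) :
    ∃ c : Sym2 I → Fin r, (∀ i ∈ K, ∀ j ∈ K, i ≠ j → c s(i, j) ∈ L s(i, j)) ∧ OneAdj K c :=
  kgreedy_aux K hK L x y z hx hy hz hxy hxz hyz _ E0 c0 rfl h1 h2 hc hinj hL0 hsub hbig

theorem LS.no_choice {k r : ℕ} {I ι : Type} (S : LS k r I ι) (K : Finset I) (hK : K.card = k)
    (hp : ∀ i ∈ K, ∀ j ∈ K, i ≠ j → S.part i ≠ S.part j) (c : Sym2 I → Fin r)
    (hc : ∀ i ∈ K, ∀ j ∈ K, i ≠ j → c s(i, j) ∈ S.L s(i, j)) : ¬ OneAdj K c := by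
  intro hone
  obtain ⟨x, hx, y, hy, z, hz, hxy, hxz, hyz, hcc, hinj⟩ := hone
  let φ : Fin k ≃ K := (Finset.equivFinOfCardEq hK).symm
  let v : Fin k → I := fun a => (φ a : I)
  have hv : Function.Injective v := fun a b h => φ.injective (Subtype.ext h)
  have hvK : ∀ a, v a ∈ K := fun a => (φ a).2
  have hvs : ∀ i (hi : i ∈ K), v (φ.symm ⟨i, hi⟩) = i := by
    intro i hi
    show ((φ (φ.symm ⟨i, hi⟩) : K) : I) = i
    rw [Equiv.apply_symm_apply]
  refine S.free v ⟨fun a b hab => hp _ (hvK a) _ (hvK b) (fun h => hab (hv h)),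
    fun e => c (e.map v), ?_, ?_⟩
  · intro a b hab
    simp only [Sym2.map_mk]
    exact hc _ (hvK a) _ (hvK b) (fun h => hab (hv h))
  · refine ⟨φ.symm ⟨x, hx⟩, Finset.mem_univ _, φ.symm ⟨y, hy⟩, Finset.mem_univ _,
      φ.symm ⟨z, hz⟩, Finset.mem_univ _, ?_, ?_, ?_, ?_, ?_⟩
    · intro h
      apply hxy
      rw [← hvs x hx, h, hvs y hy]
    · intro h
      apply hxz
      rw [← hvs x hx, h, hvs z hz]
    · intro h
      apply hyz
      rw [← hvs y hy, h, hvs z hz]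
    · simp only [Sym2.map_mk, hvs]
      exact hcc
    · intro e f _ _ hde hdf hcef
      have hmem : ∀ (g : Sym2 (Fin k)), ∀ a ∈ g.map v, a ∈ K := by
        intro g a ha
        obtain ⟨b, _, rfl⟩ := Sym2.mem_map.mp ha
        exact hvK b
      have hdiag : ∀ (g : Sym2 (Fin k)), ¬ g.IsDiag → ¬ (g.map v).IsDiag := by
        intro g hg
        rwa [Sym2.isDiag_map hv]
      have hxy' : s(x, y) = (s(φ.symm ⟨x, hx⟩, φ.symm ⟨y, hy⟩)).map v := by
        rw [Sym2.map_mk, hvs, hvs]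
      have hxz' : s(x, z) = (s(φ.symm ⟨x, hx⟩, φ.symm ⟨z, hz⟩)).map v := by
        rw [Sym2.map_mk, hvs, hvs]
      rcases hinj (e.map v) (f.map v) (hmem e) (hmem f) (hdiag e hde) (hdiag f hdf) hcef with
        h | ⟨h, h'⟩ | ⟨h, h'⟩
      · exact Or.inl (Sym2.map.injective hv h)
      · rw [hxy'] at h
        rw [hxz'] at h'
        exact Or.inr (Or.inl ⟨Sym2.map.injective hv h, Sym2.map.injective hv h'⟩)
      · rw [hxz'] at h
        rw [hxy'] at h'
        exact Or.inr (Or.inr ⟨Sym2.map.injective hv h, Sym2.map.injective hv h'⟩)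

theorem LS.no_ext {k r : ℕ} {I ι : Type} [DecidableEq I] (S : LS k r I ι) (K : Finset I)
    (hK : K.card = k) (hp : ∀ i ∈ K, ∀ j ∈ K, i ≠ j → S.part i ≠ S.part j)
    (E0 : Finset (Sym2 I)) (c0 : Sym2 I → Fin r) (x y z : I)
    (hx : x ∈ K) (hy : y ∈ K) (hz : z ∈ K) (hxy : x ≠ y) (hxz : x ≠ z) (hyz : y ≠ z)
    (h1 : s(x, y) ∈ E0) (h2 : s(x, z) ∈ E0) (hc : c0 s(x, y) = c0 s(x, z))
    (hinj : ∀ e ∈ E0, ∀ f ∈ E0, c0 e = c0 f →
      e = f ∨ (e = s(x, y) ∧ f = s(x, z)) ∨ (e = s(x, z) ∧ f = s(x, y)))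
    (hL0 : ∀ e ∈ E0, c0 e ∈ S.L e) (hsub : ∀ e ∈ E0, ¬ e.IsDiag ∧ ∀ a ∈ e, a ∈ K)
    (hbig : ∀ i ∈ K, ∀ j ∈ K, i ≠ j → s(i, j) ∉ E0 → S.big i j) : False := by
  obtain ⟨c, hc1, hc2⟩ := greedy K hK S.L E0 c0 x y z hx hy hz hxy hxz hyz h1 h2 hc hinj hL0 hsub
    fun i hi j hj hij hnot => (hbig i hi j hj hij hnot).2
  exact S.no_choice K hK hp c hc1 hc2

end MP2ab38c
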