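import Pool.Agent.Lib.MP_2ab38c_co.KNum
import Pool.Agent.Lib.MP_2ab38c_co.KGreedy

/-!
JOB KClaim1.  `Q` is a set of `k-1` types in distinct parts, all pairs big except possibly `uv`
which has at least 3 colours, and two adjacent big edges `xy`, `xz` inside `Q` share a colour `c`.
Then at most `k-1` parts carry all but `(k-1)ε/log(3/2)` of the weight.

Proof.  `R = log r`, `B = C(k,2)-1`.  For any `t : I` put `C(t) = ∑_{i ∈ Q} ell i t`.
Claim `C(t) ≤ (k-2)R`: if `t` is in the part of some member of `Q`, clear (`ell ≤ R`, one term 0).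
Otherwise all lists `L(i,t)`, `i ∈ Q`, are nonempty and `K = Q ∪ {t}` has `k` elements in distinct
parts.  If all of them are big: choose `xy, xz ← c`, `uv ← c1 ∈ L(u,v) \ {c}`, the rest greedily
(`LS.no_ext`), contradiction.  If exactly one, `L(w,t)`, is not big and has at least 2 colours:
choose `xy, xz ← c`, `wt ← c2 ≠ c`, `uv ← c1 ≠ c, c2` (3 colours available), the rest greedily,
contradiction.  So if exactly one is not big it has exactly one colour and `C(t) ≤ (k-2) R`.
If at least two are not big, `C(t) ≤ (k-3) R + 2 log (B-1) ≤ (k-2) R - log (3/2)` by `num1`.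
Now `∑_t w t C(t) = ∑_{i ∈ Q} D i ≥ (k-1)(T - ε) = (k-2) R - (k-1) ε`, so the weight of the `t`
with `C(t) < (k-2) R - log (3/2)` is at most `(k-1) ε / log (3/2)`.  Call the other `t` typical.
For a typical `t` there is exactly one `w = w(t) ∈ Q` with `t` in the part of `w` or
`|L(w,t)| = 1`, and for all other `i ∈ Q`, `t` and `i` are in different parts and
`|L(i,t)| ≥ (2/3) r` (as `ell i t ≥ R - log (3/2)`), in particular big (`num2`).  If `t`, `t'` are
typical with the same `w`, they are in the same part: otherwise `K = Q \ {w} ∪ {t, t'}` has `k`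
elements in distinct parts; choose `c0 ∈ L(t,t')` (nonempty), `c1 ∈ L(u,v) \ {c0}` in case
`u, v ≠ w`, then for some `i ∈ Q \ {w}` a colour `c' ∈ L(t,i) ∩ L(t',i)`, `c' ≠ c0, c1` (the
intersection has at least `r/3 > 2` elements), and the rest greedily: `no_ext` with
`x = i, y = t, z = t'`, contradiction.  So the typical `t` lie in at most `k-1` parts.
-/

namespace MP2ab38c

open Finset

section KClaim1aux

variable {k r : ℕ} {I ι : Type}

private lemma KClaim1_big_symm (S : LS k r I ι) {i j : I} (h : S.big i j) : S.big j i := by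
  refine ⟨fun e => h.1 e.symm, ?_⟩
  rw [Sym2.eq_swap]
  exact h.2

private lemma KClaim1_ell_symm [DecidableEq ι] (S : LS k r I ι) (i j : I) :
    S.ell i j = S.ell j i := by
  unfold LS.ell ellF
  rw [Sym2.eq_swap]
  by_cases h : S.part i = S.part j
  · rw [if_pos h, if_pos h.symm]
  · rw [if_neg h, if_neg (fun e => h e.symm)]

private lemma KClaim1_ell_le [DecidableEq ι] (S : LS k r I ι) (i j : I) :
    S.ell i j ≤ Real.log r := by
  unfold LS.ell ellF
  split_ifs with h
  · exact Real.log_natCast_nonneg r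
  · have h1 : 0 < (S.L s(i, j)).card := Finset.card_pos.2 (S.ne i j h)
    have h2 : (S.L s(i, j)).card ≤ r := by
      have := Finset.card_le_univ (S.L s(i, j))
      rwa [Fintype.card_fin] at this
    exact Real.log_le_log (by exact_mod_cast h1) (by exact_mod_cast h2)

private lemma KClaim1_ell_notbig [DecidableEq ι] (S : LS k r I ι) {i j : I}
    (hp : S.part i ≠ S.part j) (hb : ¬ S.big i j) :
    S.ell i j ≤ Real.log ((k.choose 2 - 2 : ℕ) : ℝ) := by
  unfold LS.ell ellF
  rw [if_neg hp]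
  have h1 : 0 < (S.L s(i, j)).card := Finset.card_pos.2 (S.ne i j hp)
  have h2 : (S.L s(i, j)).card ≤ k.choose 2 - 2 := by
    by_contra hcon
    apply hb
    refine ⟨hp, ?_⟩
    omega
  exact Real.log_le_log (by exact_mod_cast h1) (by exact_mod_cast h2)

private lemma KClaim1_choose (hk : 4 ≤ k) : 6 ≤ k.choose 2 := by
  have h : (4 : ℕ).choose 2 ≤ k.choose 2 := Nat.choose_le_choose 2 hk
  have h' : (4 : ℕ).choose 2 = 6 := by decide
  omega

private lemma KClaim1_exists_ne {α : Type} [DecidableEq α] (A : Finset α) (a : α) (h : 2 ≤ A.card) :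
    ∃ b ∈ A, b ≠ a := by
  have h1 : 0 < (A.erase a).card := by
    have := Finset.pred_card_le_card_erase (s := A) (a := a)
    omega
  obtain ⟨b, hb⟩ := Finset.card_pos.1 h1
  exact ⟨b, Finset.mem_of_mem_erase hb, Finset.ne_of_mem_erase hb⟩

private lemma KClaim1_exists_ne2 {α : Type} [DecidableEq α] (A : Finset α) (a a' : α)
    (h : 3 ≤ A.card) : ∃ b ∈ A, b ≠ a ∧ b ≠ a' := by
  have h1 : 2 ≤ (A.erase a).card := by
    have := Finset.pred_card_le_card_erase (s := A) (a := a)
    omega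
  obtain ⟨b, hb, hb'⟩ := KClaim1_exists_ne (A.erase a) a' h1
  exact ⟨b, Finset.mem_of_mem_erase hb, Finset.ne_of_mem_erase hb, hb'⟩

/-- a type outside all parts of `Q` -/
private lemma KClaim1_out [DecidableEq I] [DecidableEq ι] (hk : 4 ≤ k) (S : LS k r I ι) (Q : Finset I)
    (hQ : Q.card = k - 1) (u v : I) (hu : u ∈ Q) (hv : v ∈ Q) (huv : u ≠ v)
    (hpart : ∀ i ∈ Q, ∀ j ∈ Q, i ≠ j → S.part i ≠ S.part j)
    (hbig : ∀ i ∈ Q, ∀ j ∈ Q, i ≠ j → s(i, j) ≠ s(u, v) → S.big i j)
    (h3 : 3 ≤ (S.L s(u, v)).card) (x y z : I) (hx : x ∈ Q) (hy : y ∈ Q) (hz : z ∈ Q)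
    (hxy : x ≠ y) (hxz : x ≠ z) (hyz : y ≠ z) (h1 : s(x, y) ≠ s(u, v)) (h2 : s(x, z) ≠ s(u, v))
    (c : Fin r) (hc1 : c ∈ S.L s(x, y)) (hc2 : c ∈ S.L s(x, z)) (t : I)
    (ht : ∀ i ∈ Q, S.part i ≠ S.part t) (p : I) (hp : p ∈ Q)
    (hb : ∀ i ∈ Q, i ≠ p → S.big i t) : (S.L s(p, t)).card ≤ 1 := by
  by_contra hcon
  have htQ : t ∉ Q := fun h => ht t h rfl
  obtain ⟨c2, hc2L, hc2c⟩ := KClaim1_exists_ne (S.L s(p, t)) c (by omega)
  obtain ⟨c1, hc1L, hc1c, hc1c2⟩ := KClaim1_exists_ne2 (S.L s(u, v)) c c2 h3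
  have n1 : ∀ a b : I, a ∈ Q → b ∈ Q → s(a, b) ≠ s(p, t) := by
    intro a b ha hb' e
    have : t ∈ s(a, b) := by rw [e]; exact Sym2.mem_mk_right _ _
    rw [Sym2.mem_iff] at this
    rcases this with rfl | rfl
    · exact htQ ha
    · exact htQ hb'
  let c0 : Sym2 I → Fin r := fun e => if e = s(p, t) then c2 else if e = s(u, v) then c1 else c
  have v1 : c0 s(x, y) = c := by
    change (if s(x, y) = s(p, t) then c2 else if s(x, y) = s(u, v) then c1 else c) = c
    rw [if_neg (n1 x y hx hy), if_neg h1]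
  have v2 : c0 s(x, z) = c := by
    change (if s(x, z) = s(p, t) then c2 else if s(x, z) = s(u, v) then c1 else c) = c
    rw [if_neg (n1 x z hx hz), if_neg h2]
  have v3 : c0 s(p, t) = c2 := by
    change (if s(p, t) = s(p, t) then c2 else if s(p, t) = s(u, v) then c1 else c) = c2
    rw [if_pos rfl]
  have v4 : c0 s(u, v) = c1 := by
    change (if s(u, v) = s(p, t) then c2 else if s(u, v) = s(u, v) then c1 else c) = c1
    rw [if_neg (n1 u v hu hv), if_pos rfl]
  have hE : ∀ e, e ∈ ({s(x, y), s(x, z), s(p, t), s(u, v)} : Finset (Sym2 I)) ↔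
      e = s(x, y) ∨ e = s(x, z) ∨ e = s(p, t) ∨ e = s(u, v) := by
    intro e
    simp only [Finset.mem_insert, Finset.mem_singleton]
  have hmem : ∀ a ∈ Q, a ∈ insert t Q := fun a ha => Finset.mem_insert_of_mem ha
  refine S.no_ext (insert t Q) ?_ ?_ {s(x, y), s(x, z), s(p, t), s(u, v)} c0 x y z
    (hmem x hx) (hmem y hy) (hmem z hz) hxy hxz hyz ?_ ?_ ?_ ?_ ?_ ?_ ?_
  · rw [Finset.card_insert_of_notMem htQ, hQ]
    omega
  · intro i hi j hj hij
    rw [Finset.mem_insert] at hi hj
    rcases hi with rfl | hi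
    · rcases hj with rfl | hj
      · exact absurd rfl hij
      · exact fun e => ht j hj e.symm
    · rcases hj with rfl | hj
      · exact ht i hi
      · exact hpart i hi j hj hij
  · exact (hE _).2 (Or.inl rfl)
  · exact (hE _).2 (Or.inr (Or.inl rfl))
  · rw [v1, v2]
  · intro e he f hf hef
    rw [hE] at he hf
    rcases he with rfl | rfl | rfl | rfl <;> rcases hf with rfl | rfl | rfl | rfl <;>
      simp only [v1, v2, v3, v4] at hef
    · exact Or.inl rfl
    · exact Or.inr (Or.inl ⟨rfl, rfl⟩)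
    · exact absurd hef.symm hc2c
    · exact absurd hef.symm hc1c
    · exact Or.inr (Or.inr ⟨rfl, rfl⟩)
    · exact Or.inl rfl
    · exact absurd hef.symm hc2c
    · exact absurd hef.symm hc1c
    · exact absurd hef hc2c
    · exact absurd hef hc2c
    · exact Or.inl rfl
    · exact absurd hef.symm hc1c2
    · exact absurd hef hc1c
    · exact absurd hef hc1c
    · exact absurd hef hc1c2
    · exact Or.inl rfl
  · intro e he
    rw [hE] at he
    rcases he with rfl | rfl | rfl | rfl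
    · rw [v1]; exact hc1
    · rw [v2]; exact hc2
    · rw [v3]; exact hc2L
    · rw [v4]; exact hc1L
  · have hm2 : ∀ a b : I, a ∈ insert t Q → b ∈ insert t Q → a ≠ b →
        ¬ (s(a, b)).IsDiag ∧ ∀ d ∈ s(a, b), d ∈ insert t Q := by
      intro a b ha hb' hab
      refine ⟨fun h => hab (Sym2.mk_isDiag_iff.1 h), ?_⟩
      intro d hd
      rw [Sym2.mem_iff] at hd
      rcases hd with rfl | rfl
      · exact ha
      · exact hb'
    intro e he
    rw [hE] at he
    rcases he with rfl | rfl | rfl | rfl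
    · exact hm2 x y (hmem x hx) (hmem y hy) hxy
    · exact hm2 x z (hmem x hx) (hmem z hz) hxz
    · exact hm2 p t (hmem p hp) (Finset.mem_insert_self _ _) (fun e => htQ (e ▸ hp))
    · exact hm2 u v (hmem u hu) (hmem v hv) huv
  · intro i hi j hj hij he
    rw [hE] at he
    push Not at he
    rw [Finset.mem_insert] at hi hj
    rcases hi with rfl | hi
    · rcases hj with rfl | hj
      · exact absurd rfl hij
      · refine KClaim1_big_symm S (hb j hj ?_)
        rintro rfl
        exact he.2.2.1 Sym2.eq_swap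
    · rcases hj with rfl | hj
      · refine hb i hi ?_
        rintro rfl
        exact he.2.2.1 rfl
      · exact hbig i hi j hj hij he.2.2.2

/-- typical types with the same index lie in the same part -/
private lemma KClaim1_same [DecidableEq I] [DecidableEq ι] (hG : Good k r) (S : LS k r I ι)
    (Q : Finset I) (hQ : Q.card = k - 1) (u v : I) (hu : u ∈ Q) (hv : v ∈ Q) (huv : u ≠ v)
    (hpart : ∀ i ∈ Q, ∀ j ∈ Q, i ≠ j → S.part i ≠ S.part j)
    (hbig : ∀ i ∈ Q, ∀ j ∈ Q, i ≠ j → s(i, j) ≠ s(u, v) → S.big i j)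
    (h3 : 3 ≤ (S.L s(u, v)).card) (p t t' : I) (hp : p ∈ Q)
    (ht : ∀ i ∈ Q, i ≠ p → S.part i ≠ S.part t ∧ 2 * r < 3 * (S.L s(i, t)).card)
    (ht' : ∀ i ∈ Q, i ≠ p → S.part i ≠ S.part t' ∧ 2 * r < 3 * (S.L s(i, t')).card) :
    S.part t = S.part t' := by
  by_contra hcon
  have hk := hG.hk
  have hr := num2 hG
  have hch := KClaim1_choose hk
  have hbt : ∀ i ∈ Q, i ≠ p → S.big i t := by
    intro i hi hip
    have h := ht i hi hip
    exact ⟨h.1, by omega⟩
  have hbt' : ∀ i ∈ Q, i ≠ p → S.big i t' := by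
    intro i hi hip
    have h := ht' i hi hip
    exact ⟨h.1, by omega⟩
  have htt : t ≠ t' := fun e => hcon (by rw [e])
  have htQ : t ∉ Q.erase p := fun h => (ht t (Finset.mem_of_mem_erase h) (Finset.ne_of_mem_erase h)).1 rfl
  have htQ' : t' ∉ Q.erase p :=
    fun h => (ht' t' (Finset.mem_of_mem_erase h) (Finset.ne_of_mem_erase h)).1 rfl
  obtain ⟨i, hiQ, hip⟩ := KClaim1_exists_ne Q p (by omega)
  have hi := ht i hiQ hip
  have hi' := ht' i hiQ hip
  have hit : i ≠ t := fun e => hi.1 (by rw [e])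
  have hit' : i ≠ t' := fun e => hi'.1 (by rw [e])
  obtain ⟨a0, ha0⟩ := S.ne t t' hcon
  obtain ⟨c1, hc1L, hc1a⟩ := KClaim1_exists_ne (S.L s(u, v)) a0 (by omega)
  have hinter : 3 ≤ (S.L s(i, t) ∩ S.L s(i, t')).card := by
    have e1 := Finset.card_union_add_card_inter (S.L s(i, t)) (S.L s(i, t'))
    have e2 : (S.L s(i, t) ∪ S.L s(i, t')).card ≤ r := by
      have := Finset.card_le_univ (S.L s(i, t) ∪ S.L s(i, t'))
      rwa [Fintype.card_fin] at this
    have e3 := hi.2
    have e4 := hi'.2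
    omega
  obtain ⟨c, hcL, hca, hcc1⟩ := KClaim1_exists_ne2 _ a0 c1 hinter
  rw [Finset.mem_inter] at hcL
  -- distinctness of pairs
  have n1 : s(i, t) ≠ s(t, t') := by
    intro e
    rw [Sym2.eq_iff] at e
    rcases e with ⟨e1, _⟩ | ⟨e1, _⟩
    · exact hit e1
    · exact hit' e1
  have n2 : s(i, t') ≠ s(t, t') := by
    intro e
    rw [Sym2.eq_iff] at e
    rcases e with ⟨e1, _⟩ | ⟨e1, _⟩
    · exact hit e1
    · exact hit' e1
  have n3 : u ≠ p ∧ v ≠ p → ∀ a : I, s(a, t) ≠ s(u, v) := by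
    intro hup a e
    have : t ∈ s(u, v) := by rw [← e]; exact Sym2.mem_mk_right _ _
    rw [Sym2.mem_iff] at this
    rcases this with e' | e'
    · exact htQ (e' ▸ Finset.mem_erase.2 ⟨hup.1, hu⟩)
    · exact htQ (e' ▸ Finset.mem_erase.2 ⟨hup.2, hv⟩)
  have n4 : u ≠ p ∧ v ≠ p → ∀ a : I, s(a, t') ≠ s(u, v) := by
    intro hup a e
    have : t' ∈ s(u, v) := by rw [← e]; exact Sym2.mem_mk_right _ _
    rw [Sym2.mem_iff] at this
    rcases this with e' | e'
    · exact htQ' (e' ▸ Finset.mem_erase.2 ⟨hup.1, hu⟩)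
    · exact htQ' (e' ▸ Finset.mem_erase.2 ⟨hup.2, hv⟩)
  classical
  let c0 : Sym2 I → Fin r := fun e => if e = s(t, t') then a0 else
    if e = s(u, v) ∧ u ≠ p ∧ v ≠ p then c1 else c
  have v1 : c0 s(i, t) = c := by
    change (if s(i, t) = s(t, t') then a0 else
      if s(i, t) = s(u, v) ∧ u ≠ p ∧ v ≠ p then c1 else c) = c
    rw [if_neg n1, if_neg (fun h => n3 h.2 i h.1)]
  have v2 : c0 s(i, t') = c := by
    change (if s(i, t') = s(t, t') then a0 else
      if s(i, t') = s(u, v) ∧ u ≠ p ∧ v ≠ p then c1 else c) = c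
    rw [if_neg n2, if_neg (fun h => n4 h.2 i h.1)]
  have v3 : c0 s(t, t') = a0 := by
    change (if s(t, t') = s(t, t') then a0 else
      if s(t, t') = s(u, v) ∧ u ≠ p ∧ v ≠ p then c1 else c) = a0
    rw [if_pos rfl]
  have v4 : u ≠ p ∧ v ≠ p → c0 s(u, v) = c1 := by
    intro hup
    change (if s(u, v) = s(t, t') then a0 else
      if s(u, v) = s(u, v) ∧ u ≠ p ∧ v ≠ p then c1 else c) = c1
    rw [if_neg (fun e => n4 hup t e.symm), if_pos ⟨rfl, hup⟩]
  have hE : ∀ e, e ∈ (insert s(i, t) (insert s(i, t') (insert s(t, t')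
      (({s(u, v)} : Finset (Sym2 I)).filter (fun _ => u ≠ p ∧ v ≠ p))))) ↔
      e = s(i, t) ∨ e = s(i, t') ∨ e = s(t, t') ∨ (e = s(u, v) ∧ u ≠ p ∧ v ≠ p) := by
    intro e
    simp only [Finset.mem_insert, Finset.mem_singleton, Finset.mem_filter]
  have mt : t ∈ insert t (insert t' (Q.erase p)) := Finset.mem_insert_self _ _
  have mt' : t' ∈ insert t (insert t' (Q.erase p)) :=
    Finset.mem_insert_of_mem (Finset.mem_insert_self _ _)
  have mQ : ∀ a ∈ Q, a ≠ p → a ∈ insert t (insert t' (Q.erase p)) := fun a ha hap =>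
    Finset.mem_insert_of_mem (Finset.mem_insert_of_mem (Finset.mem_erase.2 ⟨hap, ha⟩))
  have hK : ∀ a, a ∈ insert t (insert t' (Q.erase p)) ↔ a = t ∨ a = t' ∨ (a ≠ p ∧ a ∈ Q) := by
    intro a
    simp only [Finset.mem_insert, Finset.mem_erase]
  refine S.no_ext (insert t (insert t' (Q.erase p))) ?_ ?_ _ c0 i t t'
    (mQ i hiQ hip) mt mt' hit hit' htt ((hE _).2 (Or.inl rfl)) ((hE _).2 (Or.inr (Or.inl rfl)))
    (by rw [v1, v2]) ?_ ?_ ?_ ?_
  · rw [Finset.card_insert_of_notMem, Finset.card_insert_of_notMem htQ', Finset.card_erase_of_mem hp,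
      hQ]
    · omega
    · rw [Finset.mem_insert]
      push Not
      exact ⟨htt, htQ⟩
  · intro a ha b hb hab
    rw [hK] at ha hb
    rcases ha with rfl | rfl | ha <;> rcases hb with rfl | rfl | hb
    · exact absurd rfl hab
    · exact hcon
    · exact fun e => (ht b hb.2 hb.1).1 e.symm
    · exact fun e => hcon e.symm
    · exact absurd rfl hab
    · exact fun e => (ht' b hb.2 hb.1).1 e.symm
    · exact (ht a ha.2 ha.1).1
    · exact (ht' a ha.2 ha.1).1
    · exact hpart a ha.2 b hb.2 hab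
  · intro e he f hf hef
    rw [hE] at he hf
    rcases he with rfl | rfl | rfl | ⟨rfl, hup⟩ <;> rcases hf with rfl | rfl | rfl | ⟨rfl, hup'⟩
    · exact Or.inl rfl
    · exact Or.inr (Or.inl ⟨rfl, rfl⟩)
    · rw [v1, v3] at hef
      exact absurd hef hca
    · rw [v1, v4 hup'] at hef
      exact absurd hef hcc1
    · exact Or.inr (Or.inr ⟨rfl, rfl⟩)
    · exact Or.inl rfl
    · rw [v2, v3] at hef
      exact absurd hef hca
    · rw [v2, v4 hup'] at hef
      exact absurd hef hcc1
    · rw [v1, v3] at hef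
      exact absurd hef.symm hca
    · rw [v2, v3] at hef
      exact absurd hef.symm hca
    · exact Or.inl rfl
    · rw [v3, v4 hup'] at hef
      exact absurd hef.symm hc1a
    · rw [v1, v4 hup] at hef
      exact absurd hef.symm hcc1
    · rw [v2, v4 hup] at hef
      exact absurd hef.symm hcc1
    · rw [v3, v4 hup] at hef
      exact absurd hef hc1a
    · exact Or.inl rfl
  · intro e he
    rw [hE] at he
    rcases he with rfl | rfl | rfl | ⟨rfl, hup⟩
    · rw [v1]; exact hcL.1
    · rw [v2]; exact hcL.2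
    · rw [v3]; exact ha0
    · rw [v4 hup]; exact hc1L
  · have hm2 : ∀ a b : I, a ∈ insert t (insert t' (Q.erase p)) → b ∈ insert t (insert t' (Q.erase p)) →
        a ≠ b → ¬ (s(a, b)).IsDiag ∧ ∀ d ∈ s(a, b), d ∈ insert t (insert t' (Q.erase p)) := by
      intro a b ha hb' hab
      refine ⟨fun h => hab (Sym2.mk_isDiag_iff.1 h), ?_⟩
      intro d hd
      rw [Sym2.mem_iff] at hd
      rcases hd with rfl | rfl
      · exact ha
      · exact hb'
    intro e he
    rw [hE] at he
    rcases he with rfl | rfl | rfl | ⟨rfl, hup⟩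
    · exact hm2 i t (mQ i hiQ hip) mt hit
    · exact hm2 i t' (mQ i hiQ hip) mt' hit'
    · exact hm2 t t' mt mt' htt
    · exact hm2 u v (mQ u hu hup.1) (mQ v hv hup.2) huv
  · intro a ha b hb hab he
    rw [hE] at he
    push Not at he
    rw [hK] at ha hb
    rcases ha with rfl | rfl | ha <;> rcases hb with rfl | rfl | hb
    · exact absurd rfl hab
    · exact absurd rfl he.2.2.1
    · exact KClaim1_big_symm S (hbt b hb.2 hb.1)
    · exact absurd Sym2.eq_swap he.2.2.1
    · exact absurd rfl hab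
    · exact KClaim1_big_symm S (hbt' b hb.2 hb.1)
    · exact hbt a ha.2 ha.1
    · exact hbt' a ha.2 ha.1
    · refine hbig a ha.2 b hb.2 hab ?_
      intro e
      have hup : u ≠ p ∧ v ≠ p := by
        rw [Sym2.eq_iff] at e
        rcases e with ⟨e1, e2⟩ | ⟨e1, e2⟩
        · exact ⟨e1 ▸ ha.1, e2 ▸ hb.1⟩
        · exact ⟨e2 ▸ hb.1, e1 ▸ ha.1⟩
      exact hup.2 (he.2.2.2 e hup.1)

end KClaim1aux

theorem claim1 {k r : ℕ} (hG : Good k r) {I ι : Type} [Fintype I] [DecidableEq I]
    [DecidableEq ι] (S : LS k r I ι) (w : I → ℝ) (hw0 : ∀ i, 0 ≤ w i) (hw1 : ∑ i, w i = 1)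
    (ε : ℝ) (hε : 0 < ε) (hD : ∀ i, TT k r - ε ≤ S.D w i) (Q : Finset I) (hQ : Q.card = k - 1)
    (u v : I) (hu : u ∈ Q) (hv : v ∈ Q) (huv : u ≠ v)
    (hpart : ∀ i ∈ Q, ∀ j ∈ Q, i ≠ j → S.part i ≠ S.part j)
    (hbig : ∀ i ∈ Q, ∀ j ∈ Q, i ≠ j → s(i, j) ≠ s(u, v) → S.big i j)
    (h3 : 3 ≤ (S.L s(u, v)).card) (x y z : I) (hx : x ∈ Q) (hy : y ∈ Q) (hz : z ∈ Q)
    (hxy : x ≠ y) (hxz : x ≠ z) (hyz : y ≠ z) (h1 : s(x, y) ≠ s(u, v)) (h2 : s(x, z) ≠ s(u, v))
    (c : Fin r) (hc1 : c ∈ S.L s(x, y)) (hc2 : c ∈ S.L s(x, z)) :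
    S.Conc w (((k : ℝ) - 1) * ε / Real.log (3 / 2)) := by
  classical
  have hk := hG.hk
  have hr := num2 hG
  have hch := KClaim1_choose hk
  have hn1 := num1 hG
  have hkR : (4 : ℝ) ≤ k := by exact_mod_cast hk
  have hrR : (0 : ℝ) < r := by exact_mod_cast (by omega : 0 < r)
  set R : ℝ := Real.log r with hR
  set B : ℝ := Real.log ((k.choose 2 - 2 : ℕ) : ℝ) with hB
  have hl : (0 : ℝ) < Real.log (3 / 2) := Real.log_pos (by norm_num)
  have hB0 : 0 ≤ B := Real.log_natCast_nonneg _
  have hRl : Real.log (3 / 2) ≤ R := by linarith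
  have hQ1 : ((Q.card : ℕ) : ℝ) = (k : ℝ) - 1 := by
    rw [hQ, Nat.cast_sub (by omega)]
    simp
  -- the sums
  set Cs : I → ℝ := fun t => ∑ i ∈ Q, S.ell i t with hCs
  have hone : ∀ (t p : I), p ∈ Q → S.ell p t = 0 → Cs t ≤ ((k : ℝ) - 2) * R := by
    intro t p hp h0
    have e1 : Cs t = S.ell p t + ∑ i ∈ Q.erase p, S.ell i t := (Finset.add_sum_erase Q _ hp).symm
    have e2 : ∑ i ∈ Q.erase p, S.ell i t ≤ ((Q.erase p).card : ℝ) * R := by
      rw [← nsmul_eq_mul]
      exact Finset.sum_le_card_nsmul _ _ _ fun i _ => KClaim1_ell_le S i t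
    have e3 : (((Q.erase p).card : ℕ) : ℝ) = (k : ℝ) - 2 := by
      rw [Finset.card_erase_of_mem hp, hQ, Nat.cast_sub (by omega), Nat.cast_sub (by omega)]
      push_cast
      ring
    rw [e3] at e2
    rw [e1, h0, zero_add]
    exact e2
  have hdich : ∀ t, (∃ p ∈ Q, S.ell p t = 0) ∨ Cs t ≤ ((k : ℝ) - 2) * R - Real.log (3 / 2) := by
    intro t
    by_cases hsame : ∃ p ∈ Q, S.part p = S.part t
    · obtain ⟨p, hp, hpt⟩ := hsame
      left
      refine ⟨p, hp, ?_⟩
      unfold LS.ell ellF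
      rw [if_pos hpt]
    · push Not at hsame
      by_cases hN : 1 < (Q.filter (fun i => ¬ S.big i t)).card
      · right
        obtain ⟨p, hp, q, hq, hpq⟩ := Finset.one_lt_card.1 hN
        rw [Finset.mem_filter] at hp hq
        have e1 : Cs t = S.ell p t + ∑ i ∈ Q.erase p, S.ell i t :=
          (Finset.add_sum_erase Q _ hp.1).symm
        have hq' : q ∈ Q.erase p := Finset.mem_erase.2 ⟨hpq.symm, hq.1⟩
        have e2 : ∑ i ∈ Q.erase p, S.ell i t
            = S.ell q t + ∑ i ∈ (Q.erase p).erase q, S.ell i t :=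
          (Finset.add_sum_erase _ _ hq').symm
        have e3 : ∑ i ∈ (Q.erase p).erase q, S.ell i t
            ≤ (((Q.erase p).erase q).card : ℝ) * R := by
          rw [← nsmul_eq_mul]
          exact Finset.sum_le_card_nsmul _ _ _ fun i _ => KClaim1_ell_le S i t
        have e4 : ((((Q.erase p).erase q).card : ℕ) : ℝ) = (k : ℝ) - 3 := by
          rw [Finset.card_erase_of_mem hq', Finset.card_erase_of_mem hp.1, hQ,
            Nat.cast_sub (by omega), Nat.cast_sub (by omega), Nat.cast_sub (by omega)]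
          push_cast
          ring
        have e5 := KClaim1_ell_notbig S (hsame p hp.1) hp.2
        have e6 := KClaim1_ell_notbig S (hsame q hq.1) hq.2
        rw [e4] at e3
        rw [e1, e2]
        linarith
      · left
        -- all but one member are big neighbours
        have hex : ∃ p ∈ Q, ∀ i ∈ Q, i ≠ p → S.big i t := by
          rcases Finset.eq_empty_or_nonempty (Q.filter (fun i => ¬ S.big i t)) with h0 | ⟨p, hp⟩
          · refine ⟨x, hx, fun i hi _ => ?_⟩
            by_contra hb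
            have : i ∈ Q.filter (fun i => ¬ S.big i t) := Finset.mem_filter.2 ⟨hi, hb⟩
            rw [h0] at this
            exact Finset.notMem_empty _ this
          · refine ⟨p, (Finset.mem_filter.1 hp).1, fun i hi hip => ?_⟩
            by_contra hb
            apply hN
            exact Finset.one_lt_card.2 ⟨i, Finset.mem_filter.2 ⟨hi, hb⟩, p, hp, hip⟩
        obtain ⟨p, hp, hpb⟩ := hex
        refine ⟨p, hp, ?_⟩
        have hc := KClaim1_out hk S Q hQ u v hu hv huv hpart hbig h3 x y z hx hy hz hxy hxz hyz h1 h2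
          c hc1 hc2 t hsame p hp hpb
        have hc' : 0 < (S.L s(p, t)).card := Finset.card_pos.2 (S.ne p t (hsame p hp))
        have hc'' : (S.L s(p, t)).card = 1 := by omega
        unfold LS.ell ellF
        rw [if_neg (hsame p hp), hc'']
        simp
  have hCle : ∀ t, Cs t ≤ ((k : ℝ) - 2) * R := by
    intro t
    rcases hdich t with ⟨p, hp, h0⟩ | h
    · exact hone t p hp h0
    · linarith
  -- total
  have htot : ((k : ℝ) - 2) * R - ((k : ℝ) - 1) * ε ≤ ∑ t, w t * Cs t := by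
    have e1 : ∑ t, w t * Cs t = ∑ i ∈ Q, S.D w i := by
      have : ∀ t, w t * Cs t = ∑ i ∈ Q, w t * S.ell i t := fun t => Finset.mul_sum _ _ _
      simp only [this]
      rw [Finset.sum_comm]
      rfl
    have e2 : ((Q.card : ℕ) : ℝ) * (TT k r - ε) ≤ ∑ i ∈ Q, S.D w i := by
      rw [← nsmul_eq_mul]
      exact Finset.card_nsmul_le_sum _ _ _ fun i _ => hD i
    rw [e1]
    refine le_trans (le_of_eq ?_) e2
    rw [hQ1]
    unfold TT
    rw [← hR]
    have : (k : ℝ) - 1 ≠ 0 := by linarith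
    field_simp
  -- typical types
  set Ty : Finset I := univ.filter (fun t => ((k : ℝ) - 2) * R - Real.log (3 / 2) < Cs t) with hTy
  have hweight : 1 - ((k : ℝ) - 1) * ε / Real.log (3 / 2) ≤ ∑ t ∈ Ty, w t := by
    have e1 : ∑ t, w t * (((k : ℝ) - 2) * R - Cs t) ≤ ((k : ℝ) - 1) * ε := by
      have : ∑ t, w t * (((k : ℝ) - 2) * R - Cs t)
          = ((k : ℝ) - 2) * R * ∑ t, w t - ∑ t, w t * Cs t := by
        rw [Finset.mul_sum, ← Finset.sum_sub_distrib]
        exact Finset.sum_congr rfl fun t _ => by ring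
      rw [this, hw1]
      linarith
    have e2 : Real.log (3 / 2) * ∑ t ∈ univ.filter (fun t => ¬ (((k : ℝ) - 2) * R -
        Real.log (3 / 2) < Cs t)), w t ≤ ∑ t, w t * (((k : ℝ) - 2) * R - Cs t) := by
      rw [Finset.mul_sum]
      refine (Finset.sum_le_sum (g := fun t => w t * (((k : ℝ) - 2) * R - Cs t)) ?_).trans ?_
      · intro t ht
        have ht2 := (Finset.mem_filter.1 ht).2
        rw [not_lt] at ht2
        rw [mul_comm]
        exact mul_le_mul_of_nonneg_left (by linarith) (hw0 t)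
      · refine Finset.sum_le_sum_of_subset_of_nonneg (Finset.filter_subset _ _) ?_
        intro t _ _
        exact mul_nonneg (hw0 t) (by linarith [hCle t])
    have e3 := Finset.sum_filter_add_sum_filter_not univ
      (fun t => ((k : ℝ) - 2) * R - Real.log (3 / 2) < Cs t) w
    rw [hw1] at e3
    have e4 : ∑ t ∈ univ.filter (fun t => ¬ (((k : ℝ) - 2) * R - Real.log (3 / 2) < Cs t)), w t
        ≤ ((k : ℝ) - 1) * ε / Real.log (3 / 2) := by
      rw [le_div_iff₀ hl]
      linarith
    linarith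
  -- index
  have hidx : ∀ t ∈ Ty, ∃ p ∈ Q, ∀ i ∈ Q, i ≠ p →
      S.part i ≠ S.part t ∧ 2 * r < 3 * (S.L s(i, t)).card := by
    intro t ht
    have ht2 := (Finset.mem_filter.1 ht).2
    rcases hdich t with ⟨p, hp, h0⟩ | h
    · refine ⟨p, hp, fun i hi hip => ?_⟩
      have hi' : i ∈ Q.erase p := Finset.mem_erase.2 ⟨hip, hi⟩
      have e1 : Cs t = S.ell p t + ∑ i ∈ Q.erase p, S.ell i t := (Finset.add_sum_erase Q _ hp).symm
      have e2 : ∑ i ∈ Q.erase p, S.ell i t
          = S.ell i t + ∑ j ∈ (Q.erase p).erase i, S.ell j t :=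
        (Finset.add_sum_erase _ _ hi').symm
      have e3 : ∑ j ∈ (Q.erase p).erase i, S.ell j t
          ≤ (((Q.erase p).erase i).card : ℝ) * R := by
        rw [← nsmul_eq_mul]
        exact Finset.sum_le_card_nsmul _ _ _ fun i _ => KClaim1_ell_le S i t
      have e4 : ((((Q.erase p).erase i).card : ℕ) : ℝ) = (k : ℝ) - 3 := by
        rw [Finset.card_erase_of_mem hi', Finset.card_erase_of_mem hp, hQ,
          Nat.cast_sub (by omega), Nat.cast_sub (by omega), Nat.cast_sub (by omega)]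
        push_cast
        ring
      rw [e4] at e3
      have e5 : R - Real.log (3 / 2) < S.ell i t := by
        rw [e1, e2, h0] at ht2
        linarith
      have hne : S.part i ≠ S.part t := by
        intro e
        have : S.ell i t = 0 := by
          unfold LS.ell ellF
          rw [if_pos e]
        rw [this] at e5
        linarith
      refine ⟨hne, ?_⟩
      unfold LS.ell ellF at e5
      rw [if_neg hne, hR, ← Real.log_div hrR.ne' (by norm_num)] at e5
      have hcard : (0 : ℝ) < (S.L s(i, t)).card := by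
        exact_mod_cast Finset.card_pos.2 (S.ne i t hne)
      have e6 := (Real.log_lt_log_iff (by positivity) hcard).1 e5
      rw [div_lt_iff₀ (by norm_num)] at e6
      have e7 : (2 * r : ℝ) < 3 * (S.L s(i, t)).card := by linarith
      exact_mod_cast e7
    · exact absurd ht2 (not_lt.2 h)
  -- the parts
  set pr : I → I → Prop := fun p t => t ∈ Ty ∧ ∀ i ∈ Q, i ≠ p →
      S.part i ≠ S.part t ∧ 2 * r < 3 * (S.L s(i, t)).card with hpr
  set g : I → ι := fun p => if h : ∃ t, pr p t then S.part h.choose else S.part p with hg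
  refine ⟨Q.image g, ?_, ?_⟩
  · exact Finset.card_image_le.trans (le_of_eq hQ)
  · have hsub : ∀ t ∈ Ty, S.part t ∈ Q.image g := by
      intro t ht
      obtain ⟨p, hp, hpt⟩ := hidx t ht
      have hex : ∃ t, pr p t := ⟨t, ht, hpt⟩
      rw [Finset.mem_image]
      refine ⟨p, hp, ?_⟩
      rw [hg]
      simp only
      rw [dif_pos hex]
      exact KClaim1_same hG S Q hQ u v hu hv huv hpart hbig h3 p _ t hp hex.choose_spec.2 hpt
    refine hweight.trans ?_
    rw [hTy, Finset.sum_filter]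
    refine Finset.sum_le_sum fun t _ => ?_
    by_cases ht : ((k : ℝ) - 2) * R - Real.log (3 / 2) < Cs t
    · rw [if_pos ht, if_pos (hsub t (Finset.mem_filter.2 ⟨Finset.mem_univ _, ht⟩))]
    · rw [if_neg ht]
      split_ifs
      · exact hw0 t
      · exact le_rfl

end MP2ab38c
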