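import Pool.Agent.Lib.MP_2ab38c_co.KNum

/-!
JOB KDeg.  If big triangles have pairwise disjoint lists then all big degrees are at least
`(k-2)/(k-1) - ε`.

Proof.  For `i : I`, `c` a colour, `N_c(i) = {j big to i, c ∈ L(i,j)}` is independent in the big
graph, so it is empty or, taking `j ∈ N_c(i)`, of weight at most `1 - xdeg j ≤ 1 - x0`, where
`x0 = min xdeg` (`I` is nonempty since `∑ w = 1`).  So
`∑_{j big to i} w j |L(i,j)| = ∑_c w(N_c(i)) ≤ r (1 - x0)`.  With
`log |L| ≤ log r - log 2 - 1 + 2 |L|/r` (from `log z ≤ z - 1`, `z = 2|L|/r`) and `ell ≤ log B1`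
for pairs that are not big (`B1 = C(k,2)-2`; `ell = 0` inside a part),
`D i ≤ (1 - x_i) log B1 + x_i (R - log 2 - 1) + 2 (1 - x0)`.
Take `i` with `x_i = x0` and put `x0 = (k-2)/(k-1) - s`:
`T - ε ≤ T + (log B1 + 2 - (k-2)(log 2 + 1))/(k-1) - s (R - log 2 - 3 - log B1)`; the middle term
is `≤ 0` by `num6` and the last bracket is `≥ 1` by `num5`, so `s ≤ ε`.
-/

namespace MP2ab38c

open Finset

private theorem KDeg_B1 (k : ℕ) (hk : 4 ≤ k) : (4 : ℝ) ≤ ((k.choose 2 - 2 : ℕ) : ℝ) := by
  have h1 : (4 : ℕ).choose 2 ≤ k.choose 2 := Nat.choose_le_choose 2 hk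
  have h2 : (4 : ℕ).choose 2 = 6 := by decide
  have : 4 ≤ k.choose 2 - 2 := by omega
  exact_mod_cast this

private theorem KDeg_big_symm {k r : ℕ} {I ι : Type} (S : LS k r I ι) {i j : I} (h : S.big i j) :
    S.big j i := by
  refine ⟨h.1.symm, ?_⟩
  rw [Sym2.eq_swap]
  exact h.2

open Classical in
private theorem KDeg_xdeg {k r : ℕ} {I ι : Type} [Fintype I] (S : LS k r I ι) (w : I → ℝ) (i : I) :
    S.xdeg w i = ∑ j, if S.big i j then w j else 0 := rfl

open Classical in
private theorem KDeg_nw {k r : ℕ} {I ι : Type} [Fintype I] (S : LS k r I ι) (w : I → ℝ)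
    (c : Fin r) (j : I) :
    S.nw w c j = ∑ i, if S.big i j ∧ c ∈ S.L s(i, j) then w i else 0 := rfl

/-- the colour classes are small -/
private theorem KDeg_nw_le {k r : ℕ} {I ι : Type} [Fintype I] (S : LS k r I ι) (w : I → ℝ)
    (hw0 : ∀ i, 0 ≤ w i) (hw1 : ∑ i, w i = 1) (x0 : ℝ) (hx0 : ∀ i, x0 ≤ S.xdeg w i) (hx1 : x0 ≤ 1)
    (htri : ∀ i j j', S.big i j → S.big i j' → S.big j j' →
      Disjoint (S.L s(i, j)) (S.L s(i, j'))) (c : Fin r) (i : I) :
    S.nw w c i ≤ 1 - x0 := by
  classical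
  rw [KDeg_nw]
  by_cases hex : ∃ j0, S.big j0 i ∧ c ∈ S.L s(j0, i)
  · obtain ⟨j0, hb0, hc0⟩ := hex
    have h1 : ∑ j, (if S.big j i ∧ c ∈ S.L s(j, i) then w j else 0) ≤
        ∑ j, (w j - if S.big j0 j then w j else 0) := by
      apply Finset.sum_le_sum
      intro j _
      by_cases hj : S.big j i ∧ c ∈ S.L s(j, i)
      · rw [if_pos hj]
        have hnb : ¬ S.big j0 j := by
          intro hb
          have hd := htri i j0 j (KDeg_big_symm S hb0) (KDeg_big_symm S hj.1) hb
          have hc1 : c ∈ S.L s(i, j0) := by rw [Sym2.eq_swap]; exact hc0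
          have hc2 : c ∈ S.L s(i, j) := by rw [Sym2.eq_swap]; exact hj.2
          exact (Finset.disjoint_left.1 hd) hc1 hc2
        rw [if_neg hnb, sub_zero]
      · rw [if_neg hj]
        split_ifs
        · simp
        · rw [sub_zero]; exact hw0 j
    refine h1.trans ?_
    rw [Finset.sum_sub_distrib, hw1, ← KDeg_xdeg]
    linarith [hx0 j0]
  · push Not at hex
    have h0 : ∑ j, (if S.big j i ∧ c ∈ S.L s(j, i) then w j else 0) = 0 := by
      apply Finset.sum_eq_zero
      intro j _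
      rw [if_neg]
      rintro ⟨h1, h2⟩
      exact hex j h1 h2
    rw [h0]
    linarith

open Classical in
/-- double counting over the colours -/
private theorem KDeg_double {k r : ℕ} {I ι : Type} [Fintype I] (S : LS k r I ι) (w : I → ℝ)
    (i : I) :
    ∑ j, (if S.big i j then w j * ((S.L s(i, j)).card : ℝ) else 0) = ∑ c : Fin r, S.nw w c i := by
  simp only [KDeg_nw]
  rw [Finset.sum_comm]
  apply Finset.sum_congr rfl
  intro j _
  by_cases hb : S.big i j
  · rw [if_pos hb]
    have hb' : S.big j i := KDeg_big_symm S hb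
    have h1 : ∑ c : Fin r, (if S.big j i ∧ c ∈ S.L s(j, i) then w j else 0) =
        ∑ c ∈ S.L s(i, j), w j := by
      rw [← Finset.sum_filter]
      apply Finset.sum_congr _ (fun _ _ => rfl)
      ext c
      rw [Finset.mem_filter, Sym2.eq_swap]
      simp [hb']
    rw [h1, Finset.sum_const, nsmul_eq_mul]
    ring
  · rw [if_neg hb]
    symm
    apply Finset.sum_eq_zero
    intro c _
    rw [if_neg]
    rintro ⟨h1, _⟩
    exact hb (KDeg_big_symm S h1)

theorem xdeg_lb {k r : ℕ} (hG : Good k r) {I ι : Type} [Fintype I] [DecidableEq I]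
    [DecidableEq ι] (S : LS k r I ι) (w : I → ℝ) (hw0 : ∀ i, 0 ≤ w i) (hw1 : ∑ i, w i = 1)
    (ε : ℝ) (hε : 0 < ε) (hD : ∀ i, TT k r - ε ≤ S.D w i)
    (htri : ∀ i j j', S.big i j → S.big i j' → S.big j j' →
      Disjoint (S.L s(i, j)) (S.L s(i, j'))) (i : I) :
    ((k : ℝ) - 2) / ((k : ℝ) - 1) - ε ≤ S.xdeg w i := by
  classical
  have hk := hG.hk
  have hkr : (4 : ℝ) ≤ k := by exact_mod_cast hk
  -- the minimum
  obtain ⟨i0, _, hmin⟩ := Finset.exists_min_image (univ : Finset I) (fun i => S.xdeg w i)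
    ⟨i, Finset.mem_univ i⟩
  have hmin' : ∀ i, S.xdeg w i0 ≤ S.xdeg w i := fun i => hmin i (Finset.mem_univ i)
  refine le_trans ?_ (hmin' i)
  set x0 := S.xdeg w i0 with hx0
  have hx1 : x0 ≤ 1 := by
    rw [hx0, KDeg_xdeg, ← hw1]
    apply Finset.sum_le_sum
    intro j _
    split_ifs
    · exact le_refl _
    · exact hw0 j
  have hr9 := num2 hG
  have hrpos : (0 : ℝ) < r := by
    have : 0 < r := by omega
    exact_mod_cast this
  have hB1 := KDeg_B1 k hk
  have hlogB1 : 0 ≤ Real.log ((k.choose 2 - 2 : ℕ) : ℝ) := Real.log_nonneg (by linarith)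
  -- sum over big neighbours
  have hdc : ∑ j, (if S.big i0 j then w j * ((S.L s(i0, j)).card : ℝ) else 0) ≤ r * (1 - x0) := by
    rw [KDeg_double]
    refine (Finset.sum_le_sum fun c _ =>
      KDeg_nw_le S w hw0 hw1 x0 hmin' hx1 htri c i0).trans ?_
    rw [Finset.sum_const, Finset.card_univ, Fintype.card_fin, nsmul_eq_mul]
  -- pointwise bound
  set b : ℝ := Real.log ((k.choose 2 - 2 : ℕ) : ℝ) with hb
  set R : ℝ := Real.log r with hR
  have hpt : ∀ j, w j * S.ell i0 j ≤ (w j - if S.big i0 j then w j else 0) * b +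
      (if S.big i0 j then w j else 0) * (R - Real.log 2 - 1) +
      (2 / r) * (if S.big i0 j then w j * ((S.L s(i0, j)).card : ℝ) else 0) := by
    intro j
    have hell : S.ell i0 j = if S.part i0 = S.part j then 0 else
      Real.log ((S.L s(i0, j)).card : ℝ) := rfl
    by_cases hbig : S.big i0 j
    · rw [if_pos hbig, if_pos hbig, hell, if_neg hbig.1]
      have hne := S.ne i0 j hbig.1
      have hc1 : 1 ≤ (S.L s(i0, j)).card := Finset.card_pos.2 hne
      have hcr : (1 : ℝ) ≤ ((S.L s(i0, j)).card : ℝ) := by exact_mod_cast hc1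
      set z : ℝ := 2 * ((S.L s(i0, j)).card : ℝ) / r with hz
      have hzpos : 0 < z := by positivity
      have h1 := Real.log_le_sub_one_of_pos hzpos
      rw [hz, Real.log_div (by positivity) (by positivity), Real.log_mul (by norm_num)
        (by positivity), ← hz] at h1
      have h2 : Real.log ((S.L s(i0, j)).card : ℝ) ≤ R - Real.log 2 - 1 + z := by
        rw [hR]; linarith
      have h3 := mul_le_mul_of_nonneg_left h2 (hw0 j)
      have h4 : w j * z = (2 / r) * (w j * ((S.L s(i0, j)).card : ℝ)) := by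
        rw [hz]; ring
      linarith
    · rw [if_neg hbig, if_neg hbig, hell]
      have hle : (if S.part i0 = S.part j then 0 else Real.log ((S.L s(i0, j)).card : ℝ)) ≤ b := by
        split_ifs with hp
        · exact hlogB1
        · have hne := S.ne i0 j hp
          have hc1 : 1 ≤ (S.L s(i0, j)).card := Finset.card_pos.2 hne
          have hlt : ¬ k.choose 2 - 1 ≤ (S.L s(i0, j)).card := fun h => hbig ⟨hp, h⟩
          have hle : (S.L s(i0, j)).card ≤ k.choose 2 - 2 := by omega
          rw [hb]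
          apply Real.log_le_log
          · exact_mod_cast hc1
          · exact_mod_cast hle
      have := mul_le_mul_of_nonneg_left hle (hw0 j)
      linarith
  have hsum : S.D w i0 ≤ (1 - x0) * b + x0 * (R - Real.log 2 - 1) + (2 / r) * (r * (1 - x0)) := by
    unfold LS.D
    refine (Finset.sum_le_sum fun j _ => hpt j).trans ?_
    rw [Finset.sum_add_distrib, Finset.sum_add_distrib, ← Finset.sum_mul, ← Finset.sum_mul,
      ← Finset.mul_sum, Finset.sum_sub_distrib, hw1, ← KDeg_xdeg, ← hx0]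
    have : (2 / (r : ℝ)) * ∑ j, (if S.big i0 j then w j * ((S.L s(i0, j)).card : ℝ) else 0) ≤
        (2 / (r : ℝ)) * (r * (1 - x0)) := mul_le_mul_of_nonneg_left hdc (by positivity)
    linarith
  have h2r : (2 / (r : ℝ)) * (r * (1 - x0)) = 2 * (1 - x0) := by
    field_simp
  rw [h2r] at hsum
  have hDi := hD i0
  unfold TT at hDi
  have h5 := num5 hG
  have h6 := num6 hk
  rw [← hb] at h5 h6
  rw [← hR] at h5 hDi
  -- algebra
  by_contra hcon
  push Not at hcon
  set q : ℝ := ((k : ℝ) - 2) / ((k : ℝ) - 1) with hq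
  have hk1 : (0 : ℝ) < (k : ℝ) - 1 := by linarith
  have hqk : q * ((k : ℝ) - 1) = (k : ℝ) - 2 := by
    rw [hq]; field_simp
  set Q : ℝ := R - Real.log 2 - 3 - b with hQ
  have hQ1 : 1 ≤ Q := by rw [hQ]; linarith
  have hs : ε < q - x0 := by linarith
  -- `(q - x0) Q ≤ ε`
  have hkey : b + 2 - q * (Real.log 2 + 3 + b) ≤ 0 := by
    have h7 : (b + 2 - q * (Real.log 2 + 3 + b)) * ((k : ℝ) - 1) =
        b + 2 - ((k : ℝ) - 2) * (Real.log 2 + 1) := by
      have : q * (Real.log 2 + 3 + b) * ((k : ℝ) - 1) =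
          ((k : ℝ) - 2) * (Real.log 2 + 3 + b) := by
        rw [mul_right_comm, hqk]
      rw [sub_mul, this]
      ring
    have h8 : (b + 2 - q * (Real.log 2 + 3 + b)) * ((k : ℝ) - 1) ≤ 0 := by
      rw [h7]; linarith
    by_contra hneg
    push Not at hneg
    have := mul_pos hneg hk1
    linarith
  have hfin : (q - x0) * Q ≤ ε := by
    have h9 : q * R - ε ≤ (1 - x0) * b + x0 * (R - Real.log 2 - 1) + 2 * (1 - x0) :=
      hDi.trans hsum
    have h10 : (q - x0) * Q = q * R - ((1 - x0) * b + x0 * (R - Real.log 2 - 1) + 2 * (1 - x0)) +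
        (b + 2 - q * (Real.log 2 + 3 + b)) := by
      rw [hQ]; ring
    rw [h10]
    linarith
  nlinarith

end MP2ab38c
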