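import Pool.Agent.Lib.MP_2ab38c_co.KClaim1

/-!
JOB KExt.  If the Turan alternative fails then every big triangle has pairwise disjoint lists.

Proof.  Suppose `c ∈ L(i,j) ∩ L(i,j')` for a big triangle `i, j, j'`.  `R = log r`,
`B1 = C(k,2) - 2`.  Since `D i ≤ xdeg i * R + (1 - xdeg i) log B1`, every big degree satisfies
`1 - xdeg i ≤ (R/(k-1) + ε)/(R - log B1)`, and `(k-3)(R/(k-1)+ε) < R - log B1` by `num3` and
`(k-3) ε < 1`.  So a big clique with `t ≤ k-3` elements has a common big neighbour; hence the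
triangle extends to a big clique `Q` with `k-2` elements if `k ≥ 5`.  (If `k = 4` the triangle
itself is a big clique with `k-1` elements: apply `claim1` with `u = j, v = j'`.)
If some `t` is big to all of `Q` apply `claim1` to `Q ∪ {t}` with `u = j, v = j'`.  Otherwise every
`t` has at most `k-3` big neighbours in `Q`.  If some `t` has exactly `k-3`, is in a different part
from the remaining `u ∈ Q`, and `|L(t,u)| ≥ 3`, apply `claim1` to `Q ∪ {t}` with this `u` and
`v = t`.  If there is no such `t` then each `t` contributes at most `(k-3) R + log 2` to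
`∑_{i ∈ Q} D i` (two non-big ones give `(k-4) R + 2 log B1 ≤ (k-3) R` by `num1`), while
`∑_{i ∈ Q} D i ≥ (k-2)(T - ε) = (k-3) R + R/(k-1) - (k-2) ε`, contradicting `num4`.
-/

namespace MP2ab38c

open Finset

private lemma ke_symm {k r : ℕ} {I ι : Type} {S : LS k r I ι} {i j : I} (h : S.big i j) :
    S.big j i := by
  obtain ⟨h1, h2⟩ := h
  exact ⟨h1.symm, by rw [Sym2.eq_swap]; exact h2⟩

private lemma ke_ne {k r : ℕ} {I ι : Type} {S : LS k r I ι} {i j : I} (h : S.big i j) :
    i ≠ j := by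
  rintro rfl
  exact h.1 rfl

private lemma ke_B1 {k : ℕ} (hk : 4 ≤ k) : 6 ≤ k.choose 2 := by
  calc 6 = Nat.choose 4 2 := by decide
    _ ≤ k.choose 2 := Nat.choose_le_choose 2 hk

/-- `ell ≤ R` -/
private lemma ke_ell_le {k r : ℕ} (hr : 1 ≤ r) {I ι : Type} [DecidableEq ι] (S : LS k r I ι)
    (i j : I) : S.ell i j ≤ Real.log r := by
  have h0 : 0 ≤ Real.log (r : ℝ) := Real.log_nonneg (by exact_mod_cast hr)
  unfold LS.ell ellF
  split_ifs with h
  · exact h0
  · have hne := S.ne i j h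
    have h1 : 0 < (S.L s(i, j)).card := hne.card_pos
    have h2 : (S.L s(i, j)).card ≤ r := by
      have := card_le_univ (S.L s(i, j))
      simpa using this
    exact Real.log_le_log (by exact_mod_cast h1) (by exact_mod_cast h2)

/-- `ell ≤ log B1` for non-big pairs -/
private lemma ke_ell_le_B1 {k r : ℕ} (hk : 4 ≤ k) {I ι : Type} [DecidableEq ι] (S : LS k r I ι)
    (i j : I) (h : ¬ S.big i j) : S.ell i j ≤ Real.log ((k.choose 2 - 2 : ℕ) : ℝ) := by
  have hB := ke_B1 hk
  have h0 : 0 ≤ Real.log ((k.choose 2 - 2 : ℕ) : ℝ) := by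
    apply Real.log_nonneg
    have : 1 ≤ k.choose 2 - 2 := by omega
    exact_mod_cast this
  unfold LS.ell ellF
  split_ifs with h1
  · exact h0
  · have hne := S.ne i j h1
    have h2 : 0 < (S.L s(i, j)).card := hne.card_pos
    have h3 : (S.L s(i, j)).card ≤ k.choose 2 - 2 := by
      by_contra hc
      exact h ⟨h1, by omega⟩
    exact Real.log_le_log (by exact_mod_cast h2) (by exact_mod_cast h3)

private lemma ke_D_le {k r : ℕ} (hG : Good k r) {I ι : Type} [Fintype I] [DecidableEq ι]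
    (S : LS k r I ι) (w : I → ℝ) (hw0 : ∀ i, 0 ≤ w i) (hw1 : ∑ i, w i = 1) (i : I) :
    S.D w i ≤ S.xdeg w i * Real.log r + (1 - S.xdeg w i) * Real.log ((k.choose 2 - 2 : ℕ) : ℝ) := by
  classical
  have hr : 1 ≤ r := by have := num2 hG; omega
  have hxd : S.xdeg w i = ∑ z, if S.big i z then w z else 0 := by
    unfold LS.xdeg
    apply sum_congr rfl; intro z _; congr
  have h1 : 1 - S.xdeg w i = ∑ z, if S.big i z then 0 else w z := by
    rw [hxd, ← hw1, ← sum_sub_distrib]
    apply sum_congr rfl; intro z _; split_ifs <;> ring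
  rw [h1, hxd, sum_mul, sum_mul, ← sum_add_distrib]
  unfold LS.D
  apply sum_le_sum
  intro z _
  by_cases h : S.big i z
  · rw [if_pos h, if_pos h, zero_mul, add_zero]
    exact mul_le_mul_of_nonneg_left (ke_ell_le hr S i z) (hw0 z)
  · rw [if_neg h, if_neg h, zero_mul, zero_add]
    exact mul_le_mul_of_nonneg_left (ke_ell_le_B1 hG.hk S i z h) (hw0 z)

theorem tri_disj {k r : ℕ} (hG : Good k r) {I ι : Type} [Fintype I] [DecidableEq I]
    [DecidableEq ι] (S : LS k r I ι) (w : I → ℝ) (hw0 : ∀ i, 0 ≤ w i) (hw1 : ∑ i, w i = 1)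
    (ε : ℝ) (hε : 0 < ε) (hε1 : ε ≤ 1 / (k : ℝ)) (hD : ∀ i, TT k r - ε ≤ S.D w i)
    (hnc : ¬ S.Conc w (((k : ℝ) - 1) * ε / Real.log (3 / 2))) (i j j' : I) (h1 : S.big i j)
    (h2 : S.big i j') (h3 : S.big j j') : Disjoint (S.L s(i, j)) (S.L s(i, j')) := by
  classical
  rw [Finset.disjoint_left]
  intro c hc1 hc2
  apply hnc
  have hk : 4 ≤ k := hG.hk
  have hkR : (4 : ℝ) ≤ k := by exact_mod_cast hk
  have hr : 1 ≤ r := by have := num2 hG; omega
  have hB := ke_B1 hk
  set R : ℝ := Real.log r with hR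
  set LB : ℝ := Real.log ((k.choose 2 - 2 : ℕ) : ℝ) with hLB
  have hLB0 : 0 ≤ LB := by
    apply Real.log_nonneg
    have : 1 ≤ k.choose 2 - 2 := by omega
    exact_mod_cast this
  have hn1 := num1 hG
  have hn3 := num3 hG
  have hn4 := num4 hG
  rw [← hR, ← hLB] at hn1 hn3
  rw [← hR] at hn4
  have hk1 : (0 : ℝ) < (k : ℝ) - 1 := by linarith
  have hkε : (k : ℝ) * ε ≤ 1 := by
    have := mul_le_mul_of_nonneg_left hε1 (by linarith : (0 : ℝ) ≤ k)
    rw [mul_one_div_cancel (by linarith : (k : ℝ) ≠ 0)] at this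
    exact this
  have hij : i ≠ j := ke_ne h1
  have hij' : i ≠ j' := ke_ne h2
  have hjj' : j ≠ j' := ke_ne h3
  have hlog32 : 0 < Real.log (3 / 2) := Real.log_pos (by norm_num)
  -- size of the list of a big pair
  have hbig3 : ∀ p q, S.big p q → 3 ≤ (S.L s(p, q)).card := by
    intro p q h
    have := h.2
    omega
  have hsne : ∀ t : I, t ≠ i → t ≠ j → t ≠ j' → ∀ u : I, s(i, j) ≠ s(u, t) ∧ s(i, j') ≠ s(u, t) := by
    intro t ht1 ht2 ht3 u
    constructor
    · intro h; rw [Sym2.eq_iff] at h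
      rcases h with ⟨a, b⟩ | ⟨a, b⟩
      · exact ht2 b.symm
      · exact ht1 a.symm
    · intro h; rw [Sym2.eq_iff] at h
      rcases h with ⟨a, b⟩ | ⟨a, b⟩
      · exact ht3 b.symm
      · exact ht1 a.symm
  have hs1 : s(i, j) ≠ s(j, j') := by
    intro h; rw [Sym2.eq_iff] at h
    rcases h with ⟨a, b⟩ | ⟨a, b⟩
    · exact hij a
    · exact hij' a
  have hs2 : s(i, j') ≠ s(j, j') := by
    intro h; rw [Sym2.eq_iff] at h
    rcases h with ⟨a, b⟩ | ⟨a, b⟩
    · exact hij a
    · exact hij' a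
  -- a big clique with `k - 1` elements
  have hcl : ∀ Q : Finset I, Q.card = k - 1 → i ∈ Q → j ∈ Q → j' ∈ Q →
      (∀ p ∈ Q, ∀ q ∈ Q, p ≠ q → S.big p q) →
      S.Conc w (((k : ℝ) - 1) * ε / Real.log (3 / 2)) := by
    intro Q hQ hi hj hj' hb
    exact claim1 hG S w hw0 hw1 ε hε hD Q hQ j j' hj hj' hjj'
      (fun p hp q hq hpq => (hb p hp q hq hpq).1)
      (fun p hp q hq hpq _ => hb p hp q hq hpq) (hbig3 j j' h3) i j j' hi hj hj' hij hij' hjj'
      hs1 hs2 c hc1 hc2
  have hxd : ∀ p, S.xdeg w p = ∑ z, if S.big p z then w z else 0 := by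
    intro p; unfold LS.xdeg
    apply sum_congr rfl; intro z _; congr
  -- big degrees
  have hdeg : ∀ p, (1 - S.xdeg w p) * (R - LB) ≤ R / ((k : ℝ) - 1) + ε := by
    intro p
    have e1 := ke_D_le hG S w hw0 hw1 p
    have e2 := hD p
    rw [← hR, ← hLB] at e1
    have e3 : TT k r = R - R / ((k : ℝ) - 1) := by
      unfold TT; rw [← hR]; field_simp; ring
    rw [e3] at e2
    nlinarith
  have hRLB : ((k : ℝ) - 3) * (R / ((k : ℝ) - 1) + ε) < R - LB := by
    have e1 : R = (((k : ℝ) - 3) + 2) * (R / ((k : ℝ) - 1)) := by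
      field_simp; ring
    have e2 : 2 * R / ((k : ℝ) - 1) = 2 * (R / ((k : ℝ) - 1)) := by ring
    rw [e2] at hn3
    have e3 : ((k : ℝ) - 3) * ε < 1 := by nlinarith
    nlinarith
  have hRLB0 : 0 < R - LB := by linarith [hn1, hLB0, hlog32]
  -- common big neighbours
  have hcommon : ∀ T : Finset I, T.card ≤ k - 3 → ∃ z, ∀ y ∈ T, S.big y z := by
    intro T hT
    by_contra hno
    push Not at hno
    have hpt : ∀ z, w z ≤ w z * ∑ y ∈ T, (1 - (if S.big y z then (1 : ℝ) else 0)) := by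
      intro z
      obtain ⟨y, hy, hyz⟩ := hno z
      have hnn : ∀ y ∈ T, (0 : ℝ) ≤ 1 - (if S.big y z then (1 : ℝ) else 0) := by
        intro y _; split_ifs <;> simp
      have h4 : (1 : ℝ) ≤ ∑ y ∈ T, (1 - (if S.big y z then (1 : ℝ) else 0)) := by
        calc (1 : ℝ) = 1 - (if S.big y z then (1 : ℝ) else 0) := by rw [if_neg hyz]; ring
          _ ≤ _ := single_le_sum hnn hy
      have := mul_le_mul_of_nonneg_left h4 (hw0 z)
      linarith
    have hsum := sum_le_sum (fun z (_ : z ∈ (univ : Finset I)) => hpt z)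
    rw [hw1] at hsum
    have hRR : ∑ z, w z * ∑ y ∈ T, (1 - (if S.big y z then (1 : ℝ) else 0)) =
        ∑ y ∈ T, (1 - S.xdeg w y) := by
      simp_rw [mul_sum]
      rw [sum_comm]
      apply sum_congr rfl
      intro y _
      have hpz : ∀ z, w z * (1 - (if S.big y z then (1 : ℝ) else 0)) =
          w z - (if S.big y z then w z else 0) := by
        intro z; split_ifs <;> ring
      rw [sum_congr rfl (fun z _ => hpz z), sum_sub_distrib, hw1, ← hxd]
    rw [hRR] at hsum
    have e4 : (∑ y ∈ T, (1 - S.xdeg w y)) * (R - LB) ≤ T.card * (R / ((k : ℝ) - 1) + ε) := by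
      rw [sum_mul]
      calc _ ≤ ∑ y ∈ T, (R / ((k : ℝ) - 1) + ε) := sum_le_sum fun y _ => hdeg y
        _ = _ := by rw [sum_const, nsmul_eq_mul]
    have hR0 : 0 ≤ R := Real.log_nonneg (by exact_mod_cast hr)
    have e5 : (T.card : ℝ) ≤ (k : ℝ) - 3 := by
      have : T.card + 3 ≤ k := by omega
      have : ((T.card + 3 : ℕ) : ℝ) ≤ k := by exact_mod_cast this
      push_cast at this; linarith
    have e6 : (T.card : ℝ) * (R / ((k : ℝ) - 1) + ε) ≤ ((k : ℝ) - 3) * (R / ((k : ℝ) - 1) + ε) :=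
      mul_le_mul_of_nonneg_right e5 (by positivity)
    nlinarith
  -- extension of cliques
  have hins : ∀ (T : Finset I) (z : I), (∀ p ∈ T, ∀ q ∈ T, p ≠ q → S.big p q) →
      (∀ y ∈ T, S.big y z) → ∀ p ∈ insert z T, ∀ q ∈ insert z T, p ≠ q → S.big p q := by
    intro T z hTT hz p hp q hq hpq
    rw [mem_insert] at hp hq
    rcases hp with rfl | hp
    · rcases hq with rfl | hq
      · exact absurd rfl hpq
      · exact ke_symm (hz q hq)
    · rcases hq with rfl | hq
      · exact hz p hp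
      · exact hTT p hp q hq hpq
  have htri0 : ({i, j, j'} : Finset I).card = 3 := by
    rw [card_insert_of_notMem, card_insert_of_notMem, card_singleton]
    · simpa using hjj'
    · simp only [mem_insert, mem_singleton, not_or]; exact ⟨hij, hij'⟩
  have htri1 : ∀ p ∈ ({i, j, j'} : Finset I), ∀ q ∈ ({i, j, j'} : Finset I), p ≠ q → S.big p q := by
    intro p hp q hq hpq
    simp only [mem_insert, mem_singleton] at hp hq
    rcases hp with rfl | rfl | rfl <;> rcases hq with rfl | rfl | rfl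
    · exact absurd rfl hpq
    · exact h1
    · exact h2
    · exact ke_symm h1
    · exact absurd rfl hpq
    · exact h3
    · exact ke_symm h2
    · exact ke_symm h3
    · exact absurd rfl hpq
  rcases Nat.lt_or_ge k 5 with hk5 | hk5
  · have hk4 : k = 4 := by omega
    exact hcl {i, j, j'} (by rw [htri0, hk4]) (by simp) (by simp) (by simp) htri1
  have hgreedy : ∀ t : ℕ, t + 3 ≤ k - 2 → ∃ T : Finset I, T.card = t + 3 ∧ i ∈ T ∧ j ∈ T ∧ j' ∈ T ∧
      (∀ p ∈ T, ∀ q ∈ T, p ≠ q → S.big p q) := by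
    intro t
    induction t with
    | zero => intro _; exact ⟨{i, j, j'}, by rw [htri0], by simp, by simp, by simp, htri1⟩
    | succ t ih =>
      intro ht
      obtain ⟨T, hT, hi, hj, hj', hTT⟩ := ih (by omega)
      obtain ⟨z, hz⟩ := hcommon T (by omega)
      have hzT : z ∉ T := fun h => ke_ne (hz z h) rfl
      exact ⟨insert z T, by rw [card_insert_of_notMem hzT, hT], mem_insert_of_mem hi,
        mem_insert_of_mem hj, mem_insert_of_mem hj', hins T z hTT hz⟩
  obtain ⟨Q, hQ, hi, hj, hj', hQQ⟩ := hgreedy (k - 5) (by omega)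
  have hQ2 : Q.card = k - 2 := by omega
  by_cases hall : ∃ t, ∀ q ∈ Q, S.big q t
  · obtain ⟨t, ht⟩ := hall
    have htQ : t ∉ Q := fun h => ke_ne (ht t h) rfl
    exact hcl (insert t Q) (by rw [card_insert_of_notMem htQ, hQ2]; omega) (mem_insert_of_mem hi)
      (mem_insert_of_mem hj) (mem_insert_of_mem hj') (hins Q t hQQ ht)
  push Not at hall
  by_cases hspec : ∃ t, ∃ u ∈ Q, (∀ q ∈ Q, q ≠ u → S.big q t) ∧ S.part u ≠ S.part t ∧
      3 ≤ (S.L s(u, t)).card
  · obtain ⟨t, u, hu, hbt, hput, h3l⟩ := hspec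
    have htQ : t ∉ Q := by
      intro h
      by_cases htu : t = u
      · exact hput (by rw [htu])
      · exact ke_ne (hbt t h htu) rfl
    have hut : u ≠ t := fun h => hput (by rw [h])
    have hbb : ∀ p ∈ insert t Q, ∀ q ∈ insert t Q, p ≠ q → s(p, q) ≠ s(u, t) → S.big p q := by
      intro p hp q hq hpq hne
      rw [mem_insert] at hp hq
      rcases hp with rfl | hp
      · rcases hq with rfl | hq
        · exact absurd rfl hpq
        · apply ke_symm
          apply hbt q hq
          rintro rfl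
          exact hne Sym2.eq_swap
      · rcases hq with rfl | hq
        · apply hbt p hp
          rintro rfl
          exact hne rfl
        · exact hQQ p hp q hq hpq
    have hne_t : t ≠ i ∧ t ≠ j ∧ t ≠ j' := by
      refine ⟨?_, ?_, ?_⟩
      · rintro rfl; exact htQ hi
      · rintro rfl; exact htQ hj
      · rintro rfl; exact htQ hj'
    obtain ⟨es1, es2⟩ := hsne t hne_t.1 hne_t.2.1 hne_t.2.2 u
    refine claim1 hG S w hw0 hw1 ε hε hD (insert t Q)
      (by rw [card_insert_of_notMem htQ, hQ2]; omega) u t (mem_insert_of_mem hu)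
      (mem_insert_self _ _) hut ?_ hbb h3l i j j' (mem_insert_of_mem hi)
      (mem_insert_of_mem hj) (mem_insert_of_mem hj') hij hij' hjj' es1 es2 c hc1 hc2
    intro p hp q hq hpq
    by_cases h : s(p, q) = s(u, t)
    · rw [Sym2.eq_iff] at h
      rcases h with ⟨rfl, rfl⟩ | ⟨rfl, rfl⟩
      · exact hput
      · exact hput.symm
    · exact (hbb p hp q hq hpq h).1
  push Not at hspec
  exfalso
  -- contribution of each `t`
  have hcontr : ∀ t, ∑ q ∈ Q, S.ell q t ≤ ((k : ℝ) - 3) * R + Real.log 2 := by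
    intro t
    have hlog2 : 0 ≤ Real.log 2 := Real.log_nonneg (by norm_num)
    obtain ⟨u, hu, hut⟩ := hall t
    rw [← add_sum_erase Q _ hu]
    by_cases hone : ∀ q ∈ Q, q ≠ u → S.big q t
    · have e1 : S.ell u t ≤ Real.log 2 := by
        unfold LS.ell ellF
        split_ifs with hpu
        · exact hlog2
        · have e2 := hspec t u hu hone hpu
          have e3 : 0 < (S.L s(u, t)).card := (S.ne u t hpu).card_pos
          have e4 : (S.L s(u, t)).card ≤ 2 := by omega
          exact Real.log_le_log (by exact_mod_cast e3) (by exact_mod_cast e4)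
      have e5 : ∑ q ∈ Q.erase u, S.ell q t ≤ ((k : ℝ) - 3) * R := by
        calc _ ≤ ∑ q ∈ Q.erase u, R := sum_le_sum fun q _ => ke_ell_le hr S q t
          _ = _ := by
            rw [sum_const, card_erase_of_mem hu, hQ2, nsmul_eq_mul]
            congr 1
            have : k - 2 - 1 = k - 3 := by omega
            rw [this, Nat.cast_sub (by omega)]; norm_num
      linarith
    · push Not at hone
      obtain ⟨v, hv, hvu, hvt⟩ := hone
      have hv' : v ∈ Q.erase u := mem_erase.2 ⟨hvu, hv⟩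
      rw [← add_sum_erase (Q.erase u) _ hv']
      have e1 : S.ell u t ≤ LB := ke_ell_le_B1 hk S u t hut
      have e2 : S.ell v t ≤ LB := ke_ell_le_B1 hk S v t hvt
      have e5 : ∑ q ∈ (Q.erase u).erase v, S.ell q t ≤ ((k : ℝ) - 4) * R := by
        calc _ ≤ ∑ q ∈ (Q.erase u).erase v, R := sum_le_sum fun q _ => ke_ell_le hr S q t
          _ = _ := by
            rw [sum_const, card_erase_of_mem hv', card_erase_of_mem hu, hQ2, nsmul_eq_mul]
            congr 1
            have : k - 2 - 1 - 1 = k - 4 := by omega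
            rw [this, Nat.cast_sub (by omega)]; norm_num
      linarith
  have hup : ∑ q ∈ Q, S.D w q ≤ ((k : ℝ) - 3) * R + Real.log 2 := by
    unfold LS.D
    rw [sum_comm]
    calc ∑ t, ∑ q ∈ Q, w t * S.ell q t = ∑ t, w t * ∑ q ∈ Q, S.ell q t := by
          simp_rw [mul_sum]
      _ ≤ ∑ t, w t * (((k : ℝ) - 3) * R + Real.log 2) :=
          sum_le_sum fun t _ => mul_le_mul_of_nonneg_left (hcontr t) (hw0 t)
      _ = _ := by rw [← sum_mul, hw1, one_mul]
  have hlo : ((k : ℝ) - 2) * (TT k r - ε) ≤ ∑ q ∈ Q, S.D w q := by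
    calc ((k : ℝ) - 2) * (TT k r - ε) = ∑ q ∈ Q, (TT k r - ε) := by
          rw [sum_const, hQ2, nsmul_eq_mul, Nat.cast_sub (by omega)]; norm_num
      _ ≤ _ := sum_le_sum fun q _ => hD q
  have hTT : ((k : ℝ) - 2) * TT k r = ((k : ℝ) - 3) * R + R / ((k : ℝ) - 1) := by
    unfold TT; rw [← hR]; field_simp; ring
  nlinarith

end MP2ab38c
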