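import Pool.Agent.Lib.MP_2ab38c_co.Core

/-!
JOB KMatch.  For an odd set `S0` and a nonnegative matrix with row sums (over `S0` off the
diagonal) at most 1, `∑_{X ≠ Y ∈ S0} α X Y * α Y X ≤ |S0| - 1`.

Proof.  The expression is affine in each row, and a row ranges over a polytope (substochastic
vectors) whose vertices are `0` and the unit vectors; so one may replace the rows one after the
other by a vertex without decreasing the expression.  When all rows are vertices, each `X` picks at
most one partner `f X`, and the expression counts the `X` with `f (f X) = X`, `f X ≠ X`; these come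
in pairs, so their number is even, hence `≤ |S0| - 1` as `|S0|` is odd.
(Alternatively: expectation over the product measure in which `X` picks `Y` with probability
`α X Y`; or induction.)
-/

namespace MP2ab38c

open Finset

private theorem kmatch_split {ι : Type} [DecidableEq ι] (S0 : Finset ι) (β : ι → ι → ℝ)
    {X : ι} (hX : X ∈ S0) :
    ∑ Z ∈ S0, ∑ Y ∈ S0.erase Z, β Z Y * β Y Z =
      2 * (∑ Y ∈ S0.erase X, β X Y * β Y X) +
        ∑ Z ∈ S0.erase X, ∑ Y ∈ (S0.erase X).erase Z, β Z Y * β Y Z := by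
  rw [← Finset.add_sum_erase _ _ hX]
  have h : ∀ Z ∈ S0.erase X, ∑ Y ∈ S0.erase Z, β Z Y * β Y Z =
      β X Z * β Z X + ∑ Y ∈ (S0.erase X).erase Z, β Z Y * β Y Z := by
    intro Z hZ
    have hne : X ≠ Z := fun h => (Finset.ne_of_mem_erase hZ) h.symm
    rw [← Finset.add_sum_erase _ _ (Finset.mem_erase.mpr ⟨hne, hX⟩), Finset.erase_right_comm,
      mul_comm (β Z X)]
  rw [Finset.sum_congr rfl h, Finset.sum_add_distrib]
  ring

private theorem kmatch_base {ι : Type} [DecidableEq ι] (S0 : Finset ι) (hodd : Odd S0.card)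
    (α : ι → ι → ℝ)
    (hv : ∀ X ∈ S0, ∃ y, ∀ Y, α X Y = if Y = y then 1 else 0) :
    ∑ X ∈ S0, ∑ Y ∈ S0.erase X, α X Y * α Y X ≤ (S0.card : ℝ) - 1 := by
  classical
  have hv' : ∀ X, ∃ y, X ∈ S0 → ∀ Y, α X Y = if Y = y then 1 else 0 := by
    intro X
    by_cases hX : X ∈ S0
    · obtain ⟨y, hy⟩ := hv X hX
      exact ⟨y, fun _ => hy⟩
    · exact ⟨X, fun h => absurd h hX⟩
  choose f hf using hv'
  set M : Finset ι := S0.filter fun X => f X ∈ S0 ∧ f X ≠ X ∧ f (f X) = X with hM
  have hrow : ∀ X ∈ S0, ∑ Y ∈ S0.erase X, α X Y * α Y X =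
      if f X ∈ S0 ∧ f X ≠ X ∧ f (f X) = X then 1 else 0 := by
    intro X hX
    by_cases h : f X ∈ S0 ∧ f X ≠ X ∧ f (f X) = X
    · rw [if_pos h]
      rw [Finset.sum_eq_single (f X)]
      · rw [hf X hX, hf (f X) h.1, if_pos rfl, if_pos h.2.2.symm, one_mul]
      · intro Y _ hY2
        rw [hf X hX, if_neg hY2, zero_mul]
      · intro h2
        exact absurd (Finset.mem_erase.mpr ⟨h.2.1, h.1⟩) h2
    · rw [if_neg h]
      refine Finset.sum_eq_zero fun Y hY => ?_
      rw [hf X hX]
      split_ifs with h1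
      · have hY' := Finset.mem_erase.mp hY
        rw [hf Y hY'.2]
        split_ifs with h2
        · exfalso
          apply h
          rw [h1] at hY' h2
          exact ⟨hY'.2, hY'.1, h2.symm⟩
        · ring
      · ring
  rw [Finset.sum_congr rfl hrow, ← Finset.sum_filter, ← hM, Finset.sum_const, nsmul_eq_mul,
    mul_one]
  have heven : ((M.card : ℕ) : ZMod 2) = 0 := by
    have h1 : ((M.card : ℕ) : ZMod 2) = ∑ X ∈ M, (1 : ZMod 2) := by simp
    rw [h1]
    refine Finset.sum_involution (fun X _ => f X) ?_ ?_ ?_ ?_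
    · intro X _
      decide
    · intro X hX _
      exact (Finset.mem_filter.mp hX).2.2.1
    · intro X hX
      obtain ⟨h2, h3, h4, h5⟩ := Finset.mem_filter.mp hX
      refine Finset.mem_filter.mpr ⟨h3, ?_, ?_, ?_⟩
      · rw [h5]; exact h2
      · rw [h5]; exact fun h => h4 h.symm
      · rw [h5]
    · intro X hX
      exact (Finset.mem_filter.mp hX).2.2.2
  have heven' : Even M.card := (ZMod.natCast_eq_zero_iff_even).mp heven
  have hle : M.card ≤ S0.card := Finset.card_le_card (Finset.filter_subset _ _)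
  have hne : M.card ≠ S0.card := by
    intro h
    rw [h] at heven'
    exact (Nat.not_even_iff_odd.mpr hodd) heven'
  have hlt : M.card + 1 ≤ S0.card := by omega
  have : ((M.card + 1 : ℕ) : ℝ) ≤ (S0.card : ℝ) := by exact_mod_cast hlt
  push_cast at this
  linarith

private theorem kmatch_step {ι : Type} [DecidableEq ι] (S0 : Finset ι) (hodd : Odd S0.card)
    (T : Finset ι) :
    ∀ α : ι → ι → ℝ, (∀ X Y, 0 ≤ α X Y) →
      (∀ X ∈ S0, ∑ Y ∈ S0.erase X, α X Y ≤ 1) →
      (∀ X ∈ S0, X ∉ T → ∃ y, ∀ Y, α X Y = if Y = y then 1 else 0) →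
      ∑ X ∈ S0, ∑ Y ∈ S0.erase X, α X Y * α Y X ≤ (S0.card : ℝ) - 1 := by
  induction T using Finset.induction_on with
  | empty =>
    intro α _ _ hv
    exact kmatch_base S0 hodd α fun X hX => hv X hX (Finset.notMem_empty X)
  | insert X T hXT ih =>
    intro α h0 h1 hv
    by_cases hX : X ∈ S0
    · obtain ⟨y, hy⟩ : ∃ y, ∀ Y ∈ S0.erase X,
          α Y X ≤ α y X ∧ y ∈ S0.erase X := by
        rcases (S0.erase X).eq_empty_or_nonempty with h | h
        · exact ⟨X, fun Y hY => by rw [h] at hY; exact absurd hY (Finset.notMem_empty Y)⟩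
        · obtain ⟨y, hy1, hy2⟩ := Finset.exists_max_image (S0.erase X) (fun Y => α Y X) h
          exact ⟨y, fun Y hY => ⟨hy2 Y hY, hy1⟩⟩
      set β : ι → ι → ℝ := Function.update α X (fun Y => if Y = y then 1 else 0) with hβ
      have hβX : ∀ Y, β X Y = if Y = y then 1 else 0 := by
        intro Y; rw [hβ, Function.update_self]
      have hβne : ∀ Z, Z ≠ X → ∀ Y, β Z Y = α Z Y := by
        intro Z hZ Y; rw [hβ, Function.update_of_ne hZ]
      have key : ∑ X ∈ S0, ∑ Y ∈ S0.erase X, α X Y * α Y X ≤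
          ∑ X ∈ S0, ∑ Y ∈ S0.erase X, β X Y * β Y X := by
        rw [kmatch_split S0 α hX, kmatch_split S0 β hX]
        have e2 : ∑ Z ∈ S0.erase X, ∑ Y ∈ (S0.erase X).erase Z, β Z Y * β Y Z =
            ∑ Z ∈ S0.erase X, ∑ Y ∈ (S0.erase X).erase Z, α Z Y * α Y Z := by
          refine Finset.sum_congr rfl fun Z hZ => Finset.sum_congr rfl fun Y hY => ?_
          rw [hβne Z (Finset.ne_of_mem_erase hZ),
            hβne Y (Finset.ne_of_mem_erase (Finset.mem_of_mem_erase hY))]
        rw [e2]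
        have e1 : ∑ Y ∈ S0.erase X, α X Y * α Y X ≤ ∑ Y ∈ S0.erase X, β X Y * β Y X := by
          rcases (S0.erase X).eq_empty_or_nonempty with h | ⟨Y0, hY0⟩
          · rw [h]; simp
          · have hyM := (hy Y0 hY0).2
            have e3 : ∑ Y ∈ S0.erase X, β X Y * β Y X = α y X := by
              rw [Finset.sum_eq_single y]
              · rw [hβX, if_pos rfl, one_mul, hβne y (Finset.ne_of_mem_erase hyM)]
              · intro Y _ hY2
                rw [hβX, if_neg hY2, zero_mul]
              · intro h; exact absurd hyM h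
            rw [e3]
            calc ∑ Y ∈ S0.erase X, α X Y * α Y X
                ≤ ∑ Y ∈ S0.erase X, α X Y * α y X :=
                  Finset.sum_le_sum fun Y hY => mul_le_mul_of_nonneg_left (hy Y hY).1 (h0 X Y)
              _ = (∑ Y ∈ S0.erase X, α X Y) * α y X := by rw [Finset.sum_mul]
              _ ≤ 1 * α y X := mul_le_mul_of_nonneg_right (h1 X hX) (h0 y X)
              _ = α y X := one_mul _
        linarith
      refine key.trans (ih β ?_ ?_ ?_)
      · intro Z Y
        by_cases hZ : Z = X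
        · rw [hZ, hβX]; split_ifs <;> norm_num
        · rw [hβne Z hZ]; exact h0 Z Y
      · intro Z hZ
        by_cases hZX : Z = X
        · subst hZX
          rw [Finset.sum_congr rfl fun Y _ => hβX Y, Finset.sum_ite_eq']
          split_ifs <;> norm_num
        · rw [Finset.sum_congr rfl fun Y _ => hβne Z hZX Y]
          exact h1 Z hZ
      · intro Z hZ hZT
        by_cases hZX : Z = X
        · subst hZX
          exact ⟨y, hβX⟩
        · obtain ⟨z, hz⟩ := hv Z hZ (by
            rw [Finset.mem_insert, not_or]; exact ⟨hZX, hZT⟩)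
          exact ⟨z, fun Y => by rw [hβne Z hZX]; exact hz Y⟩
    · refine ih α h0 h1 fun Z hZ hZT => hv Z hZ ?_
      rw [Finset.mem_insert, not_or]
      exact ⟨fun h => hX (h ▸ hZ), hZT⟩

theorem match_le {ι : Type} [DecidableEq ι] (S0 : Finset ι) (hodd : Odd S0.card)
    (α : ι → ι → ℝ) (h0 : ∀ X Y, 0 ≤ α X Y)
    (h1 : ∀ X ∈ S0, ∑ Y ∈ S0.erase X, α X Y ≤ 1) :
    ∑ X ∈ S0, ∑ Y ∈ S0.erase X, α X Y * α Y X ≤ (S0.card : ℝ) - 1 :=
  kmatch_step S0 hodd S0 α h0 h1 fun _ hX hX' => absurd hX hX'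

end MP2ab38c
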