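import Pool.Agent.Lib.MP_2ab38c_co.KNum
import Pool.Agent.Lib.MP_2ab38c_co.KMatch

/-!
JOB KOdd.  The bound that uses parity.  `R = log r`, `s = |S0|` odd, `B1 = C(k,2)-2`.

Proof.  `V = ∑ w i D i = ∑_{i,j} w i w j ell i j`.  The pairs `(i,j)` with `part i ∉ S0` or
`part j ∉ S0` contribute at most `2 (1 - ∑_{S0} W) R` (`0 ≤ ell ≤ R`).  For `i, j` in different
parts in `S0`: if big, `ell i j ≤ R - log s - 1 + s |L|/r`; if not big,
`ell i j ≤ log B1 ≤ R - log s - 1` by `hr`.  So the rest is at most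
`(R - log s - 1) ∑_{i,j} w i w j + (s/r) ∑_c a(c)`, where the first sum is
`(∑_{S0} W)^2 - ∑_{S0} W^2` and `a(c)` is the sum of `w i w j` over the big pairs `(i,j)` in
different parts of `S0` with `c ∈ L(i,j)`.
Claim `a(c) ≤ ∑_{S0} W^2 - m^2 + 2θ`.  Call `j` exceptional if `N_c(j)` (see `LS.nw`) is not
contained in one part; then its weight is `≤ θ` (`OnePart`).  Pairs with `j` exceptional contribute
at most `θ`, similarly for `i`.  For the others let
`A X Y = {i ∈ X not exceptional, N_c(i) nonempty and contained in Y}` and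
`α X Y = w(A X Y)/W X` (0 if `W X = 0`); the pair `(i,j)` with `i ∈ X`, `j ∈ Y` then has
`i ∈ A X Y`, `j ∈ A Y X`, so these contribute at most
`∑_{X ≠ Y} W X α X Y W Y α Y X ≤ ∑_{X ≠ Y} (1/2)(W X^2 + W Y^2) α X Y α Y X = ∑_X W X^2 b X`,
`b X = ∑_{Y ≠ X} α X Y α Y X ≤ 1`.  By `match_le`, `∑ b X ≤ s - 1`, so
`∑ W X^2 (1 - b X) ≥ m^2 ∑ (1 - b X) ≥ m^2`.
-/

namespace MP2ab38c

open Finset

/-- the matching inequality for masses -/
private theorem KOdd_abs {ι : Type} [DecidableEq ι] (S0 : Finset ι) (hodd : Odd S0.card)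
    (Wf : ι → ℝ) (m : ℝ) (hm0 : 0 ≤ m) (hm : ∀ X ∈ S0, m ≤ Wf X) (a : ι → ι → ℝ)
    (ha0 : ∀ X Y, 0 ≤ a X Y) (ha1 : ∀ X ∈ S0, ∑ Y ∈ S0.erase X, a X Y ≤ Wf X) :
    ∑ X ∈ S0, ∑ Y ∈ S0.erase X, a X Y * a Y X ≤ ∑ X ∈ S0, (Wf X) ^ 2 - m ^ 2 := by
  classical
  set α : ι → ι → ℝ := fun X Y => if X ∈ S0 then a X Y / Wf X else 0 with hα
  have hW0 : ∀ X ∈ S0, 0 ≤ Wf X := fun X hX => hm0.trans (hm X hX)
  have hα0 : ∀ X Y, 0 ≤ α X Y := by
    intro X Y
    simp only [hα]
    split_ifs with h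
    · exact div_nonneg (ha0 X Y) (hW0 X h)
    · exact le_refl _
  have hα1 : ∀ X ∈ S0, ∑ Y ∈ S0.erase X, α X Y ≤ 1 := by
    intro X hX
    have e : ∑ Y ∈ S0.erase X, α X Y = (∑ Y ∈ S0.erase X, a X Y) / Wf X := by
      rw [Finset.sum_div]
      apply Finset.sum_congr rfl
      intro Y _
      simp only [hα, if_pos hX]
    rw [e]
    rcases eq_or_lt_of_le (hW0 X hX) with h | h
    · rw [← h, div_zero]; norm_num
    · rw [div_le_one h]; exact ha1 X hX
  have haα : ∀ X ∈ S0, ∀ Y ∈ S0.erase X, a X Y = Wf X * α X Y := by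
    intro X hX Y hY
    simp only [hα, if_pos hX]
    rcases eq_or_lt_of_le (hW0 X hX) with h | h
    · have h1 : a X Y ≤ ∑ Y ∈ S0.erase X, a X Y :=
        Finset.single_le_sum (f := fun Y => a X Y) (fun Y _ => ha0 X Y) hY
      have h2 := ha1 X hX
      have h3 : a X Y = 0 := le_antisymm (by linarith) (ha0 X Y)
      rw [← h, h3]; simp
    · field_simp
  set p : ι → ι → ℝ := fun X Y => α X Y * α Y X with hp
  have hp0 : ∀ X Y, 0 ≤ p X Y := fun X Y => mul_nonneg (hα0 X Y) (hα0 Y X)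
  have hsymm : ∑ X ∈ S0, ∑ Y ∈ S0.erase X, (Wf Y) ^ 2 * p X Y =
      ∑ X ∈ S0, ∑ Y ∈ S0.erase X, (Wf X) ^ 2 * p X Y := by
    rw [Finset.sum_comm' (s' := fun y => S0.erase y) (t' := S0)]
    · apply Finset.sum_congr rfl
      intro X _
      apply Finset.sum_congr rfl
      intro Y _
      simp only [hp]
      ring
    · intro x y
      simp only [Finset.mem_erase]
      constructor
      · rintro ⟨h1, h2, h3⟩; exact ⟨⟨fun h => h2 h.symm, h1⟩, h3⟩
      · rintro ⟨⟨h1, h2⟩, h3⟩; exact ⟨h2, fun h => h1 h.symm, h3⟩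
  have hle : ∑ X ∈ S0, ∑ Y ∈ S0.erase X, a X Y * a Y X ≤
      ∑ X ∈ S0, ∑ Y ∈ S0.erase X, (Wf X) ^ 2 * p X Y := by
    have h1 : ∑ X ∈ S0, ∑ Y ∈ S0.erase X, a X Y * a Y X ≤
        ∑ X ∈ S0, ∑ Y ∈ S0.erase X, ((1 / 2) * ((Wf X) ^ 2 * p X Y) +
          (1 / 2) * ((Wf Y) ^ 2 * p X Y)) := by
      apply Finset.sum_le_sum
      intro X hX
      apply Finset.sum_le_sum
      intro Y hY
      have hY' := Finset.mem_erase.1 hY
      have hX' : X ∈ S0.erase Y := Finset.mem_erase.2 ⟨fun h => hY'.1 h.symm, hX⟩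
      rw [haα X hX Y hY, haα Y hY'.2 X hX']
      have h2 := hp0 X Y
      have h3 : Wf X * α X Y * (Wf Y * α Y X) = Wf X * Wf Y * p X Y := by
        simp only [hp]; ring
      rw [h3]
      nlinarith [mul_nonneg h2 (sq_nonneg (Wf X - Wf Y))]
    refine h1.trans (le_of_eq ?_)
    have e0 : ∑ X ∈ S0, ∑ Y ∈ S0.erase X, ((1 / 2) * ((Wf X) ^ 2 * p X Y) +
          (1 / 2) * ((Wf Y) ^ 2 * p X Y)) =
        (1 / 2) * ∑ X ∈ S0, ∑ Y ∈ S0.erase X, (Wf X) ^ 2 * p X Y +
        (1 / 2) * ∑ X ∈ S0, ∑ Y ∈ S0.erase X, (Wf Y) ^ 2 * p X Y := by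
      rw [Finset.mul_sum, Finset.mul_sum, ← Finset.sum_add_distrib]
      apply Finset.sum_congr rfl
      intro X _
      rw [Finset.mul_sum, Finset.mul_sum, ← Finset.sum_add_distrib]
    rw [e0, hsymm]
    ring
  set b : ι → ℝ := fun X => ∑ Y ∈ S0.erase X, p X Y with hb
  have hb1 : ∀ X ∈ S0, b X ≤ 1 := by
    intro X hX
    refine le_trans ?_ (hα1 X hX)
    apply Finset.sum_le_sum
    intro Y hY
    have hY' := Finset.mem_erase.1 hY
    have hX' : X ∈ S0.erase Y := Finset.mem_erase.2 ⟨fun h => hY'.1 h.symm, hX⟩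
    have h1 : α Y X ≤ 1 :=
      (Finset.single_le_sum (f := fun X => α Y X) (fun X _ => hα0 Y X) hX').trans (hα1 Y hY'.2)
    calc α X Y * α Y X ≤ α X Y * 1 := mul_le_mul_of_nonneg_left h1 (hα0 X Y)
      _ = α X Y := mul_one _
  have hbsum : ∑ X ∈ S0, b X ≤ (S0.card : ℝ) - 1 := match_le S0 hodd α hα0 hα1
  have hfin : m ^ 2 ≤ ∑ X ∈ S0, (Wf X) ^ 2 * (1 - b X) := by
    calc m ^ 2 ≤ m ^ 2 * ((S0.card : ℝ) - ∑ X ∈ S0, b X) := by
          nlinarith [sq_nonneg m]
      _ = ∑ X ∈ S0, m ^ 2 * (1 - b X) := by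
          rw [← Finset.mul_sum, Finset.sum_sub_distrib, Finset.sum_const, nsmul_eq_mul, mul_one]
      _ ≤ ∑ X ∈ S0, (Wf X) ^ 2 * (1 - b X) := by
          apply Finset.sum_le_sum
          intro X hX
          apply mul_le_mul_of_nonneg_right _ (by linarith [hb1 X hX])
          exact pow_le_pow_left₀ hm0 (hm X hX) 2
  have e1 : ∑ X ∈ S0, ∑ Y ∈ S0.erase X, (Wf X) ^ 2 * p X Y = ∑ X ∈ S0, (Wf X) ^ 2 * b X := by
    apply Finset.sum_congr rfl
    intro X _
    rw [← Finset.mul_sum]
  have e2 : ∑ X ∈ S0, (Wf X) ^ 2 * (1 - b X) = ∑ X ∈ S0, (Wf X) ^ 2 - ∑ X ∈ S0, (Wf X) ^ 2 * b X := by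
    rw [← Finset.sum_sub_distrib]
    apply Finset.sum_congr rfl
    intro X _
    ring
  rw [e1] at hle
  rw [e2] at hfin
  linarith

private theorem KOdd_big_symm {k r : ℕ} {I ι : Type} (S : LS k r I ι) {i j : I} (h : S.big i j) :
    S.big j i := by
  refine ⟨h.1.symm, ?_⟩
  rw [Sym2.eq_swap]
  exact h.2

/-- the vertex `j` is exceptional for the colour `c` -/
private def kExc {k r : ℕ} {I ι : Type} (S : LS k r I ι) (c : Fin r) (j : I) : Prop :=
  ¬ ∀ i i', S.big i j → c ∈ S.L s(i, j) → S.big i' j → c ∈ S.L s(i', j) → S.part i = S.part i'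

/-- `i ∈ A X Y` -/
private def kInA {k r : ℕ} {I ι : Type} (S : LS k r I ι) (c : Fin r) (X Y : ι) (i : I) : Prop :=
  S.part i = X ∧ ¬ kExc S c i ∧ ∃ j, S.big j i ∧ c ∈ S.L s(j, i) ∧ S.part j = Y

open Classical in
private theorem KOdd_nw {k r : ℕ} {I ι : Type} [Fintype I] (S : LS k r I ι) (w : I → ℝ)
    (c : Fin r) (j : I) :
    S.nw w c j = ∑ i, if S.big i j ∧ c ∈ S.L s(i, j) then w i else 0 := rfl

open Classical in
private theorem KOdd_exc1 {k r : ℕ} {I ι : Type} [Fintype I] (S : LS k r I ι) (w : I → ℝ)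
    (hw0 : ∀ i, 0 ≤ w i) (hw1 : ∑ i, w i = 1) (θ : ℝ) (hθ0 : 0 ≤ θ) (hone : S.OnePart w θ)
    (c : Fin r) :
    ∑ j, ∑ i, (if S.big i j ∧ c ∈ S.L s(i, j) ∧ kExc S c j then w i * w j else 0) ≤ θ := by
  have h1 : ∀ j, ∑ i, (if S.big i j ∧ c ∈ S.L s(i, j) ∧ kExc S c j then w i * w j else 0) ≤
      θ * w j := by
    intro j
    by_cases hj : kExc S c j
    · have hnw : S.nw w c j ≤ θ := by
        rcases hone c j with h | h
        · exact absurd h hj
        · exact h
      have e : ∑ i, (if S.big i j ∧ c ∈ S.L s(i, j) ∧ kExc S c j then w i * w j else 0) =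
          S.nw w c j * w j := by
        rw [KOdd_nw, Finset.sum_mul]
        apply Finset.sum_congr rfl
        intro i _
        simp only [hj, and_true]
        split_ifs <;> simp
      rw [e]
      exact mul_le_mul_of_nonneg_right hnw (hw0 j)
    · have e : ∑ i, (if S.big i j ∧ c ∈ S.L s(i, j) ∧ kExc S c j then w i * w j else 0) = 0 := by
        apply Finset.sum_eq_zero
        intro i _
        rw [if_neg]
        rintro ⟨_, _, h⟩
        exact hj h
      rw [e]
      exact mul_nonneg hθ0 (hw0 j)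
  refine (Finset.sum_le_sum fun j _ => h1 j).trans ?_
  rw [← Finset.mul_sum, hw1, mul_one]

open Classical in
private theorem KOdd_rowsum {k r : ℕ} {I ι : Type} [Fintype I] [DecidableEq ι] (S : LS k r I ι)
    (w : I → ℝ) (hw0 : ∀ i, 0 ≤ w i) (c : Fin r) (T : Finset ι) (X : ι) :
    ∑ Y ∈ T, ∑ i, (if kInA S c X Y i then w i else 0) ≤ S.W w X := by
  unfold LS.W
  rw [Finset.sum_comm]
  apply Finset.sum_le_sum
  intro i _
  by_cases hex : ∃ Y0 ∈ T, kInA S c X Y0 i
  · obtain ⟨Y0, hY0, hA⟩ := hex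
    have huniq : ∀ Y ∈ T, Y ≠ Y0 → (if kInA S c X Y i then w i else 0) = 0 := by
      intro Y _ hne
      rw [if_neg]
      intro hA'
      apply hne
      obtain ⟨_, hnexc, j, hj1, hj2, hj3⟩ := hA
      obtain ⟨_, _, j', hj1', hj2', hj3'⟩ := hA'
      have hn : ∀ i1 i2, S.big i1 i → c ∈ S.L s(i1, i) → S.big i2 i → c ∈ S.L s(i2, i) →
          S.part i1 = S.part i2 := by
        unfold kExc at hnexc
        exact not_not.1 hnexc
      rw [← hj3, ← hj3']
      exact hn j' j hj1' hj2' hj1 hj2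
    rw [Finset.sum_eq_single_of_mem Y0 hY0 huniq, if_pos hA, if_pos hA.1]
  · push Not at hex
    have e : ∑ Y ∈ T, (if kInA S c X Y i then w i else 0) = 0 := by
      apply Finset.sum_eq_zero
      intro Y hY
      rw [if_neg (hex Y hY)]
    rw [e]
    split_ifs
    · exact hw0 i
    · exact le_refl _

open Classical in
/-- the bound for one colour -/
private theorem KOdd_color {k r : ℕ} {I ι : Type} [Fintype I] [DecidableEq ι] (S : LS k r I ι)
    (w : I → ℝ) (hw0 : ∀ i, 0 ≤ w i) (hw1 : ∑ i, w i = 1) (θ : ℝ) (hθ0 : 0 ≤ θ)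
    (hone : S.OnePart w θ) (S0 : Finset ι) (hodd : Odd S0.card) (m : ℝ) (hm0 : 0 ≤ m)
    (hm : ∀ X ∈ S0, m ≤ S.W w X) (c : Fin r) :
    ∑ i, ∑ j, (if (S.part i ∈ S0 ∧ S.part j ∈ S0 ∧ S.big i j) ∧ c ∈ S.L s(i, j) then
      w i * w j else 0) ≤ ∑ X ∈ S0, (S.W w X) ^ 2 - m ^ 2 + 2 * θ := by
  set a : ι → ι → ℝ := fun X Y => ∑ i, (if kInA S c X Y i then w i else 0) with ha
  have ha0 : ∀ X Y, 0 ≤ a X Y := by
    intro X Y
    apply Finset.sum_nonneg
    intro i _
    split_ifs
    · exact hw0 i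
    · exact le_refl _
  have hmain := KOdd_abs S0 hodd (fun X => S.W w X) m hm0 hm a ha0
    (fun X _ => KOdd_rowsum S w hw0 c (S0.erase X) X)
  have hE1 := KOdd_exc1 S w hw0 hw1 θ hθ0 hone c
  rw [Finset.sum_comm] at hE1
  have hE2 := KOdd_exc1 S w hw0 hw1 θ hθ0 hone c
  -- pointwise
  have hpt : ∀ i j, (if (S.part i ∈ S0 ∧ S.part j ∈ S0 ∧ S.big i j) ∧ c ∈ S.L s(i, j) then
      w i * w j else 0) ≤
      (if S.big i j ∧ c ∈ S.L s(i, j) ∧ kExc S c j then w i * w j else 0) +
      (if S.big j i ∧ c ∈ S.L s(j, i) ∧ kExc S c i then w j * w i else 0) +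
      ∑ X ∈ S0, ∑ Y ∈ S0.erase X, (if kInA S c X Y i then w i else 0) *
        (if kInA S c Y X j then w j else 0) := by
    intro i j
    have hwij : 0 ≤ w i * w j := mul_nonneg (hw0 i) (hw0 j)
    have n1 : 0 ≤ (if S.big i j ∧ c ∈ S.L s(i, j) ∧ kExc S c j then w i * w j else 0) := by
      split_ifs
      · exact hwij
      · exact le_refl _
    have n2 : 0 ≤ (if S.big j i ∧ c ∈ S.L s(j, i) ∧ kExc S c i then w j * w i else 0) := by
      split_ifs
      · exact mul_nonneg (hw0 j) (hw0 i)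
      · exact le_refl _
    have npair : ∀ X Y, 0 ≤ (if kInA S c X Y i then w i else 0) *
        (if kInA S c Y X j then w j else 0) := by
      intro X Y
      apply mul_nonneg
      · split_ifs
        · exact hw0 i
        · exact le_refl _
      · split_ifs
        · exact hw0 j
        · exact le_refl _
    have n3 : 0 ≤ ∑ X ∈ S0, ∑ Y ∈ S0.erase X, (if kInA S c X Y i then w i else 0) *
        (if kInA S c Y X j then w j else 0) :=
      Finset.sum_nonneg fun X _ => Finset.sum_nonneg fun Y _ => npair X Y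
    by_cases hcond : (S.part i ∈ S0 ∧ S.part j ∈ S0 ∧ S.big i j) ∧ c ∈ S.L s(i, j)
    · rw [if_pos hcond]
      obtain ⟨⟨hi, hj, hbig⟩, hc⟩ := hcond
      have hbig' := KOdd_big_symm S hbig
      have hc' : c ∈ S.L s(j, i) := by rw [Sym2.eq_swap]; exact hc
      by_cases hej : kExc S c j
      · rw [if_pos ⟨hbig, hc, hej⟩]
        linarith
      · by_cases hei : kExc S c i
        · have hcnd : S.big j i ∧ c ∈ S.L s(j, i) ∧ kExc S c i := ⟨hbig', hc', hei⟩
          rw [if_pos hcnd]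
          have : w j * w i = w i * w j := mul_comm _ _
          linarith
        · have hA1 : kInA S c (S.part i) (S.part j) i := ⟨rfl, hei, j, hbig', hc', rfl⟩
          have hA2 : kInA S c (S.part j) (S.part i) j := ⟨rfl, hej, i, hbig, hc, rfl⟩
          have hYmem : S.part j ∈ S0.erase (S.part i) :=
            Finset.mem_erase.2 ⟨fun h => hbig.1 h.symm, hj⟩
          have h1 : (if kInA S c (S.part i) (S.part j) i then w i else 0) *
              (if kInA S c (S.part j) (S.part i) j then w j else 0) ≤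
              ∑ Y ∈ S0.erase (S.part i), (if kInA S c (S.part i) Y i then w i else 0) *
                (if kInA S c Y (S.part i) j then w j else 0) :=
            Finset.single_le_sum (f := fun Y => (if kInA S c (S.part i) Y i then w i else 0) *
                (if kInA S c Y (S.part i) j then w j else 0)) (fun Y _ => npair _ Y) hYmem
          have h2 : ∑ Y ∈ S0.erase (S.part i), (if kInA S c (S.part i) Y i then w i else 0) *
                (if kInA S c Y (S.part i) j then w j else 0) ≤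
              ∑ X ∈ S0, ∑ Y ∈ S0.erase X, (if kInA S c X Y i then w i else 0) *
                (if kInA S c Y X j then w j else 0) :=
            Finset.single_le_sum (f := fun X => ∑ Y ∈ S0.erase X,
                (if kInA S c X Y i then w i else 0) * (if kInA S c Y X j then w j else 0))
              (fun X _ => Finset.sum_nonneg fun Y _ => npair X Y) hi
          rw [if_pos hA1, if_pos hA2] at h1
          linarith
    · rw [if_neg hcond]
      linarith
  -- sum up
  have hsum3 : ∑ i, ∑ j, ∑ X ∈ S0, ∑ Y ∈ S0.erase X, (if kInA S c X Y i then w i else 0) *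
        (if kInA S c Y X j then w j else 0) = ∑ X ∈ S0, ∑ Y ∈ S0.erase X, a X Y * a Y X := by
    have e1 : ∀ i, ∑ j, ∑ X ∈ S0, ∑ Y ∈ S0.erase X, (if kInA S c X Y i then w i else 0) *
        (if kInA S c Y X j then w j else 0) =
        ∑ X ∈ S0, ∑ Y ∈ S0.erase X, (if kInA S c X Y i then w i else 0) * a Y X := by
      intro i
      rw [Finset.sum_comm]
      apply Finset.sum_congr rfl
      intro X _
      rw [Finset.sum_comm]
      apply Finset.sum_congr rfl
      intro Y _
      rw [← Finset.mul_sum]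
    rw [Finset.sum_congr rfl fun i _ => e1 i, Finset.sum_comm]
    apply Finset.sum_congr rfl
    intro X _
    rw [Finset.sum_comm]
    apply Finset.sum_congr rfl
    intro Y _
    rw [← Finset.sum_mul]
  calc ∑ i, ∑ j, (if (S.part i ∈ S0 ∧ S.part j ∈ S0 ∧ S.big i j) ∧ c ∈ S.L s(i, j) then
      w i * w j else 0)
      ≤ ∑ i, ∑ j, ((if S.big i j ∧ c ∈ S.L s(i, j) ∧ kExc S c j then w i * w j else 0) +
      (if S.big j i ∧ c ∈ S.L s(j, i) ∧ kExc S c i then w j * w i else 0) +
      ∑ X ∈ S0, ∑ Y ∈ S0.erase X, (if kInA S c X Y i then w i else 0) *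
        (if kInA S c Y X j then w j else 0)) :=
        Finset.sum_le_sum fun i _ => Finset.sum_le_sum fun j _ => hpt i j
    _ = ∑ i, ∑ j, (if S.big i j ∧ c ∈ S.L s(i, j) ∧ kExc S c j then w i * w j else 0) +
        ∑ i, ∑ j, (if S.big j i ∧ c ∈ S.L s(j, i) ∧ kExc S c i then w j * w i else 0) +
        ∑ X ∈ S0, ∑ Y ∈ S0.erase X, a X Y * a Y X := by
        rw [← hsum3]
        simp only [Finset.sum_add_distrib]
    _ ≤ ∑ X ∈ S0, (S.W w X) ^ 2 - m ^ 2 + 2 * θ := by linarith

theorem V_le_odd {k r : ℕ} (hG : Good k r) {I ι : Type} [Fintype I] [DecidableEq I]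
    [Fintype ι] [DecidableEq ι] (S : LS k r I ι) (w : I → ℝ) (hw0 : ∀ i, 0 ≤ w i)
    (hw1 : ∑ i, w i = 1) (θ : ℝ) (hθ0 : 0 ≤ θ) (hone : S.OnePart w θ) (S0 : Finset ι)
    (hodd : Odd S0.card)
    (hr : Real.exp 1 * ((k.choose 2 - 2 : ℕ) : ℝ) * (S0.card : ℝ) ≤ r) (m : ℝ) (hm0 : 0 ≤ m)
    (hm : ∀ X ∈ S0, m ≤ S.W w X) :
    ∑ i, w i * S.D w i ≤
      ((∑ X ∈ S0, S.W w X) ^ 2 - ∑ X ∈ S0, (S.W w X) ^ 2) *
          (Real.log r - Real.log (S0.card : ℝ) - 1) +
        (S0.card : ℝ) * (∑ X ∈ S0, (S.W w X) ^ 2 - m ^ 2) + 2 * (S0.card : ℝ) * θ +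
        2 * (1 - ∑ X ∈ S0, S.W w X) * Real.log r := by
  classical
  have hk := hG.hk
  have hr9 := num2 hG
  have hrpos : (0 : ℝ) < r := by
    have : 0 < r := by omega
    exact_mod_cast this
  have hr1 : (1 : ℝ) ≤ r := by
    have : 1 ≤ r := by omega
    exact_mod_cast this
  have hs1 : (1 : ℝ) ≤ S0.card := by exact_mod_cast hodd.pos
  have hB1 : (4 : ℝ) ≤ ((k.choose 2 - 2 : ℕ) : ℝ) := by
    have h1 : (4 : ℕ).choose 2 ≤ k.choose 2 := Nat.choose_le_choose 2 hk
    have h2 : (4 : ℕ).choose 2 = 6 := by decide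
    have : 4 ≤ k.choose 2 - 2 := by omega
    exact_mod_cast this
  set R : ℝ := Real.log r with hR
  have hR0 : 0 ≤ R := Real.log_nonneg hr1
  set sl : ℝ := Real.log (S0.card : ℝ) with hsl
  have hlogB : Real.log ((k.choose 2 - 2 : ℕ) : ℝ) ≤ R - sl - 1 := by
    have h1 := Real.log_le_log (by positivity) hr
    rw [Real.log_mul (by positivity) (by positivity), Real.log_mul (by positivity) (by positivity),
      Real.log_exp] at h1
    linarith
  set A : ℝ := ∑ X ∈ S0, S.W w X with hA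
  -- expression of `A`
  have hAeq : A = ∑ i, if S.part i ∈ S0 then w i else 0 := by
    rw [hA]
    unfold LS.W
    rw [Finset.sum_comm]
    apply Finset.sum_congr rfl
    intro i _
    rw [Finset.sum_ite_eq]
  have hA0 : 0 ≤ A := by
    rw [hAeq]
    apply Finset.sum_nonneg
    intro i _
    split_ifs
    · exact hw0 i
    · exact le_refl _
  have hA1 : A ≤ 1 := by
    rw [hAeq, ← hw1]
    apply Finset.sum_le_sum
    intro i _
    split_ifs
    · exact le_refl _
    · exact hw0 i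
  have hAA : ∑ i, ∑ j, (if S.part i ∈ S0 ∧ S.part j ∈ S0 then w i * w j else 0) = A ^ 2 := by
    rw [sq, hAeq, Finset.sum_mul_sum]
    apply Finset.sum_congr rfl
    intro i _
    apply Finset.sum_congr rfl
    intro j _
    by_cases h1 : S.part i ∈ S0 <;> by_cases h2 : S.part j ∈ S0 <;> simp [h1, h2]
  have hWW : ∑ i, ∑ j, (if S.part i ∈ S0 ∧ S.part i = S.part j then w i * w j else 0) =
      ∑ X ∈ S0, (S.W w X) ^ 2 := by
    have e : ∀ X, (S.W w X) ^ 2 = ∑ i, ∑ j, (if S.part i = X ∧ S.part j = X then w i * w j else 0) := by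
      intro X
      unfold LS.W
      rw [sq, Finset.sum_mul_sum]
      apply Finset.sum_congr rfl
      intro i _
      apply Finset.sum_congr rfl
      intro j _
      by_cases h1 : S.part i = X <;> by_cases h2 : S.part j = X <;> simp [h1, h2]
    rw [Finset.sum_congr rfl fun X _ => e X]
    symm
    rw [Finset.sum_comm]
    apply Finset.sum_congr rfl
    intro i _
    rw [Finset.sum_comm]
    apply Finset.sum_congr rfl
    intro j _
    by_cases h1 : S.part i ∈ S0
    · rw [Finset.sum_eq_single_of_mem (S.part i) h1]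
      · by_cases h2 : S.part i = S.part j
        · have e3 : S.part i = S.part i ∧ S.part j = S.part i := ⟨rfl, h2.symm⟩
          have e4 : S.part i ∈ S0 ∧ S.part i = S.part j := ⟨h1, h2⟩
          rw [if_pos e3, if_pos e4]
        · have e3 : ¬ (S.part i = S.part i ∧ S.part j = S.part i) := fun h => h2 h.2.symm
          have e4 : ¬ (S.part i ∈ S0 ∧ S.part i = S.part j) := fun h => h2 h.2
          rw [if_neg e3, if_neg e4]
      · intro X _ hne
        rw [if_neg]
        rintro ⟨h, _⟩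
        exact hne h.symm
    · have e4 : ¬ (S.part i ∈ S0 ∧ S.part i = S.part j) := fun h => h1 h.1
      rw [if_neg e4]
      apply Finset.sum_eq_zero
      intro X hX
      rw [if_neg]
      rintro ⟨h, _⟩
      exact h1 (h ▸ hX)
  -- pointwise bound
  have hpt : ∀ i j, w i * (w j * S.ell i j) ≤
      (w i * w j - (if S.part i ∈ S0 ∧ S.part j ∈ S0 then w i * w j else 0)) * R +
      ((if S.part i ∈ S0 ∧ S.part j ∈ S0 then w i * w j else 0) -
        (if S.part i ∈ S0 ∧ S.part i = S.part j then w i * w j else 0)) * (R - sl - 1) +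
      ((S0.card : ℝ) / r) * (if S.part i ∈ S0 ∧ S.part j ∈ S0 ∧ S.big i j then
        w i * w j * ((S.L s(i, j)).card : ℝ) else 0) := by
    intro i j
    have hwij : 0 ≤ w i * w j := mul_nonneg (hw0 i) (hw0 j)
    have hell : S.ell i j = if S.part i = S.part j then 0 else
      Real.log ((S.L s(i, j)).card : ℝ) := rfl
    have hcardr : ((S.L s(i, j)).card : ℝ) ≤ r := by
      have : (S.L s(i, j)).card ≤ r := by
        simpa using Finset.card_le_univ (S.L s(i, j))
      exact_mod_cast this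
    have hn : 0 ≤ ((S0.card : ℝ) / r) * (if S.part i ∈ S0 ∧ S.part j ∈ S0 ∧ S.big i j then
        w i * w j * ((S.L s(i, j)).card : ℝ) else 0) := by
      apply mul_nonneg (by positivity)
      split_ifs
      · positivity
      · exact le_refl _
    by_cases hboth : S.part i ∈ S0 ∧ S.part j ∈ S0
    · rw [if_pos hboth, sub_self, zero_mul, zero_add]
      by_cases hpe : S.part i = S.part j
      · rw [if_pos ⟨hboth.1, hpe⟩, sub_self, zero_mul, zero_add, hell, if_pos hpe, mul_zero,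
          mul_zero]
        exact hn
      · rw [if_neg (fun h => hpe h.2), sub_zero, hell, if_neg hpe]
        have hne := S.ne i j hpe
        have hc1 : 1 ≤ (S.L s(i, j)).card := Finset.card_pos.2 hne
        have hcr : (1 : ℝ) ≤ ((S.L s(i, j)).card : ℝ) := by exact_mod_cast hc1
        by_cases hbig : S.big i j
        · rw [if_pos ⟨hboth.1, hboth.2, hbig⟩]
          set z : ℝ := (S0.card : ℝ) * ((S.L s(i, j)).card : ℝ) / r with hz
          have hzpos : 0 < z := by positivity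
          have h1 := Real.log_le_sub_one_of_pos hzpos
          rw [hz, Real.log_div (by positivity) (by positivity), Real.log_mul (by positivity)
            (by positivity), ← hz] at h1
          have h2 : Real.log ((S.L s(i, j)).card : ℝ) ≤ R - sl - 1 + z := by
            rw [hR, hsl]; linarith
          have h3 := mul_le_mul_of_nonneg_left h2 hwij
          have h4 : w i * w j * z = ((S0.card : ℝ) / r) * (w i * w j *
              ((S.L s(i, j)).card : ℝ)) := by
            rw [hz]; ring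
          have h5 : w i * (w j * Real.log ((S.L s(i, j)).card : ℝ)) =
            w i * w j * Real.log ((S.L s(i, j)).card : ℝ) := by ring
          rw [h5]
          linarith
        · have hlt : ¬ k.choose 2 - 1 ≤ (S.L s(i, j)).card := fun h => hbig ⟨hpe, h⟩
          have hle : (S.L s(i, j)).card ≤ k.choose 2 - 2 := by omega
          have h2 : Real.log ((S.L s(i, j)).card : ℝ) ≤ R - sl - 1 := by
            refine le_trans ?_ hlogB
            apply Real.log_le_log (by linarith)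
            exact_mod_cast hle
          have h3 := mul_le_mul_of_nonneg_left h2 hwij
          have h5 : w i * (w j * Real.log ((S.L s(i, j)).card : ℝ)) =
            w i * w j * Real.log ((S.L s(i, j)).card : ℝ) := by ring
          rw [h5]
          linarith
    · rw [if_neg hboth, sub_zero]
      have hnot : ¬ (S.part i ∈ S0 ∧ S.part i = S.part j) := by
        rintro ⟨h1, h2⟩
        exact hboth ⟨h1, h2 ▸ h1⟩
      rw [if_neg hnot, sub_zero, zero_mul]
      have hle : S.ell i j ≤ R := by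
        rw [hell]
        split_ifs with hp
        · exact hR0
        · have hne := S.ne i j hp
          have hc1 : 1 ≤ (S.L s(i, j)).card := Finset.card_pos.2 hne
          have hcr : (1 : ℝ) ≤ ((S.L s(i, j)).card : ℝ) := by exact_mod_cast hc1
          exact Real.log_le_log (by linarith) hcardr
      have h3 := mul_le_mul_of_nonneg_left hle hwij
      have h5 : w i * (w j * S.ell i j) = w i * w j * S.ell i j := by ring
      rw [h5]
      linarith
  -- the colour sum
  have hcol : ∑ i, ∑ j, (if S.part i ∈ S0 ∧ S.part j ∈ S0 ∧ S.big i j then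
        w i * w j * ((S.L s(i, j)).card : ℝ) else 0) ≤
      r * (∑ X ∈ S0, (S.W w X) ^ 2 - m ^ 2 + 2 * θ) := by
    have e : ∀ i j, (if S.part i ∈ S0 ∧ S.part j ∈ S0 ∧ S.big i j then
        w i * w j * ((S.L s(i, j)).card : ℝ) else 0) =
        ∑ c : Fin r, (if (S.part i ∈ S0 ∧ S.part j ∈ S0 ∧ S.big i j) ∧ c ∈ S.L s(i, j) then
          w i * w j else 0) := by
      intro i j
      by_cases h : S.part i ∈ S0 ∧ S.part j ∈ S0 ∧ S.big i j
      · rw [if_pos h]
        simp only [h, true_and]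
        rw [← Finset.sum_filter, Finset.sum_const, Finset.filter_mem_eq_inter, Finset.univ_inter,
          nsmul_eq_mul]
        ring
      · rw [if_neg h]
        symm
        apply Finset.sum_eq_zero
        intro c _
        rw [if_neg (fun h' => h h'.1)]
    have e2 : ∑ i, ∑ j, (if S.part i ∈ S0 ∧ S.part j ∈ S0 ∧ S.big i j then
        w i * w j * ((S.L s(i, j)).card : ℝ) else 0) =
        ∑ c : Fin r, ∑ i, ∑ j, (if (S.part i ∈ S0 ∧ S.part j ∈ S0 ∧ S.big i j) ∧
          c ∈ S.L s(i, j) then w i * w j else 0) := by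
      symm
      rw [Finset.sum_comm]
      apply Finset.sum_congr rfl
      intro i _
      rw [Finset.sum_comm]
      apply Finset.sum_congr rfl
      intro j _
      exact (e i j).symm
    rw [e2]
    refine (Finset.sum_le_sum fun c _ =>
      KOdd_color S w hw0 hw1 θ hθ0 hone S0 hodd m hm0 hm c).trans ?_
    rw [Finset.sum_const, Finset.card_univ, Fintype.card_fin, nsmul_eq_mul]
  -- total
  have hV : ∑ i, w i * S.D w i = ∑ i, ∑ j, w i * (w j * S.ell i j) := by
    apply Finset.sum_congr rfl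
    intro i _
    unfold LS.D
    rw [Finset.mul_sum]
  have hww : ∑ i, ∑ j, w i * w j = 1 := by
    rw [← Finset.sum_mul_sum, hw1]; norm_num
  have htot : ∑ i, w i * S.D w i ≤ (1 - A ^ 2) * R + (A ^ 2 - ∑ X ∈ S0, (S.W w X) ^ 2) *
      (R - sl - 1) + ((S0.card : ℝ) / r) * (r * (∑ X ∈ S0, (S.W w X) ^ 2 - m ^ 2 + 2 * θ)) := by
    rw [hV]
    refine (Finset.sum_le_sum fun i _ => Finset.sum_le_sum fun j _ => hpt i j).trans ?_
    simp only [Finset.sum_add_distrib, ← Finset.sum_mul, ← Finset.mul_sum, Finset.sum_sub_distrib]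
    simp only [← Finset.mul_sum] at hww ⊢
    rw [hAA, hWW]
    have h1 := mul_le_mul_of_nonneg_left hcol (show (0 : ℝ) ≤ (S0.card : ℝ) / r by positivity)
    have h2 : ∑ i, w i * ∑ j, w j = 1 := hww
    rw [← Finset.sum_mul] at h2
    simp only [hw1, mul_one] at *
    linarith
  have hlast : ((S0.card : ℝ) / r) * (r * (∑ X ∈ S0, (S.W w X) ^ 2 - m ^ 2 + 2 * θ)) =
      (S0.card : ℝ) * (∑ X ∈ S0, (S.W w X) ^ 2 - m ^ 2) + 2 * (S0.card : ℝ) * θ := by
    field_simp
  rw [hlast] at htot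
  have hfin : (1 - A ^ 2) * R ≤ 2 * (1 - A) * R := by
    apply mul_le_mul_of_nonneg_right _ hR0
    nlinarith
  linarith

end MP2ab38c
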