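import Pool.Agent.Lib.MP_2ab38c_co.KNum
import Pool.Agent.Lib.MP_2ab38c_co.KGreedy

/-!
JOB KPart.  Colour neighbourhoods lie in one part or have weight at most `(k-1) ε`.

Proof.  Let `A = N_c(j)` (big neighbours `i` of `j` with `c ∈ L(i,j)`), `a` its weight, suppose
`a > (k-1)ε` and `i, i' ∈ A` in different parts.  `A` is independent in the big graph (`htri`
with centre `j`).  The common big neighbourhood `Z` of `i, i', j` has weight at least
`x_i + x_i' + (x_j - a) - 2(1 - a) ≥ 3 x0 - 2 + a` (all in the complement of `A`, of weight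
`1 - a`), where every big degree is `≥ x0 := (k-2)/(k-1) - ε`.  Pick greedily a big clique
`z_1, ..., z_{k-3}` in `Z`: after `t ≤ k-4` choices the remaining weight is at least
`3 x0 - 2 + a - t (1 - x0) ≥ a - ((k-2) - (k-1) x0) = a - (k-1) ε > 0`.  So
`K = {i, i', j, z_1, ..., z_{k-3}}` has `k` elements in distinct parts, all pairs big except
`i i'`, whose list is nonempty (different parts, `S.ne`).  Choose `c' ∈ L(i,i')`.  If `c' ≠ c`:
`ji, ji' ← c`, `ii' ← c'`, rest greedily (`LS.no_ext` with centre `j`).  If `c' = c`:
`ii', ij ← c` (centre `i`), rest greedily.  Contradiction in both cases.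
-/

namespace MP2ab38c

open Finset

private lemma kp_symm {k r : ℕ} {I ι : Type} {S : LS k r I ι} {i j : I} (h : S.big i j) :
    S.big j i := by
  obtain ⟨h1, h2⟩ := h
  exact ⟨h1.symm, by rw [Sym2.eq_swap]; exact h2⟩

private lemma kp_ne {k r : ℕ} {I ι : Type} {S : LS k r I ι} {i j : I} (h : S.big i j) :
    i ≠ j := by
  rintro rfl
  exact h.1 rfl

/-- the final contradiction -/
private lemma kp_contra {k r : ℕ} {I ι : Type} [DecidableEq I] (S : LS k r I ι)
    (hk : 4 ≤ k) (i i' j : I) (c : Fin r)
    (hij : S.big i j) (hi'j : S.big i' j) (hci : c ∈ S.L s(i, j)) (hci' : c ∈ S.L s(i', j))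
    (hpp : S.part i ≠ S.part i') (T : Finset I) (hT : T.card = k - 3)
    (hTT : ∀ p ∈ T, ∀ q ∈ T, p ≠ q → S.big p q)
    (hTi : ∀ p ∈ T, S.big i p) (hTi' : ∀ p ∈ T, S.big i' p) (hTj : ∀ p ∈ T, S.big j p) :
    False := by
  have hii' : i ≠ i' := fun h => hpp (by rw [h])
  have hne1 : i ≠ j := kp_ne hij
  have hne2 : i' ≠ j := kp_ne hi'j
  have hiT : i ∉ T := fun h => kp_ne (hTi i h) rfl
  have hi'T : i' ∉ T := fun h => kp_ne (hTi' i' h) rfl
  have hjT : j ∉ T := fun h => kp_ne (hTj j h) rfl
  set K : Finset I := insert i (insert i' (insert j T)) with hK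
  have hcard : K.card = k := by
    rw [hK, card_insert_of_notMem, card_insert_of_notMem, card_insert_of_notMem hjT, hT]
    · omega
    · simp only [mem_insert, not_or]; exact ⟨hne2, hi'T⟩
    · simp only [mem_insert, not_or]; exact ⟨hii', hne1, hiT⟩
  have hi : i ∈ K := by simp [hK]
  have hi' : i' ∈ K := by simp [hK]
  have hj : j ∈ K := by simp [hK]
  have hbig : ∀ p ∈ K, ∀ q ∈ K, p ≠ q → s(p, q) ≠ s(i, i') → S.big p q := by
    intro p hp q hq hpq hne
    simp only [hK, mem_insert] at hp hq
    rcases hp with rfl | rfl | rfl | hp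
    · rcases hq with rfl | rfl | rfl | hq
      · exact absurd rfl hpq
      · exact absurd rfl hne
      · exact hij
      · exact hTi q hq
    · rcases hq with rfl | rfl | rfl | hq
      · exact absurd Sym2.eq_swap hne
      · exact absurd rfl hpq
      · exact hi'j
      · exact hTi' q hq
    · rcases hq with rfl | rfl | rfl | hq
      · exact kp_symm hij
      · exact kp_symm hi'j
      · exact absurd rfl hpq
      · exact hTj q hq
    · rcases hq with rfl | rfl | rfl | hq
      · exact kp_symm (hTi p hp)
      · exact kp_symm (hTi' p hp)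
      · exact kp_symm (hTj p hp)
      · exact hTT p hp q hq hpq
  have hparts : ∀ p ∈ K, ∀ q ∈ K, p ≠ q → S.part p ≠ S.part q := by
    intro p hp q hq hpq
    by_cases h : s(p, q) = s(i, i')
    · rw [Sym2.eq_iff] at h
      rcases h with ⟨rfl, rfl⟩ | ⟨rfl, rfl⟩
      · exact hpp
      · exact hpp.symm
    · exact (hbig p hp q hq hpq h).1
  obtain ⟨c', hc'⟩ := S.ne i i' hpp
  have e1 : s(j, i) ≠ s(i, i') := by
    intro h; rw [Sym2.eq_iff] at h
    rcases h with ⟨h1, h2⟩ | ⟨h1, h2⟩
    · exact hne1 h1.symm
    · exact hne2 h1.symm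
  have e2 : s(j, i') ≠ s(i, i') := by
    intro h; rw [Sym2.eq_iff] at h
    rcases h with ⟨h1, h2⟩ | ⟨h1, h2⟩
    · exact hne1 h1.symm
    · exact hne2 h1.symm
  by_cases hcc : c' = c
  · subst hcc
    refine S.no_ext K hcard hparts {s(i, i'), s(i, j)} (fun _ => c') i i' j hi hi' hj hii' hne1 hne2
      (by simp) (by simp) rfl ?_ ?_ ?_ ?_
    · intro e he f hf _
      simp only [mem_insert, mem_singleton] at he hf
      rcases he with rfl | rfl <;> rcases hf with rfl | rfl <;> simp
    · intro e he
      simp only [mem_insert, mem_singleton] at he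
      rcases he with rfl | rfl
      · exact hc'
      · exact hci
    · intro e he
      simp only [mem_insert, mem_singleton] at he
      rcases he with rfl | rfl
      · refine ⟨by simpa using hii', ?_⟩
        intro a ha
        rw [Sym2.mem_iff] at ha
        rcases ha with rfl | rfl <;> assumption
      · refine ⟨by simpa using hne1, ?_⟩
        intro a ha
        rw [Sym2.mem_iff] at ha
        rcases ha with rfl | rfl <;> assumption
    · intro p hp q hq hpq hn
      apply hbig p hp q hq hpq
      intro h
      apply hn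
      rw [h]; simp
  · refine S.no_ext K hcard hparts {s(j, i), s(j, i'), s(i, i')}
      (fun e => if e = s(i, i') then c' else c) j i i' hj hi hi' hne1.symm hne2.symm hii'
      (by simp) (by simp) (by rw [if_neg e1, if_neg e2]) ?_ ?_ ?_ ?_
    · intro e he f hf hef
      simp only [mem_insert, mem_singleton] at he hf
      rcases he with rfl | rfl | rfl <;> rcases hf with rfl | rfl | rfl
      · left; rfl
      · right; left; exact ⟨rfl, rfl⟩
      · rw [if_neg e1, if_pos rfl] at hef; exact absurd hef.symm hcc
      · right; right; exact ⟨rfl, rfl⟩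
      · left; rfl
      · rw [if_neg e2, if_pos rfl] at hef; exact absurd hef.symm hcc
      · rw [if_neg e1, if_pos rfl] at hef; exact absurd hef hcc
      · rw [if_neg e2, if_pos rfl] at hef; exact absurd hef hcc
      · left; rfl
    · intro e he
      simp only [mem_insert, mem_singleton] at he
      rcases he with rfl | rfl | rfl
      · rw [if_neg e1, Sym2.eq_swap]; exact hci
      · rw [if_neg e2, Sym2.eq_swap]; exact hci'
      · rw [if_pos rfl]; exact hc'
    · intro e he
      simp only [mem_insert, mem_singleton] at he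
      rcases he with rfl | rfl | rfl
      · refine ⟨by simpa using hne1.symm, ?_⟩
        intro a ha
        rw [Sym2.mem_iff] at ha
        rcases ha with rfl | rfl <;> assumption
      · refine ⟨by simpa using hne2.symm, ?_⟩
        intro a ha
        rw [Sym2.mem_iff] at ha
        rcases ha with rfl | rfl <;> assumption
      · refine ⟨by simpa using hii', ?_⟩
        intro a ha
        rw [Sym2.mem_iff] at ha
        rcases ha with rfl | rfl <;> assumption
    · intro p hp q hq hpq hn
      apply hbig p hp q hq hpq
      intro h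
      apply hn
      rw [h]; simp

theorem onePart {k r : ℕ} (hG : Good k r) {I ι : Type} [Fintype I] [DecidableEq I]
    [DecidableEq ι] (S : LS k r I ι) (w : I → ℝ) (hw0 : ∀ i, 0 ≤ w i) (hw1 : ∑ i, w i = 1)
    (ε : ℝ) (hε : 0 < ε)
    (htri : ∀ i j j', S.big i j → S.big i j' → S.big j j' →
      Disjoint (S.L s(i, j)) (S.L s(i, j')))
    (hx : ∀ i, ((k : ℝ) - 2) / ((k : ℝ) - 1) - ε ≤ S.xdeg w i) :
    S.OnePart w (((k : ℝ) - 1) * ε) := by
  classical
  intro c j
  by_contra hcon
  rw [not_or] at hcon
  obtain ⟨hcon1, hcon2⟩ := hcon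
  push Not at hcon1 hcon2
  obtain ⟨i, i', hij, hci, hi'j, hci', hpp⟩ := hcon1
  have hk : 4 ≤ k := hG.hk
  have hkR : (4 : ℝ) ≤ k := by exact_mod_cast hk
  set x0 : ℝ := ((k : ℝ) - 2) / ((k : ℝ) - 1) - ε with hx0
  set a : ℝ := S.nw w c j with ha
  have hind : ∀ p, S.big p j → c ∈ S.L s(p, j) → ∀ q, S.big q j → c ∈ S.L s(q, j) → ¬ S.big p q := by
    intro p hp hcp q hq hcq hpq
    have h1 := htri j p q (kp_symm hp) (kp_symm hq) hpq
    rw [Finset.disjoint_left] at h1
    exact h1 (by rw [Sym2.eq_swap]; exact hcp) (by rw [Sym2.eq_swap]; exact hcq)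
  have hxd : ∀ p, S.xdeg w p = ∑ z, if S.big p z then w z else 0 := by
    intro p; unfold LS.xdeg
    apply sum_congr rfl; intro z _; congr
  have had : a = ∑ z, if S.big z j ∧ c ∈ S.L s(z, j) then w z else 0 := by
    rw [ha]; unfold LS.nw
    apply sum_congr rfl; intro z _; congr
  -- greedy choice
  have hgreedy : ∀ t : ℕ, t ≤ k - 3 → ∃ T : Finset I, T.card = t ∧
      (∀ p ∈ T, ∀ q ∈ T, p ≠ q → S.big p q) ∧ (∀ p ∈ T, S.big i p) ∧ (∀ p ∈ T, S.big i' p) ∧
      (∀ p ∈ T, S.big j p) := by
    intro t
    induction t with
    | zero => intro _; exact ⟨∅, by simp, by simp, by simp, by simp, by simp⟩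
    | succ t ih =>
      intro ht
      obtain ⟨T, hTc, hTT, hTi, hTi', hTj⟩ := ih (by omega)
      -- a further element
      have hex : ∃ z, S.big i z ∧ S.big i' z ∧ S.big j z ∧ ∀ y ∈ T, S.big y z := by
        by_contra hno
        push Not at hno
        have hpt : ∀ z, w z * ((if S.big i z then 1 else 0) + (if S.big i' z then 1 else 0) +
            (if S.big j z then 1 else 0) - 2 + (if S.big z j ∧ c ∈ S.L s(z, j) then 1 else 0)) ≤
            w z * ∑ y ∈ T, (1 - (if S.big y z then (1 : ℝ) else 0)) := by
          intro z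
          apply mul_le_mul_of_nonneg_left _ (hw0 z)
          have hnn : ∀ y ∈ T, (0 : ℝ) ≤ 1 - (if S.big y z then (1 : ℝ) else 0) := by
            intro y _; split_ifs <;> simp
          have hsum0 : 0 ≤ ∑ y ∈ T, (1 - (if S.big y z then (1 : ℝ) else 0)) := sum_nonneg hnn
          by_cases hA : S.big z j ∧ c ∈ S.L s(z, j)
          · have h1 : ¬ S.big i z := hind i hij hci z hA.1 hA.2
            have h2 : ¬ S.big i' z := hind i' hi'j hci' z hA.1 hA.2
            rw [if_neg h1, if_neg h2, if_pos hA, if_pos (kp_symm hA.1)]
            linarith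
          · rw [if_neg hA]
            by_cases h1 : S.big i z
            · by_cases h2 : S.big i' z
              · by_cases h3 : S.big j z
                · obtain ⟨y, hy, hyz⟩ := hno z h1 h2 h3
                  rw [if_pos h1, if_pos h2, if_pos h3]
                  have h4 : (1 : ℝ) ≤ ∑ y ∈ T, (1 - (if S.big y z then (1 : ℝ) else 0)) := by
                    calc (1 : ℝ) = 1 - (if S.big y z then (1 : ℝ) else 0) := by rw [if_neg hyz]; ring
                      _ ≤ _ := single_le_sum hnn hy
                  linarith
                · rw [if_pos h1, if_pos h2, if_neg h3]; linarith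
              · rw [if_pos h1, if_neg h2]
                split_ifs <;> linarith
            · rw [if_neg h1]
              split_ifs <;> linarith
        have hsum := sum_le_sum (fun z (_ : z ∈ (univ : Finset I)) => hpt z)
        have hL : ∑ z, w z * ((if S.big i z then 1 else 0) + (if S.big i' z then 1 else 0) +
            (if S.big j z then 1 else 0) - 2 + (if S.big z j ∧ c ∈ S.L s(z, j) then 1 else 0)) =
            S.xdeg w i + S.xdeg w i' + S.xdeg w j - 2 + a := by
          have hpz : ∀ z, w z * ((if S.big i z then 1 else 0) + (if S.big i' z then 1 else 0) +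
              (if S.big j z then 1 else 0) - 2 + (if S.big z j ∧ c ∈ S.L s(z, j) then 1 else 0)) =
              (if S.big i z then w z else 0) + (if S.big i' z then w z else 0) +
              (if S.big j z then w z else 0) - 2 * w z +
              (if S.big z j ∧ c ∈ S.L s(z, j) then w z else 0) := by
            intro z; split_ifs <;> ring
          rw [sum_congr rfl (fun z _ => hpz z), sum_add_distrib, sum_sub_distrib, sum_add_distrib,
            sum_add_distrib, ← mul_sum, hw1, ← hxd, ← hxd, ← hxd, ← had]
          ring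
        have hR : ∑ z, w z * ∑ y ∈ T, (1 - (if S.big y z then (1 : ℝ) else 0)) =
            ∑ y ∈ T, (1 - S.xdeg w y) := by
          simp_rw [mul_sum]
          rw [sum_comm]
          apply sum_congr rfl
          intro y _
          have hpz : ∀ z, w z * (1 - (if S.big y z then (1 : ℝ) else 0)) =
              w z - (if S.big y z then w z else 0) := by
            intro z; split_ifs <;> ring
          rw [sum_congr rfl (fun z _ => hpz z), sum_sub_distrib, hw1, ← hxd]
        rw [hL, hR] at hsum
        have hR2 : ∑ y ∈ T, (1 - S.xdeg w y) ≤ t * (1 - x0) := by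
          calc _ ≤ ∑ y ∈ T, (1 - x0) := sum_le_sum fun y _ => by linarith [hx y]
            _ = _ := by rw [sum_const, hTc, nsmul_eq_mul]
        have h1 := hx i
        have h2 := hx i'
        have h3 := hx j
        have hk1 : (0 : ℝ) < (k : ℝ) - 1 := by linarith
        have hx01 : (k - 1 : ℝ) * x0 = (k - 2) - (k - 1) * ε := by
          rw [hx0]; field_simp
        have hx02 : 0 ≤ 1 - x0 := by
          have : ((k : ℝ) - 2) / ((k : ℝ) - 1) ≤ 1 := by
            rw [div_le_one hk1]; linarith
          rw [hx0]; linarith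
        have htk : (t : ℝ) ≤ k - 4 := by
          have : t + 4 ≤ k := by omega
          have : ((t + 4 : ℕ) : ℝ) ≤ k := by exact_mod_cast this
          push_cast at this; linarith
        have h5 : (t : ℝ) * (1 - x0) ≤ (k - 4) * (1 - x0) := mul_le_mul_of_nonneg_right htk hx02
        nlinarith
      obtain ⟨z, hz1, hz2, hz3, hz4⟩ := hex
      have hzT : z ∉ T := fun h => kp_ne (hz4 z h) rfl
      refine ⟨insert z T, by rw [card_insert_of_notMem hzT, hTc], ?_, ?_, ?_, ?_⟩
      · intro p hp q hq hpq
        rw [mem_insert] at hp hq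
        rcases hp with rfl | hp
        · rcases hq with rfl | hq
          · exact absurd rfl hpq
          · exact kp_symm (hz4 q hq)
        · rcases hq with rfl | hq
          · exact hz4 p hp
          · exact hTT p hp q hq hpq
      · intro p hp; rw [mem_insert] at hp
        rcases hp with rfl | hp
        · exact hz1
        · exact hTi p hp
      · intro p hp; rw [mem_insert] at hp
        rcases hp with rfl | hp
        · exact hz2
        · exact hTi' p hp
      · intro p hp; rw [mem_insert] at hp
        rcases hp with rfl | hp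
        · exact hz3
        · exact hTj p hp
  obtain ⟨T, h1, h2, h3, h4, h5⟩ := hgreedy (k - 3) le_rfl
  exact kp_contra S hk i i' j c hij hi'j hci hci' hpp T h1 h2 h3 h4 h5

end MP2ab38c
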