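import Pool.Agent.Lib.MP_2ab38c_co.AEven

/-!
JOB XEven.  Variants of `even2`, `even3` (file AEven, same proofs) and a refined version.
`even6`: for `|S0| = l`, `AEven_key` with `h X = c + Gd x (1/l) * W X` for `X ∈ S0` and
`h X = 2.5 * W X` for the others, `c = Gf x (1/l) - (1/l) Gd x (1/l)`, gives
`l c + Gd (1 - τ) + 2.5 τ ≤ δ`, `τ = 1 - ∑_{S0} W`, and `l c + Gd = loss x l` (`AEven_loss`), so
`(2.5 - Gd) τ ≤ δ - loss x l`; and `Gd x (1/l) ≤ 0.5` (`AEven_Gd`: for `l ≤ x < l + 2` the log is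
`≤ 0` and `2x/l - 2 ≤ 4/l`; for `x ≤ l ≤ x + 2` the log is `≤ (l-x)/(x-1) ≤ 2/(x-1)` and
`2x/l ≤ 2`).
-/

namespace MP2ab38c

open Finset

section
variable {R κ x δ : ℝ} (hx : 6.3 ≤ x) (hR : R = x + Real.log (x - 1)) (hκ0 : 0 < κ)
  (hκ : κ ≤ 0.03 / x) (hδ : δ * x < 0.0607) {ι : Type} [Fintype ι] [DecidableEq ι] (W : ι → ℝ)
  (hW0 : ∀ X, 0 ≤ W X) (hW1 : ∑ X, W X = 1) (hV : x - 1 - δ ≤ ∑ X, phi R κ (W X))

private lemma XEven_Gd {x l : ℝ} (hx30 : 30 ≤ x)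
    (hl : (l ≤ x ∧ x < l + 3) ∨ (x ≤ l ∧ l ≤ x + 3)) : Gd x (1 / l) ≤ 0.5 := by
  have hl27 : 27 < l := by
    rcases hl with ⟨_, h⟩ | ⟨h, _⟩ <;> linarith
  have hl0 : 0 < l := by linarith
  rw [AEven_Gd (by linarith) (by linarith)]
  have h2l : 2 / l ≤ 1 := by
    rw [div_le_one hl0]
    linarith
  have h2l0 : 0 ≤ 2 / l := by positivity
  rcases hl with ⟨h1, h2⟩ | ⟨h1, h2⟩
  · have hlog : Real.log ((l - 1) / (x - 1)) ≤ 0 := by
      apply Real.log_nonpos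
      · apply div_nonneg <;> linarith
      · rw [div_le_one (by linarith)]
        linarith
    have h3 : (1 - 2 / l) * Real.log ((l - 1) / (x - 1)) ≤ 0 :=
      mul_nonpos_of_nonneg_of_nonpos (by linarith) hlog
    have h4 : 2 * x / l ≤ 2.5 := by
      rw [div_le_iff₀ hl0]
      linarith
    linarith
  · have hlog : 0 ≤ Real.log ((l - 1) / (x - 1)) := by
      apply Real.log_nonneg
      rw [le_div_iff₀ (by linarith)]
      linarith
    have hlog2 : Real.log ((l - 1) / (x - 1)) ≤ 0.5 := by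
      have h3 : Real.log ((l - 1) / (x - 1)) ≤ (l - 1) / (x - 1) - 1 := by
        apply Real.log_le_sub_one_of_pos
        apply div_pos <;> linarith
      have h4 : (l - 1) / (x - 1) ≤ 1.5 := by
        rw [div_le_iff₀ (by linarith)]
        linarith
      linarith
    have h3 : (1 - 2 / l) * Real.log ((l - 1) / (x - 1)) ≤ Real.log ((l - 1) / (x - 1)) :=
      calc (1 - 2 / l) * Real.log ((l - 1) / (x - 1))
          ≤ 1 * Real.log ((l - 1) / (x - 1)) :=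
            mul_le_mul_of_nonneg_right (by linarith) hlog
        _ = _ := one_mul _
    have h4 : 2 * x / l ≤ 2 := by
      rw [div_le_iff₀ hl0]
      linarith
    linarith

include hx hR hκ0 hκ hδ hW0 hW1 hV

theorem even6 (S0 : Finset ι) (hS0 : ∀ X, X ∈ S0 ↔ 0.62 / x ≤ W X) (l : ℕ) (hx30 : 30 ≤ x)
    (hl : ((l : ℝ) ≤ x ∧ x < l + 2) ∨ (x ≤ l ∧ (l : ℝ) ≤ x + 2)) (hcard : S0.card = l) :
    1 - ∑ X ∈ S0, W X ≤ (δ - loss x l) / 2 := by
  have hx0 : (0 : ℝ) < x := by linarith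
  have hGd : Gd x (1 / (l : ℝ)) ≤ 0.5 := by
    apply XEven_Gd hx30
    rcases hl with ⟨h1, h2⟩ | ⟨h1, h2⟩
    · exact Or.inl ⟨h1, by linarith⟩
    · exact Or.inr ⟨h1, by linarith⟩
  have hl27 : (27 : ℝ) < l := by
    rcases hl with ⟨_, h⟩ | ⟨h, _⟩ <;> linarith
  have hl0 : (0 : ℝ) < l := by linarith
  have hlx3 : (l : ℝ) ≤ x + 2 := by
    rcases hl with ⟨h, _⟩ | ⟨_, h⟩ <;> linarith
  have hla : 0.62 / x ≤ 1 / (l : ℝ) := by
    rw [div_le_div_iff₀ hx0 hl0]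
    linarith
  have ha1 : 1 / (l : ℝ) < 1 := by
    rw [div_lt_one hl0]
    linarith
  set c : ℝ := Gf x (1 / (l : ℝ)) - 1 / (l : ℝ) * Gd x (1 / (l : ℝ)) with hcdef
  have h1 := AEven_key hx hR hκ0 hκ hδ W hW0 hW1 hV S0 hS0
    (fun X => (if X ∈ S0 then (c + Gd x (1 / (l : ℝ)) * W X - 2.5 * W X) else 0) + 2.5 * W X)
    (fun X hX => by
      have := Gf_tan hx hla ha1 ((hS0 X).1 hX) (AEven_le_one W hW0 hW1 X)
      simp only [hX, if_true]
      rw [hcdef]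
      linarith)
    (fun X hX => by
      simp only [hX, if_false, zero_add]
      exact le_refl _)
  rw [Finset.sum_add_distrib, ← Finset.mul_sum, hW1, mul_one, ← Finset.sum_filter] at h1
  have h2 : (Finset.univ.filter (fun X => X ∈ S0)) = S0 := by
    ext X
    simp
  rw [h2, Finset.sum_sub_distrib, Finset.sum_add_distrib, Finset.sum_const, nsmul_eq_mul, hcard,
    ← Finset.mul_sum, ← Finset.mul_sum] at h1
  have h3 : (l : ℝ) * c + Gd x (1 / (l : ℝ)) = loss x l := by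
    rw [← AEven_loss (by linarith) (by linarith), hcdef]
    field_simp
    ring
  have hle1 : ∑ X ∈ S0, W X ≤ 1 := by
    rw [← hW1]
    exact Finset.sum_le_sum_of_subset_of_nonneg (Finset.subset_univ _) (fun i _ _ => hW0 i)
  rw [le_div_iff₀ (by norm_num)]
  nlinarith [mul_le_mul_of_nonneg_right hGd (sub_nonneg.2 hle1)]

theorem even7 (S0 : Finset ι) (hS0 : ∀ X, X ∈ S0 ↔ 0.62 / x ≤ W X) (l : ℕ) (hx30 : 30 ≤ x)
    (hlx : (l : ℝ) ≤ x) (hxl : x < l + 3) (hcard : S0.card ≤ l) : loss x l ≤ δ := by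
  have hx0 : (0 : ℝ) < x := by linarith
  have hl0 : (0 : ℝ) < l := by linarith
  have hGd : Gd x (1 / (l : ℝ)) ≤ 0.5 := XEven_Gd hx30 (Or.inl ⟨hlx, hxl⟩)
  have hlog : Real.log (((l : ℝ) - 1) / (x - 1)) ≤ 0 := by
    apply Real.log_nonpos
    · apply div_nonneg <;> linarith
    · rw [div_le_one (by linarith)]
      linarith
  refine AEven_tan hx hR hκ0 hκ hδ W hW0 hW1 hV S0 hS0 l (by linarith) ?_ (by linarith) ?_
  · rw [div_le_div_iff₀ hx0 hl0]
    linarith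
  · rw [AEven_c (by linarith) (by linarith)]
    have hcn : (1 / (l : ℝ)) ^ 2 * (l - x + Real.log (((l : ℝ) - 1) / (x - 1))) ≤ 0 := by
      apply mul_nonpos_of_nonneg_of_nonpos (by positivity)
      linarith
    have hcard' : (S0.card : ℝ) ≤ l := by exact_mod_cast hcard
    exact mul_le_mul_of_nonpos_right hcard' hcn

theorem even8 (S0 : Finset ι) (hS0 : ∀ X, X ∈ S0 ↔ 0.62 / x ≤ W X) (l : ℕ) (hx30 : 30 ≤ x)
    (hxl : x ≤ (l : ℝ)) (hlx : (l : ℝ) ≤ x + 3) (hcard : l ≤ S0.card) : loss x l ≤ δ := by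
  have hx0 : (0 : ℝ) < x := by linarith
  have hl0 : (0 : ℝ) < l := by linarith
  have hGd : Gd x (1 / (l : ℝ)) ≤ 0.5 := XEven_Gd hx30 (Or.inr ⟨hxl, hlx⟩)
  have hlog : 0 ≤ Real.log (((l : ℝ) - 1) / (x - 1)) := by
    apply Real.log_nonneg
    rw [le_div_iff₀ (by linarith)]
    linarith
  refine AEven_tan hx hR hκ0 hκ hδ W hW0 hW1 hV S0 hS0 l (by linarith) ?_ (by linarith) ?_
  · rw [div_le_div_iff₀ hx0 hl0]
    linarith
  · rw [AEven_c (by linarith) (by linarith)]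
    have hcn : 0 ≤ (1 / (l : ℝ)) ^ 2 * (l - x + Real.log (((l : ℝ) - 1) / (x - 1))) := by
      apply mul_nonneg (by positivity)
      linarith
    have hcard' : (l : ℝ) ≤ S0.card := by exact_mod_cast hcard
    exact mul_le_mul_of_nonneg_right hcard' hcn

end

end MP2ab38c
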