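import Pool.Agent.Lib.MP_2ab38c_co.ALoss

/-!
JOB XLoss2.  The proof of `loss_near` (file ALoss) with the better constant available for `x ≥ 37`
(`a ≤ 1/36`, `a/6 + a^2/3 ≤ 0.005`, so `≤ 0.505 z^2`).
-/

namespace MP2ab38c

theorem loss_near2 {x l : ℝ} (hx : 37 ≤ x) (h1 : x - 1 ≤ l) (h2 : l ≤ x + 1) :
    loss x l ≤ 0.51 / (x - 1) ^ 2 := by
  unfold loss
  have hy : (36 : ℝ) ≤ x - 1 := by linarith
  set y := x - 1 with hydef
  have hy0 : 0 < y := by linarith
  have hxy : x = y + 1 := by rw [hydef]; ring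
  have hl0 : 0 < l := by linarith
  set z := (l - x) / y with hz
  have hzy : y * z = l - x := by rw [hz]; field_simp
  have hlz : (l - 1) / y = 1 + z := by
    rw [hz]; field_simp; rw [hxy]; ring
  have hlz2 : l - 1 = y * (1 + z) := by rw [← hlz]; field_simp
  have hz1 : z ≤ 1 / y := by
    rw [hz]; gcongr; linarith
  have hz2 : -(1 / y) ≤ z := by
    rw [hz, ← neg_div]; gcongr; linarith
  have hinv : 1 / y ≤ 1 / 36 := by
    rw [div_le_iff₀ hy0]
    linarith
  have hmain : (l - 1) * Real.log ((l - 1) / y) - (l - x) =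
      y * ((1 + z) * Real.log (1 + z) - z) := by
    rw [hlz, hlz2, ← hzy]; ring
  rw [hmain]
  have hsq : z ^ 2 ≤ (1 / y) ^ 2 := by
    rw [sq_le_sq]
    rw [abs_of_pos (show 0 < 1 / y by positivity)]
    exact abs_le.2 ⟨hz2, hz1⟩
  have hsq2 : y ^ 2 * z ^ 2 ≤ 1 := by
    have : y ^ 2 * (1 / y) ^ 2 = 1 := by field_simp
    rw [← this]
    gcongr
  have key : (1 + z) * Real.log (1 + z) - z ≤ 0.505 * z ^ 2 ∧ y ≤ l := by
    refine ⟨?_, by linarith⟩
    rcases le_total 0 z with h | h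
    · have := ALoss_pos h
      nlinarith [sq_nonneg z]
    · have ha : 0 ≤ -z := by linarith
      have ha1 : -z ≤ 1 / 36 := by linarith
      have h3 := ALoss_neg ha (by linarith)
      have e1 : (1 - -z) = 1 + z := by ring
      rw [e1] at h3
      set a := -z with hadef
      have hza : z = -a := by rw [hadef]; ring
      have h4 : a ^ 2 / 2 + a ^ 3 / 6 + a ^ 4 / 3 ≤ 0.505 * a ^ 2 := by
        have h5 : a / 6 + a ^ 2 / 3 ≤ 0.005 := by
          norm_num
          nlinarith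
        nlinarith [sq_nonneg a]
      have h6 : z ^ 2 = a ^ 2 := by rw [hza]; ring
      rw [h6]
      linarith
  obtain ⟨k1, k2⟩ := key
  rw [div_le_div_iff₀ hl0 (by positivity)]
  calc y * ((1 + z) * Real.log (1 + z) - z) * y ^ 2 ≤ y * (0.505 * z ^ 2) * y ^ 2 := by gcongr
    _ = 0.505 * (y ^ 2 * z ^ 2) * y := by ring
    _ ≤ 0.505 * 1 * l := by gcongr
    _ ≤ 0.51 * l := by nlinarith

end MP2ab38c
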