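import Pool.Agent.Lib.MP_2ab38c_co.AX

/-!
JOB XNum.  Numerical facts for `k ≥ 11`.
`R := log r ≥ (k-1)(1 + log (2.6 (k-2))) ≥ 10 (1 + log 23.4) ≥ 41`, so the `x ≥ 2` with
`R = x + log (x-1)` (`AX_exists` in AX, private: copy it) satisfies `x ≥ 37`
(`37 + log 36 ≤ 41`), and `x ≥ k + 2` as in AX.  `e0 = 2 ⌊x/2⌋`.
`x - 1 - TT k r ≤ loss x l + 1/r` for even `l ≥ k` (`l = e0, e0 + 2`): as in `AX_loss` (copy), from
`(l-k+1) log (r-1) ≤ (k-1)(l-1) log (l-1)` and `log r - log (r-1) ≤ 1/(r-1)`: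
`(1-1/l)(R - log (l-1)) - TT k r = ((l-k+1) R - (k-1)(l-1) log (l-1))/(l (k-1))
 ≤ (l-k+1)/(l (k-1)(r-1)) ≤ 1/r`.
The inequalities with `r = e^x (x-1)` are generous: `e^x ≥ e^37 (1 + (x-37) + (x-37)^2/2 + ...)`;
`e^37 ≥ 10^16`; e.g. `x^4 ≤ e^(x/2)`.
-/

namespace MP2ab38c

private lemma XNum_exp_ratio_le (a b : ℕ) (c : ℝ) (hb : 0 < b) (hc : 0 ≤ c)
    (h : (2.7182818286 : ℝ) ^ a ≤ c ^ b) : Real.exp ((a : ℝ) / b) ≤ c := by
  have hb' : (0 : ℝ) < b := by exact_mod_cast hb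
  have h1 : Real.exp ((a : ℝ) / b) ^ b = Real.exp 1 ^ a := by
    rw [← Real.exp_nat_mul, ← Real.exp_nat_mul]
    congr 1
    field_simp
  have h2 : Real.exp 1 ^ a ≤ (2.7182818286 : ℝ) ^ a :=
    pow_le_pow_left₀ (Real.exp_pos _).le Real.exp_one_lt_d9.le _
  by_contra h3
  push Not at h3
  have h4 : c ^ b < Real.exp ((a : ℝ) / b) ^ b := pow_lt_pow_left₀ h3 hc hb.ne'
  rw [h1] at h4
  linarith

private lemma XNum_le_exp_ratio (a b : ℕ) (c : ℝ) (hb : 0 < b)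
    (h : c ^ b ≤ (2.7182818283 : ℝ) ^ a) : c ≤ Real.exp ((a : ℝ) / b) := by
  have hb' : (0 : ℝ) < b := by exact_mod_cast hb
  have h1 : Real.exp ((a : ℝ) / b) ^ b = Real.exp 1 ^ a := by
    rw [← Real.exp_nat_mul, ← Real.exp_nat_mul]
    congr 1
    field_simp
  have h2 : (2.7182818283 : ℝ) ^ a ≤ Real.exp 1 ^ a :=
    pow_le_pow_left₀ (by norm_num) Real.exp_one_gt_d9.le _
  by_contra h3
  push Not at h3
  have h4 : Real.exp ((a : ℝ) / b) ^ b < c ^ b := pow_lt_pow_left₀ h3 (Real.exp_pos _).le hb.ne'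
  rw [h1] at h4
  linarith

/-- the function `x + log (x-1)` is increasing -/
private lemma XNum_mono {a x R : ℝ} (_ha : 1 < a) (hx : 1 < x) (hR : R = x + Real.log (x - 1))
    (h : a + Real.log (a - 1) ≤ R) : a ≤ x := by
  by_contra hlt
  push Not at hlt
  have h1 : Real.log (x - 1) < Real.log (a - 1) := Real.log_lt_log (by linarith) (by linarith)
  linarith

private lemma XNum_exists (R : ℝ) (hR : 2 ≤ R) : ∃ x : ℝ, 2 ≤ x ∧ R = x + Real.log (x - 1) := by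
  have hcont : ContinuousOn (fun x : ℝ => x + Real.log (x - 1)) (Set.Icc 2 (R + 1)) := by
    refine continuousOn_id.add (ContinuousOn.log (by fun_prop) ?_)
    intro x hx
    have := hx.1
    linarith
  have h := intermediate_value_Icc (by linarith : (2 : ℝ) ≤ R + 1) hcont
  have hmem : R ∈ Set.Icc ((2 : ℝ) + Real.log (2 - 1)) (R + 1 + Real.log (R + 1 - 1)) := by
    constructor
    · norm_num
      exact hR
    · have : 0 ≤ Real.log (R + 1 - 1) := Real.log_nonneg (by linarith)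
      linarith
  obtain ⟨x, hx, hx'⟩ := h hmem
  exact ⟨x, hx.1, hx'.symm⟩

/-- the palette inequality at `r - 1` in terms of `loss` -/
private lemma XNum_loss {k r l : ℕ} (hk : 4 ≤ k) (hr : 2 ≤ r) (hkl : k ≤ l) (x : ℝ) (hx : 1 < x)
    (hR : Real.log r = x + Real.log (x - 1))
    (h : (r - 1) ^ (l - k + 1) < (l - 1) ^ ((k - 1) * (l - 1))) :
    x - 1 - TT k r ≤ loss x l + 1 / r := by
  have hk' : (4 : ℝ) ≤ k := by exact_mod_cast hk
  have hkl' : (k : ℝ) ≤ l := by exact_mod_cast hkl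
  have hl' : (4 : ℝ) ≤ l := by exact_mod_cast hk.trans hkl
  have hr' : (2 : ℝ) ≤ r := by exact_mod_cast hr
  have hr1 : (0 : ℝ) < (r : ℝ) - 1 := by linarith
  have h1 : ((l : ℝ) - k + 1) * Real.log ((r : ℝ) - 1) <
      ((k : ℝ) - 1) * ((l : ℝ) - 1) * Real.log ((l : ℝ) - 1) := by
    have h2 : (((r : ℝ) - 1)) ^ (l - k + 1) < ((l : ℝ) - 1) ^ ((k - 1) * (l - 1)) := by
      have h3 : ((((r - 1) ^ (l - k + 1) : ℕ)) : ℝ) < (((l - 1) ^ ((k - 1) * (l - 1)) : ℕ) : ℝ) := by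
        exact_mod_cast h
      push_cast [Nat.cast_sub (show 1 ≤ l by omega), Nat.cast_sub (show 1 ≤ r by omega)] at h3
      exact h3
    have h4 := Real.log_lt_log (by positivity) h2
    rw [Real.log_pow, Real.log_pow] at h4
    push_cast [Nat.cast_sub (show 1 ≤ l by omega), Nat.cast_sub (show 1 ≤ k by omega),
      Nat.cast_sub hkl] at h4
    exact h4
  have hlogr : Real.log r - Real.log ((r : ℝ) - 1) ≤ 1 / ((r : ℝ) - 1) := by
    rw [← Real.log_div (by linarith) (by linarith)]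
    have := Real.log_le_sub_one_of_pos (show 0 < (r : ℝ) / ((r : ℝ) - 1) by positivity)
    refine this.trans (le_of_eq ?_)
    field_simp
    ring
  have hlk : 0 < (l : ℝ) - k + 1 := by linarith
  have hR1 : ((l : ℝ) - k + 1) * Real.log r ≤
      ((k : ℝ) - 1) * ((l : ℝ) - 1) * Real.log ((l : ℝ) - 1) + 1 / r * l * ((k : ℝ) - 1) := by
    have h5 : ((l : ℝ) - k + 1) * (Real.log r - Real.log ((r : ℝ) - 1)) ≤
        ((l : ℝ) - k + 1) * (1 / ((r : ℝ) - 1)) := mul_le_mul_of_nonneg_left hlogr hlk.le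
    have h6 : ((l : ℝ) - k + 1) * (1 / ((r : ℝ) - 1)) ≤ 1 / r * l * ((k : ℝ) - 1) := by
      have h7 : 1 / ((r : ℝ) - 1) ≤ 1 / r * ((k : ℝ) - 1) := by
        rw [div_le_iff₀ hr1, div_mul_eq_mul_div, div_mul_eq_mul_div, le_div_iff₀ (by linarith)]
        nlinarith
      calc ((l : ℝ) - k + 1) * (1 / ((r : ℝ) - 1)) ≤ l * (1 / r * ((k : ℝ) - 1)) := by
            apply mul_le_mul (by linarith) h7 (by positivity) (by linarith)
        _ = 1 / r * l * ((k : ℝ) - 1) := by ring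
    linarith
  have hl0 : (0 : ℝ) < l := by linarith
  have hlog : Real.log (((l : ℝ) - 1) / (x - 1)) = Real.log ((l : ℝ) - 1) - Real.log (x - 1) :=
    Real.log_div (by linarith) (by linarith)
  have hgoal : x - 1 - TT k r - 1 / r ≤ loss x l := by
    unfold loss TT
    rw [hlog, le_div_iff₀ hl0]
    have h5 : Real.log (x - 1) = Real.log r - x := by linarith
    rw [h5]
    obtain ⟨R, hRdef⟩ : ∃ R, R = Real.log (r : ℝ) := ⟨_, rfl⟩
    obtain ⟨L, hL⟩ : ∃ L, L = Real.log ((l : ℝ) - 1) := ⟨_, rfl⟩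
    obtain ⟨ε, hε⟩ : ∃ ε, ε = 1 / (r : ℝ) := ⟨_, rfl⟩
    rw [← hRdef, ← hL, ← hε]
    rw [← hRdef, ← hL, ← hε] at hR1
    have hk1 : (0 : ℝ) < (k : ℝ) - 1 := by linarith
    have h6 : (x - 1 - ((k : ℝ) - 2) / ((k : ℝ) - 1) * R - ε) * l * ((k : ℝ) - 1) ≤
        (((l : ℝ) - 1) * (L - (R - x)) - (l - x)) * ((k : ℝ) - 1) := by
      have h7 : (x - 1 - ((k : ℝ) - 2) / ((k : ℝ) - 1) * R - ε) * l * ((k : ℝ) - 1) =
          (x - 1) * l * ((k : ℝ) - 1) - ((k : ℝ) - 2) * R * l - ε * l * ((k : ℝ) - 1) := by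
        field_simp
      rw [h7]
      nlinarith
    exact le_of_mul_le_mul_right h6 hk1
  linarith

private lemma XNum_log_234 : (3.15 : ℝ) ≤ Real.log 23.4 := by
  rw [Real.le_log_iff_exp_le (by norm_num)]
  have h1 : Real.exp ((63 : ℕ) / (20 : ℕ)) ≤ 23.4 :=
    XNum_exp_ratio_le 63 20 23.4 (by norm_num) (by norm_num) (by norm_num)
  have h2 : (3.15 : ℝ) = ((63 : ℕ) : ℝ) / ((20 : ℕ) : ℝ) := by norm_num
  rw [h2]
  exact h1

private lemma XNum_log_36 : Real.log 36 ≤ 3.6 := by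
  rw [Real.log_le_iff_le_exp (by norm_num)]
  have h1 : (36 : ℝ) ≤ Real.exp ((18 : ℕ) / (5 : ℕ)) :=
    XNum_le_exp_ratio 18 5 36 (by norm_num) (by norm_num)
  have h2 : (3.6 : ℝ) = ((18 : ℕ) : ℝ) / ((5 : ℕ) : ℝ) := by norm_num
  rw [h2]
  exact h1

private lemma XNum_exp_37_8 : (37 : ℝ) ≤ Real.exp (37 / 8) := by
  have h1 : (37 : ℝ) ≤ Real.exp ((37 : ℕ) / (8 : ℕ)) :=
    XNum_le_exp_ratio 37 8 37 (by norm_num) (by norm_num)
  have h2 : (37 / 8 : ℝ) = ((37 : ℕ) : ℝ) / ((8 : ℕ) : ℝ) := by norm_num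
  rw [h2]
  exact h1

/-- `log r ≥ 41` -/
theorem log_ge_41 {k r : ℕ} (hG : Good k r) (hk : 11 ≤ k) : 41 ≤ Real.log r := by
  have hR := hG.hR
  have hk' : (11 : ℝ) ≤ k := by exact_mod_cast hk
  have h1 : Real.log 23.4 ≤ Real.log (2.6 * ((k : ℝ) - 2)) :=
    Real.log_le_log (by norm_num) (by linarith)
  have h2 := XNum_log_234
  nlinarith

private lemma XNum_rpos {k r : ℕ} (hG : Good k r) (hk : 11 ≤ k) : 2 ≤ r := by
  by_contra h
  have h41 := log_ge_41 hG hk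
  have : r = 0 ∨ r = 1 := by omega
  rcases this with h | h
  · rw [h] at h41
    norm_num at h41
  · rw [h] at h41
    norm_num at h41

theorem exists_x2 {k r : ℕ} (hG : Good k r) (hk : 11 ≤ k)
    (h1 : ∀ l : ℕ, Even l → k ≤ l → (r - 1) ^ (l - k + 1) < (l - 1) ^ ((k - 1) * (l - 1))) :
    ∃ (x : ℝ) (e0 : ℕ), 37 ≤ x ∧
    Real.log r = x + Real.log (x - 1) ∧ Even e0 ∧ (e0 : ℝ) ≤ x ∧ x < e0 + 2 ∧ k ≤ e0 ∧
    x ^ 4 ≤ Real.sqrt r ∧
    x - 1 - TT k r ≤ loss x e0 + 1 / r ∧ x - 1 - TT k r ≤ loss x (e0 + 2) + 1 / r := by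
  have h41 := log_ge_41 hG hk
  have hr2 := XNum_rpos hG hk
  have hk' : (11 : ℝ) ≤ k := by exact_mod_cast hk
  have hr0' : (0 : ℝ) < r := by exact_mod_cast (by omega : 0 < r)
  have hR := hG.hR
  obtain ⟨x, hx2, hxR⟩ := XNum_exists (Real.log r) (by linarith)
  have hx1 : 1 < x := by linarith
  have hxlo : 37 ≤ x := by
    refine XNum_mono (by norm_num) hx1 hxR ?_
    have h2 : (37 : ℝ) - 1 = 36 := by norm_num
    rw [h2]
    have := XNum_log_36
    linarith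
  have hxk : (k : ℝ) + 2 ≤ x := by
    refine XNum_mono (by linarith) hx1 hxR ?_
    have h1 : Real.log ((k : ℝ) + 2 - 1) ≤ Real.log (2.6 * ((k : ℝ) - 2)) :=
      Real.log_le_log (by linarith) (by linarith)
    have h2 : 1 ≤ Real.log (2.6 * ((k : ℝ) - 2)) := by
      rw [Real.le_log_iff_exp_le (by linarith)]
      have := Real.exp_one_lt_d9
      linarith
    nlinarith
  set m := ⌊x / 2⌋₊ with hm
  have hm1 : (m : ℝ) ≤ x / 2 := Nat.floor_le (by linarith)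
  have hm2 : x / 2 < m + 1 := Nat.lt_floor_add_one _
  have hke : k ≤ 2 * m := by
    have h1 : (k : ℝ) < 2 * m := by linarith
    exact_mod_cast h1.le
  have he1 : (((2 * m : ℕ)) : ℝ) ≤ x := by push_cast; linarith
  have he2 : x < ((2 * m : ℕ) : ℝ) + 2 := by push_cast; linarith
  have hrx : (r : ℝ) = Real.exp x * (x - 1) := by
    rw [← Real.exp_log hr0', hxR, Real.exp_add, Real.exp_log (by linarith)]
  refine ⟨x, 2 * m, hxlo, hxR, even_two_mul m, he1, he2, hke, ?_, ?_, ?_⟩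
  · apply Real.le_sqrt_of_sq_le
    have h2 : x ≤ Real.exp (x / 8) := by
      have h3 : Real.exp (x / 8) = Real.exp (37 / 8) * Real.exp ((x - 37) / 8) := by
        rw [← Real.exp_add]
        congr 1
        ring
      have h4 : (x - 37) / 8 + 1 ≤ Real.exp ((x - 37) / 8) := Real.add_one_le_exp _
      have h5 := XNum_exp_37_8
      have h6 : 37 * ((x - 37) / 8 + 1) ≤ Real.exp (37 / 8) * Real.exp ((x - 37) / 8) :=
        mul_le_mul h5 h4 (by linarith) (Real.exp_pos _).le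
      rw [h3]
      linarith
    calc (x ^ 4) ^ 2 = x ^ 8 := by ring
      _ ≤ Real.exp (x / 8) ^ 8 := pow_le_pow_left₀ (by linarith) h2 8
      _ = Real.exp x := by
          rw [← Real.exp_nat_mul]
          congr 1
          push_cast
          ring
      _ ≤ r := by
          rw [hrx]
          have := Real.exp_pos x
          nlinarith
  · exact XNum_loss (by omega) hr2 hke x hx1 hxR (h1 (2 * m) (even_two_mul m) hke)
  · have h3 := XNum_loss (l := 2 * m + 2) (by omega) hr2 (by omega) x hx1 hxR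
      (h1 (2 * m + 2) ⟨m + 1, by ring⟩ (by omega))
    have h2 : (((2 * m + 2 : ℕ)) : ℝ) = ((2 * m : ℕ) : ℝ) + 2 := by push_cast; ring
    rw [h2] at h3
    exact h3

/-- `k^4 ≤ r` -/
theorem pow_four_le {k r : ℕ} (hG : Good k r) (hk : 11 ≤ k) : k ^ 4 ≤ r := by
  have hr2 := XNum_rpos hG hk
  have hk' : (11 : ℝ) ≤ k := by exact_mod_cast hk
  have hr0' : (0 : ℝ) < r := by exact_mod_cast (by omega : 0 < r)
  have hR := hG.hR
  have h1 : Real.log (k : ℝ) ≤ Real.log (2.6 * ((k : ℝ) - 2)) :=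
    Real.log_le_log (by linarith) (by linarith)
  have h2 : 0 ≤ Real.log (k : ℝ) := Real.log_nonneg (by linarith)
  have h3 : Real.log ((k : ℝ) ^ 4) ≤ Real.log r := by
    rw [Real.log_pow]
    push_cast
    nlinarith
  have h4 : (k : ℝ) ^ 4 ≤ r := (Real.log_le_log_iff (by positivity) hr0').1 h3
  exact_mod_cast h4

end MP2ab38c
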