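import Pool.Agent.Lib.MP_2ab38c_co.XLoss
import Pool.Agent.Lib.MP_2ab38c_co.XLoss2
import Pool.Agent.Lib.MP_2ab38c_co.XEven
import Pool.Agent.Lib.MP_2ab38c_co.XNum
import Pool.Agent.Lib.MP_2ab38c_co.AMain

/-!
JOB XAna.  The analysis for `k ≥ 11` at the threshold (compare the proof of `analysis` in AMain).
`x, e0` from `exists_x2`.  `δ = x - 1 - TT k r + ε ≤ loss x l + 1/r + ε`, `l = e0, e0 + 2`; one of
them is within 1 of `x`, so `δ ≤ 0.51/(x-1)^2 + 1/r + ε ≤ 0.521/(x-1)^2` (`loss_near2`),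
`δ x < 0.0607` (`AMain_num`).  `S0 = {X | 0.62/x ≤ W X}`, `s = |S0|`.
* `s ≤ e0 - 1`: `even7` with `l = e0 - 1` gives `loss x (e0-1) ≤ δ ≤ loss x e0 + 1/r + ε`,
  contradiction to `loss_pred` (`0.4/(e0 (e0-1)) > 1/r + ε`).
* `s ≥ e0 + 3`: `even8` with `l = e0 + 3` and `loss_succ` with `l = e0 + 3`.
* `s = e0 + 1`: exactly as in `analysis` (the case `k ≥ 5`): `even4`, `even5`, `fin_ineq`.
* `s = e0` or `e0 + 2 =: l`: `even6` gives `1 - ∑_{S0} W ≤ (δ - loss x l)/2 ≤ 1/r ≤ kap k r/2`, so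
  `W X ≤ kap/2` for `X ∉ S0`.  Put `δ' = x - 1 - ∑ phi`, `δ' ≤ δ`; `even6` (or `even2`/`even3`) with
  `δ'` gives `loss x l ≤ δ'` (as `1 - ∑_{S0} W ≥ 0`), so `∑ phi ≤ x - 1 - loss x l ≤ TT + 1/r`.
`3 C(k,2) s ≤ r`: `s ≤ x + 2`, `C(k,2) ≤ x^2/2`, `x^4 ≤ √r ≤ r`.
-/

namespace MP2ab38c

open Finset

/-- `k(k-1)/2 ≤ x^2/2` -/
private lemma XAna_choose {k : ℕ} {x : ℝ} (hkx : (k : ℝ) ≤ x) :
    ((k.choose 2 : ℕ) : ℝ) ≤ x ^ 2 / 2 := by
  have hk0 : (0 : ℝ) ≤ k := Nat.cast_nonneg k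
  rw [Nat.cast_choose_two]
  have h1 : (k : ℝ) * (k - 1) ≤ x ^ 2 := by nlinarith
  linarith

/-- the real inequality `x^8 ≤ r` gives everything -/
private lemma XAna_pow {x r : ℝ} (hx : 37 ≤ x) (hr : x ^ 8 ≤ r) :
    0 < r ∧ 1000 * x ^ 3 ≤ r ∧ 2 / r ≤ 0.011 / (x - 1) ^ 2 ∧ 2 / r < 0.4 / ((x + 2) * (x + 1)) ∧
      2 / r < 0.4 / ((x + 3) * (x + 2)) ∧ 1 / r ≤ 0.62 / x ∧ 1 / r ≤ 0.02 / (x * (x + 1)) := by
  have hx0 : 0 < x := by linarith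
  have h3 : 0 < x ^ 3 := by positivity
  have h5 : (37 : ℝ) ^ 5 ≤ x ^ 5 := pow_le_pow_left₀ (by norm_num) hx 5
  have h6 : 1000 * x ^ 3 ≤ x ^ 8 := by
    have : x ^ 8 = x ^ 5 * x ^ 3 := by ring
    rw [this]
    have : (1000 : ℝ) ≤ x ^ 5 := le_trans (by norm_num) h5
    exact mul_le_mul_of_nonneg_right this h3.le
  have h7 : 1000 * x ^ 3 ≤ r := h6.trans hr
  have hr0 : 0 < r := by linarith
  have h8 : 37 * x ^ 2 ≤ x ^ 3 := by
    have : x ^ 3 = x * x ^ 2 := by ring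
    rw [this]
    exact mul_le_mul_of_nonneg_right hx (by positivity)
  have h9 : 37000 * x ^ 2 ≤ r := by linarith
  have hx1 : 0 < x - 1 := by linarith
  refine ⟨hr0, h7, ?_, ?_, ?_, ?_, ?_⟩
  · rw [div_le_div_iff₀ hr0 (by positivity)]
    norm_num
    nlinarith
  · rw [div_lt_div_iff₀ hr0 (by positivity)]
    norm_num
    nlinarith
  · rw [div_lt_div_iff₀ hr0 (by positivity)]
    norm_num
    nlinarith
  · rw [div_le_div_iff₀ hr0 hx0]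
    norm_num
    nlinarith
  · rw [div_le_div_iff₀ hr0 (by positivity)]
    norm_num
    nlinarith

/-- the strict version of `AMain_num` -/
private lemma XAna_num {x D : ℝ} (hx : 37 ≤ x) (hD : D ≤ 0.521 / (x - 1) ^ 2) :
    D * x < 0.0607 := by
  norm_num at hD ⊢
  have h1 : 0 < (x - 1) ^ 2 := by
    have : 0 < x - 1 := by linarith
    positivity
  have h2 : D * x ≤ 521 / 1000 / (x - 1) ^ 2 * x :=
    mul_le_mul_of_nonneg_right hD (by linarith)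
  refine h2.trans_lt ?_
  rw [div_mul_eq_mul_div, div_lt_iff₀ h1]
  nlinarith

/-- the odd case: `s = e0 + 1` -/
private lemma XAna_odd {k r e0 : ℕ} {x ε θ δ : ℝ} (hx : 37 ≤ x)
    (hR : Real.log r = x + Real.log (x - 1)) (he : Even e0) (hex : (e0 : ℝ) ≤ x)
    (hxe : x < e0 + 2) (hκ0 : 0 < kap k r) (hκ : kap k r ≤ 0.03 / x)
    (hes : Real.exp 1 * ((k.choose 2 - 2 : ℕ) : ℝ) * ((e0 : ℝ) + 1) ≤ r)
    (hθ2 : θ ≤ 0.02 / (x * (x + 1))) (hδ : δ = x - 1 - TT k r + ε)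
    (hδn : δ ≤ 0.521 / (x - 1) ^ 2) (hδx : δ * x < 0.0607)
    {ι : Type} [Fintype ι] [DecidableEq ι] (W : ι → ℝ) (V : ℝ) (hW0 : ∀ X, 0 ≤ W X)
    (hW1 : ∑ X, W X = 1) (hTV : TT k r - ε ≤ V)
    (hVp : V ≤ ∑ X, phi (Real.log r) (kap k r) (W X))
    (hodd : ∀ S0 : Finset ι, Odd S0.card →
      Real.exp 1 * ((k.choose 2 - 2 : ℕ) : ℝ) * (S0.card : ℝ) ≤ r → ∀ m : ℝ, 0 ≤ m →
      (∀ X ∈ S0, m ≤ W X) →
      V ≤ ((∑ X ∈ S0, W X) ^ 2 - ∑ X ∈ S0, (W X) ^ 2) *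
            (Real.log r - Real.log (S0.card : ℝ) - 1) +
          (S0.card : ℝ) * (∑ X ∈ S0, (W X) ^ 2 - m ^ 2) + 2 * (S0.card : ℝ) * θ +
          2 * (1 - ∑ X ∈ S0, W X) * Real.log r)
    (S0 : Finset ι) (hS0 : ∀ X, X ∈ S0 ↔ 0.62 / x ≤ W X) (hs3 : S0.card = e0 + 1) : False := by
  have hx0 : 0 < x := by linarith
  have hx6 : (6.3 : ℝ) ≤ x := by norm_num; linarith
  have hx10 : (10.85 : ℝ) ≤ x := by norm_num; linarith
  have hV : x - 1 - δ ≤ ∑ X, phi (Real.log r) (kap k r) (W X) := by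
    rw [hδ]; linarith
  have e4 := even4 hx6 hR hκ0 hκ hδx W hW0 hW1 hV S0 hS0
  have e5 := even5 hx6 hR hκ0 hκ hδx W hW0 hW1 hV S0 hS0
  have hsR : (S0.card : ℝ) = (e0 : ℝ) + 1 := by rw [hs3]; push_cast; ring
  have hoddS : Odd S0.card := by rw [hs3]; exact he.add_one
  have ho := hodd S0 hoddS (by rw [hsR]; exact hes) (0.62 / x) (by positivity)
    (fun X hX => (hS0 X).1 hX)
  rw [hsR] at ho
  obtain ⟨τ, hτ⟩ : ∃ τ : ℝ, τ = 1 - ∑ X ∈ S0, W X := ⟨_, rfl⟩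
  have hτs : ∑ X ∈ S0, W X = 1 - τ := by rw [hτ]; ring
  have hτ0 : 0 ≤ τ := by
    rw [hτ]
    have : ∑ X ∈ S0, W X ≤ ∑ X, W X :=
      Finset.sum_le_sum_of_subset_of_nonneg (Finset.subset_univ _) (fun i _ _ => hW0 i)
    linarith
  have hτ1 : τ ≤ δ / 2.5 := by rw [hτ]; exact e4
  have hδ0 : 0 ≤ δ := by
    have h := hτ0.trans hτ1
    norm_num at h
    linarith
  obtain ⟨S2, hS2⟩ : ∃ S2 : ℝ, S2 = ∑ X ∈ S0, (W X) ^ 2 := ⟨_, rfl⟩
  have hsum : ∑ X ∈ S0, (1 - x * W X) ^ 2 = (S0.card : ℝ) - 2 * x * (∑ X ∈ S0, W X) +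
      x ^ 2 * ∑ X ∈ S0, (W X) ^ 2 := by
    have h1 : ∀ X ∈ S0, (1 - x * W X) ^ 2 = 1 - 2 * x * W X + x ^ 2 * (W X) ^ 2 :=
      fun X _ => by ring
    rw [Finset.sum_congr rfl h1, Finset.sum_add_distrib, Finset.sum_sub_distrib,
      Finset.mul_sum, Finset.mul_sum]
    simp
  rw [hsum, hτs, ← hS2, hsR] at e5
  rw [hτs, ← hS2] at ho
  obtain ⟨u, hu⟩ : ∃ u : ℝ, u = (e0 : ℝ) + 1 - x := ⟨_, rfl⟩
  have hxu : x + u = (e0 : ℝ) + 1 := by rw [hu]; ring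
  have hS2b : S2 ≤ (x - u + x * δ / 0.3) / x ^ 2 := by
    rw [le_div_iff₀ (by positivity)]
    have h1 : 0 ≤ x * τ := by positivity
    rw [← hxu] at e5
    nlinarith
  have hf := fin_ineq hx10 (u := u) (by linarith) (by linarith) hδ0 hδn hτ0 hτ1 hS2b
  rw [hxu] at hf
  rw [hR] at ho
  have hθ3 : 2 * ((e0 : ℝ) + 1) * θ < 0.05 / x := by
    have h1 : 0 < (e0 : ℝ) + 1 := by positivity
    have h2 : 2 * ((e0 : ℝ) + 1) * θ ≤ 2 * ((e0 : ℝ) + 1) * (0.02 / (x * (x + 1))) :=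
      mul_le_mul_of_nonneg_left hθ2 (by positivity)
    have h2' : 2 * ((e0 : ℝ) + 1) * (0.02 / (x * (x + 1))) ≤
        2 * (x + 1) * (0.02 / (x * (x + 1))) :=
      mul_le_mul_of_nonneg_right (by linarith) (by positivity)
    have h3 : 2 * (x + 1) * (0.02 / (x * (x + 1))) = 0.04 / x := by
      field_simp
      norm_num
    have h4 : (0.04 : ℝ) / x < 0.05 / x := by
      gcongr
      norm_num
    linarith
  have hfin : V < x - 1 - δ := by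
    have e1 : (1 - (1 - τ)) = τ := by ring
    rw [e1] at ho
    linarith
  rw [hδ] at hfin
  linarith

/-- conclusion in the even case -/
private lemma XAna_concl {k r l : ℕ} {x δ : ℝ} (hk : 11 ≤ k) (hr0 : (0 : ℝ) < r)
    (hr1 : (1 : ℝ) / r ≤ 0.62 / x)
    {ι : Type} [Fintype ι] [DecidableEq ι] (W : ι → ℝ) (hW0 : ∀ X, 0 ≤ W X)
    (hW1 : ∑ X, W X = 1) (S0 : Finset ι) (hS0 : ∀ X, X ∈ S0 ↔ 0.62 / x ≤ W X)
    (hδl : δ ≤ loss x l + 2 / r) (h6 : 1 - ∑ X ∈ S0, W X ≤ (δ - loss x l) / 2) :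
    (∀ X ∈ S0, 1 / (r : ℝ) ≤ W X) ∧ (∀ X, X ∉ S0 → W X ≤ kap k r / 2) := by
  refine ⟨fun X hX => hr1.trans ((hS0 X).1 hX), fun X hX => ?_⟩
  have h1 : W X + ∑ Y ∈ S0, W Y ≤ 1 := by
    rw [← hW1, ← Finset.sum_insert hX]
    exact Finset.sum_le_sum_of_subset_of_nonneg (Finset.subset_univ _) (fun i _ _ => hW0 i)
  have h2 : W X ≤ 1 / r := by
    have h3 : (2 : ℝ) / r = 2 * (1 / r) := by ring
    rw [h3] at hδl
    linarith
  refine h2.trans ?_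
  unfold kap
  have h4 : 4 ≤ k.choose 2 - 2 := by
    have h8 : Nat.choose 4 2 ≤ k.choose 2 := Nat.choose_le_choose 2 (by omega)
    have h8' : Nat.choose 11 2 ≤ k.choose 2 := Nat.choose_le_choose 2 hk
    have h9 : Nat.choose 11 2 = 55 := by decide
    omega
  have h5 : (4 : ℝ) ≤ ((k.choose 2 - 2 : ℕ) : ℝ) := by exact_mod_cast h4
  have he : (1 : ℝ) ≤ Real.exp 1 := Real.one_le_exp (by norm_num)
  rw [div_div, div_le_div_iff₀ hr0 (by positivity)]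
  have h7 : (4 : ℝ) ≤ Real.exp 1 * ((k.choose 2 - 2 : ℕ) : ℝ) := by nlinarith
  nlinarith

theorem analysis2 {k r : ℕ} (hG : Good k r) (hk : 11 ≤ k)
    (h1 : ∀ l : ℕ, Even l → k ≤ l → (r - 1) ^ (l - k + 1) < (l - 1) ^ ((k - 1) * (l - 1))) :
    ∃ ε1 > 0, ∃ M : ℕ, ∀ ε θ : ℝ, 0 ≤ ε → ε ≤ ε1 → 0 ≤ θ →
    θ ≤ ε1 → ∀ (ι : Type) [Fintype ι] [DecidableEq ι] (W : ι → ℝ) (V : ℝ), (∀ X, 0 ≤ W X) →
    ∑ X, W X = 1 → TT k r - ε ≤ V → V ≤ ∑ X, phi (Real.log r) (kap k r) (W X) →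
    (∀ S0 : Finset ι, Odd S0.card →
      Real.exp 1 * ((k.choose 2 - 2 : ℕ) : ℝ) * (S0.card : ℝ) ≤ r → ∀ m : ℝ, 0 ≤ m →
      (∀ X ∈ S0, m ≤ W X) →
      V ≤ ((∑ X ∈ S0, W X) ^ 2 - ∑ X ∈ S0, (W X) ^ 2) *
            (Real.log r - Real.log (S0.card : ℝ) - 1) +
          (S0.card : ℝ) * (∑ X ∈ S0, (W X) ^ 2 - m ^ 2) + 2 * (S0.card : ℝ) * θ +
          2 * (1 - ∑ X ∈ S0, W X) * Real.log r) →
    ∃ S0 : Finset ι, Even S0.card ∧ k ≤ S0.card ∧ S0.card ≤ M ∧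
      3 * k.choose 2 * S0.card ≤ r ∧ (∀ X ∈ S0, ε1 ≤ W X) ∧ (∀ X, X ∉ S0 → W X ≤ kap k r / 2) ∧
      ∑ X, phi (Real.log r) (kap k r) (W X) ≤ TT k r + 1 / r := by
  obtain ⟨x, e0, hx, hR, he, hex, hxe, hke, hx4, hl0, hl2⟩ := exists_x2 hG hk h1
  have hx0 : 0 < x := by linarith
  have hx6 : (6.3 : ℝ) ≤ x := by norm_num; linarith
  have hr8 : x ^ 8 ≤ (r : ℝ) := by
    have h2 : (x ^ 4) ^ 2 ≤ (Real.sqrt r) ^ 2 := pow_le_pow_left₀ (by positivity) hx4 2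
    rw [Real.sq_sqrt (Nat.cast_nonneg r)] at h2
    have h3 : x ^ 8 = (x ^ 4) ^ 2 := by ring
    rw [h3]
    exact h2
  obtain ⟨hr0, hr3, hrn, hr4, hr5, hr1, hrθ⟩ := XAna_pow hx hr8
  have hkx : (k : ℝ) ≤ x := le_trans (by exact_mod_cast hke) hex
  have hch := XAna_choose hkx
  have hB : ((k.choose 2 - 2 : ℕ) : ℝ) ≤ x ^ 2 / 2 :=
    le_trans (by exact_mod_cast Nat.sub_le _ _) hch
  have hB0 : (0 : ℝ) < ((k.choose 2 - 2 : ℕ) : ℝ) := by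
    have h8' : Nat.choose 11 2 ≤ k.choose 2 := Nat.choose_le_choose 2 hk
    have h9 : Nat.choose 11 2 = 55 := by decide
    have : 0 < k.choose 2 - 2 := by omega
    exact_mod_cast this
  have hexp : Real.exp 1 < 2.7182818286 := Real.exp_one_lt_d9
  have hexp0 : 0 < Real.exp 1 := Real.exp_pos _
  have heB : Real.exp 1 * ((k.choose 2 - 2 : ℕ) : ℝ) ≤ 2 * x ^ 2 := by
    norm_num at hexp
    nlinarith
  have hκ0 : 0 < kap k r := by
    unfold kap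
    positivity
  have hκ : kap k r ≤ 0.03 / x := by
    unfold kap
    rw [div_le_div_iff₀ hr0 hx0]
    have h2 : Real.exp 1 * ((k.choose 2 - 2 : ℕ) : ℝ) * x ≤ 2 * x ^ 2 * x :=
      mul_le_mul_of_nonneg_right heB hx0.le
    have h3 : 2 * x ^ 2 * x = 2 * x ^ 3 := by ring
    rw [h3] at h2
    norm_num
    linarith
  have hx3 : 0 < x ^ 3 := by positivity
  have hx23 : 37 * x ^ 2 ≤ x ^ 3 := by
    have : x ^ 3 = x * x ^ 2 := by ring
    rw [this]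
    exact mul_le_mul_of_nonneg_right hx (by positivity)
  have hes : Real.exp 1 * ((k.choose 2 - 2 : ℕ) : ℝ) * ((e0 : ℝ) + 1) ≤ r := by
    have h2 : Real.exp 1 * ((k.choose 2 - 2 : ℕ) : ℝ) * ((e0 : ℝ) + 1) ≤ 2 * x ^ 2 * (x + 1) :=
      mul_le_mul heB (by linarith) (by positivity) (by positivity)
    have h3 : 2 * x ^ 2 * (x + 1) = 2 * x ^ 3 + 2 * x ^ 2 := by ring
    rw [h3] at h2
    linarith
  have he36 : 36 ≤ e0 := by
    have h2 : (35 : ℝ) < e0 := by linarith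
    have h3 : 35 < e0 := by exact_mod_cast h2
    omega
  have he36' : (36 : ℝ) ≤ e0 := by exact_mod_cast he36
  refine ⟨1 / r, by positivity, e0 + 2, ?_⟩
  intro ε θ hε0 hε1 hθ0 hθ1 ι _ _ W V hW0 hW1 hTV hVp hodd
  obtain ⟨δ, hδ⟩ : ∃ δ : ℝ, δ = x - 1 - TT k r + ε := ⟨_, rfl⟩
  have h2r : (2 : ℝ) / r = 1 / r + 1 / r := by ring
  have hd0 : δ ≤ loss x e0 + 2 / r := by rw [hδ, h2r]; linarith
  have hd2 : δ ≤ loss x (e0 + 2) + 2 / r := by rw [hδ, h2r]; linarith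
  have hδn : δ ≤ 0.521 / (x - 1) ^ 2 := by
    have h3 : (0.521 : ℝ) / (x - 1) ^ 2 = 0.51 / (x - 1) ^ 2 + 0.011 / (x - 1) ^ 2 := by
      rw [← add_div]
      norm_num
    rw [h3]
    rcases le_total x ((e0 : ℝ) + 1) with h | h
    · have := loss_near2 hx (l := (e0 : ℝ)) (by linarith) (by linarith)
      linarith
    · have := loss_near2 hx (l := (e0 : ℝ) + 2) (by linarith) (by linarith)
      linarith
  have hδx : δ * x < 0.0607 := XAna_num hx hδn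
  have hV : x - 1 - δ ≤ ∑ X, phi (Real.log r) (kap k r) (W X) := by
    rw [hδ]; linarith
  obtain ⟨δ', hδ'⟩ : ∃ δ' : ℝ, δ' = x - 1 - ∑ X, phi (Real.log r) (kap k r) (W X) := ⟨_, rfl⟩
  have hδδ : δ' ≤ δ := by rw [hδ']; linarith
  have hδx' : δ' * x < 0.0607 := lt_of_le_of_lt (mul_le_mul_of_nonneg_right hδδ hx0.le) hδx
  have hV' : x - 1 - δ' ≤ ∑ X, phi (Real.log r) (kap k r) (W X) := by
    rw [hδ']; linarith
  obtain ⟨S0, hS0⟩ : ∃ S0 : Finset ι, ∀ X, X ∈ S0 ↔ 0.62 / x ≤ W X :=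
    ⟨univ.filter (fun X => 0.62 / x ≤ W X), fun X => by simp⟩
  rcases lt_or_ge S0.card e0 with hs | hs
  · -- s ≤ e0 - 1
    exfalso
    have h3 := even7 hx6 hR hκ0 hκ hδx W hW0 hW1 hV S0 hS0 (e0 - 1) (by linarith)
      (by push_cast [Nat.cast_sub (show 1 ≤ e0 by omega)]; linarith)
      (by push_cast [Nat.cast_sub (show 1 ≤ e0 by omega)]; linarith) (by omega)
    push_cast [Nat.cast_sub (show 1 ≤ e0 by omega)] at h3
    have h4 := loss_pred (x := x) (l := (e0 : ℝ)) (by linarith) hex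
    have h5 : (0.4 : ℝ) / ((x + 2) * (x + 1)) ≤ 0.4 / ((e0 : ℝ) * (e0 - 1)) := by
      apply div_le_div_of_nonneg_left (by norm_num)
      · have : (0 : ℝ) < (e0 : ℝ) - 1 := by linarith
        positivity
      · exact mul_le_mul (by linarith) (by linarith) (by linarith) (by positivity)
    linarith
  rcases lt_or_ge (e0 + 2) S0.card with hs2 | hs2
  · -- s ≥ e0 + 3
    exfalso
    have h3 := even8 hx6 hR hκ0 hκ hδx W hW0 hW1 hV S0 hS0 (e0 + 3) (by linarith)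
      (by push_cast; linarith) (by push_cast; linarith) (by omega)
    push_cast at h3
    have h4 := loss_succ (x := x) (l := (e0 : ℝ) + 3) (by linarith) (by linarith) (by linarith)
    have e1 : (e0 : ℝ) + 3 - 1 = e0 + 2 := by ring
    rw [e1] at h4
    have h5 : (0.4 : ℝ) / ((x + 3) * (x + 2)) ≤ 0.4 / (((e0 : ℝ) + 3) * (e0 + 2)) := by
      apply div_le_div_of_nonneg_left (by norm_num) (by positivity)
      exact mul_le_mul (by linarith) (by linarith) (by positivity) (by positivity)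
    linarith
  have hcases : S0.card = e0 ∨ S0.card = e0 + 1 ∨ S0.card = e0 + 2 := by omega
  have hcard3 : 3 * k.choose 2 * S0.card ≤ r := by
    have h3 : (3 : ℝ) * ((k.choose 2 : ℕ) : ℝ) * ((S0.card : ℕ) : ℝ) ≤ r := by
      have h4 : ((S0.card : ℕ) : ℝ) ≤ x + 2 := by
        have h5 : ((S0.card : ℕ) : ℝ) ≤ (e0 : ℝ) + 2 := by exact_mod_cast hs2
        linarith
      have h5 : (3 : ℝ) * ((k.choose 2 : ℕ) : ℝ) * ((S0.card : ℕ) : ℝ) ≤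
          3 * (x ^ 2 / 2) * (x + 2) := by
        apply mul_le_mul (by linarith) h4 (by positivity) (by positivity)
      have h6 : 3 * (x ^ 2 / 2) * (x + 2) = 3 / 2 * x ^ 3 + 3 * x ^ 2 := by ring
      rw [h6] at h5
      linarith
    exact_mod_cast h3
  rcases hcases with hs3 | hs3 | hs3
  · -- s = e0
    have h6 := even6 hx6 hR hκ0 hκ hδx W hW0 hW1 hV S0 hS0 e0 (by linarith)
      (Or.inl ⟨hex, hxe⟩) hs3
    obtain ⟨c1, c2⟩ := XAna_concl (l := e0) hk hr0 hr1 W hW0 hW1 S0 hS0 hd0 h6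
    have h7 := even2 hx6 hR hκ0 hκ hδx' W hW0 hW1 hV' S0 hS0 e0 (by omega) hex hxe hs3.le
    refine ⟨S0, by rw [hs3]; exact he, by omega, by omega, hcard3, c1, c2, ?_⟩
    rw [hδ'] at h7
    linarith
  · -- s = e0 + 1
    exfalso
    exact XAna_odd hx hR he hex hxe hκ0 hκ hes (hθ1.trans hrθ) hδ hδn hδx W V hW0 hW1 hTV hVp
      hodd S0 hS0 hs3
  · -- s = e0 + 2
    have h6 := even6 hx6 hR hκ0 hκ hδx W hW0 hW1 hV S0 hS0 (e0 + 2) (by linarith)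
      (Or.inr ⟨by push_cast; linarith, by push_cast; linarith⟩) hs3
    have hd2' : δ ≤ loss x ((e0 + 2 : ℕ) : ℝ) + 2 / r := by push_cast; exact hd2
    obtain ⟨c1, c2⟩ := XAna_concl (l := e0 + 2) hk hr0 hr1 W hW0 hW1 S0 hS0 hd2' h6
    have h7 := even3 hx6 hR hκ0 hκ hδx' W hW0 hW1 hV' S0 hS0 (e0 + 2)
      (by push_cast; linarith) (by push_cast; linarith) hs3.ge
    push_cast at h7
    refine ⟨S0, by rw [hs3]; exact he.add (by decide), by omega, by omega, hcard3, c1, c2, ?_⟩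
    rw [hδ'] at h7
    linarith

end MP2ab38c
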