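import Pool.Agent.Lib.MP_2ab38c_co.XGap
import Pool.Agent.Lib.MP_2ab38c_co.XNum

/-!
JOB XGapN.  With `R = log r ≥ 41`, `T = (k-2)/(k-1) R ≥ 0.9 R`, `ε ≤ 1`.  For every `i`,
`T - ε ≤ D i ≤ R (1 - W(part i))` (see `MLow_D_le` in MLow; copy it), so `1 - W(part i) ≥ 0.87`.
Let `A = {i | R/2 ≤ ell z i}`.  `T - ε ≤ D z ≤ R w(A) + (R/2)(1 - w(A))`, so `w(A) ≥ 0.75`.  For
`i ∈ A`: `part i ≠ part z` (else `ell = 0 < R/2`), `|L(i,z)| ≥ e^(R/2) = √r ≥ k^2 ≥ C(k,2) - 1`
(`pow_four_le`), so `(i,z)` is big.  Take `b i = √r` on `A`, `0` elsewhere in `V_le_phi_gap`: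
the gain is `≥ 0.75 * 0.87 / (2 √r) ≥ 0.2/√r`.
-/

namespace MP2ab38c

open Finset

private lemma XGapN_ell_le {k r : ℕ} {I ι : Type} [DecidableEq ι] (S : LS k r I ι) (i j : I) :
    S.ell i j ≤ if S.part j = S.part i then 0 else Real.log r := by
  unfold LS.ell ellF
  by_cases h : S.part i = S.part j
  · rw [if_pos h, if_pos h.symm]
  · rw [if_neg h, if_neg (fun h' => h h'.symm)]
    have hne : (S.L s(i, j)).Nonempty := S.ne i j h
    have h1 : (0 : ℝ) < ((S.L s(i, j)).card : ℝ) := by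
      exact_mod_cast Finset.card_pos.2 hne
    have h2 : ((S.L s(i, j)).card : ℝ) ≤ (r : ℝ) := by
      have := Finset.card_le_univ (S.L s(i, j))
      rw [Fintype.card_fin] at this
      exact_mod_cast this
    exact Real.log_le_log h1 h2

private lemma XGapN_D_le {k r : ℕ} {I ι : Type} [Fintype I] [DecidableEq ι] (S : LS k r I ι)
    (w : I → ℝ) (hw0 : ∀ i, 0 ≤ w i) (hw1 : ∑ i, w i = 1) (i : I) :
    S.D w i ≤ Real.log r * (1 - S.W w (S.part i)) := by
  unfold LS.D LS.W
  rw [← hw1, ← Finset.sum_sub_distrib, Finset.mul_sum]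
  refine Finset.sum_le_sum fun j _ => ?_
  have h := mul_le_mul_of_nonneg_left (XGapN_ell_le S i j) (hw0 j)
  refine h.trans (le_of_eq ?_)
  by_cases hp : S.part j = S.part i
  · simp [hp]
  · simp [hp]; ring

theorem V_le_gap {k r : ℕ} (hG : Good k r) (hk : 11 ≤ k) {I ι : Type} [Fintype I] [DecidableEq I]
    [Fintype ι] [DecidableEq ι] (S : LS k r I ι) (w : I → ℝ) (hw0 : ∀ i, 0 ≤ w i)
    (hw1 : ∑ i, w i = 1) (θ κ : ℝ) (hone : S.OnePart w θ) (hκθ : θ ≤ κ / 2) (hκ0 : 0 < κ)
    (hκ : Real.exp 1 * ((k.choose 2 - 2 : ℕ) : ℝ) ≤ κ * r) (z : I)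
    (hz : S.W w (S.part z) ≤ κ / 2) (ε : ℝ) (hε : ε ≤ 1) (hD : ∀ i, TT k r - ε ≤ S.D w i) :
    ∑ i, w i * S.D w i + 0.2 / Real.sqrt r ≤ ∑ X, phi (Real.log r) κ (S.W w X) := by
  classical
  have hR41 := log_ge_41 hG hk
  have hk4 := pow_four_le hG hk
  set R := Real.log r with hR
  have hr1 : 1 ≤ r := le_trans (Nat.one_le_pow _ _ (by omega)) hk4
  have hrR : (0 : ℝ) < r := by exact_mod_cast hr1
  have hsq : 0 < Real.sqrt r := Real.sqrt_pos.mpr hrR
  have hkR : (11 : ℝ) ≤ k := by exact_mod_cast hk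
  have hT : 0.9 * R ≤ TT k r := by
    unfold TT
    refine mul_le_mul_of_nonneg_right ?_ (by linarith)
    rw [le_div_iff₀ (by linarith)]
    linarith
  -- small parts
  have hW : ∀ i, 0.87 ≤ 1 - S.W w (S.part i) := by
    intro i
    have h1 := XGapN_D_le S w hw0 hw1 i
    have h2 := hD i
    rw [← hR] at h1
    by_contra hcon
    push Not at hcon
    have h3 : R * (1 - S.W w (S.part i)) ≤ R * 0.87 := mul_le_mul_of_nonneg_left hcon.le (by linarith)
    linarith
  -- the set A
  set A : Finset I := univ.filter (fun i => R / 2 ≤ S.ell z i) with hA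
  have hellR : ∀ i, S.ell z i ≤ R := by
    intro i
    have h1 := XGapN_ell_le S z i
    rw [← hR] at h1
    split_ifs at h1 <;> linarith
  have hwA : 0.75 ≤ ∑ i ∈ A, w i := by
    have h1 : S.D w z ≤ R / 2 + R / 2 * ∑ i ∈ A, w i := by
      have h2 : S.D w z ≤ ∑ i, (R / 2 * w i + (if i ∈ A then R / 2 * w i else 0)) := by
        unfold LS.D
        refine Finset.sum_le_sum fun i _ => ?_
        by_cases hi : i ∈ A
        · rw [if_pos hi]
          have := mul_le_mul_of_nonneg_left (hellR i) (hw0 i)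
          linarith
        · rw [if_neg hi]
          have h3 : S.ell z i ≤ R / 2 := by
            by_contra hcon
            push Not at hcon
            exact hi (by rw [hA, Finset.mem_filter]; exact ⟨Finset.mem_univ _, hcon.le⟩)
          have := mul_le_mul_of_nonneg_left h3 (hw0 i)
          linarith
      rw [Finset.sum_add_distrib, ← Finset.mul_sum, hw1, Finset.sum_ite_mem, Finset.univ_inter,
        ← Finset.mul_sum, mul_one] at h2
      exact h2
    have h2 := hD z
    by_contra hcon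
    push Not at hcon
    have h3 : R / 2 * ∑ i ∈ A, w i ≤ R / 2 * 0.75 := mul_le_mul_of_nonneg_left hcon.le (by linarith)
    linarith
  have hAcard : ∀ i ∈ A, S.part i ≠ S.part z ∧ Real.sqrt r ≤ ((S.L s(i, z)).card : ℝ) := by
    intro i hi
    rw [hA, Finset.mem_filter] at hi
    have h1 := hi.2
    unfold LS.ell ellF at h1
    by_cases hp : S.part z = S.part i
    · rw [if_pos hp] at h1
      linarith
    · rw [if_neg hp, Sym2.eq_swap] at h1
      refine ⟨fun h => hp h.symm, ?_⟩
      have hne : (S.L s(i, z)).Nonempty := S.ne i z (fun h => hp h.symm)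
      have h2 : (0 : ℝ) < ((S.L s(i, z)).card : ℝ) := by
        exact_mod_cast Finset.card_pos.2 hne
      rw [Real.sqrt_le_iff]
      refine ⟨h2.le, ?_⟩
      rw [← Real.log_le_log_iff hrR (by positivity), Real.log_pow]
      push_cast
      linarith
  have hbig : ∀ i ∈ A, S.big i z := by
    intro i hi
    obtain ⟨h1, h2⟩ := hAcard i hi
    refine ⟨h1, ?_⟩
    have h3 : ((k ^ 2 : ℕ) : ℝ) ≤ Real.sqrt r := by
      refine Real.le_sqrt_of_sq_le ?_
      have : ((k ^ 4 : ℕ) : ℝ) ≤ r := by exact_mod_cast hk4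
      refine le_trans (le_of_eq ?_) this
      push_cast
      ring
    have h4 : k ^ 2 ≤ (S.L s(i, z)).card := by exact_mod_cast h3.trans h2
    have h5 : k.choose 2 ≤ k ^ 2 := by
      rw [Nat.choose_two_right, pow_two]
      exact (Nat.div_le_self _ _).trans (Nat.mul_le_mul_left _ (Nat.sub_le _ _))
    omega
  have hmain := V_le_phi_gap hG S w hw0 hw1 θ κ hone hκθ hκ0 hκ z hz
    (fun i => if i ∈ A then Real.sqrt r else 0)
    (fun i _ => by
      split_ifs with hi
      · exact (hAcard i hi).2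
      · exact Nat.cast_nonneg _)
    (fun i hi => by
      rw [if_neg (fun h => hi (hbig i h))])
  rw [← hR] at hmain
  have hgain : 0.2 / Real.sqrt r ≤
      ∑ i, w i * ((1 - S.W w (S.part i)) / (2 * r) * (if i ∈ A then Real.sqrt r else 0)) := by
    have h1 : ∀ i, (if i ∈ A then w i * (0.87 / (2 * Real.sqrt r)) else 0) ≤
        w i * ((1 - S.W w (S.part i)) / (2 * r) * (if i ∈ A then Real.sqrt r else 0)) := by
      intro i
      split_ifs with hi
      · refine mul_le_mul_of_nonneg_left ?_ (hw0 i)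
        have h2 : Real.sqrt r * Real.sqrt r = r := Real.mul_self_sqrt hrR.le
        have h3 : (1 - S.W w (S.part i)) / (2 * r) * Real.sqrt r =
            (1 - S.W w (S.part i)) / (2 * Real.sqrt r) := by
          rw [div_mul_eq_mul_div, div_eq_div_iff (by positivity) (by positivity)]
          rw [show (1 - S.W w (S.part i)) * Real.sqrt r * (2 * Real.sqrt r) =
            (1 - S.W w (S.part i)) * (2 * (Real.sqrt r * Real.sqrt r)) by ring, h2]
        rw [h3]
        exact div_le_div_of_nonneg_right (hW i) (by positivity)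
      · simp
    refine le_trans ?_ (Finset.sum_le_sum fun i _ => h1 i)
    rw [Finset.sum_ite_mem, Finset.univ_inter, ← Finset.sum_mul]
    have h4 : 0.75 * (0.87 / (2 * Real.sqrt r)) ≤ (∑ i ∈ A, w i) * (0.87 / (2 * Real.sqrt r)) :=
      mul_le_mul_of_nonneg_right hwA (by positivity)
    refine le_trans ?_ h4
    rw [← mul_div_assoc, div_le_div_iff₀ hsq (by positivity)]
    nlinarith
  linarith

end MP2ab38c
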