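import Pool.Agent.Lib.MP_2ab38c_co.Core

/-!
JOB XPalP.  `palProd` and the integral tangent line.
`palProd_eq`: copy the private lemma of NUp.  `chord`: for an integer `a ≥ 1`, with
`λ = log (q+1) - log q`:  if `a ≥ q + 1`, `log (a/q) = ∑_{j=q}^{a-1} log (1+1/j) ≤ (a - q) λ`
(induction on `a`); if `a ≤ q`, `log (q/a) = ∑_{j=a}^{q-1} log (1+1/j) ≥ (q-a) λ`.
`chord_zero`: `q λ = q log (1+1/q) ≤ 1`, so `log q - q λ ≥ log q - 1 ≥ log (q/3)`.
`log_palProd`: take logs in `palProd_eq`.
-/

namespace MP2ab38c

open Finset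

theorem palProd_eq (r m : ℕ) (hm : 0 < m) :
    palProd r m = (r / m) ^ (m - r % m) * (r / m + 1) ^ (r % m) := by
  have hs : r % m < m := Nat.mod_lt r hm
  have hr : m * (r / m) + r % m = r := Nat.div_add_mod r m
  have h0 : palProd r m = ∏ i ∈ range ((m - r % m) + r % m), (r + i) / m := by
    unfold palProd
    rw [Nat.sub_add_cancel hs.le]
  rw [h0, Finset.prod_range_add]
  congr 1
  · rw [Finset.prod_congr rfl (g := fun _ => r / m), Finset.prod_const, card_range]
    intro i hi
    have hi' := Finset.mem_range.1 hi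
    have : r + i = m * (r / m) + (r % m + i) := by omega
    rw [this, Nat.mul_add_div hm, Nat.div_eq_of_lt (a := r % m + i) (by omega), Nat.add_zero]
  · rw [Finset.prod_congr rfl (g := fun _ => r / m + 1), Finset.prod_const, card_range]
    intro i hi
    have hi' := Finset.mem_range.1 hi
    have : r + (m - r % m + i) = m * (r / m + 1) + i := by
      rw [Nat.mul_add, Nat.mul_one]
      omega
    rw [this, Nat.mul_add_div hm, Nat.div_eq_of_lt (a := i) (by omega), Nat.add_zero]

private lemma XPalP_step {x y : ℝ} (hx : 0 < x) (hxy : x ≤ y) :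
    Real.log (y + 1) - Real.log y ≤ Real.log (x + 1) - Real.log x := by
  have hy : 0 < y := hx.trans_le hxy
  rw [← Real.log_div (by linarith) hy.ne', ← Real.log_div (by linarith) hx.ne']
  refine Real.log_le_log (by positivity) ?_
  rw [div_le_div_iff₀ hy hx]
  nlinarith

private lemma XPalP_up {q : ℝ} (hq : 0 < q) (n : ℕ) :
    Real.log (q + n) ≤ Real.log q + n * (Real.log (q + 1) - Real.log q) := by
  induction n with
  | zero => simp
  | succ n ih =>
    have h := XPalP_step hq (y := q + n) (by
      have : (0 : ℝ) ≤ n := Nat.cast_nonneg n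
      linarith)
    push_cast
    rw [← add_assoc]
    linarith

private lemma XPalP_down {q a : ℝ} (ha : 0 < a) (n : ℕ) (h : a + n ≤ q) :
    n * (Real.log (q + 1) - Real.log q) ≤ Real.log (a + n) - Real.log a := by
  induction n with
  | zero => simp
  | succ n ih =>
    push_cast at h ⊢
    have h0 : (0 : ℝ) ≤ n := Nat.cast_nonneg n
    have h1 := ih (by linarith)
    have h2 := XPalP_step (x := a + n) (y := q) (by linarith) (by linarith)
    rw [← add_assoc]
    linarith

theorem chord (q a : ℕ) (hq : 1 ≤ q) (ha : 1 ≤ a) :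
    Real.log a ≤ Real.log q + ((a : ℝ) - q) * (Real.log ((q : ℝ) + 1) - Real.log q) := by
  have hqR : (0 : ℝ) < q := by exact_mod_cast hq
  have haR : (0 : ℝ) < a := by exact_mod_cast ha
  rcases le_total q a with h | h
  · obtain ⟨n, rfl⟩ := Nat.exists_eq_add_of_le h
    have := XPalP_up hqR n
    push_cast
    rw [add_sub_cancel_left]
    exact this
  · obtain ⟨n, rfl⟩ := Nat.exists_eq_add_of_le h
    have := XPalP_down (q := ((a + n : ℕ) : ℝ)) haR n (by push_cast; exact le_refl _)
    push_cast at this ⊢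
    have e : (a : ℝ) - (a + n) = -n := by ring
    rw [e]
    linarith

theorem chord_zero (q b : ℕ) (hb : 1 ≤ b) (hq : 3 * b ≤ q) :
    Real.log b ≤ Real.log q - q * (Real.log ((q : ℝ) + 1) - Real.log q) := by
  have hbR : (1 : ℝ) ≤ b := by exact_mod_cast hb
  have hqb : (3 : ℝ) * b ≤ q := by exact_mod_cast hq
  have hqR : (0 : ℝ) < q := by linarith
  have h1 : Real.log ((q : ℝ) + 1) - Real.log q ≤ 1 / q := by
    rw [← Real.log_div (by linarith) hqR.ne']
    have h2 := Real.log_le_sub_one_of_pos (show (0 : ℝ) < ((q : ℝ) + 1) / q by positivity)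
    have h3 : ((q : ℝ) + 1) / q - 1 = 1 / q := by
      field_simp
      ring
    linarith
  have h4 : (q : ℝ) * (Real.log ((q : ℝ) + 1) - Real.log q) ≤ 1 := by
    have := mul_le_mul_of_nonneg_left h1 hqR.le
    rwa [mul_one_div_cancel hqR.ne'] at this
  have h5 : (1 : ℝ) ≤ Real.log 3 := by
    rw [Real.le_log_iff_exp_le (by norm_num)]
    have := Real.exp_one_lt_d9
    linarith
  have h6 : Real.log 3 + Real.log b ≤ Real.log q := by
    rw [← Real.log_mul (by norm_num) (by linarith)]
    exact Real.log_le_log (by positivity) hqb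
  linarith

theorem log_palProd (r m : ℕ) (hm : 0 < m) (hr : m ≤ r) :
    Real.log (palProd r m) = m * Real.log ((r / m : ℕ) : ℝ) +
      ((r : ℝ) - m * ((r / m : ℕ) : ℝ)) *
        (Real.log (((r / m : ℕ) : ℝ) + 1) - Real.log ((r / m : ℕ) : ℝ)) := by
  rw [palProd_eq r m hm]
  have hq : 1 ≤ r / m := Nat.div_pos hr hm
  have hs : r % m < m := Nat.mod_lt r hm
  have hrq : m * (r / m) + r % m = r := Nat.div_add_mod r m
  set q := r / m with hqdef
  set s := r % m with hsdef
  have hqR : (0 : ℝ) < q := by exact_mod_cast hq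
  have hsr : (r : ℝ) - m * q = s := by
    have : ((m * q + s : ℕ) : ℝ) = r := by exact_mod_cast hrq
    push_cast at this
    linarith
  rw [hsr]
  push_cast
  rw [Real.log_mul (by positivity) (by positivity), Real.log_pow, Real.log_pow,
    Nat.cast_sub hs.le]
  ring

end MP2ab38c
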