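import Pool.Agent.Lib.MP_2ab38c_co.KNum
import Pool.Agent.Lib.MP_2ab38c_co.XPalP

/-!
JOB XPal.  The exact palette bound.
Let `m' = |S0| - 1 ≥ 1`, `q = r / m'`, `λ = log (q+1) - log q`, `B1 = C(k,2) - 2`, `3 B1 ≤ q`.
For `i ≠ j` in different parts: if `(i,j)` is big then by `chord`
`ell i j ≤ log q - q λ + λ |L(i,j)|`; if not, `|L(i,j)| ≤ B1` and `ell i j ≤ log q - q λ`
(`chord_zero`).  Fix `i` and sum over `j` with the weights `w j / W(part j)`: the parts other than
that of `i` give total weight `m'`, and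
`∑_{j big} (w j / W(part j)) |L(i,j)| = ∑_c ∑_{j ∈ N_c(i)} w j / W(part j) ≤ ∑_c 1 = r`
because `N_c(i)` lies in one part, or `nw w c i ≤ θ ≤ m ≤ W` (compare `KDj_color` in KDj).  So
`∑_j (w j / W(part j)) ell i j ≤ m' (log q - q λ) + λ r = log (palProd r m')` (`log_palProd`).
Now `|S0| T' ≤ ∑_{Y ∈ S0} (1/W Y) ∑_{j ∈ Y} w j D j = ∑_j (w j / W(part j)) ∑_i w i ell j i
= ∑_i w i ∑_j (w j / W(part j)) ell i j ≤ log (palProd r m')`.
-/

namespace MP2ab38c

open Finset

private theorem XPal_fiber {k r : ℕ} {I ι : Type} [Fintype I] [DecidableEq I] [Fintype ι]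
    [DecidableEq ι] (S : LS k r I ι) (w : I → ℝ) (g : ι → ℝ) :
    ∑ i, w i * g (S.part i) = ∑ X, S.W w X * g X := by
  unfold LS.W
  simp only [Finset.sum_mul]
  rw [Finset.sum_comm]
  refine Finset.sum_congr rfl fun i _ => ?_
  rw [Finset.sum_eq_single (S.part i)]
  · rw [if_pos rfl]
  · intro X _ hX
    rw [if_neg (Ne.symm hX), zero_mul]
  · intro h
    exact absurd (Finset.mem_univ _) h

/-- every colour contributes at most `1` -/
private theorem XPal_color {k r : ℕ} {I ι : Type} [Fintype I] [DecidableEq I]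
    [Fintype ι] [DecidableEq ι] (S : LS k r I ι) (w : I → ℝ) (hw0 : ∀ i, 0 ≤ w i)
    (θ κ : ℝ) (hone : S.OnePart w θ) (hκθ : θ ≤ κ) (hκ0 : 0 < κ) (j : I) (c : Fin r)
    (a : I → ℝ) (ha : ∀ i, S.big i j → c ∈ S.L s(i, j) → a i ≤ w i / max (S.W w (S.part i)) κ)
    (ha0 : ∀ i, ¬ (S.big i j ∧ c ∈ S.L s(i, j)) → a i = 0) : ∑ i, a i ≤ 1 := by
  classical
  rcases hone c j with h | h
  · by_cases hex : ∃ i, S.big i j ∧ c ∈ S.L s(i, j)
    · obtain ⟨i₀, hb0, hc0⟩ := hex
      have hm : 0 < max (S.W w (S.part i₀)) κ := lt_max_of_lt_right hκ0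
      calc ∑ i, a i ≤ ∑ i, (if S.part i = S.part i₀ then w i else 0) /
              max (S.W w (S.part i₀)) κ := by
            refine Finset.sum_le_sum fun i _ => ?_
            by_cases hi : S.big i j ∧ c ∈ S.L s(i, j)
            · have hp := h i i₀ hi.1 hi.2 hb0 hc0
              rw [if_pos hp]
              have := ha i hi.1 hi.2
              rwa [hp] at this
            · rw [ha0 i hi]
              refine div_nonneg ?_ hm.le
              split_ifs
              · exact hw0 i
              · exact le_rfl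
        _ = S.W w (S.part i₀) / max (S.W w (S.part i₀)) κ := by
            rw [← Finset.sum_div]
            rfl
        _ ≤ 1 := by
            rw [div_le_one hm]
            exact le_max_left _ _
    · rw [Finset.sum_eq_zero]
      · exact zero_le_one
      · intro i _
        exact ha0 i fun hi => hex ⟨i, hi⟩
  · have h2 : ∑ i, a i ≤ S.nw w c j / κ := by
      unfold LS.nw
      rw [Finset.sum_div]
      refine Finset.sum_le_sum fun i _ => ?_
      by_cases hi : S.big i j ∧ c ∈ S.L s(i, j)
      · rw [if_pos hi]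
        refine (ha i hi.1 hi.2).trans ?_
        exact div_le_div_of_nonneg_left (hw0 i) hκ0 (le_max_right _ _)
      · rw [if_neg hi, ha0 i hi, zero_div]
    refine h2.trans ?_
    rw [div_le_one hκ0]
    exact h.trans hκθ

/-- the weighted number of colours on the big pairs at `j` -/
private theorem XPal_total {k r : ℕ} {I ι : Type} [Fintype I] [DecidableEq I]
    [Fintype ι] [DecidableEq ι] (S : LS k r I ι) (w : I → ℝ) (hw0 : ∀ i, 0 ≤ w i)
    (θ κ : ℝ) (hone : S.OnePart w θ) (hκθ : θ ≤ κ) (hκ0 : 0 < κ) (j : I)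
    (b : I → ℝ) (hb : ∀ i, S.big i j →
      b i = w i * ((S.L s(i, j)).card : ℝ) / max (S.W w (S.part i)) κ)
    (hb0 : ∀ i, ¬ S.big i j → b i = 0) : ∑ i, b i ≤ r := by
  classical
  have h1 : ∀ i, b i = ∑ c : Fin r, if S.big i j ∧ c ∈ S.L s(i, j) then
      w i / max (S.W w (S.part i)) κ else 0 := by
    intro i
    by_cases hi : S.big i j
    · rw [hb i hi]
      have h2 : ∀ c : Fin r, (if S.big i j ∧ c ∈ S.L s(i, j) then
          w i / max (S.W w (S.part i)) κ else 0) =
          if c ∈ S.L s(i, j) then w i / max (S.W w (S.part i)) κ else 0 := by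
        intro c
        by_cases hc : c ∈ S.L s(i, j)
        · rw [if_pos ⟨hi, hc⟩, if_pos hc]
        · rw [if_neg fun h => hc h.2, if_neg hc]
      rw [Finset.sum_congr rfl fun c _ => h2 c, Finset.sum_ite_mem, Finset.univ_inter,
        Finset.sum_const, nsmul_eq_mul]
      ring
    · rw [hb0 i hi, Finset.sum_eq_zero]
      intro c _
      rw [if_neg fun h => hi h.1]
  rw [Finset.sum_congr rfl fun i _ => h1 i, Finset.sum_comm]
  calc ∑ c : Fin r, ∑ i, (if S.big i j ∧ c ∈ S.L s(i, j) then
        w i / max (S.W w (S.part i)) κ else 0) ≤ ∑ _c : Fin r, (1 : ℝ) := by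
        refine Finset.sum_le_sum fun c _ => ?_
        refine XPal_color S w hw0 θ κ hone hκθ hκ0 j c _ ?_ ?_
        · intro i hi hc
          rw [if_pos ⟨hi, hc⟩]
        · intro i hi
          rw [if_neg hi]
    _ = r := by simp

/-- sums over the parts with the normalised weights -/
private theorem XPal_sum {k r : ℕ} {I ι : Type} [Fintype I] [DecidableEq I] [Fintype ι]
    [DecidableEq ι] (S : LS k r I ι) (w : I → ℝ) (S0 : Finset ι) (hcov : ∀ i, S.part i ∈ S0)
    (m : ℝ) (hm0 : 0 < m) (hm : ∀ X ∈ S0, m ≤ S.W w X) (g : ι → ℝ) :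
    ∑ i, w i / S.W w (S.part i) * g (S.part i) = ∑ X ∈ S0, g X := by
  have h1 : ∑ i, w i / S.W w (S.part i) * g (S.part i) =
      ∑ i, w i * (g (S.part i) / S.W w (S.part i)) :=
    Finset.sum_congr rfl fun i _ => by ring
  rw [h1, XPal_fiber S w (fun X => g X / S.W w X)]
  rw [← Finset.sum_subset (Finset.subset_univ S0)]
  · refine Finset.sum_congr rfl fun X hX => ?_
    have hX0 : S.W w X ≠ 0 := (lt_of_lt_of_le hm0 (hm X hX)).ne'
    rw [mul_div_cancel₀ _ hX0]
  · intro X _ hX
    have h2 : S.W w X = 0 := by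
      unfold LS.W
      refine Finset.sum_eq_zero fun i _ => ?_
      rw [if_neg]
      rintro rfl
      exact hX (hcov i)
    rw [h2, zero_mul]

theorem pal_le {k r : ℕ} (hG : Good k r) {I ι : Type} [Fintype I] [DecidableEq I]
    [Fintype ι] [DecidableEq ι] (S : LS k r I ι) (w : I → ℝ) (hw0 : ∀ i, 0 ≤ w i)
    (hw1 : ∑ i, w i = 1) (θ : ℝ) (hone : S.OnePart w θ) (S0 : Finset ι)
    (hcov : ∀ i, S.part i ∈ S0) (m : ℝ) (hm0 : 0 < m) (hθm : θ ≤ m)
    (hm : ∀ X ∈ S0, m ≤ S.W w X) (hcard : 2 ≤ S0.card)
    (hr : 3 * k.choose 2 * S0.card ≤ r) (T' : ℝ) (hD : ∀ i, T' ≤ S.D w i) :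
    (S0.card : ℝ) * T' ≤ Real.log (palProd r (S0.card - 1)) := by
  classical
  have hk := hG.hk
  have hC6 : 6 ≤ k.choose 2 := by
    have h8 : Nat.choose 4 2 ≤ k.choose 2 := Nat.choose_le_choose 2 hk
    have h9 : Nat.choose 4 2 = 6 := by decide
    omega
  obtain ⟨m', hm'⟩ : ∃ m', m' = S0.card - 1 := ⟨_, rfl⟩
  have hm'0 : 0 < m' := by omega
  have hcardm : S0.card = m' + 1 := by omega
  obtain ⟨q, hq⟩ : ∃ q, q = r / m' := ⟨_, rfl⟩
  have hq3 : 3 * (k.choose 2 - 2) ≤ q := by
    rw [hq, Nat.le_div_iff_mul_le hm'0]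
    calc 3 * (k.choose 2 - 2) * m' ≤ 3 * k.choose 2 * S0.card := by
          apply Nat.mul_le_mul
          · omega
          · omega
      _ ≤ r := hr
  have hq1 : 1 ≤ q := by omega
  have hmr : m' ≤ r := by
    calc m' ≤ S0.card := by omega
      _ ≤ 3 * k.choose 2 * S0.card := Nat.le_mul_of_pos_left _ (by omega)
      _ ≤ r := hr
  have hqR : (0 : ℝ) < q := by exact_mod_cast hq1
  obtain ⟨lam, hlam⟩ : ∃ lam : ℝ, lam = Real.log ((q : ℝ) + 1) - Real.log q := ⟨_, rfl⟩
  have hlam0 : 0 ≤ lam := by
    have := Real.log_le_log hqR (show (q : ℝ) ≤ (q : ℝ) + 1 by linarith)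
    rw [hlam]; linarith
  obtain ⟨A, hA⟩ : ∃ A : ℝ, A = Real.log q - q * lam := ⟨_, rfl⟩
  have hpal : Real.log (palProd r m') = m' * A + lam * r := by
    rw [log_palProd r m' hm'0 hmr, ← hq, ← hlam, hA]
    ring
  have hWpos : ∀ j, 0 < S.W w (S.part j) := fun j => lt_of_lt_of_le hm0 (hm _ (hcov j))
  -- estimate for a fixed vertex
  have hvert : ∀ i, ∑ j, w j / S.W w (S.part j) * S.ell i j ≤ m' * A + lam * r := by
    intro i
    let b : I → ℝ := fun j => if S.big j i then
      w j * ((S.L s(j, i)).card : ℝ) / max (S.W w (S.part j)) m else 0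
    have hb := XPal_total S w hw0 θ m hone hθm hm0 i b
      (fun j hj => by simp only [b]; rw [if_pos hj]) (fun j hj => by simp only [b]; rw [if_neg hj])
    have hterm : ∀ j, w j / S.W w (S.part j) * S.ell i j ≤
        w j / S.W w (S.part j) * (if S.part j ≠ S.part i then A else 0) + lam * b j := by
      intro j
      have hv : 0 ≤ w j / S.W w (S.part j) := div_nonneg (hw0 j) (hWpos j).le
      by_cases hij : S.part j ≠ S.part i
      · rw [if_pos hij]
        have hell : S.ell i j = Real.log ((S.L s(j, i)).card : ℝ) := by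
          unfold LS.ell ellF
          rw [if_neg (Ne.symm hij), Sym2.eq_swap]
        have hL1 : 1 ≤ (S.L s(j, i)).card := (S.ne j i hij).card_pos
        by_cases hbig : S.big j i
        · have hbj : b j = w j / S.W w (S.part j) * ((S.L s(j, i)).card : ℝ) := by
            simp only [b]
            rw [if_pos hbig, max_eq_left (hm _ (hcov j))]
            ring
          have h1 := chord q (S.L s(j, i)).card hq1 hL1
          rw [← hlam] at h1
          rw [hell, hbj]
          have h2 : Real.log ((S.L s(j, i)).card : ℝ) ≤ A + lam * ((S.L s(j, i)).card : ℝ) := by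
            rw [hA]; linarith
          have h3 := mul_le_mul_of_nonneg_left h2 hv
          refine h3.trans (le_of_eq ?_)
          ring
        · have hbj : b j = 0 := by
            simp only [b]
            rw [if_neg hbig]
          have hcard : (S.L s(j, i)).card ≤ k.choose 2 - 2 := by
            have h5 : ¬ k.choose 2 - 1 ≤ (S.L s(j, i)).card := fun h => hbig ⟨hij, h⟩
            omega
          have h1 := chord_zero q (k.choose 2 - 2) (by omega) hq3
          rw [← hlam, ← hA] at h1
          have h2 : Real.log ((S.L s(j, i)).card : ℝ) ≤ Real.log ((k.choose 2 - 2 : ℕ) : ℝ) := by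
            refine Real.log_le_log ?_ ?_
            · exact_mod_cast hL1
            · exact_mod_cast hcard
          rw [hell, hbj, mul_zero, add_zero]
          exact mul_le_mul_of_nonneg_left (h2.trans h1) hv
      · have hbj : b j = 0 := by
          simp only [b]
          rw [if_neg fun h => hij h.1]
        have hell : S.ell i j = 0 := by
          unfold LS.ell ellF
          rw [if_pos (not_not.mp hij).symm]
        rw [hbj, hell, if_neg hij]
        simp
    calc ∑ j, w j / S.W w (S.part j) * S.ell i j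
        ≤ ∑ j, (w j / S.W w (S.part j) * (if S.part j ≠ S.part i then A else 0) + lam * b j) :=
          Finset.sum_le_sum fun j _ => hterm j
      _ = ∑ X ∈ S0, (if X ≠ S.part i then A else 0) + lam * ∑ j, b j := by
          rw [Finset.sum_add_distrib, ← Finset.mul_sum,
            XPal_sum S w S0 hcov m hm0 hm (fun X => if X ≠ S.part i then A else 0)]
      _ = m' * A + lam * ∑ j, b j := by
          congr 1
          rw [← Finset.sum_filter, Finset.sum_const, nsmul_eq_mul, Finset.filter_ne',
            Finset.card_erase_of_mem (hcov i), ← hm']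
      _ ≤ m' * A + lam * r := by
          have := mul_le_mul_of_nonneg_left hb hlam0
          linarith
  rw [← hm', hpal]
  calc (S0.card : ℝ) * T' = ∑ j, w j / S.W w (S.part j) * T' := by
        have := XPal_sum S w S0 hcov m hm0 hm (fun _ => T')
        rw [this, Finset.sum_const, nsmul_eq_mul]
    _ ≤ ∑ j, w j / S.W w (S.part j) * S.D w j :=
        Finset.sum_le_sum fun j _ => mul_le_mul_of_nonneg_left (hD j)
          (div_nonneg (hw0 j) (hWpos j).le)
    _ = ∑ i, w i * ∑ j, w j / S.W w (S.part j) * S.ell i j := by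
        unfold LS.D
        simp only [Finset.mul_sum]
        rw [Finset.sum_comm]
        refine Finset.sum_congr rfl fun i _ => Finset.sum_congr rfl fun j _ => ?_
        have hsymm : S.ell j i = S.ell i j := by
          unfold LS.ell ellF
          by_cases h : S.part i = S.part j
          · rw [if_pos h, if_pos h.symm]
          · rw [if_neg h, if_neg (Ne.symm h), Sym2.eq_swap]
        rw [hsymm]
        ring
    _ ≤ ∑ i, w i * (m' * A + lam * r) :=
        Finset.sum_le_sum fun i _ => mul_le_mul_of_nonneg_left (hvert i) (hw0 i)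
    _ = m' * A + lam * r := by
        rw [← Finset.sum_mul, hw1, one_mul]

end MP2ab38c
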