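import Pool.Agent.Lib.MP_2ab38c_co.KExt
import Pool.Agent.Lib.MP_2ab38c_co.KDeg
import Pool.Agent.Lib.MP_2ab38c_co.KPart
import Pool.Agent.Lib.MP_2ab38c_co.KOdd
import Pool.Agent.Lib.MP_2ab38c_co.XAna
import Pool.Agent.Lib.MP_2ab38c_co.XGapN
import Pool.Agent.Lib.MP_2ab38c_co.XPal

/-!
Lemma K for `k ≥ 11` at the threshold.
-/

namespace MP2ab38c

open Finset

private lemma XK_W_nonneg {k r : ℕ} {I ι : Type} [Fintype I] [DecidableEq ι] (S : LS k r I ι)
    (w : I → ℝ) (hw0 : ∀ i, 0 ≤ w i) (X : ι) : 0 ≤ S.W w X := by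
  unfold LS.W
  exact Finset.sum_nonneg fun i _ => by split_ifs <;> simp [hw0]

private lemma XK_W_sum {k r : ℕ} {I ι : Type} [Fintype I] [Fintype ι] [DecidableEq ι]
    (S : LS k r I ι) (w : I → ℝ) : ∑ X, S.W w X = ∑ i, w i := by
  unfold LS.W
  rw [Finset.sum_comm]
  simp

/-- the log form of the strict failure of the palette inequality -/
private lemma XK_log {k r l : ℕ} (hk : 4 ≤ k) (hr : 1 ≤ r) (hl : l - 1 ≤ r) (hl1 : 2 ≤ l)
    (h : palProd r (l - 1) ^ (k - 1) < r ^ (l * (k - 2))) :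
    Real.log (palProd r (l - 1)) < l * TT k r := by
  have hp : 0 < palProd r (l - 1) := by
    unfold palProd
    refine Finset.prod_pos fun i hi => ?_
    apply Nat.div_pos
    · omega
    · omega
  have hpR : (0 : ℝ) < palProd r (l - 1) := by exact_mod_cast hp
  have hrR : (0 : ℝ) < r := by exact_mod_cast hr
  have h2 : ((palProd r (l - 1) : ℝ)) ^ (k - 1) < (r : ℝ) ^ (l * (k - 2)) := by exact_mod_cast h
  have h3 := Real.log_lt_log (by positivity) h2
  rw [Real.log_pow, Real.log_pow] at h3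
  push_cast [Nat.cast_sub (show 1 ≤ k by omega), Nat.cast_sub (show 2 ≤ k by omega)] at h3
  have hk1 : (0 : ℝ) < (k : ℝ) - 1 := by
    have : (4 : ℝ) ≤ k := by exact_mod_cast hk
    linarith
  unfold TT
  have h4 : (l : ℝ) * (((k : ℝ) - 2) / ((k : ℝ) - 1) * Real.log r) =
      (l * ((k : ℝ) - 2) * Real.log r) / ((k : ℝ) - 1) := by ring
  rw [h4, lt_div_iff₀ hk1]
  linarith

private lemma XK_beta {k r : ℕ} (hk : 4 ≤ k) (hr : 1 ≤ r)
    (hP : ∀ l : ℕ, Even l → k ≤ l → palProd r (l - 1) ^ (k - 1) < r ^ (l * (k - 2))) (M : ℕ) :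
    ∃ β > 0, ∀ l ≤ M, Even l → k ≤ l → l - 1 ≤ r →
      Real.log (palProd r (l - 1)) < l * (TT k r - β) := by
  induction M with
  | zero =>
    refine ⟨1, one_pos, fun l hl _ hkl _ => ?_⟩
    omega
  | succ M ih =>
    obtain ⟨β, hβ, h⟩ := ih
    by_cases hc : Even (M + 1) ∧ k ≤ M + 1 ∧ (M + 1) - 1 ≤ r
    · have h1 := XK_log hk hr hc.2.2 (by omega) (hP _ hc.1 hc.2.1)
      have hM : (0 : ℝ) < ((M + 1 : ℕ) : ℝ) := by positivity
      set g : ℝ := ((M + 1 : ℕ) : ℝ) * TT k r - Real.log (palProd r (M + 1 - 1)) with hg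
      have hg0 : 0 < g := by linarith
      refine ⟨min β (g / (2 * ((M + 1 : ℕ) : ℝ))), by positivity, fun l hl hle hkl hlr => ?_⟩
      rcases Nat.lt_or_ge l (M + 1) with hlt | hge
      · have h2 := h l (by omega) hle hkl hlr
        have h3 : min β (g / (2 * ((M + 1 : ℕ) : ℝ))) ≤ β := min_le_left _ _
        have h4 : (0 : ℝ) ≤ l := Nat.cast_nonneg _
        nlinarith
      · have hlM : l = M + 1 := by omega
        subst hlM
        have h3 : min β (g / (2 * ((M + 1 : ℕ) : ℝ))) ≤ g / (2 * ((M + 1 : ℕ) : ℝ)) :=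
          min_le_right _ _
        have h4 : ((M + 1 : ℕ) : ℝ) * min β (g / (2 * ((M + 1 : ℕ) : ℝ))) ≤ g / 2 := by
          calc ((M + 1 : ℕ) : ℝ) * min β (g / (2 * ((M + 1 : ℕ) : ℝ)))
              ≤ ((M + 1 : ℕ) : ℝ) * (g / (2 * ((M + 1 : ℕ) : ℝ))) := by gcongr
            _ = g / 2 := by field_simp
        rw [mul_sub]
        linarith
    · refine ⟨β, hβ, fun l hl hle hkl hlr => ?_⟩
      have : l ≤ M := by
        by_contra hcon
        have : l = M + 1 := by omega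
        subst this
        exact hc ⟨hle, hkl, hlr⟩
      exact h l this hle hkl hlr

theorem lemmaK2 {k r : ℕ} (hG : Good k r) (hk11 : 11 ≤ k)
    (h1 : ∀ l : ℕ, Even l → k ≤ l → (r - 1) ^ (l - k + 1) < (l - 1) ^ ((k - 1) * (l - 1)))
    (hP : ∀ l : ℕ, Even l → k ≤ l → palProd r (l - 1) ^ (k - 1) < r ^ (l * (k - 2))) :
    ∃ ε0 > 0, ∀ ε : ℝ, 0 < ε → ε ≤ ε0 →
    ∀ (I ι : Type) [Fintype I] [DecidableEq I] [Fintype ι] [DecidableEq ι] (S : LS k r I ι)
      (w : I → ℝ), (∀ i, 0 ≤ w i) → ∑ i, w i = 1 → (∀ i, TT k r - ε ≤ S.D w i) →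
      S.Conc w (((k : ℝ) - 1) * ε / Real.log (3 / 2)) := by
  obtain ⟨ε1, hε1, M, hA⟩ := analysis2 hG hk11 h1
  obtain ⟨x, e0, hx37, hxR, -, -, -, -, hx4, -, -⟩ := exists_x2 hG hk11 h1
  have hk : 4 ≤ k := hG.hk
  have hkR : (11 : ℝ) ≤ k := by exact_mod_cast hk11
  have hr : 1 ≤ r := by have := num2 hG; omega
  have hrR : (0 : ℝ) < r := by exact_mod_cast hr
  obtain ⟨β, hβ, hβ2⟩ := XK_beta hk hr hP M
  have hBR : (4 : ℝ) ≤ ((k.choose 2 - 2 : ℕ) : ℝ) := by
    have h6 : 6 ≤ k.choose 2 := by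
      calc 6 = Nat.choose 4 2 := by decide
        _ ≤ k.choose 2 := Nat.choose_le_choose 2 hk
    have : 4 ≤ k.choose 2 - 2 := by omega
    exact_mod_cast this
  have hkap : 0 < kap k r := by
    unfold kap
    have := Real.exp_pos 1
    positivity
  have hk1 : 0 < (k : ℝ) - 1 := by linarith
  have hsq : 0 < Real.sqrt r := Real.sqrt_pos.2 hrR
  refine ⟨min (1 / (k : ℝ)) (min (ε1 / ((k : ℝ) - 1)) (min (kap k r / (2 * ((k : ℝ) - 1)))
    (min β (min ε1 (0.05 / Real.sqrt r))))), by positivity, ?_⟩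
  intro ε hε hεle I ι _ _ _ _ S w hw0 hw1 hD
  have he1 : ε ≤ 1 / (k : ℝ) := hεle.trans (min_le_left _ _)
  have hr2 := hεle.trans (min_le_right _ _)
  have he2 : ((k : ℝ) - 1) * ε ≤ ε1 := by
    have := hr2.trans (min_le_left _ _)
    rw [le_div_iff₀ hk1] at this; linarith
  have hr3 := hr2.trans (min_le_right _ _)
  have he3 : ((k : ℝ) - 1) * ε ≤ kap k r / 2 := by
    have := hr3.trans (min_le_left _ _)
    rw [le_div_iff₀ (by linarith)] at this; linarith
  have hr4 := hr3.trans (min_le_right _ _)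
  have he4 : ε ≤ β := hr4.trans (min_le_left _ _)
  have hr5 := hr4.trans (min_le_right _ _)
  have he5 : ε ≤ ε1 := hr5.trans (min_le_left _ _)
  have he6 : ε ≤ 0.05 / Real.sqrt r := hr5.trans (min_le_right _ _)
  by_contra hnc
  have htri := tri_disj hG S w hw0 hw1 ε hε he1 hD hnc
  have hx := xdeg_lb hG S w hw0 hw1 ε hε hD htri
  have hone := onePart hG S w hw0 hw1 ε hε htri hx
  have hV1 : TT k r - ε ≤ ∑ i, w i * S.D w i := by
    calc TT k r - ε = ∑ i, w i * (TT k r - ε) := by rw [← Finset.sum_mul, hw1, one_mul]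
      _ ≤ ∑ i, w i * S.D w i :=
        Finset.sum_le_sum fun i _ => mul_le_mul_of_nonneg_left (hD i) (hw0 i)
  have hθ0 : 0 ≤ ((k : ℝ) - 1) * ε := by positivity
  have hkr : Real.exp 1 * ((k.choose 2 - 2 : ℕ) : ℝ) ≤ kap k r * r := by
    unfold kap; rw [div_mul_cancel₀ _ hrR.ne']
  obtain ⟨S0, heven, hkS, hSM, hSr, hS1, hS2, hphi⟩ := hA ε (((k : ℝ) - 1) * ε) hε.le he5 hθ0 he2 ι
    (S.W w) _ (XK_W_nonneg S w hw0)
    (by rw [XK_W_sum, hw1]) hV1
    (V_le_phi hG S w hw0 hw1 _ _ hone (by linarith) hkap hkr)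
    (fun S0 hodd hr' m hm0 hm => V_le_odd hG S w hw0 hw1 _ hθ0 hone S0 hodd hr' m hm0 hm)
  -- all vertices lie in large parts
  have hcov : ∀ i, S.part i ∈ S0 := by
    intro z
    by_contra hz
    have hg := V_le_gap hG hk11 S w hw0 hw1 _ _ hone he3 hkap hkr z (hS2 _ hz) ε
      (by
        refine he1.trans ?_
        rw [div_le_one (by linarith)]
        linarith) hD
    have h10 : 1 / (r : ℝ) ≤ 0.1 / Real.sqrt r := by
      have h11 : (10 : ℝ) ≤ Real.sqrt r := by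
        refine le_trans ?_ hx4
        have : (37 : ℝ) ^ 4 ≤ x ^ 4 := pow_le_pow_left₀ (by norm_num) hx37 4
        linarith
      rw [div_le_div_iff₀ hrR hsq]
      have h12 : Real.sqrt r * Real.sqrt r = r := Real.mul_self_sqrt hrR.le
      nlinarith
    have h13 : (0.2 : ℝ) / Real.sqrt r = 0.1 / Real.sqrt r + 0.05 / Real.sqrt r +
        0.05 / Real.sqrt r := by
      rw [← add_div, ← add_div]
      norm_num
    have h14 : 0 < (0.05 : ℝ) / Real.sqrt r := by positivity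
    linarith
  have hp := pal_le hG S w hw0 hw1 _ hone S0 hcov ε1 hε1 he2 hS1 (by omega) hSr (TT k r - ε) hD
  have hSr1 : S0.card - 1 ≤ r := by
    have h3 : 1 ≤ k.choose 2 := Nat.choose_pos (by omega)
    have : S0.card ≤ 3 * k.choose 2 * S0.card := Nat.le_mul_of_pos_left _ (by omega)
    omega
  have hb := hβ2 S0.card hSM heven hkS hSr1
  have hS0 : (0 : ℝ) ≤ S0.card := Nat.cast_nonneg _
  nlinarith

end MP2ab38c
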