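import Pool.Agent.Lib.MP_2ab38c_co.KExt
import Pool.Agent.Lib.MP_2ab38c_co.KDeg
import Pool.Agent.Lib.MP_2ab38c_co.KPart
import Pool.Agent.Lib.MP_2ab38c_co.KDj
import Pool.Agent.Lib.MP_2ab38c_co.KOdd
import Pool.Agent.Lib.MP_2ab38c_co.AMain
import Pool.Agent.Lib.MP_2ab38c_co.XK

/-!
Lemma K: an exact cherry-free list structure all of whose weighted degrees are at least `T - ε`
has at most `k-1` parts carrying almost all of the weight.
-/

namespace MP2ab38c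

open Finset

lemma W_nonneg {k r : ℕ} {I ι : Type} [Fintype I] [DecidableEq ι] (S : LS k r I ι) (w : I → ℝ)
    (hw0 : ∀ i, 0 ≤ w i) (X : ι) : 0 ≤ S.W w X := by
  unfold LS.W
  exact Finset.sum_nonneg fun i _ => by split_ifs <;> simp [hw0]

lemma W_sum {k r : ℕ} {I ι : Type} [Fintype I] [Fintype ι] [DecidableEq ι] (S : LS k r I ι)
    (w : I → ℝ) : ∑ X, S.W w X = ∑ i, w i := by
  unfold LS.W
  rw [Finset.sum_comm]
  simp

theorem lemmaK1 {k r : ℕ} (hG : Good k r)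
    (hF : ∀ l : ℕ, Even l → k ≤ l → r ^ (l - k + 1) < (l - 1) ^ ((k - 1) * (l - 1))) :
    ∃ ε0 > 0, ∀ ε : ℝ, 0 < ε → ε ≤ ε0 →
    ∀ (I ι : Type) [Fintype I] [DecidableEq I] [Fintype ι] [DecidableEq ι] (S : LS k r I ι)
      (w : I → ℝ), (∀ i, 0 ≤ w i) → ∑ i, w i = 1 → (∀ i, TT k r - ε ≤ S.D w i) →
      S.Conc w (((k : ℝ) - 1) * ε / Real.log (3 / 2)) := by
  obtain ⟨ε1, hε1, hA⟩ := analysis hG hF
  have hk : 4 ≤ k := hG.hk
  have hkR : (4 : ℝ) ≤ k := by exact_mod_cast hk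
  have hr : 0 < r := by have := num2 hG; omega
  have hrR : (0 : ℝ) < r := by exact_mod_cast hr
  have hB : 4 ≤ k.choose 2 - 2 := by
    have h6 : 6 ≤ k.choose 2 := by
      calc 6 = Nat.choose 4 2 := by decide
        _ ≤ k.choose 2 := Nat.choose_le_choose 2 hk
    omega
  have hBR : (4 : ℝ) ≤ ((k.choose 2 - 2 : ℕ) : ℝ) := by exact_mod_cast hB
  have hkap : 0 < kap k r := by unfold kap; positivity
  refine ⟨min (1 / (k : ℝ)) (min (ε1 / ((k : ℝ) - 1)) (kap k r / ((k : ℝ) - 1))), ?_, ?_⟩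
  · have : 0 < (k : ℝ) - 1 := by linarith
    positivity
  intro ε hε hεle I ι _ _ _ _ S w hw0 hw1 hD
  have hk1 : 0 < (k : ℝ) - 1 := by linarith
  have he1 : ε ≤ 1 / (k : ℝ) := hεle.trans (min_le_left _ _)
  have he2 : ((k : ℝ) - 1) * ε ≤ ε1 := by
    have := hεle.trans ((min_le_right _ _).trans (min_le_left _ _))
    rw [le_div_iff₀ hk1] at this; linarith
  have he3 : ((k : ℝ) - 1) * ε ≤ kap k r := by
    have := hεle.trans ((min_le_right _ _).trans (min_le_right _ _))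
    rw [le_div_iff₀ hk1] at this; linarith
  by_contra hnc
  have htri := tri_disj hG S w hw0 hw1 ε hε he1 hD hnc
  have hx := xdeg_lb hG S w hw0 hw1 ε hε hD htri
  have hone := onePart hG S w hw0 hw1 ε hε htri hx
  have hV1 : TT k r - ε ≤ ∑ i, w i * S.D w i := by
    calc TT k r - ε = ∑ i, w i * (TT k r - ε) := by rw [← Finset.sum_mul, hw1, one_mul]
      _ ≤ ∑ i, w i * S.D w i :=
        Finset.sum_le_sum fun i _ => mul_le_mul_of_nonneg_left (hD i) (hw0 i)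
  have hθ0 : 0 ≤ ((k : ℝ) - 1) * ε := by positivity
  have hkr : Real.exp 1 * ((k.choose 2 - 2 : ℕ) : ℝ) ≤ kap k r * r := by
    unfold kap; rw [div_mul_cancel₀ _ hrR.ne']
  refine hA ε (((k : ℝ) - 1) * ε) hε.le ?_ hθ0 he2 ι (S.W w) _ (W_nonneg S w hw0)
    (by rw [W_sum, hw1]) hV1
    (V_le_phi hG S w hw0 hw1 _ _ hone he3 hkap hkr)
    (fun S0 hodd hr' m hm0 hm => V_le_odd hG S w hw0 hw1 _ hθ0 hone S0 hodd hr' m hm0 hm)
  nlinarith

/-- Lemma K -/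
theorem lemmaK {k r : ℕ} (hG : Good k r) : ∃ ε0 > 0, ∀ ε : ℝ, 0 < ε → ε ≤ ε0 →
    ∀ (I ι : Type) [Fintype I] [DecidableEq I] [Fintype ι] [DecidableEq ι] (S : LS k r I ι)
      (w : I → ℝ), (∀ i, 0 ≤ w i) → ∑ i, w i = 1 → (∀ i, TT k r - ε ≤ S.D w i) →
      S.Conc w (((k : ℝ) - 1) * ε / Real.log (3 / 2)) := by
  rcases hG.hF with h | ⟨h11, h1, hP⟩
  · exact lemmaK1 hG h
  · exact lemmaK2 hG h11 h1 hP

end MP2ab38c
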