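import Pool.Agent.Lib.MP_2ab38c_co.Core

/-!
JOB KNum.  Elementary numeric consequences of `Good k r`.  Write `R = log r`,
`B1 = C(k,2) - 2` (so `B1 = 4, 8, 13, 19, ...` for `k = 4, 5, 6, 7`).  Useful: `B1 ≤ (k-2)^2`
(because `(k-3)(k-4) ≥ 0`), `B1 ≤ 2^(k-2)`, and by `hR`,
`R ≥ (k-1)(1 + log 2.6 + log (k-2))`, `log 2.6 > 0.955`, `log 2 < 0.6932`.
num3: `2R/(k-1) ≥ 2 + 2 log 2.6 + 2 log(k-2) ≥ 1 + log B1`.  num6: for `k = 4` it is an equality
(`log 4 + 2 = 2 (log 2 + 1)`); in general `log B1 ≤ (k-2) log 2` and `2 ≤ k-2`.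
num2: `r = exp R ≥ (2.7 * 2.6 * (k-2))^(k-1)`, or use `Real.add_one_le_exp`, powers etc.
-/

namespace MP2ab38c

open Finset

private theorem KNum_choose_le (k : ℕ) (hk : 4 ≤ k) : k.choose 2 - 2 ≤ 2 ^ (k - 2) := by
  obtain ⟨m, rfl⟩ := Nat.exists_eq_add_of_le hk
  have key : ∀ m : ℕ, (4 + m).choose 2 ≤ 2 ^ (m + 2) + 2 ∧ 4 + m ≤ 2 ^ (m + 2) := by
    intro m
    induction m with
    | zero => exact ⟨by decide, by norm_num⟩
    | succ m ih =>
      have h1 : (4 + (m + 1)).choose 2 = (4 + m).choose 1 + (4 + m).choose 2 := by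
        rw [show 4 + (m + 1) = (4 + m) + 1 by ring, Nat.choose_succ_succ']
      have h2 : 2 ^ (m + 1 + 2) = 2 * 2 ^ (m + 2) := by ring
      rw [h1, h2, Nat.choose_one_right]
      constructor <;> omega
  have h := (key m).1
  have h3 : 4 + m - 2 = m + 2 := by omega
  have h5 : 0 < 2 ^ (m + 2) := by positivity
  rw [h3]
  omega

private theorem KNum_B1_pos (k : ℕ) (hk : 4 ≤ k) : (4 : ℝ) ≤ ((k.choose 2 - 2 : ℕ) : ℝ) := by
  have h1 : (4 : ℕ).choose 2 ≤ k.choose 2 := Nat.choose_le_choose 2 hk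
  have h2 : (4 : ℕ).choose 2 = 6 := by decide
  have : 4 ≤ k.choose 2 - 2 := by omega
  exact_mod_cast this

private theorem KNum_B1_sq (k : ℕ) (hk : 4 ≤ k) :
    ((k.choose 2 - 2 : ℕ) : ℝ) ≤ ((k : ℝ) - 2) ^ 2 := by
  have h1 : (4 : ℕ).choose 2 ≤ k.choose 2 := Nat.choose_le_choose 2 hk
  have h2 : (4 : ℕ).choose 2 = 6 := by decide
  have hkr : (4 : ℝ) ≤ k := by exact_mod_cast hk
  rw [Nat.cast_sub (by omega), Nat.cast_choose_two]
  push_cast
  nlinarith

private theorem KNum_log_B1 (k : ℕ) (hk : 4 ≤ k) :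
    Real.log ((k.choose 2 - 2 : ℕ) : ℝ) ≤ 2 * Real.log ((k : ℝ) - 2) := by
  have h4 := KNum_B1_pos k hk
  have h := Real.log_le_log (by linarith) (KNum_B1_sq k hk)
  rw [Real.log_pow] at h
  push_cast at h
  exact h

private theorem KNum_log26 : (0.95 : ℝ) < Real.log 2.6 := by
  have h1 : Real.log 2.6 = Real.log 2 + Real.log 1.3 := by
    rw [← Real.log_mul (by norm_num) (by norm_num)]; norm_num
  have h2 : (0.26 : ℝ) < Real.log 1.3 := by
    have h3 : Real.log 1.3 = 2 * Real.log (Real.sqrt 1.3) := by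
      rw [Real.log_sqrt (by norm_num)]; ring
    rw [Real.lt_log_iff_exp_lt (by norm_num)]
    have h4 := Real.exp_bound' (x := 0.26) (by norm_num) (by norm_num) (n := 4) (by norm_num)
    refine lt_of_le_of_lt h4 ?_
    norm_num [Finset.sum_range_succ, Nat.factorial]
  have h3 := Real.log_two_gt_d9
  rw [h1]
  linarith

private theorem KNum_u (k : ℕ) (hk : 4 ≤ k) : Real.log 2 ≤ Real.log ((k : ℝ) - 2) := by
  have hkr : (4 : ℝ) ≤ k := by exact_mod_cast hk
  exact Real.log_le_log (by norm_num) (by linarith)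

/-- the basic lower bound -/
private theorem KNum_R {k r : ℕ} (h : Good k r) :
    1.95 + Real.log ((k : ℝ) - 2) ≤ Real.log r / ((k : ℝ) - 1) := by
  have hkr : (4 : ℝ) ≤ k := by exact_mod_cast h.hk
  rw [le_div_iff₀ (by linarith)]
  have h1 := h.hR
  rw [Real.log_mul (by norm_num) (by linarith)] at h1
  have h2 := KNum_log26
  have h3 : (1.95 + Real.log ((k : ℝ) - 2)) * ((k : ℝ) - 1) ≤
      ((k : ℝ) - 1) * (1 + (Real.log 2.6 + Real.log ((k : ℝ) - 2))) := by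
    nlinarith
  linarith

private theorem KNum_R3 {k r : ℕ} (h : Good k r) :
    3 * (1.95 + Real.log ((k : ℝ) - 2)) ≤ Real.log r := by
  have hkr : (4 : ℝ) ≤ k := by exact_mod_cast h.hk
  have h1 := KNum_R h
  rw [le_div_iff₀ (by linarith)] at h1
  have h2 := KNum_u k h.hk
  have h3 := Real.log_two_gt_d9
  nlinarith

theorem num1 {k r : ℕ} (h : Good k r) :
    2 * Real.log ((k.choose 2 - 2 : ℕ) : ℝ) + Real.log (3 / 2) ≤ Real.log r := by
  have hkr : (4 : ℝ) ≤ k := by exact_mod_cast h.hk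
  have h1 := KNum_log_B1 k h.hk
  have h2 := KNum_R h
  rw [le_div_iff₀ (by linarith)] at h2
  have h3 := KNum_u k h.hk
  have h4 := Real.log_two_gt_d9
  have h5 : Real.log (3 / 2) ≤ 1 / 2 := by
    have := Real.log_le_sub_one_of_pos (show (0 : ℝ) < 3 / 2 by norm_num)
    linarith
  rcases Nat.lt_or_ge k 5 with hk | hk
  · have hk4 : k = 4 := by have := h.hk; omega
    subst hk4
    have h6 : Real.log (((4 : ℕ) : ℝ) - 2) = Real.log 2 := by norm_num
    rw [h6] at h1 h2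
    have h7 := Real.log_two_lt_d9
    push_cast at h2
    linarith
  · have hk5 : (5 : ℝ) ≤ k := by exact_mod_cast hk
    nlinarith

theorem num2 {k r : ℕ} (h : Good k r) : 3 * k.choose 2 + 9 ≤ r := by
  have hkr : (4 : ℝ) ≤ k := by exact_mod_cast h.hk
  have h1 := KNum_R3 h
  have h3 := KNum_u k h.hk
  have h4 := Real.log_two_gt_d9
  have hr0 : r ≠ 0 := by
    rintro rfl
    rw [Nat.cast_zero, Real.log_zero] at h1
    linarith
  have hrpos : (0 : ℝ) < r := by exact_mod_cast Nat.pos_of_ne_zero hr0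
  have h100 : Real.log 100 ≤ 5.85 := by
    have e1 : Real.log 100 ≤ Real.log ((2 : ℝ) ^ 7) := Real.log_le_log (by norm_num) (by norm_num)
    rw [Real.log_pow] at e1
    have e2 := Real.log_two_lt_d9
    push_cast at e1
    linarith
  have hlog : Real.log (100 * ((k : ℝ) - 2) ^ 3) ≤ Real.log r := by
    rw [Real.log_mul (by norm_num) (by positivity [show (0:ℝ) < (k : ℝ) - 2 by linarith]),
      Real.log_pow]
    push_cast
    linarith
  have hle : 100 * ((k : ℝ) - 2) ^ 3 ≤ r := by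
    have hpos : (0 : ℝ) < 100 * ((k : ℝ) - 2) ^ 3 := by
      have : (0 : ℝ) < (k : ℝ) - 2 := by linarith
      positivity
    exact (Real.log_le_log_iff hpos hrpos).1 hlog
  have hfin : ((3 * k.choose 2 + 9 : ℕ) : ℝ) ≤ r := by
    push_cast
    rw [Nat.cast_choose_two]
    have hv : (2 : ℝ) ≤ (k : ℝ) - 2 := by linarith
    have e1 : 3 * ((k : ℝ) * ((k : ℝ) - 1) / 2) + 9 ≤ 100 * ((k : ℝ) - 2) ^ 3 := by
      set v : ℝ := (k : ℝ) - 2 with hvdef
      have hk' : (k : ℝ) = v + 2 := by rw [hvdef]; ring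
      rw [hk']
      nlinarith [mul_nonneg (by linarith : (0:ℝ) ≤ v - 2) (by positivity : (0:ℝ) ≤ v ^ 2),
        mul_nonneg (by linarith : (0:ℝ) ≤ v - 2) (by linarith : (0:ℝ) ≤ v)]
    linarith
  exact_mod_cast hfin

theorem num3 {k r : ℕ} (h : Good k r) :
    Real.log ((k.choose 2 - 2 : ℕ) : ℝ) + 1 ≤ 2 * Real.log r / ((k : ℝ) - 1) := by
  have h1 := KNum_log_B1 k h.hk
  have h2 := KNum_R h
  rw [mul_div_assoc]
  linarith

theorem num4 {k r : ℕ} (h : Good k r) : Real.log 2 + 1 ≤ Real.log r / ((k : ℝ) - 1) := by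
  have h2 := KNum_R h
  have h3 := KNum_u k h.hk
  linarith

theorem num5 {k r : ℕ} (h : Good k r) :
    Real.log 2 + 4 + Real.log ((k.choose 2 - 2 : ℕ) : ℝ) ≤ Real.log r := by
  have h1 := KNum_log_B1 k h.hk
  have h2 := KNum_R3 h
  have h3 := KNum_u k h.hk
  have h4 := Real.log_two_gt_d9
  linarith

theorem num6 {k : ℕ} (hk : 4 ≤ k) :
    Real.log ((k.choose 2 - 2 : ℕ) : ℝ) + 2 ≤ ((k : ℝ) - 2) * (Real.log 2 + 1) := by
  have hkr : (4 : ℝ) ≤ k := by exact_mod_cast hk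
  have h4 := KNum_B1_pos k hk
  have h1 : ((k.choose 2 - 2 : ℕ) : ℝ) ≤ (2 : ℝ) ^ (k - 2) := by
    exact_mod_cast KNum_choose_le k hk
  have h2 := Real.log_le_log (by linarith) h1
  have h3 : ((k - 2 : ℕ) : ℝ) = (k : ℝ) - 2 := by
    rw [Nat.cast_sub (by omega)]
    norm_num
  rw [Real.log_pow, h3] at h2
  linarith

end MP2ab38c
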