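import Pool.Agent.Lib.MP_2ab38c_co.MLow

/-!
JOB MClean.  Stability for unweighted structures.

Proof.  Let `T = TT k r`, `m = |I|`, `tot(J) = ∑_{i,j ∈ J} ell i j`.  Given `ζ` choose `ε > 0`
small (`2ε ≤ ε0` of `lemmaK`, `2 (k-1) ε / log (3/2) ≤ ζ/2`), then `δ = ε ζ/8` or so.  Choose
`J ⊆ I` maximising `f(J) = tot(J) - (T-ε)|J|^2`.  As `f(J) ≥ f(I) ≥ (ε-δ) m^2` and
`tot(J) ≤ T |J|(|J|+1)` (`tot_le` for `S.comap Subtype.val`), `ε |J|^2 + T |J| ≥ (ε-δ) m^2`, so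
`|J| ≥ (1-ζ/2) m` for `m ≥ m0`.  For `i ∈ J`, `f(J) ≥ f(J \ {i})` gives
`2 d_i(J) ≥ (T-ε)(2|J|-1)`, so `d_i(J) ≥ (T - 2ε)|J|` if `|J| ≥ T/(2ε)`.  Apply `lemmaK` with `2ε`
and the uniform weight on `J`.
-/

namespace MP2ab38c

open Finset

private theorem MClean_ell_symm {k r : ℕ} {I ι : Type} [DecidableEq ι] (S : LS k r I ι)
    (i j : I) : S.ell i j = S.ell j i := by
  unfold LS.ell ellF
  rw [Sym2.eq_swap]
  by_cases h : S.part i = S.part j
  · rw [if_pos h, if_pos h.symm]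
  · rw [if_neg h, if_neg (Ne.symm h)]

private theorem MClean_ell_self {k r : ℕ} {I ι : Type} [DecidableEq ι] (S : LS k r I ι)
    (i : I) : S.ell i i = 0 := by
  unfold LS.ell ellF
  rw [if_pos rfl]

private theorem MClean_comap {k r : ℕ} {I ι : Type} [DecidableEq ι] (S : LS k r I ι)
    (J : Finset I) (i j : {x // x ∈ J}) :
    (S.comap (Subtype.val : {x // x ∈ J} → I)).ell i j = S.ell i.1 j.1 := by
  unfold LS.ell ellF LS.comap
  rfl

/-- removing a vertex -/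
private theorem MClean_erase {k r : ℕ} {I ι : Type} [DecidableEq I] [DecidableEq ι]
    (S : LS k r I ι) (J : Finset I) (i : I) (hi : i ∈ J) :
    ∑ a ∈ J, ∑ b ∈ J, S.ell a b =
      ∑ a ∈ J.erase i, ∑ b ∈ J.erase i, S.ell a b + 2 * ∑ b ∈ J, S.ell i b := by
  have h1 : ∀ a, ∑ b ∈ J, S.ell a b = S.ell a i + ∑ b ∈ J.erase i, S.ell a b := fun a =>
    (Finset.add_sum_erase J _ hi).symm
  have h2 : ∑ a ∈ J.erase i, S.ell a i = ∑ b ∈ J, S.ell i b := by
    rw [h1 i, MClean_ell_self, zero_add]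
    exact Finset.sum_congr rfl fun a _ => MClean_ell_symm S a i
  rw [← Finset.add_sum_erase J _ hi, Finset.sum_congr rfl fun a _ => h1 a,
    Finset.sum_add_distrib, h2]
  ring

private theorem MClean_tot {k r : ℕ} (hG : Good k r) {I ι : Type} [Fintype I] [DecidableEq I]
    [Fintype ι] [DecidableEq ι] (S : LS k r I ι) (J : Finset I) :
    ∑ a ∈ J, ∑ b ∈ J, S.ell a b ≤ TT k r * J.card * (J.card + 1) := by
  have h1 := tot_le hG (S.comap (Subtype.val : {x // x ∈ J} → I))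
  simp only [MClean_comap, Fintype.card_coe] at h1
  have h2 : ∑ i : {x // x ∈ J}, ∑ j : {x // x ∈ J}, S.ell i.1 j.1 =
      ∑ a ∈ J, ∑ b ∈ J, S.ell a b := by
    rw [← Finset.sum_coe_sort J]
    refine Finset.sum_congr rfl fun a _ => ?_
    rw [← Finset.sum_coe_sort J]
  rw [← h2]
  exact h1

/-- the case of `ζ ≤ 1` -/
private theorem MClean_aux {k r : ℕ} (hG : Good k r) (ζ : ℝ) (hζ : 0 < ζ) (hζ1 : ζ ≤ 1) :
    ∃ δ > 0, ∃ m0 : ℕ,
    ∀ (I ι : Type) [Fintype I] [DecidableEq I] [Fintype ι] [DecidableEq ι] (S : LS k r I ι),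
      m0 ≤ Fintype.card I → (TT k r - δ) * (Fintype.card I : ℝ) ^ 2 ≤ ∑ i, ∑ j, S.ell i j →
      ∃ Q : Finset ι, Q.card ≤ k - 1 ∧
        (1 - ζ) * (Fintype.card I : ℝ) ≤ (#{i | S.part i ∈ Q} : ℝ) := by
  classical
  obtain ⟨ε0, hε0, hK⟩ := lemmaK hG
  have hk : 4 ≤ k := hG.hk
  have hkR : (4 : ℝ) ≤ k := by exact_mod_cast hk
  have hk1 : 0 < (k : ℝ) - 1 := by linarith
  have hl : 0 < Real.log (3 / 2) := Real.log_pos (by norm_num)
  have hT : 0 ≤ TT k r := by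
    unfold TT
    have h1 : 0 ≤ (k : ℝ) - 2 := by linarith
    exact mul_nonneg (div_nonneg h1 hk1.le) (Real.log_natCast_nonneg r)
  obtain ⟨ε, hε, hε1, hε2⟩ : ∃ ε : ℝ, 0 < ε ∧ 2 * ε ≤ ε0 ∧
      ((k : ℝ) - 1) * (2 * ε) / Real.log (3 / 2) ≤ ζ / 2 := by
    refine ⟨min (ε0 / 2) (ζ * Real.log (3 / 2) / (4 * ((k : ℝ) - 1))), by positivity, ?_, ?_⟩
    · have := min_le_left (ε0 / 2) (ζ * Real.log (3 / 2) / (4 * ((k : ℝ) - 1)))
      linarith
    · have h1 := min_le_right (ε0 / 2) (ζ * Real.log (3 / 2) / (4 * ((k : ℝ) - 1)))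
      rw [le_div_iff₀ (by positivity)] at h1
      rw [div_le_iff₀ hl]
      linarith
  obtain ⟨m0, hm0⟩ := exists_nat_ge (4 * TT k r / (ε * ζ) + 1)
  refine ⟨ε * ζ / 4, by positivity, m0, ?_⟩
  intro I ι _ _ _ _ S hI htot
  set m : ℝ := (Fintype.card I : ℝ) with hm
  have hmm0 : (m0 : ℝ) ≤ m := by
    rw [hm]
    exact_mod_cast hI
  have hm1 : 4 * TT k r / (ε * ζ) + 1 ≤ m := hm0.trans hmm0
  have hfrac : 0 ≤ 4 * TT k r / (ε * ζ) := by positivity
  have hmpos : 0 < m := by linarith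
  have hTm : 4 * TT k r ≤ ε * ζ * m := by
    have h1 : 4 * TT k r / (ε * ζ) ≤ m := by linarith
    rw [div_le_iff₀ (by positivity)] at h1
    linarith
  -- the maximiser
  let f : Finset I → ℝ := fun J => ∑ a ∈ J, ∑ b ∈ J, S.ell a b - (TT k r - ε) * (J.card : ℝ) ^ 2
  obtain ⟨J, -, hJ⟩ := Finset.exists_max_image (Finset.univ : Finset (Finset I)) f
    ⟨∅, Finset.mem_univ _⟩
  have hJm : (J.card : ℝ) ≤ m := by
    rw [hm]
    exact_mod_cast Finset.card_le_univ J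
  have hJ0 : (0 : ℝ) ≤ J.card := Nat.cast_nonneg _
  -- the size of `J`
  have hsize : (1 - ζ / 2) * m ≤ J.card := by
    by_contra hcon
    push Not at hcon
    have h1 := hJ Finset.univ (Finset.mem_univ _)
    have h2 := MClean_tot hG S J
    simp only [f] at h1
    rw [Finset.card_univ] at h1
    have h3 : ε * (J.card : ℝ) ^ 2 + TT k r * J.card ≥ (ε - ε * ζ / 4) * m ^ 2 := by
      nlinarith
    have h4 : (J.card : ℝ) ^ 2 ≤ (1 - ζ / 2) * m ^ 2 := by
      have h5 : 0 ≤ 1 - ζ / 2 := by linarith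
      have h6 : (J.card : ℝ) * J.card ≤ ((1 - ζ / 2) * m) * m := by
        exact mul_le_mul hcon.le hJm hJ0 (by positivity)
      calc (J.card : ℝ) ^ 2 = J.card * J.card := sq _
        _ ≤ ((1 - ζ / 2) * m) * m := h6
        _ = _ := by ring
    have h7 : TT k r * J.card < TT k r * m ∨ TT k r * J.card ≤ TT k r * m := Or.inr (by gcongr)
    have h8 : TT k r * J.card ≤ TT k r * m := by gcongr
    have h9 : ε * (J.card : ℝ) ^ 2 ≤ ε * ((1 - ζ / 2) * m ^ 2) := by gcongr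
    have h10 : (ε - ε * ζ / 4) * m ^ 2 ≤ ε * ((1 - ζ / 2) * m ^ 2) + TT k r * m := by linarith
    have h11 : ε * ζ / 4 * m ^ 2 ≤ TT k r * m := by nlinarith
    -- strictness comes from the `+ 1`
    have h12 : 4 * TT k r < ε * ζ * m := by
      have h13 : 4 * TT k r / (ε * ζ) < m := by linarith
      rw [div_lt_iff₀ (by positivity)] at h13
      linarith
    nlinarith
  have hJhalf : m / 2 ≤ J.card := by nlinarith
  have hJpos : (0 : ℝ) < J.card := by linarith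
  have hJne : J.card ≠ 0 := by
    intro h
    rw [h, Nat.cast_zero] at hJpos
    exact lt_irrefl _ hJpos
  -- degrees in `J`
  have hdeg : ∀ i ∈ J, (TT k r - 2 * ε) * J.card ≤ ∑ b ∈ J, S.ell i b := by
    intro i hi
    have h1 := hJ (J.erase i) (Finset.mem_univ _)
    simp only [f] at h1
    rw [MClean_erase S J i hi, Finset.card_erase_of_mem hi, Nat.cast_sub (by omega),
      Nat.cast_one] at h1
    have h2 : TT k r ≤ 2 * ε * J.card := by
      have h3 : ε * ζ * m ≤ ε * 1 * m := by gcongr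
      have h4 : 2 * ε * (m / 2) ≤ 2 * ε * J.card := by gcongr
      have h5 : 0 ≤ ε * m := by positivity
      linarith
    nlinarith
  -- apply Lemma K on `J`
  have hconc := hK (2 * ε) (by positivity) hε1 {x // x ∈ J} ι
    (S.comap (Subtype.val : {x // x ∈ J} → I)) (fun _ => 1 / (J.card : ℝ))
    (fun _ => by positivity) ?_ ?_
  · obtain ⟨Q, hQ, hQ2⟩ := hconc
    refine ⟨Q, hQ, ?_⟩
    have h1 : ∑ i : {x // x ∈ J}, (if (S.comap (Subtype.val : {x // x ∈ J} → I)).part i ∈ Q then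
        1 / (J.card : ℝ) else 0) = (#(J.filter fun i => S.part i ∈ Q) : ℝ) / J.card := by
      have h2 : ∑ i : {x // x ∈ J}, (if (S.comap (Subtype.val : {x // x ∈ J} → I)).part i ∈ Q then
          1 / (J.card : ℝ) else 0) = ∑ i ∈ J, if S.part i ∈ Q then 1 / (J.card : ℝ) else 0 := by
        rw [← Finset.sum_coe_sort J]
        rfl
      rw [h2, ← Finset.sum_filter, Finset.sum_const, nsmul_eq_mul]
      ring
    rw [h1] at hQ2
    have h3 : 1 - ζ / 2 ≤ (#(J.filter fun i => S.part i ∈ Q) : ℝ) / J.card := by linarith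
    rw [le_div_iff₀ hJpos] at h3
    have h4 : (#(J.filter fun i => S.part i ∈ Q) : ℝ) ≤ (#{i | S.part i ∈ Q} : ℝ) := by
      exact_mod_cast Finset.card_le_card fun i hi => by
        rw [Finset.mem_filter] at hi ⊢
        exact ⟨Finset.mem_univ i, hi.2⟩
    have h5 : (1 - ζ) * m ≤ (1 - ζ / 2) * J.card := by
      have h6 : (1 - ζ / 2) * ((1 - ζ / 2) * m) ≤ (1 - ζ / 2) * J.card :=
        mul_le_mul_of_nonneg_left hsize (by linarith)
      have h7 : 0 ≤ (ζ / 2) ^ 2 * m := by positivity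
      nlinarith
    linarith
  · rw [Finset.sum_const, Finset.card_univ, Fintype.card_coe, nsmul_eq_mul]
    field_simp
  · intro i
    unfold LS.D
    simp only [MClean_comap]
    rw [← Finset.mul_sum]
    have h2 : ∑ j : {x // x ∈ J}, S.ell i.1 j.1 = ∑ b ∈ J, S.ell i.1 b := by
      rw [← Finset.sum_coe_sort J]
    rw [h2]
    have h1 := hdeg i.1 i.2
    rw [one_div, ← div_eq_inv_mul, le_div_iff₀ hJpos]
    exact h1

theorem clean {k r : ℕ} (hG : Good k r) (ζ : ℝ) (hζ : 0 < ζ) : ∃ δ > 0, ∃ m0 : ℕ,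
    ∀ (I ι : Type) [Fintype I] [DecidableEq I] [Fintype ι] [DecidableEq ι] (S : LS k r I ι),
      m0 ≤ Fintype.card I → (TT k r - δ) * (Fintype.card I : ℝ) ^ 2 ≤ ∑ i, ∑ j, S.ell i j →
      ∃ Q : Finset ι, Q.card ≤ k - 1 ∧
        (1 - ζ) * (Fintype.card I : ℝ) ≤ (#{i | S.part i ∈ Q} : ℝ) := by
  obtain ⟨δ, hδ, m0, h⟩ := MClean_aux hG (min ζ 1) (lt_min hζ one_pos) (min_le_right _ _)
  refine ⟨δ, hδ, m0, ?_⟩
  intro I ι _ _ _ _ S hI htot
  obtain ⟨Q, hQ, hQ2⟩ := h I ι S hI htot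
  refine ⟨Q, hQ, le_trans ?_ hQ2⟩
  have h1 : min ζ 1 ≤ ζ := min_le_left _ _
  gcongr

end MP2ab38c
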