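import Pool.Agent.Lib.MP_2ab38c_co.KMain

/-!
JOB MLow.  Unweighted consequences of Lemma K (`lemmaK` in KMain).

`exists_low`.  Suppose all unweighted degrees exceed `T |I|`.  With the uniform weight
`w = 1/|I|`, `D i ≥ T + η` for some `η > 0` and all `i`.  For every small `ε > 0` (`ε ≤ ε0`)
`lemmaK` gives at most `k-1` parts of total weight `≥ 1 - ζ`, `ζ = (k-1)ε/log (3/2)`.  One of them
has weight `≥ (1-ζ)/(k-1)`, and for `i` in it `D i ≤ R (1 - (1-ζ)/(k-1)) = T + R ζ/(k-1)`
(`ell ≤ R`, zero inside a part): contradiction for `ε` small.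
`tot_le`: induction on `|I|`, removing `i0` from `exists_low`:
`tot(I) = tot(I \ i0) + 2 ∑_j ell i0 j ≤ T (n-1) n + 2 T n = T n (n+1)`
(use `S.comap Subtype.val`; `T ≥ 0`).
-/

namespace MP2ab38c

open Finset

lemma MLow_ell_symm {k r : ℕ} {I ι : Type} [DecidableEq ι] (S : LS k r I ι) (i j : I) :
    S.ell i j = S.ell j i := by
  unfold LS.ell ellF
  rw [Sym2.eq_swap (a := i) (b := j)]
  by_cases h : S.part i = S.part j
  · rw [if_pos h, if_pos h.symm]
  · rw [if_neg h, if_neg (fun h' => h h'.symm)]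

lemma MLow_ell_self {k r : ℕ} {I ι : Type} [DecidableEq ι] (S : LS k r I ι) (i : I) :
    S.ell i i = 0 := by
  unfold LS.ell ellF
  simp

lemma MLow_ell_le {k r : ℕ} {I ι : Type} [DecidableEq ι] (S : LS k r I ι) (i j : I) :
    S.ell i j ≤ if S.part j = S.part i then 0 else Real.log r := by
  unfold LS.ell ellF
  by_cases h : S.part i = S.part j
  · rw [if_pos h, if_pos h.symm]
  · rw [if_neg h, if_neg (fun h' => h h'.symm)]
    have hne : (S.L s(i, j)).Nonempty := S.ne i j h
    have h1 : (0 : ℝ) < ((S.L s(i, j)).card : ℝ) := by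
      exact_mod_cast Finset.card_pos.2 hne
    have h2 : ((S.L s(i, j)).card : ℝ) ≤ (r : ℝ) := by
      have := Finset.card_le_univ (S.L s(i, j))
      rw [Fintype.card_fin] at this
      exact_mod_cast this
    exact Real.log_le_log h1 h2

lemma MLow_D_le {k r : ℕ} {I ι : Type} [Fintype I] [DecidableEq ι] (S : LS k r I ι)
    (w : I → ℝ) (hw0 : ∀ i, 0 ≤ w i) (hw1 : ∑ i, w i = 1) (i : I) :
    S.D w i ≤ Real.log r * (1 - S.W w (S.part i)) := by
  unfold LS.D LS.W
  rw [← hw1, ← Finset.sum_sub_distrib, Finset.mul_sum]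
  refine Finset.sum_le_sum fun j _ => ?_
  have h := mul_le_mul_of_nonneg_left (MLow_ell_le S i j) (hw0 j)
  refine h.trans (le_of_eq ?_)
  by_cases hp : S.part j = S.part i
  · simp [hp]
  · simp [hp]; ring

theorem exists_low {k r : ℕ} (hG : Good k r) {I ι : Type} [Fintype I] [DecidableEq I]
    [Nonempty I] [Fintype ι] [DecidableEq ι] (S : LS k r I ι) :
    ∃ i, ∑ j, S.ell i j ≤ TT k r * Fintype.card I := by
  by_contra hcon
  push Not at hcon
  have hk : 4 ≤ k := hG.hk
  have hkR : (4 : ℝ) ≤ k := by exact_mod_cast hk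
  have hk1 : 0 < (k : ℝ) - 1 := by linarith
  have hr9 : 9 ≤ r := by have := num2 hG; omega
  have hrR : (1 : ℝ) < r := by exact_mod_cast (by omega : 1 < r)
  have hR : 0 < Real.log r := Real.log_pos hrR
  have hl : 0 < Real.log (3 / 2) := Real.log_pos (by norm_num)
  have hn : 0 < (Fintype.card I : ℝ) := by exact_mod_cast Fintype.card_pos
  set n : ℝ := (Fintype.card I : ℝ) with hndef
  let w : I → ℝ := fun _ => 1 / n
  have hw0 : ∀ i, 0 ≤ w i := fun i => by positivity
  have hw1 : ∑ i, w i = 1 := by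
    simp only [w, Finset.sum_const, Finset.card_univ, nsmul_eq_mul]
    rw [← hndef]; field_simp
  have hDgt : ∀ i, TT k r < S.D w i := by
    intro i
    have h : S.D w i = (∑ j, S.ell i j) / n := by
      unfold LS.D
      rw [Finset.sum_div]
      refine Finset.sum_congr rfl fun j _ => ?_
      simp only [w]; ring
    rw [h, lt_div_iff₀ hn]
    exact hcon i
  obtain ⟨i1, -, hi1⟩ := Finset.exists_min_image (univ : Finset I) (fun i => S.D w i)
    Finset.univ_nonempty
  set η : ℝ := S.D w i1 - TT k r with hη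
  have hηpos : 0 < η := by have := hDgt i1; rw [hη]; linarith
  have hDη : ∀ i, TT k r + η ≤ S.D w i := by
    intro i
    have := hi1 i (Finset.mem_univ i)
    rw [hη]; linarith
  obtain ⟨ε0, hε0, hK⟩ := lemmaK hG
  -- the choice of ε
  set a : ℝ := η * Real.log (3 / 2) / (2 * Real.log r) with ha
  set b : ℝ := Real.log (3 / 2) / (2 * ((k : ℝ) - 1)) with hb
  have hapos : 0 < a := by positivity
  have hbpos : 0 < b := by positivity
  set ε : ℝ := min ε0 (min a b) with hε
  have hεpos : 0 < ε := lt_min hε0 (lt_min hapos hbpos)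
  have hεa : ε ≤ a := (min_le_right _ _).trans (min_le_left _ _)
  have hεb : ε ≤ b := (min_le_right _ _).trans (min_le_right _ _)
  obtain ⟨Q, hQc, hQ⟩ := hK ε hεpos (min_le_left _ _) I ι S w hw0 hw1
    (fun i => by have := hDη i; linarith)
  set ζ : ℝ := ((k : ℝ) - 1) * ε / Real.log (3 / 2) with hζ
  have hζ1 : ζ ≤ 1 / 2 := by
    rw [hζ, div_le_iff₀ hl]
    have : ((k : ℝ) - 1) * ε ≤ ((k : ℝ) - 1) * b := mul_le_mul_of_nonneg_left hεb hk1.le
    rw [hb] at this
    have h2 : ((k : ℝ) - 1) * (Real.log (3 / 2) / (2 * ((k : ℝ) - 1))) =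
        1 / 2 * Real.log (3 / 2) := by
      field_simp
    linarith
  have hsum : ∑ i, (if S.part i ∈ Q then w i else 0) = ∑ X ∈ Q, S.W w X := by
    unfold LS.W
    rw [Finset.sum_comm]
    refine Finset.sum_congr rfl fun i _ => ?_
    rw [Finset.sum_ite_eq]
  rw [hsum] at hQ
  -- one part has large weight
  have hQne : Q.Nonempty := by
    rw [Finset.nonempty_iff_ne_empty]
    rintro rfl
    simp at hQ
    linarith
  obtain ⟨X, hXQ, hX⟩ : ∃ X ∈ Q, (1 - ζ) / ((k : ℝ) - 1) ≤ S.W w X := by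
    by_contra hno
    push Not at hno
    have h1 : ∑ X ∈ Q, S.W w X < ∑ X ∈ Q, (1 - ζ) / ((k : ℝ) - 1) :=
      Finset.sum_lt_sum_of_nonempty hQne hno
    rw [Finset.sum_const, nsmul_eq_mul] at h1
    have hQc' : (Q.card : ℝ) ≤ (k : ℝ) - 1 := by
      have : ((k - 1 : ℕ) : ℝ) = (k : ℝ) - 1 := by
        rw [Nat.cast_sub (by omega)]; simp
      rw [← this]; exact_mod_cast hQc
    have h2 : (Q.card : ℝ) * ((1 - ζ) / ((k : ℝ) - 1)) ≤
        ((k : ℝ) - 1) * ((1 - ζ) / ((k : ℝ) - 1)) :=
      mul_le_mul_of_nonneg_right hQc' (by have : 0 ≤ 1 - ζ := by linarith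
                                          positivity)
    have h3 : ((k : ℝ) - 1) * ((1 - ζ) / ((k : ℝ) - 1)) = 1 - ζ := by field_simp
    linarith
  have hXpos : 0 < S.W w X := by
    have : 0 < (1 - ζ) / ((k : ℝ) - 1) := by
      have : 0 < 1 - ζ := by linarith
      positivity
    linarith
  obtain ⟨i, hi⟩ : ∃ i, S.part i = X := by
    by_contra hno
    push Not at hno
    have : S.W w X = 0 := by
      unfold LS.W
      exact Finset.sum_eq_zero fun i _ => by rw [if_neg (hno i)]
    linarith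
  have hD1 := MLow_D_le S w hw0 hw1 i
  rw [hi] at hD1
  have hD2 := hDη i
  have hD3 : Real.log r * (1 - S.W w X) ≤ Real.log r * (1 - (1 - ζ) / ((k : ℝ) - 1)) :=
    mul_le_mul_of_nonneg_left (by linarith) hR.le
  have hD4 : Real.log r * (1 - (1 - ζ) / ((k : ℝ) - 1)) =
      TT k r + Real.log r * ε / Real.log (3 / 2) := by
    unfold TT
    rw [hζ]
    field_simp
    ring
  have hD5 : Real.log r * ε / Real.log (3 / 2) ≤ η / 2 := by
    rw [div_le_iff₀ hl]
    have : Real.log r * ε ≤ Real.log r * a := mul_le_mul_of_nonneg_left hεa hR.le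
    rw [ha] at this
    have h2 : Real.log r * (η * Real.log (3 / 2) / (2 * Real.log r)) =
        η / 2 * Real.log (3 / 2) := by
      field_simp
    linarith
  linarith

lemma MLow_tot_aux {k r : ℕ} (hG : Good k r) {ι : Type} [Fintype ι] [DecidableEq ι] (n : ℕ) :
    ∀ (I : Type) [Fintype I] [DecidableEq I] (S : LS k r I ι), Fintype.card I = n →
      ∑ i, ∑ j, S.ell i j ≤ TT k r * n * (n + 1) := by
  induction n with
  | zero =>
    intro I _ _ S hc
    have : IsEmpty I := Fintype.card_eq_zero_iff.1 hc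
    simp
  | succ n ih =>
    intro I _ _ S hc
    have : Nonempty I := Fintype.card_pos_iff.1 (by omega)
    obtain ⟨i0, hi0⟩ := exists_low hG S
    rw [hc] at hi0
    have hcJ : Fintype.card {i : I // i ≠ i0} = n := by
      have := Fintype.card_subtype_compl (fun i : I => i = i0)
      simp only [Fintype.card_unique, hc] at this
      have h0 : n + 1 - 1 = n := by omega
      rw [h0] at this
      exact this
    have hJ := ih {i : I // i ≠ i0} (S.comap Subtype.val) hcJ
    have hell : ∀ i j : {i : I // i ≠ i0}, (S.comap Subtype.val).ell i j = S.ell i.1 j.1 := by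
      intro i j
      rfl
    simp only [hell] at hJ
    have hsplit : ∀ f : I → ℝ, ∑ i, f i = f i0 + ∑ i : {i : I // i ≠ i0}, f i.1 := by
      intro f
      rw [← Finset.add_sum_erase univ f (Finset.mem_univ i0)]
      congr 1
      refine Finset.sum_subtype _ ?_ f
      intro x; simp
    have h1 : ∑ i, ∑ j, S.ell i j = ∑ j, S.ell i0 j +
        (∑ i : {i : I // i ≠ i0}, S.ell i.1 i0 +
          ∑ i : {i : I // i ≠ i0}, ∑ j : {i : I // i ≠ i0}, S.ell i.1 j.1) := by
      rw [hsplit (fun i => ∑ j, S.ell i j), ← Finset.sum_add_distrib]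
      congr 1
      refine Finset.sum_congr rfl fun i _ => ?_
      exact hsplit (fun j => S.ell i.1 j)
    have h2 : ∑ i : {i : I // i ≠ i0}, S.ell i.1 i0 = ∑ j, S.ell i0 j := by
      rw [hsplit (fun j => S.ell i0 j), MLow_ell_self, zero_add]
      exact Finset.sum_congr rfl fun i _ => MLow_ell_symm S _ _
    rw [h1, h2]
    push_cast at hi0 ⊢
    nlinarith

theorem tot_le {k r : ℕ} (hG : Good k r) {I ι : Type} [Fintype I] [DecidableEq I]
    [Fintype ι] [DecidableEq ι] (S : LS k r I ι) :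
    ∑ i, ∑ j, S.ell i j ≤ TT k r * Fintype.card I * (Fintype.card I + 1) :=
  MLow_tot_aux hG (Fintype.card I) I S rfl

end MP2ab38c
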