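import Pool.Agent.Lib.MP_2ab38c_co.NTab

/-!
JOB NLow.  `r = thr k - 1` satisfies `Good`.
`log_lower`: if `N^(l-k+1) ≥ (l-1)^((k-1)(l-1))`, `k ≤ l`, and `0 < a ≤ (k-2)(1 + log a)` then
`log N ≥ (k-1)(1 + log a)`: with `v = l - 1`, `v log v ≥ v (1 + log a) - a ≥ (v-(k-2))(1 + log a)`
(tangent line of `v log v` at `a`, i.e. `log t ≤ t - 1` with `t = a/v`) and
`(l-k+1) log N ≥ (k-1) v log v`.
`good_thr`: `thr k` is attained by some `l` (`Nat.sInf_mem`).
* `hF`: by minimality (`Nat.notMem_of_lt_sInf`).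
* `hR`: with `a = 2.65 (k-2)` (`2.65 ≤ 1 + log 5.3`): `log (thr k) ≥ (k-1)(1 + log (2.65 (k-2)))`,
  and `(k-1) log (2.65/2.6) ≥ 3 * 0.019 ≥ log (N/(N-1))`.
* `h5`: `a = 9.85` (`9.85 ≤ 3 (1 + log 9.85)`, `log 9.85 ≥ 2.28747`):
  `log (thr k) ≥ 4 * 3.28747 ≥ 13.149`, and `log (N-1) ≥ log N - 0.001`.
* `h4`: `N^(l-3) ≥ (l-1)^(3(l-1))` with `N ≤ 3000` is impossible for every even `l ≥ 4`
  (finitely many `l` by computation; `(l-1)^3 > 3000` for `l ≥ 16`), so `thr 4 ≥ 3001`.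
-/

namespace MP2ab38c

open Finset

theorem log_lower {k l N : ℕ} (hk : 4 ≤ k) (hkl : k ≤ l) (hN : 1 ≤ N)
    (h : (l - 1) ^ ((k - 1) * (l - 1)) ≤ N ^ (l - k + 1)) (a : ℝ) (ha : 0 < a)
    (ha2 : a ≤ ((k : ℝ) - 2) * (1 + Real.log a)) :
    ((k : ℝ) - 1) * (1 + Real.log a) ≤ Real.log N := by
  obtain ⟨v, rfl⟩ : ∃ v, l = v + 1 := ⟨l - 1, by omega⟩
  simp only [Nat.add_sub_cancel] at h
  have hv0 : 0 < v := by omega
  have hvR : (0 : ℝ) < v := by exact_mod_cast hv0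
  have hNR : (0 : ℝ) < N := by exact_mod_cast hN
  have hkR : (4 : ℝ) ≤ k := by exact_mod_cast hk
  have hklR : (k : ℝ) ≤ v + 1 := by exact_mod_cast hkl
  have h3 : ((v : ℝ)) ^ ((k - 1) * v) ≤ (N : ℝ) ^ (v + 1 - k + 1) := by exact_mod_cast h
  have h4 := Real.log_le_log (by positivity) h3
  rw [Real.log_pow, Real.log_pow, Nat.cast_mul, Nat.cast_sub (by omega : 1 ≤ k), Nat.cast_add,
    Nat.cast_sub hkl, Nat.cast_add, Nat.cast_one] at h4
  have h5 : Real.log a - Real.log v ≤ a / v - 1 := by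
    rw [← Real.log_div ha.ne' hvR.ne']
    exact Real.log_le_sub_one_of_pos (by positivity)
  have h6 : (v : ℝ) * Real.log a - v * Real.log v ≤ a - v := by
    have h7 := mul_le_mul_of_nonneg_left h5 hvR.le
    have h8 : (v : ℝ) * (a / v - 1) = a - v := by
      field_simp
    nlinarith
  have h9 : ((v : ℝ) + 1 - k + 1) * (1 + Real.log a) ≤ v * Real.log v := by nlinarith
  have h10 : ((k : ℝ) - 1) * (((v : ℝ) + 1 - k + 1) * (1 + Real.log a)) ≤
      (k - 1) * (v * Real.log v) := mul_le_mul_of_nonneg_left h9 (by linarith)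
  have h11 : ((v : ℝ) + 1 - k + 1) * (((k : ℝ) - 1) * (1 + Real.log a)) ≤
      ((v : ℝ) + 1 - k + 1) * Real.log N := by nlinarith
  exact le_of_mul_le_mul_left h11 (by linarith)

private lemma NLow_mem {k : ℕ} (hk : 4 ≤ k) : ∃ l : ℕ, Even l ∧ k ≤ l ∧
    (l - 1) ^ ((k - 1) * (l - 1)) ≤ thr k ^ (l - k + 1) := by
  have hne : {N : ℕ | ∃ l : ℕ, Even l ∧ k ≤ l ∧
      (l - 1) ^ ((k - 1) * (l - 1)) ≤ N ^ (l - k + 1)}.Nonempty := by
    refine ⟨(2 * k - 1) ^ ((k - 1) * (2 * k - 1)), 2 * k, even_two_mul k, by omega, ?_⟩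
    apply Nat.le_self_pow
    omega
  exact Nat.sInf_mem hne

private lemma NLow_pos {k : ℕ} (hk : 4 ≤ k) : 1 ≤ thr k := by
  obtain ⟨l, _, hkl, hl⟩ := NLow_mem hk
  by_contra hcon
  have h0 : thr k = 0 := by omega
  rw [h0, zero_pow (by omega)] at hl
  have : 0 < (l - 1) ^ ((k - 1) * (l - 1)) := Nat.pow_pos (by omega)
  omega

private lemma NLow_log {k : ℕ} (hk : 4 ≤ k) (a : ℝ) (ha : 0 < a)
    (ha2 : a ≤ ((k : ℝ) - 2) * (1 + Real.log a)) :
    ((k : ℝ) - 1) * (1 + Real.log a) ≤ Real.log (thr k) := by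
  obtain ⟨l, _, hkl, hl⟩ := NLow_mem hk
  exact log_lower hk hkl (NLow_pos hk) hl a ha ha2

/-- comparison of the logarithms of `N` and `N - 1` -/
private lemma NLow_pred {N : ℕ} {n : ℕ} (hn : 1 ≤ n) (h : (n : ℝ) ≤ Real.log N) :
    Real.log N - 1 / ((2 : ℝ) ^ n - 1) ≤ Real.log ((N - 1 : ℕ) : ℝ) := by
  have hNR : (0 : ℝ) < N := by
    by_contra hcon
    have h0 : (N : ℝ) = 0 := le_antisymm (not_lt.1 hcon) (Nat.cast_nonneg _)
    rw [h0, Real.log_zero] at h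
    have : (1 : ℝ) ≤ n := by exact_mod_cast hn
    linarith
  have h2 : (2 : ℝ) ^ n ≤ N := by
    rw [← Real.log_le_log_iff (by positivity) hNR, Real.log_pow]
    have h3 : Real.log 2 ≤ 1 := by linarith [Real.log_two_lt_d9]
    have h4 : (0 : ℝ) ≤ n := Nat.cast_nonneg _
    nlinarith
  have h5 : (2 : ℝ) ≤ 2 ^ n := by
    calc (2 : ℝ) = 2 ^ 1 := by norm_num
      _ ≤ 2 ^ n := pow_le_pow_right₀ (by norm_num) hn
  have hN1 : 1 ≤ N := by exact_mod_cast hNR
  rw [Nat.cast_sub hN1, Nat.cast_one]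
  have h6 : (0 : ℝ) < (N : ℝ) - 1 := by linarith
  have h7 : Real.log N - Real.log ((N : ℝ) - 1) ≤ 1 / ((N : ℝ) - 1) := by
    rw [← Real.log_div hNR.ne' h6.ne']
    have h8 : Real.log ((N : ℝ) / ((N : ℝ) - 1)) ≤ (N : ℝ) / ((N : ℝ) - 1) - 1 :=
      Real.log_le_sub_one_of_pos (by positivity)
    have h9 : (N : ℝ) / ((N : ℝ) - 1) - 1 = 1 / ((N : ℝ) - 1) := by
      field_simp
      ring
    linarith
  have h10 : 1 / ((N : ℝ) - 1) ≤ 1 / ((2 : ℝ) ^ n - 1) := by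
    apply one_div_le_one_div_of_le
    · linarith
    · linarith
  linarith

private lemma NLow_log53 : (1.65 : ℝ) ≤ Real.log 5.3 := by
  have h1 : Real.log (5.3 : ℝ) = 2 * Real.log 2 + Real.log (1 + 0.325) := by
    rw [← Real.log_rpow (by norm_num), ← Real.log_mul (by positivity) (by norm_num)]
    norm_num
  have h2 : 2 * (0.325 : ℝ) / (0.325 + 2) ≤ Real.log (1 + 0.325) :=
    Real.le_log_one_add_of_nonneg (by norm_num)
  have h3 := Real.log_two_gt_d9
  rw [h1]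
  norm_num at h2 ⊢
  norm_num at h3
  linarith

private lemma NLow_log985 : (2.286 : ℝ) ≤ Real.log 9.85 := by
  have h1 : Real.log (9.85 : ℝ) = 3 * Real.log 2 + Real.log (1 + 0.23125) := by
    rw [← Real.log_rpow (by norm_num), ← Real.log_mul (by positivity) (by norm_num)]
    norm_num
  have h2 : 2 * (0.23125 : ℝ) / (0.23125 + 2) ≤ Real.log (1 + 0.23125) :=
    Real.le_log_one_add_of_nonneg (by norm_num)
  have h3 := Real.log_two_gt_d9
  rw [h1]
  norm_num at h2 ⊢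
  norm_num at h3
  linarith

theorem good_thr {k : ℕ} (hk : 4 ≤ k) : Good k (thr k - 1) := by
  have hkR : (4 : ℝ) ≤ k := by exact_mod_cast hk
  have hpos := NLow_pos hk
  refine ⟨hk, Or.inl ?_, ?_, ?_, ?_⟩
  · intro l hle hkl
    by_contra hcon
    push Not at hcon
    have hmem : thr k - 1 ∈ {N : ℕ | ∃ l : ℕ, Even l ∧ k ≤ l ∧
      (l - 1) ^ ((k - 1) * (l - 1)) ≤ N ^ (l - k + 1)} := ⟨l, hle, hkl, hcon⟩
    have : thr k ≤ thr k - 1 := Nat.sInf_le hmem
    omega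
  · intro h4
    subst h4
    rw [thr4]
    norm_num
  · intro h5
    have h5R : (5 : ℝ) ≤ k := by exact_mod_cast h5
    have hl := NLow_log985
    have h6 := NLow_log hk 9.85 (by norm_num) (by nlinarith)
    have h7 : (13.144 : ℝ) ≤ Real.log (thr k) := by nlinarith
    have h8 := NLow_pred (N := thr k) (n := 13) (by norm_num) (by norm_num; linarith)
    norm_num at h8 ⊢
    norm_num at h7
    linarith
  · have hl := NLow_log53
    have hk2 : (0 : ℝ) < (k : ℝ) - 2 := by linarith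
    have hlog : Real.log 5.3 ≤ Real.log (2.65 * ((k : ℝ) - 2)) := by
      apply Real.log_le_log (by norm_num)
      nlinarith
    have h6 := NLow_log hk (2.65 * ((k : ℝ) - 2)) (by positivity) (by nlinarith)
    have h7 : (7 : ℝ) ≤ Real.log (thr k) := by nlinarith
    have h8 := NLow_pred (N := thr k) (n := 7) (by norm_num) (by exact_mod_cast h7)
    have h9 : Real.log (2.65 * ((k : ℝ) - 2)) =
        Real.log (2.6 * ((k : ℝ) - 2)) + Real.log (1 + 1 / 52) := by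
      rw [← Real.log_mul (by positivity) (by norm_num)]
      congr 1
      ring
    have h10 : 2 * (1 / 52 : ℝ) / (1 / 52 + 2) ≤ Real.log (1 + 1 / 52) :=
      Real.le_log_one_add_of_nonneg (by norm_num)
    rw [h9] at h6
    norm_num at h8 h10 ⊢
    norm_num at h6
    nlinarith

end MP2ab38c
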