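import Pool.Agent.Lib.MP_2ab38c_co.Core

/-!
JOB NTab.  Explicit values.  `thr_eq`: general criterion: `N` is in the set, and `N-1` is not:
for even `l` with `k ≤ l < L` by hypothesis, and for `l ≥ L` because
`(N-1) < (L-1)^(k-1) ≤ (l-1)^(k-1)` gives
`(N-1)^(l-k+1) < (l-1)^((k-1)(l-k+1)) ≤ (l-1)^((k-1)(l-1))`.
Then the values: `k = 4, l0 = 6`; `5, 10`; `6, 16`; `7, 22`; `8, 26`; `9, 32`; `10, 38`; with `L`
suitable (`L = 20, 30, 45, 60, 75, 90, 105` or so: `L - 1 > N^(1/(k-1))`), by `norm_num`/`decide`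
on explicit powers (kernel GMP arithmetic; `interval_cases` or a decidable bounded quantifier).
`pc`: `PalCond k (thr k)`: for `k = 4, 5` equality (`palProd 3125 5 = 625^5`,
`palProd 531441 9 = 59049^9`), for `k = 6, ..., 10` strict inequality with the above `l0`
(unfold `palProd`, `Finset.prod_range_succ`, `norm_num`; or `decide +kernel`).
-/

namespace MP2ab38c

open Finset

theorem thr_eq {k N l0 L : ℕ} (hk : 3 ≤ k) (hN : 1 ≤ N) (he : Even l0) (hl0 : k ≤ l0)
    (h1 : (l0 - 1) ^ ((k - 1) * (l0 - 1)) ≤ N ^ (l0 - k + 1)) (hkL : k ≤ L)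
    (hL : N - 1 < (L - 1) ^ (k - 1))
    (h2 : ∀ l, k ≤ l → l < L → Even l → (N - 1) ^ (l - k + 1) < (l - 1) ^ ((k - 1) * (l - 1))) :
    thr k = N := by
  have hmem : N ∈ {N : ℕ | ∃ l : ℕ, Even l ∧ k ≤ l ∧
      (l - 1) ^ ((k - 1) * (l - 1)) ≤ N ^ (l - k + 1)} := ⟨l0, he, hl0, h1⟩
  apply le_antisymm
  · exact Nat.sInf_le hmem
  · by_contra hcon
    push Not at hcon
    have hM : thr k ∈ {N : ℕ | ∃ l : ℕ, Even l ∧ k ≤ l ∧
      (l - 1) ^ ((k - 1) * (l - 1)) ≤ N ^ (l - k + 1)} := Nat.sInf_mem ⟨N, hmem⟩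
    obtain ⟨l, hle, hkl, hl⟩ := hM
    have hle1 : thr k ≤ N - 1 := by omega
    have h3 : (l - 1) ^ ((k - 1) * (l - 1)) ≤ (N - 1) ^ (l - k + 1) :=
      hl.trans (Nat.pow_le_pow_left hle1 _)
    by_cases hlL : l < L
    · exact absurd h3 (not_le.2 (h2 l hkl hlL hle))
    · push Not at hlL
      have h4 : (N - 1) ^ (l - k + 1) < ((L - 1) ^ (k - 1)) ^ (l - k + 1) :=
        Nat.pow_lt_pow_left hL (by omega)
      have h5 : ((L - 1) ^ (k - 1)) ^ (l - k + 1) ≤ (l - 1) ^ ((k - 1) * (l - 1)) := by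
        rw [← pow_mul]
        calc (L - 1) ^ ((k - 1) * (l - k + 1)) ≤ (l - 1) ^ ((k - 1) * (l - k + 1)) :=
              Nat.pow_le_pow_left (by omega) _
          _ ≤ (l - 1) ^ ((k - 1) * (l - 1)) :=
              Nat.pow_le_pow_right (by omega) (Nat.mul_le_mul_left _ (by omega))
      omega

theorem thr4 : thr 4 = 3125 := by
  refine thr_eq (l0 := 6) (L := 20) (by norm_num) (by norm_num) (by decide) (by norm_num)
    (by decide +kernel) (by norm_num) (by decide +kernel) ?_
  have h : ∀ l < 20, 4 ≤ l → Even l →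
      (3125 - 1) ^ (l - 4 + 1) < (l - 1) ^ ((4 - 1) * (l - 1)) := by
    decide +kernel
  exact fun l h1 h2 h3 => h l h2 h1 h3

theorem thr5 : thr 5 = 531441 := by
  refine thr_eq (l0 := 10) (L := 30) (by norm_num) (by norm_num) (by decide) (by norm_num)
    (by decide +kernel) (by norm_num) (by decide +kernel) ?_
  have h : ∀ l < 30, 5 ≤ l → Even l →
      (531441 - 1) ^ (l - 5 + 1) < (l - 1) ^ ((5 - 1) * (l - 1)) := by
    decide +kernel
  exact fun l h1 h2 h3 => h l h2 h1 h3

theorem thr6 : thr 6 = 104424894 := by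
  refine thr_eq (l0 := 16) (L := 45) (by norm_num) (by norm_num) (by decide) (by norm_num)
    (by decide +kernel) (by norm_num) (by decide +kernel) ?_
  have h : ∀ l < 45, 6 ≤ l → Even l →
      (104424894 - 1) ^ (l - 6 + 1) < (l - 1) ^ ((6 - 1) * (l - 1)) := by
    decide +kernel
  exact fun l h1 h2 h3 => h l h2 h1 h3

theorem thr7 : thr 7 = 25850976094 := by
  refine thr_eq (l0 := 22) (L := 60) (by norm_num) (by norm_num) (by decide) (by norm_num)
    (by decide +kernel) (by norm_num) (by decide +kernel) ?_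
  have h : ∀ l < 60, 7 ≤ l → Even l →
      (25850976094 - 1) ^ (l - 7 + 1) < (l - 1) ^ ((7 - 1) * (l - 1)) := by
    decide +kernel
  exact fun l h1 h2 h3 => h l h2 h1 h3

theorem thr8 : thr 8 = 7512132470576 := by
  refine thr_eq (l0 := 26) (L := 75) (by norm_num) (by norm_num) (by decide) (by norm_num)
    (by decide +kernel) (by norm_num) (by decide +kernel) ?_
  have h : ∀ l < 75, 8 ≤ l → Even l →
      (7512132470576 - 1) ^ (l - 8 + 1) < (l - 1) ^ ((8 - 1) * (l - 1)) := by
    decide +kernel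
  exact fun l h1 h2 h3 => h l h2 h1 h3

theorem thr9 : thr 9 = 2574764442874189 := by
  refine thr_eq (l0 := 32) (L := 90) (by norm_num) (by norm_num) (by decide) (by norm_num)
    (by decide +kernel) (by norm_num) (by decide +kernel) ?_
  have h : ∀ l < 90, 9 ≤ l → Even l →
      (2574764442874189 - 1) ^ (l - 9 + 1) < (l - 1) ^ ((9 - 1) * (l - 1)) := by
    decide +kernel
  exact fun l h1 h2 h3 => h l h2 h1 h3

theorem thr10 : thr 10 = 1016908473161732417 := by
  refine thr_eq (l0 := 38) (L := 105) (by norm_num) (by norm_num) (by decide) (by norm_num)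
    (by decide +kernel) (by norm_num) (by decide +kernel) ?_
  have h : ∀ l < 105, 10 ≤ l → Even l →
      (1016908473161732417 - 1) ^ (l - 10 + 1) < (l - 1) ^ ((10 - 1) * (l - 1)) := by
    decide +kernel
  exact fun l h1 h2 h3 => h l h2 h1 h3

theorem pc4 : PalCond 4 3125 := by
  refine ⟨6, by decide, by norm_num, Or.inr ⟨by decide +kernel, ?_⟩⟩
  unfold palProd
  decide +kernel

theorem pc5 : PalCond 5 531441 := by
  refine ⟨10, by decide, by norm_num, Or.inr ⟨by decide +kernel, ?_⟩⟩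
  unfold palProd
  decide +kernel

theorem pc6 : PalCond 6 104424894 := by
  refine ⟨16, by decide, by norm_num, Or.inl ?_⟩
  unfold palProd
  decide +kernel

theorem pc7 : PalCond 7 25850976094 := by
  refine ⟨22, by decide, by norm_num, Or.inl ?_⟩
  unfold palProd
  decide +kernel

theorem pc8 : PalCond 8 7512132470576 := by
  refine ⟨26, by decide, by norm_num, Or.inl ?_⟩
  unfold palProd
  decide +kernel

theorem pc9 : PalCond 9 2574764442874189 := by
  refine ⟨32, by decide, by norm_num, Or.inl ?_⟩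
  unfold palProd
  decide +kernel

theorem pc10 : PalCond 10 1016908473161732417 := by
  refine ⟨38, by decide, by norm_num, Or.inl ?_⟩
  unfold palProd
  decide +kernel

end MP2ab38c
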