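import Pool.Agent.Lib.MP_2ab38c_co.NTab

/-!
JOB NUp.  Above the threshold the strict palette inequality holds.
`pal_strict`: let `q = r/(l-1)`, `s = r % (l-1) ≤ l-2`; among the factors `(r+i)/(l-1)`,
`i < l-1`, of `palProd` exactly `s` are `q+1` and the others `q`.  With `λ = s/(q(q+1))`,
`log palProd = s log (q+1) + (l-1-s) log q ≥ (l-1) log (r/(l-1)) - λ`
(`log (1+t) ≤ t`, `log (1+1/q) ≥ 1/(q+1)`).  So
`(k-1) log palProd - l (k-2) log r ≥ (l-k+1) log r - (k-1)(l-1) log (l-1) - (k-1) λ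
 ≥ (l-k+1)(log r - log (r-1)) - (k-1) λ ≥ (l-k+1)/r - (k-1)(l-2)/(q(q+1)) > 0`,
the last since `r < (l-1)(q+1)` and `q (l-k+1) ≥ (k-1)(l-2)(l-1)`.
`palCond_up`: `thr k = N` is attained (`Nat.sInf_mem`; the set is nonempty, e.g.
`l = 2k`, `N` huge) by an even `l ≥ k`.  For `k ≥ 5`: `N^(l-k+1) ≥ (l-1)^((k-1)(l-1))` gives
`N ≥ (l-1)^(k-1)`, so `q ≥ (l-1)^(k-2) ≥ (l-1)^3 ≥ (k-1)(l-2)(l-1)` and `pal_strict` applies to all
`r ≥ N+1`.  For `k = 4` use `l = 6`: first `thr 4 = 3125` (NTab: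
`thr4`), then `r ≥ 3126`,
`(r-1)^3 ≥ 5^15`, `q ≥ 625`.
-/

namespace MP2ab38c

open Finset

private lemma NUp_palProd_eq (r m : ℕ) (hm : 0 < m) :
    palProd r m = (r / m) ^ (m - r % m) * (r / m + 1) ^ (r % m) := by
  have hs : r % m < m := Nat.mod_lt r hm
  have hr : m * (r / m) + r % m = r := Nat.div_add_mod r m
  have h0 : palProd r m = ∏ i ∈ range ((m - r % m) + r % m), (r + i) / m := by
    unfold palProd
    rw [Nat.sub_add_cancel hs.le]
  rw [h0, Finset.prod_range_add]
  congr 1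
  · rw [Finset.prod_congr rfl (g := fun _ => r / m), Finset.prod_const, card_range]
    intro i hi
    have hi' := Finset.mem_range.1 hi
    have : r + i = m * (r / m) + (r % m + i) := by omega
    rw [this, Nat.mul_add_div hm, Nat.div_eq_of_lt (a := r % m + i) (by omega), Nat.add_zero]
  · rw [Finset.prod_congr rfl (g := fun _ => r / m + 1), Finset.prod_const, card_range]
    intro i hi
    have hi' := Finset.mem_range.1 hi
    have : r + (m - r % m + i) = m * (r / m + 1) + i := by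
      rw [Nat.mul_add, Nat.mul_one]
      omega
    rw [this, Nat.mul_add_div hm, Nat.div_eq_of_lt (a := i) (by omega), Nat.add_zero]

theorem pal_strict {k l r : ℕ} (hk : 3 ≤ k) (hkl : k ≤ l) (hr : 2 ≤ r)
    (h1 : (l - 1) ^ ((k - 1) * (l - 1)) ≤ (r - 1) ^ (l - k + 1))
    (h2 : (k - 1) * (l - 2) * (l - 1) ≤ (r / (l - 1)) * (l - k + 1)) :
    r ^ (l * (k - 2)) < palProd r (l - 1) ^ (k - 1) := by
  obtain ⟨m, rfl⟩ : ∃ m, l = m + 1 := ⟨l - 1, by omega⟩
  have hm2 : 2 ≤ m := by omega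
  have hm0 : 0 < m := by omega
  simp only [Nat.add_sub_cancel] at h1 h2 ⊢
  have e1 : m + 1 - 2 = m - 1 := by omega
  rw [e1] at h2
  rw [NUp_palProd_eq r m hm0]
  set q := r / m with hq
  set s := r % m with hs
  have hsm : s < m := Nat.mod_lt r hm0
  have hrq : m * q + s = r := Nat.div_add_mod r m
  have hq1 : 1 ≤ q := by
    by_contra hcon
    have hq0 : q = 0 := Nat.lt_one_iff.1 (not_le.1 hcon)
    rw [hq0, Nat.zero_mul] at h2
    have : 0 < (k - 1) * (m - 1) * m := by
      apply Nat.mul_pos (Nat.mul_pos _ _) hm0 <;> omega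
    omega
  -- real versions
  have hkR : (3 : ℝ) ≤ k := by exact_mod_cast hk
  have hmR : (2 : ℝ) ≤ m := by exact_mod_cast hm2
  have hqR : (1 : ℝ) ≤ q := by exact_mod_cast hq1
  have hsR : (s : ℝ) ≤ m - 1 := by
    have : s + 1 ≤ m := hsm
    have : (s : ℝ) + 1 ≤ m := by exact_mod_cast this
    linarith
  have hs0 : (0 : ℝ) ≤ s := Nat.cast_nonneg _
  have hrR : (m : ℝ) * q + s = r := by exact_mod_cast hrq
  have hr2 : (2 : ℝ) ≤ r := by exact_mod_cast hr
  have hr0 : (0 : ℝ) < r := by linarith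
  have hm0R : (0 : ℝ) < m := by linarith
  have hq0R : (0 : ℝ) < q := by linarith
  -- log of the product
  have hP : Real.log (((q : ℝ)) ^ (m - s) * ((q : ℝ) + 1) ^ s) =
      (m - s) * Real.log q + s * Real.log (q + 1) := by
    rw [Real.log_mul (by positivity) (by positivity), Real.log_pow, Real.log_pow]
    rw [Nat.cast_sub hsm.le]
  -- key lower bound
  have hA : (m : ℝ) * (Real.log r - Real.log m - Real.log q) ≤ s / q := by
    have h3 : Real.log r - Real.log m - Real.log q = Real.log (r / (m * q)) := by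
      rw [Real.log_div hr0.ne' (by positivity), Real.log_mul hm0R.ne' hq0R.ne']
      ring
    have h4 : Real.log (r / (m * q)) ≤ r / (m * q) - 1 := Real.log_le_sub_one_of_pos (by positivity)
    rw [h3]
    calc (m : ℝ) * Real.log (r / (m * q)) ≤ m * (r / (m * q) - 1) :=
          mul_le_mul_of_nonneg_left h4 hm0R.le
      _ = s / q := by
          rw [← hrR]
          field_simp
          ring
  have hB : 1 / ((q : ℝ) + 1) ≤ Real.log (q + 1) - Real.log q := by
    have h3 : Real.log q - Real.log (q + 1) = Real.log (q / (q + 1)) := by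
      rw [Real.log_div hq0R.ne' (by positivity)]
    have h4 : Real.log ((q : ℝ) / (q + 1)) ≤ q / (q + 1) - 1 :=
      Real.log_le_sub_one_of_pos (by positivity)
    have h5 : (q : ℝ) / (q + 1) - 1 = - (1 / (q + 1)) := by
      field_simp
      ring
    linarith
  have hC : 1 / (r : ℝ) ≤ Real.log r - Real.log (r - 1) := by
    have hr1 : (0 : ℝ) < r - 1 := by linarith
    have h3 : Real.log (r - 1) - Real.log r = Real.log ((r - 1) / r) := by
      rw [Real.log_div hr1.ne' hr0.ne']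
    have h4 : Real.log (((r : ℝ) - 1) / r) ≤ (r - 1) / r - 1 :=
      Real.log_le_sub_one_of_pos (by positivity)
    have h5 : ((r : ℝ) - 1) / r - 1 = - (1 / r) := by
      field_simp
      ring
    linarith
  have hD : ((k : ℝ) - 1) * m * Real.log m ≤ (m + 1 - k + 1) * Real.log (r - 1) := by
    have h3 : ((m : ℝ)) ^ ((k - 1) * m) ≤ ((r : ℝ) - 1) ^ (m + 1 - k + 1) := by
      have : (((r - 1 : ℕ)) : ℝ) = (r : ℝ) - 1 := by
        rw [Nat.cast_sub (by omega)]
        simp
      rw [← this]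
      exact_mod_cast h1
    have h4 := Real.log_le_log (by positivity) h3
    rw [Real.log_pow, Real.log_pow] at h4
    rw [Nat.cast_mul, Nat.cast_sub (by omega : 1 ≤ k), Nat.cast_add, Nat.cast_sub hkl,
      Nat.cast_add, Nat.cast_one] at h4
    exact h4
  have hE : ((k : ℝ) - 1) * (m - 1) * m ≤ q * (m + 1 - k + 1) := by
    have h3 : (((k - 1) * (m - 1) * m : ℕ) : ℝ) ≤ ((q * (m + 1 - k + 1) : ℕ) : ℝ) := by
      exact_mod_cast h2
    rw [Nat.cast_mul, Nat.cast_mul, Nat.cast_mul, Nat.cast_sub (by omega : 1 ≤ k),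
      Nat.cast_sub (by omega : 1 ≤ m), Nat.cast_add, Nat.cast_sub hkl, Nat.cast_add,
      Nat.cast_one] at h3
    exact h3
  have hklR : (k : ℝ) ≤ m + 1 := by exact_mod_cast hkl
  have hlk : (1 : ℝ) ≤ m + 1 - k + 1 := by linarith
  -- the final comparison
  have hF : ((k : ℝ) - 1) * (s / q - s / (q + 1)) < (m + 1 - k + 1) * (1 / r) := by
    have h3 : (s : ℝ) / q - s / (q + 1) = s / (q * (q + 1)) := by
      field_simp
      ring
    rw [h3]
    have h4 : (m + 1 - k + 1 : ℝ) / (m * (q + 1)) < (m + 1 - k + 1) * (1 / r) := by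
      rw [mul_one_div]
      apply div_lt_div_of_pos_left (by linarith) hr0
      rw [← hrR]
      nlinarith
    refine lt_of_le_of_lt ?_ h4
    rw [← mul_div_assoc, div_le_div_iff₀ (by positivity) (by positivity)]
    have h5 : ((k : ℝ) - 1) * s * m ≤ q * (m + 1 - k + 1) := by
      refine le_trans ?_ hE
      apply mul_le_mul_of_nonneg_right _ hm0R.le
      apply mul_le_mul_of_nonneg_left hsR
      linarith
    calc ((k : ℝ) - 1) * s * (m * (q + 1)) = (((k : ℝ) - 1) * s * m) * (q + 1) := by ring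
      _ ≤ (q * (m + 1 - k + 1)) * (q + 1) := by
          apply mul_le_mul_of_nonneg_right h5
          linarith
      _ = (m + 1 - k + 1) * (q * (q + 1)) := by ring
  by_contra hcon
  push Not at hcon
  have hcon2 : (((q : ℝ)) ^ (m - s) * ((q : ℝ) + 1) ^ s) ^ (k - 1) ≤
      (r : ℝ) ^ ((m + 1) * (k - 2)) := by
    exact_mod_cast hcon
  have h6 := Real.log_le_log (by positivity) hcon2
  rw [Real.log_pow, Real.log_pow, hP, Nat.cast_mul, Nat.cast_sub (by omega : 1 ≤ k),
    Nat.cast_sub (by omega : 2 ≤ k), Nat.cast_add, Nat.cast_one, Nat.cast_ofNat] at h6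
  -- log product lower bound
  have hG : (m : ℝ) * Real.log r - m * Real.log m - (s / q - s / (q + 1)) ≤
      (m - s) * Real.log q + s * Real.log (q + 1) := by
    have h7 : (s : ℝ) * (1 / (q + 1)) ≤ s * (Real.log (q + 1) - Real.log q) :=
      mul_le_mul_of_nonneg_left hB hs0
    have h8 : (s : ℝ) * (1 / (q + 1)) = s / (q + 1) := by ring
    nlinarith
  have hk1 : (0 : ℝ) < (k : ℝ) - 1 := by linarith
  have h9 := mul_le_mul_of_nonneg_left hG hk1.le
  have h10 := mul_le_mul_of_nonneg_left hC (by linarith : (0 : ℝ) ≤ m + 1 - k + 1)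
  nlinarith

theorem palCond_up {k r : ℕ} (hk : 4 ≤ k) (hr : thr k + 1 ≤ r) : ∃ l : ℕ, Even l ∧ k ≤ l ∧
    r ^ (l * (k - 2)) < palProd r (l - 1) ^ (k - 1) := by
  rcases Nat.lt_or_ge k 5 with hk5 | hk5
  · have hk4 : k = 4 := by omega
    subst hk4
    rw [thr4] at hr
    refine ⟨6, by decide, by norm_num, ?_⟩
    apply pal_strict (by norm_num) (by norm_num) (by omega)
    · calc (6 - 1) ^ ((4 - 1) * (6 - 1)) = 3125 ^ 3 := by norm_num
        _ ≤ (r - 1) ^ (6 - 4 + 1) := Nat.pow_le_pow_left (by omega) 3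
    · have : 625 ≤ r / (6 - 1) := by
        rw [Nat.le_div_iff_mul_le (by norm_num)]
        omega
      omega
  · have hne : {N : ℕ | ∃ l : ℕ, Even l ∧ k ≤ l ∧
        (l - 1) ^ ((k - 1) * (l - 1)) ≤ N ^ (l - k + 1)}.Nonempty := by
      refine ⟨(2 * k - 1) ^ ((k - 1) * (2 * k - 1)), 2 * k, even_two_mul k, by omega, ?_⟩
      apply Nat.le_self_pow
      omega
    obtain ⟨l, hle, hkl, hl⟩ := Nat.sInf_mem hne
    change (l - 1) ^ ((k - 1) * (l - 1)) ≤ thr k ^ (l - k + 1) at hl
    refine ⟨l, hle, hkl, ?_⟩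
    have hN : (l - 1) ^ (k - 1) ≤ thr k := by
      by_contra hcon
      push Not at hcon
      have h4 : (thr k) ^ (l - k + 1) < ((l - 1) ^ (k - 1)) ^ (l - k + 1) :=
        Nat.pow_lt_pow_left hcon (by omega)
      have h5 : ((l - 1) ^ (k - 1)) ^ (l - k + 1) ≤ (l - 1) ^ ((k - 1) * (l - 1)) := by
        rw [← pow_mul]
        exact Nat.pow_le_pow_right (by omega) (Nat.mul_le_mul_left _ (by omega))
      omega
    have hl1 : 1 ≤ (l - 1) ^ (k - 1) := Nat.one_le_pow _ _ (by omega)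
    apply pal_strict (by omega) hkl (by omega)
    · exact hl.trans (Nat.pow_le_pow_left (by omega) _)
    · have hq : (l - 1) ^ 3 ≤ r / (l - 1) := by
        rw [Nat.le_div_iff_mul_le (by omega)]
        calc (l - 1) ^ 3 * (l - 1) = (l - 1) ^ 4 := by ring
          _ ≤ (l - 1) ^ (k - 1) := Nat.pow_le_pow_right (by omega) (by omega)
          _ ≤ thr k := hN
          _ ≤ r := by omega
      calc (k - 1) * (l - 2) * (l - 1) ≤ (l - 1) * (l - 1) * (l - 1) := by
            apply Nat.mul_le_mul_right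
            apply Nat.mul_le_mul <;> omega
        _ = (l - 1) ^ 3 := by ring
        _ ≤ r / (l - 1) := hq
        _ ≤ r / (l - 1) * (l - k + 1) := Nat.le_mul_of_pos_right _ (by omega)

end MP2ab38c
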