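import Pool.Agent.Lib.MP_2ab38c_co.Core

/-!
JOB ZLink.  For a cherry pattern `P`, `HasCopy G F P` iff `F` is not `PAFree`.
(If `OneAdj univ (fun e => ext F (e.map v))` with `x', y', z'` and `P` has its cherry at `x, y, z`,
compose `v` with a permutation of `Fin k` sending `x, y, z` to `x', y', z'`; a map `v` with all
`v a`, `v b` adjacent is injective and gives an embedding of `⊤`.)
Then `cols r P G = cA k r G`; and `IsExtremalCol` in terms of `cmax`.
`exists_cherry`: the pattern with classes given by the cherry at `0, 1, 2` exists for `k ≥ 3`, it is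
different from the rainbow pattern.
-/

namespace MP2ab38c

open Finset SimpleGraph

private theorem ZLink_perm {k : ℕ} (x y z x' y' z' : Fin k) (hxy : x ≠ y) (hxz : x ≠ z)
    (hyz : y ≠ z) (hxy' : x' ≠ y') (hxz' : x' ≠ z') (hyz' : y' ≠ z') :
    ∃ σ : Equiv.Perm (Fin k), σ x = x' ∧ σ y = y' ∧ σ z = z' := by
  set s1 : Equiv.Perm (Fin k) := Equiv.swap x x' with hs1
  have h1x : s1 x = x' := Equiv.swap_apply_left _ _
  have h1y : s1 y ≠ x' := by
    rw [← h1x]
    exact fun h => hxy (s1.injective h).symm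
  set s2 : Equiv.Perm (Fin k) := Equiv.swap (s1 y) y' with hs2
  have h2x : s2 x' = x' := Equiv.swap_apply_of_ne_of_ne h1y.symm hxy'
  have h2y : s2 (s1 y) = y' := Equiv.swap_apply_left _ _
  have h3x : s2 (s1 z) ≠ x' := by
    rw [← h2x]
    intro h
    have h4 := s2.injective h
    rw [← h1x] at h4
    exact hxz (s1.injective h4).symm
  have h3y : s2 (s1 z) ≠ y' := by
    rw [← h2y]
    intro h
    exact hyz (s1.injective (s2.injective h)).symm
  refine ⟨(s1.trans s2).trans (Equiv.swap (s2 (s1 z)) z'), ?_, ?_, ?_⟩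
  · simp only [Equiv.trans_apply]
    rw [h1x, h2x]
    exact Equiv.swap_apply_of_ne_of_ne h3x.symm hxz'
  · simp only [Equiv.trans_apply]
    rw [h2y]
    exact Equiv.swap_apply_of_ne_of_ne h3y.symm hyz'
  · simp only [Equiv.trans_apply]
    exact Equiv.swap_apply_left _ _

private theorem ZLink_ext {V : Type} {r : ℕ} {G : SimpleGraph V} (F : G.edgeSet → Fin r)
    (e : Sym2 V) (h : e ∈ G.edgeSet) : ext F e = some (F ⟨e, h⟩) := by
  unfold ext
  rw [dif_pos h]

private theorem ZLink_map_inj {k : ℕ} (σ : Equiv.Perm (Fin k)) (e : Sym2 (Fin k)) (a b : Fin k) :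
    e.map σ = s(σ a, σ b) ↔ e = s(a, b) := by
  constructor
  · intro h
    have : e.map σ = (s(a, b)).map σ := h
    exact Sym2.map.injective σ.injective this
  · rintro rfl
    rfl

private theorem ZLink_iff {V : Type} {k : ℕ} (r : ℕ) (P : Pattern k) (hP : IsCherry P)
    (G : SimpleGraph V) (F : G.edgeSet → Fin r) : HasCopy G F P ↔
    ∃ v : Fin k → V, (∀ a b, a ≠ b → G.Adj (v a) (v b)) ∧
      OneAdj (univ : Finset (Fin k)) (fun e => ext F (e.map v)) := by
  obtain ⟨x, y, z, hxy, hxz, hyz, hP⟩ := hP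
  constructor
  · rintro ⟨φ, hφ⟩
    have hc : ∀ e : (⊤ : SimpleGraph (Fin k)).edgeSet,
        ext F (e.1.map φ) = some (F (φ.mapEdgeSet e)) := by
      intro e
      have h : e.1.map φ ∈ G.edgeSet := (φ.mapEdgeSet e).2
      rw [ZLink_ext F _ h]
      rfl
    refine ⟨φ, fun a b hab => φ.map_rel_iff.mpr (by simpa using hab), x, mem_univ _, y,
      mem_univ _, z, mem_univ _, hxy, hxz, hyz, ?_, ?_⟩
    · have h1 : s(x, y) ∈ (⊤ : SimpleGraph (Fin k)).edgeSet := by simpa using hxy
      have h2 : s(x, z) ∈ (⊤ : SimpleGraph (Fin k)).edgeSet := by simpa using hxz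
      have h3 := hc ⟨_, h1⟩
      have h4 := hc ⟨_, h2⟩
      show ext F ((s(x, y)).map φ) = ext F ((s(x, z)).map φ)
      rw [h3, h4]
      rw [(hφ ⟨_, h1⟩ ⟨_, h2⟩).mpr ((hP _ _).mpr (Or.inr (Or.inl ⟨rfl, rfl⟩)))]
    · intro e f _ _ he hf hef
      have h1 : e ∈ (⊤ : SimpleGraph (Fin k)).edgeSet := by
        rw [SimpleGraph.edgeSet_top]
        exact he
      have h2 : f ∈ (⊤ : SimpleGraph (Fin k)).edgeSet := by
        rw [SimpleGraph.edgeSet_top]
        exact hf
      have h3 := hc ⟨_, h1⟩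
      have h4 := hc ⟨_, h2⟩
      have h5 : ext F (e.map φ) = ext F (f.map φ) := hef
      rw [h3, h4] at h5
      have h6 := (hP _ _).mp ((hφ ⟨_, h1⟩ ⟨_, h2⟩).mp (Option.some_injective _ h5))
      rcases h6 with h | h | h
      · exact Or.inl (congrArg Subtype.val h)
      · exact Or.inr (Or.inl h)
      · exact Or.inr (Or.inr h)
  · rintro ⟨v, hv, x', _, y', _, z', _, hxy', hxz', hyz', hc1, hc2⟩
    obtain ⟨σ, hσx, hσy, hσz⟩ := ZLink_perm x y z x' y' z' hxy hxz hyz hxy' hxz' hyz'
    have hinj : Function.Injective v := by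
      intro a b hab
      by_contra hne
      exact (hv a b hne).ne hab
    let φ : (⊤ : SimpleGraph (Fin k)) ↪g G :=
      { toFun := fun a => v (σ a)
        inj' := hinj.comp σ.injective
        map_rel_iff' := by
          intro a b
          simp only [Function.Embedding.coeFn_mk, SimpleGraph.top_adj]
          constructor
          · intro h hab
            exact h.ne (by rw [hab])
          · intro h
            exact hv _ _ (fun h' => h (σ.injective h')) }
    have hc : ∀ e : (⊤ : SimpleGraph (Fin k)).edgeSet,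
        some (F (φ.mapEdgeSet e)) = ext F ((e.1.map σ).map v) := by
      intro e
      have h1 : (e.1.map σ).map v = e.1.map φ := by
        rw [Sym2.map_map]
        rfl
      have h : e.1.map φ ∈ G.edgeSet := (φ.mapEdgeSet e).2
      rw [h1, ZLink_ext F _ h]
      rfl
    refine ⟨φ, fun e f => ?_⟩
    have hnd : ∀ e : (⊤ : SimpleGraph (Fin k)).edgeSet, ¬ (e.1.map σ).IsDiag := by
      rintro ⟨e, he⟩
      induction e using Sym2.ind with
      | _ a b =>
        have hab : a ≠ b := by simpa using he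
        simp only [Sym2.map_mk, Sym2.mk_isDiag_iff]
        exact fun h => hab (σ.injective h)
    constructor
    · intro h
      have h1 : ext F ((e.1.map σ).map v) = ext F ((f.1.map σ).map v) := by
        rw [← hc, ← hc, h]
      have h2 := hc2 (e.1.map σ) (f.1.map σ) (fun _ _ => mem_univ _) (fun _ _ => mem_univ _)
        (hnd e) (hnd f) h1
      rw [hP]
      rw [← hσx, ← hσy, ← hσz, ZLink_map_inj, ZLink_map_inj, ZLink_map_inj, ZLink_map_inj] at h2
      rcases h2 with h2 | h2 | h2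
      · exact Or.inl (Subtype.ext (Sym2.map.injective σ.injective h2))
      · exact Or.inr (Or.inl h2)
      · exact Or.inr (Or.inr h2)
    · intro h
      have hc1' : ext F ((s(x', y')).map v) = ext F ((s(x', z')).map v) := hc1
      apply Option.some_injective
      rw [hc, hc]
      rcases (hP e f).mp h with h | ⟨h1, h2⟩ | ⟨h1, h2⟩
      · rw [h]
      · rw [h1, h2]
        simp only [Sym2.map_mk, hσx, hσy, hσz] at hc1' ⊢
        exact hc1'
      · rw [h1, h2]
        simp only [Sym2.map_mk, hσx, hσy, hσz] at hc1' ⊢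
        exact hc1'.symm

theorem cols_eq_cA {V : Type} {k : ℕ} (r : ℕ) (P : Pattern k) (hP : IsCherry P)
    (G : SimpleGraph V) : cols r P G = cA k r G := by
  unfold cols cA PAFree
  refine Nat.card_congr (Equiv.subtypeEquivRight fun F => ?_)
  rw [ZLink_iff r P hP G F]

theorem exists_cherry {k : ℕ} (hk : 3 ≤ k) : ∃ P : Pattern k, IsCherry P := by
  have h0 : 0 < k := by omega
  have h1 : 1 < k := by omega
  have h2 : 2 < k := by omega
  set x : Fin k := ⟨0, h0⟩ with hx
  set y : Fin k := ⟨1, h1⟩ with hy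
  set z : Fin k := ⟨2, h2⟩ with hz
  have hxy : x ≠ y := by
    intro h
    have := congrArg Fin.val h
    simp [hx, hy] at this
  have hxz : x ≠ z := by
    intro h
    have := congrArg Fin.val h
    simp [hx, hz] at this
  have hyz : y ≠ z := by
    intro h
    have := congrArg Fin.val h
    simp [hy, hz] at this
  have hne : s(x, y) ≠ s(x, z) := by
    intro h
    rw [Sym2.eq_iff] at h
    rcases h with h | h
    · exact hyz h.2
    · exact hxz h.1
  refine ⟨⟨fun e f => e = f ∨ (e.1 = s(x, y) ∧ f.1 = s(x, z)) ∨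
    (e.1 = s(x, z) ∧ f.1 = s(x, y)), ⟨fun e => Or.inl rfl, ?_, ?_⟩⟩, x, y, z, hxy, hxz, hyz,
    fun e f => Iff.rfl⟩
  · rintro e f (h | ⟨h1, h2⟩ | ⟨h1, h2⟩)
    · exact Or.inl h.symm
    · exact Or.inr (Or.inr ⟨h2, h1⟩)
    · exact Or.inr (Or.inl ⟨h2, h1⟩)
  · rintro e f g (h | ⟨h1, h2⟩ | ⟨h1, h2⟩) h'
    · rw [h]
      exact h'
    · rcases h' with h' | ⟨h3, h4⟩ | ⟨h3, h4⟩
      · rw [← h']
        exact Or.inr (Or.inl ⟨h1, h2⟩)
      · exact absurd (h3.symm.trans h2) hne
      · exact Or.inl (Subtype.ext (h1.trans h4.symm))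
    · rcases h' with h' | ⟨h3, h4⟩ | ⟨h3, h4⟩
      · rw [← h']
        exact Or.inr (Or.inr ⟨h1, h2⟩)
      · exact Or.inl (Subtype.ext (h1.trans h4.symm))
      · exact absurd (h2.symm.trans h3) hne

theorem cherry_ne_bot {k : ℕ} (P : Pattern k) (hP : IsCherry P) : P ≠ ⊥ := by
  obtain ⟨x, y, z, hxy, hxz, hyz, hP⟩ := hP
  intro h
  have h1 : s(x, y) ∈ (⊤ : SimpleGraph (Fin k)).edgeSet := by simpa using hxy
  have h2 : s(x, z) ∈ (⊤ : SimpleGraph (Fin k)).edgeSet := by simpa using hxz
  have h3 : P.r ⟨_, h1⟩ ⟨_, h2⟩ := (hP _ _).mpr (Or.inr (Or.inl ⟨rfl, rfl⟩))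
  rw [h] at h3
  have h4 : (⟨s(x, y), h1⟩ : (⊤ : SimpleGraph (Fin k)).edgeSet) = ⟨s(x, z), h2⟩ := h3
  have h5 : s(x, y) = s(x, z) := congrArg Subtype.val h4
  rw [Sym2.eq_iff] at h5
  rcases h5 with h | h
  · exact hyz h.2
  · exact hxz h.1

end MP2ab38c
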