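import Pool.Agent.Lib.MP_2ab38c_co.FMain
import Pool.Agent.Lib.MP_2ab38c_co.CUpper
import Pool.Agent.Lib.MP_2ab38c_co.CEq
import Pool.Agent.Lib.MP_2ab38c_co.NUp
import Pool.Agent.Lib.MP_2ab38c_co.NLow
import Pool.Agent.Lib.MP_2ab38c_co.NTab
import Pool.Agent.Lib.MP_2ab38c_co.ZLink

/-!
Assembly of the main theorem.
-/

namespace MP2ab38c

open Finset SimpleGraph

theorem upper_main {k r : ℕ} (hk : 4 ≤ k) (hr : 2 ≤ r) (P : Pattern k) (hP : P ≠ ⊥)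
    (h : PalCond k r) : ∃ n₀ : ℕ, ∀ n ≥ n₀, ¬ IsExtremalCol r P (turanGraph n (k - 1)) := by
  obtain ⟨l, hl, hkl, h | ⟨hd, h⟩⟩ := h
  · exact upper_strict (by omega) P hP hl hkl h
  · exact upper_eq hk hr P hP hl hkl hd h

theorem thr_ge {k : ℕ} (hk : 4 ≤ k) : 4 ≤ thr k := by
  have h := good_thr hk
  have := num2 h
  omega

theorem exists_threshold {k : ℕ} (hk : 4 ≤ k) (P : Pattern k) (hP : P ≠ ⊥) :
    ∃ ρ, IsThreshold P ρ ∧ ρ ≤ thr k + 1 ∧ (PalCond k (thr k) → ρ ≤ thr k) := by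
  have h4 := thr_ge hk
  set S : Set ℕ := {ρ : ℕ | 2 ≤ ρ ∧ ∀ r ≥ ρ, ∃ n₀ : ℕ, ∀ n ≥ n₀,
    ¬ IsExtremalCol r P (turanGraph n (k - 1))} with hS
  have h1 : thr k + 1 ∈ S := by
    refine ⟨by omega, fun r hr => ?_⟩
    obtain ⟨l, hl, hkl, h⟩ := palCond_up hk hr
    exact upper_strict (by omega) P hP hl hkl h
  have h2 : PalCond k (thr k) → thr k ∈ S := by
    intro hp
    refine ⟨by omega, fun r hr => ?_⟩
    rcases Nat.eq_or_lt_of_le hr with h | h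
    · rw [← h]
      exact upper_main hk (by omega) P hP hp
    · exact h1.2 r h
  refine ⟨sInf S, ⟨Nat.sInf_mem ⟨_, h1⟩, fun ρ hρ => Nat.sInf_le hρ⟩, Nat.sInf_le h1,
    fun hp => Nat.sInf_le (h2 hp)⟩

theorem threshold_lower {k : ℕ} (hk : 4 ≤ k) (P : Pattern k) (hP : IsCherry P) (ρ : ℕ)
    (hρ : IsThreshold P ρ) : thr k ≤ ρ := by
  by_contra hlt
  push Not at hlt
  obtain ⟨n₀, hn₀⟩ := hρ.1.2 (thr k - 1) (by omega)
  obtain ⟨n, hn, he⟩ := lower_main (good_thr hk) n₀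
  apply hn₀ n hn
  intro H
  rw [cols_eq_cA _ P hP, cols_eq_cA _ P hP, he]
  have := cA_le_cmax k (thr k - 1) H
  simpa using this

theorem cherry_threshold {k : ℕ} (hk : 4 ≤ k) (P : Pattern k) (hP : IsCherry P) :
    ∃ ρ, IsThreshold P ρ ∧ thr k ≤ ρ ∧ ρ ≤ thr k + 1 ∧ (PalCond k (thr k) → ρ = thr k) := by
  obtain ⟨ρ, h1, h2, h3⟩ := exists_threshold hk P (cherry_ne_bot P hP)
  have h4 := threshold_lower hk P hP ρ h1
  exact ⟨ρ, h1, h4, h2, fun hp => le_antisymm (h3 hp) h4⟩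

theorem threshold_unique {k : ℕ} {P : Pattern k} {ρ ρ' : ℕ} (h : IsThreshold P ρ)
    (h' : IsThreshold P ρ') : ρ = ρ' := le_antisymm (h.2 h'.1) (h'.2 h.1)

theorem max_threshold {k : ℕ} (hk : 4 ≤ k) : ∃ ρ, IsMaxThreshold k ρ ∧ thr k ≤ ρ ∧
    ρ ≤ thr k + 1 ∧ (PalCond k (thr k) → ρ = thr k) := by
  obtain ⟨P0, hP0⟩ := exists_cherry (k := k) (by omega)
  obtain ⟨ρ0, h1, h2, h3, h4⟩ := cherry_threshold hk P0 hP0
  set M : Set ℕ := {ρ : ℕ | ∃ P : Pattern k, P ≠ ⊥ ∧ IsThreshold P ρ} with hM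
  have hmem : ρ0 ∈ M := ⟨P0, cherry_ne_bot P0 hP0, h1⟩
  have hub : ∀ ρ ∈ M, ρ ≤ thr k + 1 ∧ (PalCond k (thr k) → ρ ≤ thr k) := by
    rintro ρ ⟨P, hP, hρ⟩
    obtain ⟨ρ', h1', h2', h3'⟩ := exists_threshold hk P hP
    rw [threshold_unique hρ h1']
    exact ⟨h2', h3'⟩
  have hbdd : BddAbove M := ⟨thr k + 1, fun ρ hρ => (hub ρ hρ).1⟩
  have hs := Nat.sSup_mem ⟨ρ0, hmem⟩ hbdd
  refine ⟨sSup M, ⟨hs, fun ρ hρ => le_csSup hbdd hρ⟩, h2.trans (le_csSup hbdd hmem),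
    (hub _ hs).1, fun hp => le_antisymm ((hub _ hs).2 hp) (h2.trans (le_csSup hbdd hmem))⟩

theorem max_value {k N : ℕ} (hk : 4 ≤ k) (h : thr k = N) (hp : PalCond k N) :
    IsMaxThreshold k N := by
  obtain ⟨ρ, h1, _, _, h4⟩ := max_threshold hk
  rw [← h] at hp ⊢
  rw [← h4 hp]
  exact h1

theorem main_result :
    (∀ k : ℕ, 4 ≤ k →
      (∀ P : Pattern k, P ≠ ⊥ → ∃ ρ, IsThreshold P ρ ∧ ρ ≤ thr k + 1) ∧
      (∀ P : Pattern k, IsCherry P → ∃ ρ, IsThreshold P ρ ∧ thr k ≤ ρ ∧ ρ ≤ thr k + 1 ∧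
        (PalCond k (thr k) → ρ = thr k)) ∧
      (∃ ρ, IsMaxThreshold k ρ ∧ thr k ≤ ρ ∧ ρ ≤ thr k + 1 ∧
        (PalCond k (thr k) → ρ = thr k))) ∧
    IsMaxThreshold 4 3125 ∧ IsMaxThreshold 5 531441 ∧ IsMaxThreshold 6 104424894 ∧
    IsMaxThreshold 7 25850976094 ∧ IsMaxThreshold 8 7512132470576 ∧
    IsMaxThreshold 9 2574764442874189 ∧ IsMaxThreshold 10 1016908473161732417 := by
  refine ⟨fun k hk => ⟨fun P hP => ?_, fun P hP => cherry_threshold hk P hP,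
    max_threshold hk⟩, max_value (by norm_num) thr4 pc4, max_value (by norm_num) thr5 pc5,
    max_value (by norm_num) thr6 pc6, max_value (by norm_num) thr7 pc7,
    max_value (by norm_num) thr8 pc8, max_value (by norm_num) thr9 pc9,
    max_value (by norm_num) thr10 pc10⟩
  obtain ⟨ρ, h1, h2, _⟩ := exists_threshold hk P hP
  exact ⟨ρ, h1, h2⟩

end MP2ab38c
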