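import Pool.Agent.Lib.MP_2ab38c_co.XPalP

/-!
JOB XArith.  Equality in the palette inequality forces `l - 1 ∣ r`.
Proof.  `m = l - 1`, `q = r / m`, `s = r % m`; suppose `0 < s < m`.  By `palProd_eq`,
`(q^(m-s) (q+1)^s)^(k-1) = r^((m+1)(k-2))` (*).
Claim 1: `q^(m-s) ∣ s^(m+1)`.  For a prime `p` suppose `(m-s) v_p(q) > (m+1) v_p(s)`; then
`v_p(q) > v_p(s)`, `p ∤ q+1`, and `v_p(r) ≤ v_p(s)` because `p^(v_p(s)+1)` divides `q m` but not
`s = r - q m`.  (*) gives `(k-1)(m-s) v_p(q) = (m+1)(k-2) v_p(r) ≤ (k-1)(m+1) v_p(s)`,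
contradiction.  (`Nat.factorization_le_iff_dvd`, `Nat.factorization_pow`, `Nat.factorization_mul`.)
Claim 2: `(q+1)^s ∣ (m-s)^(m+1)`: the same with `r = (q+1) m - (m-s)`.
So `q^m ≤ q^(m-s) (q+1)^s ≤ (s (m-s))^(m+1)`, `4 s (m-s) ≤ m^2`, hence `q < m^3` and
`r < (q+1) m ≤ m^4 ≤ m^(k-1)`, contradiction.
-/

namespace MP2ab38c

theorem xarith_val {p r x y t N K' K : ℕ} (hp : p.Prime) (hx : x ≠ 0) (hy : y ≠ 0)
    (hr : r ≠ 0) (hK : 0 < K) (hKK : K' ≤ K) (htN : t ≤ N)
    (hdiv : ∀ j, p ^ j ∣ x → p ^ j ∣ r → p ^ j ∣ y)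
    (heq : p ∣ x → N * K' * r.factorization p = K * (t * x.factorization p)) :
    t * x.factorization p ≤ N * y.factorization p := by
  by_contra hcon
  push Not at hcon
  have h1 : y.factorization p < x.factorization p := by
    by_contra h
    push Not at h
    have : t * x.factorization p ≤ N * y.factorization p := Nat.mul_le_mul htN h
    omega
  have hpx : p ∣ x := by
    have := (hp.pow_dvd_iff_le_factorization hx (k := 1)).2 (by omega)
    simpa using this
  have h2 : r.factorization p ≤ y.factorization p := by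
    by_contra h
    push Not at h
    have e1 := (hp.pow_dvd_iff_le_factorization hx (k := y.factorization p + 1)).2 h1
    have e2 := (hp.pow_dvd_iff_le_factorization hr (k := y.factorization p + 1)).2 h
    have e3 := (hp.pow_dvd_iff_le_factorization hy (k := y.factorization p + 1)).1 (hdiv _ e1 e2)
    omega
  have h3 := heq hpx
  have h4 : K * (t * x.factorization p) ≤ K * (N * y.factorization p) := by
    rw [← h3]
    calc N * K' * r.factorization p ≤ N * K * y.factorization p := by gcongr
      _ = K * (N * y.factorization p) := by ring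
  exact absurd (Nat.le_of_mul_le_mul_left h4 hK) (by omega)

theorem dvd_of_eq {k l r : ℕ} (hk : 5 ≤ k) (hkl : k ≤ l) (hr : (l - 1) ^ (k - 1) ≤ r)
    (h : r ^ (l * (k - 2)) = palProd r (l - 1) ^ (k - 1)) : (l - 1) ∣ r := by
  obtain ⟨m, rfl⟩ : ∃ m, l = m + 1 := ⟨l - 1, by omega⟩
  rw [Nat.add_sub_cancel] at *
  have hm4 : 4 ≤ m := by omega
  by_contra hnd
  set q := r / m with hq
  set s := r % m with hs
  have hs0 : 0 < s := Nat.pos_of_ne_zero fun h0 => hnd (Nat.dvd_of_mod_eq_zero h0)
  have hsm : s < m := Nat.mod_lt _ (by omega)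
  have hrq : r = m * q + s := (Nat.div_add_mod r m).symm
  have hmq : m ^ 3 ≤ q := by
    rw [hq, Nat.le_div_iff_mul_le (by omega)]
    calc m ^ 3 * m = m ^ 4 := by ring
      _ ≤ m ^ (k - 1) := Nat.pow_le_pow_right (by omega) (by omega)
      _ ≤ r := hr
  have hq0 : 0 < q := lt_of_lt_of_le (by positivity) hmq
  have hr0 : r ≠ 0 := by omega
  rw [palProd_eq r m (by omega), ← hq, ← hs] at h
  have hfac : ∀ p : ℕ, (m + 1) * (k - 2) * r.factorization p =
      (k - 1) * ((m - s) * q.factorization p + s * (q + 1).factorization p) := by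
    intro p
    have h1 := congrArg (fun n => n.factorization p) h
    simp only [Nat.factorization_pow, Finsupp.smul_apply, smul_eq_mul] at h1
    rw [Nat.factorization_mul (by positivity) (by positivity)] at h1
    simp only [Nat.factorization_pow, Finsupp.smul_apply, Finsupp.add_apply, smul_eq_mul] at h1
    exact h1
  have c1 : q ^ (m - s) ∣ s ^ (m + 1) := by
    rw [← Nat.factorization_prime_le_iff_dvd (by positivity) (by positivity)]
    intro p hp
    simp only [Nat.factorization_pow, Finsupp.smul_apply, smul_eq_mul]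
    refine xarith_val (r := r) (K' := k - 2) (K := k - 1) hp (by omega) (by omega) hr0
      (by omega) (by omega) (by omega) ?_ ?_
    · intro j h1 h2
      rw [hrq] at h2
      exact (Nat.dvd_add_right (h1.mul_left m)).1 h2
    · intro hpq
      have : (q + 1).factorization p = 0 := by
        apply Nat.factorization_eq_zero_of_not_dvd
        intro h'
        have := (Nat.dvd_add_right hpq).1 h'
        exact hp.one_lt.ne' (Nat.dvd_one.1 this)
      rw [hfac p, this]
      ring
  have c2 : (q + 1) ^ s ∣ (m - s) ^ (m + 1) := by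
    have hms : m - s ≠ 0 := by omega
    rw [← Nat.factorization_prime_le_iff_dvd (by positivity) (pow_ne_zero _ hms)]
    intro p hp
    simp only [Nat.factorization_pow, Finsupp.smul_apply, smul_eq_mul]
    refine xarith_val (r := r) (K' := k - 2) (K := k - 1) hp (by omega) hms hr0
      (by omega) (by omega) (by omega) ?_ ?_
    · intro j h1 h2
      have e : r + (m - s) = (q + 1) * m := by
        have : (q + 1) * m = m * q + m := by ring
        omega
      have e2 : p ^ j ∣ r + (m - s) := by
        rw [e]; exact h1.mul_right m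
      exact (Nat.dvd_add_right h2).1 e2
    · intro hpq
      have : q.factorization p = 0 := by
        apply Nat.factorization_eq_zero_of_not_dvd
        intro h'
        have := (Nat.dvd_add_right h').1 hpq
        exact hp.one_lt.ne' (Nat.dvd_one.1 this)
      rw [hfac p, this]
      ring
  have l1 := Nat.le_of_dvd (by positivity) c1
  have l2 := Nat.le_of_dvd (Nat.pow_pos (by omega)) c2
  have l3 : q ^ m ≤ (m ^ 2) ^ (m + 1) := by
    calc q ^ m = q ^ (m - s) * q ^ s := by
          rw [← pow_add]; congr 1; omega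
      _ ≤ q ^ (m - s) * (q + 1) ^ s := by gcongr; omega
      _ ≤ s ^ (m + 1) * (m - s) ^ (m + 1) := Nat.mul_le_mul l1 l2
      _ = (s * (m - s)) ^ (m + 1) := (mul_pow _ _ _).symm
      _ ≤ (m ^ 2) ^ (m + 1) := by
          apply Nat.pow_le_pow_left
          calc s * (m - s) ≤ m * m := Nat.mul_le_mul hsm.le (Nat.sub_le _ _)
            _ = m ^ 2 := by ring
  have l4 : m ^ (3 * m) ≤ m ^ (2 * (m + 1)) := by
    calc m ^ (3 * m) = (m ^ 3) ^ m := by rw [pow_mul]
      _ ≤ q ^ m := Nat.pow_le_pow_left hmq m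
      _ ≤ (m ^ 2) ^ (m + 1) := l3
      _ = m ^ (2 * (m + 1)) := by rw [← pow_mul]
  have l5 := (Nat.pow_le_pow_iff_right (by omega : 1 < m)).1 l4
  omega

end MP2ab38c
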