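import Pool.Agent.Lib.MP_2ab38c_co.NLow
import Pool.Agent.Lib.MP_2ab38c_co.XArith

/-!
`r = thr k` satisfies `Good` if `k ≥ 11` and the palette inequality fails at `thr k`.
-/

namespace MP2ab38c

open Finset

/-- the product of the palette sizes is at most `(r/m)^m` -/
theorem log_palProd_le {r m : ℕ} (hm : 0 < m) (hr : m ≤ r) :
    Real.log (palProd r m) ≤ m * (Real.log r - Real.log m) := by
  have hmR : (0 : ℝ) < m := by exact_mod_cast hm
  have hrR : (0 : ℝ) < r := lt_of_lt_of_le hmR (by exact_mod_cast hr)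
  have hq : 1 ≤ r / m := (Nat.one_le_div_iff hm).2 hr
  have hqR : (1 : ℝ) ≤ ((r / m : ℕ) : ℝ) := by exact_mod_cast hq
  set q : ℝ := ((r / m : ℕ) : ℝ) with hqdef
  have hrq : (r : ℝ) = m * q + ((r % m : ℕ) : ℝ) := by
    have := Nat.div_add_mod r m
    rw [hqdef]
    exact_mod_cast this.symm
  have hs : ((r % m : ℕ) : ℝ) ≤ m := by exact_mod_cast (Nat.mod_lt r hm).le
  have hs0 : (0 : ℝ) ≤ ((r % m : ℕ) : ℝ) := Nat.cast_nonneg _
  set s : ℝ := ((r % m : ℕ) : ℝ) with hsdef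
  rw [log_palProd r m hm hr, ← hqdef]
  have hs2 : (r : ℝ) - m * q = s := by linarith
  rw [hs2]
  have key : ∀ t : ℝ, 0 < t → Real.log t ≤ (Real.log r - Real.log m) + (t * m / r - 1) := by
    intro t ht
    have h1 : 0 < t * m / r := by positivity
    have h2 := Real.log_le_sub_one_of_pos h1
    rw [Real.log_div (by positivity) hrR.ne', Real.log_mul ht.ne' hmR.ne'] at h2
    linarith
  have h1 := mul_le_mul_of_nonneg_left (key q (by linarith)) (sub_nonneg.2 hs)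
  have h2 := mul_le_mul_of_nonneg_left (key (q + 1) (by linarith)) hs0
  have h3 : ((m : ℝ) - s) * (q * m / r - 1) + s * ((q + 1) * m / r - 1) = 0 := by
    field_simp
    rw [hrq]
    ring
  nlinarith

theorem cont_of_pal {k l r : ℕ} (hk : 4 ≤ k) (hkl : k ≤ l) (hr : 1 ≤ r)
    (h : r ^ (l * (k - 2)) ≤ palProd r (l - 1) ^ (k - 1)) :
    (l - 1) ^ ((k - 1) * (l - 1)) ≤ r ^ (l - k + 1) := by
  obtain ⟨m, rfl⟩ : ∃ m, l = m + 1 := ⟨l - 1, by omega⟩
  simp only [Nat.add_sub_cancel] at h ⊢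
  have hm : 0 < m := by omega
  have hmr : m ≤ r := by
    by_contra hlt
    push Not at hlt
    have h0 : palProd r m = 0 := by
      unfold palProd
      apply Finset.prod_eq_zero (Finset.mem_range.2 hm)
      rw [Nat.add_zero, Nat.div_eq_of_lt hlt]
    rw [h0, zero_pow (by omega)] at h
    have : 0 < r ^ ((m + 1) * (k - 2)) := Nat.pow_pos hr
    omega
  have hmR : (0 : ℝ) < m := by exact_mod_cast hm
  have hrR : (0 : ℝ) < r := by exact_mod_cast hr
  have hp : 0 < palProd r m := by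
    unfold palProd
    exact Finset.prod_pos fun i _ => Nat.div_pos (by omega) hm
  have hpR : (0 : ℝ) < palProd r m := by exact_mod_cast hp
  have hL := log_palProd_le hm hmr
  have h2 : (r : ℝ) ^ ((m + 1) * (k - 2)) ≤ (palProd r m : ℝ) ^ (k - 1) := by exact_mod_cast h
  have h3 := Real.log_le_log (by positivity) h2
  rw [Real.log_pow, Real.log_pow] at h3
  push_cast [Nat.cast_sub (show 1 ≤ k by omega), Nat.cast_sub (show 2 ≤ k by omega)] at h3
  have hkR : (4 : ℝ) ≤ k := by exact_mod_cast hk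
  have h4 := mul_le_mul_of_nonneg_left hL (show (0 : ℝ) ≤ (k : ℝ) - 1 by linarith)
  have h5 : ((m : ℝ)) ^ ((k - 1) * m) ≤ (r : ℝ) ^ (m + 1 - k + 1) := by
    rw [← Real.log_le_log_iff (by positivity) (by positivity), Real.log_pow, Real.log_pow]
    push_cast [Nat.cast_sub (show 1 ≤ k by omega), Nat.cast_sub hkl]
    nlinarith
  exact_mod_cast h5

theorem pow_le_of_pal {k l r : ℕ} (hk : 4 ≤ k) (hkl : k ≤ l) (hr : 1 ≤ r)
    (h : r ^ (l * (k - 2)) ≤ palProd r (l - 1) ^ (k - 1)) : (l - 1) ^ (k - 1) ≤ r := by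
  have h1 := cont_of_pal hk hkl hr h
  have h2 : ((l - 1) ^ (k - 1)) ^ (l - 1) ≤ r ^ (l - 1) := by
    rw [← pow_mul]
    exact h1.trans (Nat.pow_le_pow_right hr (by omega))
  exact (Nat.pow_le_pow_iff_left (by omega)).1 h2

theorem palCond_iff {k r : ℕ} (hk : 5 ≤ k) (hr : 1 ≤ r) : PalCond k r ↔
    ∃ l : ℕ, Even l ∧ k ≤ l ∧ r ^ (l * (k - 2)) ≤ palProd r (l - 1) ^ (k - 1) := by
  constructor
  · rintro ⟨l, hl, hkl, h | ⟨-, h⟩⟩
    · exact ⟨l, hl, hkl, h.le⟩
    · exact ⟨l, hl, hkl, h.le⟩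
  · rintro ⟨l, hl, hkl, h⟩
    refine ⟨l, hl, hkl, ?_⟩
    rcases h.lt_or_eq with h' | h'
    · exact Or.inl h'
    · exact Or.inr ⟨dvd_of_eq hk hkl (pow_le_of_pal (by omega) hkl hr h) h', h'⟩

theorem thr_le_of_pal {k r : ℕ} (hk : 4 ≤ k) (hr : 1 ≤ r)
    (h : ∃ l : ℕ, Even l ∧ k ≤ l ∧ r ^ (l * (k - 2)) ≤ palProd r (l - 1) ^ (k - 1)) :
    thr k ≤ r := by
  obtain ⟨l, hl, hkl, h⟩ := h
  exact Nat.sInf_le ⟨l, hl, hkl, cont_of_pal hk hkl hr h⟩

theorem good_thr2 {k : ℕ} (hk : 11 ≤ k) (hP : ¬ PalCond k (thr k)) : Good k (thr k) := by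
  have hG := good_thr (k := k) (by omega)
  have h13 := hG.h5 (by omega)
  have hpos : 1 ≤ thr k := by
    by_contra hcon
    have h0 : thr k = 0 := by omega
    rw [h0] at h13
    norm_num at h13
  have hpos' : (0 : ℝ) < ((thr k - 1 : ℕ) : ℝ) := by
    by_contra hcon
    have h0 : ((thr k - 1 : ℕ) : ℝ) = 0 := le_antisymm (not_lt.1 hcon) (Nat.cast_nonneg _)
    rw [h0, Real.log_zero] at h13
    norm_num at h13
  have hlog : Real.log ((thr k - 1 : ℕ) : ℝ) ≤ Real.log (thr k) := by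
    apply Real.log_le_log hpos'
    exact_mod_cast Nat.sub_le _ _
  refine ⟨by omega, Or.inr ⟨hk, ?_, ?_⟩, fun h => by omega, fun _ => h13.trans hlog,
    hG.hR.trans hlog⟩
  · intro l hle hkl
    by_contra hcon
    push Not at hcon
    have : thr k ≤ thr k - 1 := Nat.sInf_le ⟨l, hle, hkl, hcon⟩
    omega
  · intro l hle hkl
    by_contra hcon
    push Not at hcon
    exact hP ((palCond_iff (by omega) hpos).2 ⟨l, hle, hkl, hcon⟩)

end MP2ab38c
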