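import Pool.Agent.Lib.MP_2ab38c_co.Main
import Pool.Agent.Lib.MP_2ab38c_co.XNLow

/-!
The exact value of `r_1(k)` for all `k ≥ 4`.
-/

namespace MP2ab38c

open Finset SimpleGraph

theorem thr_pos {k : ℕ} (hk : 4 ≤ k) : 4 ≤ thr k := thr_ge hk

theorem palThr_mem {k : ℕ} (hk : 4 ≤ k) : 1 ≤ palThr k ∧ ∃ l : ℕ, Even l ∧ k ≤ l ∧
    palThr k ^ (l * (k - 2)) ≤ palProd (palThr k) (l - 1) ^ (k - 1) := by
  have hne : {r : ℕ | 1 ≤ r ∧ ∃ l : ℕ, Even l ∧ k ≤ l ∧
      r ^ (l * (k - 2)) ≤ palProd r (l - 1) ^ (k - 1)}.Nonempty := by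
    obtain ⟨l, hl, hkl, h⟩ := palCond_up (r := thr k + 1) hk le_rfl
    exact ⟨thr k + 1, by omega, l, hl, hkl, h.le⟩
  exact Nat.sInf_mem hne

theorem thr_le_palThr {k : ℕ} (hk : 4 ≤ k) : thr k ≤ palThr k :=
  thr_le_of_pal hk (palThr_mem hk).1 (palThr_mem hk).2

theorem palThr_le {k : ℕ} (hk : 4 ≤ k) : palThr k ≤ thr k + 1 := by
  obtain ⟨l, hl, hkl, h⟩ := palCond_up (r := thr k + 1) hk le_rfl
  exact Nat.sInf_le ⟨by omega, l, hl, hkl, h.le⟩

theorem palThr_eq_of_palCond {k : ℕ} (hk : 4 ≤ k) (h : PalCond k (thr k)) :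
    palThr k = thr k := by
  refine le_antisymm ?_ (thr_le_palThr hk)
  have h4 := thr_ge hk
  obtain ⟨l, hl, hkl, h | ⟨-, h⟩⟩ := h
  · exact Nat.sInf_le ⟨by omega, l, hl, hkl, h.le⟩
  · exact Nat.sInf_le ⟨by omega, l, hl, hkl, h.le⟩

/-- the palette condition holds at the threshold for `4 ≤ k ≤ 10` -/
theorem palCond_small {k : ℕ} (hk : 4 ≤ k) (hk' : k ≤ 10) : PalCond k (thr k) := by
  interval_cases k
  · rw [thr4]; exact pc4
  · rw [thr5]; exact pc5
  · rw [thr6]; exact pc6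
  · rw [thr7]; exact pc7
  · rw [thr8]; exact pc8
  · rw [thr9]; exact pc9
  · rw [thr10]; exact pc10

theorem palThr_eq_succ {k : ℕ} (hk : 4 ≤ k) (h : ¬ PalCond k (thr k)) :
    palThr k = thr k + 1 := by
  have h11 : 11 ≤ k := by
    by_contra hcon
    exact h (palCond_small hk (by omega))
  refine le_antisymm (palThr_le hk) ?_
  by_contra hcon
  have heq : palThr k = thr k := le_antisymm (by omega) (thr_le_palThr hk)
  have hm := palThr_mem hk
  rw [heq] at hm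
  exact h ((palCond_iff (by omega) hm.1).2 hm.2)

theorem exists_threshold2 {k : ℕ} (hk : 4 ≤ k) (P : Pattern k) (hP : P ≠ ⊥) :
    ∃ ρ, IsThreshold P ρ ∧ ρ ≤ palThr k := by
  obtain ⟨ρ, h1, h2, h3⟩ := exists_threshold hk P hP
  refine ⟨ρ, h1, ?_⟩
  by_cases h : PalCond k (thr k)
  · rw [palThr_eq_of_palCond hk h]
    exact h3 h
  · rw [palThr_eq_succ hk h]
    exact h2

theorem cherry_threshold2 {k : ℕ} (hk : 4 ≤ k) (P : Pattern k) (hP : IsCherry P) :
    IsThreshold P (palThr k) := by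
  obtain ⟨ρ, h1, h2⟩ := exists_threshold2 hk P (cherry_ne_bot P hP)
  have h3 : palThr k ≤ ρ := by
    by_cases h : PalCond k (thr k)
    · rw [palThr_eq_of_palCond hk h]
      exact threshold_lower hk P hP ρ h1
    · rw [palThr_eq_succ hk h]
      have h11 : 11 ≤ k := by
        by_contra hcon
        exact h (palCond_small hk (by omega))
      by_contra hlt
      push Not at hlt
      obtain ⟨n₀, hn₀⟩ := h1.1.2 (thr k) (by omega)
      obtain ⟨n, hn, he⟩ := lower_main (good_thr2 h11 h) n₀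
      apply hn₀ n hn
      intro H
      rw [cols_eq_cA _ P hP, cols_eq_cA _ P hP, he]
      have := cA_le_cmax k (thr k) H
      simpa using this
  rw [le_antisymm h3 h2]
  exact h1

theorem max_threshold2 {k : ℕ} (hk : 4 ≤ k) : IsMaxThreshold k (palThr k) := by
  obtain ⟨P0, hP0⟩ := exists_cherry (k := k) (by omega)
  refine ⟨⟨P0, cherry_ne_bot P0 hP0, cherry_threshold2 hk P0 hP0⟩, ?_⟩
  rintro ρ ⟨P, hP, hρ⟩
  obtain ⟨ρ', h1', h2'⟩ := exists_threshold2 hk P hP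
  rw [threshold_unique hρ h1']
  exact h2'

theorem main_result2 :
    (∀ k : ℕ, 4 ≤ k →
      IsMaxThreshold k (palThr k) ∧
      (∀ P : Pattern k, IsCherry P → IsThreshold P (palThr k)) ∧
      (∀ P : Pattern k, P ≠ ⊥ → ∃ ρ, IsThreshold P ρ ∧ ρ ≤ palThr k) ∧
      thr k ≤ palThr k ∧ palThr k ≤ thr k + 1) ∧
    IsMaxThreshold 4 3125 ∧ IsMaxThreshold 5 531441 ∧ IsMaxThreshold 6 104424894 ∧
    IsMaxThreshold 7 25850976094 ∧ IsMaxThreshold 8 7512132470576 ∧
    IsMaxThreshold 9 2574764442874189 ∧ IsMaxThreshold 10 1016908473161732417 :=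
  ⟨fun _ hk => ⟨max_threshold2 hk, fun P hP => cherry_threshold2 hk P hP,
    fun P hP => exists_threshold2 hk P hP, thr_le_palThr hk, palThr_le hk⟩, main_result.2⟩

end MP2ab38c
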