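import Pool.Agent.Lib.MP_2ab38c_co.Core

/-!
JOB RReg.  Frieze-Kannan weak regularity for `r` matrices simultaneously, by energy increment.
`energy P A = ∑_{u,v} (avg P A u v)^2`.
* `energy ≤ n^2` if `0 ≤ A ≤ 1`; refinement does not decrease the energy (conditional expectation:
  for `P = g ∘ P'`, `∑ (avg P' A - avg P A)^2 = energy P' A - energy P A`).
* If `|∑_{S x T} (A - avg P A)| > C`, let `P' u = (P u, u ∈ S, u ∈ T)`.  `S`, `T` are unions of
  classes of `P'`, so `∑_{S x T} A = ∑_{S x T} avg P' A`, hence by Cauchy-Schwarz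
  `C^2 < n^2 ∑ (avg P' A - avg P A)^2 = n^2 (energy P' A - energy P A)`.
* `weak_reg`: start with the trivial partition; while some colour `c` has a rectangle with error
  `> ε n^2`, refine: `∑_c energy P (A c)` grows by at least `ε^2 n^2` and stays `≤ r n^2`, so at
  most `r/ε^2` steps, each multiplying the number of classes by 4.  `K0 = 4^(⌈r/ε^2⌉+1)`.
-/

namespace MP2ab38c

open Finset

section

variable {V K K' : Type} [Fintype V] [DecidableEq K] [DecidableEq K']

private lemma RReg_N_pos (P : V → K) (u : V) : 0 < (#{u' | P u' = P u} : ℝ) := by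
  have : u ∈ (univ.filter (fun u' => P u' = P u)) := by simp
  exact_mod_cast card_pos.2 ⟨u, this⟩

private lemma RReg_block (P : V → K) (x y : K) (c : ℝ) :
    ∑ u, ∑ v, (if x = P u ∧ y = P v then c else 0) =
      ((#{u | P u = x} : ℝ) * (#{v | P v = y} : ℝ)) * c := by
  have h1 : ∀ u v, (if x = P u ∧ y = P v then c else 0) =
      (if P u = x then (1 : ℝ) else 0) * ((if P v = y then (1 : ℝ) else 0) * c) := by
    intro u v
    by_cases h2 : x = P u
    · by_cases h3 : y = P v
      · rw [if_pos ⟨h2, h3⟩, if_pos h2.symm, if_pos h3.symm, one_mul, one_mul]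
      · rw [if_neg (fun h => h3 h.2), if_neg (fun h : P v = y => h3 h.symm), zero_mul, mul_zero]
    · rw [if_neg (fun h => h2 h.1), if_neg (fun h : P u = x => h2 h.symm), zero_mul]
  simp only [h1]
  rw [← sum_boole, ← sum_boole, sum_mul_sum, sum_mul]
  apply sum_congr rfl
  intro u _
  rw [sum_mul]
  apply sum_congr rfl
  intro v _
  ring

private lemma RReg_sum (P : V → K) (A : V → V → ℝ) (ψ : K → K → ℝ) :
    ∑ u, ∑ v, ψ (P u) (P v) * avg P A u v = ∑ u, ∑ v, ψ (P u) (P v) * A u v := by
  have h1 : ∀ u v, ψ (P u) (P v) * avg P A u v =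
      ∑ u', ∑ v', if P u' = P u ∧ P v' = P v then ψ (P u') (P v') * A u' v' /
        ((#{w | P w = P u'} : ℝ) * (#{w | P w = P v'} : ℝ)) else 0 := by
    intro u v
    unfold avg
    rw [mul_div_assoc', mul_sum, sum_div]
    apply sum_congr rfl
    intro u' _
    rw [mul_sum, sum_div]
    apply sum_congr rfl
    intro v' _
    split_ifs with h
    · rw [h.1, h.2]
    · simp
  simp only [h1]
  calc ∑ u, ∑ v, ∑ u', ∑ v', (if P u' = P u ∧ P v' = P v then ψ (P u') (P v') * A u' v' /
        ((#{w | P w = P u'} : ℝ) * (#{w | P w = P v'} : ℝ)) else 0)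
      = ∑ u, ∑ u', ∑ v, ∑ v', (if P u' = P u ∧ P v' = P v then ψ (P u') (P v') * A u' v' /
        ((#{w | P w = P u'} : ℝ) * (#{w | P w = P v'} : ℝ)) else 0) :=
        sum_congr rfl fun u _ => sum_comm
    _ = ∑ u', ∑ u, ∑ v, ∑ v', (if P u' = P u ∧ P v' = P v then ψ (P u') (P v') * A u' v' /
        ((#{w | P w = P u'} : ℝ) * (#{w | P w = P v'} : ℝ)) else 0) := sum_comm
    _ = ∑ u', ∑ u, ∑ v', ∑ v, (if P u' = P u ∧ P v' = P v then ψ (P u') (P v') * A u' v' /
        ((#{w | P w = P u'} : ℝ) * (#{w | P w = P v'} : ℝ)) else 0) :=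
        sum_congr rfl fun u' _ => sum_congr rfl fun u _ => sum_comm
    _ = ∑ u', ∑ v', ∑ u, ∑ v, (if P u' = P u ∧ P v' = P v then ψ (P u') (P v') * A u' v' /
        ((#{w | P w = P u'} : ℝ) * (#{w | P w = P v'} : ℝ)) else 0) :=
        sum_congr rfl fun u' _ => sum_comm
    _ = _ := by
        apply sum_congr rfl
        intro u' _
        apply sum_congr rfl
        intro v' _
        rw [RReg_block P (P u') (P v')]
        have p1 := (RReg_N_pos P u').ne'
        have p2 := (RReg_N_pos P v').ne'
        field_simp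

private noncomputable def RReg_K (P : V → K) (A : V → V → ℝ) (x y : K) : ℝ :=
  (∑ u', ∑ v', if P u' = x ∧ P v' = y then A u' v' else 0) /
    ((#{u' | P u' = x} : ℝ) * (#{v' | P v' = y} : ℝ))

private lemma RReg_K_eq (P : V → K) (A : V → V → ℝ) (u v : V) :
    avg P A u v = RReg_K P A (P u) (P v) := rfl

private noncomputable def RReg_en (P : V → K) (A : V → V → ℝ) : ℝ :=
  ∑ u, ∑ v, (avg P A u v) ^ 2

private lemma RReg_diff (P : V → K) (P' : V → K') (g : K' → K) (hg : ∀ u, P u = g (P' u))
    (A : V → V → ℝ) :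
    ∑ u, ∑ v, (avg P' A u v - avg P A u v) ^ 2 = RReg_en P' A - RReg_en P A := by
  have h1 : ∑ u, ∑ v, avg P A u v * avg P' A u v = RReg_en P A := by
    have e1 : ∑ u, ∑ v, avg P A u v * avg P' A u v =
        ∑ u, ∑ v, RReg_K P A (g (P' u)) (g (P' v)) * avg P' A u v := by
      apply sum_congr rfl
      intro u _
      apply sum_congr rfl
      intro v _
      rw [RReg_K_eq P A u v, hg u, hg v]
    rw [e1, RReg_sum P' A (fun x y => RReg_K P A (g x) (g y))]
    have e2 : ∑ u, ∑ v, RReg_K P A (g (P' u)) (g (P' v)) * A u v =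
        ∑ u, ∑ v, RReg_K P A (P u) (P v) * A u v := by
      apply sum_congr rfl
      intro u _
      apply sum_congr rfl
      intro v _
      rw [hg u, hg v]
    rw [e2, ← RReg_sum P A (RReg_K P A)]
    unfold RReg_en
    apply sum_congr rfl
    intro u _
    apply sum_congr rfl
    intro v _
    rw [← RReg_K_eq, pow_two]
  have h2 : ∑ u, ∑ v, (avg P' A u v - avg P A u v) ^ 2 = RReg_en P' A + RReg_en P A -
      2 * ∑ u, ∑ v, avg P A u v * avg P' A u v := by
    unfold RReg_en
    rw [mul_sum, ← sum_add_distrib, ← sum_sub_distrib]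
    apply sum_congr rfl
    intro u _
    rw [mul_sum, ← sum_add_distrib, ← sum_sub_distrib]
    apply sum_congr rfl
    intro v _
    ring
  rw [h2, h1]
  ring

private lemma RReg_mono (P : V → K) (P' : V → K') (g : K' → K) (hg : ∀ u, P u = g (P' u))
    (A : V → V → ℝ) : RReg_en P A ≤ RReg_en P' A := by
  have h1 := RReg_diff P P' g hg A
  have h2 : 0 ≤ ∑ u, ∑ v, (avg P' A u v - avg P A u v) ^ 2 :=
    sum_nonneg fun _ _ => sum_nonneg fun _ _ => sq_nonneg _
  linarith

private lemma RReg_bd (P : V → K) (A : V → V → ℝ) (hA : ∀ u v, 0 ≤ A u v ∧ A u v ≤ 1) (u v : V) :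
    0 ≤ avg P A u v ∧ avg P A u v ≤ 1 := by
  have p1 := RReg_N_pos P u
  have p2 := RReg_N_pos P v
  unfold avg
  constructor
  · apply div_nonneg _ (mul_pos p1 p2).le
    apply sum_nonneg
    intro u' _
    apply sum_nonneg
    intro v' _
    split_ifs
    · exact (hA _ _).1
    · exact le_rfl
  · rw [div_le_one (mul_pos p1 p2)]
    have h1 := RReg_block P (P u) (P v) 1
    rw [mul_one] at h1
    rw [← h1]
    apply sum_le_sum
    intro u' _
    apply sum_le_sum
    intro v' _
    by_cases h : P u' = P u ∧ P v' = P v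
    · rw [if_pos h, if_pos ⟨h.1.symm, h.2.symm⟩]
      exact (hA _ _).2
    · rw [if_neg h]
      split_ifs
      · exact zero_le_one
      · exact le_rfl

private lemma RReg_en_le (P : V → K) (A : V → V → ℝ) (hA : ∀ u v, 0 ≤ A u v ∧ A u v ≤ 1) :
    RReg_en P A ≤ (Fintype.card V : ℝ) ^ 2 := by
  unfold RReg_en
  calc ∑ u, ∑ v, (avg P A u v) ^ 2 ≤ ∑ u : V, ∑ v : V, (1 : ℝ) := by
        apply sum_le_sum
        intro u _
        apply sum_le_sum
        intro v _
        have := RReg_bd P A hA u v
        exact pow_le_one₀ this.1 this.2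
    _ = _ := by
        simp only [sum_const, card_univ, nsmul_eq_mul, mul_one]
        ring

/-- the energy increment -/
private lemma RReg_inc (P : V → K) (P' : V → K') (g : K' → K) (hg : ∀ u, P u = g (P' u))
    (A : V → V → ℝ) (S T : Finset V) (σ τ : K' → ℝ) (hσ : ∀ u, σ (P' u) = 1 ∧ u ∈ S ∨
      σ (P' u) = 0 ∧ u ∉ S) (hτ : ∀ u, τ (P' u) = 1 ∧ u ∈ T ∨ τ (P' u) = 0 ∧ u ∉ T) (C : ℝ)
    (hC : 0 ≤ C) (h : C < |∑ u ∈ S, ∑ v ∈ T, (A u v - avg P A u v)|) :
    C ^ 2 ≤ (Fintype.card V : ℝ) ^ 2 * (RReg_en P' A - RReg_en P A) := by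
  classical
  have hrect : ∀ B : V → V → ℝ, ∑ u ∈ S, ∑ v ∈ T, B u v =
      ∑ u, ∑ v, (σ (P' u) * τ (P' v)) * B u v := by
    intro B
    rw [← sum_filter_add_sum_filter_not univ (fun u => u ∈ S)
      (f := fun u => ∑ v, (σ (P' u) * τ (P' v)) * B u v)]
    have z1 : ∑ u ∈ univ.filter (fun u => ¬ u ∈ S), ∑ v,
        (σ (P' u) * τ (P' v)) * B u v = 0 := by
      apply sum_eq_zero
      intro u hu
      rw [mem_filter] at hu
      apply sum_eq_zero
      intro v _
      rcases hσ u with h1 | h1
      · exact absurd h1.2 hu.2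
      · simp only [h1.1, zero_mul]
    rw [z1, add_zero]
    have e1 : univ.filter (fun u => u ∈ S) = S := by ext; simp
    rw [e1]
    apply sum_congr rfl
    intro u hu
    rw [← sum_filter_add_sum_filter_not univ (fun v => v ∈ T)
      (f := fun v => (σ (P' u) * τ (P' v)) * B u v)]
    have z2 : ∑ v ∈ univ.filter (fun v => ¬ v ∈ T),
        (σ (P' u) * τ (P' v)) * B u v = 0 := by
      apply sum_eq_zero
      intro v hv
      rw [mem_filter] at hv
      rcases hτ v with h1 | h1
      · exact absurd h1.2 hv.2
      · simp only [h1.1, mul_zero, zero_mul]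
    rw [z2, add_zero]
    have e2 : univ.filter (fun v => v ∈ T) = T := by ext; simp
    rw [e2]
    apply sum_congr rfl
    intro v hv
    have s1 : σ (P' u) = 1 := by
      rcases hσ u with h1 | h1
      · exact h1.1
      · exact absurd hu h1.2
    have s2 : τ (P' v) = 1 := by
      rcases hτ v with h1 | h1
      · exact h1.1
      · exact absurd hv h1.2
    simp only [s1, s2, one_mul]
  have h1 : ∑ u ∈ S, ∑ v ∈ T, (A u v - avg P A u v) =
      ∑ u ∈ S, ∑ v ∈ T, (avg P' A u v - avg P A u v) := by
    simp only [sum_sub_distrib]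
    rw [hrect A, hrect (avg P' A), RReg_sum P' A (fun x y => σ x * τ y)]
  rw [h1] at h
  have h2 : C ^ 2 ≤ (∑ u ∈ S, ∑ v ∈ T, (avg P' A u v - avg P A u v)) ^ 2 := by
    rw [← sq_abs (∑ u ∈ S, ∑ v ∈ T, (avg P' A u v - avg P A u v))]
    exact pow_le_pow_left₀ hC h.le 2
  refine h2.trans ?_
  rw [← RReg_diff P P' g hg A, ← sum_product']
  refine sq_sum_le_card_mul_sum_sq.trans ?_
  have h3 : ((S ×ˢ T).card : ℝ) ≤ (Fintype.card V : ℝ) ^ 2 := by
    rw [card_product, pow_two]
    push_cast
    exact mul_le_mul (by exact_mod_cast card_le_univ S) (by exact_mod_cast card_le_univ T)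
      (by positivity) (by positivity)
  have h4 : ∑ i ∈ S ×ˢ T, (avg P' A i.1 i.2 - avg P A i.1 i.2) ^ 2 ≤
      ∑ u, ∑ v, (avg P' A u v - avg P A u v) ^ 2 := by
    rw [← sum_product']
    apply sum_le_sum_of_subset_of_nonneg
    · exact product_subset_product (subset_univ _) (subset_univ _)
    · intro i _ _
      exact sq_nonneg _
  exact mul_le_mul h3 h4 (sum_nonneg fun _ _ => sq_nonneg _) (by positivity)

private lemma RReg_congr (P : V → K) (P' : V → K') (h : ∀ u v, P u = P v ↔ P' u = P' v)
    (A : V → V → ℝ) (u v : V) : avg P A u v = avg P' A u v := by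
  unfold avg
  have e1 : ∀ w : V, univ.filter (fun u' => P u' = P w) = univ.filter (fun u' => P' u' = P' w) := by
    intro w
    ext x
    simp only [mem_filter, mem_univ, true_and]
    exact h x w
  rw [e1 u, e1 v]
  congr 1
  apply sum_congr rfl
  intro u' _
  apply sum_congr rfl
  intro v' _
  exact if_congr (and_congr (h _ _) (h _ _)) rfl rfl

end

theorem weak_reg (r : ℕ) (ε : ℝ) (hε : 0 < ε) : ∃ K0 : ℕ, 0 < K0 ∧
    ∀ (V : Type) [Fintype V] [DecidableEq V] (A : Fin r → V → V → ℝ),
      (∀ c u v, 0 ≤ A c u v ∧ A c u v ≤ 1) →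
      ∃ P : V → Fin K0, ∀ c,
        CutBd (fun u v => A c u v - avg P (A c) u v) (ε * (Fintype.card V : ℝ) ^ 2) := by
  obtain ⟨s0, hs0⟩ := exists_nat_gt ((r : ℝ) / ε ^ 2)
  refine ⟨4 ^ s0, by positivity, ?_⟩
  intro V _ _ A hA
  have step : ∀ s : ℕ,
      (∃ P : V → ℕ, (∀ u, P u < 4 ^ s) ∧ ∀ c,
        CutBd (fun u v => A c u v - avg P (A c) u v) (ε * (Fintype.card V : ℝ) ^ 2)) ∨
      (∃ P : V → ℕ, (∀ u, P u < 4 ^ s) ∧
        (s : ℝ) * (ε ^ 2 * (Fintype.card V : ℝ) ^ 2) ≤ ∑ c, RReg_en P (A c)) := by
    intro s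
    induction s with
    | zero =>
      right
      refine ⟨fun _ => 0, fun _ => by norm_num, ?_⟩
      rw [Nat.cast_zero, zero_mul]
      exact sum_nonneg fun _ _ => sum_nonneg fun _ _ => sum_nonneg fun _ _ => sq_nonneg _
    | succ s ih =>
      rcases ih with ⟨P, hP, hcut⟩ | ⟨P, hP, hen⟩
      · left
        exact ⟨P, fun u => (hP u).trans (by rw [pow_succ]; have : 0 < 4 ^ s := by positivity
                                            omega), hcut⟩
      · by_cases hall : ∀ c, CutBd (fun u v => A c u v - avg P (A c) u v)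
            (ε * (Fintype.card V : ℝ) ^ 2)
        · left
          exact ⟨P, fun u => (hP u).trans (by rw [pow_succ]; have : 0 < 4 ^ s := by positivity
                                              omega), hall⟩
        · right
          push Not at hall
          obtain ⟨c, hc⟩ := hall
          unfold CutBd at hc
          push Not at hc
          obtain ⟨S, T, hST⟩ := hc
          let P' : V → ℕ := fun u => 4 * P u + (if u ∈ S then 2 else 0) + (if u ∈ T then 1 else 0)
          have hg : ∀ u, P u = (fun x : ℕ => x / 4) (P' u) := by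
            intro u
            simp only [P']
            split_ifs <;> omega
          have hinc := RReg_inc P P' (fun x : ℕ => x / 4) hg (A c) S T
            (fun x => if (x / 2) % 2 = 1 then 1 else 0) (fun x => if x % 2 = 1 then 1 else 0)
            (by
              intro u
              by_cases h1 : u ∈ S
              · left
                refine ⟨if_pos ?_, h1⟩
                simp only [P']
                rw [if_pos h1]
                split_ifs <;> omega
              · right
                refine ⟨if_neg ?_, h1⟩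
                simp only [P']
                rw [if_neg h1]
                split_ifs <;> omega)
            (by
              intro u
              by_cases h1 : u ∈ T
              · left
                refine ⟨if_pos ?_, h1⟩
                simp only [P']
                rw [if_pos h1]
                split_ifs <;> omega
              · right
                refine ⟨if_neg ?_, h1⟩
                simp only [P']
                rw [if_neg h1]
                split_ifs <;> omega)
            (ε * (Fintype.card V : ℝ) ^ 2) (by positivity) hST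
          refine ⟨P', ?_, ?_⟩
          · intro u
            have := hP u
            rw [pow_succ]
            simp only [P']
            split_ifs <;> omega
          · have h1 : ∑ c', RReg_en P (A c') + (RReg_en P' (A c) - RReg_en P (A c)) ≤
                ∑ c', RReg_en P' (A c') := by
              have h2 : ∑ c', RReg_en P' (A c') - ∑ c', RReg_en P (A c') =
                  ∑ c', (RReg_en P' (A c') - RReg_en P (A c')) := (sum_sub_distrib _ _).symm
              have h3 : RReg_en P' (A c) - RReg_en P (A c) ≤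
                  ∑ c', (RReg_en P' (A c') - RReg_en P (A c')) :=
                single_le_sum (f := fun c' => RReg_en P' (A c') - RReg_en P (A c'))
                  (fun c' _ => by
                    have := RReg_mono P P' (fun x : ℕ => x / 4) hg (A c')
                    linarith) (mem_univ c)
              linarith
            have h4 : ε ^ 2 * (Fintype.card V : ℝ) ^ 2 ≤ RReg_en P' (A c) - RReg_en P (A c) := by
              rcases isEmpty_or_nonempty V with hV | hV
              · have := RReg_mono P P' (fun x : ℕ => x / 4) hg (A c)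
                rw [Fintype.card_eq_zero]
                simp only [Nat.cast_zero]
                nlinarith
              · have hn : (0 : ℝ) < Fintype.card V := by exact_mod_cast Fintype.card_pos
                have h5 : (Fintype.card V : ℝ) ^ 2 * (ε ^ 2 * (Fintype.card V : ℝ) ^ 2) ≤
                    (Fintype.card V : ℝ) ^ 2 * (RReg_en P' (A c) - RReg_en P (A c)) := by
                  refine le_trans (le_of_eq ?_) hinc
                  ring
                exact le_of_mul_le_mul_left h5 (pow_pos hn 2)
            push_cast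
            linarith
  have hfin : ∃ P : V → ℕ, (∀ u, P u < 4 ^ s0) ∧ ∀ c,
        CutBd (fun u v => A c u v - avg P (A c) u v) (ε * (Fintype.card V : ℝ) ^ 2) := by
    rcases isEmpty_or_nonempty V with hV | hV
    · refine ⟨fun _ => 0, fun _ => by positivity, ?_⟩
      intro c S T
      rw [show S = ∅ from Finset.eq_empty_of_isEmpty S, sum_empty, abs_zero]
      positivity
    · rcases step s0 with h | ⟨P, _, hen⟩
      · exact h
      · exfalso
        have hn : (0 : ℝ) < Fintype.card V := by exact_mod_cast Fintype.card_pos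
        have h1 : ∑ c, RReg_en P (A c) ≤ r * (Fintype.card V : ℝ) ^ 2 := by
          calc ∑ c, RReg_en P (A c) ≤ ∑ c : Fin r, (Fintype.card V : ℝ) ^ 2 :=
                sum_le_sum fun c _ => RReg_en_le P (A c) (hA c)
            _ = _ := by rw [sum_const, card_univ, Fintype.card_fin, nsmul_eq_mul]
        have h2 : (r : ℝ) < s0 * ε ^ 2 := by
          rw [div_lt_iff₀ (by positivity)] at hs0
          exact hs0
        have h3 := mul_lt_mul_of_pos_right h2 (pow_pos hn 2)
        linarith
  obtain ⟨P, hP, hcut⟩ := hfin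
  refine ⟨fun u => ⟨P u, hP u⟩, ?_⟩
  intro c S T
  have h1 := hcut c S T
  have h2 : ∀ u v, avg (fun u => (⟨P u, hP u⟩ : Fin (4 ^ s0))) (A c) u v = avg P (A c) u v := by
    intro u v
    apply RReg_congr
    intro x y
    rw [Fin.mk.injEq]
  simp only [h2]
  exact h1

end MP2ab38c
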