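import Pool.Agent.Lib.MP_2ab38c_co.RCut
import Pool.Agent.Lib.MP_2ab38c_co.RReg

/-!
JOB RBad.  From one cherry-free colouring of a complete multipartite graph to a partition into
boundedly many classes and lists on the pairs of classes.

Proof.  `n = |V|`, `C = C(k,2)`.  Put `η' = η/(r+1)` (`η' ≤ 1` wlog), and
`ε = η η'^C / (C (r+1)^(number of elements of Sym2 (Fin k)) + 1)`.  Let
`A c u v = 1` if `ext F s(u,v) = some c`, else `0` (symmetric).  `weak_reg` gives
`P : V → Fin K0`.  Let `d c a b` be the density of `A c` between the classes `a`, `b` (the value of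
`avg P (A c)` there, `0` if a class is empty); `L0 s(a,b) = {c | η' ≤ d c a b}`.
(x) an edge `e = uv` with `F e = c ∉ L0`: for each `c` and each pair of classes at most
`η' |V_a||V_b|` ordered pairs, in total at most `r η' n^2 ≤ η n^2`.
(b) if `v : Fin k → V` is a bad tuple with colours `c : Sym2 (Fin k) → Fin r` then
`avg P (A (c s(a,b))) (v a) (v b) ≥ η'` for all `a < b`.  So the number of bad tuples is at most
`∑_c η'^(-C) ∑_v ∏_{a<b} avg P (A (c s(a,b))) (v a) (v b)`, over the `c` with
`OneAdj univ c`, and by `counting` the inner sum is at most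
`∑_v ∏_{a<b} A (c s(a,b)) (v a) (v b) + C ε n^k = C ε n^k`: a nonzero term would give `v` with
`ext F s(v a, v b) = some (c s(a,b))` for all `a ≠ b`, so all `v a`, `v b` adjacent and
`OneAdj univ (fun e => ext F (e.map v))`, contradicting `PAFree`.
-/

namespace MP2ab38c

open Finset

section avg
variable {V K : Type} [Fintype V] [DecidableEq K]

private lemma RBad_card_pos (P : V → K) (u : V) : (0 : ℝ) < (#{x | P x = P u} : ℝ) := by
  have : 0 < #{x | P x = P u} := card_pos.2 ⟨u, mem_filter.2 ⟨mem_univ _, rfl⟩⟩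
  exact_mod_cast this

/-- density between two classes -/
private noncomputable def RBad_d (P : V → K) (A : V → V → ℝ) (a b : K) : ℝ :=
  (∑ u', ∑ v', if P u' = a ∧ P v' = b then A u' v' else 0) /
    ((#{u' | P u' = a} : ℝ) * (#{v' | P v' = b} : ℝ))

private lemma RBad_avg_eq (P : V → K) (A : V → V → ℝ) (u v : V) :
    avg P A u v = RBad_d P A (P u) (P v) := rfl

private lemma RBad_d_symm (P : V → K) (A : V → V → ℝ) (hA : ∀ u v, A u v = A v u) (a b : K) :
    RBad_d P A a b = RBad_d P A b a := by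
  unfold RBad_d
  rw [mul_comm (#{u' | P u' = a} : ℝ), Finset.sum_comm]
  congr 1
  apply Finset.sum_congr rfl
  intro v' _
  apply Finset.sum_congr rfl
  intro u' _
  rw [hA u' v']
  simp only [and_comm]

private lemma RBad_avg_nonneg (P : V → K) (A : V → V → ℝ) (hA : ∀ u v, 0 ≤ A u v) (u v : V) :
    0 ≤ avg P A u v := by
  unfold avg
  apply div_nonneg
  · apply Finset.sum_nonneg
    intro u' _
    apply Finset.sum_nonneg
    intro v' _
    split_ifs
    · exact hA _ _
    · exact le_refl _
  · positivity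

private lemma RBad_avg_le_one (P : V → K) (A : V → V → ℝ) (hA : ∀ u v, A u v ≤ 1) (u v : V) :
    avg P A u v ≤ 1 := by
  unfold avg
  have h1 := RBad_card_pos P u
  have h2 := RBad_card_pos P v
  rw [div_le_one (by positivity)]
  calc ∑ u', ∑ v', (if P u' = P u ∧ P v' = P v then A u' v' else 0)
      ≤ ∑ u', ∑ v', (if P u' = P u then (1 : ℝ) else 0) * (if P v' = P v then (1 : ℝ) else 0) := by
        apply Finset.sum_le_sum
        intro u' _
        apply Finset.sum_le_sum
        intro v' _
        by_cases h3 : P u' = P u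
        · by_cases h4 : P v' = P v
          · rw [if_pos ⟨h3, h4⟩, if_pos h3, if_pos h4, mul_one]
            exact hA _ _
          · rw [if_neg (fun h => h4 h.2), if_neg h4, mul_zero]
        · rw [if_neg (fun h => h3 h.1), if_neg h3, zero_mul]
    _ = _ := by
        simp_rw [← Finset.mul_sum, ← Finset.sum_mul, Finset.sum_boole]

private lemma RBad_avg_sum (P : V → K) (A : V → V → ℝ) (g : K → K → ℝ) :
    ∑ u, ∑ v, avg P A u v * g (P u) (P v) = ∑ u, ∑ v, A u v * g (P u) (P v) := by
  have h1 : ∀ u v, avg P A u v * g (P u) (P v) = ∑ u', ∑ v',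
      (if P u' = P u ∧ P v' = P v then A u' v' * g (P u') (P v') /
        ((#{x | P x = P u'} : ℝ) * (#{x | P x = P v'} : ℝ)) else 0) := by
    intro u v
    unfold avg
    rw [div_mul_eq_mul_div, Finset.sum_mul, Finset.sum_div]
    apply Finset.sum_congr rfl
    intro u' _
    rw [Finset.sum_mul, Finset.sum_div]
    apply Finset.sum_congr rfl
    intro v' _
    split_ifs with h
    · rw [h.1, h.2]
    · simp
  have h2 : ∑ u, ∑ v, avg P A u v * g (P u) (P v) = ∑ u', ∑ v', ∑ u, ∑ v,
      (if P u' = P u ∧ P v' = P v then A u' v' * g (P u') (P v') /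
        ((#{x | P x = P u'} : ℝ) * (#{x | P x = P v'} : ℝ)) else 0) := by
    have h3 : ∀ f : V → V → V → V → ℝ, ∑ u, ∑ v, ∑ u', ∑ v', f u v u' v' =
        ∑ u', ∑ v', ∑ u, ∑ v, f u v u' v' := by
      intro f
      have e1 : ∀ g : V → V → ℝ, ∑ u, ∑ v, g u v = ∑ p : V × V, g p.1 p.2 := by
        intro g
        rw [Fintype.sum_prod_type]
      rw [e1 (fun u v => ∑ u', ∑ v', f u v u' v')]
      rw [e1 (fun u' v' => ∑ u, ∑ v, f u v u' v')]
      simp_rw [e1 _]
      exact Finset.sum_comm
    simp_rw [h1]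
    exact h3 _
  rw [h2]
  apply Finset.sum_congr rfl
  intro u' _
  apply Finset.sum_congr rfl
  intro v' _
  have h4 := RBad_card_pos P u'
  have h5 := RBad_card_pos P v'
  have h6 : ∀ u v, (if P u' = P u ∧ P v' = P v then A u' v' * g (P u') (P v') /
        ((#{x | P x = P u'} : ℝ) * (#{x | P x = P v'} : ℝ)) else 0) =
      (if P u = P u' then (1 : ℝ) else 0) * ((if P v = P v' then (1 : ℝ) else 0) *
        (A u' v' * g (P u') (P v') / ((#{x | P x = P u'} : ℝ) * (#{x | P x = P v'} : ℝ)))) := by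
    intro u v
    by_cases h7 : P u = P u'
    · by_cases h8 : P v = P v'
      · rw [if_pos ⟨h7.symm, h8.symm⟩, if_pos h7, if_pos h8]; ring
      · rw [if_neg (fun h => h8 h.2.symm), if_neg h8]; ring
    · rw [if_neg (fun h => h7 h.1.symm), if_neg h7]; ring
  simp_rw [h6, ← Finset.mul_sum, ← Finset.sum_mul, Finset.sum_boole]
  field_simp

end avg

/-- the indicator of the colour `c` -/
private noncomputable def RBad_A {V : Type} {r : ℕ} {G : SimpleGraph V} (F : G.edgeSet → Fin r)
    (c : Fin r) (u v : V) : ℝ :=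
  open Classical in if ext F s(u, v) = some c then 1 else 0

private lemma RBad_A_symm {V : Type} {r : ℕ} {G : SimpleGraph V} (F : G.edgeSet → Fin r)
    (c : Fin r) (u v : V) : RBad_A F c u v = RBad_A F c v u := by
  unfold RBad_A
  rw [Sym2.eq_swap]

private lemma RBad_A_bd {V : Type} {r : ℕ} {G : SimpleGraph V} (F : G.edgeSet → Fin r)
    (c : Fin r) (u v : V) : 0 ≤ RBad_A F c u v ∧ RBad_A F c u v ≤ 1 := by
  unfold RBad_A
  split_ifs <;> norm_num

/-- the product over a nonzero tuple contradicts `PAFree` -/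
private lemma RBad_zero {V : Type} {k r : ℕ} {G : SimpleGraph V} (F : G.edgeSet → Fin r)
    (hF : PAFree k G F) (c : Sym2 (Fin k) → Fin r) (hc : OneAdj (univ : Finset (Fin k)) c)
    (v : Fin k → V) :
    ∏ p ∈ univ.filter (fun p : Fin k × Fin k => p.1 < p.2),
      RBad_A F (c s(p.1, p.2)) (v p.1) (v p.2) = 0 := by
  by_contra hne
  have hne := Finset.prod_ne_zero_iff.1 hne
  have h1 : ∀ a b, a < b → ext F s(v a, v b) = some (c s(a, b)) := by
    intro a b hab
    have h2 := hne (a, b) (mem_filter.2 ⟨mem_univ _, hab⟩)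
    unfold RBad_A at h2
    by_contra h3
    rw [if_neg h3] at h2
    exact h2 rfl
  have h2 : ∀ a b, a ≠ b → ext F s(v a, v b) = some (c s(a, b)) := by
    intro a b hab
    rcases lt_or_gt_of_ne hab with h | h
    · exact h1 a b h
    · have := h1 b a h
      rw [Sym2.eq_swap, this, Sym2.eq_swap]
  have h3 : ∀ e : Sym2 (Fin k), ¬ e.IsDiag → ext F (e.map v) = some (c e) := by
    intro e he
    induction e using Sym2.ind with
    | _ a b =>
      rw [Sym2.mk_isDiag_iff] at he
      exact h2 a b he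
  apply hF
  refine ⟨v, ?_, ?_⟩
  · intro a b hab
    have h4 := h2 a b hab
    unfold ext at h4
    by_contra h5
    have h5' : ¬ s(v a, v b) ∈ G.edgeSet := h5
    rw [dif_neg h5'] at h4
    exact absurd h4 (by simp)
  · obtain ⟨x, hx, y, hy, z, hz, hxy, hxz, hyz, h4, h5⟩ := hc
    refine ⟨x, hx, y, hy, z, hz, hxy, hxz, hyz, ?_, ?_⟩
    · change ext F (Sym2.map v s(x, y)) = ext F (Sym2.map v s(x, z))
      rw [h3 s(x, y) (by rwa [Sym2.mk_isDiag_iff]), h3 s(x, z) (by rwa [Sym2.mk_isDiag_iff]), h4]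
    · intro e f he hf he' hf' hef
      simp only at hef
      rw [h3 e he', h3 f hf'] at hef
      exact h5 e f he hf he' hf' (Option.some.inj hef)

private lemma RBad_pairs (k : ℕ) :
    (univ.filter (fun p : Fin k × Fin k => p.1 < p.2)).card = k.choose 2 := by
  have h4 := Finset.card_powersetCard 2 (univ : Finset (Fin k))
  rw [Finset.card_univ, Fintype.card_fin] at h4
  rw [← h4]
  apply Finset.card_bij (fun p _ => ({p.1, p.2} : Finset (Fin k)))
  · intro p hp
    rw [mem_filter] at hp
    rw [mem_powersetCard]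
    exact ⟨subset_univ _, card_pair hp.2.ne⟩
  · rintro ⟨a, b⟩ hp ⟨c, d⟩ hq hpq
    rw [mem_filter] at hp hq
    have h8 : a < b := hp.2
    have h9 : c < d := hq.2
    have h5 : a ∈ ({c, d} : Finset (Fin k)) := by rw [← hpq]; simp
    have h6 : b ∈ ({c, d} : Finset (Fin k)) := by rw [← hpq]; simp
    rw [mem_insert, mem_singleton] at h5 h6
    rcases h5 with rfl | rfl
    · rcases h6 with rfl | rfl
      · exact absurd h8 (lt_irrefl _)
      · rfl
    · rcases h6 with rfl | rfl
      · exact absurd (lt_trans h8 h9) (lt_irrefl _)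
      · exact absurd h8 (lt_irrefl _)
  · intro s hs
    rw [mem_powersetCard] at hs
    obtain ⟨a, b, hab, rfl⟩ := card_eq_two.1 hs.2
    rcases lt_or_gt_of_ne hab with h | h
    · exact ⟨(a, b), mem_filter.2 ⟨mem_univ _, h⟩, rfl⟩
    · exact ⟨(b, a), mem_filter.2 ⟨mem_univ _, h⟩, pair_comm _ _⟩

/-- the number of tuples with all densities at least `η'` for the colours `c` -/
private lemma RBad_count {V : Type} [Fintype V] [DecidableEq V] {k r K0 : ℕ} {G : SimpleGraph V}
    (F : G.edgeSet → Fin r) (hF : PAFree k G F) (P : V → Fin K0) (ε η' : ℝ) (hε : 0 ≤ ε)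
    (hη' : 0 < η')
    (hP : ∀ c, CutBd (fun u v => RBad_A F c u v - avg P (RBad_A F c) u v)
      (ε * (Fintype.card V : ℝ) ^ 2))
    (c : Sym2 (Fin k) → Fin r) (hc : OneAdj (univ : Finset (Fin k)) c) (T : Finset (Fin k → V))
    (hT : ∀ v ∈ T, ∀ a b, a < b → η' ≤ avg P (RBad_A F (c s(a, b))) (v a) (v b)) :
    η' ^ (k.choose 2) * (T.card : ℝ) ≤ (k.choose 2 : ℝ) * ε * (Fintype.card V : ℝ) ^ k := by
  have h1 := counting k (fun a b => RBad_A F (c s(a, b)))
    (fun a b => avg P (RBad_A F (c s(a, b)))) (fun a b u v => RBad_A_bd F _ u v)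
    (fun a b u v => ⟨RBad_avg_nonneg P _ (fun u v => (RBad_A_bd F _ u v).1) u v,
      RBad_avg_le_one P _ (fun u v => (RBad_A_bd F _ u v).2) u v⟩) ε hε
    (fun a b _ => hP (c s(a, b)))
  have h2 : ∑ v : Fin k → V, ∏ p ∈ univ.filter (fun p : Fin k × Fin k => p.1 < p.2),
      RBad_A F (c s(p.1, p.2)) (v p.1) (v p.2) = 0 :=
    Finset.sum_eq_zero (fun v _ => RBad_zero F hF c hc v)
  rw [h2, zero_sub, abs_neg] at h1
  refine le_trans ?_ (le_trans (le_abs_self _) h1)
  have h3 := RBad_pairs k
  obtain ⟨g, hg⟩ : ∃ g : (Fin k → V) → ℝ, g = fun v =>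
      ∏ p ∈ univ.filter (fun p : Fin k × Fin k => p.1 < p.2),
        avg P (RBad_A F (c s(p.1, p.2))) (v p.1) (v p.2) := ⟨_, rfl⟩
  have h10 : ∀ v, 0 ≤ g v := by
    intro v
    rw [hg]
    exact Finset.prod_nonneg (fun p _ => RBad_avg_nonneg P _ (fun u v => (RBad_A_bd F _ u v).1) _ _)
  have h11 : ∀ v ∈ T, η' ^ (k.choose 2) ≤ g v := by
    intro v hv
    have h12 : ∏ p ∈ univ.filter (fun p : Fin k × Fin k => p.1 < p.2), η' ≤ g v := by
      rw [hg]
      apply Finset.prod_le_prod
      · intro p _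
        exact hη'.le
      · intro p hp
        rw [mem_filter] at hp
        exact hT v hv p.1 p.2 hp.2
    rwa [Finset.prod_const, h3] at h12
  have h13 : ∑ v : Fin k → V, ∏ p ∈ univ.filter (fun p : Fin k × Fin k => p.1 < p.2),
        avg P (RBad_A F (c s(p.1, p.2))) (v p.1) (v p.2) = ∑ v, g v := by rw [hg]
  have h14 : (T.card : ℝ) * η' ^ (k.choose 2) ≤ ∑ v ∈ T, g v := by
    have h15 := Finset.card_nsmul_le_sum T g _ h11
    rwa [nsmul_eq_mul] at h15
  have h16 : ∑ v ∈ T, g v ≤ ∑ v, g v :=
    Finset.sum_le_sum_of_subset_of_nonneg (subset_univ _) (fun v _ _ => h10 v)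
  refine le_trans ?_ (le_of_eq h13.symm)
  linarith

theorem reg_lists_one (k r : ℕ) (hk : 3 ≤ k) (η : ℝ) (hη : 0 < η) : ∃ K0 : ℕ, 0 < K0 ∧
    ∀ (V ι : Type) [Fintype V] [DecidableEq V] [DecidableEq ι] (π : V → ι)
      (F : (mp π).edgeSet → Fin r), PAFree k (mp π) F →
      ∃ (P : V → Fin K0) (L0 : Sym2 (Fin K0) → Finset (Fin r)),
        ({v : Fin k → V | BadTuple π (fun e => L0 (e.map P)) v}.ncard : ℝ) ≤
          η * (Fintype.card V : ℝ) ^ k ∧
        ({e : (mp π).edgeSet | F e ∉ L0 (e.1.map P)}.ncard : ℝ) ≤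
          η * (Fintype.card V : ℝ) ^ 2 := by
  classical
  obtain ⟨η', hη'0, hη'⟩ : ∃ η' : ℝ, 0 < η' ∧ (r : ℝ) * η' ≤ η := by
    refine ⟨η / (r + 1), by positivity, ?_⟩
    rw [mul_div_assoc', div_le_iff₀ (by positivity)]
    nlinarith
  set M : ℕ := Fintype.card (Sym2 (Fin k) → Fin r) with hM
  set C : ℕ := k.choose 2 with hC
  set ε : ℝ := η * η' ^ C / (C * M + 1) with hεdef
  have hε : 0 < ε := by positivity
  obtain ⟨K0, hK0, hreg⟩ := weak_reg r ε hε
  refine ⟨K0, hK0, ?_⟩
  intro V ι _ _ _ π F hF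
  obtain ⟨P, hP⟩ := hreg V (RBad_A F) (fun c u v => RBad_A_bd F c u v)
  -- the lists
  set L0 : Sym2 (Fin K0) → Finset (Fin r) := Sym2.lift ⟨fun a b =>
    univ.filter (fun c => η' ≤ RBad_d P (RBad_A F c) a b), by
      intro a b
      simp only
      apply Finset.filter_congr
      intro c _
      rw [RBad_d_symm P (RBad_A F c) (fun u v => RBad_A_symm F c u v) a b]⟩ with hL0
  have hmem : ∀ (u v : V) (c : Fin r), c ∈ L0 (Sym2.map P s(u, v)) ↔
      η' ≤ avg P (RBad_A F c) u v := by
    intro u v c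
    rw [Sym2.map_mk, hL0]
    simp only [Sym2.lift_mk, mem_filter, mem_univ, true_and]
    rw [RBad_avg_eq]
  refine ⟨P, L0, ?_, ?_⟩
  · -- bad tuples
    set n : ℝ := (Fintype.card V : ℝ) with hn
    set Tc : (Sym2 (Fin k) → Fin r) → Finset (Fin k → V) := fun c =>
      univ.filter (fun v => OneAdj (univ : Finset (Fin k)) c ∧
        ∀ a b, a < b → η' ≤ avg P (RBad_A F (c s(a, b))) (v a) (v b)) with hTc
    have h1 : {v : Fin k → V | BadTuple π (fun e => L0 (e.map P)) v} ⊆
        ((univ : Finset (Sym2 (Fin k) → Fin r)).biUnion Tc : Finset (Fin k → V)) := by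
      rintro v ⟨_, c, hc1, hc2⟩
      rw [mem_coe, mem_biUnion]
      refine ⟨c, mem_univ _, ?_⟩
      rw [hTc]
      simp only [mem_filter, mem_univ, true_and]
      refine ⟨hc2, fun a b hab => ?_⟩
      rw [← hmem]
      exact hc1 a b hab.ne
    have h2 : ∀ c, η' ^ C * ((Tc c).card : ℝ) ≤ C * ε * n ^ k := by
      intro c
      by_cases hc : OneAdj (univ : Finset (Fin k)) c
      · apply RBad_count F hF P ε η' hε.le hη'0 hP c hc (Tc c)
        intro v hv a b hab
        rw [hTc] at hv
        simp only [mem_filter, mem_univ, true_and] at hv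
        exact hv.2 a b hab
      · have h3 : Tc c = ∅ := by
          rw [hTc]
          simp only
          apply Finset.filter_eq_empty_iff.2
          intro v _ h
          exact hc h.1
        rw [h3]
        simp only [card_empty, Nat.cast_zero, mul_zero]
        positivity
    have h3 : ({v : Fin k → V | BadTuple π (fun e => L0 (e.map P)) v}.ncard : ℝ) ≤
        ∑ c, ((Tc c).card : ℝ) := by
      have h4 := Set.ncard_le_ncard h1 (Set.toFinite _)
      rw [Set.ncard_coe_finset] at h4
      have h5 := le_trans h4 Finset.card_biUnion_le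
      exact_mod_cast h5
    have hη'C : 0 < η' ^ C := by positivity
    have h4 : ∑ c, ((Tc c).card : ℝ) ≤ M * (C * ε * n ^ k / η' ^ C) := by
      calc ∑ c, ((Tc c).card : ℝ) ≤ ∑ c : (Sym2 (Fin k) → Fin r), (C * ε * n ^ k / η' ^ C) := by
            apply Finset.sum_le_sum
            intro c _
            rw [le_div_iff₀ hη'C]
            linarith [h2 c]
        _ = M * (C * ε * n ^ k / η' ^ C) := by
            rw [Finset.sum_const, nsmul_eq_mul, Finset.card_univ]
    refine le_trans h3 (le_trans h4 ?_)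
    have h5 : (M : ℝ) * (C * ε * n ^ k / η' ^ C) = (C * M) / (C * M + 1) * (η * n ^ k) := by
      rw [hεdef]
      field_simp
    rw [h5]
    have h6 : (C * M : ℝ) / (C * M + 1) ≤ 1 := by
      rw [div_le_one (by positivity)]
      linarith
    have h7 : 0 ≤ η * n ^ k := by positivity
    nlinarith
  · -- lost edges
    set n : ℝ := (Fintype.card V : ℝ) with hn
    set B : Finset (V × V) := univ.filter (fun p => ∃ c : Fin r, ext F s(p.1, p.2) = some c ∧
      avg P (RBad_A F c) p.1 p.2 < η') with hB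
    have h1 : {e : (mp π).edgeSet | F e ∉ L0 (e.1.map P)}.ncard ≤ B.card := by
      rw [← Set.ncard_coe_finset]
      apply Set.ncard_le_ncard_of_injOn (fun e : (mp π).edgeSet => (Quot.out e.1 : V × V))
      · intro e he
        have hout : s((Quot.out e.1).1, (Quot.out e.1).2) = e.1 := Quot.out_eq e.1
        rw [mem_coe, hB, mem_filter]
        refine ⟨mem_univ _, F e, ?_, ?_⟩
        · rw [hout]
          unfold ext
          rw [dif_pos e.2]
        · by_contra hcon
          rw [not_lt, ← hmem, hout] at hcon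
          exact he hcon
      · intro e _ e' _ h
        apply Subtype.ext
        have h2 : (Quot.out e.1 : V × V) = Quot.out e'.1 := h
        rw [← Quot.out_eq e.1, ← Quot.out_eq e'.1, h2]
    have h2 : (B.card : ℝ) ≤ ∑ c : Fin r, ∑ u, ∑ v, RBad_A F c u v *
        (if RBad_d P (RBad_A F c) (P u) (P v) < η' then (1 : ℝ) else 0) := by
      have h3 : (B.card : ℝ) = ∑ u, ∑ v, (if (∃ c : Fin r, ext F s(u, v) = some c ∧
          avg P (RBad_A F c) u v < η') then (1 : ℝ) else 0) := by
        have e1 : ∑ u, ∑ v, (if (∃ c : Fin r, ext F s(u, v) = some c ∧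
          avg P (RBad_A F c) u v < η') then (1 : ℝ) else 0) = ∑ p : V × V,
            (if (∃ c : Fin r, ext F s(p.1, p.2) = some c ∧
          avg P (RBad_A F c) p.1 p.2 < η') then (1 : ℝ) else 0) := by
          rw [Fintype.sum_prod_type]
        rw [e1, Finset.sum_boole]
      rw [h3]
      have h4 : ∑ c : Fin r, ∑ u, ∑ v, RBad_A F c u v *
          (if RBad_d P (RBad_A F c) (P u) (P v) < η' then (1 : ℝ) else 0) =
          ∑ u, ∑ v, ∑ c : Fin r, RBad_A F c u v *
          (if RBad_d P (RBad_A F c) (P u) (P v) < η' then (1 : ℝ) else 0) := by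
        rw [Finset.sum_comm]
        apply Finset.sum_congr rfl
        intro u _
        exact Finset.sum_comm
      rw [h4]
      apply Finset.sum_le_sum
      intro u _
      apply Finset.sum_le_sum
      intro v _
      have hpos : ∀ c ∈ (univ : Finset (Fin r)), 0 ≤ RBad_A F c u v *
          (if RBad_d P (RBad_A F c) (P u) (P v) < η' then (1 : ℝ) else 0) := by
        intro c _
        apply mul_nonneg (RBad_A_bd F c u v).1
        split_ifs <;> norm_num
      split_ifs with h5
      · obtain ⟨c, hc1, hc2⟩ := h5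
        refine le_trans (le_of_eq ?_) (Finset.single_le_sum hpos (mem_univ c))
        rw [RBad_avg_eq] at hc2
        rw [if_pos hc2, mul_one]
        unfold RBad_A
        rw [if_pos hc1]
      · exact Finset.sum_nonneg hpos
    have h3 : ∀ c : Fin r, ∑ u, ∑ v, RBad_A F c u v *
        (if RBad_d P (RBad_A F c) (P u) (P v) < η' then (1 : ℝ) else 0) ≤ η' * n ^ 2 := by
      intro c
      have h4 := RBad_avg_sum P (RBad_A F c)
        (fun a b => if RBad_d P (RBad_A F c) a b < η' then (1 : ℝ) else 0)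
      rw [← h4]
      calc ∑ u, ∑ v, avg P (RBad_A F c) u v *
            (if RBad_d P (RBad_A F c) (P u) (P v) < η' then (1 : ℝ) else 0)
          ≤ ∑ u : V, ∑ v : V, η' := by
            apply Finset.sum_le_sum
            intro u _
            apply Finset.sum_le_sum
            intro v _
            rw [RBad_avg_eq]
            split_ifs with h5
            · rw [mul_one]; exact h5.le
            · rw [mul_zero]; exact hη'0.le
        _ = η' * n ^ 2 := by
            simp only [Finset.sum_const, nsmul_eq_mul, Finset.card_univ]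
            rw [← hn]
            ring
    have h4 : ∑ c : Fin r, ∑ u, ∑ v, RBad_A F c u v *
        (if RBad_d P (RBad_A F c) (P u) (P v) < η' then (1 : ℝ) else 0) ≤ r * (η' * n ^ 2) := by
      calc _ ≤ ∑ c : Fin r, η' * n ^ 2 := Finset.sum_le_sum (fun c _ => h3 c)
        _ = r * (η' * n ^ 2) := by
            rw [Finset.sum_const, nsmul_eq_mul, Finset.card_univ, Fintype.card_fin]
    have h5 : ({e : (mp π).edgeSet | F e ∉ L0 (e.1.map P)}.ncard : ℝ) ≤ B.card := by
      exact_mod_cast h1
    have h6 : (r : ℝ) * (η' * n ^ 2) ≤ η * n ^ 2 := by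
      rw [← mul_assoc]
      exact mul_le_mul_of_nonneg_right hη' (by positivity)
    linarith

end MP2ab38c
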