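import Pool.Agent.Lib.MP_2ab38c_co.Core

/-!
JOB RCut.
`cut_func`: `∑∑ f u g v W u v` is affine in each `f u` and each `g v`, so its maximum and minimum
over `[0,1]^V x [0,1]^V` are attained at indicator functions.  (E.g. for fixed `g`, replace `f` by
the indicator of `{u | ∑_v g v W u v ≥ 0}`, and so on.)
`counting`: change the factors `A` into `B` one pair `p = (a,b)`, `a < b`, at a time; for one change
fix all coordinates of `v` except `v a`, `v b`: the product of the other factors is
`f (v a) g (v b)` with `0 ≤ f, g ≤ 1` (every other pair contains at most one of `a, b`), so by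
`cut_func` the change is at most `ε n^2` for each of the `n^(k-2)` choices of the other coordinates.
-/

namespace MP2ab38c

open Finset

private lemma RCut_max {V : Type} [Fintype V] (φ f : V → ℝ) (hf : ∀ u, 0 ≤ f u ∧ f u ≤ 1) :
    ∃ S : Finset V, ∑ u, f u * φ u ≤ ∑ u ∈ S, φ u := by
  classical
  refine ⟨univ.filter (fun u => 0 ≤ φ u), ?_⟩
  rw [sum_filter]
  apply sum_le_sum
  intro u _
  split_ifs with h
  · calc f u * φ u ≤ 1 * φ u := mul_le_mul_of_nonneg_right (hf u).2 h
      _ = φ u := one_mul _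
  · exact mul_nonpos_of_nonneg_of_nonpos (hf u).1 (not_le.1 h).le

private lemma RCut_upper {V : Type} [Fintype V] (W : V → V → ℝ) (C : ℝ)
    (h : ∀ S T : Finset V, ∑ u ∈ S, ∑ v ∈ T, W u v ≤ C)
    (f g : V → ℝ) (hf : ∀ u, 0 ≤ f u ∧ f u ≤ 1) (hg : ∀ u, 0 ≤ g u ∧ g u ≤ 1) :
    ∑ u, ∑ v, f u * g v * W u v ≤ C := by
  obtain ⟨S, hS⟩ := RCut_max (fun u => ∑ v, g v * W u v) f hf
  obtain ⟨T, hT⟩ := RCut_max (fun v => ∑ u ∈ S, W u v) g hg
  calc ∑ u, ∑ v, f u * g v * W u v = ∑ u, f u * ∑ v, g v * W u v := by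
        apply sum_congr rfl
        intro u _
        rw [mul_sum]
        apply sum_congr rfl
        intro v _
        ring
    _ ≤ ∑ u ∈ S, ∑ v, g v * W u v := hS
    _ = ∑ v, g v * ∑ u ∈ S, W u v := by
        rw [sum_comm]
        apply sum_congr rfl
        intro v _
        rw [mul_sum]
    _ ≤ ∑ v ∈ T, ∑ u ∈ S, W u v := hT
    _ = ∑ u ∈ S, ∑ v ∈ T, W u v := sum_comm
    _ ≤ C := h S T

theorem cut_func {V : Type} [Fintype V] (W : V → V → ℝ) (C : ℝ) (h : CutBd W C)
    (f g : V → ℝ) (hf : ∀ u, 0 ≤ f u ∧ f u ≤ 1) (hg : ∀ u, 0 ≤ g u ∧ g u ≤ 1) :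
    |∑ u, ∑ v, f u * g v * W u v| ≤ C := by
  rw [abs_le]
  constructor
  · have h1 := RCut_upper (fun u v => -W u v) C (fun S T => by
      have := (abs_le.1 (h S T)).1
      simp only [sum_neg_distrib]
      linarith) f g hf hg
    simp only [mul_neg, sum_neg_distrib] at h1
    linarith
  · exact RCut_upper W C (fun S T => (abs_le.1 (h S T)).2) f g hf hg

private lemma RCut_avg {V : Type} [Fintype V] [DecidableEq V] {k : ℕ} (a : Fin k)
    (Φ : (Fin k → V) → ℝ) :
    ∑ v : Fin k → V, ∑ x : V, Φ (Function.update v a x) = Fintype.card V * ∑ v, Φ v := by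
  let e : (Fin k → V) × V ≃ (Fin k → V) × V :=
    { toFun := fun p => (Function.update p.1 a p.2, p.1 a)
      invFun := fun p => (Function.update p.1 a p.2, p.1 a)
      left_inv := fun p => by
        ext1
        · simp only [Function.update_idem, Function.update_eq_self]
        · simp only [Function.update_self]
      right_inv := fun p => by
        ext1
        · simp only [Function.update_idem, Function.update_eq_self]
        · simp only [Function.update_self] }
  rw [← Fintype.sum_prod_type' (f := fun v x => Φ (Function.update v a x))]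
  have h1 : ∑ p : (Fin k → V) × V, Φ (Function.update p.1 a p.2) =
      ∑ p : (Fin k → V) × V, Φ (e p).1 := rfl
  rw [h1, Equiv.sum_comp e (fun p : (Fin k → V) × V => Φ p.1),
    Fintype.sum_prod_type' (f := fun v _ => Φ v)]
  simp only [sum_const, card_univ, nsmul_eq_mul]
  rw [mul_sum]

/-- one change -/
private lemma RCut_one {V : Type} [Fintype V] [DecidableEq V] {k : ℕ} (a b : Fin k)
    (hab : a < b) (E : V → V → ℝ) (F : Fin k × Fin k → V → V → ℝ)
    (hF : ∀ p u v, 0 ≤ F p u v ∧ F p u v ≤ 1) (ε : ℝ) (hε : 0 ≤ ε)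
    (hcut : CutBd E (ε * (Fintype.card V : ℝ) ^ 2)) :
    |∑ v : Fin k → V, E (v a) (v b) *
      ∏ p ∈ (univ.filter (fun p : Fin k × Fin k => p.1 < p.2)).erase (a, b),
        F p (v p.1) (v p.2)| ≤ ε * (Fintype.card V : ℝ) ^ k := by
  set Q := (univ.filter (fun p : Fin k × Fin k => p.1 < p.2)).erase (a, b) with hQ
  set Φ : (Fin k → V) → ℝ := fun v => E (v a) (v b) * ∏ p ∈ Q, F p (v p.1) (v p.2) with hΦ
  rcases isEmpty_or_nonempty V with hV | hV
  · have : IsEmpty (Fin k → V) := ⟨fun v => hV.false (v a)⟩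
    rw [Fintype.sum_empty]
    simp only [abs_zero]
    positivity
  have hn : (0 : ℝ) < Fintype.card V := by exact_mod_cast Fintype.card_pos
  have hne : a ≠ b := hab.ne
  have havg : ∑ v : Fin k → V, ∑ x : V, ∑ y : V, Φ (Function.update (Function.update v a x) b y) =
      (Fintype.card V : ℝ) ^ 2 * ∑ v, Φ v := by
    have h1 := RCut_avg a (fun v => ∑ y : V, Φ (Function.update v b y))
    rw [h1, RCut_avg b Φ]
    ring
  have hinner : ∀ v : Fin k → V, |∑ x : V, ∑ y : V,
      Φ (Function.update (Function.update v a x) b y)| ≤ ε * (Fintype.card V : ℝ) ^ 2 := by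
    intro v
    let f : V → ℝ := fun x => ∏ p ∈ Q.filter (fun p => p.1 = a ∨ p.2 = a),
      F p ((Function.update v a x) p.1) ((Function.update v a x) p.2)
    let g : V → ℝ := fun y => ∏ p ∈ Q.filter (fun p => ¬ (p.1 = a ∨ p.2 = a)),
      F p ((Function.update v b y) p.1) ((Function.update v b y) p.2)
    have hf : ∀ u, 0 ≤ f u ∧ f u ≤ 1 := fun u =>
      ⟨prod_nonneg fun p _ => (hF _ _ _).1, prod_le_one (fun p _ => (hF _ _ _).1)
        fun p _ => (hF _ _ _).2⟩
    have hg : ∀ u, 0 ≤ g u ∧ g u ≤ 1 := fun u =>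
      ⟨prod_nonneg fun p _ => (hF _ _ _).1, prod_le_one (fun p _ => (hF _ _ _).1)
        fun p _ => (hF _ _ _).2⟩
    have hprod : ∀ x y, Φ (Function.update (Function.update v a x) b y) = f x * g y * E x y := by
      intro x y
      simp only [hΦ]
      rw [Function.update_self, Function.update_of_ne hne, Function.update_self,
        ← prod_filter_mul_prod_filter_not Q (fun p => p.1 = a ∨ p.2 = a)]
      have h2 : ∏ p ∈ Q.filter (fun p => p.1 = a ∨ p.2 = a),
          F p ((Function.update (Function.update v a x) b y) p.1)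
            ((Function.update (Function.update v a x) b y) p.2) = f x := by
        apply prod_congr rfl
        intro p hp
        rw [mem_filter, hQ, mem_erase, mem_filter] at hp
        obtain ⟨⟨h3, _, h4⟩, h5⟩ := hp
        have hb1 : p.1 ≠ b := by
          intro h6
          rcases h5 with h7 | h7
          · exact hne (h7.symm.trans h6)
          · rw [h6, h7] at h4
            exact lt_asymm h4 hab
        have hb2 : p.2 ≠ b := by
          intro h6
          rcases h5 with h7 | h7
          · exact h3 (Prod.ext h7 h6)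
          · exact hne (h7.symm.trans h6)
        rw [Function.update_of_ne hb1, Function.update_of_ne hb2]
      have h3 : ∏ p ∈ Q.filter (fun p => ¬ (p.1 = a ∨ p.2 = a)),
          F p ((Function.update (Function.update v a x) b y) p.1)
            ((Function.update (Function.update v a x) b y) p.2) = g y := by
        apply prod_congr rfl
        intro p hp
        rw [mem_filter] at hp
        obtain ⟨_, h5⟩ := hp
        rw [not_or] at h5
        rw [Function.update_comm hne.symm y x v |>.symm]
        rw [Function.update_of_ne h5.1, Function.update_of_ne h5.2]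
      rw [h2, h3]
      ring
    simp only [hprod]
    exact cut_func E _ hcut f g hf hg
  have hsum : |(Fintype.card V : ℝ) ^ 2 * ∑ v, Φ v| ≤
      (Fintype.card V : ℝ) ^ 2 * (ε * (Fintype.card V : ℝ) ^ k) := by
    rw [← havg]
    refine (abs_sum_le_sum_abs _ _).trans ((sum_le_sum fun v _ => hinner v).trans ?_)
    rw [sum_const, card_univ, nsmul_eq_mul, Fintype.card_fun, Fintype.card_fin]
    push_cast
    apply le_of_eq
    ring
  rw [abs_mul, abs_of_pos (pow_pos hn 2)] at hsum
  exact le_of_mul_le_mul_left hsum (pow_pos hn 2)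

private lemma RCut_card (k : ℕ) :
    (univ.filter (fun p : Fin k × Fin k => p.1 < p.2)).card = k.choose 2 := by
  have h1 : (univ.filter (fun p : Fin k × Fin k => p.1 < p.2)).card =
      ∑ j : Fin k, (univ.filter (fun i : Fin k => i < j)).card := by
    rw [card_filter, Fintype.sum_prod_type_right]
    apply sum_congr rfl
    intro j _
    rw [card_filter]
  rw [h1, Nat.choose_two_right, ← Finset.sum_range_id, ← Fin.sum_univ_eq_sum_range (fun i => i) k]
  apply sum_congr rfl
  intro j _
  have : univ.filter (fun i : Fin k => i < j) = Iio j := by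
    ext i
    simp
  rw [this, Fin.card_Iio]

theorem counting {V : Type} [Fintype V] [DecidableEq V] (k : ℕ)
    (A B : Fin k → Fin k → V → V → ℝ) (hA : ∀ a b u v, 0 ≤ A a b u v ∧ A a b u v ≤ 1)
    (hB : ∀ a b u v, 0 ≤ B a b u v ∧ B a b u v ≤ 1) (ε : ℝ) (hε : 0 ≤ ε)
    (hcut : ∀ a b, a < b →
      CutBd (fun u v => A a b u v - B a b u v) (ε * (Fintype.card V : ℝ) ^ 2)) :
    |(∑ v : Fin k → V, ∏ p ∈ univ.filter (fun p : Fin k × Fin k => p.1 < p.2),
        A p.1 p.2 (v p.1) (v p.2)) -
      (∑ v : Fin k → V, ∏ p ∈ univ.filter (fun p : Fin k × Fin k => p.1 < p.2),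
        B p.1 p.2 (v p.1) (v p.2))| ≤
    (k.choose 2 : ℝ) * ε * (Fintype.card V : ℝ) ^ k := by
  set P := univ.filter (fun p : Fin k × Fin k => p.1 < p.2) with hP
  have key : ∀ Q : Finset (Fin k × Fin k), Q ⊆ P →
      |(∑ v : Fin k → V, ∏ p ∈ P, A p.1 p.2 (v p.1) (v p.2)) -
        (∑ v : Fin k → V, ∏ p ∈ P, if p ∈ Q then B p.1 p.2 (v p.1) (v p.2) else
          A p.1 p.2 (v p.1) (v p.2))| ≤ (Q.card : ℝ) * ε * (Fintype.card V : ℝ) ^ k := by
    intro Q
    induction Q using Finset.induction_on with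
    | empty => intro _; simp
    | insert q Q hq ih =>
      intro hQ
      have hQ' : Q ⊆ P := fun x hx => hQ (mem_insert_of_mem hx)
      have hqP : q ∈ P := hQ (mem_insert_self _ _)
      have hq12 : q.1 < q.2 := by
        rw [hP, mem_filter] at hqP
        exact hqP.2
      have h1 := ih hQ'
      let F : Fin k × Fin k → V → V → ℝ := fun p u v =>
        if p ∈ Q then B p.1 p.2 u v else A p.1 p.2 u v
      have hF : ∀ p u v, 0 ≤ F p u v ∧ F p u v ≤ 1 := by
        intro p u v
        simp only [F]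
        split_ifs
        · exact hB _ _ _ _
        · exact hA _ _ _ _
      have h2 := RCut_one q.1 q.2 hq12 (fun u v => A q.1 q.2 u v - B q.1 q.2 u v) F hF ε hε
        (hcut q.1 q.2 hq12)
      have h3 : (∑ v : Fin k → V, ∏ p ∈ P, if p ∈ Q then B p.1 p.2 (v p.1) (v p.2) else
          A p.1 p.2 (v p.1) (v p.2)) - (∑ v : Fin k → V, ∏ p ∈ P, if p ∈ insert q Q then
            B p.1 p.2 (v p.1) (v p.2) else A p.1 p.2 (v p.1) (v p.2)) =
          ∑ v : Fin k → V, (A q.1 q.2 (v q.1) (v q.2) - B q.1 q.2 (v q.1) (v q.2)) *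
            ∏ p ∈ P.erase (q.1, q.2), F p (v p.1) (v p.2) := by
        rw [← sum_sub_distrib]
        apply sum_congr rfl
        intro v _
        rw [← mul_prod_erase P _ hqP, ← mul_prod_erase P (fun p => if p ∈ insert q Q then
            B p.1 p.2 (v p.1) (v p.2) else A p.1 p.2 (v p.1) (v p.2)) hqP]
        have h4 : ∏ p ∈ P.erase q, (if p ∈ insert q Q then B p.1 p.2 (v p.1) (v p.2) else
            A p.1 p.2 (v p.1) (v p.2)) = ∏ p ∈ P.erase q, F p (v p.1) (v p.2) := by
          apply prod_congr rfl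
          intro p hp
          have hpq : p ≠ q := ne_of_mem_erase hp
          simp only [F, mem_insert, hpq, false_or]
        rw [h4, if_neg hq, if_pos (mem_insert_self _ _)]
        change _ * (∏ p ∈ P.erase q, F p (v p.1) (v p.2)) - _ * _ = _ * _
        ring
      have h5 := abs_sub_le (∑ v : Fin k → V, ∏ p ∈ P, A p.1 p.2 (v p.1) (v p.2))
        (∑ v : Fin k → V, ∏ p ∈ P, if p ∈ Q then B p.1 p.2 (v p.1) (v p.2) else
          A p.1 p.2 (v p.1) (v p.2))
        (∑ v : Fin k → V, ∏ p ∈ P, if p ∈ insert q Q then B p.1 p.2 (v p.1) (v p.2) else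
          A p.1 p.2 (v p.1) (v p.2))
      rw [h3] at h5
      rw [card_insert_of_notMem hq]
      push_cast
      calc _ ≤ _ := h5
        _ ≤ (Q.card : ℝ) * ε * (Fintype.card V : ℝ) ^ k + ε * (Fintype.card V : ℝ) ^ k :=
            add_le_add h1 h2
        _ = _ := by ring
  have h := key P (Subset.refl _)
  rw [hP, RCut_card, ← hP] at h
  have h6 : ∀ v : Fin k → V, (∏ p ∈ P, if p ∈ P then B p.1 p.2 (v p.1) (v p.2) else
      A p.1 p.2 (v p.1) (v p.2)) = ∏ p ∈ P, B p.1 p.2 (v p.1) (v p.2) := by
    intro v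
    apply prod_congr rfl
    intro p hp
    rw [if_pos hp]
  simp only [h6] at h
  exact h

end MP2ab38c
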