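import Pool.Agent.Lib.MP_2ab38c_co.RBad
import Pool.Agent.Lib.MP_2ab38c_co.RExc

/-!
JOB RMain.  For a complete multipartite graph `mp π` on `n ≥ n0` vertices there are lists `Lv` on
the pairs of vertices with few adjacent pairs with an empty list, few bad tuples, and
`∑_{u,v} ellF ≥ 2 log c_A(G) - η n^2`.

Proof.  Choose `lam = η1` small, apply `reg_lists_one` with `η1` (small compared with `η`).  Every
cherry-free `F` gets a pair `(P, L0)`; there are at most `K0^n 2^(r K0^2)` pairs (crudely: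
`Sym2 (Fin K0)` has at most `K0^2` elements), so some pair `(P, L0)` is obtained from at least
`c_A(G)/(K0^n 2^(r K0^2))` colourings `F`, and the number of `F` with at most `η1 n^2` exceptions
with respect to the lists `L0 (e.map P)` is at most
`lam^(-η1 n^2) (1 + lam r)^(n^2/2) ∏_{e ∈ E} max 1 |L0 (e.map P)|` by `few_exceptions`.  So
`log c_A(G) ≤ n log K0 + r K0^2 log 2 + η1 log (1/lam) n^2 + lam r n^2/2 + (1/2) ∑_{u,v} ellF`
(each edge `uv` is counted twice in `∑_{u,v}`; `log (max 1 |L|) = log |L|` in Lean, also for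
the empty list).  `x log (1/x) → 0`, so for `η1` small and then `n ≥ n0` the error is `≤ η n^2/2`.
The adjacent ordered pairs with an empty list are at most `2 η1 n^2` (each such edge is an
exception for every `F`).
-/

namespace MP2ab38c

open Finset

private theorem RMain_pair_sum {V : Type} [Fintype V] [DecidableEq V] (G : SimpleGraph V)
    [DecidableRel G.Adj] [Fintype G.edgeSet] (f : Sym2 V → ℝ) :
    ∑ u, ∑ v, (if G.Adj u v then f s(u, v) else 0) = 2 * ∑ e : G.edgeSet, f e.1 := by
  have h1 : ∑ e : G.edgeSet, f e.1 = ∑ e ∈ G.edgeFinset, f e := by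
    exact (Finset.sum_subtype G.edgeFinset (fun e => SimpleGraph.mem_edgeFinset) f).symm
  rw [h1, ← Fintype.sum_prod_type' (f := fun u v => if G.Adj u v then f s(u, v) else 0),
    ← Finset.sum_filter]
  rw [← Finset.sum_fiberwise_of_maps_to (t := G.edgeFinset) (g := fun p : V × V => s(p.1, p.2))]
  · rw [Finset.mul_sum]
    refine Finset.sum_congr rfl fun e he => ?_
    induction e using Sym2.ind with
    | _ a b =>
      rw [SimpleGraph.mem_edgeFinset, SimpleGraph.mem_edgeSet] at he
      have h2 : ((univ.filter fun p : V × V => G.Adj p.1 p.2).filter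
          fun p => s(p.1, p.2) = s(a, b)) = {(a, b), (b, a)} := by
        ext ⟨x, y⟩
        simp only [mem_filter, mem_univ, true_and, Sym2.eq_iff, mem_insert, mem_singleton,
          Prod.mk.injEq]
        constructor
        · rintro ⟨_, h | h⟩
          · exact Or.inl h
          · exact Or.inr h
        · rintro (h | h)
          · exact ⟨by rw [h.1, h.2]; exact he, Or.inl h⟩
          · exact ⟨by rw [h.1, h.2]; exact he.symm, Or.inr h⟩
      rw [h2, Finset.sum_pair]
      · have : s(b, a) = s(a, b) := Sym2.eq_swap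
        simp only [this]
        ring
      · intro h
        exact he.ne (Prod.mk.inj h).1
  · intro p hp
    rw [SimpleGraph.mem_edgeFinset, SimpleGraph.mem_edgeSet]
    exact (mem_filter.mp hp).2

private theorem RMain_log_max (m : ℕ) : Real.log (max 1 (m : ℝ)) = Real.log (m : ℝ) := by
  rcases Nat.eq_zero_or_pos m with h | h
  · subst h
    simp
  · rw [max_eq_right]
    exact_mod_cast h

private theorem RMain_choice (r : ℕ) (η : ℝ) (hη : 0 < η) : ∃ x : ℝ, 0 < x ∧ x ≤ 1 ∧ 2 * x ≤ η ∧
    2 * (-(x * Real.log x)) ≤ η / 4 ∧ x * r ≤ η / 4 := by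
  set y : ℝ := min 1 (η / (16 * ((r : ℝ) + 1))) with hy
  have hr : (0 : ℝ) ≤ r := Nat.cast_nonneg r
  have hy0 : 0 < y := lt_min one_pos (by positivity)
  have hy1 : y ≤ 1 := min_le_left _ _
  have hy2 : y ≤ η / (16 * ((r : ℝ) + 1)) := min_le_right _ _
  have hy3 : y * (16 * ((r : ℝ) + 1)) ≤ η := by
    rwa [le_div_iff₀ (by positivity)] at hy2
  have hyr : 0 ≤ y * r := by positivity
  have hsq : y ^ 2 ≤ y := by nlinarith
  refine ⟨y ^ 2, by positivity, by nlinarith, by nlinarith, ?_, ?_⟩
  · have hlog : -Real.log y ≤ y⁻¹ := by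
      rw [← Real.log_inv]
      have := Real.log_le_sub_one_of_pos (inv_pos.mpr hy0)
      linarith
    have h1 : y ^ 2 * (-Real.log y) ≤ y := by
      calc y ^ 2 * (-Real.log y) ≤ y ^ 2 * y⁻¹ := by
            exact mul_le_mul_of_nonneg_left hlog (by positivity)
        _ = y := by field_simp
    rw [Real.log_pow]
    push_cast
    nlinarith
  · have h2 : y ^ 2 * r ≤ y * r := mul_le_mul_of_nonneg_right hsq hr
    nlinarith

theorem reg_lists (k r : ℕ) (hk : 3 ≤ k) (hr : 1 ≤ r) (η : ℝ) (hη : 0 < η) : ∃ n0 : ℕ,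
    ∀ (V ι : Type) [Fintype V] [DecidableEq V] [DecidableEq ι] (π : V → ι),
      n0 ≤ Fintype.card V → 1 ≤ cA k r (mp π) → ∃ Lv : Sym2 V → Finset (Fin r),
        ({p : V × V | π p.1 ≠ π p.2 ∧ Lv s(p.1, p.2) = ∅}.ncard : ℝ) ≤
          η * (Fintype.card V : ℝ) ^ 2 ∧
        ({v : Fin k → V | BadTuple π Lv v}.ncard : ℝ) ≤ η * (Fintype.card V : ℝ) ^ k ∧
        2 * Real.log (cA k r (mp π)) - η * (Fintype.card V : ℝ) ^ 2 ≤
          ∑ u, ∑ v, ellF π Lv u v := by
  classical
  obtain ⟨x, hx0, hx1, hx2, hx3, hx4⟩ := RMain_choice r η hη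
  obtain ⟨K0, hK0, hreg⟩ := reg_lists_one k r hk x hx0
  set M : ℝ := (Fintype.card (Sym2 (Fin K0)) : ℝ) * ((r : ℝ) * Real.log 2) with hM
  have hM0 : 0 ≤ M := by
    have : 0 ≤ Real.log 2 := Real.log_nonneg (by norm_num)
    positivity
  have hL0 : 0 ≤ Real.log K0 := Real.log_natCast_nonneg K0
  refine ⟨⌈(4 / η) * (Real.log K0 + M)⌉₊ + 1, ?_⟩
  intro V ι _ _ _ π hn hcA
  set n : ℝ := (Fintype.card V : ℝ) with hndef
  have hn1 : (1 : ℝ) ≤ n := by
    have : 1 ≤ Fintype.card V := by omega
    rw [hndef]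
    exact_mod_cast this
  have hn2 : (4 / η) * (Real.log K0 + M) ≤ n := by
    have h1 := Nat.le_ceil ((4 / η) * (Real.log K0 + M))
    have h2 : ((⌈(4 / η) * (Real.log K0 + M)⌉₊ : ℕ) : ℝ) ≤ n := by
      rw [hndef]
      exact_mod_cast (by omega : ⌈(4 / η) * (Real.log K0 + M)⌉₊ ≤ Fintype.card V)
    linarith
  have hn3 : 2 * (n * Real.log K0 + M) ≤ η / 2 * n ^ 2 := by
    have h1 : 4 * (Real.log K0 + M) ≤ η * n := by
      have h2 := mul_le_mul_of_nonneg_left hn2 hη.le
      have h3 : η * (4 / η * (Real.log K0 + M)) = 4 * (Real.log K0 + M) := by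
        field_simp
      linarith
    have h4 : M ≤ n * M := by nlinarith
    nlinarith
  -- the fibre with many colourings
  have hfin : Finite {F : (mp π).edgeSet → Fin r // PAFree k (mp π) F} := inferInstance
  let _ : Fintype {F : (mp π).edgeSet → Fin r // PAFree k (mp π) F} := Fintype.ofFinite _
  have hch : ∀ F : {F : (mp π).edgeSet → Fin r // PAFree k (mp π) F},
      ∃ y : (V → Fin K0) × (Sym2 (Fin K0) → Finset (Fin r)),
        ({v : Fin k → V | BadTuple π (fun e => y.2 (e.map y.1)) v}.ncard : ℝ) ≤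
          x * (Fintype.card V : ℝ) ^ k ∧
        ({e : (mp π).edgeSet | F.1 e ∉ y.2 (e.1.map y.1)}.ncard : ℝ) ≤
          x * (Fintype.card V : ℝ) ^ 2 := by
    intro F
    obtain ⟨P, L0, h1, h2⟩ := hreg V ι π F.1 F.2
    exact ⟨(P, L0), h1, h2⟩
  choose Φ hΦ1 hΦ2 using hch
  have hcAcard : cA k r (mp π) =
      (univ : Finset {F : (mp π).edgeSet → Fin r // PAFree k (mp π) F}).card := by
    rw [Finset.card_univ, cA, Nat.card_eq_fintype_card]
  have hne : Nonempty {F : (mp π).edgeSet → Fin r // PAFree k (mp π) F} := by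
    have h1 : 0 < cA k r (mp π) := hcA
    rw [cA] at h1
    exact (Nat.card_pos_iff.mp h1).1
  have _ : Nonempty ((V → Fin K0) × (Sym2 (Fin K0) → Finset (Fin r))) := ⟨Φ hne.some⟩
  set Y : ℝ := (Fintype.card ((V → Fin K0) × (Sym2 (Fin K0) → Finset (Fin r))) : ℝ) with hY
  have hYpos : 0 < Y := by
    rw [hY]
    exact_mod_cast Fintype.card_pos
  obtain ⟨⟨P, L0⟩, _, hfib⟩ := Finset.exists_le_card_fiber_of_nsmul_le_card_of_maps_to
    (s := (univ : Finset {F : (mp π).edgeSet → Fin r // PAFree k (mp π) F}))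
    (t := (univ : Finset ((V → Fin K0) × (Sym2 (Fin K0) → Finset (Fin r)))))
    (f := Φ) (b := (cA k r (mp π) : ℝ) / Y) (fun _ _ => mem_univ _) univ_nonempty (by
      rw [nsmul_eq_mul, Finset.card_univ, ← hY, hcAcard]
      apply le_of_eq
      field_simp)
  have hcApos : (0 : ℝ) < cA k r (mp π) := by exact_mod_cast hcA
  have hfibpos : (0 : ℝ) < (#{F ∈ (univ : Finset {F : (mp π).edgeSet → Fin r // PAFree k (mp π) F})
      | Φ F = (P, L0)} : ℝ) := lt_of_lt_of_le (by positivity) hfib
  obtain ⟨F0, hF0⟩ := Finset.card_pos.mp (by exact_mod_cast hfibpos :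
    0 < #{F ∈ (univ : Finset {F : (mp π).edgeSet → Fin r // PAFree k (mp π) F})
      | Φ F = (P, L0)})
  have hF0' : Φ F0 = (P, L0) := (mem_filter.mp hF0).2
  have hbad := hΦ1 F0
  have hexc := hΦ2 F0
  rw [hF0'] at hbad hexc
  set Lv : Sym2 V → Finset (Fin r) := fun e => L0 (e.map P) with hLv
  have hexc' : ({e : (mp π).edgeSet | F0.1 e ∉ Lv e.1}.ncard : ℝ) ≤ x * n ^ 2 := hexc
  refine ⟨Lv, ?_, ?_, ?_⟩
  · -- few empty lists
    have h1 : ({p : V × V | π p.1 ≠ π p.2 ∧ Lv s(p.1, p.2) = ∅}.ncard : ℝ) =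
        ∑ u, ∑ v, (if (mp π).Adj u v then (if Lv s(u, v) = ∅ then (1 : ℝ) else 0) else 0) := by
      rw [← Fintype.sum_prod_type' (f := fun u v => if (mp π).Adj u v then
        (if Lv s(u, v) = ∅ then (1 : ℝ) else 0) else 0)]
      have h2 : {p : V × V | π p.1 ≠ π p.2 ∧ Lv s(p.1, p.2) = ∅} =
          ((univ.filter fun p : V × V => π p.1 ≠ π p.2 ∧ Lv s(p.1, p.2) = ∅ :
            Finset (V × V)) : Set (V × V)) := by
        ext p
        simp
      rw [h2, Set.ncard_coe_finset, Finset.card_filter]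
      push_cast
      refine Finset.sum_congr rfl fun p _ => ?_
      by_cases hp : π p.1 = π p.2
      · simp [hp]
      · simp [hp]
    have h3 : ∑ e : (mp π).edgeSet, (if Lv e.1 = ∅ then (1 : ℝ) else 0) ≤
        ({e : (mp π).edgeSet | F0.1 e ∉ Lv e.1}.ncard : ℝ) := by
      have h4 : {e : (mp π).edgeSet | F0.1 e ∉ Lv e.1} =
          ((univ.filter fun e : (mp π).edgeSet => F0.1 e ∉ Lv e.1 :
            Finset (mp π).edgeSet) : Set (mp π).edgeSet) := by
        ext p
        simp
      rw [h4, Set.ncard_coe_finset, Finset.card_filter]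
      push_cast
      refine Finset.sum_le_sum fun e _ => ?_
      by_cases he : Lv e.1 = ∅
      · simp [he]
      · rw [if_neg he]
        split_ifs <;> norm_num
    rw [h1, RMain_pair_sum (mp π) (fun e => if Lv e = ∅ then (1 : ℝ) else 0)]
    have h5 : 2 * x * n ^ 2 ≤ η * n ^ 2 := mul_le_mul_of_nonneg_right hx2 (by positivity)
    linarith
  · -- few bad tuples
    refine hbad.trans ?_
    apply mul_le_mul_of_nonneg_right _ (by positivity)
    linarith
  · -- the main inequality
    set C : ℝ := ({F : (mp π).edgeSet → Fin r | ({e | F e ∉ Lv e.1}.ncard : ℝ) ≤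
      x * n ^ 2}.ncard : ℝ) with hC
    have hfibC : (#{F ∈ (univ : Finset {F : (mp π).edgeSet → Fin r // PAFree k (mp π) F})
      | Φ F = (P, L0)} : ℝ) ≤ C := by
      rw [hC]
      have h1 : (((({F ∈ (univ : Finset {F : (mp π).edgeSet → Fin r // PAFree k (mp π) F})
          | Φ F = (P, L0)}).map ⟨Subtype.val, Subtype.val_injective⟩ :
            Finset ((mp π).edgeSet → Fin r)) : Set ((mp π).edgeSet → Fin r))) ⊆
          {F : (mp π).edgeSet → Fin r | ({e | F e ∉ Lv e.1}.ncard : ℝ) ≤ x * n ^ 2} := by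
        intro F hF
        rw [Finset.mem_coe, Finset.mem_map] at hF
        obtain ⟨F', hF', rfl⟩ := hF
        have h2 : Φ F' = (P, L0) := (mem_filter.mp hF').2
        have h3 := hΦ2 F'
        rw [h2] at h3
        exact h3
      have h4 := Set.ncard_le_ncard h1 (Set.toFinite _)
      rw [Set.ncard_coe_finset, Finset.card_map] at h4
      exact_mod_cast h4
    have hCpos : 0 < C := lt_of_lt_of_le hfibpos hfibC
    have hcAle : (cA k r (mp π) : ℝ) ≤ Y * C := by
      have h1 := hfib.trans hfibC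
      rw [div_le_iff₀ hYpos] at h1
      linarith
    have hlog1 : Real.log (cA k r (mp π)) ≤ Real.log Y + Real.log C := by
      rw [← Real.log_mul hYpos.ne' hCpos.ne']
      exact Real.log_le_log hcApos hcAle
    have hlogY : Real.log Y = n * Real.log K0 + M := by
      have h1 : Y = (K0 : ℝ) ^ (Fintype.card V) *
          ((2 : ℝ) ^ r) ^ (Fintype.card (Sym2 (Fin K0))) := by
        rw [hY, Fintype.card_prod, Fintype.card_fun, Fintype.card_fun, Fintype.card_finset,
          Fintype.card_fin, Fintype.card_fin]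
        push_cast
        ring
      have hK0' : (0 : ℝ) < K0 := by exact_mod_cast hK0
      rw [h1, Real.log_mul (by positivity) (by positivity), Real.log_pow, Real.log_pow,
        Real.log_pow]
    have hfew := few_exceptions (E := (mp π).edgeSet) r (fun e => Lv e.1) (x * n ^ 2) x hx0 hx1
    have hprodpos : 0 < ∏ e : (mp π).edgeSet, max 1 (((Lv e.1).card : ℕ) : ℝ) :=
      Finset.prod_pos fun e _ => lt_of_lt_of_le one_pos (le_max_left _ _)
    have h1xr : 0 < 1 + x * r := by positivity
    have hlogC : Real.log C ≤ -(x * n ^ 2) * Real.log x +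
        (Fintype.card (mp π).edgeSet : ℝ) * (x * r) +
        ∑ e : (mp π).edgeSet, Real.log ((Lv e.1).card : ℝ) := by
      have h2 := Real.log_le_log hCpos hfew
      rw [Real.log_mul (by positivity) hprodpos.ne', Real.log_mul (by positivity) (by positivity),
        Real.log_rpow hx0, Real.log_pow, Real.log_prod (fun e _ => by positivity)] at h2
      have h3 : Real.log (1 + x * r) ≤ x * r := by
        have := Real.log_le_sub_one_of_pos h1xr
        linarith
      have h4 : (Fintype.card (mp π).edgeSet : ℝ) * Real.log (1 + x * r) ≤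
          (Fintype.card (mp π).edgeSet : ℝ) * (x * r) :=
        mul_le_mul_of_nonneg_left h3 (by positivity)
      have h5 : ∑ e : (mp π).edgeSet, Real.log (max 1 (((Lv e.1).card : ℕ) : ℝ)) =
          ∑ e : (mp π).edgeSet, Real.log ((Lv e.1).card : ℝ) :=
        Finset.sum_congr rfl fun e _ => RMain_log_max _
      linarith
    have hE : 2 * (Fintype.card (mp π).edgeSet : ℝ) ≤ n ^ 2 := by
      have h2 := RMain_pair_sum (mp π) (fun _ => (1 : ℝ))
      have h3 : ∑ e : (mp π).edgeSet, (1 : ℝ) = (Fintype.card (mp π).edgeSet : ℝ) := by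
        simp
      rw [h3] at h2
      rw [← h2]
      calc ∑ u, ∑ v, (if (mp π).Adj u v then (1 : ℝ) else 0) ≤ ∑ u : V, ∑ v : V, (1 : ℝ) := by
            refine Finset.sum_le_sum fun u _ => Finset.sum_le_sum fun v _ => ?_
            split_ifs <;> norm_num
        _ = n ^ 2 := by
            simp [hndef]
            ring
    have hell : ∑ u, ∑ v, ellF π Lv u v =
        2 * ∑ e : (mp π).edgeSet, Real.log ((Lv e.1).card : ℝ) := by
      rw [← RMain_pair_sum (mp π) (fun e => Real.log ((Lv e).card : ℝ))]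
      refine Finset.sum_congr rfl fun u _ => Finset.sum_congr rfl fun v _ => ?_
      unfold ellF
      by_cases huv : π u = π v
      · simp [huv]
      · simp [huv]
    rw [hell]
    have h6 : 2 * (Fintype.card (mp π).edgeSet : ℝ) * (x * r) ≤ η / 4 * n ^ 2 := by
      have hxr : 0 ≤ x * r := by positivity
      calc 2 * (Fintype.card (mp π).edgeSet : ℝ) * (x * r) ≤ n ^ 2 * (x * r) :=
            mul_le_mul_of_nonneg_right hE hxr
        _ ≤ n ^ 2 * (η / 4) := mul_le_mul_of_nonneg_left hx4 (by positivity)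
        _ = η / 4 * n ^ 2 := by ring
    have h7 : 2 * (-(x * Real.log x)) * n ^ 2 ≤ η / 4 * n ^ 2 :=
      mul_le_mul_of_nonneg_right hx3 (by positivity)
    nlinarith [hlog1, hlogY, hlogC, h6, h7, hn3]

end MP2ab38c
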