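import Pool.Agent.Lib.MP_2ab38c_co.KDj

/-!
JOB XGap.  The bound `V_le_phi` (file KDj; read its proof) with a gain coming from a vertex `z` in a
part of tiny weight.
For a vertex `j` the proof of `KDj_degree` uses `∑_i b i ≤ ∑_c 1 = r` where the colour `c`
contributes `∑_{i ∈ N_c(j)} w i / max (W (part i)) κ ≤ 1`.  If `(j,z)` is big and `c ∈ L(j,z)`, then
`z ∈ N_c(j)`, so either `N_c(j)` lies in the part of `z` and the contribution is
`≤ W(part z)/κ ≤ 1/2`, or `nw w c j ≤ θ ≤ κ/2` and the contribution is `≤ 1/2`.  Hence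
`∑_i b i ≤ r - |L(j,z)|/2` and, with `z_j = 1 - W(part j)`, the bound of `D j` improves by
`(z_j / r) |L(j,z)|/2`.  Multiply by `w j` and sum as in `V_le_phi`.
(Copy the private lemmas of KDj with the prefix `XGap`.)
-/

namespace MP2ab38c

open Finset

private theorem XGap_fiber {k r : ℕ} {I ι : Type} [Fintype I] [DecidableEq I] [Fintype ι]
    [DecidableEq ι] (S : LS k r I ι) (w : I → ℝ) (g : ι → ℝ) :
    ∑ i, w i * g (S.part i) = ∑ X, S.W w X * g X := by
  unfold LS.W
  simp only [Finset.sum_mul]
  rw [Finset.sum_comm]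
  refine Finset.sum_congr rfl fun i _ => ?_
  rw [Finset.sum_eq_single (S.part i)]
  · rw [if_pos rfl]
  · intro X _ hX
    rw [if_neg (Ne.symm hX), zero_mul]
  · intro h
    exact absurd (Finset.mem_univ _) h

private theorem XGap_W_nonneg {k r : ℕ} {I ι : Type} [Fintype I] [DecidableEq ι]
    (S : LS k r I ι) (w : I → ℝ) (hw0 : ∀ i, 0 ≤ w i) (X : ι) : 0 ≤ S.W w X := by
  unfold LS.W
  refine Finset.sum_nonneg fun i _ => ?_
  split_ifs
  · exact hw0 i
  · exact le_rfl

private theorem XGap_z {k r : ℕ} {I ι : Type} [Fintype I] [DecidableEq ι]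
    (S : LS k r I ι) (w : I → ℝ) (hw1 : ∑ i, w i = 1) (X : ι) :
    1 - S.W w X = ∑ i, if S.part i ≠ X then w i else 0 := by
  unfold LS.W
  rw [← hw1, ← Finset.sum_sub_distrib]
  refine Finset.sum_congr rfl fun i _ => ?_
  by_cases h : S.part i = X
  · rw [if_pos h, if_neg (not_not.mpr h), sub_self]
  · rw [if_neg h, if_pos h, sub_zero]

/-- every colour contributes at most `1` -/
private theorem XGap_color {k r : ℕ} {I ι : Type} [Fintype I] [DecidableEq I]
    [Fintype ι] [DecidableEq ι] (S : LS k r I ι) (w : I → ℝ) (hw0 : ∀ i, 0 ≤ w i)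
    (θ κ : ℝ) (hone : S.OnePart w θ) (hκθ : θ ≤ κ) (hκ0 : 0 < κ) (j : I) (c : Fin r)
    (a : I → ℝ) (ha : ∀ i, S.big i j → c ∈ S.L s(i, j) → a i ≤ w i / max (S.W w (S.part i)) κ)
    (ha0 : ∀ i, ¬ (S.big i j ∧ c ∈ S.L s(i, j)) → a i = 0) : ∑ i, a i ≤ 1 := by
  classical
  rcases hone c j with h | h
  · by_cases hex : ∃ i, S.big i j ∧ c ∈ S.L s(i, j)
    · obtain ⟨i₀, hb0, hc0⟩ := hex
      have hm : 0 < max (S.W w (S.part i₀)) κ := lt_max_of_lt_right hκ0
      calc ∑ i, a i ≤ ∑ i, (if S.part i = S.part i₀ then w i else 0) /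
              max (S.W w (S.part i₀)) κ := by
            refine Finset.sum_le_sum fun i _ => ?_
            by_cases hi : S.big i j ∧ c ∈ S.L s(i, j)
            · have hp := h i i₀ hi.1 hi.2 hb0 hc0
              rw [if_pos hp]
              have := ha i hi.1 hi.2
              rwa [hp] at this
            · rw [ha0 i hi]
              refine div_nonneg ?_ hm.le
              split_ifs
              · exact hw0 i
              · exact le_rfl
        _ = S.W w (S.part i₀) / max (S.W w (S.part i₀)) κ := by
            rw [← Finset.sum_div]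
            rfl
        _ ≤ 1 := by
            rw [div_le_one hm]
            exact le_max_left _ _
    · rw [Finset.sum_eq_zero]
      · exact zero_le_one
      · intro i _
        exact ha0 i fun hi => hex ⟨i, hi⟩
  · have h2 : ∑ i, a i ≤ S.nw w c j / κ := by
      unfold LS.nw
      rw [Finset.sum_div]
      refine Finset.sum_le_sum fun i _ => ?_
      by_cases hi : S.big i j ∧ c ∈ S.L s(i, j)
      · rw [if_pos hi]
        refine (ha i hi.1 hi.2).trans ?_
        exact div_le_div_of_nonneg_left (hw0 i) hκ0 (le_max_right _ _)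
      · rw [if_neg hi, ha0 i hi, zero_div]
    refine h2.trans ?_
    rw [div_le_one hκ0]
    exact h.trans hκθ

/-- a colour on the pair `j z` contributes at most `1/2` -/
private theorem XGap_colorz {k r : ℕ} {I ι : Type} [Fintype I] [DecidableEq I]
    [Fintype ι] [DecidableEq ι] (S : LS k r I ι) (w : I → ℝ) (hw0 : ∀ i, 0 ≤ w i)
    (θ κ : ℝ) (hone : S.OnePart w θ) (hκθ : θ ≤ κ / 2) (hκ0 : 0 < κ) (j : I) (c : Fin r)
    (z : I) (hz : S.W w (S.part z) ≤ κ / 2) (hzj : S.big z j) (hzc : c ∈ S.L s(z, j))
    (a : I → ℝ) (ha : ∀ i, S.big i j → c ∈ S.L s(i, j) → a i ≤ w i / max (S.W w (S.part i)) κ)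
    (ha0 : ∀ i, ¬ (S.big i j ∧ c ∈ S.L s(i, j)) → a i = 0) : ∑ i, a i ≤ 1 / 2 := by
  classical
  have ha' : ∀ i, S.big i j → c ∈ S.L s(i, j) → a i ≤ w i / κ := fun i hi hc =>
    (ha i hi hc).trans (div_le_div_of_nonneg_left (hw0 i) hκ0 (le_max_right _ _))
  rcases hone c j with h | h
  · calc ∑ i, a i ≤ ∑ i, (if S.part i = S.part z then w i else 0) / κ := by
          refine Finset.sum_le_sum fun i _ => ?_
          by_cases hi : S.big i j ∧ c ∈ S.L s(i, j)
          · rw [if_pos (h i z hi.1 hi.2 hzj hzc)]
            exact ha' i hi.1 hi.2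
          · rw [ha0 i hi]
            refine div_nonneg ?_ hκ0.le
            split_ifs
            · exact hw0 i
            · exact le_rfl
      _ = S.W w (S.part z) / κ := by
          rw [← Finset.sum_div]
          rfl
      _ ≤ 1 / 2 := by
          rw [div_le_iff₀ hκ0]
          linarith
  · have h2 : ∑ i, a i ≤ S.nw w c j / κ := by
      unfold LS.nw
      rw [Finset.sum_div]
      refine Finset.sum_le_sum fun i _ => ?_
      by_cases hi : S.big i j ∧ c ∈ S.L s(i, j)
      · rw [if_pos hi]
        exact ha' i hi.1 hi.2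
      · rw [if_neg hi, ha0 i hi, zero_div]
    refine h2.trans ?_
    rw [div_le_iff₀ hκ0]
    linarith

/-- the weighted number of colours on the big pairs at `j` -/
private theorem XGap_total {k r : ℕ} {I ι : Type} [Fintype I] [DecidableEq I]
    [Fintype ι] [DecidableEq ι] (S : LS k r I ι) (w : I → ℝ) (hw0 : ∀ i, 0 ≤ w i)
    (θ κ : ℝ) (hone : S.OnePart w θ) (hκθ : θ ≤ κ / 2) (hκ0 : 0 < κ) (j v : I)
    (hv : S.W w (S.part v) ≤ κ / 2) (g : ℝ) (hg : S.big j v → g ≤ ((S.L s(j, v)).card : ℝ))
    (hg0 : ¬ S.big j v → g ≤ 0) (b : I → ℝ) (hb : ∀ i, S.big i j →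
      b i = w i * ((S.L s(i, j)).card : ℝ) / max (S.W w (S.part i)) κ)
    (hb0 : ∀ i, ¬ S.big i j → b i = 0) : ∑ i, b i ≤ r - g / 2 := by
  classical
  have h1 : ∀ i, b i = ∑ c : Fin r, if S.big i j ∧ c ∈ S.L s(i, j) then
      w i / max (S.W w (S.part i)) κ else 0 := by
    intro i
    by_cases hi : S.big i j
    · rw [hb i hi]
      have h2 : ∀ c : Fin r, (if S.big i j ∧ c ∈ S.L s(i, j) then
          w i / max (S.W w (S.part i)) κ else 0) =
          if c ∈ S.L s(i, j) then w i / max (S.W w (S.part i)) κ else 0 := by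
        intro c
        by_cases hc : c ∈ S.L s(i, j)
        · rw [if_pos ⟨hi, hc⟩, if_pos hc]
        · rw [if_neg fun h => hc h.2, if_neg hc]
      rw [Finset.sum_congr rfl fun c _ => h2 c, Finset.sum_ite_mem, Finset.univ_inter,
        Finset.sum_const, nsmul_eq_mul]
      ring
    · rw [hb0 i hi, Finset.sum_eq_zero]
      intro c _
      rw [if_neg fun h => hi h.1]
  rw [Finset.sum_congr rfl fun i _ => h1 i, Finset.sum_comm]
  by_cases hjv : S.big j v
  · have hvj : S.big v j := ⟨hjv.1.symm, by rw [Sym2.eq_swap]; exact hjv.2⟩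
    have hgc : g ≤ ((S.L s(v, j)).card : ℝ) := by
      rw [Sym2.eq_swap]
      exact hg hjv
    calc ∑ c : Fin r, ∑ i, (if S.big i j ∧ c ∈ S.L s(i, j) then
          w i / max (S.W w (S.part i)) κ else 0)
        ≤ ∑ c : Fin r, ((1 : ℝ) - if c ∈ S.L s(v, j) then 1 / 2 else 0) := by
          refine Finset.sum_le_sum fun c _ => ?_
          by_cases hc : c ∈ S.L s(v, j)
          · rw [if_pos hc]
            refine (XGap_colorz S w hw0 θ κ hone hκθ hκ0 j c v hv hvj hc _ ?_ ?_).trans
              (by norm_num)
            · intro i hi hc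
              rw [if_pos ⟨hi, hc⟩]
            · intro i hi
              rw [if_neg hi]
          · rw [if_neg hc, sub_zero]
            refine XGap_color S w hw0 θ κ hone (hκθ.trans (by linarith)) hκ0 j c _ ?_ ?_
            · intro i hi hc
              rw [if_pos ⟨hi, hc⟩]
            · intro i hi
              rw [if_neg hi]
      _ = r - ((S.L s(v, j)).card : ℝ) / 2 := by
          rw [Finset.sum_sub_distrib, Finset.sum_ite_mem, Finset.univ_inter, Finset.sum_const,
            Finset.sum_const, nsmul_eq_mul, nsmul_eq_mul]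
          simp
          ring
      _ ≤ r - g / 2 := by linarith
  · have hg1 := hg0 hjv
    calc ∑ c : Fin r, ∑ i, (if S.big i j ∧ c ∈ S.L s(i, j) then
          w i / max (S.W w (S.part i)) κ else 0) ≤ ∑ _c : Fin r, (1 : ℝ) := by
          refine Finset.sum_le_sum fun c _ => ?_
          refine XGap_color S w hw0 θ κ hone (hκθ.trans (by linarith)) hκ0 j c _ ?_ ?_
          · intro i hi hc
            rw [if_pos ⟨hi, hc⟩]
          · intro i hi
            rw [if_neg hi]
      _ = r := by simp
      _ ≤ r - g / 2 := by linarith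

/-- the estimate of one weighted degree -/
private theorem XGap_degree {k r : ℕ} (hG : Good k r) {I ι : Type} [Fintype I] [DecidableEq I]
    [Fintype ι] [DecidableEq ι] (S : LS k r I ι) (w : I → ℝ) (hw0 : ∀ i, 0 ≤ w i)
    (hw1 : ∑ i, w i = 1) (θ κ : ℝ) (hone : S.OnePart w θ) (hκθ : θ ≤ κ / 2) (hκ0 : 0 < κ)
    (hκ : Real.exp 1 * ((k.choose 2 - 2 : ℕ) : ℝ) ≤ κ * r) (j v : I)
    (hv : S.W w (S.part v) ≤ κ / 2) (g : ℝ) (hg : S.big j v → g ≤ ((S.L s(j, v)).card : ℝ))
    (hg0 : ¬ S.big j v → g ≤ 0) :
    S.D w j + (1 - S.W w (S.part j)) / (2 * r) * g ≤ ∑ i, if S.part i ≠ S.part j then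
      w i * (Real.log r + Real.log (max (S.W w (S.part i)) κ) -
        Real.log (1 - S.W w (S.part j))) else 0 := by
  classical
  have hk := hG.hk
  have hr : 0 < r := lt_of_lt_of_le (by omega) (num2 hG)
  have hr0 : (0 : ℝ) < r := by exact_mod_cast hr
  have hz := XGap_z S w hw1 (S.part j)
  have hz0 : 0 ≤ 1 - S.W w (S.part j) := by
    rw [hz]
    refine Finset.sum_nonneg fun i _ => ?_
    split_ifs
    · exact hw0 i
    · exact le_rfl
  have hz1 : 1 - S.W w (S.part j) ≤ 1 := by
    have := XGap_W_nonneg S w hw0 (S.part j)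
    linarith
  rcases hz0.eq_or_lt with hz2 | hz2
  · -- no weight outside the part
    have hw : ∀ i, S.part i ≠ S.part j → w i = 0 := by
      intro i hi
      rw [← hz2] at hz
      have h1 := (Finset.sum_eq_zero_iff_of_nonneg (fun i _ => by
        split_ifs
        · exact hw0 i
        · exact le_rfl)).mp hz.symm i (Finset.mem_univ i)
      rwa [if_pos hi] at h1
    have h1 : S.D w j = 0 := by
      unfold LS.D LS.ell ellF
      refine Finset.sum_eq_zero fun i _ => ?_
      by_cases hi : S.part j = S.part i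
      · rw [if_pos hi, mul_zero]
      · rw [hw i (Ne.symm hi), zero_mul]
    rw [h1, ← hz2, zero_div, zero_mul, add_zero, Finset.sum_eq_zero]
    intro i _
    by_cases hi : S.part i ≠ S.part j
    · rw [if_pos hi, hw i hi, zero_mul]
    · rw [if_neg hi]
  · set z : ℝ := 1 - S.W w (S.part j) with hzdef
    -- the part of the sum on the big pairs
    let b : I → ℝ := fun i => if S.big i j then
      w i * ((S.L s(i, j)).card : ℝ) / max (S.W w (S.part i)) κ else 0
    have hb := XGap_total S w hw0 θ κ hone hκθ hκ0 j v hv g hg hg0 b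
      (fun i hi => by simp only [b]; rw [if_pos hi]) (fun i hi => by simp only [b]; rw [if_neg hi])
    have hterm : ∀ i, w i * S.ell j i ≤ (if S.part i ≠ S.part j then
        w i * (Real.log r + Real.log (max (S.W w (S.part i)) κ) - Real.log z) else 0) -
        (if S.part i ≠ S.part j then w i else 0) + (z / r) * b i := by
      intro i
      by_cases hi : S.part i ≠ S.part j
      · rw [if_pos hi, if_pos hi]
        have hm : 0 < max (S.W w (S.part i)) κ := lt_max_of_lt_right hκ0
        have hell : S.ell j i = Real.log ((S.L s(i, j)).card : ℝ) := by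
          unfold LS.ell ellF
          rw [if_neg (Ne.symm hi), Sym2.eq_swap]
        have hLpos : (0 : ℝ) < (S.L s(i, j)).card := by
          exact_mod_cast (S.ne i j hi).card_pos
        rw [hell]
        by_cases hbig : S.big i j
        · have hbi : b i = w i * ((S.L s(i, j)).card : ℝ) / max (S.W w (S.part i)) κ := by
            simp only [b]
            rw [if_pos hbig]
          rw [hbi]
          have ht : 0 < z * (S.L s(i, j)).card / (r * max (S.W w (S.part i)) κ) := by positivity
          have hlog := Real.log_le_sub_one_of_pos ht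
          rw [Real.log_div (by positivity) (by positivity), Real.log_mul hz2.ne' hLpos.ne',
            Real.log_mul hr0.ne' hm.ne'] at hlog
          have h3 : Real.log ((S.L s(i, j)).card : ℝ) ≤ Real.log r +
              Real.log (max (S.W w (S.part i)) κ) - Real.log z - 1 +
              z * (S.L s(i, j)).card / (r * max (S.W w (S.part i)) κ) := by linarith
          have h4 := mul_le_mul_of_nonneg_left h3 (hw0 i)
          refine h4.trans (le_of_eq ?_)
          field_simp
        · have hbi : b i = 0 := by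
            simp only [b]
            rw [if_neg hbig]
          rw [hbi, mul_zero, add_zero]
          have hcard : (S.L s(i, j)).card ≤ k.choose 2 - 2 := by
            have h5 : ¬ k.choose 2 - 1 ≤ (S.L s(i, j)).card := fun h => hbig ⟨hi, h⟩
            omega
          have hcard2 : ((S.L s(i, j)).card : ℝ) ≤ ((k.choose 2 - 2 : ℕ) : ℝ) := by
            exact_mod_cast hcard
          have h6 : Real.exp 1 * ((S.L s(i, j)).card : ℝ) ≤
              r * max (S.W w (S.part i)) κ / z := by
            rw [le_div_iff₀ hz2]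
            calc Real.exp 1 * ((S.L s(i, j)).card : ℝ) * z
                ≤ Real.exp 1 * ((S.L s(i, j)).card : ℝ) * 1 := by gcongr
              _ ≤ Real.exp 1 * ((k.choose 2 - 2 : ℕ) : ℝ) := by
                  rw [mul_one]
                  gcongr
              _ ≤ κ * r := hκ
              _ ≤ r * max (S.W w (S.part i)) κ := by
                  rw [mul_comm]
                  gcongr
                  exact le_max_right _ _
          have h7 := Real.log_le_log (by positivity) h6
          rw [Real.log_div (by positivity) hz2.ne', Real.log_mul hr0.ne' hm.ne',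
            Real.log_mul (Real.exp_pos 1).ne' hLpos.ne', Real.log_exp] at h7
          have h3 : Real.log ((S.L s(i, j)).card : ℝ) ≤ Real.log r +
              Real.log (max (S.W w (S.part i)) κ) - Real.log z - 1 := by linarith
          have h4 := mul_le_mul_of_nonneg_left h3 (hw0 i)
          refine h4.trans (le_of_eq ?_)
          ring
      · rw [if_neg hi, if_neg hi]
        have hbig : ¬ S.big i j := fun h => hi h.1
        have hbi : b i = 0 := by
          simp only [b]
          rw [if_neg hbig]
        have hell : S.ell j i = 0 := by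
          unfold LS.ell ellF
          rw [if_pos (not_not.mp hi).symm]
        rw [hbi, hell]
        simp
    have hDD : S.D w j = ∑ i, w i * S.ell j i := rfl
    calc S.D w j + z / (2 * r) * g = ∑ i, w i * S.ell j i + z / (2 * r) * g := by rw [hDD]
      _ ≤ ∑ i, ((if S.part i ≠ S.part j then
          w i * (Real.log r + Real.log (max (S.W w (S.part i)) κ) - Real.log z) else 0) -
          (if S.part i ≠ S.part j then w i else 0) + (z / r) * b i) + z / (2 * r) * g :=
          add_le_add_left (Finset.sum_le_sum fun i _ => hterm i) _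
      _ = (∑ i, (if S.part i ≠ S.part j then
          w i * (Real.log r + Real.log (max (S.W w (S.part i)) κ) - Real.log z) else 0)) - z +
          (z / r) * ∑ i, b i + z / (2 * r) * g := by
          rw [Finset.sum_add_distrib, Finset.sum_sub_distrib, ← Finset.mul_sum, ← hz]
      _ ≤ (∑ i, (if S.part i ≠ S.part j then
          w i * (Real.log r + Real.log (max (S.W w (S.part i)) κ) - Real.log z) else 0)) - z +
          (z / r) * (r - g / 2) + z / (2 * r) * g := by
          gcongr
      _ = _ := by
          field_simp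
          ring

theorem V_le_phi_gap {k r : ℕ} (hG : Good k r) {I ι : Type} [Fintype I] [DecidableEq I]
    [Fintype ι] [DecidableEq ι] (S : LS k r I ι) (w : I → ℝ) (hw0 : ∀ i, 0 ≤ w i)
    (hw1 : ∑ i, w i = 1) (θ κ : ℝ) (hone : S.OnePart w θ) (hκθ : θ ≤ κ / 2) (hκ0 : 0 < κ)
    (hκ : Real.exp 1 * ((k.choose 2 - 2 : ℕ) : ℝ) ≤ κ * r) (z : I)
    (hz : S.W w (S.part z) ≤ κ / 2) (b : I → ℝ)
    (hb : ∀ i, S.big i z → b i ≤ ((S.L s(i, z)).card : ℝ)) (hb0 : ∀ i, ¬ S.big i z → b i ≤ 0) :
    ∑ i, w i * S.D w i + ∑ i, w i * ((1 - S.W w (S.part i)) / (2 * r) * b i) ≤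
      ∑ X, phi (Real.log r) κ (S.W w X) := by
  have h1 : ∑ i, w i * S.D w i + ∑ i, w i * ((1 - S.W w (S.part i)) / (2 * r) * b i) ≤
      ∑ j, w j * ∑ i, (if S.part i ≠ S.part j then
      w i * (Real.log r + Real.log (max (S.W w (S.part i)) κ) -
        Real.log (1 - S.W w (S.part j))) else 0) := by
    rw [← Finset.sum_add_distrib]
    refine Finset.sum_le_sum fun j _ => ?_
    rw [← mul_add]
    exact mul_le_mul_of_nonneg_left
      (XGap_degree hG S w hw0 hw1 θ κ hone hκθ hκ0 hκ j z hz (b j) (hb j) (hb0 j)) (hw0 j)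
  refine h1.trans (le_of_eq ?_)
  have h2 : ∀ j, w j * ∑ i, (if S.part i ≠ S.part j then
      w i * (Real.log r + Real.log (max (S.W w (S.part i)) κ) -
        Real.log (1 - S.W w (S.part j))) else 0) =
      ∑ i, (if S.part i ≠ S.part j then w j else 0) *
        (w i * (Real.log r + Real.log (max (S.W w (S.part i)) κ))) -
      w j * ((1 - S.W w (S.part j)) * Real.log (1 - S.W w (S.part j))) := by
    intro j
    have hz := XGap_z S w hw1 (S.part j)
    have h3 : w j * ((1 - S.W w (S.part j)) * Real.log (1 - S.W w (S.part j))) =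
        ∑ i, w j * ((if S.part i ≠ S.part j then w i else 0) *
          Real.log (1 - S.W w (S.part j))) := by
      rw [← Finset.mul_sum, ← Finset.sum_mul, ← hz]
    rw [h3, Finset.mul_sum, ← Finset.sum_sub_distrib]
    refine Finset.sum_congr rfl fun i _ => ?_
    by_cases hi : S.part i ≠ S.part j
    · rw [if_pos hi, if_pos hi, if_pos hi]
      ring
    · rw [if_neg hi, if_neg hi, if_neg hi]
      ring
  rw [Finset.sum_congr rfl fun j _ => h2 j, Finset.sum_sub_distrib, Finset.sum_comm]
  have h4 : ∀ i, ∑ j, (if S.part i ≠ S.part j then w j else 0) *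
        (w i * (Real.log r + Real.log (max (S.W w (S.part i)) κ))) =
      w i * ((1 - S.W w (S.part i)) * (Real.log r + Real.log (max (S.W w (S.part i)) κ))) := by
    intro i
    rw [← Finset.sum_mul, XGap_z S w hw1 (S.part i)]
    have h5 : ∑ j, (if S.part i ≠ S.part j then w j else 0) =
        ∑ j, (if S.part j ≠ S.part i then w j else 0) := by
      refine Finset.sum_congr rfl fun j _ => ?_
      by_cases h : S.part i = S.part j
      · rw [if_neg (not_not.mpr h), if_neg (not_not.mpr h.symm)]
      · rw [if_pos h, if_pos (Ne.symm h)]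
    rw [h5]
    ring
  rw [Finset.sum_congr rfl fun i _ => h4 i]
  rw [XGap_fiber S w fun X => (1 - S.W w X) * (Real.log r + Real.log (max (S.W w X) κ)),
    XGap_fiber S w fun X => (1 - S.W w X) * Real.log (1 - S.W w X), ← Finset.sum_sub_distrib]
  refine Finset.sum_congr rfl fun X _ => ?_
  unfold phi
  ring

end MP2ab38c
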