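import Pool.Agent.Lib.MP_2ab38c_co.Core

/-!
JOB XLoss.  Comparison of `loss x l` for consecutive `l`.  With `R = x + log (x-1)`,
`loss x l = (x-1) - (1-1/l)(R - log (l-1))`, so
`l (l-1) (loss x (l-1) - loss x l) = R - log (l-1) - l (l-2) log ((l-1)/(l-2))`.
`loss_pred`: `R ≥ l + log (l-1)` and with `t = 1/(l-2)`, `log (1+t) ≤ t - t^2/2 + t^3/3`
the right side is `≥ l/(2(l-2)) - l/(3(l-2)^2) ≥ 0.4`.
`loss_succ`: `R ≤ l - 1 + log (l-2)`, `log (1+t) ≥ t - t^2/2`: the negative of the right side is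
`≥ 1 - l/(2(l-2)) ≥ 0.4`.
`loss_near2`: same proof as `loss_near` (file ALoss) with `a ≤ 1/36`.
-/

namespace MP2ab38c

/-- Taylor bounds for `log (1+t)`, `0 < t ≤ 1/28` -/
theorem XLoss_log {t : ℝ} (ht : 0 < t) (ht1 : t ≤ 1 / 28) :
    Real.log (1 + t) ≤ t - t ^ 2 / 2 + 28 / 27 * t ^ 3 ∧
      t - t ^ 2 / 2 - 28 / 27 * t ^ 3 ≤ Real.log (1 + t) := by
  have h1 := Real.abs_log_sub_add_sum_range_le (x := -t)
    (by rw [abs_neg, abs_of_pos ht]; linarith) 2
  rw [Finset.sum_range_succ, Finset.sum_range_one, abs_neg, abs_of_pos ht] at h1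
  norm_num at h1
  have h2 : t ^ 3 / (1 - t) ≤ 28 / 27 * t ^ 3 := by
    rw [div_le_iff₀ (by linarith)]
    have h3 : 0 < t ^ 3 := by positivity
    nlinarith
  have h4 := abs_le.1 h1
  constructor
  · linarith [h4.2]
  · linarith [h4.1]

theorem XLoss_key {x l : ℝ} (hl : 30 ≤ l) (hx : 1 < x) :
    l * (l - 1) * (loss x (l - 1) - loss x l) =
      x + Real.log (x - 1) - Real.log (l - 1) -
        l * (l - 2) * (Real.log (l - 1) - Real.log (l - 2)) := by
  unfold loss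
  have h1 : l ≠ 0 := by linarith
  have h2 : l - 1 ≠ 0 := by intro h; linarith
  have h3 : l - 1 - 1 = l - 2 := by ring
  rw [h3, Real.log_div (by intro h; linarith) (by intro h; linarith),
    Real.log_div h2 (by intro h; linarith)]
  field_simp
  ring

theorem XLoss_t {l : ℝ} (hl : 30 ≤ l) :
    Real.log (l - 1) - Real.log (l - 2) ≤
      1 / (l - 2) - (1 / (l - 2)) ^ 2 / 2 + 28 / 27 * (1 / (l - 2)) ^ 3 ∧
    1 / (l - 2) - (1 / (l - 2)) ^ 2 / 2 - 28 / 27 * (1 / (l - 2)) ^ 3 ≤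
      Real.log (l - 1) - Real.log (l - 2) := by
  have h0 : 0 < l - 2 := by linarith
  have h1 := XLoss_log (t := 1 / (l - 2)) (by positivity) (by
    rw [div_le_div_iff₀ h0 (by norm_num)]
    linarith)
  have h2 : Real.log (l - 1) - Real.log (l - 2) = Real.log (1 + 1 / (l - 2)) := by
    rw [← Real.log_div (by intro h; linarith) h0.ne']
    congr 1
    field_simp
    ring
  rw [h2]
  exact h1

theorem loss_pred {x l : ℝ} (hl : 30 ≤ l) (hlx : l ≤ x) :
    loss x l + 0.4 / (l * (l - 1)) ≤ loss x (l - 1) := by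
  have h1 := XLoss_key (x := x) hl (by linarith)
  have h2 : 0 < l * (l - 1) := by
    have : 0 < l - 1 := by linarith
    have : 0 < l := by linarith
    positivity
  have h3 : Real.log (l - 1) ≤ Real.log (x - 1) :=
    Real.log_le_log (by linarith) (by linarith)
  have h4 := (XLoss_t hl).1
  have h0 : 0 < l - 2 := by linarith
  have h5 : l * (l - 2) * (Real.log (l - 1) - Real.log (l - 2)) ≤
      l * (l - 2) * (1 / (l - 2) - (1 / (l - 2)) ^ 2 / 2 + 28 / 27 * (1 / (l - 2)) ^ 3) :=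
    mul_le_mul_of_nonneg_left h4 (by positivity)
  have h6 : l * (l - 2) * (1 / (l - 2) - (1 / (l - 2)) ^ 2 / 2 + 28 / 27 * (1 / (l - 2)) ^ 3) ≤
      l - 0.4 := by
    obtain ⟨m, rfl⟩ : ∃ m, l = m + 2 := ⟨l - 2, by ring⟩
    have e1 : m + 2 - 2 = m := by ring
    rw [e1] at h0 ⊢
    have hm : 28 ≤ m := by linarith
    have e2 : (m + 2) * m * (1 / m - (1 / m) ^ 2 / 2 + 28 / 27 * (1 / m) ^ 3) =
        (m + 2) - (m + 2) / (2 * m) + 28 / 27 * (m + 2) / m ^ 2 := by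
      field_simp
    rw [e2]
    have e3 : 0.4 ≤ (m + 2) / (2 * m) - 28 / 27 * (m + 2) / m ^ 2 := by
      have e4 : (m + 2) / (2 * m) - 28 / 27 * (m + 2) / m ^ 2 =
          ((m + 2) * m * 27 - 56 * (m + 2)) / (54 * m ^ 2) := by
        field_simp
        ring
      rw [e4, le_div_iff₀ (by positivity)]
      norm_num
      nlinarith
    linarith
  have h7 : 0.4 ≤ l * (l - 1) * (loss x (l - 1) - loss x l) := by
    rw [h1]; linarith
  have h8 : 0.4 / (l * (l - 1)) ≤ loss x (l - 1) - loss x l := by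
    rw [div_le_iff₀ h2]; linarith
  linarith

theorem loss_succ {x l : ℝ} (hl : 30 ≤ l) (hxl : x + 1 ≤ l) (hx : 2 ≤ x) :
    loss x (l - 1) + 0.4 / (l * (l - 1)) ≤ loss x l := by
  have h1 := XLoss_key (x := x) hl (by linarith)
  have h2 : 0 < l * (l - 1) := by
    have : 0 < l - 1 := by linarith
    have : 0 < l := by linarith
    positivity
  have h3 : Real.log (x - 1) ≤ Real.log (l - 2) :=
    Real.log_le_log (by linarith) (by linarith)
  have h4 := (XLoss_t hl).2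
  have h0 : 0 < l - 2 := by linarith
  have h5 : (l - 1) ^ 2 * (1 / (l - 2) - (1 / (l - 2)) ^ 2 / 2 - 28 / 27 * (1 / (l - 2)) ^ 3) ≤
      (l - 1) ^ 2 * (Real.log (l - 1) - Real.log (l - 2)) :=
    mul_le_mul_of_nonneg_left h4 (by positivity)
  have h6 : (l - 1) + 0.4 ≤
      (l - 1) ^ 2 * (1 / (l - 2) - (1 / (l - 2)) ^ 2 / 2 - 28 / 27 * (1 / (l - 2)) ^ 3) := by
    obtain ⟨m, rfl⟩ : ∃ m, l = m + 2 := ⟨l - 2, by ring⟩
    have e1 : m + 2 - 2 = m := by ring
    have e0 : m + 2 - 1 = m + 1 := by ring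
    rw [e1] at h0 ⊢
    rw [e0]
    have hm : 28 ≤ m := by linarith
    have e2 : (m + 1) ^ 2 * (1 / m - (1 / m) ^ 2 / 2 - 28 / 27 * (1 / m) ^ 3) =
        ((m + 1) ^ 2 * (54 * m ^ 2 - 27 * m - 56)) / (54 * m ^ 3) := by
      field_simp
      ring
    rw [e2, le_div_iff₀ (by positivity)]
    norm_num
    nlinarith [sq_nonneg (m - 28), mul_pos h0 h0]
  have h7 : l * (l - 1) * (loss x (l - 1) - loss x l) ≤ -0.4 := by
    rw [h1]; nlinarith
  have h8 : 0.4 / (l * (l - 1)) ≤ loss x l - loss x (l - 1) := by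
    rw [div_le_iff₀ h2]; linarith
  linarith

end MP2ab38c
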